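import Mathlib

set_option autoImplicit false

/-!
# Second coefficient of harmonic univalent maps: common definitions

* Part A: maximal surfaces given by Weierstrass data `(L, R)`: `F' = R L'`, `G' = R ^ 2 L'`.
* Part B: finite data in the upper half plane (poles `p j`, residues `c j`, matching `σ`).
* Part C: univalent harmonic polynomials `f = h + conj g` near the closed disc,
  `L = h - g`, `Im f = Im L`.
-/

namespace Pool.CSH

open Complex Set Metric ComplexConjugate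

/-- Weierstrass data of a maximal surface on an open set `U`. -/
structure Surf (U : Set ℂ) (L F G R : ℂ → ℂ) : Prop where
  dL : DifferentiableOn ℂ L U
  dF : DifferentiableOn ℂ F U
  dG : DifferentiableOn ℂ G U
  dR : DifferentiableOn ℂ R U
  hF : ∀ z ∈ U, deriv F z = R z * deriv L z
  hG : ∀ z ∈ U, deriv G z = R z ^ 2 * deriv L z
  hR : ∀ z ∈ U, 0 < (R z).im
  hL : ∀ z ∈ U, deriv L z ≠ 0

/-- Squared Lorentz distance of two points of the surface `Im (L, F, G)`. -/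
def KK (L F G : ℂ → ℂ) (x y : ℂ) : ℝ :=
  (F x - F y).im ^ 2 - (G x - G y).im * (L x - L y).im

/-- Strict achronality on `U`. -/
def Achr (U : Set ℂ) (L F G : ℂ → ℂ) : Prop :=
  ∀ x ∈ U, ∀ y ∈ U, x ≠ y → 0 < KK L F G x y

/-- The open upper half plane as a set of complex numbers. -/
def HH : Set ℂ := {w | 0 < w.im}

/-! ### Part B -/

/-- Complex derivative `L'`. -/
noncomputable def Lp {N : ℕ} (p c : Fin N → ℝ) (w : ℂ) : ℂ := ∑ j, (c j : ℂ) / (w - p j)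

/-- `L'` on the real line. -/
noncomputable def Lr {N : ℕ} (p c : Fin N → ℝ) (x : ℝ) : ℝ := ∑ j, c j / (x - p j)

/-- `L''` on the real line. -/
noncomputable def Lr' {N : ℕ} (p c : Fin N → ℝ) (x : ℝ) : ℝ := -∑ j, c j / (x - p j) ^ 2

/-- Finite data in the upper half plane.  Indices with `σ j = j` are unmatched. -/
structure HData {N : ℕ} (p c : Fin N → ℝ) (σ : Fin N → Fin N) : Prop where
  mono : StrictMono p
  cne : ∀ j, c j ≠ 0
  csum : ∑ j, c j = 0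
  nz : ∀ w : ℂ, 0 < w.im → Lp p c w ≠ 0
  simple : ∀ x : ℝ, (∀ j, x ≠ p j) → Lr p c x = 0 → Lr' p c x ≠ 0
  invol : ∀ j, σ (σ j) = j
  /-- non-crossing -/
  nonc : ∀ i j, i < j → j < σ i → i < σ j ∧ σ j < σ i
  /-- no unmatched index inside a pair -/
  unm : ∀ i j, i < j → j < σ i → σ j ≠ j
  csig : ∀ j, σ j ≠ j → c (σ j) = -c j
  /-- unmatched indices: first the positive ones (left chain), then the negative ones -/
  outer : ∀ i j, σ i = i → σ j = j → i < j → 0 < c j → 0 < c i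
  /-- at least two positive unmatched indices -/
  two : ∃ i j, i < j ∧ σ i = i ∧ σ j = j ∧ 0 < c i ∧ 0 < c j
  /-- a zero directly inside every pair -/
  zin : ∀ i, i < σ i → ∃ x : ℝ, p i < x ∧ x < p (σ i) ∧ (∀ j, x ≠ p j) ∧ Lr p c x = 0 ∧
    ∀ j, i < j → j < σ i → j < σ j → ¬ (p j ≤ x ∧ x ≤ p (σ j))
  /-- a zero directly between consecutive unmatched indices of equal sign -/
  zout : ∀ i j, i < j → σ i = i → σ j = j → (∀ k, i < k → k < j → σ k ≠ k) → 0 < c i * c j →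
    ∃ x : ℝ, p i < x ∧ x < p j ∧ (∀ k, x ≠ p k) ∧ Lr p c x = 0 ∧
      ∀ k, i < k → k < j → k < σ k → ¬ (p k ≤ x ∧ x ≤ p (σ k))

/-- `R` on the real line, poles `z ∈ Z` with weights `ρ z`. -/
noncomputable def Rr (Z : Finset ℝ) (ρ : ℝ → ℝ) (x : ℝ) : ℝ := ∑ z ∈ Z, ρ z / (z - x)

/-- `R` in the upper half plane. -/
noncomputable def Rc (Z : Finset ℝ) (ρ : ℝ → ℝ) (w : ℂ) : ℂ := ∑ z ∈ Z, (ρ z : ℂ) / ((z : ℂ) - w)

/-- Solution of the linear problem: positive weights at some real zeros of `L'` such that `R`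
agrees at matched poles, decreases along both chains, and the jumps of `G` cancel inside pairs. -/
structure LinSol {N : ℕ} (p c : Fin N → ℝ) (σ : Fin N → Fin N) (Z : Finset ℝ) (ρ : ℝ → ℝ) :
    Prop where
  ne : Z.Nonempty
  zz : ∀ z ∈ Z, (∀ j, z ≠ p j) ∧ Lr p c z = 0 ∧ 0 < ρ z
  seam : ∀ i, Rr Z ρ (p (σ i)) = Rr Z ρ (p i)
  conv : ∀ i j, i < j → σ i = i → σ j = j → 0 < c i * c j → Rr Z ρ (p j) < Rr Z ρ (p i)
  gcl : ∀ i, i < σ i →
    ∑ z ∈ Z.filter (fun z => p i < z ∧ z < p (σ i)), ρ z ^ 2 * Lr' p c z = 0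

/-- `L = Σ c j log (w - p j)`. -/
noncomputable def Lf {N : ℕ} (p c : Fin N → ℝ) (w : ℂ) : ℂ := ∑ j, (c j : ℂ) * Complex.log (w - p j)

/-- `F`. -/
noncomputable def Ff {N : ℕ} (p c : Fin N → ℝ) (Z : Finset ℝ) (ρ : ℝ → ℝ) (w : ℂ) : ℂ :=
  ∑ j, ((c j * Rr Z ρ (p j) : ℝ) : ℂ) * Complex.log (w - p j)

/-- `G`. -/
noncomputable def Gf {N : ℕ} (p c : Fin N → ℝ) (Z : Finset ℝ) (ρ : ℝ → ℝ) (w : ℂ) : ℂ :=
  ∑ j, ((c j * Rr Z ρ (p j) ^ 2 : ℝ) : ℂ) * Complex.log (w - p j) +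
    ∑ z ∈ Z, ((ρ z ^ 2 * Lr' p c z : ℝ) : ℂ) * Complex.log (w - z)

/-- The boundary points seen from the centre. -/
noncomputable def qq {N : ℕ} (p : Fin N → ℝ) (j : Fin N) : ℂ := ((p j : ℂ) + I) / ((p j : ℂ) - I)

/-! ### Part C -/

/-- The harmonic map. -/
noncomputable def ff (h g : Polynomial ℂ) (z : ℂ) : ℂ := h.eval z + conj (g.eval z)

/-- Univalent sense-preserving harmonic polynomial near the closed unit disc. -/
structure Uni (h g : Polynomial ℂ) (r : ℝ) : Prop where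
  one_lt : 1 < r
  inj : InjOn (ff h g) (ball 0 r)
  sp : ∀ z ∈ ball (0 : ℂ) r, ‖g.derivative.eval z‖ < ‖h.derivative.eval z‖

/-- Boundary curve. -/
noncomputable def bd (h g : Polynomial ℂ) (θ : ℝ) : ℂ := ff h g (Complex.exp (θ * I))

/-- `Im L` on the circle. -/
noncomputable def vv (L : Polynomial ℂ) (θ : ℝ) : ℝ := (L.eval (Complex.exp (θ * I))).im

/-- Its derivative `Re (z L' z)`. -/
noncomputable def vd (L : Polynomial ℂ) (θ : ℝ) : ℝ :=
  (Complex.exp (θ * I) * L.derivative.eval (Complex.exp (θ * I))).re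

/-- Tangential derivative of `Re f`. -/
noncomputable def ud (h g : Polynomial ℂ) (θ : ℝ) : ℝ :=
  -(Complex.exp (θ * I) * (h + g).derivative.eval (Complex.exp (θ * I))).im

/-- `a` (upwards) and `b` (downwards) are horizontal neighbours: no curve point strictly between. -/
def Gap (h g : Polynomial ℂ) (a b : ℝ) : Prop :=
  (bd h g a).im = (bd h g b).im ∧ (bd h g a).re < (bd h g b).re ∧
    0 < vd (h - g) a ∧ vd (h - g) b < 0 ∧
    ∀ t : ℝ, (bd h g t).im = (bd h g a).im →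
      (bd h g t).re ≤ (bd h g a).re ∨ (bd h g b).re ≤ (bd h g t).re

/-- The upward point `a` is the rightmost curve point of its level. -/
def RFree (h g : Polynomial ℂ) (a : ℝ) : Prop :=
  0 < vd (h - g) a ∧ ∀ t : ℝ, (bd h g t).im = (bd h g a).im → (bd h g t).re ≤ (bd h g a).re

/-- The downward point `b` is the leftmost curve point of its level. -/
def LFree (h g : Polynomial ℂ) (b : ℝ) : Prop :=
  vd (h - g) b < 0 ∧ ∀ t : ℝ, (bd h g t).im = (bd h g b).im → (bd h g b).re ≤ (bd h g t).re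

/-- Derivative of the quadrature function `L_n`: `Σ 2 τ v'(t) / (e^{it} - z)`. -/
noncomputable def DD (L : Polynomial ℂ) {N : ℕ} (t τ : Fin N → ℝ) (z : ℂ) : ℂ :=
  ∑ j, ((2 * τ j * vd L (t j) : ℝ) : ℂ) / (Complex.exp (t j * I) - z)

/-- Exact quadrature data (angles `t` in `(θ₀, θ₀ + 2π)`, weights `τ`), closed under levels. -/
structure Quad (L : Polynomial ℂ) (θ₀ : ℝ) (C0 : Finset ℝ) {N : ℕ} (t τ : Fin N → ℝ) : Prop where
  mono : StrictMono t
  mem : ∀ j, t j ∈ Ioo θ₀ (θ₀ + 2 * Real.pi)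
  pos : ∀ j, 0 < τ j
  noncrit : ∀ j, ∀ θ, vv L θ = vv L (t j) → vd L θ ≠ 0
  level : ∀ j, ∀ θ ∈ Ioo θ₀ (θ₀ + 2 * Real.pi), vv L θ = vv L (t j) →
    ∃ k, t k = θ ∧ τ k * |vd L (t k)| = τ j * |vd L (t j)|
  cover : ∀ θ ∈ Ioo θ₀ (θ₀ + 2 * Real.pi), vv L θ ∈ C0 → ∃ k, t k = θ
  sum0 : ∑ j, τ j * vd L (t j) = 0
  d0 : DD L t τ 0 = L.derivative.eval 0
  d1 : ∑ j, ((2 * τ j * vd L (t j) : ℝ) : ℂ) * Complex.exp (-(2 * t j * I)) =
    L.derivative.derivative.eval 0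
  nz : ∀ z ∈ ball (0 : ℂ) 1, DD L t τ z ≠ 0
  simple : ∀ z ∈ sphere (0 : ℂ) 1, (∀ j, z ≠ Complex.exp (t j * I)) → DD L t τ z = 0 →
    ∑ j, ((2 * τ j * vd L (t j) : ℝ) : ℂ) / (Complex.exp (t j * I) - z) ^ 2 ≠ 0
  crit : ∀ θ, vd L θ = 0 → DD L t τ (Complex.exp (θ * I)) = L.derivative.eval (Complex.exp (θ * I))

/-- The half-plane coordinate of the circle point with angle `θ`. -/
noncomputable def pp (θ₀ θ : ℝ) : ℝ := -(Real.cos ((θ - θ₀) / 2) / Real.sin ((θ - θ₀) / 2))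

end Pool.CSH
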