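import Mathlib

open Complex Metric Set Filter Topology Asymptotics
open scoped ComplexConjugate

namespace Pool.CSH

/-- Second order jets at `0+` of complex valued functions of a real variable. -/
def Jet (f : ℝ → ℂ) (a b c : ℂ) : Prop :=
  ∃ F : ℝ → ℂ, Tendsto F (𝓝[>] 0) (𝓝 c) ∧
    ∀ᶠ e : ℝ in 𝓝[>] 0, f e = a + b * (e : ℂ) + F e * (e : ℂ) ^ 2

theorem tendsto_e : Tendsto (fun e : ℝ => (e : ℂ)) (𝓝[>] 0) (𝓝 0) := by
  have h : Tendsto (fun e : ℝ => (e : ℂ)) (𝓝 0) (𝓝 ((0 : ℝ) : ℂ)) :=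
    Complex.continuous_ofReal.continuousAt
  simpa using h.mono_left nhdsWithin_le_nhds

theorem Jet.const (a : ℂ) : Jet (fun _ => a) a 0 0 :=
  ⟨fun _ => 0, tendsto_const_nhds, Eventually.of_forall fun e => by ring⟩

theorem Jet.id' : Jet (fun e => (e : ℂ)) 0 1 0 :=
  ⟨fun _ => 0, tendsto_const_nhds, Eventually.of_forall fun e => by ring⟩

theorem Jet.congr {f g : ℝ → ℂ} {a b c : ℂ} (h : Jet f a b c)
    (hfg : ∀ᶠ e : ℝ in 𝓝[>] 0, g e = f e) : Jet g a b c := by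
  obtain ⟨F, hF, h1⟩ := h
  refine ⟨F, hF, ?_⟩
  filter_upwards [h1, hfg] with e he1 he2
  rw [he2, he1]

theorem Jet.coef {f : ℝ → ℂ} {a b c a' b' c' : ℂ} (h : Jet f a b c)
    (ha : a = a') (hb : b = b') (hc : c = c') : Jet f a' b' c' := by
  subst ha hb hc; exact h

theorem Jet.add {f g : ℝ → ℂ} {a b c a' b' c' : ℂ} (hf : Jet f a b c) (hg : Jet g a' b' c') :
    Jet (fun e => f e + g e) (a + a') (b + b') (c + c') := by
  obtain ⟨F, hF, h1⟩ := hf
  obtain ⟨G, hG, h2⟩ := hg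
  refine ⟨fun e => F e + G e, hF.add hG, ?_⟩
  filter_upwards [h1, h2] with e he1 he2
  rw [he1, he2]; ring

theorem Jet.mul {f g : ℝ → ℂ} {a b c a' b' c' : ℂ} (hf : Jet f a b c) (hg : Jet g a' b' c') :
    Jet (fun e => f e * g e) (a * a') (a * b' + b * a') (a * c' + b * b' + c * a') := by
  obtain ⟨F, hF, h1⟩ := hf
  obtain ⟨G, hG, h2⟩ := hg
  refine ⟨fun e => a * G e + b * b' + F e * a' + (e : ℂ) * (b * G e + b' * F e)
    + (e : ℂ) ^ 2 * (F e * G e), ?_, ?_⟩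
  · have h3 : Tendsto (fun e : ℝ => a * G e + b * b' + F e * a' + (e : ℂ) * (b * G e + b' * F e)
        + (e : ℂ) ^ 2 * (F e * G e)) (𝓝[>] 0)
        (𝓝 (a * c' + b * b' + c * a' + 0 * (b * c' + b' * c) + 0 ^ 2 * (c * c'))) :=
      (((((hG.const_mul a).add_const _).add (hF.mul_const a')).add
        (tendsto_e.mul ((hG.const_mul b).add (hF.const_mul b')))).add
        ((tendsto_e.pow 2).mul (hF.mul hG)))
    simpa using h3
  · filter_upwards [h1, h2] with e he1 he2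
    rw [he1, he2]; ring

theorem Jet.const_mul {f : ℝ → ℂ} {a b c : ℂ} (k : ℂ) (hf : Jet f a b c) :
    Jet (fun e => k * f e) (k * a) (k * b) (k * c) :=
  ((Jet.const k).mul hf).coef (by ring) (by ring) (by ring)

theorem Jet.neg {f : ℝ → ℂ} {a b c : ℂ} (hf : Jet f a b c) :
    Jet (fun e => - f e) (-a) (-b) (-c) :=
  ((hf.const_mul (-1)).congr (Eventually.of_forall fun e => by ring)).coef
    (by ring) (by ring) (by ring)

theorem Jet.sub {f g : ℝ → ℂ} {a b c a' b' c' : ℂ} (hf : Jet f a b c) (hg : Jet g a' b' c') :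
    Jet (fun e => f e - g e) (a - a') (b - b') (c - c') :=
  ((hf.add hg.neg).congr (Eventually.of_forall fun e => by ring)).coef
    (by ring) (by ring) (by ring)

theorem Jet.pow2 {f : ℝ → ℂ} {a b c : ℂ} (hf : Jet f a b c) :
    Jet (fun e => f e ^ 2) (a ^ 2) (2 * a * b) (2 * a * c + b ^ 2) :=
  ((hf.mul hf).congr (Eventually.of_forall fun e => by ring)).coef
    (by ring) (by ring) (by ring)

theorem Jet.conj {f : ℝ → ℂ} {a b c : ℂ} (hf : Jet f a b c) :
    Jet (fun e => conj (f e)) (conj a) (conj b) (conj c) := by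
  obtain ⟨F, hF, h1⟩ := hf
  refine ⟨fun e => conj (F e), (Complex.continuous_conj.tendsto _).comp hF, ?_⟩
  filter_upwards [h1] with e he1
  rw [he1]
  simp [map_add, map_mul]

theorem Jet.im {f : ℝ → ℂ} {a b c : ℂ} (hf : Jet f a b c) :
    Jet (fun e => ((f e).im : ℂ)) (a.im : ℂ) (b.im : ℂ) (c.im : ℂ) := by
  obtain ⟨F, hF, h1⟩ := hf
  refine ⟨fun e => ((F e).im : ℂ),
    ((Complex.continuous_ofReal.comp Complex.continuous_im).tendsto _).comp hF, ?_⟩
  filter_upwards [h1] with e he1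
  rw [he1]
  have h : ((a + b * (e : ℂ) + F e * (e : ℂ) ^ 2).im) = a.im + b.im * e + (F e).im * e ^ 2 := by
    have h2 : (e : ℂ) ^ 2 = ((e ^ 2 : ℝ) : ℂ) := by push_cast; ring
    rw [h2]
    simp only [Complex.add_im, Complex.im_mul_ofReal]
  rw [h]
  push_cast
  ring

theorem Jet.normSq {f : ℝ → ℂ} {a b c : ℂ} (hf : Jet f a b c) :
    Jet (fun e => ((‖f e‖ ^ 2 : ℝ) : ℂ)) (a * conj a) (a * conj b + b * conj a)
      (a * conj c + b * conj b + c * conj a) :=
  (hf.mul hf.conj).congr (Eventually.of_forall fun e => by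
    rw [Complex.mul_conj, Complex.normSq_eq_norm_sq])

theorem Jet.le {u v : ℝ → ℝ} {a c c' : ℂ} (hu : Jet (fun e => (u e : ℂ)) a 0 c)
    (hv : Jet (fun e => (v e : ℂ)) a 0 c') (h : ∀ᶠ e in 𝓝[>] (0 : ℝ), u e ≤ v e) :
    c.re ≤ c'.re := by
  obtain ⟨F, hF, h1⟩ := hu
  obtain ⟨G, hG, h2⟩ := hv
  refine le_of_tendsto_of_tendsto ((Complex.continuous_re.tendsto _).comp hF)
    ((Complex.continuous_re.tendsto _).comp hG) ?_
  filter_upwards [h1, h2, h, self_mem_nhdsWithin] with e he1 he2 he3 he4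
  have he : (0 : ℝ) < e := he4
  have h5 := congrArg Complex.re he1
  have h6 := congrArg Complex.re he2
  have h7 : (e : ℂ) ^ 2 = ((e ^ 2 : ℝ) : ℂ) := by push_cast; ring
  rw [h7] at h5 h6
  simp only [Complex.ofReal_re, Complex.add_re, zero_mul, add_zero,
    Complex.re_mul_ofReal] at h5 h6
  have h8 : (F e).re * e ^ 2 ≤ (G e).re * e ^ 2 := by linarith
  exact le_of_mul_le_mul_right h8 (by positivity)

/-- Third order Taylor expansion of an analytic function. -/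
theorem taylor3 {f : ℂ → ℂ} (hf : AnalyticAt ℂ f 0) :
    ∃ g : ℂ → ℂ, Tendsto g (𝓝 0) (𝓝 (deriv (deriv (deriv f)) 0 / 6)) ∧
      ∀ z, f z = f 0 + deriv f 0 * z + deriv (deriv f) 0 / 2 * z ^ 2 + g z * z ^ 3 := by
  classical
  have h := hf.hasFPowerSeriesAt.isBigO_sub_partialSum_pow 4
  have h2 : ∀ y : ℂ, (FormalMultilinearSeries.ofScalars ℂ
      (fun n ↦ iteratedDeriv n f 0 / n.factorial)).partialSum 4 y
      = f 0 + deriv f 0 * y + deriv (deriv f) 0 / 2 * y ^ 2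
        + deriv (deriv (deriv f)) 0 / 6 * y ^ 3 := by
    intro y
    simp only [FormalMultilinearSeries.partialSum, Finset.sum_range_succ,
      Finset.sum_range_zero, FormalMultilinearSeries.ofScalars_apply_eq, zero_add]
    simp only [iteratedDeriv_succ, iteratedDeriv_zero, smul_eq_mul, Nat.factorial]
    push_cast
    ring
  simp only [h2, zero_add] at h
  refine ⟨fun z => if z = 0 then deriv (deriv (deriv f)) 0 / 6 else
    (f z - (f 0 + deriv f 0 * z + deriv (deriv f) 0 / 2 * z ^ 2)) / z ^ 3, ?_, ?_⟩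
  · obtain ⟨C, hC⟩ := h.bound
    rw [tendsto_iff_norm_sub_tendsto_zero]
    have h3 : Tendsto (fun z : ℂ => C * ‖z‖) (𝓝 0) (𝓝 0) := by
      have : Tendsto (fun z : ℂ => C * ‖z‖) (𝓝 0) (𝓝 (C * ‖(0 : ℂ)‖)) :=
        (continuous_const.mul continuous_norm).tendsto _
      simpa using this
    refine squeeze_zero' (Eventually.of_forall fun z => norm_nonneg _) ?_ h3
    filter_upwards [hC] with z hz
    by_cases h0 : z = 0
    · simp [h0]
    · rw [if_neg h0]
      have hz3 : z ^ 3 ≠ 0 := pow_ne_zero _ h0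
      have hn : 0 < ‖z‖ := norm_pos_iff.2 h0
      have h4 : (f z - (f 0 + deriv f 0 * z + deriv (deriv f) 0 / 2 * z ^ 2)) / z ^ 3
          - deriv (deriv (deriv f)) 0 / 6
          = (f z - (f 0 + deriv f 0 * z + deriv (deriv f) 0 / 2 * z ^ 2
            + deriv (deriv (deriv f)) 0 / 6 * z ^ 3)) / z ^ 3 := by
        field_simp
        ring
      rw [h4, norm_div, norm_pow, div_le_iff₀ (by positivity)]
      refine hz.trans (le_of_eq ?_)
      rw [Real.norm_of_nonneg (by positivity)]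
      ring
  · intro z
    by_cases h0 : z = 0
    · simp [h0]
    · have hz3 : z ^ 3 ≠ 0 := pow_ne_zero _ h0
      simp only [if_neg h0]
      field_simp
      ring

/-- Jet of an analytic function along a line. -/
theorem jet_line {f : ℂ → ℂ} (hf : AnalyticAt ℂ f 0) (ζ : ℂ) :
    Jet (fun e => f ((e : ℂ) * ζ)) (f 0) (deriv f 0 * ζ) (deriv (deriv f) 0 / 2 * ζ ^ 2) := by
  obtain ⟨g, hg, h⟩ := taylor3 hf
  have hl : Tendsto (fun e : ℝ => (e : ℂ) * ζ) (𝓝[>] 0) (𝓝 0) := by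
    simpa using tendsto_e.mul_const ζ
  refine ⟨fun e => deriv (deriv f) 0 / 2 * ζ ^ 2 + g ((e : ℂ) * ζ) * ζ ^ 3 * (e : ℂ), ?_, ?_⟩
  · have := (((hg.comp hl).mul_const (ζ ^ 3)).mul tendsto_e).const_add
      (deriv (deriv f) 0 / 2 * ζ ^ 2)
    simpa using this
  · refine Eventually.of_forall fun e => ?_
    simp only []
    rw [h]
    ring

/-- Jet of the symmetric difference quotient of an analytic function. -/
theorem jet_odd {f : ℂ → ℂ} (hf : AnalyticAt ℂ f 0) (ζ : ℂ) :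
    Jet (fun e => (f ((e : ℂ) * ζ) - f ((e : ℂ) * (-ζ))) / (2 * (e : ℂ))) (deriv f 0 * ζ) 0
      (deriv (deriv (deriv f)) 0 / 6 * ζ ^ 3) := by
  obtain ⟨g, hg, h⟩ := taylor3 hf
  have hl : Tendsto (fun e : ℝ => (e : ℂ) * ζ) (𝓝[>] 0) (𝓝 0) := by
    simpa using tendsto_e.mul_const ζ
  have hl2 : Tendsto (fun e : ℝ => (e : ℂ) * (-ζ)) (𝓝[>] 0) (𝓝 0) := by
    simpa using tendsto_e.mul_const (-ζ)
  refine ⟨fun e => (g ((e : ℂ) * ζ) + g ((e : ℂ) * (-ζ))) / 2 * ζ ^ 3, ?_, ?_⟩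
  · have := (((hg.comp hl).add (hg.comp hl2)).div_const 2).mul_const (ζ ^ 3)
    have h3 : (deriv (deriv (deriv f)) 0 / 6 + deriv (deriv (deriv f)) 0 / 6) / 2 * ζ ^ 3
        = deriv (deriv (deriv f)) 0 / 6 * ζ ^ 3 := by ring
    rw [h3] at this
    exact this
  · filter_upwards [self_mem_nhdsWithin] with e he
    have he' : (e : ℂ) ≠ 0 := by
      exact_mod_cast (ne_of_gt he)
    rw [h (_ * ζ), h (_ * (-ζ))]
    field_simp
    ring

end Pool.CSH
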