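import Mathlib
import Pool.Agent.CSH.Jets
import Pool.Agent.CSH.Defs

open Complex Metric Set Filter Topology Asymptotics
open scoped ComplexConjugate

namespace Pool.CSH

theorem jet_one_sub : Jet (fun e : ℝ => (1 : ℂ) - (e : ℂ) ^ 2) 1 0 (-1) :=
  ((Jet.const 1).sub Jet.id'.pow2).coef (by ring) (by ring) (by ring)

theorem jet_one_add : Jet (fun e : ℝ => (1 : ℂ) + (e : ℂ) ^ 2) 1 0 1 :=
  ((Jet.const 1).add Jet.id'.pow2).coef (by ring) (by ring) (by ring)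

/-- The left hand jet. -/
theorem jet_left {P Q N : ℝ → ℂ} {A p q r s : ℂ}
    (hP : Jet P A (A * p) (A * q)) (hQ : Jet Q A (-(A * p)) (A * q))
    (hN : Jet N (2 * I) (r + conj r) (s - conj s)) :
    Jet (fun e => ((((1 - e ^ 2) ^ 2) ^ 2 * (‖P e‖ ^ 2 * ‖Q e‖ ^ 2) * (‖N e‖ ^ 2) ^ 2 / 16 : ℝ) : ℂ))
      (((A.re ^ 2 + A.im ^ 2) ^ 2 : ℝ) : ℂ) 0
      ((((A.re ^ 2 + A.im ^ 2) ^ 2 * (-4 + 2 * (2 * q - p ^ 2).re + 4 * s.im
        + (r.re ^ 2 + r.im ^ 2) + (r ^ 2).re) : ℝ)) : ℂ) := by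
  have h1 := (jet_one_sub.pow2.pow2.mul (hP.normSq.mul hQ.normSq)).mul hN.normSq.pow2
  have h2 := h1.const_mul (1 / 16)
  refine (h2.congr (Eventually.of_forall fun e => ?_)).coef ?_ ?_ ?_
  · push_cast; ring
  · apply Complex.ext <;> simp [pow_two] <;> ring
  · apply Complex.ext <;> simp [pow_two] <;> ring
  · apply Complex.ext <;> simp [pow_two] <;> ring

/-- The right hand jet. -/
theorem jet_right {DL DF DG : ℝ → ℂ} {A p q r s : ℂ}
    (hL : Jet DL A 0 (A * q / 3)) (hF : Jet DF (I * A) 0 (A * (s + r * p + I * q) / 3))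
    (hG : Jet DG (-A) 0 (A * (r ^ 2 + 2 * I * s + 2 * I * r * p - q) / 3)) :
    Jet (fun e => ((((DF e).im ^ 2 - (DG e).im * (DL e).im) ^ 2 * ((1 + e ^ 2) ^ 2) ^ 2 : ℝ) : ℂ))
      (((A.re ^ 2 + A.im ^ 2) ^ 2 : ℝ) : ℂ) 0
      ((((A.re ^ 2 + A.im ^ 2) * ((A.re ^ 2 + A.im ^ 2) * (4 + (4 / 3) * (q.re + (s + r * p).im)
        - (r ^ 2).re / 3) + (r ^ 2 * A ^ 2).re / 3) : ℝ)) : ℂ) := by
  have h1 := ((hF.im.pow2.sub (hG.im.mul hL.im)).pow2).mul jet_one_add.pow2.pow2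
  refine (h1.congr (Eventually.of_forall fun e => ?_)).coef ?_ ?_ ?_
  · push_cast; ring
  · apply Complex.ext <;> simp [pow_two] <;> ring
  · apply Complex.ext <;> simp
  · apply Complex.ext <;> simp [pow_two] <;> ring

theorem deriv2_mul {u v : ℂ → ℂ} {z₀ : ℂ} (hu : AnalyticAt ℂ u z₀) (hv : AnalyticAt ℂ v z₀) :
    deriv (deriv (fun z => u z * v z)) z₀ = deriv (deriv u) z₀ * v z₀
      + 2 * (deriv u z₀ * deriv v z₀) + u z₀ * deriv (deriv v) z₀ := by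
  have e1 : deriv (fun z => u z * v z) =ᶠ[𝓝 z₀]
      fun z => deriv u z * v z + u z * deriv v z := by
    filter_upwards [hu.eventually_analyticAt, hv.eventually_analyticAt] with z hz1 hz2
    exact deriv_fun_mul hz1.differentiableAt hz2.differentiableAt
  have h : HasDerivAt (fun z => deriv u z * v z + u z * deriv v z)
      ((deriv (deriv u) z₀ * v z₀ + deriv u z₀ * deriv v z₀)
        + (deriv u z₀ * deriv v z₀ + u z₀ * deriv (deriv v) z₀)) z₀ :=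
    (hu.deriv.differentiableAt.hasDerivAt.mul hv.differentiableAt.hasDerivAt).add
      (hu.differentiableAt.hasDerivAt.mul hv.deriv.differentiableAt.hasDerivAt)
  rw [e1.deriv_eq, h.deriv]
  ring

/-- The diagonal inequality (B). -/
theorem diag_ineq {L F G R : ℂ → ℂ} (hL : AnalyticAt ℂ L 0) (hF : AnalyticAt ℂ F 0)
    (hG : AnalyticAt ℂ G 0) (hR : AnalyticAt ℂ R 0)
    (hF' : deriv F =ᶠ[𝓝 0] fun z => R z * deriv L z)
    (hG' : deriv G =ᶠ[𝓝 0] fun z => R z ^ 2 * deriv L z)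
    (h0 : deriv L 0 ≠ 0) (hR0 : R 0 = I) {ζ : ℂ} (hζ : ‖ζ‖ = 1)
    (two : ∀ᶠ e : ℝ in 𝓝[>] 0, (1 - ‖(e : ℂ) * ζ‖ ^ 2) * (1 - ‖(e : ℂ) * (-ζ)‖ ^ 2) / 4
      * (‖deriv L ((e : ℂ) * ζ)‖ * ‖deriv L ((e : ℂ) * (-ζ))‖)
      * ‖R ((e : ℂ) * ζ) - conj (R ((e : ℂ) * (-ζ)))‖ ^ 2
      * ‖(e : ℂ) * ζ - (e : ℂ) * (-ζ)‖ ^ 2
      ≤ KK L F G ((e : ℂ) * ζ) ((e : ℂ) * (-ζ))
        * ‖1 - conj ((e : ℂ) * ζ) * ((e : ℂ) * (-ζ))‖ ^ 2) :
    (((4 / 3) * (deriv (deriv (deriv L)) 0 / (2 * deriv L 0))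
      - (deriv (deriv L) 0 / deriv L 0) ^ 2 + (2 / 3) * (deriv R 0) ^ 2
      - I * ((4 / 3) * (deriv (deriv R) 0 / 2)
        - (2 / 3) * (deriv R 0 * (deriv (deriv L) 0 / deriv L 0)))) * ζ ^ 2).re
      ≤ 4 - ‖deriv R 0‖ ^ 2 / 3 := by
  set l0 := deriv L 0 with hl0
  set l1 := deriv (deriv L) 0 with hl1
  set l2 := deriv (deriv (deriv L)) 0 with hl2
  set r1 := deriv R 0 with hr1
  set r2 := deriv (deriv R) 0 with hr2
  set A := l0 * ζ with hA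
  set p := l1 / l0 * ζ with hp
  set q := l2 / (2 * l0) * ζ ^ 2 with hq
  set r := r1 * ζ with hr
  set s := r2 / 2 * ζ ^ 2 with hs
  -- third derivatives
  have hF1 : deriv F 0 = I * l0 := by rw [hF'.eq_of_nhds, hR0]
  have hF3 : deriv (deriv (deriv F)) 0 = r2 * l0 + 2 * (r1 * l1) + I * l2 := by
    rw [hF'.deriv.deriv_eq, deriv2_mul hR hL.deriv, hR0]
  have hG1 : deriv G 0 = - l0 := by rw [hG'.eq_of_nhds, hR0, I_sq]; ring
  have hG3 : deriv (deriv (deriv G)) 0 = (2 * r1 ^ 2 + 2 * I * r2) * l0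
      + 4 * I * (r1 * l1) - l2 := by
    have e1 : (fun z => R z ^ 2 * deriv L z) = fun z => (R z * R z) * deriv L z := by
      funext z; ring
    have e2 : deriv (fun z => R z * R z) 0 = 2 * (I * r1) := by
      rw [deriv_fun_mul hR.differentiableAt hR.differentiableAt, hR0]; ring
    have hRR : AnalyticAt ℂ (fun z => R z * R z) 0 := hR.mul hR
    rw [hG'.deriv.deriv_eq, e1, deriv2_mul hRR hL.deriv]
    have e3 : deriv (deriv (fun z => R z * R z)) 0 = 2 * r1 ^ 2 + 2 * I * r2 := by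
      rw [deriv2_mul hR hR, hR0]; ring
    rw [e3, e2, hR0]
    linear_combination l2 * I_sq
  -- jets
  have jL : Jet (fun e => (L ((e : ℂ) * ζ) - L ((e : ℂ) * (-ζ))) / (2 * (e : ℂ))) A 0
      (A * q / 3) := by
    refine (jet_odd hL ζ).coef rfl rfl ?_
    rw [hA, hq, ← hl2]; field_simp; ring
  have jF : Jet (fun e => (F ((e : ℂ) * ζ) - F ((e : ℂ) * (-ζ))) / (2 * (e : ℂ))) (I * A) 0
      (A * (s + r * p + I * q) / 3) := by
    refine (jet_odd hF ζ).coef ?_ rfl ?_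
    · rw [hF1, hA]; ring
    · rw [hF3, hA, hq, hs, hr, hp]; field_simp; ring
  have jG : Jet (fun e => (G ((e : ℂ) * ζ) - G ((e : ℂ) * (-ζ))) / (2 * (e : ℂ))) (-A) 0
      (A * (r ^ 2 + 2 * I * s + 2 * I * r * p - q) / 3) := by
    refine (jet_odd hG ζ).coef ?_ rfl ?_
    · rw [hG1, hA]; ring
    · rw [hG3, hA, hq, hs, hr, hp]; field_simp; ring
  have jP : Jet (fun e => ζ * deriv L ((e : ℂ) * ζ)) A (A * p) (A * q) := by
    refine ((jet_line hL.deriv ζ).const_mul ζ).coef ?_ ?_ ?_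
    · rw [hA]; ring
    · rw [hA, hp, ← hl1]; field_simp
    · rw [hA, hq, ← hl2]; field_simp
  have jQ : Jet (fun e => ζ * deriv L ((e : ℂ) * (-ζ))) A (-(A * p)) (A * q) := by
    refine ((jet_line hL.deriv (-ζ)).const_mul ζ).coef ?_ ?_ ?_
    · rw [hA]; ring
    · rw [hA, hp, ← hl1]; field_simp
    · rw [hA, hq, ← hl2]; field_simp
  have jN : Jet (fun e => R ((e : ℂ) * ζ) - conj (R ((e : ℂ) * (-ζ)))) (2 * I)
      (r + conj r) (s - conj s) := by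
    refine ((jet_line hR ζ).sub (jet_line hR (-ζ)).conj).coef ?_ ?_ ?_
    · rw [hR0]; simp; ring
    · simp [hr, hr1]
    · simp [hs, hr2]
  have hu := jet_left jP jQ jN
  have hv := jet_right jL jF jG
  have hmain := Jet.le hu hv ?_
  · rw [Complex.ofReal_re, Complex.ofReal_re] at hmain
    have hApos : 0 < A.re ^ 2 + A.im ^ 2 := by
      have : A ≠ 0 := by
        rw [hA]
        refine mul_ne_zero h0 ?_
        intro h; rw [h] at hζ; simp at hζ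
      have h2 := Complex.normSq_pos.2 this
      rw [Complex.normSq_apply] at h2
      nlinarith
    have hle : (r ^ 2 * A ^ 2).re ≤ (r.re ^ 2 + r.im ^ 2) * (A.re ^ 2 + A.im ^ 2) := by
      refine (Complex.re_le_norm _).trans (le_of_eq ?_)
      rw [norm_mul, norm_pow, norm_pow, ← Complex.normSq_eq_norm_sq, ← Complex.normSq_eq_norm_sq,
        Complex.normSq_apply, Complex.normSq_apply]
      ring
    have h3 : (A.re ^ 2 + A.im ^ 2) * (-4 + 2 * (2 * q - p ^ 2).re + 4 * s.im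
        + (r.re ^ 2 + r.im ^ 2) + (r ^ 2).re)
        ≤ (A.re ^ 2 + A.im ^ 2) * (4 + (4 / 3) * (q.re + (s + r * p).im)
        - (r ^ 2).re / 3) + (r ^ 2 * A ^ 2).re / 3 := by
      refine le_of_mul_le_mul_left ?_ hApos
      calc _ = (A.re ^ 2 + A.im ^ 2) ^ 2 * (-4 + 2 * (2 * q - p ^ 2).re + 4 * s.im
        + (r.re ^ 2 + r.im ^ 2) + (r ^ 2).re) := by ring
        _ ≤ _ := hmain
    have h4 : (A.re ^ 2 + A.im ^ 2) * (-4 + 2 * (2 * q - p ^ 2).re + 4 * s.im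
        + (r.re ^ 2 + r.im ^ 2) + (r ^ 2).re)
        ≤ (A.re ^ 2 + A.im ^ 2) * (4 + (4 / 3) * (q.re + (s + r * p).im)
        - (r ^ 2).re / 3 + (r.re ^ 2 + r.im ^ 2) / 3) := by
      nlinarith [h3, hle]
    have h5 := le_of_mul_le_mul_left h4 hApos
    have hr1n : ‖r1‖ ^ 2 = r.re ^ 2 + r.im ^ 2 := by
      have : ‖r1‖ = ‖r‖ := by rw [hr, norm_mul, hζ, mul_one]
      rw [this, ← Complex.normSq_eq_norm_sq, Complex.normSq_apply]; ring
    have h6 : ((4 / 3) * (l2 / (2 * l0)) - (l1 / l0) ^ 2 + (2 / 3) * r1 ^ 2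
        - I * ((4 / 3) * (r2 / 2) - (2 / 3) * (r1 * (l1 / l0)))) * ζ ^ 2
        = (4 / 3) * q - p ^ 2 + (2 / 3) * r ^ 2 - I * ((4 / 3) * s - (2 / 3) * (r * p)) := by
      rw [hq, hp, hr, hs]; ring
    rw [h6, hr1n]
    have h7 : ((4 / 3) * q - p ^ 2 + (2 / 3) * r ^ 2 - I * ((4 / 3) * s - (2 / 3) * (r * p))).re
        = (4 / 3) * q.re - (p ^ 2).re + (2 / 3) * (r ^ 2).re + (4 / 3) * s.im
          - (2 / 3) * (r * p).im := by
      simp; ring
    rw [h7]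
    simp only [Complex.sub_re, Complex.add_im, Complex.mul_re, Complex.re_ofNat,
      Complex.im_ofNat, zero_mul, sub_zero] at h5
    simp only [Complex.sub_re, Complex.add_im] at *
    linarith
  · filter_upwards [two, Ioo_mem_nhdsGT (zero_lt_one (α := ℝ))] with e he he0
    obtain ⟨he1, he2⟩ := he0
    have n1 : ‖(e : ℂ) * ζ‖ = e := by
      rw [norm_mul, hζ, mul_one, Complex.norm_real, Real.norm_of_nonneg he1.le]
    have n2 : ‖(e : ℂ) * (-ζ)‖ = e := by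
      rw [norm_mul, norm_neg, hζ, mul_one, Complex.norm_real, Real.norm_of_nonneg he1.le]
    have n3 : ‖(e : ℂ) * ζ - (e : ℂ) * (-ζ)‖ = 2 * e := by
      have : (e : ℂ) * ζ - (e : ℂ) * (-ζ) = ((2 * e : ℝ) : ℂ) * ζ := by push_cast; ring
      rw [this, norm_mul, hζ, mul_one, Complex.norm_real, Real.norm_of_nonneg (by positivity)]
    have n4 : ‖1 - conj ((e : ℂ) * ζ) * ((e : ℂ) * (-ζ))‖ = 1 + e ^ 2 := by
      have h1 : conj ζ * ζ = 1 := by
        rw [mul_comm, Complex.mul_conj, Complex.normSq_eq_norm_sq, hζ]; norm_num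
      have : 1 - conj ((e : ℂ) * ζ) * ((e : ℂ) * (-ζ)) = ((1 + e ^ 2 : ℝ) : ℂ) := by
        rw [map_mul, Complex.conj_ofReal]
        push_cast
        linear_combination (e : ℂ) ^ 2 * h1
      rw [this, Complex.norm_real, Real.norm_of_nonneg (by positivity)]
    rw [n1, n2, n3, n4] at he
    have hec : (e : ℂ) ≠ 0 := by exact_mod_cast he1.ne'
    have him : ∀ f : ℂ → ℂ, (f ((e : ℂ) * ζ)).im - (f ((e : ℂ) * (-ζ))).im
        = (2 * e) * ((f ((e : ℂ) * ζ) - f ((e : ℂ) * (-ζ))) / (2 * (e : ℂ))).im := by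
      intro f
      have h1 : f ((e : ℂ) * ζ) - f ((e : ℂ) * (-ζ))
          = ((2 * e : ℝ) : ℂ) * ((f ((e : ℂ) * ζ) - f ((e : ℂ) * (-ζ))) / (2 * (e : ℂ))) := by
        push_cast; field_simp
      have h2 := congrArg Complex.im h1
      rw [Complex.sub_im, Complex.im_ofReal_mul] at h2
      exact h2
    unfold KK at he
    simp only [Complex.sub_im] at he
    rw [him F, him G, him L] at he
    set a := ((F ((e : ℂ) * ζ) - F ((e : ℂ) * (-ζ))) / (2 * (e : ℂ))).im with ha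
    set b := ((G ((e : ℂ) * ζ) - G ((e : ℂ) * (-ζ))) / (2 * (e : ℂ))).im with hb
    set c := ((L ((e : ℂ) * ζ) - L ((e : ℂ) * (-ζ))) / (2 * (e : ℂ))).im with hc
    set N := ‖R ((e : ℂ) * ζ) - conj (R ((e : ℂ) * (-ζ)))‖ with hN
    have m1 : ‖ζ * deriv L ((e : ℂ) * ζ)‖ = ‖deriv L ((e : ℂ) * ζ)‖ := by
      rw [norm_mul, hζ, one_mul]
    have m2 : ‖ζ * deriv L ((e : ℂ) * (-ζ))‖ = ‖deriv L ((e : ℂ) * (-ζ))‖ := by
      rw [norm_mul, hζ, one_mul]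
    rw [m1, m2]
    set u := ‖deriv L ((e : ℂ) * ζ)‖ with hu'
    set v := ‖deriv L ((e : ℂ) * (-ζ))‖ with hv'
    have hupos : 0 ≤ u := norm_nonneg _
    have hvpos : 0 ≤ v := norm_nonneg _
    have hNpos : 0 ≤ N := norm_nonneg _
    have k1 : (1 - e ^ 2) ^ 2 / 4 * (u * v) * N ^ 2 ≤ (a ^ 2 - b * c) * (1 + e ^ 2) ^ 2 := by
      have h4 : 0 < (2 * e) ^ 2 := by positivity
      refine le_of_mul_le_mul_right ?_ h4
      calc _ = (1 - e ^ 2) * (1 - e ^ 2) / 4 * (u * v) * N ^ 2 * (2 * e) ^ 2 := by ring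
        _ ≤ _ := he
        _ = _ := by ring
    have k2 : 0 ≤ (1 - e ^ 2) ^ 2 / 4 * (u * v) * N ^ 2 := by positivity
    have k3 := pow_le_pow_left₀ k2 k1 2
    calc _ = ((1 - e ^ 2) ^ 2 / 4 * (u * v) * N ^ 2) ^ 2 := by ring
      _ ≤ _ := k3
      _ = _ := by ring

end Pool.CSH
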