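import Mathlib
import Pool.Agent.CSH.Defs

open Complex Metric
open scoped ComplexConjugate

namespace Pool.CSH

/-- The logarithmic gradient of the conformal radius `(1-|x|^2) |L'| Im R`. -/
noncomputable def Psi (L R : ℂ → ℂ) (x : ℂ) : ℂ :=
  ((1 - ‖x‖ ^ 2 : ℝ) : ℂ) *
    (deriv (deriv L) x / (2 * deriv L x) + deriv R x / (2 * I * ((R x).im : ℂ))) - conj x

end Pool.CSH
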