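import Mathlib
import Pool.Agent.CSH.Defs
import Pool.Agent.CSH.Jets
import Pool.Agent.CSH.Diag
import Pool.Agent.CSH.Psi

open Complex Metric Set Filter Topology
open scoped ComplexConjugate

namespace Pool.CSH

/-- The two point inequality, for given data. -/
def TwoIneq (L F G R : ℂ → ℂ) : Prop :=
  ∀ x ∈ ball (0 : ℂ) 1, ∀ y ∈ ball (0 : ℂ) 1,
    (1 - ‖x‖ ^ 2) * (1 - ‖y‖ ^ 2) * (‖deriv L x‖ * ‖deriv L y‖ * ‖R x - conj (R y)‖ ^ 2) *
      ‖x - y‖ ^ 2 ≤ 4 * KK L F G x y * ‖1 - conj x * y‖ ^ 2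

theorem Jet.le1 {u v : ℝ → ℝ} {a b c b' c' : ℂ} (hu : Jet (fun e => (u e : ℂ)) a b c)
    (hv : Jet (fun e => (v e : ℂ)) a b' c') (h : ∀ᶠ e in 𝓝[>] (0 : ℝ), u e ≤ v e) :
    b.re ≤ b'.re := by
  obtain ⟨F, hF, h1⟩ := hu
  obtain ⟨G, hG, h2⟩ := hv
  have t1 : Tendsto (fun e : ℝ => (b + F e * (e : ℂ)).re) (𝓝[>] 0) (𝓝 b.re) := by
    have := ((hF.mul tendsto_e).const_add b)
    simp only [mul_zero, add_zero] at this
    exact (Complex.continuous_re.tendsto _).comp this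
  have t2 : Tendsto (fun e : ℝ => (b' + G e * (e : ℂ)).re) (𝓝[>] 0) (𝓝 b'.re) := by
    have := ((hG.mul tendsto_e).const_add b')
    simp only [mul_zero, add_zero] at this
    exact (Complex.continuous_re.tendsto _).comp this
  refine le_of_tendsto_of_tendsto t1 t2 ?_
  filter_upwards [h1, h2, h, self_mem_nhdsWithin] with e he1 he2 he3 he4
  have he : (0 : ℝ) < e := he4
  have h5 : (u e : ℂ) = a + (b + F e * (e : ℂ)) * (e : ℂ) := by rw [he1]; ring
  have h6 : (v e : ℂ) = a + (b' + G e * (e : ℂ)) * (e : ℂ) := by rw [he2]; ring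
  have h7 := congrArg Complex.re h5
  have h8 := congrArg Complex.re h6
  rw [Complex.ofReal_re, Complex.add_re, Complex.re_mul_ofReal] at h7 h8
  have h9 : (b + F e * (e : ℂ)).re * e ≤ (b' + G e * (e : ℂ)).re * e := by linarith
  exact le_of_mul_le_mul_right h9 he

/-- Stationarity of the norm of `Psi` at a local maximum at the origin, gauge `R 0 = I`. -/
theorem stat {L R : ℂ → ℂ} (hL : AnalyticAt ℂ L 0) (hR : AnalyticAt ℂ R 0)
    (h0 : deriv L 0 ≠ 0) (hR0 : R 0 = I)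
    (hmax : ∀ᶠ z in 𝓝 (0 : ℂ), ‖Psi L R z‖ ≤ ‖Psi L R 0‖) :
    conj (Psi L R 0) * (deriv (deriv (deriv L)) 0 / (2 * deriv L 0)
      - (deriv (deriv L) 0 / deriv L 0) ^ 2 / 2 - I * (deriv (deriv R) 0 / 2)
      + deriv R 0 ^ 2 / 4) = (1 + ‖deriv R 0‖ ^ 2 / 4 : ℝ) * Psi L R 0 := by
  set l0 := deriv L 0 with hl0
  set l1 := deriv (deriv L) 0 with hl1
  set l2 := deriv (deriv (deriv L)) 0 with hl2
  set r1 := deriv R 0 with hr1
  set r2 := deriv (deriv R) 0 with hr2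
  set P := Psi L R 0 with hP
  have hI2 : ∀ w : ℂ, w / (2 * I) = -I / 2 * w := by
    intro w
    rw [div_eq_iff (by simp)]
    linear_combination w * I_sq
  have hPv : P = l1 / (2 * l0) + (-I / 2) * r1 := by
    rw [hP, Psi, hR0, ← hI2]
    simp [hl0, hl1, hr1]
  set al : ℂ := l2 / (2 * l0) - (l1 / l0) ^ 2 / 2 - I * (r2 / 2) + r1 ^ 2 / 4 with hal
  set ga : ℝ := 1 + ‖r1‖ ^ 2 / 4 with hga
  set w : ℂ := conj P * al - (ga : ℂ) * P with hw
  -- direction
  have key : ∀ u : ℂ, (conj P * (al * u - (ga : ℂ) * conj u)).re ≤ 0 := by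
    intro u
    set Q : ℂ → ℂ := fun z => deriv (deriv L) z / (2 * deriv L z) with hQ
    have hQan : AnalyticAt ℂ Q 0 := by
      refine hL.deriv.deriv.div (analyticAt_const.mul hL.deriv) ?_
      exact mul_ne_zero two_ne_zero h0
    have hQ0 : Q 0 = l1 / (2 * l0) := rfl
    have hQ1 : deriv Q 0 = l2 / (2 * l0) - (l1 / l0) ^ 2 / 2 := by
      have hd : HasDerivAt Q ((deriv (deriv (deriv L)) 0 * (2 * deriv L 0)
          - deriv (deriv L) 0 * (2 * deriv (deriv L) 0)) / (2 * deriv L 0) ^ 2) 0 :=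
        hL.deriv.deriv.differentiableAt.hasDerivAt.div
          (hL.deriv.differentiableAt.hasDerivAt.const_mul 2) (mul_ne_zero two_ne_zero h0)
      rw [hd.deriv, ← hl0, ← hl1, ← hl2]
      field_simp
    have jQ := jet_line hQan u
    have jR := (jet_line hR u).im
    have jR' := jet_line hR.deriv u
    have je : Jet (fun e => (1 : ℂ) - ((‖u‖ ^ 2 : ℝ) : ℂ) * (e : ℂ) ^ 2) 1 0
        (-((‖u‖ ^ 2 : ℝ) : ℂ)) :=
      ((Jet.const 1).sub (Jet.id'.pow2.const_mul _)).coef (by ring) (by ring) (by ring)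
    have jZ := ((je.mul ((jR.mul jQ).add (jR'.const_mul (-I / 2)))).sub
      ((Jet.id'.const_mul (conj u)).mul jR))
    set S : ℂ := (((r1 * u).im : ℝ) : ℂ) with hS
    have hSu : S = (-I / 2) * (r1 * u - conj (r1 * u)) := by
      rw [hS]
      apply Complex.ext <;> simp <;> ring
    set bz : ℂ := S * P + (al * u - (ga : ℂ) * conj u) with hbz
    have hn : ((‖r1‖ ^ 2 : ℝ) : ℂ) = r1 * conj r1 := by
      rw [Complex.mul_conj, Complex.normSq_eq_norm_sq]
    have hgac : (ga : ℂ) = 1 + r1 * conj r1 / 4 := by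
      rw [hga, ← hn]; push_cast; ring
    have jZ' := jZ.coef (a' := P) (b' := bz) (by rw [hR0, hQ0, hPv, ← hr1]; simp)
      (by
        rw [hR0, hQ0, hQ1, ← hr1, ← hr2, hbz, hPv, hgac, hal, hSu]
        simp only [Complex.I_im, Complex.ofReal_one, map_mul]
        linear_combination (-(r1 / 4 * (r1 * u - conj r1 * conj u))) * I_sq) rfl
    have jU := jZ'.normSq
    have jV := (jR.pow2).const_mul ((‖P‖ ^ 2 : ℝ) : ℂ)
    have hlim : Tendsto (fun e : ℝ => (e : ℂ) * u) (𝓝[>] 0) (𝓝 0) := by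
      simpa using tendsto_e.mul_const u
    have hmax' := hlim.eventually hmax
    have hRc : ∀ᶠ z in 𝓝 (0 : ℂ), 0 < (R z).im := by
      have : ContinuousAt (fun z => (R z).im) 0 := Complex.continuous_im.continuousAt.comp
        hR.continuousAt
      refine this.eventually (lt_mem_nhds ?_)
      simp [hR0]
    have hRc' := hlim.eventually hRc
    have jV' : Jet (fun e => ((‖P‖ ^ 2 * (R ((e : ℂ) * u)).im ^ 2 : ℝ) : ℂ)) (P * conj P)
        (((‖P‖ ^ 2 : ℝ) : ℂ) * (2 * S))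
        (((‖P‖ ^ 2 : ℝ) : ℂ) * (2 * ((R 0).im : ℂ) * ((deriv (deriv R) 0 / 2 * u ^ 2).im : ℂ)
          + ((deriv R 0 * u).im : ℂ) ^ 2)) := by
      refine (jV.congr (Eventually.of_forall fun e => ?_)).coef ?_ ?_ rfl
      · push_cast; ring
      · rw [hR0, Complex.mul_conj, Complex.normSq_eq_norm_sq]; simp
      · rw [hR0, hS]; simp
    have hle := Jet.le1 jU jV' ?_
    · have e1 : (P * conj bz + bz * conj P).re = 2 * (conj P * bz).re := by
        simp; ring
      have e2 : (conj P * bz).re = (r1 * u).im * ‖P‖ ^ 2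
          + (conj P * (al * u - (ga : ℂ) * conj u)).re := by
        rw [hbz, mul_add, Complex.add_re]
        congr 1
        rw [hS, ← Complex.normSq_eq_norm_sq, Complex.normSq_apply]
        simp; ring
      have e3 : ((((‖P‖ ^ 2 : ℝ) : ℂ) * (2 * S))).re = 2 * ((r1 * u).im * ‖P‖ ^ 2) := by
        rw [hS, ← Complex.ofReal_ofNat, ← Complex.ofReal_mul, ← Complex.ofReal_mul,
          Complex.ofReal_re]
        ring
      rw [e1, e2, e3] at hle
      linarith
    · filter_upwards [hmax', hRc', self_mem_nhdsWithin] with e he1 he2 he3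
      have he3' : (0 : ℝ) < e := he3
      have e4 : (1 - ((‖u‖ ^ 2 : ℝ) : ℂ) * (e : ℂ) ^ 2) * (((R ((e : ℂ) * u)).im : ℂ)
          * Q ((e : ℂ) * u) + (-I / 2) * deriv R ((e : ℂ) * u))
          - conj u * (e : ℂ) * ((R ((e : ℂ) * u)).im : ℂ)
          = ((R ((e : ℂ) * u)).im : ℂ) * Psi L R ((e : ℂ) * u) := by
        have hne : ((R ((e : ℂ) * u)).im : ℂ) ≠ 0 := by exact_mod_cast he2.ne'
        rw [Psi, hQ]
        have e5 : ‖(e : ℂ) * u‖ ^ 2 = ‖u‖ ^ 2 * e ^ 2 := by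
          rw [norm_mul, Complex.norm_real, mul_pow, Real.norm_eq_abs, sq_abs]; ring
        rw [e5, map_mul, Complex.conj_ofReal]
        push_cast
        rw [← hI2]
        have hI : (2 * I : ℂ) ≠ 0 := by simp
        field_simp
      rw [e4, norm_mul, mul_pow, Complex.norm_real, Real.norm_of_nonneg he2.le]
      have h8 : ‖Psi L R ((e : ℂ) * u)‖ ^ 2 ≤ ‖P‖ ^ 2 :=
        pow_le_pow_left₀ (norm_nonneg _) he1 2
      nlinarith [sq_nonneg ((R ((e : ℂ) * u)).im)]
  have h1 := key (conj w)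
  have h2 : (conj P * (al * conj w - (ga : ℂ) * conj (conj w))).re = ‖w‖ ^ 2 := by
    rw [← Complex.normSq_eq_norm_sq]
    rw [hw, Complex.normSq_apply]
    simp
    ring
  rw [h2] at h1
  have h3 : w = 0 := by
    have : ‖w‖ = 0 := by nlinarith [norm_nonneg w]
    exact norm_eq_zero.1 this
  have h4 : conj P * al = (ga : ℂ) * P := sub_eq_zero.1 h3
  exact h4

end Pool.CSH
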