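import Mathlib
import Pool.Agent.CSH.Marty1

open Complex Metric Set Filter Topology
open scoped ComplexConjugate

namespace Pool.CSH

theorem ball_open : IsOpen (ball (0 : ℂ) 1) := isOpen_ball

theorem mem0 : (0 : ℂ) ∈ ball (0 : ℂ) 1 := by simp

theorem psi_zero_gauge {L F G R : ℂ → ℂ} (hS : Surf (ball 0 1) L F G R) (hR0 : R 0 = I)
    (two : TwoIneq L F G R)
    (hmax : ∀ᶠ z in 𝓝 (0 : ℂ), ‖Psi L R z‖ ≤ ‖Psi L R 0‖) : ‖Psi L R 0‖ ≤ 2 := by
  have nh : ball (0 : ℂ) 1 ∈ 𝓝 (0 : ℂ) := ball_open.mem_nhds mem0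
  have aL : AnalyticAt ℂ L 0 := hS.dL.analyticAt nh
  have aF : AnalyticAt ℂ F 0 := hS.dF.analyticAt nh
  have aG : AnalyticAt ℂ G 0 := hS.dG.analyticAt nh
  have aR : AnalyticAt ℂ R 0 := hS.dR.analyticAt nh
  have h0 : deriv L 0 ≠ 0 := hS.hL 0 mem0
  by_cases hP0 : Psi L R 0 = 0
  · rw [hP0]; simp
  have hst := stat aL aR h0 hR0 hmax
  set l0 := deriv L 0 with hl0
  set l1 := deriv (deriv L) 0 with hl1
  set l2 := deriv (deriv (deriv L)) 0 with hl2
  set r1 := deriv R 0 with hr1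
  set r2 := deriv (deriv R) 0 with hr2
  have hI2 : ∀ w : ℂ, w / (2 * I) = -I / 2 * w := by
    intro w
    rw [div_eq_iff (by simp)]
    linear_combination w * I_sq
  have hPv : Psi L R 0 = l1 / (2 * l0) + (-I / 2) * r1 := by
    rw [Psi, hR0, ← hI2]
    simp [hl0, hl1, hr1]
  set P := Psi L R 0 with hP
  have hnP : (‖P‖ : ℂ) ≠ 0 := by exact_mod_cast norm_ne_zero_iff.2 hP0
  have hPc : P * conj P = (‖P‖ : ℂ) ^ 2 := by
    rw [Complex.mul_conj, Complex.normSq_eq_norm_sq]; push_cast; ring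
  set ζ : ℂ := I * conj P / (‖P‖ : ℂ) with hζ
  have hζn : ‖ζ‖ = 1 := by
    rw [hζ, norm_div, norm_mul, Complex.norm_I, one_mul, Complex.norm_conj, Complex.norm_real,
      norm_norm]
    exact div_self (norm_ne_zero_iff.2 hP0)
  have hζ2 : ζ ^ 2 = - (conj P) ^ 2 / (‖P‖ : ℂ) ^ 2 := by
    rw [hζ, div_pow, mul_pow, I_sq]; ring
  have hd := diag_ineq aL aF aG aR
    (by filter_upwards [nh] with z hz using hS.hF z hz)
    (by filter_upwards [nh] with z hz using hS.hG z hz) h0 hR0 hζn ?_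
  · set al : ℂ := l2 / (2 * l0) - (l1 / l0) ^ 2 / 2 - I * (r2 / 2) + r1 ^ 2 / 4 with hal
    set ga : ℝ := 1 + ‖r1‖ ^ 2 / 4 with hga
    have hbr : ((4 / 3) * (l2 / (2 * l0)) - (l1 / l0) ^ 2 + (2 / 3) * r1 ^ 2
        - I * ((4 / 3) * (r2 / 2) - (2 / 3) * (r1 * (l1 / l0)))) * ζ ^ 2
        = (((4 / 3) * (-ga + ‖P‖ ^ 2) : ℝ) : ℂ) := by
      have e1 : (4 / 3) * (l2 / (2 * l0)) - (l1 / l0) ^ 2 + (2 / 3) * r1 ^ 2
          - I * ((4 / 3) * (r2 / 2) - (2 / 3) * (r1 * (l1 / l0))) = (4 / 3) * (al - P ^ 2) := by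
        rw [hal, hPv]
        field_simp
        ring_nf
        simp only [I_sq]
        ring
      rw [e1, hζ2]
      have e2 : (4 / 3) * (al - P ^ 2) * (-(conj P) ^ 2 / (‖P‖ : ℂ) ^ 2)
          = (4 / 3) * (- (conj P * al) * conj P + (P * conj P) ^ 2) / (‖P‖ : ℂ) ^ 2 := by
        ring
      rw [e2, hst, hPc]
      push_cast
      have e3 : -((ga : ℂ) * P) * conj P = - (ga : ℂ) * (‖P‖ : ℂ) ^ 2 := by
        rw [← hPc]; ring
      rw [e3]
      field_simp
    rw [hbr, Complex.ofReal_re] at hd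
    have : ‖P‖ ^ 2 ≤ 4 := by
      rw [hga] at hd
      nlinarith
    nlinarith [norm_nonneg P]
  · have hlim : Tendsto (fun e : ℝ => (e : ℂ) * ζ) (𝓝[>] 0) (𝓝 0) := by
      simpa using tendsto_e.mul_const ζ
    have hlim2 : Tendsto (fun e : ℝ => (e : ℂ) * (-ζ)) (𝓝[>] 0) (𝓝 0) := by
      simpa using tendsto_e.mul_const (-ζ)
    filter_upwards [hlim.eventually nh, hlim2.eventually nh] with e he1 he2
    have h1 := two _ he1 _ he2
    linarith

/-- general gauge -/
theorem psi_zero_le {L F G R : ℂ → ℂ} (hS : Surf (ball 0 1) L F G R)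
    (two : TwoIneq L F G R)
    (hmax : ∀ᶠ z in 𝓝 (0 : ℂ), ‖Psi L R z‖ ≤ ‖Psi L R 0‖) : ‖Psi L R 0‖ ≤ 2 := by
  set a : ℝ := (R 0).re with ha
  set y : ℝ := (R 0).im with hy
  have hypos : 0 < y := hS.hR 0 mem0
  have hyc : (y : ℂ) ≠ 0 := by exact_mod_cast hypos.ne'
  set R' : ℂ → ℂ := fun z => (R z - a) / y with hR'
  set F' : ℂ → ℂ := fun z => (F z - a * L z) / y with hF'
  set G' : ℂ → ℂ := fun z => (G z - 2 * a * F z + a ^ 2 * L z) / y ^ 2 with hG'
  have hRim : ∀ z, (R' z).im = (R z).im / y := by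
    intro z
    simp only [hR']
    rw [Complex.div_ofReal_im]
    simp
  have hdR : ∀ z ∈ ball (0 : ℂ) 1, deriv R' z = deriv R z / y := by
    intro z hz
    have := ((hS.dR.differentiableAt (ball_open.mem_nhds hz)).hasDerivAt.sub_const
      (a : ℂ)).div_const (y : ℂ)
    exact this.deriv
  have hpsi : ∀ z ∈ ball (0 : ℂ) 1, Psi L R' z = Psi L R z := by
    intro z hz
    rw [Psi, Psi, hdR z hz, hRim z]
    have h1 : ((R z).im : ℂ) ≠ 0 := by exact_mod_cast (hS.hR z hz).ne'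
    have h2 : deriv R z / (y : ℂ) / (2 * I * (((R z).im / y : ℝ) : ℂ))
        = deriv R z / (2 * I * ((R z).im : ℂ)) := by
      push_cast
      field_simp
    rw [h2]
  have hS' : Surf (ball 0 1) L F' G' R' := by
    constructor
    · exact hS.dL
    · exact (hS.dF.sub (hS.dL.const_mul _)).div_const _
    · exact ((hS.dG.sub (hS.dF.const_mul _)).add (hS.dL.const_mul _)).div_const _
    · exact (hS.dR.sub_const _).div_const _
    · intro z hz
      have h1 := (hS.dF.differentiableAt (ball_open.mem_nhds hz)).hasDerivAt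
      have h2 := (hS.dL.differentiableAt (ball_open.mem_nhds hz)).hasDerivAt
      have h3 := (h1.sub (h2.const_mul (a : ℂ))).div_const (y : ℂ)
      have h4 : deriv F' z = (deriv F z - a * deriv L z) / y := h3.deriv
      rw [h4, hS.hF z hz, hR']
      field_simp
    · intro z hz
      have h1 := (hS.dF.differentiableAt (ball_open.mem_nhds hz)).hasDerivAt
      have h2 := (hS.dL.differentiableAt (ball_open.mem_nhds hz)).hasDerivAt
      have h5 := (hS.dG.differentiableAt (ball_open.mem_nhds hz)).hasDerivAt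
      have h3 := ((h5.sub (h1.const_mul (2 * (a : ℂ)))).add (h2.const_mul ((a : ℂ) ^ 2))).div_const
        ((y : ℂ) ^ 2)
      have h4 : deriv G' z = (deriv G z - 2 * a * deriv F z + a ^ 2 * deriv L z) / y ^ 2 := h3.deriv
      rw [h4, hS.hF z hz, hS.hG z hz, hR']
      field_simp
      ring
    · intro z hz
      rw [hRim]
      exact div_pos (hS.hR z hz) hypos
    · exact hS.hL
  have hR0 : R' 0 = I := by
    simp only [hR']
    rw [div_eq_iff hyc]
    apply Complex.ext <;> simp [ha, hy]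
  have htwo : TwoIneq L F' G' R' := by
    intro x hx z hz
    have h1 := two x hx z hz
    have h2 : KK L F' G' x z = KK L F G x z / y ^ 2 := by
      unfold KK
      have e1 : (F' x - F' z).im = ((F x - F z).im - a * (L x - L z).im) / y := by
        have : F' x - F' z = ((F x - F z) - a * (L x - L z)) / y := by
          simp only [hF']; ring
        rw [this, Complex.div_ofReal_im, Complex.sub_im, Complex.im_ofReal_mul]
      have e2 : (G' x - G' z).im
          = ((G x - G z).im - 2 * a * (F x - F z).im + a ^ 2 * (L x - L z).im) / y ^ 2 := by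
        have : G' x - G' z = ((G x - G z) - ((2 * a : ℝ) : ℂ) * (F x - F z)
            + ((a ^ 2 : ℝ) : ℂ) * (L x - L z)) / ((y ^ 2 : ℝ) : ℂ) := by
          simp only [hG']; push_cast; ring
        rw [this, Complex.div_ofReal_im, Complex.add_im, Complex.sub_im, Complex.im_ofReal_mul,
          Complex.im_ofReal_mul]
      rw [e1, e2]
      field_simp
      ring
    have h3 : ‖R' x - conj (R' z)‖ ^ 2 = ‖R x - conj (R z)‖ ^ 2 / y ^ 2 := by
      have : R' x - conj (R' z) = (R x - conj (R z)) / y := by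
        simp only [hR', map_div₀, map_sub, Complex.conj_ofReal]; ring
      rw [this, norm_div, div_pow, Complex.norm_real, Real.norm_of_nonneg hypos.le]
    rw [h2, h3]
    have h4 : 0 < y ^ 2 := by positivity
    have e5 : (1 - ‖x‖ ^ 2) * (1 - ‖z‖ ^ 2) * (‖deriv L x‖ * ‖deriv L z‖ *
        (‖R x - conj (R z)‖ ^ 2 / y ^ 2)) * ‖x - z‖ ^ 2
        = ((1 - ‖x‖ ^ 2) * (1 - ‖z‖ ^ 2) * (‖deriv L x‖ * ‖deriv L z‖ *
        ‖R x - conj (R z)‖ ^ 2) * ‖x - z‖ ^ 2) / y ^ 2 := by ring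
    have e6 : 4 * (KK L F G x z / y ^ 2) * ‖1 - conj x * z‖ ^ 2
        = (4 * KK L F G x z * ‖1 - conj x * z‖ ^ 2) / y ^ 2 := by ring
    rw [e5, e6]
    exact div_le_div_of_nonneg_right h1 h4.le
  have h := psi_zero_gauge hS' hR0 htwo ?_
  · rwa [hpsi 0 mem0] at h
  · filter_upwards [hmax, ball_open.mem_nhds mem0] with z hz1 hz2
    rw [hpsi z hz2, hpsi 0 mem0]
    exact hz1

end Pool.CSH
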