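import Mathlib
import Pool.Agent.CSH.Marty2

open Complex Metric Set Filter Topology
open scoped ComplexConjugate

namespace Pool.CSH

section Aut

variable {a : ℂ}

/-- denominator -/
noncomputable def dn (a z : ℂ) : ℂ := 1 + conj a * z

/-- disc automorphism -/
noncomputable def aut (a z : ℂ) : ℂ := (z + a) / dn a z

theorem dn_ne (ha : ‖a‖ < 1) {z : ℂ} (hz : z ∈ ball (0 : ℂ) 1) : dn a z ≠ 0 := by
  intro h
  have h1 : conj a * z = -1 := by unfold dn at h; linear_combination h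
  have h2 : ‖conj a * z‖ = 1 := by rw [h1]; simp
  rw [norm_mul, Complex.norm_conj] at h2
  have hz' : ‖z‖ < 1 := by simpa using hz
  nlinarith [norm_nonneg a, norm_nonneg z]

theorem normSq_dn (a z : ℂ) :
    ‖z + a‖ ^ 2 = ‖dn a z‖ ^ 2 - (1 - ‖a‖ ^ 2) * (1 - ‖z‖ ^ 2) := by
  unfold dn
  rw [← Complex.normSq_eq_norm_sq, ← Complex.normSq_eq_norm_sq, ← Complex.normSq_eq_norm_sq,
    ← Complex.normSq_eq_norm_sq]
  simp only [Complex.normSq_apply]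
  simp
  ring

theorem one_sub_aut (ha : ‖a‖ < 1) {z : ℂ} (hz : z ∈ ball (0 : ℂ) 1) :
    1 - ‖aut a z‖ ^ 2 = (1 - ‖a‖ ^ 2) * (1 - ‖z‖ ^ 2) / ‖dn a z‖ ^ 2 := by
  have h := dn_ne ha hz
  have h' : ‖dn a z‖ ≠ 0 := norm_ne_zero_iff.2 h
  unfold aut
  rw [norm_div, div_pow, normSq_dn]
  field_simp
  ring

theorem aut_mem (ha : ‖a‖ < 1) {z : ℂ} (hz : z ∈ ball (0 : ℂ) 1) : aut a z ∈ ball (0 : ℂ) 1 := by
  have h := dn_ne ha hz
  have h1 : 0 < 1 - ‖aut a z‖ ^ 2 := by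
    rw [one_sub_aut ha hz]
    have hz' : ‖z‖ < 1 := by simpa using hz
    have h2 : 0 < 1 - ‖a‖ ^ 2 := by nlinarith [norm_nonneg a]
    have h3 : 0 < 1 - ‖z‖ ^ 2 := by nlinarith [norm_nonneg z]
    have h4 : 0 < ‖dn a z‖ := norm_pos_iff.2 h
    positivity
  rw [mem_ball_zero_iff]
  nlinarith [norm_nonneg (aut a z)]

theorem aut_sub (ha : ‖a‖ < 1) {x y : ℂ} (hx : x ∈ ball (0 : ℂ) 1) (hy : y ∈ ball (0 : ℂ) 1) :
    aut a x - aut a y = ((1 - ‖a‖ ^ 2 : ℝ) : ℂ) * (x - y) / (dn a x * dn a y) := by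
  have h1 := dn_ne ha hx
  have h2 := dn_ne ha hy
  have h3 : ((‖a‖ ^ 2 : ℝ) : ℂ) = a * conj a := by
    rw [Complex.mul_conj, Complex.normSq_eq_norm_sq]
  unfold aut
  rw [Complex.ofReal_sub, h3]
  field_simp
  unfold dn
  push_cast
  ring

theorem one_sub_conj_aut (ha : ‖a‖ < 1) {x y : ℂ} (hx : x ∈ ball (0 : ℂ) 1)
    (hy : y ∈ ball (0 : ℂ) 1) :
    1 - conj (aut a x) * aut a y
      = ((1 - ‖a‖ ^ 2 : ℝ) : ℂ) * (1 - conj x * y) / (conj (dn a x) * dn a y) := by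
  have h1 := dn_ne ha hx
  have h2 := dn_ne ha hy
  have h1' : conj (dn a x) ≠ 0 := by simpa using h1
  have h3 : ((‖a‖ ^ 2 : ℝ) : ℂ) = a * conj a := by
    rw [Complex.mul_conj, Complex.normSq_eq_norm_sq]
  unfold aut
  rw [Complex.ofReal_sub, h3, map_div₀]
  field_simp
  unfold dn
  simp only [map_add, map_mul, map_one, Complex.conj_conj]
  push_cast
  ring

theorem hasDerivAt_dn (a z : ℂ) : HasDerivAt (dn a) (conj a) z := by
  have h : HasDerivAt (dn a) (conj a * 1) z :=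
    ((hasDerivAt_id z).const_mul (conj a)).const_add (1 : ℂ)
  rwa [mul_one] at h

theorem hasDerivAt_aut (ha : ‖a‖ < 1) {z : ℂ} (hz : z ∈ ball (0 : ℂ) 1) :
    HasDerivAt (aut a) (((1 - ‖a‖ ^ 2 : ℝ) : ℂ) / dn a z ^ 2) z := by
  have h1 := dn_ne ha hz
  have h3 : ((‖a‖ ^ 2 : ℝ) : ℂ) = a * conj a := by
    rw [Complex.mul_conj, Complex.normSq_eq_norm_sq]
  have h := ((hasDerivAt_id z).add_const a).div (hasDerivAt_dn a z) h1
  have h2 : (1 * dn a z - (id z + a) * conj a) / dn a z ^ 2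
      = ((1 - ‖a‖ ^ 2 : ℝ) : ℂ) / dn a z ^ 2 := by
    rw [Complex.ofReal_sub, h3]
    congr 1
    unfold dn
    simp
    ring
  rw [h2] at h
  exact h

theorem aut_mapsTo (ha : ‖a‖ < 1) : MapsTo (aut a) (ball (0 : ℂ) 1) (ball (0 : ℂ) 1) :=
  fun _ hz => aut_mem ha hz

theorem aut_diff (ha : ‖a‖ < 1) : DifferentiableOn ℂ (aut a) (ball (0 : ℂ) 1) :=
  fun _ hz => (hasDerivAt_aut ha hz).differentiableAt.differentiableWithinAt

theorem comp_hasDerivAt (ha : ‖a‖ < 1) {L : ℂ → ℂ} (hL : DifferentiableOn ℂ L (ball 0 1)) {z : ℂ}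
    (hz : z ∈ ball (0 : ℂ) 1) :
    HasDerivAt (fun w => L (aut a w))
      (deriv L (aut a z) * (((1 - ‖a‖ ^ 2 : ℝ) : ℂ) / dn a z ^ 2)) z :=
  ((hL.differentiableAt (ball_open.mem_nhds (aut_mem ha hz))).hasDerivAt).comp z
    (hasDerivAt_aut ha hz)

theorem comp_deriv2 (ha : ‖a‖ < 1) {L : ℂ → ℂ} (hL : DifferentiableOn ℂ L (ball 0 1)) {z : ℂ}
    (hz : z ∈ ball (0 : ℂ) 1) :
    deriv (deriv (fun w => L (aut a w))) z
      = deriv (deriv L) (aut a z) * (((1 - ‖a‖ ^ 2 : ℝ) : ℂ) / dn a z ^ 2) ^ 2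
        - deriv L (aut a z) * (2 * ((1 - ‖a‖ ^ 2 : ℝ) : ℂ) * conj a / dn a z ^ 3) := by
  have h1 := dn_ne ha hz
  have e1 : deriv (fun w => L (aut a w)) =ᶠ[𝓝 z]
      fun w => deriv L (aut a w) * (((1 - ‖a‖ ^ 2 : ℝ) : ℂ) / dn a w ^ 2) := by
    filter_upwards [ball_open.mem_nhds hz] with w hw
    exact (comp_hasDerivAt ha hL hw).deriv
  rw [e1.deriv_eq]
  have hL' : DifferentiableOn ℂ (deriv L) (ball 0 1) := hL.deriv ball_open
  have h2 := comp_hasDerivAt ha hL' hz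
  have h3 := ((hasDerivAt_const z ((1 - ‖a‖ ^ 2 : ℝ) : ℂ)).div ((hasDerivAt_dn a z).pow 2)
    (pow_ne_zero 2 h1))
  have h4 := h2.mul h3
  have h5 := h4.deriv
  simp only [Pi.div_apply, Pi.pow_apply] at h5
  refine Eq.trans h5 ?_
  field_simp
  push_cast
  ring

theorem surf_aut (ha : ‖a‖ < 1) {L F G R : ℂ → ℂ} (hS : Surf (ball 0 1) L F G R) :
    Surf (ball 0 1) (fun z => L (aut a z)) (fun z => F (aut a z)) (fun z => G (aut a z))
      (fun z => R (aut a z)) := by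
  have hc : ((1 - ‖a‖ ^ 2 : ℝ) : ℂ) ≠ 0 := by
    have : 0 < 1 - ‖a‖ ^ 2 := by nlinarith [norm_nonneg a]
    exact_mod_cast this.ne'
  constructor
  · exact hS.dL.comp (aut_diff ha) (aut_mapsTo ha)
  · exact hS.dF.comp (aut_diff ha) (aut_mapsTo ha)
  · exact hS.dG.comp (aut_diff ha) (aut_mapsTo ha)
  · exact hS.dR.comp (aut_diff ha) (aut_mapsTo ha)
  · intro z hz
    rw [(comp_hasDerivAt ha hS.dF hz).deriv, (comp_hasDerivAt ha hS.dL hz).deriv,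
      hS.hF _ (aut_mem ha hz)]
    ring
  · intro z hz
    rw [(comp_hasDerivAt ha hS.dG hz).deriv, (comp_hasDerivAt ha hS.dL hz).deriv,
      hS.hG _ (aut_mem ha hz)]
    ring
  · intro z hz
    exact hS.hR _ (aut_mem ha hz)
  · intro z hz
    rw [(comp_hasDerivAt ha hS.dL hz).deriv]
    exact mul_ne_zero (hS.hL _ (aut_mem ha hz)) (div_ne_zero hc (pow_ne_zero 2 (dn_ne ha hz)))

theorem two_aut (ha : ‖a‖ < 1) {L F G R : ℂ → ℂ} (hS : Surf (ball 0 1) L F G R)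
    (two : TwoIneq L F G R) :
    TwoIneq (fun z => L (aut a z)) (fun z => F (aut a z)) (fun z => G (aut a z))
      (fun z => R (aut a z)) := by
  intro x hx y hy
  have h := two _ (aut_mem ha hx) _ (aut_mem ha hy)
  have hc : 0 < 1 - ‖a‖ ^ 2 := by nlinarith [norm_nonneg a]
  have hDx : 0 < ‖dn a x‖ := norm_pos_iff.2 (dn_ne ha hx)
  have hDy : 0 < ‖dn a y‖ := norm_pos_iff.2 (dn_ne ha hy)
  rw [one_sub_aut ha hx, one_sub_aut ha hy, aut_sub ha hx hy, one_sub_conj_aut ha hx hy] at h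
  rw [(comp_hasDerivAt ha hS.dL hx).deriv, (comp_hasDerivAt ha hS.dL hy).deriv]
  have hK : KK (fun z => L (aut a z)) (fun z => F (aut a z)) (fun z => G (aut a z)) x y
      = KK L F G (aut a x) (aut a y) := rfl
  rw [hK]
  set c : ℝ := 1 - ‖a‖ ^ 2 with hcd
  have n1 : ‖(c : ℂ) * (x - y) / (dn a x * dn a y)‖ = c * ‖x - y‖ / (‖dn a x‖ * ‖dn a y‖) := by
    rw [norm_div, norm_mul, norm_mul, Complex.norm_real, Real.norm_of_nonneg hc.le]
  have n2 : ‖(c : ℂ) * (1 - conj x * y) / (conj (dn a x) * dn a y)‖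
      = c * ‖1 - conj x * y‖ / (‖dn a x‖ * ‖dn a y‖) := by
    rw [norm_div, norm_mul, norm_mul, Complex.norm_real, Real.norm_of_nonneg hc.le,
      Complex.norm_conj]
  have n3 : ∀ w : ℂ, ∀ D : ℂ, ‖w * ((c : ℂ) / D ^ 2)‖ = ‖w‖ * (c / ‖D‖ ^ 2) := by
    intro w D
    rw [norm_mul, norm_div, norm_pow, Complex.norm_real, Real.norm_of_nonneg hc.le]
  rw [n1, n2] at h
  rw [n3, n3]
  have hpos : 0 < c ^ 2 / (‖dn a x‖ ^ 2 * ‖dn a y‖ ^ 2) := by positivity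
  refine le_of_mul_le_mul_right ?_ hpos
  refine le_trans (le_of_eq ?_) (le_trans h (le_of_eq ?_))
  · field_simp
  · field_simp

theorem psi_aut (ha : ‖a‖ < 1) {L F G R : ℂ → ℂ} (hS : Surf (ball 0 1) L F G R) {z : ℂ}
    (hz : z ∈ ball (0 : ℂ) 1) :
    Psi (fun z => L (aut a z)) (fun z => R (aut a z)) z
      = conj (dn a z) / dn a z * Psi L R (aut a z) := by
  have hc : ((1 - ‖a‖ ^ 2 : ℝ) : ℂ) ≠ 0 := by
    have : 0 < 1 - ‖a‖ ^ 2 := by nlinarith [norm_nonneg a]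
    exact_mod_cast this.ne'
  have hD := dn_ne ha hz
  have hD' : conj (dn a z) ≠ 0 := by simpa using hD
  have hm := aut_mem ha hz
  have hL0 := hS.hL _ hm
  have hR0 : (((R (aut a z)).im : ℝ) : ℂ) ≠ 0 := by exact_mod_cast (hS.hR _ hm).ne'
  rw [Psi, Psi, comp_deriv2 ha hS.dL hz, (comp_hasDerivAt ha hS.dL hz).deriv,
    (comp_hasDerivAt ha hS.dR hz).deriv, one_sub_aut ha hz]
  have hn : ((‖dn a z‖ ^ 2 : ℝ) : ℂ) = dn a z * conj (dn a z) := by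
    rw [Complex.mul_conj, Complex.normSq_eq_norm_sq]
  have hz2 : ((‖z‖ ^ 2 : ℝ) : ℂ) = z * conj z := by
    rw [Complex.mul_conj, Complex.normSq_eq_norm_sq]
  have ha2 : ((‖a‖ ^ 2 : ℝ) : ℂ) = a * conj a := by
    rw [Complex.mul_conj, Complex.normSq_eq_norm_sq]
  have e1 : conj (aut a z) = (conj z + conj a) / conj (dn a z) := by
    unfold aut; rw [map_div₀, map_add]
  have e2 : (((1 - ‖a‖ ^ 2) * (1 - ‖z‖ ^ 2) / ‖dn a z‖ ^ 2 : ℝ) : ℂ)
      = ((1 - ‖a‖ ^ 2 : ℝ) : ℂ) * ((1 - ‖z‖ ^ 2 : ℝ) : ℂ) / (dn a z * conj (dn a z)) := by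
    rw [← hn]; push_cast; ring
  rw [e1, e2]
  set c : ℂ := ((1 - ‖a‖ ^ 2 : ℝ) : ℂ) with hcd
  set L1 := deriv L (aut a z) with hL1
  set L2 := deriv (deriv L) (aut a z) with hL2
  set R1 := deriv R (aut a z) with hR1
  have hv : ((1 - ‖z‖ ^ 2 : ℝ) : ℂ) = 1 - z * conj z := by
    rw [Complex.ofReal_sub, hz2]; simp
  rw [hv]
  have key : (1 - z * conj z) * (-(conj a) / dn a z) - conj z
      = - (conj (dn a z) / dn a z) * ((conj z + conj a) / conj (dn a z)) := by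
    field_simp
    unfold dn
    ring
  have e3 : (L2 * (c / dn a z ^ 2) ^ 2 - L1 * (2 * c * conj a / dn a z ^ 3))
      / (2 * (L1 * (c / dn a z ^ 2)))
      = L2 / (2 * L1) * (c / dn a z ^ 2) - conj a / dn a z := by
    field_simp
  have e4 : R1 * (c / dn a z ^ 2) / (2 * I * ((R (aut a z)).im : ℂ))
      = R1 / (2 * I * ((R (aut a z)).im : ℂ)) * (c / dn a z ^ 2) := by ring
  rw [e3, e4]
  have e5 : (1 - z * conj z) * (L2 / (2 * L1) * (c / dn a z ^ 2) - conj a / dn a z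
      + R1 / (2 * I * ((R (aut a z)).im : ℂ)) * (c / dn a z ^ 2)) - conj z
      = (1 - z * conj z) * (c / dn a z ^ 2) * (L2 / (2 * L1)
        + R1 / (2 * I * ((R (aut a z)).im : ℂ)))
        + ((1 - z * conj z) * (-(conj a) / dn a z) - conj z) := by ring
  rw [e5, key]
  field_simp
  ring

end Aut

end Pool.CSH
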