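import Mathlib
import Pool.Agent.CSH.Marty3

open Complex Metric Set Filter Topology
open scoped ComplexConjugate

namespace Pool.CSH

/-- Interior maximum of `‖Psi‖`. -/
theorem psi_max_le {L F G R : ℂ → ℂ} (hS : Surf (ball 0 1) L F G R) (two : TwoIneq L F G R)
    {x : ℂ} (hx : x ∈ ball (0 : ℂ) 1)
    (hmax : ∀ z ∈ ball (0 : ℂ) 1, ‖Psi L R z‖ ≤ ‖Psi L R x‖) : ‖Psi L R x‖ ≤ 2 := by
  have ha : ‖x‖ < 1 := by simpa using hx
  have hnorm : ∀ z ∈ ball (0 : ℂ) 1,
      ‖Psi (fun z => L (aut x z)) (fun z => R (aut x z)) z‖ = ‖Psi L R (aut x z)‖ := by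
    intro z hz
    have hD : ‖dn x z‖ ≠ 0 := norm_ne_zero_iff.2 (dn_ne ha hz)
    rw [psi_aut ha hS hz, norm_mul, norm_div, Complex.norm_conj, div_self hD, one_mul]
  have h0 : aut x 0 = x := by simp [aut, dn]
  have h := psi_zero_le (surf_aut ha hS) (two_aut ha hS two) ?_
  · rwa [hnorm 0 mem0, h0] at h
  · filter_upwards [ball_open.mem_nhds mem0] with z hz
    rw [hnorm z hz, hnorm 0 mem0, h0]
    exact hmax _ (aut_mem ha hz)

/-- Data on a larger disc: `‖Psi‖ ≤ 2` on the closed unit disc. -/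
theorem psi_closed {L F G R : ℂ → ℂ} {r : ℝ} (hr : 1 < r) (hS : Surf (ball 0 r) L F G R)
    (two : TwoIneq L F G R) : ∀ x ∈ closedBall (0 : ℂ) 1, ‖Psi L R x‖ ≤ 2 := by
  have hsub : closedBall (0 : ℂ) 1 ⊆ ball 0 r := closedBall_subset_ball hr
  have hsub' : ball (0 : ℂ) 1 ⊆ ball 0 r := ball_subset_ball hr.le
  have hS1 : Surf (ball 0 1) L F G R :=
    ⟨hS.dL.mono hsub', hS.dF.mono hsub', hS.dG.mono hsub', hS.dR.mono hsub',
      fun z hz => hS.hF z (hsub' hz), fun z hz => hS.hG z (hsub' hz),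
      fun z hz => hS.hR z (hsub' hz), fun z hz => hS.hL z (hsub' hz)⟩
  have hcL1 : ContinuousOn (deriv L) (ball 0 r) := (hS.dL.deriv isOpen_ball).continuousOn
  have hcL2 : ContinuousOn (deriv (deriv L)) (ball 0 r) :=
    ((hS.dL.deriv isOpen_ball).deriv isOpen_ball).continuousOn
  have hcR1 : ContinuousOn (deriv R) (ball 0 r) := (hS.dR.deriv isOpen_ball).continuousOn
  have hcR : ContinuousOn R (ball 0 r) := hS.dR.continuousOn
  have hcIm : ContinuousOn (fun z => (((R z).im : ℝ) : ℂ)) (ball 0 r) :=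
    (Complex.continuous_ofReal.comp Complex.continuous_im).comp_continuousOn hcR
  have hcont : ContinuousOn (fun z => ‖Psi L R z‖) (closedBall 0 1) := by
    refine ContinuousOn.norm ?_
    unfold Psi
    refine ContinuousOn.sub (ContinuousOn.mul ?_ (ContinuousOn.add ?_ ?_))
      Complex.continuous_conj.continuousOn
    · exact (Complex.continuous_ofReal.comp (continuous_const.sub
        (continuous_norm.pow 2))).continuousOn
    · refine ContinuousOn.div (hcL2.mono hsub) (continuousOn_const.mul (hcL1.mono hsub)) ?_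
      intro z hz
      exact mul_ne_zero two_ne_zero (hS.hL z (hsub hz))
    · refine ContinuousOn.div (hcR1.mono hsub) (continuousOn_const.mul (hcIm.mono hsub)) ?_
      intro z hz
      refine mul_ne_zero (mul_ne_zero two_ne_zero I_ne_zero) ?_
      exact_mod_cast (hS.hR z (hsub hz)).ne'
  obtain ⟨x, hx, hxm⟩ := (isCompact_closedBall (0 : ℂ) 1).exists_isMaxOn
    ⟨0, by simp⟩ hcont
  have hle : ‖Psi L R x‖ ≤ 2 := by
    by_cases h1 : ‖x‖ = 1
    · have : Psi L R x = - conj x := by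
        rw [Psi, h1]; simp
      rw [this, norm_neg, Complex.norm_conj, h1]
      norm_num
    · have hx' : x ∈ ball (0 : ℂ) 1 := by
        rw [mem_closedBall_zero_iff] at hx
        rw [mem_ball_zero_iff]
        exact lt_of_le_of_ne hx h1
      exact psi_max_le hS1 two hx' fun z hz => hxm (ball_subset_closedBall hz)
  intro z hz
  exact (hxm hz).trans hle

/-- rescaling -/
theorem surf_scale {L F G R : ℂ → ℂ} (hS : Surf (ball 0 1) L F G R) {t : ℝ} (ht : 0 < t) :
    Surf (ball 0 (1 / t)) (fun z => L (t * z)) (fun z => F (t * z)) (fun z => G (t * z))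
      (fun z => R (t * z)) := by
  have hm : MapsTo (fun z : ℂ => (t : ℂ) * z) (ball 0 (1 / t)) (ball 0 1) := by
    intro z hz
    rw [mem_ball_zero_iff] at hz ⊢
    rw [norm_mul, Complex.norm_real, Real.norm_of_nonneg ht.le]
    rw [lt_div_iff₀ ht] at hz
    linarith
  have hd : DifferentiableOn ℂ (fun z : ℂ => (t : ℂ) * z) (ball 0 (1 / t)) :=
    (differentiable_id.const_mul _).differentiableOn
  have hder : ∀ f : ℂ → ℂ, ∀ z, deriv (fun z => f (t * z)) z = t * deriv f (t * z) := by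
    intro f z
    have := deriv_comp_mul_left (t : ℂ) f z
    simpa [smul_eq_mul] using this
  constructor
  · exact hS.dL.comp hd hm
  · exact hS.dF.comp hd hm
  · exact hS.dG.comp hd hm
  · exact hS.dR.comp hd hm
  · intro z hz
    rw [hder, hder, hS.hF _ (hm hz)]; ring
  · intro z hz
    rw [hder, hder, hS.hG _ (hm hz)]; ring
  · intro z hz
    exact hS.hR _ (hm hz)
  · intro z hz
    rw [hder]
    exact mul_ne_zero (by exact_mod_cast ht.ne') (hS.hL _ (hm hz))

/-- The two point theorem as a statement. -/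
def TwoPoint : Prop := ∀ L F G R : ℂ → ℂ, Surf (ball 0 1) L F G R → Achr (ball 0 1) L F G →
  TwoIneq L F G R

theorem psi_scaled (tp : TwoPoint) {L F G R : ℂ → ℂ} (hS : Surf (ball 0 1) L F G R)
    (hK : Achr (ball 0 1) L F G) {t : ℝ} (ht0 : 0 < t) (ht1 : t < 1) :
    ∀ x ∈ closedBall (0 : ℂ) 1, ‖Psi (fun z => L (t * z)) (fun z => R (t * z)) x‖ ≤ 2 := by
  have hr : 1 < 1 / t := by rw [lt_div_iff₀ ht0]; linarith
  have hS' := surf_scale hS ht0
  have hsub' : ball (0 : ℂ) 1 ⊆ ball 0 (1 / t) := ball_subset_ball hr.le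
  refine psi_closed hr hS' (tp _ _ _ _ ⟨hS'.dL.mono hsub', hS'.dF.mono hsub', hS'.dG.mono hsub',
    hS'.dR.mono hsub', fun z hz => hS'.hF z (hsub' hz), fun z hz => hS'.hG z (hsub' hz),
      fun z hz => hS'.hR z (hsub' hz), fun z hz => hS'.hL z (hsub' hz)⟩ ?_)
  intro x hx y hy hxy
  have hmem : ∀ z ∈ ball (0 : ℂ) 1, (t : ℂ) * z ∈ ball (0 : ℂ) 1 := by
    intro z hz
    rw [mem_ball_zero_iff] at hz ⊢
    rw [norm_mul, Complex.norm_real, Real.norm_of_nonneg ht0.le]
    nlinarith [norm_nonneg z]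
  refine hK _ (hmem x hx) _ (hmem y hy) ?_
  intro h
  exact hxy (mul_left_cancel₀ (by exact_mod_cast ht0.ne') h)

/-- `‖Psi‖ ≤ 2` on the disc. -/
theorem psi_le_two' (tp : TwoPoint) {L F G R : ℂ → ℂ} (hS : Surf (ball 0 1) L F G R)
    (hK : Achr (ball 0 1) L F G) : ∀ x ∈ ball (0 : ℂ) 1, ‖Psi L R x‖ ≤ 2 := by
  intro x hx
  have hx' : ‖x‖ < 1 := by simpa using hx
  have hder : ∀ (t : ℝ) (f : ℂ → ℂ) (z : ℂ),
      deriv (fun z => f (t * z)) z = t * deriv f (t * z) := by
    intro t f z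
    have := deriv_comp_mul_left (t : ℂ) f z
    simpa [smul_eq_mul] using this
  have hval : ∀ t : ℝ, 0 < t → Psi (fun z => L (t * z)) (fun z => R (t * z)) (x / t)
      = ((1 - ‖x‖ ^ 2 / t ^ 2 : ℝ) : ℂ) * t * (deriv (deriv L) x / (2 * deriv L x)
        + deriv R x / (2 * I * ((R x).im : ℂ))) - conj x / t := by
    intro t ht
    have htc : (t : ℂ) ≠ 0 := by exact_mod_cast ht.ne'
    have hd2 : deriv (deriv (fun z => L (t * z))) (x / t) = t * (t * deriv (deriv L) x) := by
      have e1 : deriv (fun z => L (t * z)) = fun z => t * deriv L (t * z) := by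
        funext z; exact hder t L z
      rw [e1, deriv_const_mul_field, hder, mul_div_cancel₀ _ htc]
    have hL1 : deriv L x ≠ 0 := hS.hL x hx
    rw [Psi, hd2, hder, hder, mul_div_cancel₀ _ htc, map_div₀, Complex.conj_ofReal, norm_div,
      Complex.norm_real, Real.norm_of_nonneg ht.le, div_pow]
    have hR1 : ((R x).im : ℂ) ≠ 0 := by exact_mod_cast (hS.hR x hx).ne'
    have e2 : (t : ℂ) * (t * deriv (deriv L) x) / (2 * (t * deriv L x))
        + t * deriv R x / (2 * I * ((R x).im : ℂ))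
        = t * (deriv (deriv L) x / (2 * deriv L x) + deriv R x / (2 * I * ((R x).im : ℂ))) := by
      field_simp
    rw [e2]
    ring
  have hlim : Tendsto (fun t : ℝ => ‖((1 - ‖x‖ ^ 2 / t ^ 2 : ℝ) : ℂ) * t
      * (deriv (deriv L) x / (2 * deriv L x)
        + deriv R x / (2 * I * ((R x).im : ℂ))) - conj x / t‖) (𝓝[<] 1) (𝓝 ‖Psi L R x‖) := by
    have hc : ContinuousAt (fun t : ℝ => ‖((1 - ‖x‖ ^ 2 / t ^ 2 : ℝ) : ℂ) * t
      * (deriv (deriv L) x / (2 * deriv L x)
        + deriv R x / (2 * I * ((R x).im : ℂ))) - conj x / t‖) 1 := by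
      refine ContinuousAt.norm ?_
      refine ContinuousAt.sub (ContinuousAt.mul (ContinuousAt.mul ?_ ?_) continuousAt_const) ?_
      · refine Complex.continuous_ofReal.continuousAt.comp ?_
        refine continuousAt_const.sub (continuousAt_const.div (continuousAt_id.pow 2) ?_)
        norm_num
      · exact Complex.continuous_ofReal.continuousAt
      · refine continuousAt_const.div Complex.continuous_ofReal.continuousAt ?_
        simp
    have h1 := hc.tendsto.mono_left (nhdsWithin_le_nhds (s := Iio 1))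
    simpa [Psi] using h1
  refine le_of_tendsto hlim ?_
  have hmem : Ioo (max ‖x‖ (1 / 2)) 1 ∈ 𝓝[<] (1 : ℝ) := by
    refine Ioo_mem_nhdsLT ?_
    exact max_lt hx' (by norm_num)
  filter_upwards [hmem] with t ht
  have ht0 : 0 < t := lt_trans (lt_of_lt_of_le (by norm_num) (le_max_right _ _)) ht.1
  rw [← hval t ht0]
  refine psi_scaled tp hS hK ht0 ht.2 _ ?_
  rw [mem_closedBall_zero_iff, norm_div, Complex.norm_real, Real.norm_of_nonneg ht0.le,
    div_le_one ht0]
  exact (lt_of_le_of_lt (le_max_left _ _) ht.1).le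

/-- Schwarz-Pick at the centre for maps into the upper half plane. -/
theorem schwarz_half {R : ℂ → ℂ} (hd : DifferentiableOn ℂ R (ball 0 1))
    (hR : ∀ z ∈ ball (0 : ℂ) 1, 0 < (R z).im) : ‖deriv R 0‖ ≤ 2 * (R 0).im := by
  have h0 : 0 < (R 0).im := hR 0 mem0
  have hden : ∀ z ∈ ball (0 : ℂ) 1, R z - conj (R 0) ≠ 0 := by
    intro z hz h
    have := congrArg Complex.im h
    simp at this
    have h2 := hR z hz
    linarith
  set B : ℂ → ℂ := fun z => (R z - R 0) / (R z - conj (R 0)) with hB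
  have hBd : DifferentiableOn ℂ B (ball 0 1) :=
    (hd.sub_const _).div (hd.sub_const _) hden
  have hBm : MapsTo B (ball 0 1) (ball (B 0) 1) := by
    intro z hz
    have hB0 : B 0 = 0 := by simp [hB]
    rw [hB0, mem_ball_zero_iff, hB]
    simp only [norm_div]
    rw [div_lt_one (norm_pos_iff.2 (hden z hz))]
    have h1 : ‖R z - R 0‖ ^ 2 < ‖R z - conj (R 0)‖ ^ 2 := by
      rw [← Complex.normSq_eq_norm_sq, ← Complex.normSq_eq_norm_sq]
      simp only [Complex.normSq_apply]
      simp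
      nlinarith [hR z hz]
    exact lt_of_pow_lt_pow_left₀ 2 (norm_nonneg _) h1
  have h1 : ‖deriv B 0‖ ≤ 1 / 1 :=
    Complex.norm_deriv_le_div_of_mapsTo_ball hBd
      (hBm.mono_right ball_subset_closedBall) one_pos
  have hRd : HasDerivAt R (deriv R 0) 0 :=
    (hd.differentiableAt (ball_open.mem_nhds mem0)).hasDerivAt
  have h2 : HasDerivAt B ((deriv R 0 * (R 0 - conj (R 0)) - (R 0 - R 0) * deriv R 0)
      / (R 0 - conj (R 0)) ^ 2) 0 :=
    (hRd.sub_const _).div (hRd.sub_const _) (hden 0 mem0)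
  have h3 : R 0 - conj (R 0) = ((2 * (R 0).im : ℝ) : ℂ) * I := by
    apply Complex.ext <;> simp
    ring
  have h4 : ‖deriv B 0‖ = ‖deriv R 0‖ / (2 * (R 0).im) := by
    have h5 : (R 0 - conj (R 0)) ≠ 0 := hden 0 mem0
    have h6 : deriv B 0 = deriv R 0 / (R 0 - conj (R 0)) := by
      rw [h2.deriv, sub_self, zero_mul, sub_zero]
      field_simp
    rw [h6, norm_div, h3, norm_mul, Complex.norm_I, mul_one, Complex.norm_real,
      Real.norm_of_nonneg (by positivity)]
  rw [h4, div_one, div_le_one (by positivity)] at h1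
  exact h1

/-- MARTY: second coefficient, from the two point theorem. -/
theorem a2_bound' (tp : TwoPoint) {L F G R : ℂ → ℂ} (hS : Surf (ball 0 1) L F G R)
    (hK : Achr (ball 0 1) L F G) : ‖deriv (deriv L) 0‖ ≤ 6 * ‖deriv L 0‖ := by
  have h1 := psi_le_two' tp hS hK 0 mem0
  have h2 := schwarz_half hS.dR hS.hR
  have h0 : deriv L 0 ≠ 0 := hS.hL 0 mem0
  have hR0 : 0 < (R 0).im := hS.hR 0 mem0
  have hR0c : ((R 0).im : ℂ) ≠ 0 := by exact_mod_cast hR0.ne'
  have h3 : deriv (deriv L) 0 / deriv L 0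
      = 2 * Psi L R 0 - deriv R 0 / (I * ((R 0).im : ℂ)) := by
    rw [Psi]
    simp only [norm_zero, map_zero, sub_zero]
    push_cast
    field_simp
    ring
  have h4 : ‖deriv (deriv L) 0 / deriv L 0‖ ≤ 6 := by
    rw [h3]
    refine (norm_sub_le _ _).trans ?_
    rw [norm_mul, norm_div, norm_mul, Complex.norm_I, one_mul, Complex.norm_real,
      Real.norm_of_nonneg hR0.le]
    have h5 : ‖deriv R 0‖ / (R 0).im ≤ 2 := by rw [div_le_iff₀ hR0]; exact h2
    have h6 : ‖(2 : ℂ)‖ = 2 := by simp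
    rw [h6]
    linarith
  rw [norm_div, div_le_iff₀ (norm_pos_iff.2 h0)] at h4
  exact h4

end Pool.CSH
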