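import Mathlib
import Pool.Agent.CSH.Psi

/-!
# Radial growth of the conformal radius (RADIAL)

If the logarithmic gradient `Psi` of the conformal radius is bounded by `2` on the disc, then
`(1 - |z|²) |L'(z)| Im R(z) ≤ |L'(0)| Im R(0) ((1 + |z|) / (1 - |z|))²`.
-/

set_option autoImplicit false

namespace Pool.CSH

open Complex Set Metric ComplexConjugate

/-- derivative of `log (normSq (u t))` along a real line. -/
theorem hasDerivAt_log_normSq {u : ℝ → ℂ} {u' : ℂ} {t : ℝ} (hu : HasDerivAt u u' t)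
    (h0 : u t ≠ 0) :
    HasDerivAt (fun s => Real.log (normSq (u s))) (2 * (u' / u t).re) t := by
  have hre : HasDerivAt (fun s => (u s).re) u'.re t := by
    exact (Complex.reCLM.hasFDerivAt.comp_hasDerivAt t hu)
  have him : HasDerivAt (fun s => (u s).im) u'.im t := by
    exact (Complex.imCLM.hasFDerivAt.comp_hasDerivAt t hu)
  have h1 : HasDerivAt (fun s => normSq (u s))
      (u'.re * (u t).re + (u t).re * u'.re + (u'.im * (u t).im + (u t).im * u'.im)) t := by
    have := (hre.mul hre).add (him.mul him)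
    refine this.congr_of_eventuallyEq ?_
    filter_upwards with s
    simp [normSq_apply]
  have hpos : 0 < normSq (u t) := normSq_pos.2 h0
  have h2 := h1.log hpos.ne'
  refine h2.congr_deriv ?_
  rw [Complex.div_re]
  field_simp
  ring

theorem radial_bound {L F G R : ℂ → ℂ} (hS : Surf (ball 0 1) L F G R)
    (hPsi : ∀ x ∈ ball (0 : ℂ) 1, ‖Psi L R x‖ ≤ 2) :
    ∀ z ∈ ball (0 : ℂ) 1, (1 - ‖z‖ ^ 2) * ‖deriv L z‖ * (R z).im ≤
      ‖deriv L 0‖ * (R 0).im * ((1 + ‖z‖) / (1 - ‖z‖)) ^ 2 := by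
  intro z hz
  have hz1 : ‖z‖ < 1 := by simpa using hz
  set ρ := ‖z‖ with hρ
  have hρ0 : 0 ≤ ρ := norm_nonneg z
  -- direction
  obtain ⟨e, he, hze⟩ : ∃ e : ℂ, ‖e‖ = 1 ∧ z = (ρ : ℂ) * e := by
    by_cases h : z = 0
    · refine ⟨1, by simp, ?_⟩
      rw [hρ, h]; simp
    · refine ⟨z / ρ, ?_, ?_⟩
      · rw [norm_div]
        have : ‖(ρ : ℂ)‖ = ρ := by simp [abs_of_nonneg hρ0]
        rw [this, hρ, div_self (by simpa using h)]
      · have : (ρ : ℂ) ≠ 0 := by
          rw [hρ]; exact_mod_cast (norm_ne_zero_iff.2 h)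
        field_simp
  have hop : IsOpen (ball (0 : ℂ) 1) := isOpen_ball
  have hmem : ∀ t ∈ Ico (0 : ℝ) 1, (t : ℂ) * e ∈ ball (0 : ℂ) 1 := by
    intro t ht
    rw [mem_ball_zero_iff, norm_mul, he, mul_one, Complex.norm_real, Real.norm_eq_abs,
      abs_of_nonneg ht.1]
    exact ht.2
  have hdL' : DifferentiableOn ℂ (deriv L) (ball 0 1) := hS.dL.deriv hop
  have hline : ∀ t : ℝ, HasDerivAt (fun s : ℝ => (s : ℂ) * e) e t := by
    intro t
    simpa using (Complex.ofRealCLM.hasDerivAt (x := t)).mul_const e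
  have hu : ∀ t ∈ Ico (0 : ℝ) 1, HasDerivAt (fun s : ℝ => deriv L ((s : ℂ) * e))
      (deriv (deriv L) ((t : ℂ) * e) * e) t := by
    intro t ht
    have h1 : HasDerivAt (deriv L) (deriv (deriv L) ((t : ℂ) * e)) ((t : ℂ) * e) :=
      ((hdL' _ (hmem t ht)).differentiableAt (hop.mem_nhds (hmem t ht))).hasDerivAt
    exact h1.comp t (hline t)
  have hr : ∀ t ∈ Ico (0 : ℝ) 1, HasDerivAt (fun s : ℝ => R ((s : ℂ) * e))
      (deriv R ((t : ℂ) * e) * e) t := by
    intro t ht
    have h1 : HasDerivAt R (deriv R ((t : ℂ) * e)) ((t : ℂ) * e) :=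
      ((hS.dR _ (hmem t ht)).differentiableAt (hop.mem_nhds (hmem t ht))).hasDerivAt
    exact h1.comp t (hline t)
  have hrim : ∀ t ∈ Ico (0 : ℝ) 1, HasDerivAt (fun s : ℝ => (R ((s : ℂ) * e)).im)
      (deriv R ((t : ℂ) * e) * e).im t := by
    intro t ht
    exact (Complex.imCLM.hasFDerivAt.comp_hasDerivAt t (hr t ht))
  -- the function
  set φ : ℝ → ℝ := fun t => Real.log (1 - t ^ 2) +
    Real.log (normSq (deriv L ((t : ℂ) * e))) / 2 + Real.log (R ((t : ℂ) * e)).im
    - 2 * (Real.log (1 + t) - Real.log (1 - t)) with hφ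
  have hder : ∀ t ∈ Ico (0 : ℝ) 1, HasDerivAt φ
      (2 * (e * Psi L R ((t : ℂ) * e)).re / (1 - t ^ 2) - 4 / (1 - t ^ 2)) t := by
    intro t ht
    have ht1 : (0 : ℝ) < 1 - t ^ 2 := by nlinarith [ht.1, ht.2]
    have hp1 : (0 : ℝ) < 1 + t := by linarith [ht.1]
    have hm1 : (0 : ℝ) < 1 - t := by linarith [ht.2]
    have hL0 := hS.hL _ (hmem t ht)
    have hR0 := hS.hR _ (hmem t ht)
    have a1 : HasDerivAt (fun s : ℝ => Real.log (1 - s ^ 2)) ((-(2 * t)) / (1 - t ^ 2)) t := by
      have : HasDerivAt (fun s : ℝ => 1 - s ^ 2) (-(2 * t)) t := by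
        simpa using ((hasDerivAt_id t).pow 2).const_sub 1
      exact this.log ht1.ne'
    have a2 := (hasDerivAt_log_normSq (hu t ht) hL0).div_const 2
    have a3 := (hrim t ht).log hR0.ne'
    have a4 : HasDerivAt (fun s : ℝ => Real.log (1 + s)) (1 / (1 + t)) t := by
      have : HasDerivAt (fun s : ℝ => 1 + s) 1 t := by
        simpa using (hasDerivAt_id t).const_add 1
      exact this.log hp1.ne'
    have a5 : HasDerivAt (fun s : ℝ => Real.log (1 - s)) ((-1) / (1 - t)) t := by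
      have : HasDerivAt (fun s : ℝ => 1 - s) (-1) t := by
        simpa using (hasDerivAt_id t).const_sub 1
      exact this.log hm1.ne'
    have a6 := ((a1.add a2).add a3).sub ((a4.sub a5).const_mul 2)
    refine a6.congr_deriv ?_
    have hnorm : ‖(t : ℂ) * e‖ = t := by
      rw [norm_mul, he, mul_one, Complex.norm_real, Real.norm_eq_abs, abs_of_nonneg ht.1]
    have hee : e.re * e.re + e.im * e.im = 1 := by
      have := Complex.sq_norm e
      rw [he, normSq_apply] at this
      linarith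
    have hcong : (e * conj ((t : ℂ) * e)).re = t := by
      simp only [map_mul, Complex.conj_ofReal, Complex.mul_re, Complex.mul_im, Complex.ofReal_re,
        Complex.ofReal_im, Complex.conj_re, Complex.conj_im]
      nlinarith [hee]
    -- real part of the second term
    set X := deriv (deriv L) ((t : ℂ) * e) with hX
    set Y := deriv L ((t : ℂ) * e) with hY
    set Z := deriv R ((t : ℂ) * e) with hZ
    set m := (R ((t : ℂ) * e)).im with hm
    have h1 : (e * Psi L R ((t : ℂ) * e)).re =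
        (1 - t ^ 2) * ((X * e / Y).re / 2 + (Z * e).im / m / 2) - t := by
      unfold Psi
      rw [hnorm, ← hX, ← hY, ← hZ, ← hm]
      have h2 : e * (((1 - t ^ 2 : ℝ) : ℂ) * (X / (2 * Y) + Z / (2 * I * (m : ℂ))) -
          conj ((t : ℂ) * e)) = ((1 - t ^ 2 : ℝ) : ℂ) * ((X * e / Y) * ((1 / 2 : ℝ) : ℂ) +
            (-I * (Z * e)) * ((1 / (2 * m) : ℝ) : ℂ)) - e * conj ((t : ℂ) * e) := by
        have hm0 : (m : ℂ) ≠ 0 := by exact_mod_cast hR0.ne'
        push_cast
        field_simp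
        ring_nf
        simp only [Complex.I_sq]
        ring
      rw [h2, Complex.sub_re, hcong, Complex.re_ofReal_mul, Complex.add_re, Complex.re_mul_ofReal,
        Complex.re_mul_ofReal]
      have h3 : (-I * (Z * e)).re = (Z * e).im := by simp
      rw [h3]
      ring
    rw [h1]
    have hA : (1 : ℝ) - t ^ 2 = (1 + t) * (1 - t) := by ring
    have hmm : m ≠ 0 := hR0.ne'
    field_simp
    rw [hA]
    field_simp
    ring
  have hanti : φ ρ ≤ φ 0 := by
    have hconv : Convex ℝ (Icc (0 : ℝ) ρ) := convex_Icc 0 ρ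
    have hsub : ∀ t ∈ Icc (0 : ℝ) ρ, t ∈ Ico (0 : ℝ) 1 := fun t ht =>
      ⟨ht.1, lt_of_le_of_lt ht.2 hz1⟩
    have := antitoneOn_of_deriv_nonpos (D := Icc (0 : ℝ) ρ) (f := φ) hconv
      (fun t ht => (hder t (hsub t ht)).continuousAt.continuousWithinAt)
      (fun t ht => (hder t (hsub t (interior_subset ht))).differentiableAt.differentiableWithinAt)
      (fun t ht => by
        have ht' := hsub t (interior_subset ht)
        rw [(hder t ht').deriv]
        have ht1 : (0 : ℝ) < 1 - t ^ 2 := by nlinarith [ht'.1, ht'.2]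
        have hb : (e * Psi L R ((t : ℂ) * e)).re ≤ 2 := by
          calc (e * Psi L R ((t : ℂ) * e)).re ≤ ‖e * Psi L R ((t : ℂ) * e)‖ := Complex.re_le_norm _
            _ = ‖Psi L R ((t : ℂ) * e)‖ := by rw [norm_mul, he, one_mul]
            _ ≤ 2 := hPsi _ (hmem t ht')
        rw [← sub_div]
        exact div_nonpos_of_nonpos_of_nonneg (by linarith) ht1.le)
    exact this (left_mem_Icc.2 hρ0) (right_mem_Icc.2 hρ0) hρ0
  -- exponentiate
  have hzL := hS.hL z hz
  have hzR := hS.hR z hz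
  have h00 : (0 : ℂ) ∈ ball (0 : ℂ) 1 := by simp
  have h0L := hS.hL 0 h00
  have h0R := hS.hR 0 h00
  have hp1 : (0 : ℝ) < 1 + ρ := by linarith
  have hm1 : (0 : ℝ) < 1 - ρ := by linarith
  have hq1 : (0 : ℝ) < 1 - ρ ^ 2 := by nlinarith
  have hlogn : ∀ w : ℂ, w ≠ 0 → Real.log (normSq w) / 2 = Real.log ‖w‖ := by
    intro w hw
    rw [Complex.normSq_eq_norm_sq, Real.log_pow]
    push_cast
    ring
  have e1 : φ ρ = Real.log ((1 - ρ ^ 2) * ‖deriv L z‖ * (R z).im) -
      Real.log (((1 + ρ) / (1 - ρ)) ^ 2) := by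
    simp only [hφ]
    rw [← hze, hlogn _ hzL, Real.log_mul (by positivity) hzR.ne',
      Real.log_mul hq1.ne' (by positivity), Real.log_pow, Real.log_div hp1.ne' hm1.ne']
    push_cast
    ring
  have e2 : φ 0 = Real.log (‖deriv L 0‖ * (R 0).im) := by
    simp only [hφ]
    rw [Complex.ofReal_zero, zero_mul, hlogn _ h0L, Real.log_mul (by positivity) h0R.ne']
    simp
  rw [e1, e2, ← Real.log_div (by positivity) (by positivity)] at hanti
  have h3 := (Real.log_le_log_iff (by positivity) (by positivity)).1 hanti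
  rw [div_le_iff₀ (by positivity)] at h3
  exact h3

end Pool.CSH
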