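/-
MP_a0ec2a: second order jets of real functions on the plane
(coefficient of |t|^2 only), used for the two-point theorem.
-/
import Mathlib

open Complex Metric Set Filter Topology Asymptotics ComplexConjugate

namespace Pool.CSH

/-- second order jet at `0`: `u t = u0 + Re (u1 t) + Re (u2 t^2) + u11 |t|^2 + o(|t|^2)`
for some `u2`. -/
def JetE (u : ℂ → ℝ) (u0 : ℝ) (u1 : ℂ) (u11 : ℝ) : Prop :=
  ∃ u2 : ℂ, (fun t : ℂ => u t - (u0 + (u1 * t).re + (u2 * t ^ 2).re + u11 * ‖t‖ ^ 2))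
    =o[𝓝 0] (fun t : ℂ => ‖t‖ ^ 2)

theorem JetE.congr {u v : ℂ → ℝ} {u0 : ℝ} {u1 : ℂ} {u11 : ℝ} (h : JetE u u0 u1 u11)
    (huv : ∀ᶠ t in 𝓝 (0 : ℂ), u t = v t) : JetE v u0 u1 u11 := by
  obtain ⟨u2, h2⟩ := h
  refine ⟨u2, h2.congr' ?_ (EventuallyEq.refl _ _)⟩
  filter_upwards [huv] with t ht
  rw [ht]

theorem JetE.congr_coeff {u : ℂ → ℝ} {u0 v0 : ℝ} {u1 v1 : ℂ} {u11 v11 : ℝ}
    (h : JetE u u0 u1 u11) (h0 : u0 = v0) (h1 : u1 = v1) (h11 : u11 = v11) :
    JetE u v0 v1 v11 := by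
  subst h0 h1 h11; exact h

theorem JetE.const (c : ℝ) : JetE (fun _ => c) c 0 0 := by
  refine ⟨0, ?_⟩
  simp

theorem JetE.add {u v : ℂ → ℝ} {u0 v0 : ℝ} {u1 v1 : ℂ} {u11 v11 : ℝ}
    (hu : JetE u u0 u1 u11) (hv : JetE v v0 v1 v11) :
    JetE (fun t => u t + v t) (u0 + v0) (u1 + v1) (u11 + v11) := by
  obtain ⟨u2, hu⟩ := hu
  obtain ⟨v2, hv⟩ := hv
  refine ⟨u2 + v2, (hu.add hv).congr_left ?_⟩
  intro t
  simp only [add_mul, Complex.add_re]
  ring

theorem JetE.smul {u : ℂ → ℝ} {u0 : ℝ} {u1 : ℂ} {u11 : ℝ}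
    (hu : JetE u u0 u1 u11) (c : ℝ) :
    JetE (fun t => c * u t) (c * u0) (c * u1) (c * u11) := by
  obtain ⟨u2, hu⟩ := hu
  refine ⟨c * u2, (hu.const_mul_left c).congr_left ?_⟩
  intro t
  simp only [mul_assoc, Complex.re_ofReal_mul]
  ring

theorem JetE.neg {u : ℂ → ℝ} {u0 : ℝ} {u1 : ℂ} {u11 : ℝ}
    (hu : JetE u u0 u1 u11) :
    JetE (fun t => - u t) (- u0) (- u1) (- u11) := by
  have := hu.smul (-1)
  refine (this.congr ?_).congr_coeff ?_ ?_ ?_
  · exact Eventually.of_forall fun t => by ring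
  · ring
  · push_cast; ring
  · ring

theorem JetE.sub {u v : ℂ → ℝ} {u0 v0 : ℝ} {u1 v1 : ℂ} {u11 v11 : ℝ}
    (hu : JetE u u0 u1 u11) (hv : JetE v v0 v1 v11) :
    JetE (fun t => u t - v t) (u0 - v0) (u1 - v1) (u11 - v11) := by
  have := hu.add hv.neg
  refine (this.congr ?_).congr_coeff ?_ ?_ ?_
  · exact Eventually.of_forall fun t => by ring
  · ring
  · ring
  · ring

/-- the linear part is `O(|t|)` -/
theorem re_mul_isBigO (a : ℂ) : (fun t : ℂ => (a * t).re) =O[𝓝 0] (fun t : ℂ => ‖t‖) := by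
  refine IsBigO.of_bound ‖a‖ (Eventually.of_forall fun t => ?_)
  rw [Real.norm_eq_abs, norm_norm]
  exact (Complex.abs_re_le_norm _).trans (by rw [norm_mul])

theorem re_mul_sq_isBigO (a : ℂ) :
    (fun t : ℂ => (a * t ^ 2).re) =O[𝓝 0] (fun t : ℂ => ‖t‖ ^ 2) := by
  refine IsBigO.of_bound ‖a‖ (Eventually.of_forall fun t => ?_)
  rw [Real.norm_eq_abs, norm_pow, norm_norm]
  exact (Complex.abs_re_le_norm _).trans (by rw [norm_mul, norm_pow])

theorem norm_sq_isLittleO : (fun t : ℂ => ‖t‖ ^ 2) =o[𝓝 0] (fun t : ℂ => ‖t‖) := by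
  have h : (fun t : ℂ => ‖t‖ ^ 2) = fun t => ‖t‖ * ‖t‖ := by ext t; ring
  rw [h]
  have h1 : (fun t : ℂ => ‖t‖) =o[𝓝 0] (fun _ : ℂ => (1 : ℝ)) := by
    rw [isLittleO_one_iff]
    simpa using (continuous_norm.tendsto (0 : ℂ))
  simpa using h1.mul_isBigO (isBigO_refl (fun t : ℂ => ‖t‖) (𝓝 0))

theorem norm_sq_isBigO_one : (fun t : ℂ => ‖t‖ ^ 2) =O[𝓝 0] (fun _ : ℂ => (1 : ℝ)) := by
  have : Tendsto (fun t : ℂ => ‖t‖ ^ 2) (𝓝 0) (𝓝 0) :=
    (by fun_prop : Continuous fun t : ℂ => ‖t‖ ^ 2).tendsto' 0 0 (by simp)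
  exact this.isBigO_one ℝ

/-- a jet minus its constant is `O(|t|)` -/
theorem JetE.sub_isBigO {u : ℂ → ℝ} {u0 : ℝ} {u1 : ℂ} {u11 : ℝ}
    (hu : JetE u u0 u1 u11) : (fun t => u t - u0) =O[𝓝 0] (fun t : ℂ => ‖t‖) := by
  obtain ⟨u2, hu⟩ := hu
  have h1 := (hu.trans norm_sq_isLittleO).isBigO
  have h2 := re_mul_isBigO u1
  have h3 := (re_mul_sq_isBigO u2).trans norm_sq_isLittleO.isBigO
  have h4 := (norm_sq_isLittleO.isBigO.const_mul_left u11)
  refine (((h1.add h2).add h3).add h4).congr_left ?_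
  intro t
  ring

theorem JetE.tendsto {u : ℂ → ℝ} {u0 : ℝ} {u1 : ℂ} {u11 : ℝ}
    (hu : JetE u u0 u1 u11) : Tendsto u (𝓝 0) (𝓝 u0) := by
  have h1 : (fun t => u t - u0) =o[𝓝 0] (fun _ : ℂ => (1 : ℝ)) := by
    refine hu.sub_isBigO.trans_isLittleO ?_
    rw [isLittleO_one_iff]
    simpa using (continuous_norm.tendsto (0 : ℂ))
  rw [isLittleO_one_iff] at h1
  have := h1.add_const u0
  simpa using this

theorem re_mul_re (a b t : ℂ) :
    (a * t).re * (b * t).re = ((a * b / 2) * t ^ 2).re + (a * conj b).re / 2 * ‖t‖ ^ 2 := by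
  rw [← Complex.normSq_eq_norm_sq, Complex.normSq_apply]
  simp only [Complex.mul_re, Complex.mul_im, Complex.conj_re, Complex.conj_im, pow_two,
    Complex.div_re, Complex.div_im, Complex.re_ofNat, Complex.im_ofNat, Complex.normSq_ofNat]
  ring

theorem JetE.mul {u v : ℂ → ℝ} {u0 v0 : ℝ} {u1 v1 : ℂ} {u11 v11 : ℝ}
    (hu : JetE u u0 u1 u11) (hv : JetE v v0 v1 v11) :
    JetE (fun t => u t * v t) (u0 * v0) (u0 * v1 + v0 * u1)
      (u0 * v11 + v0 * u11 + (u1 * conj v1).re / 2) := by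
  have hub := hu.sub_isBigO
  have hvb := hv.sub_isBigO
  obtain ⟨u2, hu⟩ := hu
  obtain ⟨v2, hv⟩ := hv
  refine ⟨u0 * v2 + v0 * u2 + u1 * v1 / 2, ?_⟩
  -- u v = u0 v + v0 u - u0 v0 + (u - u0) (v - v0)
  -- (u - u0) = Re (u1 t) + O(t^2)
  have hu' : (fun t => u t - u0 - (u1 * t).re) =O[𝓝 0] (fun t : ℂ => ‖t‖ ^ 2) := by
    refine ((hu.isBigO.add (re_mul_sq_isBigO u2)).add
      ((isBigO_refl (fun t : ℂ => ‖t‖ ^ 2) (𝓝 0)).const_mul_left u11)).congr_left ?_
    intro t; ring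
  have hv' : (fun t => v t - v0 - (v1 * t).re) =O[𝓝 0] (fun t : ℂ => ‖t‖ ^ 2) := by
    refine ((hv.isBigO.add (re_mul_sq_isBigO v2)).add
      ((isBigO_refl (fun t : ℂ => ‖t‖ ^ 2) (𝓝 0)).const_mul_left v11)).congr_left ?_
    intro t; ring
  have h3 : (fun t : ℂ => ‖t‖ ^ 2 * ‖t‖) =o[𝓝 0] (fun t : ℂ => ‖t‖ ^ 2) := by
    have h1 : (fun t : ℂ => ‖t‖) =o[𝓝 0] (fun _ : ℂ => (1 : ℝ)) := by
      rw [isLittleO_one_iff]
      simpa using (continuous_norm.tendsto (0 : ℂ))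
    simpa using (isBigO_refl (fun t : ℂ => ‖t‖ ^ 2) (𝓝 0)).mul_isLittleO h1
  have e1 : (fun t => (u t - u0 - (u1 * t).re) * (v t - v0)) =o[𝓝 0] (fun t : ℂ => ‖t‖ ^ 2) :=
    (hu'.mul hvb).trans_isLittleO h3
  have e2 : (fun t => (v t - v0 - (v1 * t).re) * (u1 * t).re) =o[𝓝 0] (fun t : ℂ => ‖t‖ ^ 2) :=
    (hv'.mul (re_mul_isBigO u1)).trans_isLittleO h3
  have e3 := (hu.const_mul_left v0)
  have e4 := (hv.const_mul_left u0)
  refine (((e1.add e2).add e3).add e4).congr_left ?_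
  intro t
  have := re_mul_re u1 v1 t
  simp only [add_mul, Complex.add_re, mul_assoc, Complex.re_ofReal_mul] at this ⊢
  linear_combination -this

theorem JetE.log {u : ℂ → ℝ} {u0 : ℝ} {u1 : ℂ} {u11 : ℝ}
    (hu : JetE u u0 u1 u11) (h0 : 0 < u0) :
    JetE (fun t => Real.log (u t)) (Real.log u0) (u1 / u0)
      (u11 / u0 - ‖u1‖ ^ 2 / (4 * u0 ^ 2)) := by
  -- log (u0 + s) = log u0 + s/u0 - s^2/(2 u0^2) + o(s^2)
  have hub := hu.sub_isBigO
  have ht := hu.tendsto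
  have hcub : (fun s : ℝ => Real.log (u0 + s) - (Real.log u0 + s / u0 - s ^ 2 / (2 * u0 ^ 2)))
      =o[𝓝 0] (fun s : ℝ => s ^ 2) := by
    have hd : ∀ᶠ s in 𝓝 (0 : ℝ), HasDerivAt
        (fun s : ℝ => Real.log (u0 + s) - (Real.log u0 + s / u0 - s ^ 2 / (2 * u0 ^ 2)))
        (s ^ 2 / (u0 ^ 2 * (u0 + s))) s := by
      have : ∀ᶠ s in 𝓝 (0 : ℝ), 0 < u0 + s := by
        have hc : Tendsto (fun s : ℝ => u0 + s) (𝓝 0) (𝓝 (u0 + 0)) :=
          (continuous_const.add continuous_id).tendsto 0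
        rw [add_zero] at hc
        exact hc.eventually (lt_mem_nhds h0)
      filter_upwards [this] with s hs
      have h1 : HasDerivAt (fun s : ℝ => Real.log (u0 + s)) (1 / (u0 + s)) s := by
        simpa using ((hasDerivAt_id s).const_add u0).log hs.ne'
      have h2 : HasDerivAt (fun s : ℝ => Real.log u0 + s / u0 - s ^ 2 / (2 * u0 ^ 2))
          (1 / u0 - 2 * s / (2 * u0 ^ 2)) s := by
        have := (((hasDerivAt_id s).div_const u0).const_add (Real.log u0)).sub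
          (((hasDerivAt_id s).pow 2).div_const (2 * u0 ^ 2))
        refine this.congr_deriv ?_
        simp
      refine (h1.sub h2).congr_deriv ?_
      have := hs.ne'
      field_simp
      ring
    -- bound the value by the mean value theorem: |phi s| <= C |s|^3
    obtain ⟨ε, hε, hball⟩ := Metric.eventually_nhds_iff_ball.1 hd
    set φ := fun s : ℝ => Real.log (u0 + s) - (Real.log u0 + s / u0 - s ^ 2 / (2 * u0 ^ 2))
      with hφ
    have hφ0 : φ 0 = 0 := by simp [hφ]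
    have hbig : φ =O[𝓝 0] (fun s : ℝ => |s| ^ 2 * |s|) := by
      refine IsBigO.of_bound (2 / u0 ^ 3) ?_
      have hr : 0 < min ε (u0 / 2) := lt_min hε (by linarith)
      filter_upwards [Metric.ball_mem_nhds (0 : ℝ) hr] with s hs
      rw [Metric.mem_ball, dist_zero_right, Real.norm_eq_abs] at hs
      have hs1 : |s| < ε := hs.trans_le (min_le_left _ _)
      have hs2 : |s| < u0 / 2 := hs.trans_le (min_le_right _ _)
      have := (convex_closedBall (0 : ℝ) |s|).norm_image_sub_le_of_norm_hasDerivWithin_le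
        (f := φ) (f' := fun s => s ^ 2 / (u0 ^ 2 * (u0 + s))) (C := 2 / u0 ^ 3 * |s| ^ 2)
        (x := 0) (y := s) ?_ ?_ ?_ ?_
      · rw [hφ0, sub_zero, sub_zero] at this
        rw [Real.norm_eq_abs (|s| ^ 2 * |s|), abs_of_nonneg (by positivity)]
        calc ‖φ s‖ ≤ 2 / u0 ^ 3 * |s| ^ 2 * ‖s‖ := this
          _ = 2 / u0 ^ 3 * (|s| ^ 2 * |s|) := by rw [Real.norm_eq_abs]; ring
      · intro x hx
        rw [Metric.mem_closedBall, dist_zero_right, Real.norm_eq_abs] at hx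
        exact (hball x (by rw [Metric.mem_ball, dist_zero_right, Real.norm_eq_abs]; linarith)).hasDerivWithinAt
      · intro x hx
        rw [Metric.mem_closedBall, dist_zero_right, Real.norm_eq_abs] at hx
        have hx2 : -(u0/2) < x := by
          have := (abs_lt.1 (lt_of_le_of_lt hx hs2)).1
          linarith
        have hpos : 0 < u0 + x := by linarith
        rw [Real.norm_eq_abs, abs_of_nonneg (by positivity)]
        rw [div_le_iff₀ (by positivity)]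
        have hx3 : x ^ 2 ≤ |s| ^ 2 := by
          rw [← sq_abs x]
          exact pow_le_pow_left₀ (abs_nonneg _) hx 2
        have h5 : u0 ^ 2 * (u0 + x) ≥ u0 ^ 3 / 2 := by nlinarith [sq_nonneg u0]
        calc x ^ 2 ≤ |s| ^ 2 := hx3
          _ = 2 / u0 ^ 3 * |s| ^ 2 * (u0 ^ 3 / 2) := by field_simp
          _ ≤ 2 / u0 ^ 3 * |s| ^ 2 * (u0 ^ 2 * (u0 + x)) := by
              apply mul_le_mul_of_nonneg_left h5 (by positivity)
      · simp
      · simp [Metric.mem_closedBall]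
    refine hbig.trans_isLittleO ?_
    have h1 : (fun s : ℝ => |s|) =o[𝓝 0] (fun _ : ℝ => (1 : ℝ)) := by
      rw [isLittleO_one_iff]
      simpa using (continuous_abs.tendsto (0 : ℝ))
    have h2 := (isBigO_refl (fun s : ℝ => |s| ^ 2) (𝓝 0)).mul_isLittleO h1
    refine (h2.congr_right ?_)
    intro s
    rw [mul_one, sq_abs]
  -- compose with s = u t - u0
  have hs : Tendsto (fun t => u t - u0) (𝓝 0) (𝓝 0) := by
    simpa using ht.sub_const u0
  have hlog : (fun t => Real.log (u t) - (Real.log u0 + (u t - u0) / u0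
      - (u t - u0) ^ 2 / (2 * u0 ^ 2))) =o[𝓝 0] (fun t : ℂ => ‖t‖ ^ 2) := by
    have h1 := hcub.comp_tendsto hs
    refine (h1.congr_left ?_).trans_isBigO ?_
    · intro t
      simp
    · have := hub.pow 2
      simpa [Function.comp_def] using this
  -- the jet of the second order Taylor polynomial
  have hsub : JetE (fun t => u t - u0) 0 u1 u11 := by
    have := hu.sub (JetE.const u0)
    simpa using this
  have hsq := hsub.mul hsub
  have htay : JetE (fun t => Real.log u0 + (u t - u0) / u0 - (u t - u0) ^ 2 / (2 * u0 ^ 2))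
      (Real.log u0) (u1 / u0) (u11 / u0 - ‖u1‖ ^ 2 / (4 * u0 ^ 2)) := by
    have := ((JetE.const (Real.log u0)).add (hsub.smul (1 / u0))).sub
      (hsq.smul (1 / (2 * u0 ^ 2)))
    refine (this.congr ?_).congr_coeff ?_ ?_ ?_
    · exact Eventually.of_forall fun t => by
        field_simp
    · ring
    · push_cast; ring
    · have : (u1 * conj u1).re = ‖u1‖ ^ 2 := by
        rw [Complex.mul_conj, Complex.ofReal_re, Complex.normSq_eq_norm_sq]
      rw [this]
      field_simp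
      ring
  obtain ⟨u2, h⟩ := htay
  refine ⟨u2, (hlog.add h).congr_left ?_⟩
  intro t
  ring

theorem JetE.comp_conj {u : ℂ → ℝ} {u0 : ℝ} {u1 : ℂ} {u11 : ℝ}
    (hu : JetE u u0 u1 u11) : JetE (fun t => u (conj t)) u0 (conj u1) u11 := by
  obtain ⟨u2, hu⟩ := hu
  refine ⟨conj u2, ?_⟩
  have hc : Tendsto (fun t : ℂ => conj t) (𝓝 0) (𝓝 0) := by
    have := Complex.continuous_conj.tendsto (0 : ℂ)
    simpa using this
  have h := hu.comp_tendsto hc
  refine (h.congr_left ?_).congr_right ?_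
  · intro t
    simp only [Function.comp_def]
    have e1 : (u1 * conj t).re = (conj u1 * t).re := by
      rw [← Complex.conj_re (conj u1 * t), map_mul, Complex.conj_conj]
    have e2 : (u2 * (conj t) ^ 2).re = (conj u2 * t ^ 2).re := by
      rw [← Complex.conj_re (conj u2 * t ^ 2), map_mul, Complex.conj_conj, map_pow]
    rw [e1, e2, RCLike.norm_conj]
  · intro t
    simp

theorem JetE.of_analytic {a : ℂ → ℂ} (ha : AnalyticAt ℂ a 0) :
    JetE (fun t => (a t).re) (a 0).re (deriv a 0) 0 := by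
  obtain ⟨p, hp⟩ := ha
  refine ⟨p.coeff 2, ?_⟩
  have h3 := hp.isBigO_sub_partialSum_pow 3
  have hlo : (fun y : ℂ => a (0 + y) - p.partialSum 3 y) =o[𝓝 0] (fun y : ℂ => ‖y‖ ^ 2) := by
    refine h3.trans_isLittleO ?_
    have h1 : (fun t : ℂ => ‖t‖) =o[𝓝 0] (fun _ : ℂ => (1 : ℝ)) := by
      rw [isLittleO_one_iff]
      simpa using (continuous_norm.tendsto (0 : ℂ))
    have h2 := (isBigO_refl (fun t : ℂ => ‖t‖ ^ 2) (𝓝 0)).mul_isLittleO h1
    refine (h2.congr_left ?_).congr_right ?_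
    · intro t; ring
    · intro t; ring
  have hre : (fun y : ℂ => (a (0 + y) - p.partialSum 3 y).re) =O[𝓝 0]
      (fun y : ℂ => a (0 + y) - p.partialSum 3 y) := by
    refine IsBigO.of_bound 1 (Eventually.of_forall fun t => ?_)
    rw [one_mul, Real.norm_eq_abs]
    exact Complex.abs_re_le_norm _
  refine (hre.trans_isLittleO hlo).congr_left ?_
  intro t
  have h0 : p.coeff 0 = a 0 := hp.coeff_zero _
  have h1 : p.coeff 1 = deriv a 0 := hp.deriv.symm
  have hs : p.partialSum 3 t = p.coeff 0 + p.coeff 1 * t + p.coeff 2 * t ^ 2 := by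
    simp only [FormalMultilinearSeries.partialSum, Finset.sum_range_succ, Finset.sum_range_zero,
      zero_add]
    simp only [FormalMultilinearSeries.apply_eq_pow_smul_coeff, pow_zero, pow_one, smul_eq_mul,
      one_mul]
    ring
  rw [hs, h0, h1, zero_add]
  simp only [Complex.sub_re, Complex.add_re]
  ring

/-- logarithm of the modulus of an analytic function -/
theorem JetE.log_norm {a : ℂ → ℂ} (ha : AnalyticAt ℂ a 0) (h0 : a 0 ≠ 0) :
    ∃ u1 : ℂ, JetE (fun t => Real.log ‖a t‖) (Real.log ‖a 0‖) u1 0 := by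
  have h1 : AnalyticAt ℂ (fun t => Complex.log (a t / a 0)) 0 := by
    refine (ha.div_const).clog ?_
    rw [div_self h0]
    exact Complex.one_mem_slitPlane
  have hj := JetE.of_analytic h1
  refine ⟨deriv (fun t => Complex.log (a t / a 0)) 0, ?_⟩
  have h2 := (JetE.const (Real.log ‖a 0‖)).add hj
  refine (h2.congr ?_).congr_coeff ?_ ?_ ?_
  · have hne : ∀ᶠ t in 𝓝 (0 : ℂ), a t ≠ 0 := ha.continuousAt.eventually_ne h0
    filter_upwards [hne] with t ht
    rw [Complex.log_re, norm_div, Real.log_div (norm_ne_zero_iff.2 ht) (norm_ne_zero_iff.2 h0)]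
    ring
  · simp [div_self h0]
  · ring
  · ring

/-- at a local minimum the `|t|^2` coefficient is nonnegative -/
theorem JetE.nonneg_of_min {u : ℂ → ℝ} {u0 : ℝ} {u1 : ℂ} {u11 : ℝ}
    (hu : JetE u u0 u1 u11) (hmin : ∀ᶠ t in 𝓝 (0 : ℂ), u0 ≤ u t) : 0 ≤ u11 := by
  obtain ⟨u2, hu⟩ := hu
  by_contra hneg
  push Not at hneg
  have h1 := hu.def (show (0:ℝ) < -u11 / 2 by linarith)
  obtain ⟨ε, hε, hball⟩ := Metric.eventually_nhds_iff_ball.1 (h1.and hmin)
  set s : ℝ := ε / 2 with hs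
  have hs0 : 0 < s := by positivity
  have hmem : ∀ w : ℂ, ‖w‖ = 1 → (s * w : ℂ) ∈ Metric.ball (0 : ℂ) ε := by
    intro w hw
    rw [Metric.mem_ball, dist_zero_right, norm_mul, hw, mul_one, Complex.norm_real,
      Real.norm_eq_abs, abs_of_pos hs0]
    linarith
  have key : ∀ w : ℂ, ‖w‖ = 1 → 0 ≤ (u1 * (s * w)).re + (u2 * (s * w) ^ 2).re
      + u11 * s ^ 2 + (-u11 / 2) * s ^ 2 := by
    intro w hw
    obtain ⟨ha, hb⟩ := hball _ (hmem w hw)
    have hn : ‖(s * w : ℂ)‖ = s := by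
      rw [norm_mul, hw, mul_one, Complex.norm_real, Real.norm_eq_abs, abs_of_pos hs0]
    rw [hn, Real.norm_eq_abs, Real.norm_eq_abs, abs_of_nonneg (sq_nonneg s)] at ha
    have := (abs_le.1 ha).2
    linarith
  have k1 := key 1 (by simp)
  have k2 := key I (by simp)
  have k3 := key (-1) (by simp)
  have k4 := key (-I) (by simp)
  have e1 : (u1 * (s * 1)).re + (u1 * (s * I)).re + (u1 * (s * (-1))).re
      + (u1 * (s * (-I))).re = 0 := by
    simp [Complex.mul_re, Complex.mul_im]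
    try ring
  have e2 : (u2 * (s * 1) ^ 2).re + (u2 * (s * I) ^ 2).re + (u2 * (s * (-1)) ^ 2).re
      + (u2 * (s * (-I)) ^ 2).re = 0 := by
    have : ∀ w : ℂ, (u2 * (s * w) ^ 2) = w ^ 2 * (u2 * s ^ 2) := by intro w; ring
    rw [this, this, this, this]
    simp [pow_two]
  nlinarith [sq_pos_of_pos hs0]

end Pool.CSH
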