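/-
MP_a0ec2a: two-point inequality, local part (second order condition at an interior minimum).
-/
import Pool.Agent.CSH.Defs
import Pool.Agent.CSH.Jet

open Complex Metric Set Filter Topology Asymptotics ComplexConjugate

namespace Pool.CSH

theorem analytic_affine_comp {Φ : ℂ → ℂ} {p : ℂ} (h : AnalyticAt ℂ Φ p) (q : ℂ) :
    AnalyticAt ℂ (fun t : ℂ => Φ (p + t * q)) 0 := by
  have hg : AnalyticAt ℂ (fun t : ℂ => p + t * q) 0 := by fun_prop
  have h' : AnalyticAt ℂ Φ ((fun t : ℂ => p + t * q) 0) := by simpa using h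
  exact AnalyticAt.comp (g := Φ) (f := fun t : ℂ => p + t * q) h' hg

/-- jet of `Im (Φ (x0 + t ξ) - Φ (y0 + conj t η))` -/
theorem jet_imdiff {Φ : ℂ → ℂ} {x0 y0 : ℂ} (hx : AnalyticAt ℂ Φ x0) (hy : AnalyticAt ℂ Φ y0)
    (ξ η : ℂ) :
    JetE (fun t => (Φ (x0 + t * ξ) - Φ (y0 + conj t * η)).im) (Φ x0 - Φ y0).im
      (-I * (deriv Φ x0 * ξ) - I * conj (deriv Φ y0 * η)) 0 := by
  have h1 : AnalyticAt ℂ (fun t : ℂ => -I * Φ (x0 + t * ξ)) 0 :=
    analyticAt_const.mul (analytic_affine_comp hx ξ)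
  have h2 : AnalyticAt ℂ (fun t : ℂ => -I * Φ (y0 + t * η)) 0 :=
    analyticAt_const.mul (analytic_affine_comp hy η)
  have d1 : deriv (fun t : ℂ => -I * Φ (x0 + t * ξ)) 0 = -I * (deriv Φ x0 * ξ) := by
    have ha : HasDerivAt (fun t : ℂ => x0 + t * ξ) ξ 0 := by
      simpa using ((hasDerivAt_id (0:ℂ)).mul_const ξ).const_add x0
    have hb : HasDerivAt Φ (deriv Φ x0) (x0 + 0 * ξ) := by
      simpa using hx.differentiableAt.hasDerivAt
    exact ((hb.comp (0:ℂ) ha).const_mul (-I)).deriv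
  have d2 : deriv (fun t : ℂ => -I * Φ (y0 + t * η)) 0 = -I * (deriv Φ y0 * η) := by
    have ha : HasDerivAt (fun t : ℂ => y0 + t * η) η 0 := by
      simpa using ((hasDerivAt_id (0:ℂ)).mul_const η).const_add y0
    have hb : HasDerivAt Φ (deriv Φ y0) (y0 + 0 * η) := by
      simpa using hy.differentiableAt.hasDerivAt
    exact ((hb.comp (0:ℂ) ha).const_mul (-I)).deriv
  have j1 := JetE.of_analytic h1
  have j2 := (JetE.of_analytic h2).comp_conj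
  rw [d1] at j1
  rw [d2] at j2
  refine ((j1.sub j2).congr ?_).congr_coeff ?_ ?_ ?_
  · refine Eventually.of_forall fun t => ?_
    simp [Complex.sub_im]
  · simp [Complex.sub_im]
  · simp only [map_mul, map_neg, Complex.conj_I]
    ring
  · ring

theorem jet_one_sub_normsq (x0 ξ : ℂ) :
    JetE (fun t => 1 - ‖x0 + t * ξ‖ ^ 2) (1 - ‖x0‖ ^ 2) (-2 * (conj x0 * ξ)) (-‖ξ‖ ^ 2) := by
  refine ⟨0, ?_⟩
  have : ∀ t : ℂ, 1 - ‖x0 + t * ξ‖ ^ 2 - (1 - ‖x0‖ ^ 2 + (-2 * (conj x0 * ξ) * t).re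
      + ((0 : ℂ) * t ^ 2).re + -‖ξ‖ ^ 2 * ‖t‖ ^ 2) = 0 := by
    intro t
    simp only [← Complex.normSq_eq_norm_sq, Complex.normSq_apply]
    simp
    ring
  simp only [this]
  exact isLittleO_zero _ _

theorem jet_normsq_diff (d ξ η : ℂ) :
    JetE (fun t => ‖d + t * ξ - conj t * η‖ ^ 2) (‖d‖ ^ 2) (2 * (conj d * ξ - d * conj η))
      (‖ξ‖ ^ 2 + ‖η‖ ^ 2) := by
  refine ⟨-2 * (ξ * conj η), ?_⟩
  have : ∀ t : ℂ, ‖d + t * ξ - conj t * η‖ ^ 2 - (‖d‖ ^ 2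
      + (2 * (conj d * ξ - d * conj η) * t).re
      + (-2 * (ξ * conj η) * t ^ 2).re + (‖ξ‖ ^ 2 + ‖η‖ ^ 2) * ‖t‖ ^ 2) = 0 := by
    intro t
    simp only [← Complex.normSq_eq_norm_sq, Complex.normSq_apply]
    simp [pow_two]
    ring
  simp only [this]
  exact isLittleO_zero _ _

theorem log_coeff_diff {d ξ η : ℂ} (hd : d ≠ 0) :
    (‖ξ‖ ^ 2 + ‖η‖ ^ 2) / ‖d‖ ^ 2 - ‖2 * (conj d * ξ - d * conj η)‖ ^ 2 / (4 * (‖d‖ ^ 2) ^ 2)
      = 2 * (ξ * η * (conj d) ^ 2).re / (‖d‖ ^ 2) ^ 2 := by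
  have hd2 : ‖d‖ ^ 2 ≠ 0 := pow_ne_zero _ (norm_ne_zero_iff.2 hd)
  have key : (‖ξ‖ ^ 2 + ‖η‖ ^ 2) * ‖d‖ ^ 2 * 4 - ‖2 * (conj d * ξ - d * conj η)‖ ^ 2
      = 8 * (ξ * η * (conj d) ^ 2).re := by
    simp only [← Complex.normSq_eq_norm_sq, Complex.normSq_apply]
    simp [pow_two]
    ring
  generalize (ξ * η * (conj d) ^ 2).re = r at key ⊢
  field_simp
  linear_combination key

/-- analytic function of `t` built from `R` at the two points -/
theorem analytic_Rdiff {R : ℂ → ℂ} {x0 y0 : ℂ} (hx : AnalyticAt ℂ R x0) (hy : AnalyticAt ℂ R y0)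
    (ξ η : ℂ) : AnalyticAt ℂ (fun t : ℂ => R (x0 + t * ξ) - conj (R (y0 + conj t * η))) 0 := by
  have h1 := analytic_affine_comp hx ξ
  have h2 := analytic_affine_comp hy η
  refine h1.sub ?_
  rw [Complex.analyticAt_iff_eventually_differentiableAt] at h2 ⊢
  have hc : Tendsto (fun t : ℂ => conj t) (𝓝 0) (𝓝 0) := by
    have := Complex.continuous_conj.tendsto (0 : ℂ)
    simpa using this
  filter_upwards [hc.eventually h2] with t ht
  have := ht.conj_conj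
  simpa [Function.comp_def] using this

/-- the algebraic identity for the `|t|^2` coefficient of `log K` -/
theorem K_coeff_identity (f0 g0 l0 : ℝ) (A b Rx s : ℂ) :
    2 * (f0 ^ 2 - g0 * l0) * (‖-I * (Rx * A + s * b)‖ ^ 2
        - (-I * (Rx ^ 2 * A + s ^ 2 * b) * conj (-I * (A + b))).re)
      - ‖(f0 : ℂ) * (-I * (Rx * A + s * b)) + f0 * (-I * (Rx * A + s * b))
        - (g0 * (-I * (A + b)) + l0 * (-I * (Rx ^ 2 * A + s ^ 2 * b)))‖ ^ 2
    = -(‖A‖ ^ 2 * (l0 * ‖Rx‖ ^ 2 - 2 * f0 * Rx.re + g0) ^ 2)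
      - ‖b‖ ^ 2 * (l0 * ‖s‖ ^ 2 - 2 * f0 * s.re + g0) ^ 2
      - 2 * (A * conj b * (l0 * Rx * conj s - f0 * (Rx + conj s) + g0) ^ 2).re := by
  simp only [← Complex.normSq_eq_norm_sq, Complex.normSq_apply]
  simp [pow_two]
  ring

theorem P_norm_identity (f0 g0 l0 : ℝ) (Rx s : ℂ) :
    ‖(l0 : ℂ) * Rx * conj s - f0 * (Rx + conj s) + g0‖ ^ 2
    = (l0 * ‖Rx‖ ^ 2 - 2 * f0 * Rx.re + g0) * (l0 * ‖s‖ ^ 2 - 2 * f0 * s.re + g0)
      + (f0 ^ 2 - g0 * l0) * ‖Rx - s‖ ^ 2 := by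
  simp only [← Complex.normSq_eq_norm_sq, Complex.normSq_apply]
  simp
  ring

theorem one_sub_identity (x y : ℂ) :
    ‖1 - conj x * y‖ ^ 2 = ‖x - y‖ ^ 2 + (1 - ‖x‖ ^ 2) * (1 - ‖y‖ ^ 2) := by
  simp only [← Complex.normSq_eq_norm_sq, Complex.normSq_apply]
  simp
  ring

/-- the ratio -/
noncomputable def rat (L F G R : ℂ → ℂ) (x y : ℂ) : ℝ :=
  4 * KK L F G x y * ‖1 - conj x * y‖ ^ 2 /
    ((1 - ‖x‖ ^ 2) * (1 - ‖y‖ ^ 2) * (‖deriv L x‖ * ‖deriv L y‖ * ‖R x - conj (R y)‖ ^ 2) *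
      ‖x - y‖ ^ 2)

theorem log_rat {K N X Y l1 l2 r d : ℝ} (hK : 0 < K) (hN : 0 < N) (hX : 0 < X) (hY : 0 < Y)
    (h1 : 0 < l1) (h2 : 0 < l2) (hr : 0 < r) (hd : 0 < d) :
    Real.log (4 * K * N ^ 2 / (X * Y * (l1 * l2 * r ^ 2) * d)) =
      Real.log 4 + (Real.log K + 2 * Real.log N - Real.log X - Real.log Y - Real.log l1
        - Real.log l2 - 2 * Real.log r - Real.log d) := by
  rw [Real.log_div (by positivity) (by positivity), Real.log_mul (by positivity) (by positivity),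
    Real.log_mul (by positivity) (by positivity), Real.log_pow,
    Real.log_mul (by positivity) (by positivity), Real.log_mul (by positivity) (by positivity),
    Real.log_mul (by positivity) (by positivity), Real.log_mul (by positivity) (by positivity),
    Real.log_mul (by positivity) (by positivity), Real.log_pow]
  push_cast
  ring

/-- the final scalar inequality -/
theorem final_ineq {K X Y l1 l2 nx ny r2 d2 Q P2 : ℝ} (hK : 0 < K) (hX : 0 < X) (hY : 0 < Y)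
    (h1 : 0 < l1) (h2 : 0 < l2) (hd : 0 < d2) (hP : P2 = nx * ny + K * r2)
    (hQ : l1 * l2 * P2 / (4 * K ^ 2) - 1 / d2 ≤ Q)
    (hpos : 0 ≤ 2 - X ^ 2 * l1 ^ 2 * nx ^ 2 / (4 * K ^ 2) - Y ^ 2 * l2 ^ 2 * ny ^ 2 / (4 * K ^ 2)
      - 2 * (X * Y * Q)) :
    X * Y * (l1 * l2 * r2) * d2 ≤ 4 * K * (d2 + X * Y) := by
  have hXY : 0 < X * Y := mul_pos hX hY
  have e1 : X * Y * (l1 * l2 * P2 / (4 * K ^ 2) - 1 / d2) ≤ X * Y * Q :=
    mul_le_mul_of_nonneg_left hQ hXY.le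
  set a : ℝ := X * l1 * nx / (2 * K) with ha
  set c : ℝ := Y * l2 * ny / (2 * K) with hc
  have e2 : X ^ 2 * l1 ^ 2 * nx ^ 2 / (4 * K ^ 2) = a ^ 2 := by
    rw [ha]; field_simp; ring
  have e3 : Y ^ 2 * l2 ^ 2 * ny ^ 2 / (4 * K ^ 2) = c ^ 2 := by
    rw [hc]; field_simp; ring
  have e4 : X * Y * (l1 * l2 * P2 / (4 * K ^ 2) - 1 / d2)
      = a * c + X * Y * (l1 * l2 * r2) / (4 * K) - X * Y / d2 := by
    rw [hP, ha, hc]; field_simp; ring
  rw [e2, e3] at hpos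
  rw [e4] at e1
  have e5 : X * Y * (l1 * l2 * r2) / (4 * K) ≤ 1 + X * Y / d2 := by
    nlinarith [sq_nonneg (a + c)]
  have e6 : X * Y * (l1 * l2 * r2) / (4 * K) * (4 * K * d2) ≤ (1 + X * Y / d2) * (4 * K * d2) :=
    mul_le_mul_of_nonneg_right e5 (by positivity)
  have e7 : X * Y * (l1 * l2 * r2) / (4 * K) * (4 * K * d2) = X * Y * (l1 * l2 * r2) * d2 := by
    field_simp
  have e8 : (1 + X * Y / d2) * (4 * K * d2) = 4 * K * (d2 + X * Y) := by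
    field_simp
  rw [e7, e8] at e6
  exact e6

/-- local part of the two-point theorem: at a local minimum of the ratio the ratio is `≥ 1`. -/
theorem two_local {U : Set ℂ} (hU : IsOpen U) {L F G R : ℂ → ℂ} (hS : Surf U L F G R) {x0 y0 : ℂ}
    (hx : x0 ∈ U) (hy : y0 ∈ U) (hx1 : ‖x0‖ < 1) (hy1 : ‖y0‖ < 1) (hne : x0 ≠ y0)
    (hK : 0 < KK L F G x0 y0)
    (hmin : ∀ ξ η : ℂ, ∀ᶠ t in 𝓝 (0 : ℂ),
      rat L F G R x0 y0 ≤ rat L F G R (x0 + t * ξ) (y0 + conj t * η)) :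
    (1 - ‖x0‖ ^ 2) * (1 - ‖y0‖ ^ 2) * (‖deriv L x0‖ * ‖deriv L y0‖ * ‖R x0 - conj (R y0)‖ ^ 2) *
      ‖x0 - y0‖ ^ 2 ≤ 4 * KK L F G x0 y0 * ‖1 - conj x0 * y0‖ ^ 2 := by
  -- analyticity
  have anL : ∀ z ∈ U, AnalyticAt ℂ L z := fun z hz => hS.dL.analyticAt (hU.mem_nhds hz)
  have anF : ∀ z ∈ U, AnalyticAt ℂ F z := fun z hz => hS.dF.analyticAt (hU.mem_nhds hz)
  have anG : ∀ z ∈ U, AnalyticAt ℂ G z := fun z hz => hS.dG.analyticAt (hU.mem_nhds hz)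
  have anR : ∀ z ∈ U, AnalyticAt ℂ R z := fun z hz => hS.dR.analyticAt (hU.mem_nhds hz)
  have hX : 0 < 1 - ‖x0‖ ^ 2 := by nlinarith [norm_nonneg x0]
  have hY : 0 < 1 - ‖y0‖ ^ 2 := by nlinarith [norm_nonneg y0]
  have hd : x0 - y0 ≠ 0 := sub_ne_zero.2 hne
  have hd2 : 0 < ‖x0 - y0‖ ^ 2 := by positivity
  have hl1 : 0 < ‖deriv L x0‖ := norm_pos_iff.2 (hS.hL x0 hx)
  have hl2 : 0 < ‖deriv L y0‖ := norm_pos_iff.2 (hS.hL y0 hy)
  have hRne : R x0 - conj (R y0) ≠ 0 := by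
    intro h
    have h1 := congrArg Complex.im h
    simp only [Complex.sub_im, Complex.conj_im, Complex.zero_im] at h1
    have h2 := hS.hR x0 hx
    have h3 := hS.hR y0 hy
    linarith
  have hr : 0 < ‖R x0 - conj (R y0)‖ := norm_pos_iff.2 hRne
  have hN2 := one_sub_identity x0 y0
  have hNpos : 0 < ‖1 - conj x0 * y0‖ ^ 2 := by rw [hN2]; positivity
  have hNne : (1 - conj x0 * y0) ≠ 0 := by
    intro h; rw [h] at hNpos; simp at hNpos
  have hN : 0 < ‖1 - conj x0 * y0‖ := norm_pos_iff.2 hNne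
  -- the second order inequality for all directions
  have main : ∀ ξ η : ℂ, 0 ≤
      (2 * KK L F G x0 y0 * (‖-I * (R x0 * (deriv L x0 * ξ) + conj (R y0) * conj (deriv L y0 * η))‖ ^ 2
        - (-I * (R x0 ^ 2 * (deriv L x0 * ξ) + conj (R y0) ^ 2 * conj (deriv L y0 * η))
          * conj (-I * ((deriv L x0 * ξ) + conj (deriv L y0 * η)))).re)
      - ‖(((F x0 - F y0).im : ℝ) : ℂ) * (-I * (R x0 * (deriv L x0 * ξ) + conj (R y0) * conj (deriv L y0 * η)))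
          + ((F x0 - F y0).im : ℝ) * (-I * (R x0 * (deriv L x0 * ξ) + conj (R y0) * conj (deriv L y0 * η)))
        - (((G x0 - G y0).im : ℝ) * (-I * ((deriv L x0 * ξ) + conj (deriv L y0 * η)))
          + ((L x0 - L y0).im : ℝ) * (-I * (R x0 ^ 2 * (deriv L x0 * ξ)
            + conj (R y0) ^ 2 * conj (deriv L y0 * η))))‖ ^ 2)
        / (4 * KK L F G x0 y0 ^ 2)
      + ‖ξ‖ ^ 2 / (1 - ‖x0‖ ^ 2) ^ 2 + ‖η‖ ^ 2 / (1 - ‖y0‖ ^ 2) ^ 2
      - 2 * (ξ * η * (conj (x0 - y0)) ^ 2).re / (‖x0 - y0‖ ^ 2) ^ 2 := by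
    intro ξ η
    -- jets of the three differences
    have jf := jet_imdiff (anF x0 hx) (anF y0 hy) ξ η
    have jg := jet_imdiff (anG x0 hx) (anG y0 hy) ξ η
    have jl := jet_imdiff (anL x0 hx) (anL y0 hy) ξ η
    rw [hS.hF x0 hx, hS.hF y0 hy] at jf
    rw [hS.hG x0 hx, hS.hG y0 hy] at jg
    have jK : JetE (fun t => KK L F G (x0 + t * ξ) (y0 + conj t * η)) (KK L F G x0 y0) _ _ :=
      ((((jf.mul jf).sub (jg.mul jl)).congr (Eventually.of_forall fun t => by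
        simp only [KK]; ring)).congr_coeff (by simp only [KK]; ring) rfl rfl)
    have jlogK := jK.log hK
    -- the weights
    have jX := (jet_one_sub_normsq x0 ξ).log hX
    have jY := ((jet_one_sub_normsq y0 η).comp_conj).log hY
    have jd := (jet_normsq_diff (x0 - y0) ξ η).log hd2
    -- analytic factors
    have haL : AnalyticAt ℂ (fun t : ℂ => deriv L (x0 + t * ξ)) 0 :=
      analytic_affine_comp (anL x0 hx).deriv ξ
    have haL' : AnalyticAt ℂ (fun t : ℂ => deriv L (y0 + t * η)) 0 :=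
      analytic_affine_comp (anL y0 hy).deriv η
    obtain ⟨u1, j1⟩ := JetE.log_norm haL (by simpa using hS.hL x0 hx)
    obtain ⟨u2, j2⟩ := JetE.log_norm haL' (by simpa using hS.hL y0 hy)
    have j2 := j2.comp_conj
    obtain ⟨u3, j3⟩ := JetE.log_norm (analytic_Rdiff (anR x0 hx) (anR y0 hy) ξ η)
      (by simpa using hRne)
    have haN : AnalyticAt ℂ (fun t : ℂ => 1 - (x0 + t * ξ) * (conj y0 + t * conj η)) 0 := by
      fun_prop
    have hNne' : (1 - x0 * conj y0) ≠ 0 := by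
      intro h
      apply hNne
      have := congrArg conj h
      simpa using this
    obtain ⟨u4, j4⟩ := JetE.log_norm haN (by simpa using hNne')
    have j4' : JetE (fun t : ℂ => Real.log ‖1 - conj (x0 + t * ξ) * (y0 + conj t * η)‖)
        (Real.log ‖1 - conj x0 * y0‖) u4 0 := by
      refine (j4.congr (Eventually.of_forall fun t => ?_)).congr_coeff ?_ rfl rfl
      · congr 1
        rw [← RCLike.norm_conj]
        congr 1
        simp
      · congr 1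
        rw [← RCLike.norm_conj]
        congr 1
        simp
    -- total
    have jtot := (((((((jlogK.add (j4'.smul 2)).sub jX).sub jY).sub j1).sub j2).sub
      (j3.smul 2)).sub jd)
    have hge := jtot.nonneg_of_min ?_
    · have hX' : -‖ξ‖ ^ 2 / (1 - ‖x0‖ ^ 2) - ‖-2 * (conj x0 * ξ)‖ ^ 2 / (4 * (1 - ‖x0‖ ^ 2) ^ 2)
          = -(‖ξ‖ ^ 2 / (1 - ‖x0‖ ^ 2) ^ 2) := by
        have : ‖-2 * (conj x0 * ξ)‖ ^ 2 = 4 * ‖x0‖ ^ 2 * ‖ξ‖ ^ 2 := by
          rw [norm_mul, norm_mul, RCLike.norm_conj, norm_neg]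
          simp only [Complex.norm_ofNat]
          ring
        rw [this]
        field_simp
        ring
      have hY' : -‖η‖ ^ 2 / (1 - ‖y0‖ ^ 2)
          - ‖conj (-2 * (conj y0 * η))‖ ^ 2 / (4 * (1 - ‖y0‖ ^ 2) ^ 2)
          = -(‖η‖ ^ 2 / (1 - ‖y0‖ ^ 2) ^ 2) := by
        have : ‖conj (-2 * (conj y0 * η))‖ ^ 2 = 4 * ‖y0‖ ^ 2 * ‖η‖ ^ 2 := by
          rw [RCLike.norm_conj, norm_mul, norm_mul, RCLike.norm_conj, norm_neg]
          simp only [Complex.norm_ofNat]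
          ring
        rw [this]
        field_simp
        ring
      have hd' := log_coeff_diff (ξ := ξ) (η := η) hd
      rw [hX', hY', hd'] at hge
      have e1 : -I * (R x0 * deriv L x0 * ξ) - I * conj (R y0 * deriv L y0 * η)
          = -I * (R x0 * (deriv L x0 * ξ) + conj (R y0) * conj (deriv L y0 * η)) := by
        simp only [map_mul]; ring
      have e2 : -I * (R x0 ^ 2 * deriv L x0 * ξ) - I * conj (R y0 ^ 2 * deriv L y0 * η)
          = -I * (R x0 ^ 2 * (deriv L x0 * ξ) + conj (R y0) ^ 2 * conj (deriv L y0 * η)) := by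
        simp only [map_mul, map_pow]; ring
      have e3 : -I * (deriv L x0 * ξ) - I * conj (deriv L y0 * η)
          = -I * ((deriv L x0 * ξ) + conj (deriv L y0 * η)) := by
        ring
      rw [e1, e2, e3] at hge
      have e4 : ∀ a : ℂ, (a * conj a).re = ‖a‖ ^ 2 := by
        intro a
        rw [Complex.mul_conj, Complex.ofReal_re, Complex.normSq_eq_norm_sq]
      rw [e4] at hge
      have hK0 := hK.ne'
      refine hge.trans (le_of_eq ?_)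
      field_simp
      ring
    · -- the minimum
      have hm := hmin ξ η
      have t1 := jK.tendsto.eventually (lt_mem_nhds hK)
      have t2 := (jet_one_sub_normsq x0 ξ).tendsto.eventually (lt_mem_nhds hX)
      have t3 := ((jet_one_sub_normsq y0 η).comp_conj).tendsto.eventually (lt_mem_nhds hY)
      have t4 := (jet_normsq_diff (x0 - y0) ξ η).tendsto.eventually (lt_mem_nhds hd2)
      have t5 : ∀ᶠ t in 𝓝 (0 : ℂ), deriv L (x0 + t * ξ) ≠ 0 :=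
        haL.continuousAt.eventually_ne (by simpa using hS.hL x0 hx)
      have hc : Tendsto (fun t : ℂ => conj t) (𝓝 0) (𝓝 0) := by
        have := Complex.continuous_conj.tendsto (0 : ℂ)
        simpa using this
      have t6 : ∀ᶠ t in 𝓝 (0 : ℂ), deriv L (y0 + conj t * η) ≠ 0 :=
        hc.eventually (haL'.continuousAt.eventually_ne (by simpa using hS.hL y0 hy))
      have t7 : ∀ᶠ t in 𝓝 (0 : ℂ), R (x0 + t * ξ) - conj (R (y0 + conj t * η)) ≠ 0 :=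
        (analytic_Rdiff (anR x0 hx) (anR y0 hy) ξ η).continuousAt.eventually_ne
          (by simpa using hRne)
      have t8 : ∀ᶠ t in 𝓝 (0 : ℂ), 1 - conj (x0 + t * ξ) * (y0 + conj t * η) ≠ 0 := by
        have hcont : ContinuousAt (fun t : ℂ => 1 - conj (x0 + t * ξ) * (y0 + conj t * η)) 0 := by
          have h1 : Continuous (fun t : ℂ => conj t) := Complex.continuous_conj
          have h2 : Continuous (fun t : ℂ => conj (x0 + t * ξ)) := by
            exact Complex.continuous_conj.comp (by fun_prop)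
          exact (continuous_const.sub (h2.mul (continuous_const.add (h1.mul continuous_const)))).continuousAt
        exact hcont.eventually_ne (by simpa using hNne)
      filter_upwards [hm, t1, t2, t3, t4, t5, t6, t7, t8] with t hm t1 t2 t3 t4 t5 t6 t7 t8
      have hA : 0 < rat L F G R x0 y0 := by
        unfold rat; positivity
      have hlog := Real.log_le_log hA hm
      have ed : ‖x0 + t * ξ - (y0 + conj t * η)‖ ^ 2 = ‖x0 - y0 + t * ξ - conj t * η‖ ^ 2 := by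
        congr 2; ring
      unfold rat at hlog
      rw [log_rat hK hN hX hY hl1 hl2 hr hd2,
        log_rat t1 (norm_pos_iff.2 t8) t2 t3 (norm_pos_iff.2 t5) (norm_pos_iff.2 t6)
          (norm_pos_iff.2 t7) (by rw [ed]; exact t4), ed] at hlog
      simp only [zero_mul, add_zero, map_zero] at *
      linarith
  -- abbreviations
  set K0 : ℝ := KK L F G x0 y0 with hK0
  set f0 : ℝ := (F x0 - F y0).im with hf0
  set g0 : ℝ := (G x0 - G y0).im with hg0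
  set l0 : ℝ := (L x0 - L y0).im with hl0
  have hKdef : K0 = f0 ^ 2 - g0 * l0 := rfl
  set P : ℂ := (l0 : ℂ) * R x0 * conj (conj (R y0)) - f0 * (R x0 + conj (conj (R y0))) + g0 with hP
  set nx : ℝ := l0 * ‖R x0‖ ^ 2 - 2 * f0 * (R x0).re + g0 with hnx
  set ny : ℝ := l0 * ‖conj (R y0)‖ ^ 2 - 2 * f0 * (conj (R y0)).re + g0 with hny
  have main2 : ∀ ξ η : ℂ, 0 ≤
      (-(‖deriv L x0 * ξ‖ ^ 2 * nx ^ 2) - ‖deriv L y0 * η‖ ^ 2 * ny ^ 2
        - 2 * (deriv L x0 * ξ * (deriv L y0 * η) * P ^ 2).re) / (4 * K0 ^ 2)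
      + ‖ξ‖ ^ 2 / (1 - ‖x0‖ ^ 2) ^ 2 + ‖η‖ ^ 2 / (1 - ‖y0‖ ^ 2) ^ 2
      - 2 * (ξ * η * (conj (x0 - y0)) ^ 2).re / (‖x0 - y0‖ ^ 2) ^ 2 := by
    intro ξ η
    have h := main ξ η
    have hid := K_coeff_identity f0 g0 l0 (deriv L x0 * ξ) (conj (deriv L y0 * η)) (R x0)
      (conj (R y0))
    rw [← hKdef, ← hP, ← hnx, ← hny] at hid
    rw [hid, RCLike.norm_conj, Complex.conj_conj] at h
    exact h
  set Q : ℂ := deriv L x0 * deriv L y0 * P ^ 2 / (4 * K0 ^ 2 : ℝ)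
    + (conj (x0 - y0)) ^ 2 / (((‖x0 - y0‖ ^ 2) ^ 2 : ℝ)) with hQ
  -- unit direction
  obtain ⟨u, hu1, hu2⟩ : ∃ u : ℂ, ‖u‖ = 1 ∧ (u * Q).re = ‖Q‖ := by
    by_cases hQ0 : Q = 0
    · exact ⟨1, by simp, by simp [hQ0]⟩
    · have hn : ‖Q‖ ≠ 0 := norm_ne_zero_iff.2 hQ0
      refine ⟨conj Q / (‖Q‖ : ℂ), ?_, ?_⟩
      · rw [norm_div, RCLike.norm_conj, Complex.norm_real, norm_norm, div_self hn]
      · have : conj Q / (‖Q‖ : ℂ) * Q = ((‖Q‖ : ℝ) : ℂ) := by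
          rw [div_mul_eq_mul_div, mul_comm (conj Q) Q, Complex.mul_conj,
            Complex.normSq_eq_norm_sq]
          push_cast
          have : (‖Q‖ : ℂ) ≠ 0 := by exact_mod_cast hn
          field_simp
        rw [this, Complex.ofReal_re]
  have h := main2 (((1 - ‖x0‖ ^ 2 : ℝ) : ℂ) * u) ((1 - ‖y0‖ ^ 2 : ℝ) : ℂ)
  have hP2 := P_norm_identity f0 g0 l0 (R x0) (conj (R y0))
  rw [← hP, ← hnx, ← hny, ← hKdef] at hP2
  have hfin := final_ineq (K := K0) (X := 1 - ‖x0‖ ^ 2) (Y := 1 - ‖y0‖ ^ 2)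
    (l1 := ‖deriv L x0‖) (l2 := ‖deriv L y0‖) (nx := nx) (ny := ny)
    (r2 := ‖R x0 - conj (R y0)‖ ^ 2) (d2 := ‖x0 - y0‖ ^ 2) (Q := ‖Q‖) (P2 := ‖P‖ ^ 2)
    hK hX hY hl1 hl2 hd2 hP2 ?_ ?_
  · rw [hN2]
    exact hfin
  · -- lower bound of |Q|
    have e1 : ‖deriv L x0 * deriv L y0 * P ^ 2 / ((4 * K0 ^ 2 : ℝ) : ℂ)‖
        = ‖deriv L x0‖ * ‖deriv L y0‖ * ‖P‖ ^ 2 / (4 * K0 ^ 2) := by
      rw [norm_div, norm_mul, norm_mul, norm_pow, Complex.norm_real, Real.norm_eq_abs,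
        abs_of_nonneg (by positivity)]
    have e2 : ‖(conj (x0 - y0)) ^ 2 / ((((‖x0 - y0‖ ^ 2) ^ 2 : ℝ)) : ℂ)‖ = 1 / ‖x0 - y0‖ ^ 2 := by
      rw [norm_div, norm_pow, RCLike.norm_conj, Complex.norm_real, Real.norm_eq_abs,
        abs_of_nonneg (by positivity)]
      field_simp
    have e3 := norm_sub_le Q ((conj (x0 - y0)) ^ 2 / ((((‖x0 - y0‖ ^ 2) ^ 2 : ℝ)) : ℂ))
    rw [hQ, add_sub_cancel_right, ← hQ, e1, e2] at e3
    linarith
  · have e0 : ‖(((1 - ‖x0‖ ^ 2 : ℝ) : ℂ) * u)‖ = 1 - ‖x0‖ ^ 2 := by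
      rw [norm_mul, hu1, mul_one, Complex.norm_real, Real.norm_eq_abs, abs_of_pos hX]
    have e0' : ‖((1 - ‖y0‖ ^ 2 : ℝ) : ℂ)‖ = 1 - ‖y0‖ ^ 2 := by
      rw [Complex.norm_real, Real.norm_eq_abs, abs_of_pos hY]
    rw [norm_mul (deriv L x0), norm_mul (deriv L y0), e0, e0'] at h
    have e1 : (deriv L x0 * (((1 - ‖x0‖ ^ 2 : ℝ) : ℂ) * u) *
          (deriv L y0 * ((1 - ‖y0‖ ^ 2 : ℝ) : ℂ)) * P ^ 2).re / (4 * K0 ^ 2)
        + ((((1 - ‖x0‖ ^ 2 : ℝ) : ℂ) * u) * ((1 - ‖y0‖ ^ 2 : ℝ) : ℂ) * (conj (x0 - y0)) ^ 2).re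
          / (‖x0 - y0‖ ^ 2) ^ 2 = (1 - ‖x0‖ ^ 2) * (1 - ‖y0‖ ^ 2) * ‖Q‖ := by
      rw [← hu2, ← Complex.re_ofReal_mul, ← Complex.div_ofReal_re, ← Complex.div_ofReal_re,
        ← Complex.add_re]
      congr 1
      rw [hQ]
      push_cast
      ring
    have hX0 := hX.ne'
    have hY0 := hY.ne'
    have hK0' := hK.ne'
    have e2 : ((1 - ‖x0‖ ^ 2)) ^ 2 / (1 - ‖x0‖ ^ 2) ^ 2 = 1 := div_self (pow_ne_zero _ hX0)
    have e3 : ((1 - ‖y0‖ ^ 2)) ^ 2 / (1 - ‖y0‖ ^ 2) ^ 2 = 1 := div_self (pow_ne_zero _ hY0)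
    rw [e2, e3] at h
    refine h.trans (le_of_eq ?_)
    rw [← e1]
    field_simp
    ring

end Pool.CSH
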