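/-
MP_a0ec2a: the two-point inequality on the disc.
-/
import Pool.Agent.CSH.TwoLoc

open Complex Metric Set Filter Topology Asymptotics ComplexConjugate

namespace Pool.CSH

theorem slope_tendsto {f : ℂ → ℂ} {f' p : ℂ} (h : HasStrictDerivAt f f' p) :
    Tendsto (fun q : ℂ × ℂ => (f q.1 - f q.2) / (q.1 - q.2)) (𝓝[{q | q.1 ≠ q.2}] (p, p))
      (𝓝 f') := by
  have h1 := h.isLittleO.tendsto_div_nhds_zero
  have h2 : Tendsto (fun q : ℂ × ℂ => (f q.1 - f q.2 - (q.1 - q.2) • f') / (q.1 - q.2) + f')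
      (𝓝[{q | q.1 ≠ q.2}] (p, p)) (𝓝 (0 + f')) :=
    (h1.mono_left nhdsWithin_le_nhds).add_const f'
  rw [zero_add] at h2
  refine h2.congr' ?_
  filter_upwards [self_mem_nhdsWithin] with q hq
  have hq' : q.1 - q.2 ≠ 0 := sub_ne_zero.2 hq
  rw [smul_eq_mul]
  field_simp
  ring

theorem K_slope_identity (a b c u : ℂ) :
    4 * (((b * u).im) ^ 2 - (c * u).im * (a * u).im)
      = 2 * (‖b‖ ^ 2 - (c * conj a).re) * ‖u‖ ^ 2 - 2 * ((b ^ 2 - c * a) * u ^ 2).re := by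
  simp only [← Complex.normSq_eq_norm_sq, Complex.normSq_apply]
  simp [pow_two]
  ring

theorem K_lower {L F G : ℂ → ℂ} {x y : ℂ} (hne : x ≠ y) :
    (2 * (‖(F x - F y) / (x - y)‖ ^ 2 - ((G x - G y) / (x - y) * conj ((L x - L y) / (x - y))).re)
      - 2 * ‖((F x - F y) / (x - y)) ^ 2 - (G x - G y) / (x - y) * ((L x - L y) / (x - y))‖)
      * ‖x - y‖ ^ 2 ≤ 4 * KK L F G x y := by
  have hq : x - y ≠ 0 := sub_ne_zero.2 hne
  have h := K_slope_identity ((L x - L y) / (x - y)) ((F x - F y) / (x - y))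
    ((G x - G y) / (x - y)) (x - y)
  rw [div_mul_cancel₀ _ hq, div_mul_cancel₀ _ hq, div_mul_cancel₀ _ hq] at h
  have h2 : ((((F x - F y) / (x - y)) ^ 2 - (G x - G y) / (x - y) * ((L x - L y) / (x - y)))
      * (x - y) ^ 2).re ≤ ‖((F x - F y) / (x - y)) ^ 2
        - (G x - G y) / (x - y) * ((L x - L y) / (x - y))‖ * ‖x - y‖ ^ 2 := by
    refine (Complex.re_le_norm _).trans ?_
    rw [norm_mul, norm_pow]
  unfold KK
  linarith

theorem diag_local {U : Set ℂ} (hU : IsOpen U) {L F G R : ℂ → ℂ} (hS : Surf U L F G R) {p : ℂ}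
    (hp : p ∈ U) {θ : ℝ} (hθ : θ < 1) :
    ∀ᶠ q : ℂ × ℂ in 𝓝[{q | q.1 ≠ q.2}] (p, p),
      θ * (‖deriv L q.1‖ * ‖deriv L q.2‖ * ‖R q.1 - conj (R q.2)‖ ^ 2 * ‖q.1 - q.2‖ ^ 2)
        < 4 * KK L F G q.1 q.2 := by
  have anL : AnalyticAt ℂ L p := hS.dL.analyticAt (hU.mem_nhds hp)
  have anF : AnalyticAt ℂ F p := hS.dF.analyticAt (hU.mem_nhds hp)
  have anG : AnalyticAt ℂ G p := hS.dG.analyticAt (hU.mem_nhds hp)
  have anR : AnalyticAt ℂ R p := hS.dR.analyticAt (hU.mem_nhds hp)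
  have tL := slope_tendsto anL.hasStrictDerivAt
  have tF := slope_tendsto anF.hasStrictDerivAt
  have tG := slope_tendsto anG.hasStrictDerivAt
  have hconj : Continuous (fun z : ℂ => conj z) := Complex.continuous_conj
  have t1 : Tendsto (fun q : ℂ × ℂ =>
      2 * (‖(F q.1 - F q.2) / (q.1 - q.2)‖ ^ 2
        - ((G q.1 - G q.2) / (q.1 - q.2) * conj ((L q.1 - L q.2) / (q.1 - q.2))).re)
      - 2 * ‖((F q.1 - F q.2) / (q.1 - q.2)) ^ 2
        - (G q.1 - G q.2) / (q.1 - q.2) * ((L q.1 - L q.2) / (q.1 - q.2))‖)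
      (𝓝[{q | q.1 ≠ q.2}] (p, p))
      (𝓝 (2 * (‖deriv F p‖ ^ 2 - (deriv G p * conj (deriv L p)).re)
        - 2 * ‖(deriv F p) ^ 2 - deriv G p * deriv L p‖)) := by
    refine Tendsto.sub ?_ ?_
    · refine Tendsto.const_mul _ (Tendsto.sub (tF.norm.pow 2) ?_)
      have : Tendsto (fun q : ℂ × ℂ => conj ((L q.1 - L q.2) / (q.1 - q.2)))
          (𝓝[{q | q.1 ≠ q.2}] (p, p)) (𝓝 (conj (deriv L p))) :=
        (hconj.tendsto _).comp tL
      exact (Complex.continuous_re.tendsto _).comp (tG.mul this)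
    · exact Tendsto.const_mul _ ((tF.pow 2).sub (tG.mul tL)).norm
  have hcR : ContinuousAt R p := anR.continuousAt
  have hcL : ContinuousAt (deriv L) p := anL.deriv.continuousAt
  have f1 : Tendsto (fun q : ℂ × ℂ => q.1) (𝓝 (p, p)) (𝓝 p) := continuous_fst.tendsto (p, p)
  have f2 : Tendsto (fun q : ℂ × ℂ => q.2) (𝓝 (p, p)) (𝓝 p) := continuous_snd.tendsto (p, p)
  have t2 : Tendsto (fun q : ℂ × ℂ =>
      θ * (‖deriv L q.1‖ * ‖deriv L q.2‖ * ‖R q.1 - conj (R q.2)‖ ^ 2))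
      (𝓝[{q | q.1 ≠ q.2}] (p, p))
      (𝓝 (θ * (‖deriv L p‖ * ‖deriv L p‖ * ‖R p - conj (R p)‖ ^ 2))) := by
    refine Tendsto.mono_left ?_ nhdsWithin_le_nhds
    have h1 : Tendsto (fun q : ℂ × ℂ => deriv L q.1) (𝓝 (p, p)) (𝓝 (deriv L p)) := hcL.tendsto.comp f1
    have h2 : Tendsto (fun q : ℂ × ℂ => deriv L q.2) (𝓝 (p, p)) (𝓝 (deriv L p)) := hcL.tendsto.comp f2
    have h3 : Tendsto (fun q : ℂ × ℂ => R q.1) (𝓝 (p, p)) (𝓝 (R p)) := hcR.tendsto.comp f1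
    have h4 : Tendsto (fun q : ℂ × ℂ => conj (R q.2)) (𝓝 (p, p)) (𝓝 (conj (R p))) :=
      (hconj.tendsto _).comp (hcR.tendsto.comp f2)
    exact ((h1.norm.mul h2.norm).mul ((h3.sub h4).norm.pow 2)).const_mul θ
  have hlt : θ * (‖deriv L p‖ * ‖deriv L p‖ * ‖R p - conj (R p)‖ ^ 2)
      < 2 * (‖deriv F p‖ ^ 2 - (deriv G p * conj (deriv L p)).re)
        - 2 * ‖(deriv F p) ^ 2 - deriv G p * deriv L p‖ := by
    rw [hS.hF p hp, hS.hG p hp]
    have e1 : (R p * deriv L p) ^ 2 - R p ^ 2 * deriv L p * deriv L p = 0 := by ring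
    have e2 : R p - conj (R p) = ((2 * (R p).im : ℝ) : ℂ) * I := by
      apply Complex.ext <;> simp
      ring
    have e3 : ‖R p - conj (R p)‖ ^ 2 = 4 * (R p).im ^ 2 := by
      rw [e2, norm_mul, Complex.norm_I, mul_one, Complex.norm_real, Real.norm_eq_abs, sq_abs]
      ring
    have e4 : ‖R p * deriv L p‖ ^ 2 - (R p ^ 2 * deriv L p * conj (deriv L p)).re
        = 2 * (R p).im ^ 2 * (‖deriv L p‖ * ‖deriv L p‖) := by
      have : R p ^ 2 * deriv L p * conj (deriv L p) = R p ^ 2 * ((‖deriv L p‖ ^ 2 : ℝ) : ℂ) := by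
        rw [mul_assoc, Complex.mul_conj, Complex.normSq_eq_norm_sq]
      rw [this, mul_comm (R p ^ 2), Complex.re_ofReal_mul, norm_mul, mul_pow]
      have h5 : ‖R p‖ ^ 2 = (R p).re ^ 2 + (R p).im ^ 2 := by
        rw [← Complex.normSq_eq_norm_sq, Complex.normSq_apply]; ring
      have h6 : (R p ^ 2).re = (R p).re ^ 2 - (R p).im ^ 2 := by
        simp [pow_two]
      rw [h5, h6]
      ring
    rw [e1, e3, e4, norm_zero]
    have hl : 0 < ‖deriv L p‖ := norm_pos_iff.2 (hS.hL p hp)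
    have hi := hS.hR p hp
    have : 0 < ‖deriv L p‖ * ‖deriv L p‖ * (R p).im ^ 2 := by positivity
    nlinarith
  filter_upwards [t2.eventually_lt t1 hlt, self_mem_nhdsWithin] with q hq hne
  have hpos : 0 < ‖q.1 - q.2‖ ^ 2 := by
    have := norm_pos_iff.2 (sub_ne_zero.2 hne)
    positivity
  have h1 := K_lower (L := L) (F := F) (G := G) hne
  have h2 := mul_lt_mul_of_pos_right hq hpos
  calc _ = θ * (‖deriv L q.1‖ * ‖deriv L q.2‖ * ‖R q.1 - conj (R q.2)‖ ^ 2)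
        * ‖q.1 - q.2‖ ^ 2 := by ring
    _ < _ := h2
    _ ≤ _ := h1

theorem diag_bound {U : Set ℂ} (hU : IsOpen U) {L F G R : ℂ → ℂ} (hS : Surf U L F G R)
    {C : Set ℂ} (hC : IsCompact C) (hCU : C ⊆ U) {θ : ℝ} (hθ : θ < 1) :
    ∃ δ > 0, ∀ x ∈ C, ∀ y ∈ C, x ≠ y → ‖x - y‖ < δ →
      θ * (‖deriv L x‖ * ‖deriv L y‖ * ‖R x - conj (R y)‖ ^ 2 * ‖x - y‖ ^ 2)
        < 4 * KK L F G x y := by
  by_contra hcon
  push Not at hcon
  have hseq : ∀ n : ℕ, ∃ q : ℂ × ℂ, q.1 ∈ C ∧ q.2 ∈ C ∧ q.1 ≠ q.2 ∧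
      ‖q.1 - q.2‖ < 1 / ((n : ℝ) + 1) ∧ 4 * KK L F G q.1 q.2 ≤
      θ * (‖deriv L q.1‖ * ‖deriv L q.2‖ * ‖R q.1 - conj (R q.2)‖ ^ 2 * ‖q.1 - q.2‖ ^ 2) := by
    intro n
    obtain ⟨x, hx, y, hy, h1, h2, h3⟩ := hcon (1 / ((n : ℝ) + 1)) (by positivity)
    exact ⟨(x, y), hx, hy, h1, h2, h3⟩
  choose q hq1 hq2 hq3 hq4 hq5 using hseq
  obtain ⟨p, hp, φ, hφ, hlim⟩ := hC.tendsto_subseq hq1
  have hdiff : Tendsto (fun n => ‖(q (φ n)).1 - (q (φ n)).2‖) atTop (𝓝 0) := by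
    have h1 : Tendsto (fun n : ℕ => 1 / ((n : ℝ) + 1)) atTop (𝓝 0) :=
      tendsto_one_div_add_atTop_nhds_zero_nat
    have h2 := h1.comp hφ.tendsto_atTop
    exact squeeze_zero (fun n => norm_nonneg _) (fun n => (hq4 (φ n)).le) h2
  have hlim2 : Tendsto (fun n => (q (φ n)).2) atTop (𝓝 p) := by
    have h3 := (tendsto_zero_iff_norm_tendsto_zero.2 hdiff)
    have h4 := hlim.sub h3
    simpa using h4
  have hlimp : Tendsto (fun n => q (φ n)) atTop (𝓝 (p, p)) := by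
    have := Filter.Tendsto.prodMk_nhds hlim hlim2
    simpa using this
  have hlimw : Tendsto (fun n => q (φ n)) atTop (𝓝[{q | q.1 ≠ q.2}] (p, p)) :=
    tendsto_nhdsWithin_iff.2 ⟨hlimp, Eventually.of_forall fun n => hq3 (φ n)⟩
  have hev := hlimw.eventually (diag_local hU hS (hCU hp) hθ)
  obtain ⟨n, hn⟩ := hev.exists
  exact absurd (hq5 (φ n)) (not_le.2 hn)

theorem two_closed {s : ℝ} (hs : 1 < s) {L F G R : ℂ → ℂ} (hS : Surf (ball 0 s) L F G R)
    (hK : Achr (ball 0 s) L F G) (x1 : ℂ) (hx1 : x1 ∈ ball (0 : ℂ) 1) (y1 : ℂ)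
    (hy1 : y1 ∈ ball (0 : ℂ) 1) :
    (1 - ‖x1‖ ^ 2) * (1 - ‖y1‖ ^ 2) * (‖deriv L x1‖ * ‖deriv L y1‖ * ‖R x1 - conj (R y1)‖ ^ 2) *
      ‖x1 - y1‖ ^ 2 ≤ 4 * KK L F G x1 y1 * ‖1 - conj x1 * y1‖ ^ 2 := by
  by_contra hcon
  push Not at hcon
  have hCs : closedBall (0 : ℂ) 1 ⊆ ball 0 s := closedBall_subset_ball hs
  have hbs : ball (0 : ℂ) 1 ⊆ ball 0 s := ball_subset_ball hs.le
  have hne1 : x1 ≠ y1 := by
    rintro rfl
    simp [KK] at hcon
  -- numerator and denominator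
  set Num : ℂ × ℂ → ℝ := fun q => 4 * KK L F G q.1 q.2 * ‖1 - conj q.1 * q.2‖ ^ 2 with hNum
  set W : ℂ × ℂ → ℝ := fun q => (1 - ‖q.1‖ ^ 2) * (1 - ‖q.2‖ ^ 2) *
    (‖deriv L q.1‖ * ‖deriv L q.2‖ * ‖R q.1 - conj (R q.2)‖ ^ 2) * ‖q.1 - q.2‖ ^ 2 with hW
  have hrat : ∀ x y : ℂ, rat L F G R x y = Num (x, y) / W (x, y) := fun x y => rfl
  have hone : ∀ x ∈ closedBall (0 : ℂ) 1, ∀ y ∈ closedBall (0 : ℂ) 1, x ≠ y →
      0 < ‖1 - conj x * y‖ ^ 2 := by
    intro x hx y hy hne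
    rw [one_sub_identity]
    rw [mem_closedBall, dist_zero_right] at hx hy
    have h1 : 0 < ‖x - y‖ ^ 2 := by
      have := norm_pos_iff.2 (sub_ne_zero.2 hne); positivity
    have h2 : 0 ≤ 1 - ‖x‖ ^ 2 := by nlinarith [norm_nonneg x]
    have h3 : 0 ≤ 1 - ‖y‖ ^ 2 := by nlinarith [norm_nonneg y]
    have := mul_nonneg h2 h3
    linarith
  have hNumpos : ∀ x ∈ closedBall (0 : ℂ) 1, ∀ y ∈ closedBall (0 : ℂ) 1, x ≠ y →
      0 < Num (x, y) := by
    intro x hx y hy hne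
    have h1 := hK x (hCs hx) y (hCs hy) hne
    have h2 := hone x hx y hy hne
    simp only [hNum]
    positivity
  have hx1c : x1 ∈ closedBall (0 : ℂ) 1 := ball_subset_closedBall hx1
  have hy1c : y1 ∈ closedBall (0 : ℂ) 1 := ball_subset_closedBall hy1
  have hN1 := hNumpos x1 hx1c y1 hy1c hne1
  have hW1 : 0 < W (x1, y1) := lt_trans hN1 hcon
  set θ : ℝ := Num (x1, y1) / W (x1, y1) with hθ
  have hθ1 : θ < 1 := by rw [hθ, div_lt_one hW1]; exact hcon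
  have hθ0 : 0 < θ := div_pos hN1 hW1
  obtain ⟨δ, hδ, hdiag⟩ := diag_bound isOpen_ball hS (isCompact_closedBall (0 : ℂ) 1) hCs hθ1
  -- near the diagonal the ratio is larger than θ
  have hnear : ∀ x ∈ closedBall (0 : ℂ) 1, ∀ y ∈ closedBall (0 : ℂ) 1, x ≠ y → ‖x - y‖ < δ →
      θ * W (x, y) < Num (x, y) := by
    intro x hx y hy hne hd
    have h1 := hdiag x hx y hy hne hd
    have h2 := hone x hx y hy hne
    have h3 := mul_lt_mul_of_pos_right h1 h2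
    have h4 : θ * W (x, y) ≤ θ * (‖deriv L x‖ * ‖deriv L y‖ * ‖R x - conj (R y)‖ ^ 2 *
        ‖x - y‖ ^ 2) * ‖1 - conj x * y‖ ^ 2 := by
      rw [one_sub_identity]
      have h5 : 0 ≤ θ * (‖deriv L x‖ * ‖deriv L y‖ * ‖R x - conj (R y)‖ ^ 2 *
        ‖x - y‖ ^ 2) := by positivity
      have h6 : (1 - ‖x‖ ^ 2) * (1 - ‖y‖ ^ 2) ≤ ‖x - y‖ ^ 2 + (1 - ‖x‖ ^ 2) * (1 - ‖y‖ ^ 2) := by
        have : 0 ≤ ‖x - y‖ ^ 2 := by positivity
        linarith
      calc θ * W (x, y) = θ * (‖deriv L x‖ * ‖deriv L y‖ * ‖R x - conj (R y)‖ ^ 2 *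
            ‖x - y‖ ^ 2) * ((1 - ‖x‖ ^ 2) * (1 - ‖y‖ ^ 2)) := by simp only [hW]; ring
        _ ≤ _ := mul_le_mul_of_nonneg_left h6 h5
    exact lt_of_le_of_lt h4 h3
  -- continuity
  have cL : ContinuousOn L (closedBall (0 : ℂ) 1) := hS.dL.continuousOn.mono hCs
  have cF : ContinuousOn F (closedBall (0 : ℂ) 1) := hS.dF.continuousOn.mono hCs
  have cG : ContinuousOn G (closedBall (0 : ℂ) 1) := hS.dG.continuousOn.mono hCs
  have cR : ContinuousOn R (closedBall (0 : ℂ) 1) := hS.dR.continuousOn.mono hCs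
  have cL' : ContinuousOn (deriv L) (closedBall (0 : ℂ) 1) :=
    ((hS.dL.deriv isOpen_ball).continuousOn).mono hCs
  set C2 : Set (ℂ × ℂ) := closedBall (0 : ℂ) 1 ×ˢ closedBall (0 : ℂ) 1 with hC2
  have m1 : MapsTo (fun q : ℂ × ℂ => q.1) C2 (closedBall (0 : ℂ) 1) := fun q hq => hq.1
  have m2 : MapsTo (fun q : ℂ × ℂ => q.2) C2 (closedBall (0 : ℂ) 1) := fun q hq => hq.2
  have k1 : ∀ {Φ : ℂ → ℂ}, ContinuousOn Φ (closedBall (0 : ℂ) 1) →
      ContinuousOn (fun q : ℂ × ℂ => Φ q.1) C2 := fun h => h.comp continuous_fst.continuousOn m1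
  have k2 : ∀ {Φ : ℂ → ℂ}, ContinuousOn Φ (closedBall (0 : ℂ) 1) →
      ContinuousOn (fun q : ℂ × ℂ => Φ q.2) C2 := fun h => h.comp continuous_snd.continuousOn m2
  have him : ∀ {Φ : ℂ → ℂ}, ContinuousOn Φ (closedBall (0 : ℂ) 1) →
      ContinuousOn (fun q : ℂ × ℂ => (Φ q.1 - Φ q.2).im) C2 := fun h =>
    Complex.continuous_im.comp_continuousOn ((k1 h).sub (k2 h))
  have cNum : ContinuousOn Num C2 := by
    have h1 : ContinuousOn (fun q : ℂ × ℂ => KK L F G q.1 q.2) C2 :=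
      ((him cF).pow 2).sub ((him cG).mul (him cL))
    have h2 : Continuous (fun q : ℂ × ℂ => ‖1 - conj q.1 * q.2‖ ^ 2) := by
      have : Continuous (fun q : ℂ × ℂ => conj q.1) := Complex.continuous_conj.comp continuous_fst
      exact ((continuous_const.sub (this.mul continuous_snd)).norm).pow 2
    exact (continuousOn_const.mul h1).mul h2.continuousOn
  have cW : ContinuousOn W C2 := by
    have h1 : Continuous (fun q : ℂ × ℂ => (1 - ‖q.1‖ ^ 2) * (1 - ‖q.2‖ ^ 2)) := by fun_prop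
    have h2 : ContinuousOn (fun q : ℂ × ℂ => conj (R q.2)) C2 :=
      Complex.continuous_conj.comp_continuousOn (k2 cR)
    have h3 : Continuous (fun q : ℂ × ℂ => ‖q.1 - q.2‖ ^ 2) := by fun_prop
    exact (h1.continuousOn.mul (((k1 cL').norm.mul (k2 cL').norm).mul
      (((k1 cR).sub h2).norm.pow 2))).mul h3.continuousOn
  -- the compact set
  set S : Set (ℂ × ℂ) := {q | q ∈ C2 ∧ (δ ≤ ‖q.1 - q.2‖ ∧ Num q ≤ θ * W q)} with hSdef
  have hC2c : IsCompact C2 := (isCompact_closedBall _ _).prod (isCompact_closedBall _ _)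
  have hSc : IsCompact S := by
    have hcl : IsClosed S := by
      have h1 : IsClosed (C2 ∩ (fun q : ℂ × ℂ => θ * W q - Num q) ⁻¹' (Ici 0)) :=
        ContinuousOn.preimage_isClosed_of_isClosed ((continuousOn_const.mul cW).sub cNum)
          hC2c.isClosed isClosed_Ici
      have h2 : IsClosed {q : ℂ × ℂ | δ ≤ ‖q.1 - q.2‖} :=
        isClosed_le continuous_const (by fun_prop)
      have h3 := h1.inter h2
      convert h3 using 1
      ext q
      simp only [hSdef, Set.mem_ofPred_eq, mem_inter_iff, mem_preimage, mem_Ici, sub_nonneg]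
      tauto
    exact hC2c.of_isClosed_subset hcl (fun q hq => hq.1)
  have hSne : S.Nonempty := by
    refine ⟨(x1, y1), ⟨hx1c, hy1c⟩, ?_, ?_⟩
    · by_contra hlt
      push Not at hlt
      have := hnear x1 hx1c y1 hy1c hne1 hlt
      rw [hθ, div_mul_cancel₀ _ hW1.ne'] at this
      exact lt_irrefl _ this
    · rw [hθ, div_mul_cancel₀ _ hW1.ne']
  have hneS : ∀ q ∈ S, q.1 ≠ q.2 := by
    intro q hq h
    have := hq.2.1
    rw [h, sub_self, norm_zero] at this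
    linarith
  have hWS : ∀ q ∈ S, 0 < W q := by
    intro q hq
    have h1 := hNumpos q.1 hq.1.1 q.2 hq.1.2 (hneS q hq)
    have h2 := hq.2.2
    have h3 : 0 < θ * W q := lt_of_lt_of_le h1 h2
    by_contra hc
    push Not at hc
    have h4 := mul_nonpos_of_nonneg_of_nonpos hθ0.le hc
    linarith
  have cRat : ContinuousOn (fun q : ℂ × ℂ => Num q / W q) S :=
    (cNum.mono fun q hq => hq.1).div (cW.mono fun q hq => hq.1) (fun q hq => (hWS q hq).ne')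
  obtain ⟨q0, hq0, hmin⟩ := hSc.exists_isMinOn hSne cRat
  have hle : Num q0 / W q0 ≤ θ := by
    rw [div_le_iff₀ (hWS q0 hq0)]
    exact hq0.2.2
  have hW0 := hWS q0 hq0
  have hX0 : ‖q0.1‖ < 1 := by
    have h1 := hq0.1.1
    rw [mem_closedBall, dist_zero_right] at h1
    rcases h1.lt_or_eq with h | h
    · exact h
    · exfalso
      simp only [hW, h] at hW0
      simp at hW0
  have hY0 : ‖q0.2‖ < 1 := by
    have h1 := hq0.1.2
    rw [mem_closedBall, dist_zero_right] at h1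
    rcases h1.lt_or_eq with h | h
    · exact h
    · exfalso
      simp only [hW, h] at hW0
      simp at hW0
  have hglob : ∀ x ∈ ball (0 : ℂ) 1, ∀ y ∈ ball (0 : ℂ) 1, x ≠ y →
      rat L F G R q0.1 q0.2 ≤ rat L F G R x y := by
    intro x hx y hy hne
    rw [hrat, hrat]
    have hxc := ball_subset_closedBall hx
    have hyc := ball_subset_closedBall hy
    have hWpos : 0 < W (x, y) := by
      rw [mem_ball, dist_zero_right] at hx hy
      have h1 : 0 < 1 - ‖x‖ ^ 2 := by nlinarith [norm_nonneg x]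
      have h2 : 0 < 1 - ‖y‖ ^ 2 := by nlinarith [norm_nonneg y]
      have h3 : 0 < ‖deriv L x‖ := norm_pos_iff.2 (hS.hL x (hCs hxc))
      have h4 : 0 < ‖deriv L y‖ := norm_pos_iff.2 (hS.hL y (hCs hyc))
      have h5 : 0 < ‖R x - conj (R y)‖ := by
        rw [norm_pos_iff]
        intro h
        have h1 := congrArg Complex.im h
        simp only [Complex.sub_im, Complex.conj_im, Complex.zero_im] at h1
        have h2 := hS.hR x (hCs hxc)
        have h3 := hS.hR y (hCs hyc)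
        linarith
      have h6 : 0 < ‖x - y‖ := norm_pos_iff.2 (sub_ne_zero.2 hne)
      simp only [hW]
      positivity
    by_cases hin : (x, y) ∈ S
    · exact hmin hin
    · have hgt : θ * W (x, y) < Num (x, y) := by
        by_cases hd : ‖x - y‖ < δ
        · exact hnear x hxc y hyc hne hd
        · by_contra hle
          push Not at hle hd
          exact hin ⟨⟨hxc, hyc⟩, hd, hle⟩
      have : θ ≤ Num (x, y) / W (x, y) := by
        rw [le_div_iff₀ hWpos]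
        exact hgt.le
      exact hle.trans this
  have hlocal := two_local isOpen_ball hS (hCs hq0.1.1) (hCs hq0.1.2) hX0 hY0 (hneS q0 hq0)
    (hK q0.1 (hCs hq0.1.1) q0.2 (hCs hq0.1.2) (hneS q0 hq0)) (by
      intro ξ η
      have h1 : Tendsto (fun t : ℂ => q0.1 + t * ξ) (𝓝 0) (𝓝 q0.1) := by
        have : Continuous (fun t : ℂ => q0.1 + t * ξ) := by fun_prop
        exact this.tendsto' 0 _ (by simp)
      have h2 : Tendsto (fun t : ℂ => q0.2 + conj t * η) (𝓝 0) (𝓝 q0.2) := by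
        have : Continuous (fun t : ℂ => q0.2 + conj t * η) :=
          continuous_const.add (Complex.continuous_conj.mul continuous_const)
        exact this.tendsto' 0 _ (by simp)
      have e1 := h1.eventually (isOpen_ball.mem_nhds
        (show q0.1 ∈ ball (0 : ℂ) 1 by rw [mem_ball, dist_zero_right]; exact hX0))
      have e2 := h2.eventually (isOpen_ball.mem_nhds
        (show q0.2 ∈ ball (0 : ℂ) 1 by rw [mem_ball, dist_zero_right]; exact hY0))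
      have h3 : Tendsto (fun t : ℂ => (q0.1 + t * ξ) - (q0.2 + conj t * η)) (𝓝 0)
          (𝓝 (q0.1 - q0.2)) := h1.sub h2
      have e3 := h3.eventually_ne (sub_ne_zero.2 (hneS q0 hq0))
      filter_upwards [e1, e2, e3] with t e1 e2 e3
      exact hglob _ e1 _ e2 (sub_ne_zero.1 e3))
  have : W q0 ≤ Num q0 := hlocal
  have h1 : 1 ≤ Num q0 / W q0 := by
    rw [le_div_iff₀ hW0, one_mul]
    exact this
  linarith

/-- TWO: two-point inequality. -/
theorem two_point {L F G R : ℂ → ℂ} (hS : Surf (ball 0 1) L F G R) (hK : Achr (ball 0 1) L F G)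
    (x : ℂ) (hx : x ∈ ball (0 : ℂ) 1) (y : ℂ) (hy : y ∈ ball (0 : ℂ) 1) :
    (1 - ‖x‖ ^ 2) * (1 - ‖y‖ ^ 2) * (‖deriv L x‖ * ‖deriv L y‖ * ‖R x - conj (R y)‖ ^ 2) *
      ‖x - y‖ ^ 2 ≤ 4 * KK L F G x y * ‖1 - conj x * y‖ ^ 2 := by
  -- the scaled surfaces
  have hscale : ∀ r : ℝ, 0 < r → r < 1 →
      (1 - ‖x‖ ^ 2) * (1 - ‖y‖ ^ 2) * (‖(r : ℂ) * deriv L (r * x)‖ * ‖(r : ℂ) * deriv L (r * y)‖
        * ‖R (r * x) - conj (R (r * y))‖ ^ 2) * ‖x - y‖ ^ 2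
        ≤ 4 * KK L F G (r * x) (r * y) * ‖1 - conj x * y‖ ^ 2 := by
    intro r hr0 hr1
    have hs : 1 < 1 / r := by rw [lt_div_iff₀ hr0]; linarith
    have hmap : ∀ z ∈ ball (0 : ℂ) (1 / r), (r : ℂ) * z ∈ ball (0 : ℂ) 1 := by
      intro z hz
      rw [mem_ball, dist_zero_right] at hz ⊢
      rw [norm_mul, Complex.norm_real, Real.norm_eq_abs, abs_of_pos hr0]
      rw [lt_div_iff₀ hr0] at hz
      linarith
    have hlin : DifferentiableOn ℂ (fun z : ℂ => (r : ℂ) * z) (ball 0 (1 / r)) := by fun_prop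
    have hder : ∀ (Φ : ℂ → ℂ) (z : ℂ), deriv (fun z : ℂ => Φ (r * z)) z = r * deriv Φ (r * z) := by
      intro Φ z
      rw [deriv_comp_mul_left, smul_eq_mul]
    have hS' : Surf (ball 0 (1 / r)) (fun z => L (r * z)) (fun z => F (r * z))
        (fun z => G (r * z)) (fun z => R (r * z)) := by
      refine ⟨hS.dL.comp hlin hmap, hS.dF.comp hlin hmap, hS.dG.comp hlin hmap,
        hS.dR.comp hlin hmap, ?_, ?_, ?_, ?_⟩
      · intro z hz
        rw [hder, hder, hS.hF _ (hmap z hz)]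
        ring
      · intro z hz
        rw [hder, hder, hS.hG _ (hmap z hz)]
        ring
      · intro z hz
        exact hS.hR _ (hmap z hz)
      · intro z hz
        rw [hder]
        exact mul_ne_zero (by exact_mod_cast hr0.ne') (hS.hL _ (hmap z hz))
    have hK' : Achr (ball 0 (1 / r)) (fun z => L (r * z)) (fun z => F (r * z))
        (fun z => G (r * z)) := by
      intro a ha b hb hab
      exact hK _ (hmap a ha) _ (hmap b hb) (by
        intro h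
        exact hab (mul_left_cancel₀ (by exact_mod_cast hr0.ne') h))
    have := two_closed hs hS' hK' x hx y hy
    simp only [hder] at this
    exact this
  -- limit r → 1
  have hr1 : Tendsto (fun r : ℝ => (r : ℂ)) (𝓝[<] 1) (𝓝 1) := by
    have : Tendsto (fun r : ℝ => (r : ℂ)) (𝓝 1) (𝓝 ((1 : ℝ) : ℂ)) :=
      Complex.continuous_ofReal.tendsto 1
    rw [Complex.ofReal_one] at this
    exact this.mono_left nhdsWithin_le_nhds
  have hmul : ∀ w : ℂ, Tendsto (fun r : ℝ => (r : ℂ) * w) (𝓝[<] 1) (𝓝 w) := by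
    intro w
    have := hr1.mul_const w
    simpa using this
  have hnh : ∀ w ∈ ball (0 : ℂ) 1, ball (0 : ℂ) 1 ∈ 𝓝 w := fun w hw => isOpen_ball.mem_nhds hw
  have hcomp : ∀ {Φ : ℂ → ℂ}, ContinuousOn Φ (ball (0 : ℂ) 1) → ∀ w ∈ ball (0 : ℂ) 1,
      Tendsto (fun r : ℝ => Φ (r * w)) (𝓝[<] 1) (𝓝 (Φ w)) := by
    intro Φ hΦ w hw
    exact (hΦ.continuousAt (hnh w hw)).tendsto.comp (hmul w)
  have cL' : ContinuousOn (deriv L) (ball (0 : ℂ) 1) := (hS.dL.deriv isOpen_ball).continuousOn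
  have tL' : ∀ w ∈ ball (0 : ℂ) 1, Tendsto (fun r : ℝ => ‖(r : ℂ) * deriv L (r * w)‖) (𝓝[<] 1)
      (𝓝 ‖deriv L w‖) := by
    intro w hw
    have := (hr1.mul (hcomp cL' w hw)).norm
    simpa using this
  have tRR : Tendsto (fun r : ℝ => ‖R (r * x) - conj (R (r * y))‖ ^ 2) (𝓝[<] 1)
      (𝓝 (‖R x - conj (R y)‖ ^ 2)) := by
    have h1 := hcomp hS.dR.continuousOn x hx
    have h2 := (Complex.continuous_conj.tendsto (R y)).comp (hcomp hS.dR.continuousOn y hy)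
    exact ((h1.sub h2).norm).pow 2
  have him : ∀ {Φ : ℂ → ℂ}, ContinuousOn Φ (ball (0 : ℂ) 1) →
      Tendsto (fun r : ℝ => (Φ (r * x) - Φ (r * y)).im) (𝓝[<] 1) (𝓝 (Φ x - Φ y).im) := by
    intro Φ hΦ
    exact (Complex.continuous_im.tendsto _).comp ((hcomp hΦ x hx).sub (hcomp hΦ y hy))
  have tK : Tendsto (fun r : ℝ => KK L F G (r * x) (r * y)) (𝓝[<] 1) (𝓝 (KK L F G x y)) :=
    ((him hS.dF.continuousOn).pow 2).sub ((him hS.dG.continuousOn).mul (him hS.dL.continuousOn))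
  have t1 : Tendsto (fun r : ℝ => (1 - ‖x‖ ^ 2) * (1 - ‖y‖ ^ 2) *
      (‖(r : ℂ) * deriv L (r * x)‖ * ‖(r : ℂ) * deriv L (r * y)‖
        * ‖R (r * x) - conj (R (r * y))‖ ^ 2) * ‖x - y‖ ^ 2) (𝓝[<] 1)
      (𝓝 ((1 - ‖x‖ ^ 2) * (1 - ‖y‖ ^ 2) *
      (‖deriv L x‖ * ‖deriv L y‖ * ‖R x - conj (R y)‖ ^ 2) * ‖x - y‖ ^ 2)) :=
    ((((tL' x hx).mul (tL' y hy)).mul tRR).const_mul _).mul_const _
  have t2 : Tendsto (fun r : ℝ => 4 * KK L F G (r * x) (r * y) * ‖1 - conj x * y‖ ^ 2) (𝓝[<] 1)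
      (𝓝 (4 * KK L F G x y * ‖1 - conj x * y‖ ^ 2)) := (tK.const_mul 4).mul_const _
  refine le_of_tendsto_of_tendsto t1 t2 ?_
  have hpos : ∀ᶠ r : ℝ in 𝓝[<] 1, 0 < r :=
    (lt_mem_nhds (show (0 : ℝ) < 1 by norm_num)).filter_mono nhdsWithin_le_nhds
  filter_upwards [hpos, self_mem_nhdsWithin] with r h0 h1
  exact hscale r h0 h1

end Pool.CSH
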