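import Mathlib
import Pool.Agent.CSH.Marty
import Pool.Agent.CSH.Two
import Pool.Agent.CSH.Radial

open Complex Metric Set
open scoped ComplexConjugate

namespace Pool.CSH

theorem twoPoint : TwoPoint := fun _ _ _ _ hS hK x hx y hy => two_point hS hK x hx y hy

/-- The logarithmic gradient of the conformal radius is at most `2`. -/
theorem psi_le_two {L F G R : ℂ → ℂ} (hS : Surf (ball 0 1) L F G R)
    (hK : Achr (ball 0 1) L F G) : ∀ x ∈ ball (0 : ℂ) 1, ‖Psi L R x‖ ≤ 2 :=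
  psi_le_two' twoPoint hS hK

/-- MARTY: second coefficient. -/
theorem a2_bound {L F G R : ℂ → ℂ} (hS : Surf (ball 0 1) L F G R) (hK : Achr (ball 0 1) L F G) :
    ‖deriv (deriv L) 0‖ ≤ 6 * ‖deriv L 0‖ :=
  a2_bound' twoPoint hS hK

/-- RADIAL: growth of the conformal radius. -/
theorem radial_achr {L F G R : ℂ → ℂ} (hS : Surf (ball 0 1) L F G R)
    (hK : Achr (ball 0 1) L F G) : ∀ z ∈ ball (0 : ℂ) 1,
    (1 - ‖z‖ ^ 2) * ‖deriv L z‖ * (R z).im ≤
      ‖deriv L 0‖ * (R 0).im * ((1 + ‖z‖) / (1 - ‖z‖)) ^ 2 :=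
  radial_bound hS (psi_le_two hS hK)

end Pool.CSH
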