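import Pool.Agent.CSH.InjStokes

/-!
# Achronality of the closed-up step surfaces (MP_a0ec2a_an)

`K > 0`: from injectivity of all the planar projections, `CSH.Stokes.inj_of_paired`.
-/

open Complex MeasureTheory Set Filter Topology

namespace CSH.Stokes

variable {ι : Type*} [Fintype ι]

lemma Lg1_sub_mul (x a b : ι → ℝ) (s : ℝ) (w : ℂ) :
    Lg1 x (fun j => a j - s * b j) w = Lg1 x a w - s * Lg1 x b w := by
  unfold Lg1
  rw [Finset.mul_sum, ← Finset.sum_sub_distrib]
  refine Finset.sum_congr rfl fun j _ => ?_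
  push_cast
  ring

lemma Hf_sub_mul (x a b : ι → ℝ) (s : ℝ) (w : ℂ) :
    Hf x (fun j => a j - s * b j) w = Hf x a w - s * Hf x b w := by
  unfold Hf
  rw [Finset.mul_sum, ← Finset.sum_sub_distrib]
  refine Finset.sum_congr rfl fun j _ => ?_
  ring

lemma hr_sub_mul (x a b : ι → ℝ) (s : ℝ) (j : ι) :
    hr x (fun j => a j - s * b j) j = hr x a j - s * hr x b j := by
  unfold hr
  have : ∑ k, (if x j < x k then a k - s * b k else 0)
      = ∑ k, (if x j < x k then a k else 0) - s * ∑ k, (if x j < x k then b k else 0) := by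
    rw [Finset.mul_sum, ← Finset.sum_sub_distrib]
    refine Finset.sum_congr rfl fun k _ => ?_
    split_ifs <;> ring
  rw [this]
  ring

/-- the boundary value right of `x_j` in terms of the one left of `x_k` -/
lemma hr_eq_between {x : ι → ℝ} (hx : Function.Injective x) (a : ι → ℝ) {j k : ι}
    (hjk : x j < x k) :
    hr x a j = Real.pi * (∑ i, if x j < x i ∧ x i < x k then a i else 0)
      + (hr x a k + Real.pi * a k) := by
  classical
  unfold hr
  have h1 : ∑ i, (if x j < x i then a i else 0)
      = (∑ i, if x j < x i ∧ x i < x k then a i else 0)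
        + (∑ i, (if x k < x i then a i else 0)) + ∑ i, (if i = k then a i else 0) := by
    rw [← Finset.sum_add_distrib, ← Finset.sum_add_distrib]
    refine Finset.sum_congr rfl fun i _ => ?_
    rcases lt_trichotomy (x i) (x k) with h | h | h
    · have hne : i ≠ k := fun e => by rw [e] at h; exact lt_irrefl _ h
      simp [h, hne, not_lt.2 h.le]
    · have e : i = k := hx h
      subst e
      simp [hjk]
    · have hne : i ≠ k := fun e => by rw [e] at h; exact lt_irrefl _ h
      simp [h, hne, not_lt.2 h.le, hjk.trans h]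
  rw [h1]
  simp only [Finset.sum_ite_eq', Finset.mem_univ, if_true]
  ring

/-- **Achronality.** -/
theorem K_pos (x lam phi gam : ι → ℝ) (hx : Function.Injective x)
    (hl : ∑ j, lam j = 0) (hp : ∑ j, phi j = 0) (R : ℂ → ℂ)
    (hR : ∀ w : ℂ, 0 < w.im → 0 < (R w).im)
    (hL : ∀ w : ℂ, 0 < w.im → Lg1 x lam w ≠ 0)
    (hF : ∀ w : ℂ, 0 < w.im → Lg1 x phi w = R w * Lg1 x lam w)
    (hG : ∀ w : ℂ, 0 < w.im → Lg1 x gam w = R w ^ 2 * Lg1 x lam w)
    (P : ι → Prop) (σ : ι → ι)
    (hσP : ∀ j, P j → P (σ j)) (hσσ : ∀ j, P j → σ (σ j) = j)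
    (hσl : ∀ j, P j → lam (σ j) = - lam j) (hσp : ∀ j, P j → phi (σ j) = - phi j)
    (hσg : ∀ j, P j → gam (σ j) = - gam j)
    (hσhl : ∀ j, P j → hr x lam (σ j) + Real.pi * lam (σ j) = hr x lam j)
    (hσhp : ∀ j, P j → hr x phi (σ j) + Real.pi * phi (σ j) = hr x phi j)
    (hσhg : ∀ j, P j → hr x gam (σ j) + Real.pi * gam (σ j) = hr x gam j)
    (hbet : ∀ s : ℝ, ∀ j k, ¬ P j → ¬ P k → x j < x k →
      phi j - s * lam j < 0 → phi k - s * lam k < 0 →
      ∑ i, (if x j < x i ∧ x i < x k then phi i - s * lam i else 0) ≤ 0)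
    {p q : ℂ} (hp0 : 0 < p.im) (hq0 : 0 < q.im) (hpq : p ≠ q) :
    (Hf x gam p - Hf x gam q) * (Hf x lam p - Hf x lam q) < (Hf x phi p - Hf x phi q) ^ 2 := by
  by_contra hcon
  rw [not_lt] at hcon
  apply hpq
  -- disjointness for every slope
  have hdisj : ∀ s : ℝ, ∀ j k, ¬ P j → ¬ P k → phi j - s * lam j < 0 → phi k - s * lam k < 0 →
      j ≠ k → Disjoint
        (Ioo (hr x (fun j => phi j - s * lam j) j + Real.pi * (phi j - s * lam j))
          (hr x (fun j => phi j - s * lam j) j))
        (Ioo (hr x (fun j => phi j - s * lam j) k + Real.pi * (phi k - s * lam k))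
          (hr x (fun j => phi j - s * lam j) k)) := by
    intro s
    have key : ∀ j k, ¬ P j → ¬ P k → phi j - s * lam j < 0 → phi k - s * lam k < 0 →
        x j < x k → Disjoint
        (Ioo (hr x (fun j => phi j - s * lam j) j + Real.pi * (phi j - s * lam j))
          (hr x (fun j => phi j - s * lam j) j))
        (Ioo (hr x (fun j => phi j - s * lam j) k + Real.pi * (phi k - s * lam k))
          (hr x (fun j => phi j - s * lam j) k)) := by
      intro j k hj hk haj hak hjk
      have h1 := hr_eq_between hx (fun j => phi j - s * lam j) hjk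
      have h2 := hbet s j k hj hk hjk haj hak
      have h3 : hr x (fun j => phi j - s * lam j) j
          ≤ hr x (fun j => phi j - s * lam j) k + Real.pi * (phi k - s * lam k) := by
        have := mul_nonpos_of_nonneg_of_nonpos Real.pi_pos.le h2
        linarith
      rw [Set.disjoint_left]
      intro t ht1 ht2
      have := ht1.2
      have := ht2.1
      linarith
    intro j k hj hk haj hak hjk
    rcases lt_trichotomy (x j) (x k) with h | h | h
    · exact key j k hj hk haj hak h
    · exact absurd (hx h) hjk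
    · exact (key k j hk hj hak haj h).symm
  by_cases hl0 : Hf x lam p - Hf x lam q = 0
  · -- `Δ L = 0`
    rw [hl0, mul_zero] at hcon
    have hf0 : Hf x phi p - Hf x phi q = 0 := by
      have := le_antisymm hcon (sq_nonneg _)
      exact pow_eq_zero_iff (two_ne_zero) |>.1 this
    have hneg : ∀ w, Hf x (fun j => -lam j) w = - Hf x lam w := by
      intro w
      simp [Hf, Finset.sum_neg_distrib]
    have hneg1 : ∀ w, Lg1 x (fun j => -lam j) w = - Lg1 x lam w := by
      intro w
      simp [Lg1, neg_div, Finset.sum_neg_distrib]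
    have hhr : ∀ j, hr x (fun j => -lam j) j = - hr x lam j := by
      intro j
      unfold hr
      rw [← mul_neg, ← Finset.sum_neg_distrib]
      congr 1
      refine Finset.sum_congr rfl fun k _ => ?_
      split_ifs <;> simp
    refine inj_of_paired x phi (fun j => -lam j) hx hp ?_ P σ hσP hσσ hσp ?_ hσhp ?_ ?_ hp0 hq0
      (by linarith) ?_
    · intro w hw
      rw [hneg1, hF w hw]
      have h1 := hR w hw
      have h2 := Complex.normSq_pos.2 (hL w hw)
      have : ((starRingEnd ℂ) (R w * Lg1 x lam w) * -Lg1 x lam w).im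
          = (R w).im * Complex.normSq (Lg1 x lam w) := by
        simp only [map_mul, Complex.mul_im, Complex.mul_re, Complex.conj_re, Complex.conj_im,
          Complex.neg_re, Complex.neg_im, Complex.normSq_apply]
        ring
      rw [this]
      exact mul_pos h1 h2
    · intro j hj
      rw [hσl j hj]
    · intro j hj
      rw [hhr, hhr]
      have := hσhl j hj
      linarith
    · intro j k hj hk haj hak hjk
      have := hdisj 0 j k hj hk (by simpa using haj) (by simpa using hak) hjk
      simpa using this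
    · rw [hneg, hneg]
      linarith
  · -- `Δ L ≠ 0`
    set dl := Hf x lam p - Hf x lam q with hdl
    set df := Hf x phi p - Hf x phi q with hdf
    set dg := Hf x gam p - Hf x gam q with hdg
    set s := df / dl with hs
    set τ := dg / dl - s ^ 2 with hτ
    have hτ0 : 0 ≤ τ := by
      have h1 : 0 < dl ^ 2 := by positivity
      have h2 : τ * dl ^ 2 = dg * dl - df ^ 2 := by
        rw [hτ, hs]
        field_simp
      have h3 : 0 ≤ τ * dl ^ 2 := by rw [h2]; linarith
      exact nonneg_of_mul_nonneg_left h3 h1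
    have eH : ∀ w, Hf x (fun j => phi j - s * lam j) w = Hf x phi w - s * Hf x lam w :=
      fun w => Hf_sub_mul x phi lam s w
    set nu : ι → ℝ := fun j => (gam j - (2 * s) * phi j) - (-(s ^ 2) + τ) * lam j with hnu
    have eN : ∀ w, Hf x nu w = Hf x gam w - (2 * s) * Hf x phi w - (-(s ^ 2) + τ) * Hf x lam w := by
      intro w
      rw [hnu, Hf_sub_mul x (fun j => gam j - (2 * s) * phi j) lam (-(s ^ 2) + τ) w,
        Hf_sub_mul x gam phi (2 * s) w]
    have eN1 : ∀ w, Lg1 x nu w = Lg1 x gam w - (2 * s : ℝ) * Lg1 x phi w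
        - ((-(s ^ 2) + τ : ℝ) : ℂ) * Lg1 x lam w := by
      intro w
      rw [hnu, Lg1_sub_mul x (fun j => gam j - (2 * s) * phi j) lam (-(s ^ 2) + τ) w,
        Lg1_sub_mul x gam phi (2 * s) w]
    have eNr : ∀ j, hr x nu j = hr x gam j - (2 * s) * hr x phi j - (-(s ^ 2) + τ) * hr x lam j := by
      intro j
      rw [hnu, hr_sub_mul x (fun j => gam j - (2 * s) * phi j) lam (-(s ^ 2) + τ) j,
        hr_sub_mul x gam phi (2 * s) j]
    refine inj_of_paired x (fun j => phi j - s * lam j) nu hx ?_ ?_ P σ hσP hσσ ?_ ?_ ?_ ?_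
      (hdisj s) hp0 hq0 ?_ ?_
    · rw [Finset.sum_sub_distrib, ← Finset.mul_sum, hp, hl]; ring
    · intro w hw
      rw [Lg1_sub_mul, eN1, hF w hw, hG w hw]
      have h1 := hR w hw
      have h2 := Complex.normSq_pos.2 (hL w hw)
      set r := R w with hr
      set l := Lg1 x lam w with hl'
      have e1 : r * l - (s : ℂ) * l = (r - s) * l := by ring
      have e2 : r ^ 2 * l - ((2 * s : ℝ) : ℂ) * (r * l) - ((-(s ^ 2) + τ : ℝ) : ℂ) * l
          = ((r - s) ^ 2 - τ) * l := by push_cast; ring
      rw [e1, e2]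
      have h3 : ((starRingEnd ℂ) ((r - (s : ℂ)) * l) * (((r - s) ^ 2 - τ) * l)).im
          = Complex.normSq l * (r.im * (((r.re - s) ^ 2 + r.im ^ 2) + τ)) := by
        simp only [map_mul, map_sub, Complex.mul_im, Complex.mul_re, Complex.conj_re,
          Complex.conj_im, Complex.sub_re, Complex.sub_im, Complex.ofReal_re, Complex.ofReal_im,
          Complex.conj_ofReal, Complex.normSq_apply, pow_two]
        ring
      rw [h3]
      have h4 : 0 < r.im ^ 2 := by positivity
      have h5 : 0 < (r.re - s) ^ 2 + r.im ^ 2 + τ := by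
        have := sq_nonneg (r.re - s)
        linarith
      positivity
    · intro j hj
      rw [hσp j hj, hσl j hj]; ring
    · intro j hj
      simp only [hnu]
      rw [hσp j hj, hσl j hj, hσg j hj]; ring
    · intro j hj
      rw [hr_sub_mul, hr_sub_mul]
      have e1 := hσhp j hj
      have e2 := hσhl j hj
      linear_combination e1 - s * e2
    · intro j hj
      rw [eNr, eNr]
      simp only [hnu]
      have e1 := hσhp j hj
      have e2 := hσhl j hj
      have e3 := hσhg j hj
      linear_combination e3 - (2 * s) * e1 - (-(s ^ 2) + τ) * e2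
    · rw [eH, eH]
      have : df - s * dl = 0 := by rw [hs]; field_simp; ring
      rw [hdf, hdl] at this
      linarith
    · rw [eN, eN]
      have h1 : dg - (2 * s) * df - (-(s ^ 2) + τ) * dl = 0 := by
        rw [hτ]
        have e1 : s * dl = df := by rw [hs]; field_simp
        have e2 : dg / dl * dl = dg := by field_simp
        linear_combination (2 * s) * e1 - e2
      rw [hdg, hdf, hdl] at h1
      linarith

end CSH.Stokes
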