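import Pool.Agent.CSH.Defs
import Pool.Agent.CSH.KPos

set_option autoImplicit false

/-!
# KPOS: achronality in the half plane (MP_a0ec2a_an)

`achr_H`, from `CSH.Stokes.K_pos`, with the fraction decompositions of `F' = R L'`, `G' = R ^ 2 L'`.
-/

namespace Pool.CSH

open Complex Set Metric ComplexConjugate CSH.Stokes

variable {N : ℕ}

lemma sub_ne_zero_HH {w : ℂ} (hw : 0 < w.im) (t : ℝ) : w - t ≠ 0 := by
  intro h
  have := congrArg Complex.im h
  simp at this
  linarith

lemma sub_ne_zero_HH' {w : ℂ} (hw : 0 < w.im) (t : ℝ) : (t : ℂ) - w ≠ 0 := by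
  intro h
  apply sub_ne_zero_HH hw t
  rw [← neg_sub, h, neg_zero]

/-- one fraction step -/
lemma pf_step {p : Fin N → ℝ} {Z : Finset ℝ} {ρ : ℝ → ℝ} (a : Fin N → ℝ)
    (hZ : ∀ z ∈ Z, ∀ j, z ≠ p j) {w : ℂ} (hw : 0 < w.im) :
    Rc Z ρ w * Lp p a w = ∑ j, ((a j * Rr Z ρ (p j) : ℝ) : ℂ) / (w - p j)
      + ∑ z ∈ Z, ((ρ z * ∑ j, a j / (z - p j) : ℝ) : ℂ) / ((z : ℂ) - w) := by
  unfold Rc Lp Rr
  rw [Finset.sum_mul]
  have h1 : ∀ z ∈ Z, (ρ z : ℂ) / ((z : ℂ) - w) * ∑ j, (a j : ℂ) / (w - p j)
      = ∑ j, ((a j : ℂ) * (ρ z / (z - p j)) / (w - p j))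
        + ((ρ z * ∑ j, a j / (z - p j) : ℝ) : ℂ) / ((z : ℂ) - w) := by
    intro z hz
    have hzw := sub_ne_zero_HH' hw z
    push_cast
    rw [Finset.mul_sum, Finset.mul_sum, Finset.sum_div, ← Finset.sum_add_distrib]
    refine Finset.sum_congr rfl fun j _ => ?_
    have hwp := sub_ne_zero_HH hw (p j)
    have hzp : (z : ℂ) - p j ≠ 0 := by
      have := sub_ne_zero.2 (hZ z hz j)
      exact_mod_cast this
    field_simp
    ring
  rw [Finset.sum_congr rfl h1, Finset.sum_add_distrib]
  congr 1
  rw [Finset.sum_comm]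
  refine Finset.sum_congr rfl fun j _ => ?_
  push_cast
  rw [Finset.mul_sum, Finset.sum_div]

lemma Rc_im_pos {Z : Finset ℝ} {ρ : ℝ → ℝ} (hne : Z.Nonempty) (hρ : ∀ z ∈ Z, 0 < ρ z) {w : ℂ}
    (hw : 0 < w.im) : 0 < (Rc Z ρ w).im := by
  unfold Rc
  rw [Complex.im_sum]
  refine Finset.sum_pos (fun z hz => ?_) hne
  have hzw := sub_ne_zero_HH' hw z
  have hn := Complex.normSq_pos.2 hzw
  rw [Complex.div_im]
  simp only [Complex.ofReal_im, Complex.ofReal_re, Complex.sub_im, Complex.sub_re, zero_mul,
    zero_div, zero_sub]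
  have : -(ρ z * -w.im / Complex.normSq ((z : ℂ) - w)) = ρ z * w.im / Complex.normSq ((z : ℂ) - w) := by
    ring
  rw [this]
  exact div_pos (mul_pos (hρ z hz) hw) hn

section

variable {p c : Fin N → ℝ} {σ : Fin N → Fin N} {Z : Finset ℝ} {ρ : ℝ → ℝ}

/-- the residue identity at a zero -/
lemma sum_cR (hl : LinSol p c σ Z ρ) {z : ℝ} (hz : z ∈ Z) :
    ∑ j, (c j * Rr Z ρ (p j)) / (z - p j) = - (ρ z * Lr' p c z) := by
  classical
  have h1 : ∀ j, (c j * Rr Z ρ (p j)) / (z - p j)
      = ∑ y ∈ Z, ρ y * (c j / ((y - p j) * (z - p j))) := by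
    intro j
    unfold Rr
    rw [Finset.mul_sum, Finset.sum_div]
    refine Finset.sum_congr rfl fun y hy => ?_
    have h2 : y - p j ≠ 0 := sub_ne_zero.2 ((hl.zz y hy).1 j)
    have h3 : z - p j ≠ 0 := sub_ne_zero.2 ((hl.zz z hz).1 j)
    field_simp
  simp_rw [h1]
  rw [Finset.sum_comm, Finset.sum_eq_single z]
  · rw [← Finset.mul_sum]
    unfold Lr'
    rw [mul_neg, neg_neg]
    congr 1
    refine Finset.sum_congr rfl fun j _ => ?_
    rw [pow_two]
  · intro y hy hyz
    rw [← Finset.mul_sum]
    have h2 : ∑ j, c j / ((y - p j) * (z - p j)) = (Lr p c z - Lr p c y) / (y - z) := by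
      unfold Lr
      rw [← Finset.sum_sub_distrib, Finset.sum_div]
      refine Finset.sum_congr rfl fun j _ => ?_
      have h2 : y - p j ≠ 0 := sub_ne_zero.2 ((hl.zz y hy).1 j)
      have h3 : z - p j ≠ 0 := sub_ne_zero.2 ((hl.zz z hz).1 j)
      have h4 : y - z ≠ 0 := sub_ne_zero.2 hyz
      field_simp
      ring
    rw [h2, (hl.zz z hz).2.1, (hl.zz y hy).2.1]
    simp
  · intro h
    exact absurd hz h

/-- fraction decomposition of `F'` -/
lemma pf_F (hl : LinSol p c σ Z ρ) {w : ℂ} (hw : 0 < w.im) :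
    ∑ j, ((c j * Rr Z ρ (p j) : ℝ) : ℂ) / (w - p j) = Rc Z ρ w * Lp p c w := by
  rw [pf_step c (fun z hz => (hl.zz z hz).1) hw]
  have : ∑ z ∈ Z, ((ρ z * ∑ j, c j / (z - p j) : ℝ) : ℂ) / ((z : ℂ) - w) = 0 := by
    refine Finset.sum_eq_zero fun z hz => ?_
    have := (hl.zz z hz).2.1
    unfold Lr at this
    rw [this]
    simp
  rw [this, add_zero]

/-- fraction decomposition of `G'` -/
lemma pf_G (hl : LinSol p c σ Z ρ) {w : ℂ} (hw : 0 < w.im) :
    ∑ j, ((c j * Rr Z ρ (p j) ^ 2 : ℝ) : ℂ) / (w - p j)
      + ∑ z ∈ Z, ((ρ z ^ 2 * Lr' p c z : ℝ) : ℂ) / (w - z) = Rc Z ρ w ^ 2 * Lp p c w := by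
  have h1 := pf_step (Z := Z) (ρ := ρ) (fun j => c j * Rr Z ρ (p j))
    (fun z hz => (hl.zz z hz).1) hw
  have h2 : Lp p (fun j => c j * Rr Z ρ (p j)) w = Rc Z ρ w * Lp p c w := pf_F hl hw
  rw [h2] at h1
  rw [show Rc Z ρ w ^ 2 * Lp p c w = Rc Z ρ w * (Rc Z ρ w * Lp p c w) by ring, h1]
  congr 1
  · refine Finset.sum_congr rfl fun j _ => ?_
    congr 2
    ring
  · refine Finset.sum_congr rfl fun z hz => ?_
    rw [sum_cR hl hz]
    have h3 := sub_ne_zero_HH' hw z
    have h4 := sub_ne_zero_HH hw z
    rw [show ((z : ℂ) - w) = -(w - z) by ring]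
    push_cast
    rw [div_neg, ← neg_div]
    congr 1
    ring

/-- a `σ`-odd function sums to zero strictly inside a pair -/
lemma sum_inside_eq_zero (h : HData p c σ) {i : Fin N} (a : Fin N → ℝ)
    (ha : ∀ j, σ j ≠ j → a (σ j) = - a j) :
    ∑ k, (if p i < p k ∧ p k < p (σ i) then a k else 0) = 0 := by
  classical
  refine Finset.sum_involution (fun k _ => σ k) ?_ ?_ (fun _ _ => Finset.mem_univ _)
    (fun k _ => h.invol k)
  · intro k _
    by_cases hk : p i < p k ∧ p k < p (σ i)
    · have h1 := h.nonc i k (h.mono.lt_iff_lt.1 hk.1) (h.mono.lt_iff_lt.1 hk.2)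
      have h2 := h.unm i k (h.mono.lt_iff_lt.1 hk.1) (h.mono.lt_iff_lt.1 hk.2)
      rw [if_pos hk, if_pos ⟨h.mono h1.1, h.mono h1.2⟩, ha k h2]
      ring
    · have hk' : ¬ (p i < p (σ k) ∧ p (σ k) < p (σ i)) := by
        intro h3
        have h1 := h.nonc i (σ k) (h.mono.lt_iff_lt.1 h3.1) (h.mono.lt_iff_lt.1 h3.2)
        rw [h.invol] at h1
        exact hk ⟨h.mono h1.1, h.mono h1.2⟩
      rw [if_neg hk, if_neg hk', add_zero]
  · intro k _ hne heq
    by_cases hk : p i < p k ∧ p k < p (σ i)
    · exact h.unm i k (h.mono.lt_iff_lt.1 hk.1) (h.mono.lt_iff_lt.1 hk.2) heq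
    · exact hne (if_neg hk)

/-- boundary values at the two sides of a seam -/
lemma hr_seam (h : HData p c σ) (hZ : ∀ z ∈ Z, ∀ j, z ≠ p j) (a : Fin N → ℝ) (b : {z // z ∈ Z} → ℝ)
    (ha : ∀ j, σ j ≠ j → a (σ j) = - a j)
    (hb : ∀ i, i < σ i → ∑ z : {z // z ∈ Z}, (if p i < z.1 ∧ z.1 < p (σ i) then b z else 0) = 0)
    (j : Fin N) (hj : σ j ≠ j) :
    hr (Sum.elim p (fun z : {z // z ∈ Z} => z.1)) (Sum.elim a b) (Sum.inl (σ j))
      + Real.pi * (Sum.elim a b (Sum.inl (σ j)))
      = hr (Sum.elim p (fun z : {z // z ∈ Z} => z.1)) (Sum.elim a b) (Sum.inl j) := by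
  have hx : Function.Injective (Sum.elim p (fun z : {z // z ∈ Z} => z.1)) := by
    refine Function.Injective.sumElim h.mono.injective Subtype.val_injective ?_
    intro k z
    exact (hZ z.1 z.2 k).symm
  have hopen : ∀ i, i < σ i →
      hr (Sum.elim p (fun z : {z // z ∈ Z} => z.1)) (Sum.elim a b) (Sum.inl i)
      = hr (Sum.elim p (fun z : {z // z ∈ Z} => z.1)) (Sum.elim a b) (Sum.inl (σ i))
        + Real.pi * a (σ i) := by
    intro i hi
    have h1 := hr_eq_between hx (Sum.elim a b) (j := Sum.inl i) (k := Sum.inl (σ i))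
      (by simpa using h.mono hi)
    rw [h1, Fintype.sum_sum_type]
    simp only [Sum.elim_inl, Sum.elim_inr]
    rw [sum_inside_eq_zero h a ha, hb i hi]
    ring
  rcases lt_trichotomy j (σ j) with hlt | heq | hgt
  · rw [hopen j hlt]
    rfl
  · exact absurd heq.symm hj
  · have hi : σ j < σ (σ j) := by rw [h.invol]; exact hgt
    have h2 := hopen (σ j) hi
    rw [h.invol] at h2
    simp only [Sum.elim_inl]
    rw [h2, ha j hj]
    ring

/-- KPOS. -/
theorem achr_H (h : HData p c σ) (hl : LinSol p c σ Z ρ) :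
    Achr HH (Lf p c) (Ff p c Z ρ) (Gf p c Z ρ) := by
  classical
  intro w hw w' hw' hne
  set x : Fin N ⊕ {z // z ∈ Z} → ℝ := Sum.elim p (fun z => z.1) with hxdef
  set lam : Fin N ⊕ {z // z ∈ Z} → ℝ := Sum.elim c (fun _ => 0) with hlam
  set phi : Fin N ⊕ {z // z ∈ Z} → ℝ := Sum.elim (fun j => c j * Rr Z ρ (p j)) (fun _ => 0) with hphi
  set gam : Fin N ⊕ {z // z ∈ Z} → ℝ := Sum.elim (fun j => c j * Rr Z ρ (p j) ^ 2)
    (fun z => ρ z.1 ^ 2 * Lr' p c z.1) with hgam
  have hZ : ∀ z ∈ Z, ∀ j, z ≠ p j := fun z hz => (hl.zz z hz).1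
  have hx : Function.Injective x := by
    refine Function.Injective.sumElim h.mono.injective Subtype.val_injective ?_
    intro k z
    exact (hZ z.1 z.2 k).symm
  have hlamL : ∀ w : ℂ, Lg1 x lam w = Lp p c w := by
    intro w
    simp [Lg1, Lp, hxdef, hlam, Fintype.sum_sum_type]
  have hphiL : ∀ w : ℂ, Lg1 x phi w = ∑ j, ((c j * Rr Z ρ (p j) : ℝ) : ℂ) / (w - p j) := by
    intro w
    simp [Lg1, hxdef, hphi, Fintype.sum_sum_type]
  have hgamL : ∀ w : ℂ, Lg1 x gam w = ∑ j, ((c j * Rr Z ρ (p j) ^ 2 : ℝ) : ℂ) / (w - p j)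
      + ∑ z ∈ Z, ((ρ z ^ 2 * Lr' p c z : ℝ) : ℂ) / (w - z) := by
    intro w
    unfold Lg1
    rw [Fintype.sum_sum_type]
    simp only [hxdef, hgam, Sum.elim_inl, Sum.elim_inr]
    congr 1
    exact Finset.sum_coe_sort Z (fun z : ℝ => ((ρ z ^ 2 * Lr' p c z : ℝ) : ℂ) / (w - z))
  -- values
  have eL : ∀ w : ℂ, (Lf p c w).im = Hf x lam w := by
    intro w
    simp [Lf, Hf, hxdef, hlam, Fintype.sum_sum_type, Complex.im_sum, Complex.log_im]
  have eF : ∀ w : ℂ, (Ff p c Z ρ w).im = Hf x phi w := by
    intro w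
    unfold Ff Hf
    rw [Fintype.sum_sum_type, Complex.im_sum]
    simp only [hxdef, hphi, Sum.elim_inl, Sum.elim_inr, Complex.im_ofReal_mul, Complex.log_im]
    simp
  have eG : ∀ w : ℂ, (Gf p c Z ρ w).im = Hf x gam w := by
    intro w
    unfold Gf Hf
    rw [Fintype.sum_sum_type, Complex.add_im, Complex.im_sum, Complex.im_sum]
    simp only [hxdef, hgam, Sum.elim_inl, Sum.elim_inr, Complex.im_ofReal_mul, Complex.log_im]
    congr 1
    exact (Finset.sum_coe_sort Z (fun z : ℝ => (ρ z ^ 2 * Lr' p c z) * (w - z).arg)).symm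
  have hsumphi : ∑ j, phi j = 0 := by
    rw [Fintype.sum_sum_type]
    simp only [hphi, Sum.elim_inl, Sum.elim_inr, Finset.sum_const_zero, add_zero]
    unfold Rr
    simp_rw [Finset.mul_sum]
    rw [Finset.sum_comm]
    refine Finset.sum_eq_zero fun z hz => ?_
    have h1 := (hl.zz z hz).2.1
    unfold Lr at h1
    calc ∑ j, c j * (ρ z / (z - p j)) = ρ z * ∑ j, c j / (z - p j) := by
          rw [Finset.mul_sum]
          refine Finset.sum_congr rfl fun j _ => ?_
          ring
      _ = 0 := by rw [h1, mul_zero]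
  have key := K_pos x lam phi gam hx
    (by rw [Fintype.sum_sum_type]; simp [hlam, h.csum]) hsumphi (Rc Z ρ)
    (fun w hw => Rc_im_pos hl.ne (fun z hz => (hl.zz z hz).2.2) hw)
    (fun w hw => by rw [hlamL]; exact h.nz w hw)
    (fun w hw => by rw [hlamL, hphiL]; exact pf_F hl hw)
    (fun w hw => by rw [hlamL, hgamL]; exact pf_G hl hw)
    (Sum.elim (fun j => σ j ≠ j) (fun _ => False)) (Sum.map σ id)
    (by
      rintro (j | z) hj
      · simp only [Sum.elim_inl] at hj
        simp only [Sum.map_inl, Sum.elim_inl]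
        intro h1
        exact hj (by rw [h.invol] at h1; exact h1.symm)
      · exact absurd hj (by simp))
    (by
      rintro (j | z) _
      · simp [h.invol]
      · simp)
    (by
      rintro (j | z) hj
      · simp only [Sum.elim_inl] at hj
        simp [hlam, h.csig j hj]
      · exact absurd hj (by simp))
    (by
      rintro (j | z) hj
      · simp only [Sum.elim_inl] at hj
        simp [hphi, h.csig j hj, hl.seam j]
      · exact absurd hj (by simp))
    (by
      rintro (j | z) hj
      · simp only [Sum.elim_inl] at hj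
        simp [hgam, h.csig j hj, hl.seam j]
      · exact absurd hj (by simp))
    (by
      rintro (j | z) hj
      · simp only [Sum.elim_inl] at hj
        exact hr_seam h hZ c (fun _ => 0) (fun j hj => h.csig j hj) (fun i _ => by simp) j hj
      · exact absurd hj (by simp))
    (by
      rintro (j | z) hj
      · simp only [Sum.elim_inl] at hj
        exact hr_seam h hZ (fun j => c j * Rr Z ρ (p j)) (fun _ => 0)
          (fun j hj => by simp only [h.csig j hj, hl.seam j]; ring) (fun i _ => by simp) j hj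
      · exact absurd hj (by simp))
    (by
      rintro (j | z) hj
      · simp only [Sum.elim_inl] at hj
        refine hr_seam h hZ (fun j => c j * Rr Z ρ (p j) ^ 2) (fun z => ρ z.1 ^ 2 * Lr' p c z.1)
          (fun j hj => by simp only [h.csig j hj, hl.seam j]; ring) (fun i hi => ?_) j hj
        have h1 := hl.gcl i hi
        rw [Finset.sum_filter] at h1
        exact (Finset.sum_coe_sort Z (fun z : ℝ =>
          if p i < z ∧ z < p (σ i) then ρ z ^ 2 * Lr' p c z else 0)).trans h1
      · exact absurd hj (by simp))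
    (by
      intro s
      rintro (j | z) (k | z') hj hk hjk haj hak
      · simp only [Sum.elim_inl, not_not] at hj hk
        simp only [hxdef, Sum.elim_inl] at hjk
        simp only [hphi, hlam, Sum.elim_inl] at haj hak
        rw [Fintype.sum_sum_type]
        simp only [hxdef, hphi, hlam, Sum.elim_inl, Sum.elim_inr, mul_zero, sub_zero, ite_self,
          Finset.sum_const_zero, add_zero]
        have hjk' : j < k := h.mono.lt_iff_lt.1 hjk
        have haj' : c j * (Rr Z ρ (p j) - s) < 0 := by linarith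
        have hak' : c k * (Rr Z ρ (p k) - s) < 0 := by linarith
        -- split matched / unmatched
        rw [← Finset.sum_filter_add_sum_filter_not Finset.univ (fun i => σ i = i)]
        have hmat : ∑ i ∈ Finset.univ.filter (fun i => ¬ σ i = i),
            (if p j < p i ∧ p i < p k then c i * Rr Z ρ (p i) - s * c i else 0) = 0 := by
          have hinv : ∀ i, σ i ≠ i → (p j < p i ∧ p i < p k) → (p j < p (σ i) ∧ p (σ i) < p k) := by
            intro i hi hb
            have b1 := h.mono.lt_iff_lt.1 hb.1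
            have b2 := h.mono.lt_iff_lt.1 hb.2
            constructor
            · refine h.mono ?_
              by_contra hcon
              rw [not_lt] at hcon
              have hne2 : σ i ≠ j := by
                intro h3
                have h4 : i = j := by rw [← h.invol i, h3, hj]
                rw [h4] at b1
                exact lt_irrefl _ b1
              have h5 : σ i < j := lt_of_le_of_ne hcon hne2
              exact h.unm (σ i) j h5 (by rw [h.invol]; exact b1) hj
            · refine h.mono ?_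
              by_contra hcon
              rw [not_lt] at hcon
              have hne2 : σ i ≠ k := by
                intro h3
                have h4 : i = k := by rw [← h.invol i, h3, hk]
                rw [h4] at b2
                exact lt_irrefl _ b2
              have h5 : k < σ i := lt_of_le_of_ne hcon (Ne.symm hne2)
              exact h.unm i k b2 h5 hk
          refine Finset.sum_involution (fun i _ => σ i) ?_ ?_ ?_ (fun i _ => h.invol i)
          · intro i hi
            have hi' : σ i ≠ i := (Finset.mem_filter.1 hi).2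
            by_cases hb : p j < p i ∧ p i < p k
            · rw [if_pos hb, if_pos (hinv i hi' hb), h.csig i hi', hl.seam i]
              ring
            · have hb' : ¬ (p j < p (σ i) ∧ p (σ i) < p k) := by
                intro h3
                have h4 : σ (σ i) ≠ σ i := by rw [h.invol]; exact Ne.symm hi'
                have h5 := hinv (σ i) h4 h3
                rw [h.invol] at h5
                exact hb h5
              rw [if_neg hb, if_neg hb', add_zero]
          · intro i hi _
            exact (Finset.mem_filter.1 hi).2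
          · intro i hi
            have hi' : σ i ≠ i := (Finset.mem_filter.1 hi).2
            refine Finset.mem_filter.2 ⟨Finset.mem_univ _, ?_⟩
            rw [h.invol]
            exact Ne.symm hi'
        rw [hmat, add_zero]
        refine Finset.sum_nonpos fun i hi => ?_
        have hi' : σ i = i := (Finset.mem_filter.1 hi).2
        by_cases hb : p j < p i ∧ p i < p k
        · rw [if_pos hb]
          have b1 := h.mono.lt_iff_lt.1 hb.1
          have b2 := h.mono.lt_iff_lt.1 hb.2
          have hgoal : c i * (Rr Z ρ (p i) - s) ≤ 0 := by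
            rcases lt_or_gt_of_ne (h.cne i) with hci | hci
            · -- `c i < 0`, hence `c k < 0`
              have hck : c k < 0 := by
                rcases lt_or_gt_of_ne (h.cne k) with h1 | h1
                · exact h1
                · exact absurd (h.outer i k hi' hk b2 h1) (not_lt.2 hci.le)
              have h1 := hl.conv i k b2 hi' hk (mul_pos_of_neg_of_neg hci hck)
              have h2 : s < Rr Z ρ (p k) := by
                by_contra h3
                rw [not_lt] at h3
                have := mul_nonneg_of_nonpos_of_nonpos hck.le (sub_nonpos.2 h3)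
                linarith
              exact (mul_neg_of_neg_of_pos hci (by linarith)).le
            · -- `c i > 0`, hence `c j > 0`
              have hcj : 0 < c j := h.outer j i hj hi' b1 hci
              have h1 := hl.conv j i b1 hj hi' (mul_pos hcj hci)
              have h2 : Rr Z ρ (p j) < s := by
                by_contra h3
                rw [not_lt] at h3
                have := mul_nonneg hcj.le (sub_nonneg.2 h3)
                linarith
              exact (mul_neg_of_pos_of_neg hci (by linarith)).le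
          linarith
        · rw [if_neg hb]
      · simp only [hphi, hlam, Sum.elim_inr, mul_zero, sub_zero] at hak
        exact absurd hak (lt_irrefl _)
      · simp only [hphi, hlam, Sum.elim_inr, mul_zero, sub_zero] at haj
        exact absurd haj (lt_irrefl _)
      · simp only [hphi, hlam, Sum.elim_inr, mul_zero, sub_zero] at haj
        exact absurd haj (lt_irrefl _))
    (p := w) (q := w') hw hw' hne
  unfold KK
  simp only [Complex.sub_im]
  rw [eL, eL, eF, eF, eG, eG]
  linarith

end

end Pool.CSH
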