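import Mathlib
import Pool.Agent.CSH.Defs

set_option autoImplicit false

/-!
COORD: from the circle (angles) to the real line.
`pp θ₀ θ = -cot ((θ - θ₀) / 2)`, `e^{iθ} = e^{iθ₀} (x - i) / (x + i)` with `x = pp θ₀ θ`.
-/

namespace Pool.CSH

open Complex Set ComplexConjugate

/-- The half angle lies in `(0, π)`. -/
theorem half_mem {θ₀ θ : ℝ} (h : θ ∈ Ioo θ₀ (θ₀ + 2 * Real.pi)) :
    (θ - θ₀) / 2 ∈ Ioo 0 Real.pi := by
  obtain ⟨h1, h2⟩ := h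
  constructor <;> linarith

theorem sin_half_pos {θ₀ θ : ℝ} (h : θ ∈ Ioo θ₀ (θ₀ + 2 * Real.pi)) :
    0 < Real.sin ((θ - θ₀) / 2) :=
  Real.sin_pos_of_mem_Ioo (half_mem h)

theorem pp_strictMonoOn (θ₀ : ℝ) : StrictMonoOn (pp θ₀) (Ioo θ₀ (θ₀ + 2 * Real.pi)) := by
  intro a ha b hb hab
  have h1 := sin_half_pos ha
  have h2 := sin_half_pos hb
  have h3 : 0 < Real.sin ((b - θ₀) / 2 - (a - θ₀) / 2) := by
    apply Real.sin_pos_of_mem_Ioo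
    obtain ⟨ha1, ha2⟩ := ha
    obtain ⟨hb1, hb2⟩ := hb
    constructor <;> linarith
  rw [Real.sin_sub] at h3
  have h4 : pp θ₀ b - pp θ₀ a = (Real.sin ((b - θ₀) / 2) * Real.cos ((a - θ₀) / 2) -
      Real.cos ((b - θ₀) / 2) * Real.sin ((a - θ₀) / 2)) /
      (Real.sin ((a - θ₀) / 2) * Real.sin ((b - θ₀) / 2)) := by
    unfold pp
    field_simp
    ring
  have h5 : 0 < pp θ₀ b - pp θ₀ a := by
    rw [h4]; positivity
  linarith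

theorem pp_lt_iff {θ₀ a b : ℝ} (ha : a ∈ Ioo θ₀ (θ₀ + 2 * Real.pi))
    (hb : b ∈ Ioo θ₀ (θ₀ + 2 * Real.pi)) : pp θ₀ a < pp θ₀ b ↔ a < b :=
  (pp_strictMonoOn θ₀).lt_iff_lt ha hb

theorem pp_injOn (θ₀ : ℝ) : InjOn (pp θ₀) (Ioo θ₀ (θ₀ + 2 * Real.pi)) :=
  (pp_strictMonoOn θ₀).injOn

theorem pp_surj (θ₀ x : ℝ) : ∃ θ ∈ Ioo θ₀ (θ₀ + 2 * Real.pi), pp θ₀ θ = x := by
  refine ⟨θ₀ + 2 * (Real.pi / 2 + Real.arctan x), ?_, ?_⟩
  · have h1 := Real.neg_pi_div_two_lt_arctan x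
    have h2 := Real.arctan_lt_pi_div_two x
    constructor <;> linarith
  · unfold pp
    have h1 : (θ₀ + 2 * (Real.pi / 2 + Real.arctan x) - θ₀) / 2 = Real.arctan x + Real.pi / 2 := by
      ring
    rw [h1, Real.cos_add_pi_div_two, Real.sin_add_pi_div_two, neg_div, neg_neg,
      ← Real.tan_eq_sin_div_cos, Real.tan_arctan]

/-- Continuity of the coordinate. -/
theorem pp_continuousOn (θ₀ : ℝ) : ContinuousOn (pp θ₀) (Ioo θ₀ (θ₀ + 2 * Real.pi)) := by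
  unfold pp
  apply ContinuousOn.neg
  apply ContinuousOn.div
  · fun_prop
  · fun_prop
  · intro θ hθ
    exact (sin_half_pos hθ).ne'

theorem real_add_I_ne (x : ℝ) : (x : ℂ) + I ≠ 0 := by
  intro h
  have := congrArg Complex.im h
  simp at this

theorem real_sub_I_ne (x : ℝ) : (x : ℂ) - I ≠ 0 := by
  intro h
  have := congrArg Complex.im h
  simp at this

/-- `e^{iθ} = e^{iθ₀} (x - i) / (x + i)`. -/
theorem exp_pp {θ₀ θ : ℝ} (h : θ ∈ Ioo θ₀ (θ₀ + 2 * Real.pi)) :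
    Complex.exp (θ * I) = Complex.exp (θ₀ * I) * (((pp θ₀ θ : ℝ) : ℂ) - I) /
      (((pp θ₀ θ : ℝ) : ℂ) + I) := by
  have hs := (sin_half_pos h).ne'
  set u : ℝ := (θ - θ₀) / 2 with hu
  have hs' : (Real.sin u : ℂ) ≠ 0 := by exact_mod_cast hs
  have hx : ((pp θ₀ θ : ℝ) : ℂ) = -((Real.cos u : ℂ) / (Real.sin u : ℂ)) := by
    have h3 : pp θ₀ θ = -(Real.cos u / Real.sin u) := rfl
    rw [h3]
    simp only [Complex.ofReal_neg, Complex.ofReal_div]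
  have e1 : Complex.exp (u * I) = (Real.cos u : ℂ) + (Real.sin u : ℂ) * I := by
    rw [Complex.exp_mul_I]; simp
  have e2 : Complex.exp (-(u * I)) = (Real.cos u : ℂ) - (Real.sin u : ℂ) * I := by
    have h3 : -((u : ℂ) * I) = ((-u : ℝ) : ℂ) * I := by push_cast; ring
    rw [h3, Complex.exp_mul_I]
    simp [sub_eq_add_neg]
  have e3 : Complex.exp (θ * I) = Complex.exp (θ₀ * I) * (Complex.exp (u * I) *
      Complex.exp (u * I)) := by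
    rw [← Complex.exp_add, ← Complex.exp_add]
    congr 1
    rw [hu]; push_cast; ring
  have e4 : Complex.exp (u * I) * Complex.exp (-(u * I)) = 1 := by
    rw [← Complex.exp_add]; simp
  have hne : ((pp θ₀ θ : ℝ) : ℂ) + I ≠ 0 := real_add_I_ne _
  rw [eq_div_iff hne, e3, hx]
  have e5 : -((Real.cos u : ℂ) / (Real.sin u : ℂ)) + I =
      -(Complex.exp (-(u * I))) / (Real.sin u : ℂ) := by
    rw [e2]; field_simp; ring
  have e6 : -((Real.cos u : ℂ) / (Real.sin u : ℂ)) - I =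
      -(Complex.exp (u * I)) / (Real.sin u : ℂ) := by
    rw [e1]; field_simp; ring
  rw [e5, e6]
  have e7 : Complex.exp (θ₀ * I) * (Complex.exp (u * I) * Complex.exp (u * I)) *
      (-(Complex.exp (-(u * I))) / (Real.sin u : ℂ)) =
      Complex.exp (θ₀ * I) * Complex.exp (u * I) *
        (-(Complex.exp (u * I) * Complex.exp (-(u * I)))) / (Real.sin u : ℂ) := by ring
  rw [e7, e4]
  ring

/-- `qq` in terms of the angle. -/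
theorem qq_pp {N : ℕ} {θ₀ : ℝ} {t : Fin N → ℝ} {j : Fin N}
    (h : t j ∈ Ioo θ₀ (θ₀ + 2 * Real.pi)) :
    qq (fun j => pp θ₀ (t j)) j = Complex.exp (θ₀ * I) * Complex.exp (-(t j * I)) := by
  unfold qq
  have h1 := exp_pp h
  have h2 : (((pp θ₀ (t j) : ℝ) : ℂ) + I) ≠ 0 := real_add_I_ne _
  have h3 : (((pp θ₀ (t j) : ℝ) : ℂ) - I) ≠ 0 := real_sub_I_ne _
  have h4 : Complex.exp (t j * I) * Complex.exp (-(t j * I)) = 1 := by
    rw [← Complex.exp_add]; simp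
  have h5 : Complex.exp (t j * I) ≠ 0 := Complex.exp_ne_zero _
  rw [div_eq_iff h3]
  have h6 : Complex.exp (θ₀ * I) * (((pp θ₀ (t j) : ℝ) : ℂ) - I) =
      Complex.exp (t j * I) * (((pp θ₀ (t j) : ℝ) : ℂ) + I) := by
    rw [h1]; field_simp
  calc (((pp θ₀ (t j) : ℝ) : ℂ) + I)
      = (Complex.exp (t j * I) * Complex.exp (-(t j * I))) * (((pp θ₀ (t j) : ℝ) : ℂ) + I) := by
        rw [h4, one_mul]
    _ = Complex.exp (-(t j * I)) * (Complex.exp (t j * I) * (((pp θ₀ (t j) : ℝ) : ℂ) + I)) := by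
        ring
    _ = _ := by rw [← h6]; ring

/-- Absolute values of the power sums. -/
theorem norm_sum_qq {N : ℕ} {θ₀ : ℝ} {t : Fin N → ℝ}
    (h : ∀ j, t j ∈ Ioo θ₀ (θ₀ + 2 * Real.pi)) (C : Fin N → ℝ) (m : ℕ) :
    ‖∑ j, ((-C j : ℝ) : ℂ) * qq (fun j => pp θ₀ (t j)) j ^ m‖ =
      ‖∑ j, (C j : ℂ) * Complex.exp (-(m * t j * I))‖ := by
  have h1 : ∑ j, ((-C j : ℝ) : ℂ) * qq (fun j => pp θ₀ (t j)) j ^ m =
      -(Complex.exp (θ₀ * I)) ^ m * ∑ j, (C j : ℂ) * Complex.exp (-(m * t j * I)) := by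
    rw [Finset.mul_sum]
    refine Finset.sum_congr rfl fun j _ => ?_
    rw [qq_pp (h j), mul_pow, ← Complex.exp_nat_mul (-(t j * I))]
    have : (m : ℂ) * -(t j * I) = -(m * t j * I) := by ring
    rw [this]; push_cast; ring
  rw [h1, norm_mul, norm_neg, norm_pow, Complex.norm_exp_ofReal_mul_I, one_pow, one_mul]

/-- The Möbius map from the half plane to the disc. -/
noncomputable def zz (θ₀ : ℝ) (w : ℂ) : ℂ := Complex.exp (θ₀ * I) * ((w - I) / (w + I))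

theorem add_I_ne {w : ℂ} (hw : 0 ≤ w.im) : w + I ≠ 0 := by
  intro h
  have := congrArg Complex.im h
  simp at this
  linarith

theorem zz_mem_ball {θ₀ : ℝ} {w : ℂ} (hw : 0 < w.im) : zz θ₀ w ∈ Metric.ball (0 : ℂ) 1 := by
  rw [mem_ball_zero_iff]
  unfold zz
  rw [norm_mul, Complex.norm_exp_ofReal_mul_I, one_mul, norm_div]
  have h0 : 0 < ‖w + I‖ := norm_pos_iff.2 (add_I_ne hw.le)
  rw [div_lt_one h0]
  have h1 : ‖w - I‖ ^ 2 < ‖w + I‖ ^ 2 := by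
    rw [← Complex.normSq_eq_norm_sq, ← Complex.normSq_eq_norm_sq, Complex.normSq_apply,
      Complex.normSq_apply]
    simp
    nlinarith
  exact lt_of_pow_lt_pow_left₀ 2 (norm_nonneg _) h1

theorem zz_pp {θ₀ θ : ℝ} (h : θ ∈ Ioo θ₀ (θ₀ + 2 * Real.pi)) :
    zz θ₀ ((pp θ₀ θ : ℝ) : ℂ) = Complex.exp (θ * I) := by
  rw [exp_pp h]
  unfold zz
  ring

/-- Difference of two boundary/interior points. -/
theorem exp_sub_zz {θ₀ θ : ℝ} (h : θ ∈ Ioo θ₀ (θ₀ + 2 * Real.pi)) {w : ℂ} (hw : 0 ≤ w.im) :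
    Complex.exp (θ * I) - zz θ₀ w = Complex.exp (θ₀ * I) * (2 * I * (((pp θ₀ θ : ℝ) : ℂ) - w)) /
      ((((pp θ₀ θ : ℝ) : ℂ) + I) * (w + I)) := by
  rw [exp_pp h]
  unfold zz
  have h1 : w + I ≠ 0 := add_I_ne hw
  have h2 : (((pp θ₀ θ : ℝ) : ℂ) + I) ≠ 0 := real_add_I_ne _
  field_simp
  ring

/-- The Cauchy sum on the disc. -/
noncomputable def Dc {N : ℕ} (C t : Fin N → ℝ) (z : ℂ) : ℂ :=
  ∑ j, (C j : ℂ) / (Complex.exp (t j * I) - z)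

/-- **(ii)** `L'` in the half plane, at points with `Im w ≥ 0` which are no poles. -/
theorem Lp_eq {N : ℕ} {θ₀ : ℝ} {t : Fin N → ℝ}
    (h : ∀ j, t j ∈ Ioo θ₀ (θ₀ + 2 * Real.pi)) (C : Fin N → ℝ) (hC : ∑ j, C j = 0)
    {w : ℂ} (hw : 0 ≤ w.im) (hne : ∀ j, w ≠ ((pp θ₀ (t j) : ℝ) : ℂ)) :
    Lp (fun j => pp θ₀ (t j)) (fun j => -C j) w =
      Dc C t (zz θ₀ w) * (Complex.exp (θ₀ * I) * (2 * I) / (w + I) ^ 2) := by
  have h1 : w + I ≠ 0 := add_I_ne hw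
  have h0 : Complex.exp (θ₀ * I) ≠ 0 := Complex.exp_ne_zero _
  have hCc : ∑ j, (C j : ℂ) = 0 := by exact_mod_cast hC
  have h2 : ∀ j, (C j : ℂ) / (Complex.exp (t j * I) - zz θ₀ w) *
      (Complex.exp (θ₀ * I) * (2 * I) / (w + I) ^ 2) =
      (C j : ℂ) / (w + I) + (C j : ℂ) / (((pp θ₀ (t j) : ℝ) : ℂ) - w) := by
    intro j
    rw [exp_sub_zz (h j) hw]
    have h3 : (((pp θ₀ (t j) : ℝ) : ℂ) + I) ≠ 0 := real_add_I_ne _
    have h4 : ((pp θ₀ (t j) : ℝ) : ℂ) - w ≠ 0 := sub_ne_zero.2 (hne j).symm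
    field_simp
    ring
  unfold Dc
  rw [Finset.sum_mul, Finset.sum_congr rfl fun j _ => h2 j, Finset.sum_add_distrib,
    ← Finset.sum_div, hCc, zero_div, zero_add]
  unfold Lp
  refine Finset.sum_congr rfl fun j _ => ?_
  rw [← neg_sub w, div_neg]
  push_cast
  ring

theorem Lp_ne_zero {N : ℕ} {θ₀ : ℝ} {t : Fin N → ℝ}
    (h : ∀ j, t j ∈ Ioo θ₀ (θ₀ + 2 * Real.pi)) (C : Fin N → ℝ) (hC : ∑ j, C j = 0)
    (hD : ∀ z ∈ Metric.ball (0 : ℂ) 1, Dc C t z ≠ 0) (w : ℂ) (hw : 0 < w.im) :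
    Lp (fun j => pp θ₀ (t j)) (fun j => -C j) w ≠ 0 := by
  rw [Lp_eq h C hC hw.le (fun j hj => by
    rw [hj] at hw; simp at hw)]
  have h1 : w + I ≠ 0 := add_I_ne hw.le
  refine mul_ne_zero (hD _ (zz_mem_ball hw)) ?_
  refine div_ne_zero (mul_ne_zero (Complex.exp_ne_zero _) ?_) (pow_ne_zero _ h1)
  exact mul_ne_zero two_ne_zero I_ne_zero

theorem ofReal_Lr {N : ℕ} (p c : Fin N → ℝ) (x : ℝ) : ((Lr p c x : ℝ) : ℂ) = Lp p c (x : ℂ) := by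
  unfold Lr Lp
  push_cast
  rfl

/-- **(iii)** `L'` on the real line. -/
theorem Lr_eq {N : ℕ} {θ₀ : ℝ} {t : Fin N → ℝ}
    (h : ∀ j, t j ∈ Ioo θ₀ (θ₀ + 2 * Real.pi)) (C : Fin N → ℝ) (hC : ∑ j, C j = 0)
    {θ : ℝ} (hθ : θ ∈ Ioo θ₀ (θ₀ + 2 * Real.pi)) (hne : ∀ j, θ ≠ t j) :
    ((Lr (fun j => pp θ₀ (t j)) (fun j => -C j) (pp θ₀ θ) : ℝ) : ℂ) =
      2 * I * Complex.exp (θ * I) * Dc C t (Complex.exp (θ * I)) /
        (((pp θ₀ θ : ℝ) : ℂ) ^ 2 + 1) := by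
  have h1 : ∀ j, ((pp θ₀ θ : ℝ) : ℂ) ≠ ((pp θ₀ (t j) : ℝ) : ℂ) := by
    intro j hj
    have : pp θ₀ θ = pp θ₀ (t j) := by exact_mod_cast hj
    exact hne j (pp_injOn θ₀ hθ (h j) this)
  rw [ofReal_Lr, Lp_eq h C hC (by simp) h1, zz_pp hθ]
  have h2 : (((pp θ₀ θ : ℝ) : ℂ) + I) ≠ 0 := real_add_I_ne _
  have h3 : (((pp θ₀ θ : ℝ) : ℂ) - I) ≠ 0 := real_sub_I_ne _
  have h4 : ((pp θ₀ θ : ℝ) : ℂ) ^ 2 + 1 =
      (((pp θ₀ θ : ℝ) : ℂ) + I) * (((pp θ₀ θ : ℝ) : ℂ) - I) := by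
    ring_nf
    rw [I_sq]; ring
  rw [h4, exp_pp hθ]
  field_simp

/-- `x² + 1 ≠ 0`. -/
theorem sq_add_one_ne (x : ℝ) : ((x : ℂ) ^ 2 + 1) ≠ 0 := by
  have h1 : ((x : ℂ) ^ 2 + 1) = ((x ^ 2 + 1 : ℝ) : ℂ) := by push_cast; ring
  rw [h1]
  exact_mod_cast (by positivity : (x ^ 2 + 1 : ℝ) ≠ 0)

theorem Lr_eq_zero_iff {N : ℕ} {θ₀ : ℝ} {t : Fin N → ℝ}
    (h : ∀ j, t j ∈ Ioo θ₀ (θ₀ + 2 * Real.pi)) (C : Fin N → ℝ) (hC : ∑ j, C j = 0)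
    {θ : ℝ} (hθ : θ ∈ Ioo θ₀ (θ₀ + 2 * Real.pi)) (hne : ∀ j, θ ≠ t j) :
    Lr (fun j => pp θ₀ (t j)) (fun j => -C j) (pp θ₀ θ) = 0 ↔
      Dc C t (Complex.exp (θ * I)) = 0 := by
  have h1 := Lr_eq h C hC hθ hne
  have h2 : (2 * I * Complex.exp (θ * I) : ℂ) ≠ 0 :=
    mul_ne_zero (mul_ne_zero two_ne_zero I_ne_zero) (Complex.exp_ne_zero _)
  constructor
  · intro h3
    rw [h3, Complex.ofReal_zero, eq_comm, div_eq_zero_iff] at h1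
    rcases h1 with h4 | h4
    · exact (mul_eq_zero.1 h4).resolve_left h2
    · exact absurd h4 (sq_add_one_ne _)
  · intro h3
    rw [h3, mul_zero, zero_div] at h1
    exact_mod_cast h1

/-- Sign of `L'` on the real line: `Lr = 2 Re (i e^{iθ} D) / (x² + 1)`. -/
theorem Lr_eq_re {N : ℕ} {θ₀ : ℝ} {t : Fin N → ℝ}
    (h : ∀ j, t j ∈ Ioo θ₀ (θ₀ + 2 * Real.pi)) (C : Fin N → ℝ) (hC : ∑ j, C j = 0)
    {θ : ℝ} (hθ : θ ∈ Ioo θ₀ (θ₀ + 2 * Real.pi)) (hne : ∀ j, θ ≠ t j) :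
    Lr (fun j => pp θ₀ (t j)) (fun j => -C j) (pp θ₀ θ) =
      -(2 * (Complex.exp (θ * I) * Dc C t (Complex.exp (θ * I))).im) / (pp θ₀ θ ^ 2 + 1) := by
  have h1 := Lr_eq h C hC hθ hne
  have h2 : 2 * I * Complex.exp (θ * I) * Dc C t (Complex.exp (θ * I)) /
        (((pp θ₀ θ : ℝ) : ℂ) ^ 2 + 1) =
      (2 * I * Complex.exp (θ * I) * Dc C t (Complex.exp (θ * I))) /
        ((pp θ₀ θ ^ 2 + 1 : ℝ) : ℂ) := by push_cast; ring
  rw [h2] at h1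
  have h3 := congrArg Complex.re h1
  rw [Complex.ofReal_re, Complex.div_ofReal_re] at h3
  rw [h3]
  congr 1
  have h4 : 2 * I * Complex.exp (θ * I) * Dc C t (Complex.exp (θ * I)) =
      ((2 : ℝ) : ℂ) * (I * (Complex.exp (θ * I) * Dc C t (Complex.exp (θ * I)))) := by
    push_cast; ring
  rw [h4, Complex.re_ofReal_mul, Complex.I_mul_re]
  ring

/-- **(iv)** simple zeros. -/
theorem Lr'_ne_zero {N : ℕ} {θ₀ : ℝ} {t : Fin N → ℝ}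
    (h : ∀ j, t j ∈ Ioo θ₀ (θ₀ + 2 * Real.pi)) (C : Fin N → ℝ) (hC : ∑ j, C j = 0)
    {θ : ℝ} (hθ : θ ∈ Ioo θ₀ (θ₀ + 2 * Real.pi)) (hne : ∀ j, θ ≠ t j)
    (h0 : Dc C t (Complex.exp (θ * I)) = 0)
    (h1 : ∑ j, (C j : ℂ) / (Complex.exp (t j * I) - Complex.exp (θ * I)) ^ 2 ≠ 0) :
    Lr' (fun j => pp θ₀ (t j)) (fun j => -C j) (pp θ₀ θ) ≠ 0 := by
  intro hL
  apply h1
  set x : ℝ := pp θ₀ θ with hx
  have hne' : ∀ j, (x : ℂ) ≠ ((pp θ₀ (t j) : ℝ) : ℂ) := by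
    intro j hj
    have : pp θ₀ θ = pp θ₀ (t j) := by exact_mod_cast hj
    exact hne j (pp_injOn θ₀ hθ (h j) this)
  have hCc : ∑ j, (C j : ℂ) = 0 := by exact_mod_cast hC
  have hxI : (x : ℂ) + I ≠ 0 := real_add_I_ne _
  have hexp : Complex.exp (θ₀ * I) ≠ 0 := Complex.exp_ne_zero _
  -- first sum
  have hS1 : ∑ j, (C j : ℂ) / (((pp θ₀ (t j) : ℝ) : ℂ) - x) = 0 := by
    have h2 := (Lr_eq_zero_iff h C hC hθ hne).2 h0
    have h3 : ((Lr (fun j => pp θ₀ (t j)) (fun j => -C j) (pp θ₀ θ) : ℝ) : ℂ) = 0 := by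
      rw [h2]; simp
    rw [← h3]
    unfold Lr
    push_cast
    refine Finset.sum_congr rfl fun j _ => ?_
    rw [← neg_sub (x : ℂ), div_neg, neg_div]
  have hS2 : ∑ j, (C j : ℂ) / (((pp θ₀ (t j) : ℝ) : ℂ) - x) ^ 2 = 0 := by
    have h3 : ((Lr' (fun j => pp θ₀ (t j)) (fun j => -C j) (pp θ₀ θ) : ℝ) : ℂ) = 0 := by
      rw [hL]; simp
    rw [← h3]
    unfold Lr'
    push_cast
    rw [← Finset.sum_neg_distrib]
    refine Finset.sum_congr rfl fun j _ => ?_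
    rw [neg_div, neg_neg]
    congr 1
    ring
  have h4 : ∀ j, (C j : ℂ) / (Complex.exp (t j * I) - Complex.exp (θ * I)) ^ 2 =
      ((x : ℂ) + I) ^ 2 / (Complex.exp (θ₀ * I) * (2 * I)) ^ 2 * ((C j : ℂ) +
        2 * ((x : ℂ) + I) * ((C j : ℂ) / (((pp θ₀ (t j) : ℝ) : ℂ) - x)) +
        ((x : ℂ) + I) ^ 2 * ((C j : ℂ) / (((pp θ₀ (t j) : ℝ) : ℂ) - x) ^ 2)) := by
    intro j
    rw [← zz_pp hθ, exp_sub_zz (h j) (by simp)]
    have h5 : (((pp θ₀ (t j) : ℝ) : ℂ) + I) ≠ 0 := real_add_I_ne _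
    have h6 : ((pp θ₀ (t j) : ℝ) : ℂ) - x ≠ 0 := sub_ne_zero.2 (hne' j).symm
    rw [← hx]
    field_simp
    ring
  rw [Finset.sum_congr rfl fun j _ => h4 j, ← Finset.mul_sum, Finset.sum_add_distrib,
    Finset.sum_add_distrib, ← Finset.mul_sum, ← Finset.mul_sum, hCc, hS1, hS2]
  ring

end Pool.CSH
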