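import Pool.Agent.CSH.Alt

set_option autoImplicit false

/-!
# The matching of the crossing points of the boundary curve with finitely many levels
(MP_a0ec2a_an)
-/

namespace Pool.CSH

open Complex Set Metric ComplexConjugate

/-- The matching relation on angles. -/
def Mt (h g : Polynomial ℂ) (a b : ℝ) : Prop := Gap h g a b ∨ Gap h g b a

theorem Mt.symm {h g : Polynomial ℂ} {a b : ℝ} (H : Mt h g a b) : Mt h g b a := Or.symm H

theorem Mt.ne {h g : Polynomial ℂ} {a b : ℝ} (H : Mt h g a b) : a ≠ b := by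
  rintro rfl
  rcases H with H | H <;> exact lt_irrefl _ H.2.1

theorem bd_inj_Ioo {h g : Polynomial ℂ} {r : ℝ} (hU : Uni h g r) {θ₀ a b : ℝ}
    (ha : a ∈ Ioo θ₀ (θ₀ + 2 * Real.pi)) (hb : b ∈ Ioo θ₀ (θ₀ + 2 * Real.pi))
    (hab : bd h g a = bd h g b) : a = b := by
  have h1 : max a b < min a b + 2 * Real.pi := by
    rcases le_total a b with h2 | h2
    · rw [max_eq_right h2, min_eq_left h2]; linarith [ha.1, hb.2]
    · rw [max_eq_left h2, min_eq_right h2]; linarith [hb.1, ha.2]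
  exact bd_injOn hU h1 ⟨min_le_left _ _, le_max_left _ _⟩ ⟨min_le_right _ _, le_max_right _ _⟩ hab

theorem Gap.vv_eq {h g : Polynomial ℂ} {a b : ℝ} (H : Gap h g a b) :
    vv (h - g) a = vv (h - g) b := by
  rw [← bd_im, ← bd_im]; exact H.1

theorem Gap.right_unique {h g : Polynomial ℂ} {r : ℝ} (hU : Uni h g r) {θ₀ a b b' : ℝ}
    (hb : b ∈ Ioo θ₀ (θ₀ + 2 * Real.pi)) (hb' : b' ∈ Ioo θ₀ (θ₀ + 2 * Real.pi))
    (H : Gap h g a b) (H' : Gap h g a b') : b = b' := by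
  refine bd_inj_Ioo hU hb hb' ?_
  apply Complex.ext
  · apply le_antisymm
    · rcases H.2.2.2.2 b' H'.1.symm with h1 | h1
      · exact absurd H'.2.1 (not_lt.2 h1)
      · exact h1
    · rcases H'.2.2.2.2 b H.1.symm with h1 | h1
      · exact absurd H.2.1 (not_lt.2 h1)
      · exact h1
  · rw [← H.1, H'.1]

theorem Gap.left_unique {h g : Polynomial ℂ} {r : ℝ} (hU : Uni h g r) {θ₀ a a' b : ℝ}
    (ha : a ∈ Ioo θ₀ (θ₀ + 2 * Real.pi)) (ha' : a' ∈ Ioo θ₀ (θ₀ + 2 * Real.pi))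
    (H : Gap h g a b) (H' : Gap h g a' b) : a = a' := by
  refine bd_inj_Ioo hU ha ha' ?_
  apply Complex.ext
  · apply le_antisymm
    · rcases H'.2.2.2.2 a (H.1.trans H'.1.symm) with h1 | h1
      · exact h1
      · exact absurd H.2.1 (not_lt.2 h1)
    · rcases H.2.2.2.2 a' (H'.1.trans H.1.symm) with h1 | h1
      · exact h1
      · exact absurd H'.2.1 (not_lt.2 h1)
  · rw [H.1, H'.1]

theorem Mt.unique {h g : Polynomial ℂ} {r : ℝ} (hU : Uni h g r) {θ₀ a b b' : ℝ}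
    (hb : b ∈ Ioo θ₀ (θ₀ + 2 * Real.pi)) (hb' : b' ∈ Ioo θ₀ (θ₀ + 2 * Real.pi))
    (H : Mt h g a b) (H' : Mt h g a b') : b = b' := by
  rcases H with H | H <;> rcases H' with H' | H'
  · exact H.right_unique hU hb hb' H'
  · exact absurd H'.2.2.2.1 (not_lt.2 H.2.2.1.le)
  · exact absurd H.2.2.2.1 (not_lt.2 H'.2.2.1.le)
  · exact H.left_unique hU hb hb' H'

/-- LEVEL: the crossing points with finitely many regular levels and their matching. -/
theorem level_exists_of {h g : Polynomial ℂ} {r : ℝ} (hU : Uni h g r) (P : Planar h g) (θ₀ : ℝ)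
    (hθ₀ : ∀ θ, vv (h - g) θ ≤ vv (h - g) θ₀) (lev : Finset ℝ)
    (hreg : ∀ θ, vv (h - g) θ ∈ lev → vd (h - g) θ ≠ 0)
    (two : ∃ a b, vv (h - g) a < vv (h - g) b ∧ vv (h - g) a ∈ lev ∧ vv (h - g) b ∈ lev) :
    ∃ (n : ℕ) (t : Fin (n + 1) → ℝ) (σ : Fin (n + 1) → Fin (n + 1)), StrictMono t ∧
      (∀ j, t j ∈ Ioo θ₀ (θ₀ + 2 * Real.pi)) ∧
      (∀ θ ∈ Ioo θ₀ (θ₀ + 2 * Real.pi), vv (h - g) θ ∈ lev ↔ ∃ j, t j = θ) ∧
      (∀ j, σ (σ j) = j) ∧
      (∀ i j, i < j → j < σ i → i < σ j ∧ σ j < σ i) ∧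
      (∀ i j, i < j → j < σ i → σ j ≠ j) ∧
      (∀ j, σ j ≠ j → vv (h - g) (t (σ j)) = vv (h - g) (t j) ∧
        (0 < vd (h - g) (t j) ↔ vd (h - g) (t (σ j)) < 0)) ∧
      (∀ j, 0 < vd (h - g) (t j) → σ j ≠ j → (bd h g (t j)).re < (bd h g (t (σ j))).re) ∧
      (∀ i j, i < j → σ i = i → σ j = j → vd (h - g) (t j) < 0 → vd (h - g) (t i) < 0) ∧
      (∃ i j, i < j ∧ σ i = i ∧ σ j = j ∧ vd (h - g) (t i) < 0 ∧ vd (h - g) (t j) < 0) := by
  classical
  -- the set of crossing points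
  set T : Set ℝ := {θ | θ ∈ Ioo θ₀ (θ₀ + 2 * Real.pi) ∧ vv (h - g) θ ∈ lev} with hT
  have hTfin : T.Finite := by
    have h1 : T ⊆ ⋃ c ∈ lev, {θ | θ ∈ Icc θ₀ (θ₀ + 2 * Real.pi) ∧ vv (h - g) θ = c} := by
      intro θ hθ
      rw [mem_iUnion₂]
      exact ⟨vv (h - g) θ, hθ.2, ⟨hθ.1.1.le, hθ.1.2.le⟩, rfl⟩
    refine Set.Finite.subset ?_ h1
    refine Set.Finite.biUnion lev.finite_toSet fun c hc => ?_
    exact level_finite h g θ₀ c (fun θ hθ => hreg θ (by rw [hθ]; exact hc))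
  -- the two left free points
  obtain ⟨a1, a2, h12, hl1, hl2⟩ := two
  obtain ⟨⟨b1, hb1, hvb1, hLb1⟩, _⟩ := exists_lfree_of P θ₀ hθ₀ a1
    (fun θ hθ => hreg θ (by rw [hθ]; exact hl1))
  obtain ⟨⟨b2, hb2, hvb2, hLb2⟩, _⟩ := exists_lfree_of P θ₀ hθ₀ a2
    (fun θ hθ => hreg θ (by rw [hθ]; exact hl2))
  have hb1T : b1 ∈ T := ⟨hb1, by rw [hvb1]; exact hl1⟩
  have hb2T : b2 ∈ T := ⟨hb2, by rw [hvb2]; exact hl2⟩
  have hcard : hTfin.toFinset.card ≠ 0 := by
    rw [Finset.card_ne_zero]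
    exact ⟨b1, hTfin.mem_toFinset.2 hb1T⟩
  obtain ⟨n, hn⟩ := Nat.exists_eq_succ_of_ne_zero hcard
  have hn' : hTfin.toFinset.card = n + 1 := hn
  set t : Fin (n + 1) → ℝ := fun j => hTfin.toFinset.orderEmbOfFin hn' j with ht
  have htmono : StrictMono t := (hTfin.toFinset.orderEmbOfFin hn').strictMono
  have hrange : ∀ θ, θ ∈ T ↔ ∃ j, t j = θ := by
    intro θ
    have h1 : Set.range t = (hTfin.toFinset : Set ℝ) := Finset.range_orderEmbOfFin _ hn'
    have h2 : θ ∈ Set.range t ↔ θ ∈ T := by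
      rw [h1, Finset.mem_coe, hTfin.mem_toFinset]
    rw [← h2]; rfl
  have htT : ∀ j, t j ∈ T := fun j => (hrange _).2 ⟨j, rfl⟩
  have htI : ∀ j, t j ∈ Ioo θ₀ (θ₀ + 2 * Real.pi) := fun j => (htT j).1
  have hvdne : ∀ j, vd (h - g) (t j) ≠ 0 := fun j => hreg _ (htT j).2
  have hncj : ∀ j, ∀ θ, vv (h - g) θ = vv (h - g) (t j) → vd (h - g) θ ≠ 0 := by
    intro j θ hθ
    exact hreg θ (by rw [hθ]; exact (htT j).2)
  -- the matching
  let σ : Fin (n + 1) → Fin (n + 1) := fun j =>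
    if H : ∃ k, Mt h g (t j) (t k) then Classical.choose H else j
  have hσ1 : ∀ j k, Mt h g (t j) (t k) → σ j = k := by
    intro j k hjk
    have H : ∃ k, Mt h g (t j) (t k) := ⟨k, hjk⟩
    have h1 : σ j = Classical.choose H := dif_pos H
    rw [h1]
    have h2 := Classical.choose_spec H
    exact htmono.injective (h2.unique hU (htI _) (htI _) hjk)
  have hσ2 : ∀ j, σ j ≠ j → Mt h g (t j) (t (σ j)) := by
    intro j hj
    by_cases H : ∃ k, Mt h g (t j) (t k)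
    · obtain ⟨k, hk⟩ := H
      rw [hσ1 j k hk]; exact hk
    · exact absurd (dif_neg H) hj
  have hσ3 : ∀ j, σ j = j → ∀ k, ¬ Mt h g (t j) (t k) := by
    intro j hj k hk
    have h1 := hσ1 j k hk
    rw [hj] at h1
    rw [← h1] at hk
    exact hk.ne rfl
  have hfree : ∀ j, σ j = j → RFree h g (t j) ∨ LFree h g (t j) := by
    intro j hj
    rcases lt_or_gt_of_ne (hvdne j) with h1 | h1
    · rcases alt_down_of P θ₀ hθ₀ (t j) h1 (hncj j) with ⟨a, ha, hG⟩ | h2
      · exfalso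
        have h3 : a ∈ T := ⟨ha, by rw [hG.vv_eq]; exact (htT j).2⟩
        obtain ⟨k, hk⟩ := (hrange a).1 h3
        exact hσ3 j hj k (Or.inr (by rw [hk]; exact hG))
      · exact Or.inr h2
    · rcases alt_up_of P θ₀ hθ₀ (t j) h1 (hncj j) with ⟨b, hb, hG⟩ | h2
      · exfalso
        have h3 : b ∈ T := ⟨hb, by rw [← hG.vv_eq]; exact (htT j).2⟩
        obtain ⟨k, hk⟩ := (hrange b).1 h3
        exact hσ3 j hj k (Or.inl (by rw [hk]; exact hG))
      · exact Or.inl h2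
  have hinv : ∀ j, σ (σ j) = j := by
    intro j
    by_cases hj : σ j = j
    · rw [hj, hj]
    · exact hσ1 _ _ (hσ2 j hj).symm
  -- a left free point is unmatched
  have hLfix : ∀ j, LFree h g (t j) → σ j = j := by
    intro j hL
    by_contra hj
    rcases hσ2 j hj with H | H
    · exact absurd hL.1 (not_lt.2 H.2.2.1.le)
    · exact absurd H.2.1 (not_lt.2 (hL.2 _ H.1))
  have hunm : ∀ i j, i < j → j < σ i → σ j ≠ j := by
    intro i j hij hji hj
    have hi : σ i ≠ i := by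
      intro h1
      rw [h1] at hji
      exact lt_asymm hij hji
    have h1 : t i < t j := htmono hij
    have h2 : t j < t (σ i) := htmono hji
    rcases hσ2 i hi with H | H
    · refine P.nc_free θ₀ hθ₀ _ _ _ (htI i) (htI (σ i)) (htI j) H (hfree j hj) ?_
      rw [min_eq_left (h1.trans h2).le, max_eq_right (h1.trans h2).le]
      exact ⟨h1, h2⟩
    · refine P.nc_free θ₀ hθ₀ _ _ _ (htI (σ i)) (htI i) (htI j) H (hfree j hj) ?_
      rw [min_eq_right (h1.trans h2).le, max_eq_left (h1.trans h2).le]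
      exact ⟨h1, h2⟩
  have hnonc : ∀ i j, i < j → j < σ i → i < σ j ∧ σ j < σ i := by
    intro i j hij hji
    have hi : σ i ≠ i := by
      intro h1
      rw [h1] at hji
      exact lt_asymm hij hji
    have hj : σ j ≠ j := hunm i j hij hji
    have h1 : t i < t j := htmono hij
    have h2 : t j < t (σ i) := htmono hji
    have h12' : t i < t (σ i) := h1.trans h2
    -- the four orientations
    have key : ∀ A B : Fin (n + 1), Gap h g (t A) (t B) →
        min (t A) (t B) = t i → max (t A) (t B) = t (σ i) → t j ≠ t A → t j ≠ t B →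
        t i < t (σ j) ∧ t (σ j) < t (σ i) := by
      intro A B HG hmin hmax hjA hjB
      rcases hσ2 j hj with H' | H'
      · have h3 := P.nc_gap θ₀ hθ₀ _ _ _ _ (htI A) (htI B) (htI j) (htI (σ j)) HG H' hjA
          (by rw [hmin, hmax]; exact ⟨h1, h2⟩)
        rw [hmin, hmax] at h3
        exact h3
      · have hne : t (σ j) ≠ t A := by
          intro h4
          rw [h4] at H'
          exact hjB (H'.right_unique hU (htI j) (htI B) HG)
        have h3 := P.nc_gap' θ₀ hθ₀ _ _ _ _ (htI A) (htI B) (htI (σ j)) (htI j) HG H' hne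
          (by rw [hmin, hmax]; exact ⟨h1, h2⟩)
        rw [hmin, hmax] at h3
        exact h3
    have h5 : t i < t (σ j) ∧ t (σ j) < t (σ i) := by
      rcases hσ2 i hi with H | H
      · exact key i (σ i) H (min_eq_left h12'.le) (max_eq_right h12'.le) h1.ne' h2.ne
      · exact key (σ i) i H (min_eq_right h12'.le) (max_eq_left h12'.le) h2.ne h1.ne'
    exact ⟨htmono.lt_iff_lt.1 h5.1, htmono.lt_iff_lt.1 h5.2⟩
  refine ⟨n, t, σ, htmono, htI, ?_, hinv, hnonc, hunm, ?_, ?_, ?_, ?_⟩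
  · intro θ hθ
    rw [← hrange θ]
    exact ⟨fun h1 => ⟨hθ, h1⟩, fun h1 => h1.2⟩
  · intro j hj
    rcases hσ2 j hj with H | H
    · exact ⟨H.vv_eq.symm, fun _ => H.2.2.2.1, fun _ => H.2.2.1⟩
    · exact ⟨H.vv_eq, fun h1 => absurd H.2.2.2.1 (not_lt.2 h1.le),
        fun h1 => absurd H.2.2.1 (not_lt.2 h1.le)⟩
  · intro j hup hj
    rcases hσ2 j hj with H | H
    · exact H.2.1
    · exact absurd H.2.2.2.1 (not_lt.2 hup.le)
  · intro i j hij hi hj hdown
    by_contra h1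
    have h2 : RFree h g (t i) := by
      rcases hfree i hi with h3 | h3
      · exact h3
      · exact absurd h3.1 h1
    have h4 : LFree h g (t j) := by
      rcases hfree j hj with h3 | h3
      · exact absurd h3.1 (not_lt.2 hdown.le)
      · exact h3
    have h5 := P.nc_order θ₀ hθ₀ _ _ (htI j) (htI i) h4 h2
    exact absurd (htmono hij) (not_lt.2 h5.le)
  · obtain ⟨j1, hj1⟩ := (hrange b1).1 hb1T
    obtain ⟨j2, hj2⟩ := (hrange b2).1 hb2T
    have hf1 : σ j1 = j1 := hLfix j1 (by rw [hj1]; exact hLb1)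
    have hf2 : σ j2 = j2 := hLfix j2 (by rw [hj2]; exact hLb2)
    have hne : j1 ≠ j2 := by
      intro h1
      rw [← h1, hj1] at hj2
      rw [← hj2, hvb1] at hvb2
      linarith
    have hd1 : vd (h - g) (t j1) < 0 := by rw [hj1]; exact hLb1.1
    have hd2 : vd (h - g) (t j2) < 0 := by rw [hj2]; exact hLb2.1
    rcases lt_or_gt_of_ne hne with h1 | h1
    · exact ⟨j1, j2, h1, hf1, hf2, hd1, hd2⟩
    · exact ⟨j2, j1, h1, hf2, hf1, hd2, hd1⟩

end Pool.CSH
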