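import Pool.Agent.CSH.NC
import Pool.Agent.CSH.Level

set_option autoImplicit false

/-!
# Planarity facts, alternation and the matching for univalent harmonic polynomials
(MP_a0ec2a_an)
-/

namespace Pool.CSH

open Complex Set Metric ComplexConjugate

theorem planar {h g : Polynomial ℂ} {r : ℝ} (hU : Uni h g r) : Planar h g where
  adj_sign _ _ h1 h2 h3 h4 h5 := adj_sign hU h1 h2 h3 h4 h5
  left_sign _ h1 h2 := left_sign hU h1 h2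
  right_sign _ h1 h2 := right_sign hU h1 h2
  nc_gap θ₀ h0 _ _ _ _ h1 h2 h3 h4 h5 h6 h7 h8 := nc_gap hU θ₀ h0 h1 h2 h3 h4 h5 h6 h7 h8
  nc_gap' θ₀ h0 _ _ _ _ h1 h2 h3 h4 h5 h6 h7 h8 := nc_gap' hU θ₀ h0 h1 h2 h3 h4 h5 h6 h7 h8
  nc_free θ₀ h0 _ _ _ h1 h2 h3 h4 h5 := nc_free hU θ₀ h0 h1 h2 h3 h4 h5
  nc_order θ₀ h0 _ _ h1 h2 h3 h4 := nc_order hU θ₀ h0 h1 h2 h3 h4

/-- ALT, upward points. -/
theorem alt_up {h g : Polynomial ℂ} {r : ℝ} (hU : Uni h g r) (θ₀ : ℝ)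
    (hθ₀ : ∀ θ, vv (h - g) θ ≤ vv (h - g) θ₀) (a : ℝ) (ha : 0 < vd (h - g) a)
    (hnc : ∀ θ, vv (h - g) θ = vv (h - g) a → vd (h - g) θ ≠ 0) :
    (∃ b ∈ Ioo θ₀ (θ₀ + 2 * Real.pi), Gap h g a b) ∨ RFree h g a :=
  alt_up_of (planar hU) θ₀ hθ₀ a ha hnc

/-- ALT, downward points. -/
theorem alt_down {h g : Polynomial ℂ} {r : ℝ} (hU : Uni h g r) (θ₀ : ℝ)
    (hθ₀ : ∀ θ, vv (h - g) θ ≤ vv (h - g) θ₀) (b : ℝ) (hb : vd (h - g) b < 0)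
    (hnc : ∀ θ, vv (h - g) θ = vv (h - g) b → vd (h - g) θ ≠ 0) :
    (∃ a ∈ Ioo θ₀ (θ₀ + 2 * Real.pi), Gap h g a b) ∨ LFree h g b :=
  alt_down_of (planar hU) θ₀ hθ₀ b hb hnc

/-- ALT, existence of a left free point at every non-critical attained level. -/
theorem exists_lfree {h g : Polynomial ℂ} {r : ℝ} (hU : Uni h g r) (θ₀ : ℝ)
    (hθ₀ : ∀ θ, vv (h - g) θ ≤ vv (h - g) θ₀) (a : ℝ)
    (hnc : ∀ θ, vv (h - g) θ = vv (h - g) a → vd (h - g) θ ≠ 0) :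
    (∃ b ∈ Ioo θ₀ (θ₀ + 2 * Real.pi), vv (h - g) b = vv (h - g) a ∧ LFree h g b) ∧
    (∃ b ∈ Ioo θ₀ (θ₀ + 2 * Real.pi), vv (h - g) b = vv (h - g) a ∧ RFree h g b) :=
  exists_lfree_of (planar hU) θ₀ hθ₀ a hnc

/-- LEVEL: the crossing points with finitely many regular levels and their matching. -/
theorem level_exists {h g : Polynomial ℂ} {r : ℝ} (hU : Uni h g r) (θ₀ : ℝ)
    (hθ₀ : ∀ θ, vv (h - g) θ ≤ vv (h - g) θ₀) (lev : Finset ℝ)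
    (hreg : ∀ θ, vv (h - g) θ ∈ lev → vd (h - g) θ ≠ 0)
    (two : ∃ a b, vv (h - g) a < vv (h - g) b ∧ vv (h - g) a ∈ lev ∧ vv (h - g) b ∈ lev) :
    ∃ (n : ℕ) (t : Fin (n + 1) → ℝ) (σ : Fin (n + 1) → Fin (n + 1)), StrictMono t ∧
      (∀ j, t j ∈ Ioo θ₀ (θ₀ + 2 * Real.pi)) ∧
      (∀ θ ∈ Ioo θ₀ (θ₀ + 2 * Real.pi), vv (h - g) θ ∈ lev ↔ ∃ j, t j = θ) ∧
      (∀ j, σ (σ j) = j) ∧
      (∀ i j, i < j → j < σ i → i < σ j ∧ σ j < σ i) ∧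
      (∀ i j, i < j → j < σ i → σ j ≠ j) ∧
      (∀ j, σ j ≠ j → vv (h - g) (t (σ j)) = vv (h - g) (t j) ∧
        (0 < vd (h - g) (t j) ↔ vd (h - g) (t (σ j)) < 0)) ∧
      (∀ j, 0 < vd (h - g) (t j) → σ j ≠ j → (bd h g (t j)).re < (bd h g (t (σ j))).re) ∧
      (∀ i j, i < j → σ i = i → σ j = j → vd (h - g) (t j) < 0 → vd (h - g) (t i) < 0) ∧
      (∃ i j, i < j ∧ σ i = i ∧ σ j = j ∧ vd (h - g) (t i) < 0 ∧ vd (h - g) (t j) < 0) :=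
  level_exists_of hU (planar hU) θ₀ hθ₀ lev hreg two

end Pool.CSH
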