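import Mathlib

/-!
# Coarea formula for a function of one variable with finitely many critical points
-/

open MeasureTheory Finset

namespace Pool.CSH.Quad

/-- The number of the elements of `Z` which are less than `t`. -/
noncomputable def cnt (Z : Finset ℝ) (t : ℝ) : ℕ := (Z.filter fun z => z < t).card

/-- The pieces on which a function with critical points `Z` is injective. -/
def piece (a b : ℝ) (Z : Finset ℝ) (i : ℕ) : Set ℝ :=
  {t | t ∈ Set.Ioc a b ∧ t ∉ Z ∧ cnt Z t = i}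

lemma measurable_cnt (Z : Finset ℝ) : Measurable (cnt Z) := by
  have : cnt Z = fun t => ∑ z ∈ Z, if z < t then 1 else 0 := by
    ext t
    unfold cnt
    rw [Finset.card_filter]
  rw [this]
  refine Finset.measurable_fun_sum _ fun z _ => ?_
  exact Measurable.ite measurableSet_Ioi measurable_const measurable_const

lemma measurableSet_piece (a b : ℝ) (Z : Finset ℝ) (i : ℕ) : MeasurableSet (piece a b Z i) := by
  have h1 : piece a b Z i = Set.Ioc a b ∩ ((Z : Set ℝ)ᶜ ∩ cnt Z ⁻¹' {i}) := rfl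
  rw [h1]
  exact measurableSet_Ioc.inter (Z.measurableSet.compl.inter
    (measurable_cnt Z (measurableSet_singleton i)))

variable {v h : ℝ → ℝ} {a b : ℝ} {Z : Finset ℝ}

lemma injOn_piece (hv : ∀ t, HasDerivAt v (h t) t) (hZ : ∀ t ∈ Set.Ioc a b, h t = 0 → t ∈ Z)
    (i : ℕ) : Set.InjOn v (piece a b Z i) := by
  have key : ∀ x ∈ piece a b Z i, ∀ y ∈ piece a b Z i, v x = v y → ¬ x < y := by
    intro x hx y hy hxy hlt
    obtain ⟨c, hc, hc0⟩ := exists_hasDerivAt_eq_zero hlt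
      (fun t _ => (hv t).continuousAt.continuousWithinAt) hxy (fun t _ => hv t)
    have hcZ : c ∈ Z := hZ c ⟨hx.1.1.trans hc.1, hc.2.le.trans hy.1.2⟩ hc0
    have h1 : (Z.filter fun z => z < x) ⊂ (Z.filter fun z => z < y) := by
      rw [Finset.ssubset_iff_of_subset]
      · exact ⟨c, Finset.mem_filter.2 ⟨hcZ, hc.2⟩, fun h => by
          have := (Finset.mem_filter.1 h).2
          exact absurd hc.1 (not_lt.2 this.le)⟩
      · intro z hz
        rw [Finset.mem_filter] at hz ⊢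
        exact ⟨hz.1, hz.2.trans hlt⟩
    have h2 := Finset.card_lt_card h1
    have h3 : cnt Z x = cnt Z y := hx.2.2.trans hy.2.2.symm
    unfold cnt at h3
    omega
  intro x hx y hy hxy
  rcases lt_trichotomy x y with h1 | h1 | h1
  · exact absurd h1 (key x hx y hy hxy)
  · exact h1
  · exact absurd h1 (key y hy x hx hxy.symm)

variable {E : Type*} [NormedAddCommGroup E] [NormedSpace ℝ E]

open Classical in
/-- The density on a piece, as a function of the level. -/
noncomputable def dens (v h : ℝ → ℝ) (φ : ℝ → E) (s : Set ℝ) (c : ℝ) : E :=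
  |h (Function.invFunOn v s c)|⁻¹ • φ (Function.invFunOn v s c)

/-- The sum over the fibre. -/
noncomputable def fib (v h : ℝ → ℝ) (φ : ℝ → E) (a b : ℝ) (Z : Finset ℝ) (c : ℝ) : E :=
  ∑ i ∈ range (Z.card + 1), (v '' piece a b Z i).indicator (dens v h φ (piece a b Z i)) c

lemma dens_eq (hv : ∀ t, HasDerivAt v (h t) t) (hZ : ∀ t ∈ Set.Ioc a b, h t = 0 → t ∈ Z)
    (φ : ℝ → E) {i : ℕ} {t : ℝ} (ht : t ∈ piece a b Z i) :
    dens v h φ (piece a b Z i) (v t) = |h t|⁻¹ • φ t := by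
  have h1 : Function.invFunOn v (piece a b Z i) (v t) = t :=
    (injOn_piece hv hZ i) (Function.invFunOn_mem ⟨t, ht, rfl⟩) ht
      (Function.invFunOn_eq ⟨t, ht, rfl⟩)
  unfold dens
  rw [h1]

lemma cnt_le (Z : Finset ℝ) (t : ℝ) : cnt Z t ∈ range (Z.card + 1) :=
  Finset.mem_range.2 (Nat.lt_succ_of_le (Finset.card_filter_le _ _))

/-- The fibre sum. -/
lemma fib_eq (hv : ∀ t, HasDerivAt v (h t) t) (hZ : ∀ t ∈ Set.Ioc a b, h t = 0 → t ∈ Z)
    (φ : ℝ → E) (c : ℝ) (F : Finset ℝ)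
    (hF : ∀ t, t ∈ F ↔ t ∈ Set.Ioc a b ∧ t ∉ Z ∧ v t = c) :
    fib v h φ a b Z c = ∑ t ∈ F, |h t|⁻¹ • φ t := by
  rw [← Finset.sum_fiberwise_of_maps_to (g := cnt Z) (t := range (Z.card + 1))
    (fun t _ => cnt_le Z t)]
  unfold fib
  refine Finset.sum_congr rfl fun i _ => ?_
  by_cases hc : c ∈ v '' piece a b Z i
  · obtain ⟨t, ht, rfl⟩ := hc
    rw [Set.indicator_of_mem (Set.mem_image_of_mem v ht), dens_eq hv hZ φ ht]
    have h1 : F.filter (fun s => cnt Z s = i) = {t} := by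
      ext s
      rw [Finset.mem_filter, Finset.mem_singleton, hF]
      constructor
      · rintro ⟨⟨h1, h2, h3⟩, h4⟩
        exact injOn_piece hv hZ i ⟨h1, h2, h4⟩ ht h3
      · rintro rfl
        exact ⟨⟨ht.1, ht.2.1, rfl⟩, ht.2.2⟩
    rw [h1, Finset.sum_singleton]
  · rw [Set.indicator_of_notMem hc]
    have h1 : F.filter (fun s => cnt Z s = i) = ∅ := by
      rw [Finset.filter_eq_empty_iff]
      intro s hs h4
      rw [hF] at hs
      exact hc ⟨s, ⟨hs.1, hs.2.1, h4⟩, hs.2.2⟩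
    rw [h1, Finset.sum_empty]

lemma integrableOn_dens (hv : ∀ t, HasDerivAt v (h t) t)
    (hZ : ∀ t ∈ Set.Ioc a b, h t = 0 → t ∈ Z) {φ : ℝ → E} (hφ : IntegrableOn φ (Set.Ioc a b))
    (i : ℕ) : IntegrableOn (dens v h φ (piece a b Z i)) (v '' piece a b Z i) ∧
      ∫ c in v '' piece a b Z i, dens v h φ (piece a b Z i) c = ∫ t in piece a b Z i, φ t := by
  have hms := measurableSet_piece a b Z i
  have hd : ∀ x ∈ piece a b Z i, HasDerivWithinAt v (h x) (piece a b Z i) x :=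
    fun x _ => (hv x).hasDerivWithinAt
  have hcongr : ∀ x ∈ piece a b Z i, |h x| • dens v h φ (piece a b Z i) (v x) = φ x := by
    intro x hx
    have h0 : h x ≠ 0 := fun h0 => hx.2.1 (hZ x hx.1 h0)
    rw [dens_eq hv hZ φ hx, smul_smul, mul_inv_cancel₀ (abs_ne_zero.2 h0), one_smul]
  constructor
  · rw [integrableOn_image_iff_integrableOn_abs_deriv_smul hms hd (injOn_piece hv hZ i)]
    exact (hφ.mono_set fun x hx => hx.1).congr_fun (fun x hx => (hcongr x hx).symm) hms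
  · rw [integral_image_eq_integral_abs_deriv_smul hms hd (injOn_piece hv hZ i)]
    exact setIntegral_congr_fun hms hcongr

lemma measurableSet_image_piece (hv : ∀ t, HasDerivAt v (h t) t)
    (hZ : ∀ t ∈ Set.Ioc a b, h t = 0 → t ∈ Z) (i : ℕ) :
    MeasurableSet (v '' piece a b Z i) :=
  (measurableSet_piece a b Z i).image_of_continuousOn_injOn
    (fun t _ => (hv t).continuousAt.continuousWithinAt) (injOn_piece hv hZ i)

/-- The coarea formula. -/
theorem coarea (hv : ∀ t, HasDerivAt v (h t) t) (hZ : ∀ t ∈ Set.Ioc a b, h t = 0 → t ∈ Z)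
    {φ : ℝ → E} (hφ : IntegrableOn φ (Set.Ioc a b)) :
    Integrable (fib v h φ a b Z) ∧ ∫ c, fib v h φ a b Z c = ∫ t in Set.Ioc a b, φ t := by
  have hint : ∀ i ∈ range (Z.card + 1), Integrable
      ((v '' piece a b Z i).indicator (dens v h φ (piece a b Z i))) := by
    intro i _
    rw [integrable_indicator_iff (measurableSet_image_piece hv hZ i)]
    exact (integrableOn_dens hv hZ hφ i).1
  constructor
  · exact integrable_finsetSum _ hint
  · have h1 : ∫ c, fib v h φ a b Z c = ∑ i ∈ range (Z.card + 1), ∫ t in piece a b Z i, φ t := by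
      unfold fib
      rw [integral_finsetSum _ hint]
      refine Finset.sum_congr rfl fun i _ => ?_
      rw [integral_indicator (measurableSet_image_piece hv hZ i)]
      exact (integrableOn_dens hv hZ hφ i).2
    rw [h1, ← integral_biUnion_finset]
    · have h2 : (⋃ i ∈ range (Z.card + 1), piece a b Z i) = Set.Ioc a b \ (Z : Set ℝ) := by
        ext t
        simp only [Set.mem_iUnion, piece, exists_prop]
        constructor
        · rintro ⟨i, _, h1, h2, _⟩
          exact ⟨h1, h2⟩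
        · rintro ⟨h1, h2⟩
          exact ⟨cnt Z t, cnt_le Z t, h1, h2, rfl⟩
      rw [h2]
      apply setIntegral_congr_set
      exact sdiff_null_ae_eq_self (Z.finite_toSet.measure_zero volume)
    · intro i _
      exact measurableSet_piece a b Z i
    · intro i _ j _ hij
      rw [Function.onFun, Set.disjoint_left]
      rintro t ⟨_, _, h1⟩ ⟨_, _, h2⟩
      exact hij (h1.symm.trans h2)
    · intro i _
      exact hφ.mono_set fun x hx => hx.1

/-- The points of the fibre which are not critical. -/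
lemma fibre_finite (hv : ∀ t, HasDerivAt v (h t) t) (hZ : ∀ t ∈ Set.Ioc a b, h t = 0 → t ∈ Z)
    (c : ℝ) : {t | t ∈ Set.Ioc a b ∧ t ∉ Z ∧ v t = c}.Finite := by
  refine Set.Finite.of_injOn (f := cnt Z) (t := ((range (Z.card + 1) : Finset ℕ) : Set ℕ)) ?_ ?_
    (Finset.finite_toSet _)
  · intro t _
    exact Finset.mem_coe.2 (cnt_le Z t)
  · intro s hs t ht hst
    exact injOn_piece hv hZ (cnt Z t) ⟨hs.1, hs.2.1, hst⟩ ⟨ht.1, ht.2.1, rfl⟩
      (hs.2.2.trans ht.2.2.symm)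

/-- The fibre sum is continuous at regular levels. -/
theorem continuousAt_fib (hv : ∀ t, HasDerivAt v (h t) t) (hhc : Continuous h)
    (hZ : ∀ t ∈ Set.Ioc a b, h t = 0 → t ∈ Z) (hZ0 : ∀ t ∈ Z, h t = 0) {φ : ℝ → E}
    (hφ : Continuous φ) {c₀ : ℝ} (hreg : ∀ t, v t = c₀ → h t ≠ 0) (ha : v a ≠ c₀)
    (hb : v b ≠ c₀) : ContinuousAt (fib v h φ a b Z) c₀ := by
  classical
  have hvc : Continuous v := continuous_iff_continuousAt.2 fun t => (hv t).continuousAt
  -- injectivity on intervals without critical points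
  have hinj : ∀ x y : ℝ, (∀ t ∈ Set.Icc x y, h t ≠ 0) → Set.InjOn v (Set.Icc x y) := by
    intro x y hxy
    have key : ∀ s ∈ Set.Icc x y, ∀ t ∈ Set.Icc x y, v s = v t → ¬ s < t := by
      intro s hs t ht hst hlt
      obtain ⟨c, hc, hc0⟩ := exists_hasDerivAt_eq_zero hlt hvc.continuousOn hst (fun t _ => hv t)
      exact hxy c ⟨hs.1.trans hc.1.le, hc.2.le.trans ht.2⟩ hc0
    intro s hs t ht hst
    rcases lt_trichotomy s t with h1 | h1 | h1
    · exact absurd h1 (key s hs t ht hst)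
    · exact h1
    · exact absurd h1 (key t ht s hs hst.symm)
  set ψ : ℝ → E := fun t => |h t|⁻¹ • φ t with hψ
  have hψc : ∀ t, h t ≠ 0 → ContinuousAt ψ t := by
    intro t ht
    exact (hhc.continuousAt.abs.inv₀ (abs_ne_zero.2 ht)).smul hφ.continuousAt
  set F : ℝ → Finset ℝ := fun c => (fibre_finite hv hZ c).toFinset with hF
  have hFmem : ∀ c t, t ∈ F c ↔ t ∈ Set.Ioc a b ∧ t ∉ Z ∧ v t = c := by
    intro c t
    rw [hF]
    simp only [Set.Finite.mem_toFinset]
    exact Iff.rfl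
  have hfib : ∀ c, fib v h φ a b Z c = ∑ t ∈ F c, ψ t :=
    fun c => fib_eq hv hZ φ c (F c) (hFmem c)
  rw [Metric.continuousAt_iff']
  intro η hη
  -- the intervals around the points of the fibre
  have hex : ∀ t : ℝ, ∃ δ : ℝ, 0 < δ ∧ (t ∈ F c₀ → ∀ s ∈ Set.Icc (t - δ) (t + δ),
      s ∈ Set.Ioo a b ∧ h s ≠ 0 ∧ dist (ψ s) (ψ t) < η / ((F c₀).card + 1)) := by
    intro t
    by_cases ht : t ∈ F c₀
    · have ht' := (hFmem c₀ t).1 ht
      have h1 : t ∈ Set.Ioo a b :=
        ⟨ht'.1.1, lt_of_le_of_ne ht'.1.2 fun h => hb (h ▸ ht'.2.2)⟩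
      have h2 : h t ≠ 0 := hreg t ht'.2.2
      have e1 : ∀ᶠ s in nhds t, s ∈ Set.Ioo a b := isOpen_Ioo.mem_nhds h1
      have e2 : ∀ᶠ s in nhds t, h s ≠ 0 := hhc.continuousAt.eventually_ne h2
      have e3 : ∀ᶠ s in nhds t, dist (ψ s) (ψ t) < η / ((F c₀).card + 1) :=
        Metric.continuousAt_iff'.1 (hψc t h2) _ (by positivity)
      obtain ⟨δ, hδ, hball⟩ := Metric.eventually_nhds_iff.1 (e1.and (e2.and e3))
      refine ⟨δ / 2, by positivity, fun _ s hs => hball ?_⟩
      rw [Real.dist_eq, abs_lt]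
      constructor
      · linarith [hs.1]
      · linarith [hs.2]
    · exact ⟨1, one_pos, fun h => absurd h ht⟩
  choose δ hδ0 hδ using hex
  have hinjt : ∀ t ∈ F c₀, Set.InjOn v (Set.Icc (t - δ t) (t + δ t)) :=
    fun t ht => hinj _ _ fun s hs => (hδ t ht s hs).2.1
  have hnear : ∀ t ∈ F c₀, v '' Set.Icc (t - δ t) (t + δ t) ∈ nhds c₀ := by
    intro t ht
    have hvt : v t = c₀ := ((hFmem c₀ t).1 ht).2.2
    have h0 := hδ0 t
    have hle : t - δ t ≤ t + δ t := by linarith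
    have m1 : t - δ t ∈ Set.Icc (t - δ t) (t + δ t) := ⟨le_rfl, hle⟩
    have m2 : t + δ t ∈ Set.Icc (t - δ t) (t + δ t) := ⟨hle, le_rfl⟩
    have m3 : t ∈ Set.Icc (t - δ t) (t + δ t) := ⟨by linarith, by linarith⟩
    rcases hvc.continuousOn.strictMonoOn_of_injOn_Icc' hle (hinjt t ht) with h1 | h1
    · have h2 : v (t - δ t) < c₀ := by rw [← hvt]; exact h1 m1 m3 (by linarith)
      have h3 : c₀ < v (t + δ t) := by rw [← hvt]; exact h1 m3 m2 (by linarith)
      exact Filter.mem_of_superset (Icc_mem_nhds h2 h3)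
        (intermediate_value_Icc hle hvc.continuousOn)
    · have h2 : v (t + δ t) < c₀ := by rw [← hvt]; exact h1 m3 m2 (by linarith)
      have h3 : c₀ < v (t - δ t) := by rw [← hvt]; exact h1 m1 m3 (by linarith)
      exact Filter.mem_of_superset (Icc_mem_nhds h2 h3)
        (intermediate_value_Icc' hle hvc.continuousOn)
  set Kc : Set ℝ := Set.Icc a b \ ⋃ t ∈ F c₀, Set.Ioo (t - δ t) (t + δ t) with hKc
  have hKcomp : IsCompact Kc :=
    isCompact_Icc.diff (isOpen_biUnion fun t _ => isOpen_Ioo)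
  have hfar : (v '' Kc)ᶜ ∈ nhds c₀ := by
    refine (hKcomp.image hvc).isClosed.isOpen_compl.mem_nhds ?_
    rintro ⟨s, hs, hsc⟩
    apply hs.2
    have h1 : s ∈ F c₀ := by
      rw [hFmem]
      refine ⟨⟨lt_of_le_of_ne hs.1.1 fun h => ha (h ▸ hsc), hs.1.2⟩, ?_, hsc⟩
      intro hsZ
      exact hreg s hsc (hZ0 s hsZ)
    rw [Set.mem_iUnion₂]
    exact ⟨s, h1, by linarith [hδ0 s], by linarith [hδ0 s]⟩
  have hall : ∀ᶠ c in nhds c₀, ∀ t ∈ F c₀, c ∈ v '' Set.Icc (t - δ t) (t + δ t) :=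
    (Finset.eventually_all (F c₀)).2 hnear
  filter_upwards [hall, hfar] with c hc1 hc2
  choose! g hg using hc1
  have hFc : F c = (F c₀).image g := by
    ext s
    rw [Finset.mem_image]
    constructor
    · intro hs
      have hs' := (hFmem c s).1 hs
      have h1 : s ∈ ⋃ t ∈ F c₀, Set.Ioo (t - δ t) (t + δ t) := by
        by_contra hcon
        exact hc2 ⟨s, ⟨⟨hs'.1.1.le, hs'.1.2⟩, hcon⟩, hs'.2.2⟩
      rw [Set.mem_iUnion₂] at h1
      obtain ⟨t, ht, hst⟩ := h1
      exact ⟨t, ht, hinjt t ht (hg t ht).1 ⟨hst.1.le, hst.2.le⟩ ((hg t ht).2.trans hs'.2.2.symm)⟩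
    · rintro ⟨t, ht, rfl⟩
      rw [hFmem]
      have h1 := hδ t ht (g t) (hg t ht).1
      exact ⟨⟨h1.1.1, h1.1.2.le⟩, fun hZ' => h1.2.1 (hZ0 _ hZ'), (hg t ht).2⟩
  have hginj : Set.InjOn g (F c₀) := by
    have key : ∀ s ∈ F c₀, ∀ t ∈ F c₀, g s = g t → ¬ s < t := by
      intro s hs t ht hst hlt
      have h1 : v s = v t := ((hFmem c₀ s).1 hs).2.2.trans ((hFmem c₀ t).1 ht).2.2.symm
      obtain ⟨x, hx, hx0⟩ := exists_hasDerivAt_eq_zero hlt hvc.continuousOn h1 (fun t _ => hv t)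
      have g1 := (hg s hs).1
      have g2 := (hg t ht).1
      rw [← hst] at g2
      by_cases hxg : x ≤ g s
      · exact (hδ s hs x ⟨by linarith [hx.1, hδ0 s], hxg.trans g1.2⟩).2.1 hx0
      · push Not at hxg
        exact (hδ t ht x ⟨by linarith [g2.1], by linarith [hx.2, hδ0 t]⟩).2.1 hx0
    intro s hs t ht hst
    rcases lt_trichotomy s t with h1 | h1 | h1
    · exact absurd h1 (key s hs t ht hst)
    · exact h1
    · exact absurd h1 (key t ht s hs hst.symm)
  rw [hfib c, hfib c₀, hFc, Finset.sum_image hginj, dist_eq_norm, ← Finset.sum_sub_distrib]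
  have h1 : ∀ t ∈ F c₀, ‖ψ (g t) - ψ t‖ ≤ η / ((F c₀).card + 1) := by
    intro t ht
    rw [← dist_eq_norm]
    exact (hδ t ht (g t) (hg t ht).1).2.2.le
  refine lt_of_le_of_lt (norm_sum_le_of_le _ h1) ?_
  rw [Finset.sum_const, nsmul_eq_mul, mul_div_assoc', div_lt_iff₀ (by positivity)]
  nlinarith

/-- If almost all the fibre sums are in a subspace, so are the fibre sums at regular levels. -/
theorem fib_mem [FiniteDimensional ℝ E] (hv : ∀ t, HasDerivAt v (h t) t) (hhc : Continuous h)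
    (hZ : ∀ t ∈ Set.Ioc a b, h t = 0 → t ∈ Z) (hZ0 : ∀ t ∈ Z, h t = 0) {φ : ℝ → E}
    (hφ : Continuous φ) {c₀ : ℝ} (hreg : ∀ t, v t = c₀ → h t ≠ 0) (ha : v a ≠ c₀)
    (hb : v b ≠ c₀) (W : Submodule ℝ E) (hW : ∀ᵐ c, fib v h φ a b Z c ∈ W) :
    fib v h φ a b Z c₀ ∈ W := by
  have h1 := (continuousAt_fib hv hhc hZ hZ0 hφ hreg ha hb).continuousWithinAt
    (s := {c | fib v h φ a b Z c ∈ W})
  have h2 : c₀ ∈ closure {c | fib v h φ a b Z c ∈ W} := (Measure.dense_of_ae hW) c₀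
  have h3 := h1.mem_closure h2 (t := (W : Set E)) (fun c hc => hc)
  rwa [W.closed_of_finiteDimensional.closure_eq] at h3

end Pool.CSH.Quad
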