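import Mathlib

/-!
# The integral of a vector valued function is a finite positive combination of its values
-/

open MeasureTheory Finset Module

namespace Pool.CSH.Quad

/-- If `M` takes its values in a finite dimensional space, its integral is a positive combination
of finitely many values of `M`, at points of a given set of full measure. Finitely many of the
points can be prescribed, if the values of `M` at these points are in every subspace which contains
almost all the values of `M`. -/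
theorem cone_integral {E : Type*} [NormedAddCommGroup E] [NormedSpace ℝ E]
    [FiniteDimensional ℝ E] {α : Type*} [DecidableEq α] [MeasurableSpace α] (μ : Measure α)
    (M : α → E) (hM : Integrable M μ) (A : Set α) (hA : ∀ᵐ x ∂μ, x ∈ A) (C : Finset α)
    (hCA : ∀ x ∈ C, x ∈ A)
    (hC : ∀ x ∈ C, ∀ W : Submodule ℝ E, (∀ᵐ x ∂μ, M x ∈ W) → M x ∈ W) :
    ∃ (s : Finset α) (w : α → ℝ), C ⊆ s ∧ (∀ x ∈ s, x ∈ A) ∧ (∀ x ∈ s, 0 < w x) ∧
      ∑ x ∈ s, w x • M x = ∫ x, M x ∂μ := by
  classical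
  -- the minimal subspace
  have hex : ∃ n : ℕ, ∃ W : Submodule ℝ E, (∀ᵐ x ∂μ, M x ∈ W) ∧ finrank ℝ W = n :=
    ⟨_, ⊤, by simp, rfl⟩
  obtain ⟨W, hW, hWn⟩ := Nat.find_spec hex
  have hmin : ∀ W' : Submodule ℝ E, (∀ᵐ x ∂μ, M x ∈ W') → finrank ℝ W ≤ finrank ℝ W' := by
    intro W' hW'
    rw [hWn]
    exact Nat.find_min' hex ⟨W', hW', rfl⟩
  obtain ⟨p₀, hp₀⟩ := LinearMap.exists_leftInverse_of_injective W.subtype W.ker_subtype
  set p : E →L[ℝ] W := LinearMap.toContinuousLinearMap p₀ with hp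
  have hpW : ∀ w : W, p (w : E) = w := fun w => LinearMap.congr_fun hp₀ w
  set M' : α → W := fun x => p (M x) with hM'
  have hM'int : Integrable M' μ := p.integrable_comp hM
  set A' : Set α := {x | x ∈ A ∧ M x ∈ W} with hA'
  have hA'ae : ∀ᵐ x ∂μ, x ∈ A' := by
    filter_upwards [hA, hW] with x h1 h2 using ⟨h1, h2⟩
  have hMA' : ∀ x ∈ A', (M' x : E) = M x := by
    intro x hx
    have := hpW ⟨M x, hx.2⟩
    exact congrArg Subtype.val this
  have hint : ((∫ x, M' x ∂μ : W) : E) = ∫ x, M x ∂μ := by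
    have h1 := W.subtypeL.integral_comp_comm hM'int
    have h2 : ∫ x, W.subtypeL (M' x) ∂μ = ∫ x, M x ∂μ := by
      apply integral_congr_ae
      filter_upwards [hA'ae] with x hx using hMA' x hx
    rw [← h2, h1]
    rfl
  -- the cone
  set K₀ : Submodule NNReal W := Submodule.span NNReal (M' '' A') with hK₀
  set K : Set W := (K₀ : Set W) with hK
  have hKconv : Convex ℝ K := by
    intro x hx y hy a b ha hb _
    exact K₀.add_mem (K₀.smul_mem (⟨a, ha⟩ : NNReal) hx) (K₀.smul_mem (⟨b, hb⟩ : NNReal) hy)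
  have hK0 : (0 : W) ∈ K := K₀.zero_mem
  have hKM : ∀ x ∈ A', M' x ∈ K := fun x hx => Submodule.subset_span ⟨x, hx, rfl⟩
  have hspan : Submodule.span ℝ (M' '' A') = ⊤ := by
    have h1 : ∀ᵐ x ∂μ, M x ∈ (Submodule.span ℝ (M' '' A')).map W.subtype := by
      filter_upwards [hA'ae] with x hx
      exact ⟨M' x, Submodule.subset_span ⟨x, hx, rfl⟩, hMA' x hx⟩
    have h2 := hmin _ h1
    rw [Submodule.finrank_map_subtype_eq] at h2
    exact Submodule.eq_top_of_finrank_eq (le_antisymm (Submodule.finrank_le _) h2)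
  have hKint : (interior K).Nonempty := by
    rw [hKconv.interior_nonempty_iff_affineSpan_eq_top]
    rw [← AffineSubspace.direction_eq_top_iff_of_nonempty
      ⟨0, subset_affineSpan ℝ K hK0⟩, direction_affineSpan, eq_top_iff, ← hspan,
      Submodule.span_le]
    rintro _ ⟨x, hx, rfl⟩
    have := vsub_mem_vectorSpan ℝ (hKM x hx) hK0
    simpa using this
  have hmem : (∫ x, M' x ∂μ) ∈ interior K := by
    by_contra hcon
    obtain ⟨f, hf0, hf⟩ := geometric_hahn_banach_of_nonempty_interior_point hKconv hcon hKint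
    have h0 : 0 ≤ f (∫ x, M' x ∂μ) := by simpa using hf 0 hK0
    have h1 : ∀ a ∈ K, f a ≤ 0 := by
      intro a ha
      by_contra hpos
      push Not at hpos
      have h2 := hf (((f (∫ x, M' x ∂μ) + 1) / f a) • a)
        (K₀.smul_mem (⟨(f (∫ x, M' x ∂μ) + 1) / f a, by positivity⟩ : NNReal) ha)
      rw [map_smul, smul_eq_mul, div_mul_cancel₀ _ hpos.ne'] at h2
      linarith
    have h2 : ∫ x, f (M' x) ∂μ = f (∫ x, M' x ∂μ) := f.integral_comp_comm hM'int
    have h3 : ∀ᵐ x ∂μ, 0 ≤ - f (M' x) := by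
      filter_upwards [hA'ae] with x hx
      have := h1 _ (hKM x hx)
      linarith
    have h4 : ∫ x, - f (M' x) ∂μ = 0 := by
      have h5 : 0 ≤ ∫ x, - f (M' x) ∂μ := integral_nonneg_of_ae h3
      rw [integral_neg, h2] at h5 ⊢
      linarith
    have h5 := (integral_eq_zero_iff_of_nonneg_ae h3
      (f.integrable_comp hM'int).neg).1 h4
    have h6 : ∀ᵐ x ∂μ, M x ∈ (LinearMap.ker (f : W →ₗ[ℝ] ℝ)).map W.subtype := by
      filter_upwards [hA'ae, h5] with x hx h7
      refine ⟨M' x, ?_, hMA' x hx⟩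
      have h8 : - f (M' x) = 0 := h7
      exact neg_eq_zero.1 h8
    have h7 := hmin _ h6
    rw [Submodule.finrank_map_subtype_eq] at h7
    have h8 : LinearMap.ker (f : W →ₗ[ℝ] ℝ) = ⊤ :=
      Submodule.eq_top_of_finrank_eq (le_antisymm (Submodule.finrank_le _) h7)
    apply hf0
    ext w
    have : w ∈ LinearMap.ker (f : W →ₗ[ℝ] ℝ) := by rw [h8]; trivial
    exact this
  -- subtract the prescribed points
  obtain ⟨ε, hε0, hε⟩ : ∃ ε : ℝ, 0 < ε ∧ (∫ x, M' x ∂μ) - ε • ∑ x ∈ C, M' x ∈ K := by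
    have hcont : Continuous fun ε : ℝ => (∫ x, M' x ∂μ) - ε • ∑ x ∈ C, M' x := by fun_prop
    have hop : IsOpen {ε : ℝ | (∫ x, M' x ∂μ) - ε • ∑ x ∈ C, M' x ∈ interior K} :=
      isOpen_interior.preimage hcont
    have h0 : (0 : ℝ) ∈ {ε : ℝ | (∫ x, M' x ∂μ) - ε • ∑ x ∈ C, M' x ∈ interior K} := by
      simpa using hmem
    obtain ⟨δ, hδ, hball⟩ := Metric.isOpen_iff.1 hop 0 h0
    refine ⟨δ / 2, by positivity, interior_subset (hball ?_)⟩
    rw [Metric.mem_ball, dist_zero_right, Real.norm_eq_abs, abs_of_pos (by positivity)]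
    linarith
  have hmem' : (∫ x, M' x ∂μ) - ε • ∑ x ∈ C, M' x ∈ Submodule.span NNReal (M' '' A') := hε
  rw [Submodule.mem_span_set'] at hmem'
  obtain ⟨n, c, g, hcg⟩ := hmem'
  choose x hx using fun i => (g i).2
  have hCA' : ∀ x ∈ C, x ∈ A' := fun x hx => ⟨hCA x hx, hC x hx W hW⟩
  have hsum : ∑ i, (c i : ℝ) • M (x i) + ε • ∑ x ∈ C, M x = ∫ x, M x ∂μ := by
    have h1 : ((∑ i, c i • (g i : W) : W) : E) = ∑ i, (c i : ℝ) • M (x i) := by
      push_cast
      refine Finset.sum_congr rfl fun i _ => ?_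
      rw [← hMA' (x i) (hx i).1, (hx i).2]
      rfl
    have h2 : ((∑ x ∈ C, M' x : W) : E) = ∑ x ∈ C, M x := by
      push_cast
      exact Finset.sum_congr rfl fun y hy => hMA' y (hCA' y hy)
    rw [← hint, ← h1, ← h2, hcg]
    push_cast
    abel
  set w : α → ℝ := fun a => ∑ i ∈ univ.filter (fun i => x i = a), (c i : ℝ) +
    (if a ∈ C then ε else 0) with hw
  have hw1 : ∀ a, 0 ≤ ∑ i ∈ univ.filter (fun i => x i = a), (c i : ℝ) :=
    fun a => Finset.sum_nonneg fun i _ => (c i).2
  have hw0 : ∀ a, 0 ≤ w a := by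
    intro a
    rw [hw]
    simp only
    have := hw1 a
    split_ifs <;> positivity
  refine ⟨(univ.image x ∪ C).filter (fun a => 0 < w a), w, ?_, ?_, ?_, ?_⟩
  · intro a ha
    rw [Finset.mem_filter]
    refine ⟨Finset.mem_union_right _ ha, ?_⟩
    rw [hw]
    simp only
    rw [if_pos ha]
    have := hw1 a
    positivity
  · intro a ha
    rw [Finset.mem_filter, Finset.mem_union, Finset.mem_image] at ha
    obtain ⟨h | h, _⟩ := ha
    · obtain ⟨i, _, rfl⟩ := h
      exact (hx i).1.1
    · exact hCA a h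
  · intro a ha
    exact (Finset.mem_filter.1 ha).2
  · rw [Finset.sum_filter_of_ne]
    · rw [← hsum]
      have h1 : ∑ i, (c i : ℝ) • M (x i) = ∑ a ∈ univ.image x ∪ C,
          (∑ i ∈ univ.filter (fun i => x i = a), (c i : ℝ)) • M a := by
        rw [← Finset.sum_fiberwise_of_maps_to (g := x) (t := univ.image x ∪ C)
          (fun i _ => Finset.mem_union_left _ (Finset.mem_image_of_mem _ (mem_univ i)))]
        refine Finset.sum_congr rfl fun a _ => ?_
        rw [Finset.sum_smul]
        refine Finset.sum_congr rfl fun i hi => ?_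
        rw [(Finset.mem_filter.1 hi).2]
      have h2 : ε • ∑ x ∈ C, M x = ∑ a ∈ univ.image x ∪ C, (if a ∈ C then ε else 0) • M a := by
        rw [Finset.smul_sum, ← Finset.sum_subset (Finset.subset_union_right (s₁ := univ.image x))]
        · refine Finset.sum_congr rfl fun a ha => ?_
          rw [if_pos ha]
        · intro a _ ha
          rw [if_neg ha, zero_smul]
      rw [h1, h2, ← Finset.sum_add_distrib]
      refine Finset.sum_congr rfl fun a _ => ?_
      rw [hw]
      simp only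
      rw [add_smul]
    · intro a _ hne
      rcases (hw0 a).lt_or_eq with h | h
      · exact h
      · exfalso
        apply hne
        rw [← h, zero_smul]

end Pool.CSH.Quad
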