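import Mathlib

/-!
# Exact quadrature, analytic part

`L' = P` is a polynomial without zeros in the closed disc; `τ` is a probability measure with
finite support on the circle whose moments of order `1, …, D` vanish. The function
`G z = ∑ a, 2 τ a Re (a P a) / (a - z)` has the same first Taylor coefficients as `P`, has no
zeros in the disc, has at most simple zeros on the circle, and is equal to `P` at the
points of the circle where `Re (z P z) = 0`.
-/

open Finset Polynomial ComplexConjugate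

namespace Pool.CSH.Quad

/-- `τ` is a probability measure on the circle, with support `S`, whose moments of order
`1, …, D` vanish. -/
structure Exact (S : Finset ℂ) (τ : ℂ → ℝ) (D : ℕ) : Prop where
  norm : ∀ a ∈ S, ‖a‖ = 1
  pos : ∀ a ∈ S, 0 < τ a
  sum : ∑ a ∈ S, τ a = 1
  moment : ∀ k : ℕ, 1 ≤ k → k ≤ D → ∑ a ∈ S, (τ a : ℂ) * a ^ k = 0

/-- The Cauchy transform of `τ`. -/
noncomputable def T (S : Finset ℂ) (τ : ℂ → ℝ) (z : ℂ) : ℂ := ∑ a ∈ S, (τ a : ℂ) / (a - z)

/-- The remainder of the Cauchy transform of `τ`. -/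
noncomputable def T1 (S : Finset ℂ) (τ : ℂ → ℝ) (D : ℕ) (z : ℂ) : ℂ :=
  ∑ a ∈ S, (τ a : ℂ) * (a ^ D)⁻¹ / (a - z)

/-- The coefficient at the node `a`. -/
noncomputable def cf (τ : ℂ → ℝ) (P : ℂ[X]) (a : ℂ) : ℝ := 2 * τ a * (a * P.eval a).re

/-- The function `G`. -/
noncomputable def G (S : Finset ℂ) (τ : ℂ → ℝ) (P : ℂ[X]) (z : ℂ) : ℂ :=
  ∑ a ∈ S, (cf τ P a : ℂ) / (a - z)

/-- The reversed conjugate polynomial. -/
noncomputable def R (P : ℂ[X]) (z : ℂ) : ℂ :=
  ∑ k ∈ range (P.natDegree + 1), conj (P.coeff k) * z ^ (P.natDegree - k)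

variable {S : Finset ℂ} {τ : ℂ → ℝ} {D : ℕ} {P : ℂ[X]}

lemma inv_eq_conj {a : ℂ} (ha : ‖a‖ = 1) : a⁻¹ = conj a := by
  rw [Complex.inv_def, Complex.normSq_eq_norm_sq, ha]
  simp

lemma ne_zero_of_norm {a : ℂ} (ha : ‖a‖ = 1) : a ≠ 0 := by
  intro h
  rw [h, norm_zero] at ha
  exact zero_ne_one ha

lemma Exact.sumC (h : Exact S τ D) : ∑ a ∈ S, (τ a : ℂ) = 1 := by
  have := h.sum
  exact_mod_cast this

lemma Exact.inv_moment (h : Exact S τ D) {k : ℕ} (h1 : 1 ≤ k) (h2 : k ≤ D) :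
    ∑ a ∈ S, (τ a : ℂ) * (a ^ k)⁻¹ = 0 := by
  have h3 := congrArg conj (h.moment k h1 h2)
  rw [map_sum, map_zero] at h3
  rw [← h3]
  refine Finset.sum_congr rfl fun a ha => ?_
  rw [map_mul, Complex.conj_ofReal, map_pow, ← inv_eq_conj (h.norm a ha), inv_pow]

lemma geom1 {a z : ℂ} (haz : a - z ≠ 0) (k : ℕ) :
    a ^ k / (a - z) = ∑ i ∈ range k, a ^ i * z ^ (k - 1 - i) + z ^ k / (a - z) := by
  have h := (Commute.all a z).mul_geom_sum₂ k
  rw [div_eq_iff haz, add_mul, div_mul_cancel₀ _ haz]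
  linear_combination -h

lemma geom2 {a z : ℂ} (ha : a ≠ 0) (haz : a - z ≠ 0) (k : ℕ) :
    1 / (a - z) = ∑ m ∈ range k, z ^ m * (a ^ (m + 1))⁻¹ + z ^ k * (a ^ k)⁻¹ / (a - z) := by
  induction k with
  | zero => simp
  | succ k ih =>
    rw [ih, Finset.sum_range_succ, add_assoc]
    congr 1
    field_simp
    ring

/-- The positive powers. -/
lemma Exact.pos_pow (h : Exact S τ D) {z : ℂ} (hz : ∀ a ∈ S, a - z ≠ 0) {k : ℕ} (hk : k ≤ D) :
    ∑ a ∈ S, (τ a : ℂ) * a ^ (k + 1) / (a - z) = z ^ k * (1 + z * T S τ z) := by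
  have h1 : ∀ a ∈ S, (τ a : ℂ) * a ^ (k + 1) / (a - z) =
      ∑ i ∈ range (k + 1), ((τ a : ℂ) * a ^ i) * z ^ (k - i) + z ^ (k + 1) * ((τ a : ℂ) / (a - z)) := by
    intro a ha
    rw [mul_div_assoc, geom1 (hz a ha) (k + 1), mul_add, Finset.mul_sum]
    congr 1
    · refine Finset.sum_congr rfl fun i _ => ?_
      rw [Nat.add_sub_cancel, mul_assoc]
    · ring
  rw [Finset.sum_congr rfl h1, Finset.sum_add_distrib, ← Finset.mul_sum, Finset.sum_comm]
  have h2 : ∀ i ∈ range (k + 1), ∑ a ∈ S, (τ a : ℂ) * a ^ i * z ^ (k - i) =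
      if i = 0 then z ^ k else 0 := by
    intro i hi
    rw [← Finset.sum_mul]
    by_cases h0 : i = 0
    · subst h0
      simp [h.sumC]
    · rw [h.moment i (Nat.one_le_iff_ne_zero.2 h0)
        ((Nat.lt_succ_iff.1 (Finset.mem_range.1 hi)).trans hk), zero_mul, if_neg h0]
  rw [Finset.sum_congr rfl h2, Finset.sum_ite_eq' (range (k + 1)) 0,
    if_pos (Finset.mem_range.2 (Nat.succ_pos k))]
  unfold T
  ring

/-- The negative powers. -/
lemma Exact.neg_pow (h : Exact S τ D) {z : ℂ} (hz : ∀ a ∈ S, a - z ≠ 0) {k : ℕ} (hk : k ≤ D) :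
    ∑ a ∈ S, (τ a : ℂ) * (a ^ k)⁻¹ / (a - z) = z ^ (D - k) * T1 S τ D z := by
  have h1 : ∀ a ∈ S, (τ a : ℂ) * (a ^ k)⁻¹ / (a - z) =
      ∑ m ∈ range (D - k), z ^ m * ((τ a : ℂ) * (a ^ (m + 1 + k))⁻¹) +
        z ^ (D - k) * ((τ a : ℂ) * (a ^ D)⁻¹ / (a - z)) := by
    intro a ha
    have ha0 := ne_zero_of_norm (h.norm a ha)
    rw [div_eq_mul_one_div, geom2 ha0 (hz a ha) (D - k), mul_add, Finset.mul_sum]
    congr 1
    · refine Finset.sum_congr rfl fun m _ => ?_
      rw [pow_add a (m + 1) k, mul_inv]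
      ring
    · have h2 : a ^ D = a ^ (D - k) * a ^ k := by rw [← pow_add, Nat.sub_add_cancel hk]
      rw [h2, mul_inv]
      ring
  rw [Finset.sum_congr rfl h1, Finset.sum_add_distrib, ← Finset.mul_sum, Finset.sum_comm]
  have h2 : ∀ m ∈ range (D - k), ∑ a ∈ S, z ^ m * ((τ a : ℂ) * (a ^ (m + 1 + k))⁻¹) = 0 := by
    intro m hm
    rw [← Finset.mul_sum, h.inv_moment (by omega) (by have := Finset.mem_range.1 hm; omega),
      mul_zero]
  rw [Finset.sum_congr rfl h2, Finset.sum_const_zero, zero_add]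
  rfl

lemma Exact.T_eq (h : Exact S τ D) {z : ℂ} (hz : ∀ a ∈ S, a - z ≠ 0) :
    T S τ z = z ^ D * T1 S τ D z := by
  have := h.neg_pow hz (Nat.zero_le D)
  simpa [T] using this

/-- The coefficient `cf`. -/
lemma cf_eq (h : Exact S τ D) {a : ℂ} (ha : a ∈ S) :
    (cf τ P a : ℂ) = ∑ k ∈ range (P.natDegree + 1), P.coeff k * ((τ a : ℂ) * a ^ (k + 1)) +
      ∑ k ∈ range (P.natDegree + 1), conj (P.coeff k) * ((τ a : ℂ) * (a ^ (k + 1))⁻¹) := by
  have h1 : ((a * P.eval a).re : ℂ) = (a * P.eval a + conj (a * P.eval a)) / 2 := by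
    rw [Complex.add_conj]
    push_cast
    ring
  unfold cf
  push_cast
  rw [h1, map_mul, Polynomial.eval_eq_sum_range, map_sum, Finset.mul_sum, Finset.mul_sum]
  have h2 : ∀ x y : ℂ, 2 * (τ a : ℂ) * ((x + y) / 2) = (τ a : ℂ) * x + (τ a : ℂ) * y := by
    intro x y; ring
  rw [h2, Finset.mul_sum, Finset.mul_sum]
  congr 1
  · refine Finset.sum_congr rfl fun k _ => ?_
    ring
  · refine Finset.sum_congr rfl fun k _ => ?_
    rw [map_mul, map_pow, ← inv_eq_conj (h.norm a ha), inv_pow, pow_succ, mul_inv]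
    ring

/-- The factorisation of `G`. -/
theorem G_eq (h : Exact S τ D) (hD : P.natDegree + 3 ≤ D) {z : ℂ} (hz : ∀ a ∈ S, a - z ≠ 0) :
    G S τ P z = P.eval z * (1 + z * T S τ z) +
      z ^ (D - P.natDegree - 1) * R P z * T1 S τ D z := by
  unfold G
  have h1 : ∀ a ∈ S, (cf τ P a : ℂ) / (a - z) =
      ∑ k ∈ range (P.natDegree + 1), P.coeff k * ((τ a : ℂ) * a ^ (k + 1) / (a - z)) +
      ∑ k ∈ range (P.natDegree + 1),
        conj (P.coeff k) * ((τ a : ℂ) * (a ^ (k + 1))⁻¹ / (a - z)) := by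
    intro a ha
    rw [cf_eq h ha, add_div, Finset.sum_div, Finset.sum_div]
    congr 1
    · exact Finset.sum_congr rfl fun k _ => mul_div_assoc _ _ _
    · exact Finset.sum_congr rfl fun k _ => mul_div_assoc _ _ _
  rw [Finset.sum_congr rfl h1, Finset.sum_add_distrib, Finset.sum_comm, Finset.sum_comm (s := S)]
  congr 1
  · rw [Polynomial.eval_eq_sum_range, Finset.sum_mul]
    refine Finset.sum_congr rfl fun k hk => ?_
    rw [← Finset.mul_sum, h.pos_pow hz (by have := Finset.mem_range.1 hk; omega)]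
    ring
  · unfold R
    rw [Finset.mul_sum, Finset.sum_mul]
    refine Finset.sum_congr rfl fun k hk => ?_
    have hk' := Finset.mem_range.1 hk
    rw [← Finset.mul_sum, h.neg_pow hz (by omega)]
    have : D - (k + 1) = (D - P.natDegree - 1) + (P.natDegree - k) := by omega
    rw [this, pow_add]
    ring

/-- The sum of the coefficients vanishes. -/
theorem sum_cf (h : Exact S τ D) (hD : P.natDegree + 3 ≤ D) : ∑ a ∈ S, cf τ P a = 0 := by
  have h1 : ∑ a ∈ S, (cf τ P a : ℂ) = 0 := by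
    rw [Finset.sum_congr rfl fun a ha => cf_eq h ha, Finset.sum_add_distrib, Finset.sum_comm,
      Finset.sum_comm (s := S)]
    have h2 : ∀ k ∈ range (P.natDegree + 1),
        ∑ a ∈ S, P.coeff k * ((τ a : ℂ) * a ^ (k + 1)) = 0 := by
      intro k hk
      have hk' := Finset.mem_range.1 hk
      rw [← Finset.mul_sum, h.moment (k + 1) (by omega) (by omega), mul_zero]
    have h3 : ∀ k ∈ range (P.natDegree + 1),
        ∑ a ∈ S, conj (P.coeff k) * ((τ a : ℂ) * (a ^ (k + 1))⁻¹) = 0 := by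
      intro k hk
      have hk' := Finset.mem_range.1 hk
      rw [← Finset.mul_sum, h.inv_moment (by omega) (by omega), mul_zero]
    rw [Finset.sum_congr rfl h2, Finset.sum_congr rfl h3]
    simp
  exact_mod_cast h1

/-- The Taylor coefficients of `G` of small order. -/
theorem sum_cf_inv_pow (h : Exact S τ D) (hD : P.natDegree + 3 ≤ D) {m : ℕ}
    (hm : P.natDegree + m + 2 ≤ D) :
    ∑ a ∈ S, (cf τ P a : ℂ) * (a ^ (m + 1))⁻¹ = P.coeff m := by
  have h1 : ∀ a ∈ S, (cf τ P a : ℂ) * (a ^ (m + 1))⁻¹ =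
      ∑ k ∈ range (P.natDegree + 1), P.coeff k * ((τ a : ℂ) * (a ^ (k + 1) * (a ^ (m + 1))⁻¹)) +
      ∑ k ∈ range (P.natDegree + 1),
        conj (P.coeff k) * ((τ a : ℂ) * (a ^ (k + m + 2))⁻¹) := by
    intro a ha
    rw [cf_eq h ha, add_mul, Finset.sum_mul, Finset.sum_mul]
    congr 1
    · exact Finset.sum_congr rfl fun k _ => by ring
    · refine Finset.sum_congr rfl fun k _ => ?_
      have : k + m + 2 = (k + 1) + (m + 1) := by ring
      rw [this, pow_add, mul_inv]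
      ring
  rw [Finset.sum_congr rfl h1, Finset.sum_add_distrib, Finset.sum_comm, Finset.sum_comm (s := S)]
  have h2 : ∀ k ∈ range (P.natDegree + 1),
      ∑ a ∈ S, P.coeff k * ((τ a : ℂ) * (a ^ (k + 1) * (a ^ (m + 1))⁻¹)) =
      if k = m then P.coeff m else 0 := by
    intro k hk
    have hk' := Finset.mem_range.1 hk
    rw [← Finset.mul_sum]
    rcases lt_trichotomy k m with hlt | heq | hgt
    · rw [if_neg hlt.ne]
      have h3 : ∀ a ∈ S, (τ a : ℂ) * (a ^ (k + 1) * (a ^ (m + 1))⁻¹) =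
          (τ a : ℂ) * (a ^ (m - k))⁻¹ := by
        intro a ha
        have ha0 := ne_zero_of_norm (h.norm a ha)
        have : m + 1 = (m - k) + (k + 1) := by omega
        rw [this, pow_add a (m - k) (k + 1), mul_inv, mul_left_comm (a ^ (k + 1)),
          mul_inv_cancel₀ (pow_ne_zero _ ha0), mul_one]
      rw [Finset.sum_congr rfl h3, h.inv_moment (by omega) (by omega), mul_zero]
    · rw [if_pos heq, heq]
      have h3 : ∀ a ∈ S, (τ a : ℂ) * (a ^ (m + 1) * (a ^ (m + 1))⁻¹) = (τ a : ℂ) := by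
        intro a ha
        have ha0 := ne_zero_of_norm (h.norm a ha)
        rw [mul_inv_cancel₀ (pow_ne_zero _ ha0), mul_one]
      rw [Finset.sum_congr rfl h3, h.sumC, mul_one]
    · rw [if_neg hgt.ne']
      have h3 : ∀ a ∈ S, (τ a : ℂ) * (a ^ (k + 1) * (a ^ (m + 1))⁻¹) =
          (τ a : ℂ) * a ^ (k - m) := by
        intro a ha
        have ha0 := ne_zero_of_norm (h.norm a ha)
        have : k + 1 = (k - m) + (m + 1) := by omega
        rw [this, pow_add a (k - m) (m + 1), mul_assoc (a ^ (k - m)),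
          mul_inv_cancel₀ (pow_ne_zero _ ha0), mul_one]
      rw [Finset.sum_congr rfl h3, h.moment _ (by omega) (by omega), mul_zero]
  have h3 : ∀ k ∈ range (P.natDegree + 1),
      ∑ a ∈ S, conj (P.coeff k) * ((τ a : ℂ) * (a ^ (k + m + 2))⁻¹) = 0 := by
    intro k hk
    have hk' := Finset.mem_range.1 hk
    rw [← Finset.mul_sum, h.inv_moment (by omega) (by omega), mul_zero]
  rw [Finset.sum_congr rfl h2, Finset.sum_congr rfl h3, Finset.sum_const_zero, add_zero,
    Finset.sum_ite_eq']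
  by_cases hmn : m ∈ range (P.natDegree + 1)
  · rw [if_pos hmn]
  · rw [if_neg hmn]
    rw [Finset.mem_range, not_lt] at hmn
    exact (P.coeff_eq_zero_of_natDegree_lt (by omega)).symm

lemma R_eq {z : ℂ} (hz : ‖z‖ = 1) : R P z = z ^ P.natDegree * conj (P.eval z) := by
  have hz0 := ne_zero_of_norm hz
  unfold R
  rw [Polynomial.eval_eq_sum_range, map_sum, Finset.mul_sum]
  refine Finset.sum_congr rfl fun k hk => ?_
  have hk' := Finset.mem_range.1 hk
  rw [map_mul, map_pow, ← inv_eq_conj hz]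
  have h1 : z ^ P.natDegree = z ^ (P.natDegree - k) * z ^ k := by
    rw [← pow_add]; congr 1; omega
  rw [h1, inv_pow]
  have h2 : z ^ k * (z ^ k)⁻¹ = 1 := mul_inv_cancel₀ (pow_ne_zero _ hz0)
  linear_combination (-(z ^ (P.natDegree - k) * conj (P.coeff k))) * h2

/-- At the critical points of `Im L` the function `G` is equal to `P`. -/
theorem G_eq_of_re_eq_zero (h : Exact S τ D) (hD : P.natDegree + 3 ≤ D) {z : ℂ} (hz1 : ‖z‖ = 1)
    (hz : z ∉ S) (hre : (z * P.eval z).re = 0) : G S τ P z = P.eval z := by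
  have hz0 := ne_zero_of_norm hz1
  have hzS : ∀ a ∈ S, a - z ≠ 0 := by
    intro a ha h0
    rw [sub_eq_zero] at h0
    exact hz (h0 ▸ ha)
  have h1 := G_eq h hD hzS (P := P)
  have h2 : conj (P.eval z) = - (z ^ 2 * P.eval z) := by
    have h3 : conj (z * P.eval z) = - (z * P.eval z) := by
      have := Complex.add_conj (z * P.eval z)
      rw [hre] at this
      have h4 : z * P.eval z + conj (z * P.eval z) = 0 := by rw [this]; simp
      exact eq_neg_of_add_eq_zero_right h4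
    rw [map_mul, ← inv_eq_conj hz1, inv_mul_eq_iff_eq_mul₀ hz0] at h3
    rw [h3]
    ring
  have h3 : z ^ (D - P.natDegree - 1) * R P z * T1 S τ D z = - (P.eval z * (z * T S τ z)) := by
    rw [R_eq hz1, h2, h.T_eq hzS]
    have : D = (D - P.natDegree - 1) + P.natDegree + 1 := by omega
    have e : z ^ D = z ^ (D - P.natDegree - 1) * z ^ P.natDegree * z := by
      conv_lhs => rw [this]
      rw [pow_succ, pow_add]
    rw [e]
    ring
  rw [h1, h3]
  ring

/-! ### The lower bound -/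

lemma re_pos {a z : ℂ} (ha : ‖a‖ = 1) (hz : ‖z‖ < 1) : 0 < ((a + z) / (a - z)).re := by
  have haz : a - z ≠ 0 := by
    intro h
    rw [sub_eq_zero] at h
    rw [h] at ha
    linarith
  rw [Complex.div_re]
  have h1 : 0 < Complex.normSq (a - z) := Complex.normSq_pos.2 haz
  have h2 : a.re ^ 2 + a.im ^ 2 = 1 := by
    have := Complex.sq_norm a
    rw [ha, Complex.normSq_apply] at this
    nlinarith
  have h3 : z.re ^ 2 + z.im ^ 2 < 1 := by
    have := Complex.sq_norm z
    rw [Complex.normSq_apply] at this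
    nlinarith [norm_nonneg z]
  rw [← add_div]
  apply div_pos _ h1
  simp only [Complex.add_re, Complex.sub_re, Complex.add_im, Complex.sub_im]
  nlinarith

lemma Exact.sub_ne_zero (h : Exact S τ D) {z : ℂ} (hz : ‖z‖ < 1) : ∀ a ∈ S, a - z ≠ 0 := by
  intro a ha h0
  rw [_root_.sub_eq_zero] at h0
  have := h.norm a ha
  rw [h0] at this
  linarith

lemma Exact.re_Q_pos (h : Exact S τ D) {z : ℂ} (hz : ‖z‖ < 1) : 0 < (1 + 2 * (z * T S τ z)).re := by
  have h1 : 1 + 2 * (z * T S τ z) = ∑ a ∈ S, (τ a : ℂ) * ((a + z) / (a - z)) := by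
    rw [← h.sumC]
    unfold T
    rw [Finset.mul_sum, Finset.mul_sum, ← Finset.sum_add_distrib]
    refine Finset.sum_congr rfl fun a ha => ?_
    have := h.sub_ne_zero hz a ha
    field_simp
    ring
  rw [h1, Complex.re_sum]
  have hS : S.Nonempty := by
    by_contra hS
    rw [Finset.not_nonempty_iff_eq_empty] at hS
    have := h.sum
    rw [hS, Finset.sum_empty] at this
    exact zero_ne_one this
  refine Finset.sum_pos (fun a ha => ?_) hS
  rw [Complex.re_ofReal_mul]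
  exact mul_pos (h.pos a ha) (re_pos (h.norm a ha) hz)

lemma Exact.half_le (h : Exact S τ D) {z : ℂ} (hz : ‖z‖ < 1) : 1 / 2 ≤ ‖1 + z * T S τ z‖ := by
  have h1 := h.re_Q_pos hz
  have h2 : (1 + 2 * (z * T S τ z)).re = 2 * (1 + z * T S τ z).re - 1 := by
    simp only [Complex.add_re, Complex.one_re, Complex.mul_re, Complex.re_ofNat, Complex.im_ofNat]
    ring
  rw [h2] at h1
  have h3 := Complex.re_le_norm (1 + z * T S τ z)
  linarith

lemma Exact.norm_lt (h : Exact S τ D) {z : ℂ} (hz : ‖z‖ < 1) :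
    ‖z * T S τ z‖ ≤ ‖1 + z * T S τ z‖ := by
  have h1 := h.re_Q_pos hz
  set w := z * T S τ z with hw
  have h2 : (1 + 2 * w).re = 1 + 2 * w.re := by
    simp only [Complex.add_re, Complex.one_re, Complex.mul_re, Complex.re_ofNat, Complex.im_ofNat]
    ring
  rw [h2] at h1
  apply le_of_sq_le_sq _ (norm_nonneg _)
  rw [Complex.sq_norm, Complex.sq_norm, Complex.normSq_apply, Complex.normSq_apply]
  simp only [Complex.add_re, Complex.one_re, Complex.add_im, Complex.one_im]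
  nlinarith

lemma Exact.differentiableAt_T (h : Exact S τ D) {z : ℂ} (hz : ‖z‖ < 1) :
    DifferentiableAt ℂ (T S τ) z := by
  unfold T
  refine DifferentiableAt.fun_sum fun a ha => ?_
  exact (differentiableAt_const _).div ((differentiableAt_const _).sub differentiableAt_id)
    (h.sub_ne_zero hz a ha)

lemma Exact.differentiableAt_T1 (h : Exact S τ D) {z : ℂ} (hz : ‖z‖ < 1) :
    DifferentiableAt ℂ (T1 S τ D) z := by
  unfold T1
  refine DifferentiableAt.fun_sum fun a ha => ?_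
  exact (differentiableAt_const _).div ((differentiableAt_const _).sub differentiableAt_id)
    (h.sub_ne_zero hz a ha)

lemma Exact.T1_le (h : Exact S τ D) {z : ℂ} (hz : ‖z‖ < 1) :
    ‖T1 S τ D z‖ ≤ ‖1 + z * T S τ z‖ := by
  set g : ℂ → ℂ := fun z => T1 S τ D z / (1 + z * T S τ z) with hg
  have hden : ∀ z : ℂ, ‖z‖ < 1 → 1 + z * T S τ z ≠ 0 := by
    intro z hz h0
    have := h.half_le hz
    rw [h0, norm_zero] at this
    linarith
  have hdiff : ∀ z : ℂ, ‖z‖ < 1 → DifferentiableAt ℂ g z := by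
    intro z hz
    exact (h.differentiableAt_T1 hz).div
      ((differentiableAt_const _).add (differentiableAt_id.mul (h.differentiableAt_T hz)))
      (hden z hz)
  have key : ∀ r : ℝ, ‖z‖ < r → r < 1 → ‖g z‖ * r ^ (D + 1) ≤ 1 := by
    intro r hr1 hr2
    have hr0 : 0 < r := lt_of_le_of_lt (norm_nonneg z) hr1
    have hd : DiffContOnCl ℂ g (Metric.ball 0 r) := by
      apply DifferentiableOn.diffContOnCl
      intro w hw
      rw [closure_ball (0 : ℂ) hr0.ne'] at hw
      have : ‖w‖ < 1 := lt_of_le_of_lt (by simpa using hw) hr2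
      exact (hdiff w this).differentiableWithinAt
    have hfr : ∀ w ∈ frontier (Metric.ball (0 : ℂ) r), ‖g w‖ ≤ 1 / r ^ (D + 1) := by
      intro w hw
      rw [frontier_ball (0 : ℂ) hr0.ne'] at hw
      have hw' : ‖w‖ = r := by simpa using hw
      have hw1 : ‖w‖ < 1 := by rw [hw']; exact hr2
      have h1 := h.norm_lt hw1
      rw [h.T_eq (h.sub_ne_zero hw1)] at h1
      have h2 : ‖w * (w ^ D * T1 S τ D w)‖ = r ^ (D + 1) * ‖T1 S τ D w‖ := by
        rw [norm_mul, norm_mul, norm_pow, hw']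
        ring
      rw [h2, ← h.T_eq (h.sub_ne_zero hw1)] at h1
      rw [hg]
      simp only
      rw [norm_div, div_le_div_iff₀ (norm_pos_iff.2 (hden w hw1)) (by positivity)]
      linarith
    have := Complex.norm_le_of_forall_mem_frontier_norm_le Metric.isBounded_ball hd hfr
      (subset_closure (by simpa using hr1 : z ∈ Metric.ball (0 : ℂ) r))
    rwa [le_div_iff₀ (by positivity)] at this
  have h1 : ‖g z‖ ≤ 1 := by
    have hcl : IsClosed {r : ℝ | ‖g z‖ * r ^ (D + 1) ≤ 1} :=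
      isClosed_le (by fun_prop) continuous_const
    have hsub : Set.Ioo ‖z‖ 1 ⊆ {r : ℝ | ‖g z‖ * r ^ (D + 1) ≤ 1} := fun r hr => key r hr.1 hr.2
    have h2 := hcl.closure_subset_iff.2 hsub
    rw [closure_Ioo hz.ne] at h2
    have h3 := h2 (Set.right_mem_Icc.2 hz.le)
    simpa using h3
  rw [hg] at h1
  simp only at h1
  rwa [norm_div, div_le_one (norm_pos_iff.2 (hden z hz))] at h1

lemma R_le (hP : ∀ z : ℂ, ‖z‖ ≤ 1 → P.eval z ≠ 0) {z : ℂ} (hz : ‖z‖ ≤ 1) :
    ‖R P z‖ ≤ ‖P.eval z‖ := by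
  have hR : Differentiable ℂ (R P) := by
    unfold R
    fun_prop
  have hd : DiffContOnCl ℂ (fun z => R P z / P.eval z) (Metric.ball 0 1) := by
    apply DifferentiableOn.diffContOnCl
    intro w hw
    rw [closure_ball (0 : ℂ) one_ne_zero] at hw
    have hw' : ‖w‖ ≤ 1 := by simpa using hw
    exact ((hR w).div (P.differentiable w) (hP w hw')).differentiableWithinAt
  have h1 := Complex.norm_le_of_forall_mem_frontier_norm_le (C := 1) Metric.isBounded_ball hd
    (by
      intro w hw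
      rw [frontier_ball (0 : ℂ) one_ne_zero] at hw
      have hw' : ‖w‖ = 1 := by simpa using hw
      rw [norm_div, R_eq hw', norm_mul, norm_pow, hw', one_pow, one_mul, RCLike.norm_conj]
      exact div_self_le_one _)
    (by rw [closure_ball (0 : ℂ) one_ne_zero]; simpa using hz : z ∈ closure (Metric.ball (0 : ℂ) 1))
  rwa [norm_div, div_le_one (norm_pos_iff.2 (hP z hz))] at h1

/-- The lower bound for `G`: it has no zeros in the disc, and at most simple zeros on the circle. -/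
theorem G_lower (h : Exact S τ D) (hD : P.natDegree + 3 ≤ D)
    (hP : ∀ z : ℂ, ‖z‖ ≤ 1 → P.eval z ≠ 0) :
    ∃ m : ℝ, 0 < m ∧ ∀ z : ℂ, ‖z‖ < 1 → m * (1 - ‖z‖) ≤ ‖G S τ P z‖ := by
  obtain ⟨z₀, hz₀, hmin⟩ := (isCompact_closedBall (0 : ℂ) 1).exists_isMinOn
    ⟨0, by simp⟩ (P.continuous.norm.continuousOn)
  have hz₀' : ‖z₀‖ ≤ 1 := by simpa using hz₀
  refine ⟨‖P.eval z₀‖ / 2, by have := norm_pos_iff.2 (hP z₀ hz₀'); positivity, ?_⟩
  intro z hz
  have h0 : ‖P.eval z₀‖ ≤ ‖P.eval z‖ := hmin (by simpa using hz.le : z ∈ Metric.closedBall (0 : ℂ) 1)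
  rw [G_eq h hD (h.sub_ne_zero hz)]
  have h1 : ‖z ^ (D - P.natDegree - 1) * R P z * T1 S τ D z‖ ≤
      ‖z‖ * (‖P.eval z‖ * ‖1 + z * T S τ z‖) := by
    rw [norm_mul, norm_mul, norm_pow]
    have h2 : ‖z‖ ^ (D - P.natDegree - 1) ≤ ‖z‖ := by
      calc ‖z‖ ^ (D - P.natDegree - 1) ≤ ‖z‖ ^ 1 :=
            pow_le_pow_of_le_one (norm_nonneg z) hz.le (by omega)
        _ = ‖z‖ := pow_one _
    calc ‖z‖ ^ (D - P.natDegree - 1) * ‖R P z‖ * ‖T1 S τ D z‖
        ≤ ‖z‖ * ‖P.eval z‖ * ‖1 + z * T S τ z‖ := by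
          gcongr
          · exact R_le hP hz.le
          · exact h.T1_le hz
      _ = ‖z‖ * (‖P.eval z‖ * ‖1 + z * T S τ z‖) := by ring
  have h2 : ‖P.eval z * (1 + z * T S τ z)‖ -
      ‖z ^ (D - P.natDegree - 1) * R P z * T1 S τ D z‖ ≤
      ‖P.eval z * (1 + z * T S τ z) + z ^ (D - P.natDegree - 1) * R P z * T1 S τ D z‖ :=
    norm_sub_le_norm_add _ _
  rw [norm_mul] at h2
  have h3 := h.half_le hz
  have h4 : 0 ≤ 1 - ‖z‖ := by linarith
  calc ‖P.eval z₀‖ / 2 * (1 - ‖z‖) = ‖P.eval z₀‖ * (1 / 2) * (1 - ‖z‖) := by ring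
    _ ≤ ‖P.eval z‖ * ‖1 + z * T S τ z‖ * (1 - ‖z‖) := by gcongr
    _ ≤ _ := by linarith

end Pool.CSH.Quad
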