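import Pool.Agent.CSH.Defs
import Pool.Agent.CSH.Quad1
import Pool.Agent.CSH.Cone
import Pool.Agent.CSH.Coarea

/-!
# Exact quadrature
-/

set_option autoImplicit false

open MeasureTheory Finset Polynomial ComplexConjugate

namespace Pool.CSH.Quad

/-- The reversed conjugate polynomial. -/
noncomputable def Rp (P : ℂ[X]) : ℂ[X] :=
  ∑ k ∈ range (P.natDegree + 1), C (conj (P.coeff k)) * X ^ (P.natDegree - k)

lemma eval_Rp (P : ℂ[X]) (z : ℂ) : (Rp P).eval z = R P z := by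
  unfold Rp R
  rw [eval_finsetSum]
  refine Finset.sum_congr rfl fun k _ => ?_
  simp

lemma natDegree_Rp_le (P : ℂ[X]) : (Rp P).natDegree ≤ P.natDegree := by
  unfold Rp
  refine natDegree_sum_le_of_forall_le _ _ fun k _ => ?_
  exact (natDegree_C_mul_X_pow_le _ _).trans (Nat.sub_le _ _)

theorem crit_finite {P : ℂ[X]} (hP : P.eval 0 ≠ 0) :
    {a : ℂ | ‖a‖ = 1 ∧ (a * P.eval a).re = 0}.Finite := by
  set Q : ℂ[X] := X ^ (P.natDegree + 2) * P + Rp P with hQ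
  have hQ0 : Q ≠ 0 := by
    intro h0
    have h1 : Q.coeff (P.natDegree + 2) = 0 := by rw [h0, coeff_zero]
    rw [hQ, coeff_add, coeff_eq_zero_of_natDegree_lt (p := Rp P)
      (lt_of_le_of_lt (natDegree_Rp_le P) (by omega)), add_zero] at h1
    have h2 := coeff_X_pow_mul P (P.natDegree + 2) 0
    rw [zero_add] at h2
    rw [h2, coeff_zero_eq_eval_zero] at h1
    exact hP h1
  refine (Polynomial.finite_setOfPred_isRoot hQ0).subset ?_
  rintro a ⟨ha1, ha2⟩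
  have ha0 := ne_zero_of_norm ha1
  have h2 : conj (P.eval a) = - (a ^ 2 * P.eval a) := by
    have h3 : conj (a * P.eval a) = - (a * P.eval a) := by
      have := Complex.add_conj (a * P.eval a)
      rw [ha2] at this
      have h4 : a * P.eval a + conj (a * P.eval a) = 0 := by rw [this]; simp
      exact eq_neg_of_add_eq_zero_right h4
    rw [map_mul, ← inv_eq_conj ha1, inv_mul_eq_iff_eq_mul₀ ha0] at h3
    rw [h3]
    ring
  show Q.eval a = 0
  rw [hQ, eval_add, eval_mul, eval_pow, eval_X, eval_Rp, R_eq ha1, h2]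
  ring

theorem level_finite {L : ℂ[X]} (hL : L.derivative.eval 0 ≠ 0) (t : ℝ) :
    {a : ℂ | ‖a‖ = 1 ∧ (L.eval a).im = t}.Finite ∧
      {a : ℂ | ‖a‖ = 1 ∧ (L.eval a).im = t}.ncard ≤ 2 * L.natDegree := by
  classical
  set M : ℂ[X] := L - C (t * Complex.I) with hM
  have hMd : M.natDegree = L.natDegree := natDegree_sub_C
  set Q : ℂ[X] := X ^ M.natDegree * M - Rp M with hQ
  have hL1 : L.coeff 1 ≠ 0 := by
    intro h
    apply hL
    rw [← coeff_zero_eq_eval_zero, coeff_derivative, zero_add, h]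
    simp
  have hQ0 : Q ≠ 0 := by
    intro h0
    have h1 : Q.coeff (M.natDegree + 1) = 0 := by rw [h0, coeff_zero]
    rw [hQ, coeff_sub, coeff_eq_zero_of_natDegree_lt (p := Rp M)
      (lt_of_le_of_lt (natDegree_Rp_le M) (by omega)), sub_zero] at h1
    have h2 := coeff_X_pow_mul M M.natDegree 1
    rw [add_comm] at h2
    rw [h2, hM, coeff_sub, coeff_C_of_ne_zero one_ne_zero, sub_zero] at h1
    exact hL1 h1
  have hsub : {a : ℂ | ‖a‖ = 1 ∧ (L.eval a).im = t} ⊆ (Q.roots.toFinset : Set ℂ) := by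
    rintro a ⟨ha1, ha2⟩
    rw [Finset.mem_coe, Multiset.mem_toFinset, mem_roots hQ0]
    have h3 : conj (M.eval a) = M.eval a := by
      rw [Complex.conj_eq_iff_im, hM, eval_sub, eval_C, Complex.sub_im, ha2]
      simp
    show Q.eval a = 0
    rw [hQ, eval_sub, eval_mul, eval_pow, eval_X, eval_Rp, R_eq ha1, h3, sub_self]
  refine ⟨(Finset.finite_toSet _).subset hsub, ?_⟩
  have h1 := Set.ncard_le_ncard hsub (Finset.finite_toSet _)
  rw [Set.ncard_coe_finset] at h1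
  refine h1.trans ((Multiset.toFinset_card_le _).trans ((card_roots' Q).trans ?_))
  rw [hQ]
  refine (natDegree_sub_le _ _).trans (max_le ?_ ((natDegree_Rp_le M).trans (by omega)))
  refine natDegree_mul_le.trans ?_
  rw [natDegree_X_pow]
  omega

theorem Exact.card {S : Finset ℂ} {τ : ℂ → ℝ} {D : ℕ} (h : Exact S τ D) : D + 1 ≤ S.card := by
  by_contra hcon
  push Not at hcon
  set f : ℂ[X] := ∏ a ∈ S, (X - C a) with hf
  have hdeg : f.natDegree = S.card := natDegree_finsetProd_X_sub_C_eq_card S (fun a => a)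
  have h1 : ∑ a ∈ S, (τ a : ℂ) * f.eval a = 0 := by
    refine Finset.sum_eq_zero fun a ha => ?_
    rw [hf, eval_prod, Finset.prod_eq_zero ha (by simp), mul_zero]
  have h2 : ∑ a ∈ S, (τ a : ℂ) * f.eval a = f.coeff 0 := by
    have h3 : ∀ a ∈ S, (τ a : ℂ) * f.eval a =
        ∑ k ∈ range (f.natDegree + 1), f.coeff k * ((τ a : ℂ) * a ^ k) := by
      intro a _
      rw [eval_eq_sum_range, Finset.mul_sum]
      exact Finset.sum_congr rfl fun k _ => by ring
    rw [Finset.sum_congr rfl h3, Finset.sum_comm]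
    have h4 : ∀ k ∈ range (f.natDegree + 1), ∑ a ∈ S, f.coeff k * ((τ a : ℂ) * a ^ k) =
        if k = 0 then f.coeff 0 else 0 := by
      intro k hk
      rw [← Finset.mul_sum]
      by_cases h0 : k = 0
      · subst h0
        simp [h.sumC]
      · rw [h.moment k (by omega) (by have := Finset.mem_range.1 hk; omega), mul_zero, if_neg h0]
    rw [Finset.sum_congr rfl h4, Finset.sum_ite_eq' (range (f.natDegree + 1)) 0,
      if_pos (Finset.mem_range.2 (Nat.succ_pos _))]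
  rw [h1, coeff_zero_eq_eval_zero, hf, eval_prod] at h2
  have h3 := Finset.prod_eq_zero_iff.1 h2.symm
  obtain ⟨a, ha, ha0⟩ := h3
  have := ne_zero_of_norm (h.norm a ha)
  rw [eval_sub, eval_X, eval_C, zero_sub, neg_eq_zero] at ha0
  exact this ha0

/-- The zeros on the circle are simple. -/
theorem simple_of_lower {S : Finset ℂ} {c : ℂ → ℂ} {μ : ℝ} (hμ : 0 < μ)
    (hlow : ∀ z : ℂ, ‖z‖ < 1 → μ * (1 - ‖z‖) ≤ ‖∑ a ∈ S, c a / (a - z)‖) {z₀ : ℂ}
    (hz₀ : ‖z₀‖ = 1) (hS : ∀ a ∈ S, z₀ ≠ a) (h0 : ∑ a ∈ S, c a / (a - z₀) = 0) :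
    ∑ a ∈ S, c a / (a - z₀) ^ 2 ≠ 0 := by
  intro hd0
  have hd : HasDerivAt (fun z => ∑ a ∈ S, c a / (a - z)) (∑ a ∈ S, c a / (a - z₀) ^ 2) z₀ := by
    refine HasDerivAt.fun_sum fun a ha => ?_
    have haz : a - z₀ ≠ 0 := sub_ne_zero.2 (hS a ha).symm
    have h1 : HasDerivAt (fun z : ℂ => a - z) (-1) z₀ := by
      simpa using (hasDerivAt_id z₀).const_sub a
    have h2 := (h1.fun_inv haz).const_mul (c a)
    have e1 : c a * (- -1 / (a - z₀) ^ 2) = c a / (a - z₀) ^ 2 := by ring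
    have e2 : (fun z => c a / (a - z)) = fun y => c a * (a - y)⁻¹ := by
      funext z; rw [div_eq_mul_inv]
    rw [e1] at h2
    rw [e2]
    exact h2
  rw [hd0] at hd
  have h1 := (hasDerivAt_iff_isLittleO.1 hd).def (c := μ / 2) (by positivity)
  simp only [h0, sub_zero, smul_zero] at h1
  obtain ⟨δ, hδ, hball⟩ := Metric.eventually_nhds_iff.1 h1
  set e : ℝ := min (δ / 2) (1 / 2) with he
  have he0 : 0 < e := by positivity
  have he1 : e ≤ 1 / 2 := min_le_right _ _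
  have he2 : e < δ := lt_of_le_of_lt (min_le_left _ _) (by linarith)
  have hn : ‖((1 - e : ℝ) : ℂ) * z₀‖ = 1 - e := by
    rw [norm_mul, hz₀, mul_one, Complex.norm_real, Real.norm_eq_abs, abs_of_pos (by linarith)]
  have hsub : ((1 - e : ℝ) : ℂ) * z₀ - z₀ = -((e : ℝ) : ℂ) * z₀ := by
    push_cast
    ring
  have hns : ‖((1 - e : ℝ) : ℂ) * z₀ - z₀‖ = e := by
    rw [hsub, norm_mul, hz₀, mul_one, norm_neg, Complex.norm_real, Real.norm_eq_abs,
      abs_of_pos he0]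
  have h2 := hball (y := ((1 - e : ℝ) : ℂ) * z₀) (by rw [dist_eq_norm, hns]; exact he2)
  rw [hns] at h2
  have h3 := hlow (((1 - e : ℝ) : ℂ) * z₀) (by rw [hn]; linarith)
  rw [hn] at h3
  nlinarith

/-- The point of the circle. -/
noncomputable def ex (t : ℝ) : ℂ := Complex.exp (t * Complex.I)

lemma norm_ex (t : ℝ) : ‖ex t‖ = 1 := Complex.norm_exp_ofReal_mul_I t

lemma ex_add (t : ℝ) : ex (t + 2 * Real.pi) = ex t := by
  unfold ex
  push_cast
  rw [add_mul, Complex.exp_add, Complex.exp_two_pi_mul_I, mul_one]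

lemma injOn_ex (θ₀ : ℝ) : Set.InjOn ex (Set.Ioc θ₀ (θ₀ + 2 * Real.pi)) := by
  intro s hs t ht hst
  unfold ex at hst
  rw [Complex.exp_eq_exp_iff_exists_int] at hst
  obtain ⟨n, hn⟩ := hst
  have h1 : (s : ℂ) = t + n * (2 * Real.pi) := by
    have h2 : (s : ℂ) * Complex.I = (t + n * (2 * Real.pi)) * Complex.I := by
      rw [hn]; ring
    exact mul_right_cancel₀ Complex.I_ne_zero h2
  have h2 : s = t + n * (2 * Real.pi) := by exact_mod_cast h1
  have hpi := Real.pi_pos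
  have h3 : n = 0 := by
    by_contra hn0
    rcases lt_or_gt_of_ne hn0 with h | h
    · have h4 : (n : ℝ) ≤ -1 := by
        have : n ≤ -1 := by omega
        exact_mod_cast this
      have := hs.1
      have := ht.2
      nlinarith
    · have h4 : (1 : ℝ) ≤ n := by
        have : 1 ≤ n := by omega
        exact_mod_cast this
      have := hs.2
      have := ht.1
      nlinarith
  rw [h3] at h2
  simpa using h2

lemma surj_ex (θ₀ : ℝ) {a : ℂ} (ha : ‖a‖ = 1) :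
    ∃ t ∈ Set.Ioc θ₀ (θ₀ + 2 * Real.pi), ex t = a := by
  have hpi : (0 : ℝ) < 2 * Real.pi := by have := Real.pi_pos; linarith
  have h1 : ex a.arg = a := by
    have := Complex.norm_mul_exp_arg_mul_I a
    rwa [ha, Complex.ofReal_one, one_mul] at this
  refine ⟨toIocMod hpi θ₀ a.arg, toIocMod_mem_Ioc hpi θ₀ a.arg, ?_⟩
  have h2 : toIocMod hpi θ₀ a.arg = a.arg - toIocDiv hpi θ₀ a.arg • (2 * Real.pi) := rfl
  have h3 : Function.Periodic ex (2 * Real.pi) := ex_add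
  rw [h2, h3.sub_zsmul_eq, h1]

lemma vv_eq (L : ℂ[X]) (t : ℝ) : vv L t = (L.eval (ex t)).im := rfl

lemma vd_eq (L : ℂ[X]) (t : ℝ) : vd L t = (ex t * L.derivative.eval (ex t)).re := rfl

lemma hasDerivAt_vv (L : ℂ[X]) (t : ℝ) : HasDerivAt (vv L) (vd L t) t := by
  have h1 : HasDerivAt (fun z : ℂ => Complex.exp (z * Complex.I))
      (Complex.exp (t * Complex.I) * (1 * Complex.I)) (t : ℂ) :=
    ((hasDerivAt_id (t : ℂ)).mul_const Complex.I).cexp
  have h2 := (L.hasDerivAt (Complex.exp (t * Complex.I))).comp (t : ℂ) h1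
  have h3 := h2.comp_ofReal
  have h4 := Complex.imCLM.hasFDerivAt.comp_hasDerivAt t h3
  have h5 : Complex.imCLM (L.derivative.eval (Complex.exp (t * Complex.I)) *
      (Complex.exp (t * Complex.I) * (1 * Complex.I))) = vd L t := by
    unfold vd
    simp only [Complex.imCLM_apply, Complex.mul_im, Complex.mul_re, Complex.I_re, Complex.I_im,
      Complex.one_re, Complex.one_im]
    ring
  rw [h5] at h4
  exact h4

lemma continuous_vd (L : ℂ[X]) : Continuous (vd L) := by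
  unfold vd
  fun_prop

/-- The moments of the uniform measure on the circle. -/
noncomputable def ph (D : ℕ) (t : ℝ) : Fin (D + 1) → ℂ := fun k => (2 * Real.pi : ℂ)⁻¹ * ex t ^ (k : ℕ)

lemma continuous_ph (D : ℕ) : Continuous (ph D) := by
  unfold ph ex
  fun_prop

lemma integrableOn_ph (D : ℕ) (θ₀ : ℝ) :
    IntegrableOn (ph D) (Set.Ioc θ₀ (θ₀ + 2 * Real.pi)) :=
  ((continuous_ph D).integrableOn_Icc).mono_set Set.Ioc_subset_Icc_self

lemma integral_ph (D : ℕ) (θ₀ : ℝ) (k : Fin (D + 1)) :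
    (∫ t in Set.Ioc θ₀ (θ₀ + 2 * Real.pi), ph D t) k = if (k : ℕ) = 0 then 1 else 0 := by
  have hpi : (2 * Real.pi : ℂ) ≠ 0 := by
    have := Real.pi_ne_zero
    simp [this]
  have h1 : (∫ t in Set.Ioc θ₀ (θ₀ + 2 * Real.pi), ph D t) k =
      ∫ t in Set.Ioc θ₀ (θ₀ + 2 * Real.pi), ph D t k := by
    have := (ContinuousLinearMap.proj (R := ℝ) (φ := fun _ : Fin (D + 1) => ℂ) k).integral_comp_comm
      (integrableOn_ph D θ₀)
    exact this.symm
  rw [h1]
  by_cases hk : (k : ℕ) = 0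
  · rw [if_pos hk]
    unfold ph
    simp only [hk, pow_zero, mul_one]
    rw [integral_const]
    simp only [MeasurableSet.univ, measureReal_restrict_apply, Set.univ_inter]
    rw [Measure.real, Real.volume_Ioc, ENNReal.toReal_ofReal (by have := Real.pi_pos; linarith)]
    rw [add_sub_cancel_left, Complex.real_smul]
    push_cast
    exact mul_inv_cancel₀ hpi
  · rw [if_neg hk]
    have h2 : ∀ t : ℝ, ph D t k = (2 * Real.pi : ℂ)⁻¹ * Complex.exp (((k : ℕ) * Complex.I) * t) := by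
      intro t
      unfold ph ex
      rw [← Complex.exp_nat_mul]
      congr 2
      ring
    have hk' : ((k : ℕ) : ℂ) * Complex.I ≠ 0 := mul_ne_zero (by exact_mod_cast hk) Complex.I_ne_zero
    rw [← intervalIntegral.integral_of_le (by have := Real.pi_pos; linarith)]
    simp_rw [h2]
    rw [intervalIntegral.integral_const_mul, integral_exp_mul_complex hk']
    have h3 : Complex.exp ((k : ℕ) * Complex.I * ((θ₀ + 2 * Real.pi : ℝ) : ℂ)) =
        Complex.exp ((k : ℕ) * Complex.I * (θ₀ : ℂ)) := by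
      have h4 : (k : ℕ) * Complex.I * ((θ₀ + 2 * Real.pi : ℝ) : ℂ) =
          (k : ℕ) * Complex.I * (θ₀ : ℂ) + (k : ℕ) * (2 * Real.pi * Complex.I) := by
        push_cast
        ring
      rw [h4, Complex.exp_add, Complex.exp_nat_mul_two_pi_mul_I, mul_one]
    rw [h3]
    simp

/-- The exact quadrature. -/
theorem exists_exact {L : ℂ[X]} (hL : L.derivative.eval 0 ≠ 0) (D : ℕ) (θ₀ : ℝ)
    (hθ₀ : vd L θ₀ = 0) (C0 : Finset ℝ) (hC0 : ∀ θ, vv L θ ∈ C0 → vd L θ ≠ 0) :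
    ∃ (lev : Finset ℝ) (w : ℝ → ℝ) (T : Finset ℝ),
      C0 ⊆ lev ∧ (∀ c ∈ lev, 0 < w c) ∧
      (∀ c ∈ lev, ∀ θ : ℝ, vv L θ = c → vd L θ ≠ 0) ∧
      (∀ t : ℝ, t ∈ T ↔ t ∈ Set.Ioo θ₀ (θ₀ + 2 * Real.pi) ∧ vv L t ∈ lev) ∧
      (∑ t ∈ T, w (vv L t) * |vd L t|⁻¹ / (2 * Real.pi) = 1) ∧
      (∀ k : ℕ, 1 ≤ k → k ≤ D →
        ∑ t ∈ T, ((w (vv L t) * |vd L t|⁻¹ / (2 * Real.pi) : ℝ) : ℂ) * ex t ^ k = 0) := by
  classical
  have hpi := Real.pi_pos
  -- critical points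
  have hper : ∀ t, vv L (t + 2 * Real.pi) = vv L t := by
    intro t
    rw [vv_eq, ex_add, vv_eq]
  have hperd : ∀ t, vd L (t + 2 * Real.pi) = vd L t := by
    intro t
    rw [vd_eq, ex_add, vd_eq]
  have hZfin : {t : ℝ | t ∈ Set.Ioc θ₀ (θ₀ + 2 * Real.pi) ∧ vd L t = 0}.Finite := by
    refine Set.Finite.of_finite_image (f := ex) ?_ ((injOn_ex θ₀).mono fun t ht => ht.1)
    refine (crit_finite hL).subset ?_
    rintro _ ⟨t, ht, rfl⟩
    exact ⟨norm_ex t, ht.2⟩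
  set Z : Finset ℝ := hZfin.toFinset with hZ
  have hZmem : ∀ t, t ∈ Z ↔ t ∈ Set.Ioc θ₀ (θ₀ + 2 * Real.pi) ∧ vd L t = 0 := by
    intro t
    rw [hZ, Set.Finite.mem_toFinset]
    exact Iff.rfl
  have hZ' : ∀ t ∈ Set.Ioc θ₀ (θ₀ + 2 * Real.pi), vd L t = 0 → t ∈ Z :=
    fun t ht h0 => (hZmem t).2 ⟨ht, h0⟩
  have hZ0 : ∀ t ∈ Z, vd L t = 0 := fun t ht => ((hZmem t).1 ht).2
  -- regular levels
  have hcritZ : ∀ θ, vd L θ = 0 → ∃ z ∈ Z, vv L z = vv L θ := by
    intro θ h0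
    obtain ⟨t, ht, hte⟩ := surj_ex θ₀ (norm_ex θ)
    refine ⟨t, (hZmem t).2 ⟨ht, ?_⟩, ?_⟩
    · rw [vd_eq, hte, ← vd_eq, h0]
    · rw [vv_eq, hte, ← vv_eq]
  have hregA : ∀ c, c ∉ Z.image (vv L) → ∀ θ, vv L θ = c → vd L θ ≠ 0 := by
    intro c hc θ hθ h0
    obtain ⟨z, hz, hzv⟩ := hcritZ θ h0
    exact hc (Finset.mem_image.2 ⟨z, hz, hzv.trans hθ⟩)
  have hAreg : ∀ c, (∀ θ, vv L θ = c → vd L θ ≠ 0) → c ∉ Z.image (vv L) := by
    intro c hc hcZ
    obtain ⟨z, hz, hzv⟩ := Finset.mem_image.1 hcZ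
    exact hc z hzv (hZ0 z hz)
  obtain ⟨hint, hco⟩ := coarea (hasDerivAt_vv L) hZ' (integrableOn_ph D θ₀)
  obtain ⟨s, w, hC0s, hsA, hsw, hsum⟩ := cone_integral volume _ hint
    ((Z.image (vv L) : Set ℝ)ᶜ) (by
    rw [ae_iff]
    simp only [Set.mem_compl_iff, not_not]
    exact (Finset.finite_toSet _).measure_zero volume) C0 (by
    intro c hc hcZ
    exact hAreg c (fun θ hθ => hC0 θ (hθ ▸ hc)) (Finset.mem_coe.1 hcZ)) (by
    intro c hc W hW
    have hc' : ∀ θ, vv L θ = c → vd L θ ≠ 0 := fun θ hθ => hC0 θ (hθ ▸ hc)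
    refine fib_mem (hasDerivAt_vv L) (continuous_vd L) hZ' hZ0 (continuous_ph D) hc' ?_ ?_ W hW
    · intro h
      exact hc' θ₀ h hθ₀
    · intro h
      rw [hper] at h
      exact hc' θ₀ h hθ₀)
  have hsreg : ∀ c ∈ s, ∀ θ, vv L θ = c → vd L θ ≠ 0 := fun c hc =>
    hregA c (fun h => hsA c hc (Finset.mem_coe.2 h))
  -- the fibres
  have hFtfin : ∀ c : ℝ, {t | t ∈ Set.Ioc θ₀ (θ₀ + 2 * Real.pi) ∧ t ∉ Z ∧ vv L t = c}.Finite :=
    fibre_finite (hasDerivAt_vv L) hZ'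
  set Ft : ℝ → Finset ℝ := fun c => (hFtfin c).toFinset with hFt
  have hFtmem : ∀ c t, t ∈ Ft c ↔ t ∈ Set.Ioc θ₀ (θ₀ + 2 * Real.pi) ∧ t ∉ Z ∧ vv L t = c := by
    intro c t
    rw [hFt]
    simp only [Set.Finite.mem_toFinset]
    exact Iff.rfl
  set T : Finset ℝ := s.biUnion Ft with hT
  have hTmem : ∀ t : ℝ, t ∈ T ↔ t ∈ Set.Ioo θ₀ (θ₀ + 2 * Real.pi) ∧ vv L t ∈ s := by
    intro t
    rw [hT, Finset.mem_biUnion]
    constructor
    · rintro ⟨c, hc, ht⟩
      rw [hFtmem] at ht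
      refine ⟨⟨ht.1.1, lt_of_le_of_ne ht.1.2 ?_⟩, ht.2.2 ▸ hc⟩
      intro h
      rw [h, hper] at ht
      exact hsreg c hc θ₀ ht.2.2 hθ₀
    · rintro ⟨h1, h2⟩
      refine ⟨_, h2, (hFtmem _ t).2 ⟨⟨h1.1, h1.2.le⟩, ?_, rfl⟩⟩
      intro htZ
      exact hsreg _ h2 t rfl (hZ0 t htZ)
  have hmom : ∀ k : Fin (D + 1),
      ∑ t ∈ T, ((w (vv L t) * |vd L t|⁻¹ / (2 * Real.pi) : ℝ) : ℂ) * ex t ^ (k : ℕ) =
      if (k : ℕ) = 0 then 1 else 0 := by
    intro k
    rw [← integral_ph D θ₀ k, ← hco, ← hsum, Finset.sum_apply, hT, Finset.sum_biUnion]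
    · refine Finset.sum_congr rfl fun c hc => ?_
      rw [Pi.smul_apply, fib_eq (hasDerivAt_vv L) hZ' (ph D) c (Ft c) (hFtmem c),
        Finset.sum_apply, Complex.real_smul, Finset.mul_sum]
      refine Finset.sum_congr rfl fun t ht => ?_
      rw [hFtmem] at ht
      rw [Pi.smul_apply, Complex.real_smul, ht.2.2]
      unfold ph
      push_cast
      ring
    · intro c _ c' _ hcc
      rw [Function.onFun, Finset.disjoint_left]
      intro t h1 h2
      rw [hFtmem] at h1 h2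
      exact hcc (h1.2.2.symm.trans h2.2.2)
  refine ⟨s, w, T, hC0s, hsw, hsreg, hTmem, ?_, ?_⟩
  · have h1 := hmom 0
    simp only [Fin.val_zero, pow_zero, mul_one, if_true] at h1
    have h2 : ((∑ t ∈ T, w (vv L t) * |vd L t|⁻¹ / (2 * Real.pi) : ℝ) : ℂ) = 1 := by
      push_cast at h1 ⊢
      exact h1
    exact_mod_cast h2
  · intro k hk1 hk2
    have h1 := hmom ⟨k, Nat.lt_succ_of_le hk2⟩
    simp only at h1
    rw [h1, if_neg (by omega)]

end Pool.CSH.Quad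

namespace Pool.CSH

open Quad

/-- **QUAD**, for every enumeration of the nodes: the nodes are the points of the circle on finitely
many regular levels `lev`, which contain `C0`; there are at least two levels; all the Taylor
coefficients up to order `m` are exact. -/
theorem quad_lev (L : Polynomial ℂ)
    (hL : ∀ z ∈ Metric.closedBall (0 : ℂ) 1, L.derivative.eval z ≠ 0)
    (θ₀ : ℝ) (hθ₀ : ∀ θ, vv L θ ≤ vv L θ₀) (C0 : Finset ℝ)
    (hC0 : ∀ θ, vv L θ ∈ C0 → vd L θ ≠ 0) (m : ℕ) :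
    ∃ (lev : Finset ℝ) (τ : ℝ → ℝ), C0 ⊆ lev ∧ (∀ θ, vv L θ ∈ lev → vd L θ ≠ 0) ∧
      (∃ a ∈ Set.Ioo θ₀ (θ₀ + 2 * Real.pi), ∃ b ∈ Set.Ioo θ₀ (θ₀ + 2 * Real.pi),
        vv L a ∈ lev ∧ vv L b ∈ lev ∧ vv L a < vv L b) ∧
      ({θ | θ ∈ Set.Ioo θ₀ (θ₀ + 2 * Real.pi) ∧ vv L θ ∈ lev}).Finite ∧
      (∀ θ, vv L θ ∈ lev → 0 < τ θ) ∧
      (∀ θ θ', vv L θ ∈ lev → vv L θ = vv L θ' → τ θ * |vd L θ| = τ θ' * |vd L θ'|) ∧
      ∀ (N : ℕ) (t : Fin N → ℝ), StrictMono t →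
        (∀ θ, (∃ j, t j = θ) ↔ (θ ∈ Set.Ioo θ₀ (θ₀ + 2 * Real.pi) ∧ vv L θ ∈ lev)) →
        Quad L θ₀ C0 t (fun j => τ (t j)) ∧
        (∀ k ≤ m, ∑ j, ((2 * τ (t j) * vd L (t j) : ℝ) : ℂ) *
          (Complex.exp (t j * Complex.I) ^ (k + 1))⁻¹ = L.derivative.coeff k) ∧
        (∃ μ : ℝ, 0 < μ ∧ ∀ z : ℂ, ‖z‖ < 1 →
          μ * (1 - ‖z‖) ≤ ‖DD L t (fun j => τ (t j)) z‖) := by
  classical
  have hpi := Real.pi_pos
  have hL' : ∀ z : ℂ, ‖z‖ ≤ 1 → L.derivative.eval z ≠ 0 := fun z hz => hL z (by simpa using hz)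
  have hL0 : L.derivative.eval 0 ≠ 0 := hL' 0 (by simp)
  have hvd0 : vd L θ₀ = 0 := by
    have h1 : IsLocalMax (vv L) θ₀ := Filter.Eventually.of_forall hθ₀
    exact h1.hasDerivAt_eq_zero (hasDerivAt_vv L θ₀)
  set D : ℕ := L.derivative.natDegree + m + 4 + 2 * L.natDegree with hD
  obtain ⟨lev, w, T, hC0lev, hw, hreg, hT, hone, hmom⟩ := exists_exact hL0 D θ₀ hvd0 C0 hC0
  set τf : ℝ → ℝ := fun θ => w (vv L θ) * |vd L θ|⁻¹ / (2 * Real.pi) with hτf
  -- the measure on the circle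
  set τc : ℂ → ℝ := fun a => w (L.eval a).im * |(a * L.derivative.eval a).re|⁻¹ / (2 * Real.pi)
    with hτc
  have hτ : ∀ θ, τc (ex θ) = τf θ := fun θ => rfl
  set S : Finset ℂ := T.image ex with hS
  have hinj : Set.InjOn ex (T : Set ℝ) := by
    refine (injOn_ex θ₀).mono fun t ht => ?_
    have := ((hT t).1 (Finset.mem_coe.1 ht)).1
    exact ⟨this.1, this.2.le⟩
  have hsumS : ∀ {M : Type} [AddCommMonoid M] (f : ℂ → M), ∑ a ∈ S, f a = ∑ θ ∈ T, f (ex θ) := by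
    intro M _ f
    rw [hS, Finset.sum_image hinj]
  have hτpos' : ∀ θ, vv L θ ∈ lev → 0 < τf θ := by
    intro θ hθ
    have h2 := abs_pos.2 (hreg _ hθ θ rfl)
    have h3 := hw _ hθ
    rw [hτf]
    positivity
  have hτpos : ∀ θ ∈ T, 0 < τf θ := fun θ hθ => hτpos' θ ((hT θ).1 hθ).2
  have hex : Exact S τc D := by
    refine ⟨?_, ?_, ?_, ?_⟩
    · intro a ha
      obtain ⟨θ, _, rfl⟩ := Finset.mem_image.1 ha
      exact norm_ex θ
    · intro a ha
      obtain ⟨θ, hθ, rfl⟩ := Finset.mem_image.1 ha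
      exact hτpos θ hθ
    · rw [hsumS]
      exact hone
    · intro k hk1 hk2
      rw [hsumS]
      exact hmom k hk1 hk2
  have hcf : ∀ θ, cf τc L.derivative (ex θ) = 2 * τf θ * vd L θ := fun θ => rfl
  have hnoS : ∀ θ, vd L θ = 0 → ex θ ∉ S := by
    intro θ h0 hS'
    obtain ⟨s, hs, hse⟩ := Finset.mem_image.1 hS'
    have h1 := (hT s).1 hs
    refine hreg _ h1.2 θ ?_ h0
    rw [vv_eq, ← hse, ← vv_eq]
  obtain ⟨μ, hμ, hlow⟩ := G_lower hex (P := L.derivative) (by omega) hL'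
  have hlevel : ∀ θ θ', vv L θ ∈ lev → vv L θ = vv L θ' → τf θ * |vd L θ| = τf θ' * |vd L θ'| := by
    have key : ∀ s, vv L s ∈ lev → τf s * |vd L s| = w (vv L s) / (2 * Real.pi) := by
      intro s hs
      have h2 := abs_ne_zero.2 (hreg _ hs s rfl)
      rw [hτf]
      simp only
      field_simp
    intro θ θ' h1 h2
    rw [key _ h1, key _ (h2 ▸ h1), h2]
  refine ⟨lev, τf, hC0lev, fun θ hθ => hreg _ hθ θ rfl, ?_, ?_, hτpos', hlevel, ?_⟩
  · -- two levels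
    by_contra hcon
    push Not at hcon
    have h1 := hex.card
    have hne : 0 < S.card := by omega
    obtain ⟨a₀, ha₀⟩ := Finset.card_pos.1 hne
    obtain ⟨θ₁, hθ₁, rfl⟩ := Finset.mem_image.1 ha₀
    have h3 : S ⊆ (level_finite hL0 (vv L θ₁)).1.toFinset := by
      intro a ha
      obtain ⟨θ, hθ, rfl⟩ := Finset.mem_image.1 ha
      rw [Set.Finite.mem_toFinset]
      refine ⟨norm_ex _, ?_⟩
      have m1 := (hT θ).1 hθ
      have m2 := (hT θ₁).1 hθ₁
      exact le_antisymm (hcon θ₁ m2.1 θ m1.1 m2.2 m1.2) (hcon θ m1.1 θ₁ m2.1 m1.2 m2.2)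
    have h4 := Finset.card_le_card h3
    rw [← Set.ncard_eq_toFinset_card _ (level_finite hL0 (vv L θ₁)).1] at h4
    have h5 := (level_finite hL0 (vv L θ₁)).2
    omega
  · refine (Finset.finite_toSet T).subset ?_
    intro θ hθ
    exact Finset.mem_coe.2 ((hT θ).2 hθ)
  intro N t htmono htrange
  have htmem : ∀ j, t j ∈ T := fun j => (hT _).2 ((htrange _).1 ⟨j, rfl⟩)
  have hsurj : ∀ θ ∈ T, ∃ j, t j = θ := fun θ hθ => (htrange θ).2 ((hT θ).1 hθ)
  have hTimg : T = univ.image t := by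
    ext θ
    rw [Finset.mem_image]
    constructor
    · intro hθ
      obtain ⟨j, hj⟩ := hsurj θ hθ
      exact ⟨j, mem_univ j, hj⟩
    · rintro ⟨j, _, rfl⟩
      exact htmem j
  have hsumT : ∀ {M : Type} [AddCommMonoid M] (f : ℝ → M), ∑ θ ∈ T, f θ = ∑ j, f (t j) := by
    intro M _ f
    rw [hTimg, Finset.sum_image htmono.injective.injOn]
  have hG : ∀ z, G S τc L.derivative z = DD L t (fun j => τf (t j)) z := by
    intro z
    unfold G DD
    rw [hsumS, hsumT]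
    rfl
  have htaylor : ∀ k ≤ m + 1, ∑ j, ((2 * τf (t j) * vd L (t j) : ℝ) : ℂ) *
      (Complex.exp (t j * Complex.I) ^ (k + 1))⁻¹ = L.derivative.coeff k := by
    intro k hk
    have h1 := sum_cf_inv_pow hex (P := L.derivative) (m := k) (by omega) (by omega)
    rw [hsumS, hsumT] at h1
    exact h1
  refine ⟨?_, fun k hk => htaylor k (by omega), ⟨μ, hμ, ?_⟩⟩
  · refine ⟨?_, ?_, ?_, ?_, ?_, ?_, ?_, ?_, ?_, ?_, ?_, ?_⟩
    · exact htmono
    · exact fun j => ((hT _).1 (htmem j)).1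
    · exact fun j => hτpos _ (htmem j)
    · intro j θ hθ
      exact hreg _ ((hT _).1 (htmem j)).2 θ hθ
    · intro j θ hθ hθj
      have h1 := (hT _).1 (htmem j)
      have hθT : θ ∈ T := (hT θ).2 ⟨hθ, hθj ▸ h1.2⟩
      obtain ⟨k, hk⟩ := hsurj θ hθT
      exact ⟨k, hk, hlevel _ _ ((hT _).1 (htmem k)).2 (by rw [hk, hθj])⟩
    · intro θ hθ hθ0
      exact hsurj θ ((hT θ).2 ⟨hθ, hC0lev hθ0⟩)
    · have h1 := sum_cf hex (P := L.derivative) (by omega)
      rw [hsumS, hsumT] at h1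
      simp only [hcf] at h1
      have h2 : ∑ j, 2 * τf (t j) * vd L (t j) = 2 * ∑ j, τf (t j) * vd L (t j) := by
        rw [Finset.mul_sum]
        exact Finset.sum_congr rfl fun j _ => by ring
      rw [h2] at h1
      linarith
    · have h1 := htaylor 0 (by omega)
      unfold DD
      rw [← Polynomial.coeff_zero_eq_eval_zero, ← h1]
      refine Finset.sum_congr rfl fun j _ => ?_
      rw [sub_zero, zero_add, pow_one, div_eq_mul_inv]
    · have h1 := htaylor 1 (by omega)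
      have h2 : L.derivative.derivative.eval 0 = L.derivative.coeff 1 := by
        rw [← Polynomial.coeff_zero_eq_eval_zero, Polynomial.coeff_derivative, zero_add]
        simp
      rw [h2, ← h1]
      refine Finset.sum_congr rfl fun j _ => ?_
      congr 1
      rw [Complex.exp_neg, ← Complex.exp_nat_mul]
      congr 2
      push_cast
      ring
    · intro z hz
      have hz' : ‖z‖ < 1 := by simpa using hz
      have h1 := hlow z hz'
      rw [hG] at h1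
      intro h0
      rw [h0, norm_zero] at h1
      have : 0 < μ * (1 - ‖z‖) := mul_pos hμ (by linarith)
      linarith
    · intro z hz hzS h0
      have hz' : ‖z‖ = 1 := by simpa using hz
      have h1 := simple_of_lower (S := S) (c := fun a => (cf τc L.derivative a : ℂ)) hμ hlow hz'
        (by
          intro a ha haz
          obtain ⟨θ, hθ, rfl⟩ := Finset.mem_image.1 ha
          obtain ⟨j, rfl⟩ := hsurj θ hθ
          exact hzS j haz)
        (by
          have := hG z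
          rw [h0] at this
          exact this)
      rw [hsumS, hsumT] at h1
      exact h1
    · intro θ h0
      rw [← hG]
      exact G_eq_of_re_eq_zero hex (by omega) (norm_ex θ) (hnoS θ h0) h0
  · intro z hz
    rw [← hG]
    exact hlow z hz

/-- **QUAD.** -/
theorem quad_exists (L : Polynomial ℂ)
    (hL : ∀ z ∈ Metric.closedBall (0 : ℂ) 1, L.derivative.eval z ≠ 0)
    (θ₀ : ℝ) (hθ₀ : ∀ θ, vv L θ ≤ vv L θ₀) (C0 : Finset ℝ)
    (hC0 : ∀ θ, vv L θ ∈ C0 → vd L θ ≠ 0) :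
    ∃ (N : ℕ) (t τ : Fin N → ℝ), Quad L θ₀ C0 t τ := by
  classical
  obtain ⟨lev, τ, -, -, -, hfin, -, -, h⟩ := quad_lev L hL θ₀ hθ₀ C0 hC0 0
  refine ⟨_, fun j => hfin.toFinset.orderEmbOfFin rfl j, _,
    (h _ (fun j => hfin.toFinset.orderEmbOfFin rfl j)
      (hfin.toFinset.orderEmbOfFin rfl).strictMono ?_).1⟩
  intro θ
  have h1 : θ ∈ Set.range (hfin.toFinset.orderEmbOfFin rfl) ↔ θ ∈ (hfin.toFinset : Set ℝ) := by
    rw [Finset.range_orderEmbOfFin]
  have h2 : θ ∈ (hfin.toFinset : Set ℝ) ↔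
      (θ ∈ Set.Ioo θ₀ (θ₀ + 2 * Real.pi) ∧ vv L θ ∈ lev) := by
    rw [Finset.mem_coe, Set.Finite.mem_toFinset]
    exact Iff.rfl
  exact h1.trans h2

end Pool.CSH
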