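import Mathlib

set_option autoImplicit false

/-!
# Walking through a class of arcs of a non-crossing matching (MP_a0ec2a_an)

Indices `0, 1, …` are the crossing points of the boundary curve with the levels, `σ` matches the
two ends of a gap, `s j` means that the curve goes up at `j`, `φ j` is the abscissa.
-/

namespace Pool.CSH

/-- Induction step shared by `walk_in` and `walk_out`. -/
private theorem walk_step {N : ℕ} (σ : Fin N → Fin N)
    (invol : ∀ j, σ (σ j) = j)
    (nonc : ∀ i j, i < j → j < σ i → i < σ j ∧ σ j < σ i)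
    (unm : ∀ i j, i < j → j < σ i → σ j ≠ j)
    {i k : Fin N} (hik : i < k) (hi : σ i = i ∨ k < σ i)
    (hne : σ k ≠ k) (hin : ∀ j, i < j → j ≤ k → σ j ≤ k) :
    i < σ k ∧ σ k < k ∧ ∀ (m : Fin N), (m : ℕ) + 1 = σ k → (∀ j, i < j → j ≤ m → σ j ≤ m) := by
  have h1 : σ k < k := lt_of_le_of_ne (hin k hik le_rfl) hne
  have h2 : i < σ k := by
    rcases lt_trichotomy (σ k) i with h | h | h
    · exfalso
      rcases hi with h3 | h3
      · exact unm (σ k) i h (by rw [invol]; exact hik) h3
      · have := (nonc (σ k) i h (by rw [invol]; exact hik)).2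
        rw [invol] at this
        exact absurd h3 (not_lt.2 this.le)
    · exfalso
      have h4 : σ i = k := by rw [← h, invol]
      rcases hi with h3 | h3
      · rw [h3] at h4; exact absurd hik (by rw [h4]; exact lt_irrefl _)
      · rw [h4] at h3; exact lt_irrefl _ h3
    · exact h
  refine ⟨h2, h1, ?_⟩
  intro m hm j hij hjm
  have hmk : m < σ k := by
    rw [Fin.lt_def]; omega
  have hjk : j < σ k := lt_of_le_of_lt hjm hmk
  have h3 : σ j ≤ k := hin j hij (hjk.le.trans h1.le)
  by_contra h4
  push Not at h4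
  have h5 : σ k ≤ σ j := by
    rw [Fin.le_def]; rw [Fin.lt_def] at h4; omega
  have h6 : σ k ≠ σ j := by
    intro h
    have : k = j := by rw [← invol k, h, invol]
    rw [this] at hjk
    rw [this] at h1
    exact absurd hjk (not_lt.2 h1.le)
  have h7 : σ k < σ j := lt_of_le_of_ne h5 h6
  have h8 : σ j < k := by
    refine lt_of_le_of_ne h3 ?_
    intro h
    have : σ k = j := by rw [← h, invol]
    rw [this] at hjk
    exact lt_irrefl _ hjk
  have h9 := (nonc (σ k) (σ j) h7 (by rw [invol]; exact h8)).1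
  rw [invol] at h9
  exact absurd hjk (not_lt.2 h9.le)

/-- WALK (pure combinatorics): inside a pair there is a neighbouring pair of indices, directly
inside, of equal sign or of concave type. -/
theorem walk_in {N : ℕ} (σ : Fin N → Fin N) (s : Fin N → Prop) (φ : Fin N → ℝ)
    (invol : ∀ j, σ (σ j) = j)
    (nonc : ∀ i j, i < j → j < σ i → i < σ j ∧ σ j < σ i)
    (unm : ∀ i j, i < j → j < σ i → σ j ≠ j)
    (hs : ∀ j, σ j ≠ j → (s (σ j) ↔ ¬ s j))
    (hφ : ∀ j, σ j ≠ j → s j → φ j < φ (σ j))
    (i : Fin N) (hi : i < σ i) :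
    ∃ k l : Fin N, i ≤ k ∧ (l : ℕ) = k + 1 ∧ l ≤ σ i ∧
      (∀ j, i < j → j < σ i → j < σ j → ¬ (j ≤ k ∧ l ≤ σ j)) ∧
      ((s k ↔ s l) ∨ (s k ∧ ¬ s l ∧ φ k < φ l) ∨ (¬ s k ∧ s l ∧ φ l < φ k)) := by
  by_contra hcon
  -- the alternative for arcs directly inside
  have key : ∀ k l : Fin N, i ≤ k → k < σ i → (l : ℕ) = k + 1 →
      (∀ j, i < j → j ≤ k → σ j ≤ k) →
      (s l ↔ ¬ s k) ∧ (s k → φ l ≤ φ k) ∧ (¬ s k → φ k ≤ φ l) := by
    intro k l hik hki hl hin
    by_contra h
    refine hcon ⟨k, l, hik, hl, ?_, ?_, ?_⟩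
    · rw [Fin.le_def]; rw [Fin.lt_def] at hki; omega
    · intro j hij _ _ ⟨h1, h2⟩
      have h3 := hin j hij h1
      rw [Fin.le_def] at h2 h3
      omega
    · by_cases h1 : s k
      · by_cases h2 : s l
        · exact Or.inl ⟨fun _ => h2, fun _ => h1⟩
        · right; left
          refine ⟨h1, h2, ?_⟩
          by_contra h3
          exact h ⟨⟨fun h4 => absurd h4 h2, fun h4 => absurd h1 h4⟩,
            fun _ => not_lt.1 h3, fun h4 => absurd h1 h4⟩
      · by_cases h2 : s l
        · right; right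
          refine ⟨h1, h2, ?_⟩
          by_contra h3
          exact h ⟨⟨fun _ => h1, fun _ => h2⟩, fun h4 => absurd h4 h1, fun _ => not_lt.1 h3⟩
        · exact Or.inl ⟨fun h3 => absurd h3 h1, fun h3 => absurd h3 h2⟩
  have hne : σ i ≠ i := hi.ne'
  -- induction
  have main : ∀ n : ℕ, ∀ k : Fin N, (k : ℕ) = n → i ≤ k → k < σ i →
      (∀ j, i < j → j ≤ k → σ j ≤ k) →
      (s k ↔ s i) ∧ (s i → φ k ≤ φ i) ∧ (¬ s i → φ i ≤ φ k) := by
    intro n
    induction n using Nat.strong_induction_on with
    | _ n ih =>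
      intro k hkn hik hki hin
      rcases hik.eq_or_lt with h | h
      · rw [← h]
        exact ⟨Iff.rfl, fun _ => le_rfl, fun _ => le_rfl⟩
      · have hk : σ k ≠ k := unm i k h hki
        obtain ⟨h1, h2, h3⟩ := walk_step σ invol nonc unm h (Or.inr hki) hk hin
        have h0 : 0 < (σ k : ℕ) := by
          rw [Fin.lt_def] at h1; omega
        let m : Fin N := ⟨(σ k : ℕ) - 1, by have := (σ k).2; omega⟩
        have hm : (m : ℕ) + 1 = σ k := by
          show (σ k : ℕ) - 1 + 1 = σ k
          omega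
        have him : i ≤ m := by
          rw [Fin.le_def]; rw [Fin.lt_def] at h1; omega
        have hmk : m < k := by
          rw [Fin.lt_def]; rw [Fin.lt_def] at h2; omega
        have hmi : m < σ i := hmk.trans hki
        have hmin := h3 m hm
        obtain ⟨h4, h5, h6⟩ := ih m (by rw [← hkn]; rw [Fin.lt_def] at hmk; exact hmk) m rfl him hmi hmin
        obtain ⟨h7, h8, h9⟩ := key m (σ k) him hmi hm.symm hmin
        have h10 := hs k hk
        have h11 : σ (σ k) ≠ σ k := by rw [invol]; exact hk.symm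
        have hski : s k ↔ s i := by
          rw [← h4]
          constructor
          · intro h
            by_contra h'
            exact h10.1 (h7.2 h') h
          · intro h
            by_contra h'
            exact h7.1 (h10.2 h') h
        refine ⟨?_, ?_, ?_⟩
        · exact hski
        · intro hsi
          have h12 : s k := hski.2 hsi
          have h13 := hφ k hk h12
          have h14 := h8 (h4.2 hsi)
          have h15 := h5 hsi
          exact (h13.le.trans h14).trans h15
        · intro hsi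
          have h12 : s (σ k) := h7.2 (fun h => hsi (h4.1 h))
          have h13 := hφ (σ k) h11 h12
          rw [invol] at h13
          have h14 := h9 (fun h => hsi (h4.1 h))
          have h15 := h6 hsi
          exact (h15.trans h14).trans h13.le
  -- the last arc
  have h0 : 0 < (σ i : ℕ) := by rw [Fin.lt_def] at hi; omega
  let m : Fin N := ⟨(σ i : ℕ) - 1, by have := (σ i).2; omega⟩
  have hm : ((σ i : Fin N) : ℕ) = (m : ℕ) + 1 := by
    show (σ i : ℕ) = (σ i : ℕ) - 1 + 1
    omega
  have him : i ≤ m := by rw [Fin.le_def]; rw [Fin.lt_def] at hi; omega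
  have hmi : m < σ i := by rw [Fin.lt_def]; omega
  have hmin : ∀ j, i < j → j ≤ m → σ j ≤ m := by
    intro j hij hjm
    have := (nonc i j hij (lt_of_le_of_lt hjm hmi)).2
    rw [Fin.le_def]; rw [Fin.lt_def] at this; omega
  obtain ⟨h4, h5, h6⟩ := main m m rfl him hmi hmin
  obtain ⟨h7, h8, h9⟩ := key m (σ i) him hmi hm hmin
  have h10 := hs i hne
  by_cases hsi : s i
  · have h11 := hφ i hne hsi
    have h12 := h8 (h4.2 hsi)
    have h13 := h5 hsi
    exact absurd h11 (not_lt.2 (h12.trans h13))
  · have h12 : s (σ i) := h10.2 hsi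
    have h11 : σ (σ i) ≠ σ i := by rw [invol]; exact hne.symm
    have h13 := hφ (σ i) h11 h12
    rw [invol] at h13
    have h14 := h9 (fun h => hsi (h4.1 h))
    have h15 := h6 hsi
    exact absurd h13 (not_lt.2 (h15.trans h14))

/-- WALK between consecutive unmatched indices of equal sign. -/
theorem walk_out {N : ℕ} (σ : Fin N → Fin N) (s : Fin N → Prop)
    (invol : ∀ j, σ (σ j) = j)
    (nonc : ∀ i j, i < j → j < σ i → i < σ j ∧ σ j < σ i)
    (unm : ∀ i j, i < j → j < σ i → σ j ≠ j)
    (hs : ∀ j, σ j ≠ j → (s (σ j) ↔ ¬ s j))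
    (i j : Fin N) (hij : i < j) (hi : σ i = i) (hj : σ j = j)
    (hb : ∀ k, i < k → k < j → σ k ≠ k) (hsij : s i ↔ s j) :
    ∃ k l : Fin N, i ≤ k ∧ (l : ℕ) = k + 1 ∧ l ≤ j ∧
      (∀ m, i < m → m < j → m < σ m → ¬ (m ≤ k ∧ l ≤ σ m)) ∧ (s k ↔ s l) := by
  by_contra hcon
  have key : ∀ k l : Fin N, i ≤ k → k < j → (l : ℕ) = k + 1 →
      (∀ m, i < m → m ≤ k → σ m ≤ k) → (s l ↔ ¬ s k) := by
    intro k l hik hkj hl hin
    by_contra h
    refine hcon ⟨k, l, hik, hl, ?_, ?_, ?_⟩
    · rw [Fin.le_def]; rw [Fin.lt_def] at hkj; omega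
    · intro m him _ _ ⟨h1, h2⟩
      have h3 := hin m him h1
      rw [Fin.le_def] at h2 h3
      omega
    · tauto
  have main : ∀ n : ℕ, ∀ k : Fin N, (k : ℕ) = n → i ≤ k → k < j →
      (∀ m, i < m → m ≤ k → σ m ≤ k) → (s k ↔ s i) := by
    intro n
    induction n using Nat.strong_induction_on with
    | _ n ih =>
      intro k hkn hik hkj hin
      rcases hik.eq_or_lt with h | h
      · rw [← h]
      · have hk : σ k ≠ k := hb k h hkj
        obtain ⟨h1, h2, h3⟩ := walk_step σ invol nonc unm h (Or.inl hi) hk hin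
        let m : Fin N := ⟨(σ k : ℕ) - 1, by have := (σ k).2; omega⟩
        have hm : (m : ℕ) + 1 = σ k := by
          show (σ k : ℕ) - 1 + 1 = σ k
          rw [Fin.lt_def] at h1
          omega
        have him : i ≤ m := by
          rw [Fin.le_def]; rw [Fin.lt_def] at h1; omega
        have hmk : m < k := by
          rw [Fin.lt_def]; rw [Fin.lt_def] at h2; omega
        have hmin := h3 m hm
        have h4 := ih m (by rw [← hkn]; rw [Fin.lt_def] at hmk; exact hmk) m rfl him
          (hmk.trans hkj) hmin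
        have h5 := key m (σ k) him (hmk.trans hkj) hm.symm hmin
        have h6 := hs k hk
        tauto
  have h0 : 0 < (j : ℕ) := by rw [Fin.lt_def] at hij; omega
  let m : Fin N := ⟨(j : ℕ) - 1, by have := j.2; omega⟩
  have hm : (j : ℕ) = (m : ℕ) + 1 := by
    show (j : ℕ) = (j : ℕ) - 1 + 1
    omega
  have him : i ≤ m := by rw [Fin.le_def]; rw [Fin.lt_def] at hij; omega
  have hmj : m < j := by rw [Fin.lt_def]; omega
  have hmin : ∀ k, i < k → k ≤ m → σ k ≤ m := by
    intro k hik hkm
    have hkj : k < j := lt_of_le_of_lt hkm hmj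
    have h1 : σ k ≠ j := by
      intro h
      have : k = j := by rw [← invol k, h, hj]
      exact absurd hkj (by rw [this]; exact lt_irrefl _)
    have h2 : ¬ j < σ k := fun h => unm k j hkj h hj
    have h3 : σ k < j := lt_of_le_of_ne (not_lt.1 h2) h1
    rw [Fin.le_def]; rw [Fin.lt_def] at h3; omega
  have h4 := main m m rfl him hmj hmin
  have h5 := key m j him hmj hm hmin
  tauto

end Pool.CSH
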