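import Mathlib

set_option autoImplicit false

/-!
# Continuous logarithms on compact convex sets (MP_a0ec2a_an)
-/

namespace Pool.CSH

open Set

/-- A zero-free continuous function on a compact convex set has a continuous logarithm. -/
theorem exists_clog {E : Type*} [NormedAddCommGroup E] [NormedSpace ℝ E] {K : Set E}
    (hK : IsCompact K) (hc : Convex ℝ K) {q : E → ℂ} (hq : ContinuousOn q K)
    (h0 : ∀ x ∈ K, q x ≠ 0) :
    ∃ l : E → ℂ, ContinuousOn l K ∧ ∀ x ∈ K, Complex.exp (l x) = q x := by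
  classical
  rcases K.eq_empty_or_nonempty with hE | ⟨x0, hx0⟩
  · subst hE
    exact ⟨fun _ => 0, continuousOn_empty _, by simp⟩
  -- lower bound for `|q|`
  obtain ⟨xm, hxm, hmin⟩ := hK.exists_isMinOn ⟨x0, hx0⟩ hq.norm
  set m : ℝ := ‖q xm‖ with hm
  have hmpos : 0 < m := norm_pos_iff.2 (h0 xm hxm)
  have hmin' : ∀ x ∈ K, m ≤ ‖q x‖ := fun x hx => hmin hx
  -- the homotopy
  let H : E × ℝ → E := fun z => x0 + z.2 • (z.1 - x0)
  have hHc : Continuous H := by fun_prop
  have hHK : ∀ x ∈ K, ∀ s ∈ Icc (0 : ℝ) 1, H (x, s) ∈ K := by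
    intro x hx s hs
    have h1 := hc hx0 hx (a := 1 - s) (b := s) (by linarith [hs.2]) hs.1 (by ring)
    have h2 : H (x, s) = (1 - s) • x0 + s • x := by
      show x0 + s • (x - x0) = _
      rw [smul_sub, sub_smul, one_smul]; abel
    rw [h2]; exact h1
  have hcomp : IsCompact (K ×ˢ Icc (0 : ℝ) 1) := hK.prod isCompact_Icc
  have hqH : ContinuousOn (fun z : E × ℝ => q (H z)) (K ×ˢ Icc (0 : ℝ) 1) :=
    hq.comp hHc.continuousOn (fun z hz => hHK z.1 hz.1 z.2 hz.2)
  have huc := hcomp.uniformContinuousOn_of_continuous hqH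
  rw [Metric.uniformContinuousOn_iff] at huc
  obtain ⟨δ, hδ, huc⟩ := huc m hmpos
  obtain ⟨n, hn⟩ := exists_nat_gt (1 / δ)
  have hn0 : 0 < n := by
    rcases Nat.eq_zero_or_pos n with h | h
    · rw [h] at hn
      have : 0 < 1 / δ := by positivity
      simp at hn
      linarith
    · exact h
  have hnR : (0 : ℝ) < n := by exact_mod_cast hn0
  have hstep : 1 / (n : ℝ) < δ := by
    rw [div_lt_iff₀ hnR]
    rw [div_lt_iff₀ hδ] at hn
    linarith
  -- grid points
  let s : ℕ → ℝ := fun j => (j : ℝ) / n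
  have hs : ∀ j ≤ n, s j ∈ Icc (0 : ℝ) 1 := by
    intro j hj
    have : (j : ℝ) ≤ n := by exact_mod_cast hj
    refine ⟨by positivity, ?_⟩
    show (j : ℝ) / n ≤ 1
    rw [div_le_one hnR]; exact this
  have hHj : ∀ x ∈ K, ∀ j ≤ n, H (x, s j) ∈ K := fun x hx j hj => hHK x hx _ (hs j hj)
  have hslit : ∀ x ∈ K, ∀ j < n, q (H (x, s (j + 1))) / q (H (x, s j)) ∈ Complex.slitPlane := by
    intro x hx j hj
    have h1 : ‖q (H (x, s (j + 1))) - q (H (x, s j))‖ < m := by
      have := huc (x, s (j + 1)) ⟨hx, hs _ hj⟩ (x, s j) ⟨hx, hs _ hj.le⟩ (by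
        rw [Prod.dist_eq, dist_self]
        have h2 : dist (s (j + 1)) (s j) = 1 / n := by
          rw [Real.dist_eq]
          show |((j + 1 : ℕ) : ℝ) / n - (j : ℝ) / n| = 1 / n
          rw [← sub_div]
          push_cast
          rw [add_sub_cancel_left, abs_of_pos (by positivity)]
        rw [h2]
        exact max_lt hδ hstep)
      rwa [dist_eq_norm] at this
    have h2 : q (H (x, s j)) ≠ 0 := h0 _ (hHj x hx j hj.le)
    have h3 : ‖q (H (x, s (j + 1))) / q (H (x, s j)) - 1‖ < 1 := by
      rw [div_sub_one h2, norm_div, div_lt_one (norm_pos_iff.2 h2)]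
      exact lt_of_lt_of_le h1 (hmin' _ (hHj x hx j hj.le))
    have h4 := Complex.mem_slitPlane_of_norm_lt_one h3
    simpa using h4
  refine ⟨fun x => Complex.log (q x0) +
    ∑ j ∈ Finset.range n, Complex.log (q (H (x, s (j + 1))) / q (H (x, s j))), ?_, ?_⟩
  · refine continuousOn_const.add (continuousOn_finsetSum _ fun j hj => ?_)
    have hj' : j < n := Finset.mem_range.1 hj
    have hcx : ∀ i ≤ n, ContinuousOn (fun x => q (H (x, s i))) K := by
      intro i hi
      refine hq.comp (Continuous.continuousOn ?_) (fun x hx => hHj x hx i hi)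
      exact hHc.comp (by fun_prop)
    exact ((hcx (j + 1) hj').div (hcx j hj'.le) (fun x hx => h0 _ (hHj x hx j hj'.le))).clog
      (fun x hx => hslit x hx j hj')
  · intro x hx
    rw [Complex.exp_add, Complex.exp_log (h0 x0 hx0), Complex.exp_sum]
    have h1 : ∀ j ∈ Finset.range n,
        Complex.exp (Complex.log (q (H (x, s (j + 1))) / q (H (x, s j)))) =
          q (H (x, s (j + 1))) / q (H (x, s j)) := by
      intro j hj
      have hj' : j < n := Finset.mem_range.1 hj
      exact Complex.exp_log (div_ne_zero (h0 _ (hHj x hx _ hj')) (h0 _ (hHj x hx _ hj'.le)))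
    rw [Finset.prod_congr rfl h1]
    have h2 : ∀ k ≤ n, q x0 * ∏ j ∈ Finset.range k, q (H (x, s (j + 1))) / q (H (x, s j)) =
        q (H (x, s k)) := by
      intro k
      induction k with
      | zero =>
        intro _
        have : H (x, s 0) = x0 := by
          show x0 + (((0 : ℕ) : ℝ) / (n : ℝ)) • (x - x0) = x0
          simp
        rw [Finset.prod_range_zero, mul_one, this]
      | succ k ih =>
        intro hk
        rw [Finset.prod_range_succ, ← mul_assoc, ih (by omega)]
        have h3 := h0 _ (hHj x hx k (by omega))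
        field_simp
    rw [h2 n le_rfl]
    have : H (x, s n) = x := by
      show x0 + (((n : ℕ) : ℝ) / (n : ℝ)) • (x - x0) = x
      rw [div_self hnR.ne', one_smul]; abel
    rw [this]

end Pool.CSH
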