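import Pool.Agent.CSH.Defs
import Pool.Agent.CSH.CLog

set_option autoImplicit false

/-!
# Horizontal tangents on arcs of the boundary curve (MP_a0ec2a_an)

An injective regular arc which leaves a horizontal line upwards, stays above it, and comes back
to the right of its starting point has a horizontal tangent pointing to the right.
-/

namespace Pool.CSH

open Complex Set Metric ComplexConjugate

/-- The averaged derivative (secant). -/
noncomputable def sec (γ' : ℝ → ℂ) (z : ℝ × ℝ) : ℂ :=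
  ∫ τ in (0 : ℝ)..1, γ' (z.1 + τ * (z.2 - z.1))

theorem sec_continuous {γ' : ℝ → ℂ} (hc : Continuous γ') : Continuous (sec γ') := by
  unfold sec
  refine intervalIntegral.continuous_parametric_intervalIntegral_of_continuous' ?_ 0 1
  exact hc.comp (by fun_prop)

theorem sec_self {γ' : ℝ → ℂ} (s : ℝ) : sec γ' (s, s) = γ' s := by
  simp [sec]

theorem sec_mul {γ γ' : ℝ → ℂ} (hd : ∀ t, HasDerivAt γ (γ' t) t) (hc : Continuous γ')
    (s t : ℝ) : ((t - s : ℝ) : ℂ) * sec γ' (s, t) = γ t - γ s := by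
  have h1 : ∀ τ ∈ uIcc (0 : ℝ) 1, HasDerivAt (fun τ : ℝ => γ (s + τ * (t - s)))
      ((t - s : ℝ) • γ' (s + τ * (t - s))) τ := by
    intro τ _
    have h2 : HasDerivAt (fun τ : ℝ => s + τ * (t - s)) (t - s) τ := by
      simpa using ((hasDerivAt_id τ).mul_const (t - s)).const_add s
    exact (hd (s + τ * (t - s))).scomp τ h2
  have h3 := intervalIntegral.integral_eq_sub_of_hasDerivAt h1
    ((by fun_prop : Continuous fun τ : ℝ => (t - s : ℝ) • γ' (s + τ * (t - s))).intervalIntegrable
      0 1)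
  rw [intervalIntegral.integral_smul] at h3
  simp only [one_mul, zero_mul, add_zero] at h3
  rw [show s + (t - s) = t by ring] at h3
  rw [← h3]
  simp [sec]

/-- The main lemma on arcs. -/
theorem plat_curve {γ γ' : ℝ → ℂ} {a b : ℝ} (hab : a < b) (hd : ∀ t, HasDerivAt γ (γ' t) t)
    (hc : Continuous γ') (hne : ∀ t, γ' t ≠ 0) (inj : InjOn γ (Icc a b))
    (hv : (γ a).im = (γ b).im) (hin : ∀ t ∈ Ioo a b, (γ a).im < (γ t).im)
    (ha : 0 < (γ' a).im) (hb : (γ' b).im < 0) (hx : (γ a).re < (γ b).re) :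
    ∃ t ∈ Ioo a b, (γ' t).im = 0 ∧ 0 < (γ' t).re := by
  set q : ℝ × ℝ → ℂ := sec γ' with hq
  have hqc : Continuous q := sec_continuous hc
  set K : Set (ℝ × ℝ) := Icc a b ×ˢ Icc a b with hKdef
  have hK : IsCompact K := isCompact_Icc.prod isCompact_Icc
  have hKc : Convex ℝ K := (convex_Icc a b).prod (convex_Icc a b)
  have hq0 : ∀ z ∈ K, q z ≠ 0 := by
    rintro ⟨s, t⟩ ⟨hs, ht⟩
    by_cases h : s = t
    · rw [h, hq, sec_self]; exact hne t
    · intro h1
      have h2 := sec_mul hd hc s t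
      rw [← hq, h1, mul_zero] at h2
      exact h (inj hs ht (sub_eq_zero.1 h2.symm).symm)
  obtain ⟨l, hlc, hl⟩ := exists_clog hK hKc hqc.continuousOn hq0
  have haI : a ∈ Icc a b := ⟨le_rfl, hab.le⟩
  have hbI : b ∈ Icc a b := ⟨hab.le, le_rfl⟩
  have habK : (a, b) ∈ K := ⟨haI, hbI⟩
  -- the value at the corner
  obtain ⟨r0, hr0, hqab⟩ : ∃ r0 : ℝ, 0 < r0 ∧ q (a, b) = r0 := by
    refine ⟨((γ b).re - (γ a).re) / (b - a), div_pos (by linarith) (by linarith), ?_⟩
    have h2 := sec_mul hd hc a b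
    rw [← hq] at h2
    have h3 : ((b - a : ℝ) : ℂ) ≠ 0 := by
      exact_mod_cast (sub_pos.2 hab).ne'
    have h4 : γ b - γ a = (((γ b).re - (γ a).re : ℝ) : ℂ) := by
      apply Complex.ext
      · simp
      · simp [hv]
    rw [h4] at h2
    rw [Complex.ofReal_div, eq_div_iff h3, mul_comm]
    exact h2
  -- the normalised argument
  set F : ℝ × ℝ → ℝ := fun z => (l z).im - (l (a, b)).im with hF
  have hFc : ContinuousOn F K := by
    have : ContinuousOn (fun z => (l z).im) K := Complex.continuous_im.comp_continuousOn hlc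
    exact this.sub continuousOn_const
  have hpolar : ∀ z ∈ K, ∃ ρ : ℝ, 0 < ρ ∧ (q z).re = ρ * Real.cos (F z) ∧
      (q z).im = ρ * Real.sin (F z) := by
    intro z hz
    refine ⟨r0 * Real.exp ((l z).re - (l (a, b)).re), by positivity, ?_⟩
    have h1 : q z = r0 * Complex.exp (l z - l (a, b)) := by
      rw [Complex.exp_sub, hl z hz, hl _ habK, hqab]
      have : (r0 : ℂ) ≠ 0 := by exact_mod_cast hr0.ne'
      field_simp
    rw [h1, Complex.re_ofReal_mul, Complex.im_ofReal_mul, Complex.exp_re, Complex.exp_im,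
      Complex.sub_re, Complex.sub_im]
    constructor <;> ring
  have hF0 : F (a, b) = 0 := by simp [hF]
  -- first side
  have him1 : ∀ t ∈ Ico a b, 0 < (q (a, t)).im := by
    intro t ht
    rcases ht.1.eq_or_lt with h | h
    · rw [← h, hq, sec_self]; exact ha
    · have h2 := sec_mul hd hc a t
      rw [← hq] at h2
      have h3 := congrArg Complex.im h2
      rw [Complex.im_ofReal_mul, Complex.sub_im] at h3
      have h4 := hin t ⟨h, ht.2⟩
      by_contra h5
      push Not at h5
      nlinarith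
  have him2 : ∀ s ∈ Ioc a b, (q (s, b)).im < 0 := by
    intro s hs
    rcases hs.2.eq_or_lt with h | h
    · rw [h, hq, sec_self]; exact hb
    · have h2 := sec_mul hd hc s b
      rw [← hq] at h2
      have h3 := congrArg Complex.im h2
      rw [Complex.im_ofReal_mul, Complex.sub_im] at h3
      have h4 := hin s ⟨hs.1, h⟩
      by_contra h5
      push Not at h5
      nlinarith
  have hK1 : ∀ t ∈ Icc a b, (a, t) ∈ K := fun t ht => ⟨haI, ht⟩
  have hK2 : ∀ s ∈ Icc a b, (s, b) ∈ K := fun s hs => ⟨hs, hbI⟩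
  have hs1 : ∀ t ∈ Ico a b, 0 < Real.sin (F (a, t)) := by
    intro t ht
    obtain ⟨ρ, hρ, _, h2⟩ := hpolar (a, t) (hK1 t ⟨ht.1, ht.2.le⟩)
    have h3 := him1 t ht
    rw [h2] at h3
    exact pos_of_mul_pos_right h3 hρ.le |> fun h => h
  have hs2 : ∀ s ∈ Ioc a b, Real.sin (F (s, b)) < 0 := by
    intro s hs
    obtain ⟨ρ, hρ, _, h2⟩ := hpolar (s, b) (hK2 s ⟨hs.1.le, hs.2⟩)
    have h3 := him2 s hs
    rw [h2] at h3
    by_contra h4
    push Not at h4
    nlinarith [mul_nonneg hρ.le h4]
  have hc1 : ContinuousOn (fun t => F (a, t)) (Icc a b) :=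
    hFc.comp (by fun_prop) (fun t ht => hK1 t ht)
  have hc2 : ContinuousOn (fun s => F (s, b)) (Icc a b) :=
    hFc.comp (by fun_prop) (fun t ht => hK2 t ht)
  have hpi := Real.pi_pos
  -- the value at `(a, a)` is positive
  have hFa : 0 < F (a, a) := by
    by_contra h
    push Not at h
    have h1 := hs1 a ⟨le_rfl, hab⟩
    have h2 : F (a, a) < -(Real.pi / 2) := by
      by_contra h3
      push Not at h3
      have := Real.sin_nonpos_of_nonpos_of_neg_pi_le h (by linarith)
      linarith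
    have h3 : -(Real.pi / 2) ∈ Icc (F (a, a)) (F (a, b)) := by
      rw [hF0]; constructor <;> linarith
    obtain ⟨t, ht, h4⟩ := intermediate_value_Icc hab.le hc1 h3
    have h4' : F (a, t) = -(Real.pi / 2) := h4
    have h5 : t ≠ b := by
      intro h6
      rw [h6, hF0] at h4'
      linarith
    have h6 := hs1 t ⟨ht.1, lt_of_le_of_ne ht.2 h5⟩
    rw [h4', Real.sin_neg, Real.sin_pi_div_two] at h6
    linarith
  have hFb : F (b, b) < 0 := by
    by_contra h
    push Not at h
    have h1 := hs2 b ⟨hab, le_rfl⟩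
    have h2 : Real.pi / 2 < F (b, b) := by
      by_contra h3
      push Not at h3
      have := Real.sin_nonneg_of_nonneg_of_le_pi h (by linarith)
      linarith
    have h3 : Real.pi / 2 ∈ Icc (F (a, b)) (F (b, b)) := by
      rw [hF0]; constructor <;> linarith
    obtain ⟨t, ht, h4⟩ := intermediate_value_Icc hab.le hc2 h3
    have h4' : F (t, b) = Real.pi / 2 := h4
    have h5 : a ≠ t := by
      intro h6
      rw [← h6, hF0] at h4'
      linarith
    have h6 := hs2 t ⟨lt_of_le_of_ne ht.1 h5, ht.2⟩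
    rw [h4', Real.sin_pi_div_two] at h6
    linarith
  -- the diagonal
  have hc3 : ContinuousOn (fun t => F (t, t)) (Icc a b) :=
    hFc.comp (by fun_prop) (fun t ht => ⟨ht, ht⟩)
  obtain ⟨t, ht, h4⟩ := intermediate_value_Icc' hab.le hc3 (show (0 : ℝ) ∈ Icc (F (b, b)) (F (a, a))
    from ⟨hFb.le, hFa.le⟩)
  have h4' : F (t, t) = 0 := h4
  have h5 : a ≠ t := by
    intro h6
    rw [← h6] at h4'
    linarith
  have h6 : t ≠ b := by
    intro h6
    rw [h6] at h4'
    linarith
  obtain ⟨ρ, hρ, h7, h8⟩ := hpolar (t, t) ⟨ht, ht⟩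
  rw [h4', hq, sec_self] at h7 h8
  refine ⟨t, ⟨lt_of_le_of_ne ht.1 h5, lt_of_le_of_ne ht.2 h6⟩, ?_, ?_⟩
  · rw [h8]; simp
  · rw [h7]; simpa using hρ

/-! ### The boundary curve of a univalent harmonic polynomial -/

theorem bd_im (h g : Polynomial ℂ) (θ : ℝ) : (bd h g θ).im = vv (h - g) θ := by
  simp [bd, ff, vv, sub_eq_add_neg]

theorem bd_hasDerivAt (h g : Polynomial ℂ) (θ : ℝ) :
    HasDerivAt (bd h g) (⟨ud h g θ, vd (h - g) θ⟩ : ℂ) θ := by
  have he : HasDerivAt (fun θ : ℝ => Complex.exp (θ * I)) (Complex.exp (θ * I) * I) θ := by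
    have h1 : HasDerivAt (fun θ : ℝ => (θ : ℂ) * I) I θ := by
      simpa using (Complex.ofRealCLM.hasDerivAt (x := θ)).mul_const I
    exact h1.cexp
  have h1 : HasDerivAt (fun θ : ℝ => h.eval (Complex.exp (θ * I)))
      (h.derivative.eval (Complex.exp (θ * I)) * (Complex.exp (θ * I) * I)) θ :=
    (h.hasDerivAt _).comp θ he
  have h2 : HasDerivAt (fun θ : ℝ => g.eval (Complex.exp (θ * I)))
      (g.derivative.eval (Complex.exp (θ * I)) * (Complex.exp (θ * I) * I)) θ :=
    (g.hasDerivAt _).comp θ he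
  have h3 : HasDerivAt (fun θ : ℝ => conj (g.eval (Complex.exp (θ * I))))
      (conj (g.derivative.eval (Complex.exp (θ * I)) * (Complex.exp (θ * I) * I))) θ :=
    h2.star
  have h4 : HasDerivAt (bd h g)
      (h.derivative.eval (Complex.exp (θ * I)) * (Complex.exp (θ * I) * I) +
        conj (g.derivative.eval (Complex.exp (θ * I)) * (Complex.exp (θ * I) * I))) θ := h1.add h3
  have h5 : (⟨ud h g θ, vd (h - g) θ⟩ : ℂ) =
      h.derivative.eval (Complex.exp (θ * I)) * (Complex.exp (θ * I) * I) +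
        conj (g.derivative.eval (Complex.exp (θ * I)) * (Complex.exp (θ * I) * I)) := by
    apply Complex.ext
    · simp only [ud, Polynomial.derivative_add, Polynomial.eval_add, Complex.add_re,
        Complex.mul_re, Complex.mul_im, Complex.conj_re, Complex.add_im, Complex.I_re,
        Complex.I_im]
      ring
    · simp only [vd, Polynomial.derivative_sub, Polynomial.eval_sub,
        Complex.mul_re, Complex.mul_im, Complex.conj_im, Complex.add_im, Complex.I_re,
        Complex.I_im, Complex.sub_re, Complex.sub_im]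
      ring
  rw [h5]
  exact h4

theorem bd_deriv_ne {h g : Polynomial ℂ} {r : ℝ} (hU : Uni h g r) (θ : ℝ) :
    (⟨ud h g θ, vd (h - g) θ⟩ : ℂ) ≠ 0 := by
  intro h0
  have hz : Complex.exp (θ * I) ∈ ball (0 : ℂ) r := by
    rw [mem_ball_zero_iff, Complex.norm_exp_ofReal_mul_I]
    exact hU.one_lt
  have hs := hU.sp _ hz
  have h1 : ud h g θ = 0 := congrArg Complex.re h0
  have h2 : vd (h - g) θ = 0 := congrArg Complex.im h0
  set z := Complex.exp (θ * I) with hzd
  have hn : ‖z‖ = 1 := Complex.norm_exp_ofReal_mul_I θ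
  have h3 : z * h.derivative.eval z = conj (z * g.derivative.eval z) := by
    simp only [ud, vd, Polynomial.derivative_add, Polynomial.derivative_sub, Polynomial.eval_add,
      Polynomial.eval_sub, ← hzd] at h1 h2
    rw [mul_add, Complex.add_im] at h1
    rw [mul_sub, Complex.sub_re] at h2
    apply Complex.ext
    · rw [Complex.conj_re]; linarith
    · rw [Complex.conj_im]; linarith
  have h4 := congrArg norm h3
  rw [norm_mul, Complex.norm_conj, norm_mul, hn, one_mul, one_mul] at h4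
  linarith

theorem vd_continuous (L : Polynomial ℂ) : Continuous (vd L) := by
  unfold vd
  fun_prop

theorem ud_continuous (h g : Polynomial ℂ) : Continuous (ud h g) := by
  unfold ud
  fun_prop

theorem bd_injOn {h g : Polynomial ℂ} {r : ℝ} (hU : Uni h g r) {a b : ℝ}
    (hb : b < a + 2 * Real.pi) : InjOn (bd h g) (Icc a b) := by
  intro s hs t ht hst
  have hz : ∀ θ : ℝ, Complex.exp (θ * I) ∈ ball (0 : ℂ) r := by
    intro θ
    rw [mem_ball_zero_iff, Complex.norm_exp_ofReal_mul_I]
    exact hU.one_lt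
  have h1 := hU.inj (hz s) (hz t) hst
  rw [Complex.exp_eq_exp_iff_exists_int] at h1
  obtain ⟨n, hn⟩ := h1
  have h2 : s = t + n * (2 * Real.pi) := by
    have h3 := congrArg Complex.im hn
    simpa using h3
  have hpi := Real.pi_pos
  have h4 : (n : ℝ) = 0 := by
    have h5 : |(n : ℝ)| < 1 := by
      have h6 : |(n : ℝ) * (2 * Real.pi)| < 2 * Real.pi := by
        rw [abs_lt]; constructor <;> linarith [hs.1, hs.2, ht.1, ht.2]
      rw [abs_mul, abs_of_pos (by positivity : (0 : ℝ) < 2 * Real.pi)] at h6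
      by_contra h7
      push Not at h7
      nlinarith
    have h6 : |n| < 1 := by exact_mod_cast h5
    have h7 : n = 0 := Int.abs_lt_one_iff.1 h6
    simp [h7]
  rw [h4] at h2
  linarith

/-- An arc above a level which returns to the right: a critical point with `ud > 0`. -/
theorem plat_up {h g : Polynomial ℂ} {r : ℝ} (hU : Uni h g r) {a b : ℝ} (hab : a < b)
    (hb : b < a + 2 * Real.pi) (hv : vv (h - g) a = vv (h - g) b)
    (hin : ∀ t ∈ Ioo a b, vv (h - g) a < vv (h - g) t) (ha : 0 < vd (h - g) a)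
    (hb' : vd (h - g) b < 0) (hx : (bd h g a).re < (bd h g b).re) :
    ∃ t ∈ Ioo a b, vd (h - g) t = 0 ∧ 0 < ud h g t := by
  have hcont : Continuous (fun t : ℝ => (⟨ud h g t, vd (h - g) t⟩ : ℂ)) := by
    have h1 : (fun t : ℝ => (⟨ud h g t, vd (h - g) t⟩ : ℂ)) =
        fun t : ℝ => ((ud h g t : ℝ) : ℂ) + ((vd (h - g) t : ℝ) : ℂ) * I := by
      funext t
      exact Complex.mk_eq_add_mul_I _ _
    rw [h1]
    have h2 := ud_continuous h g
    have h3 := vd_continuous (h - g)
    fun_prop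
  obtain ⟨t, ht, h1, h2⟩ := plat_curve (γ := bd h g)
    (γ' := fun t => (⟨ud h g t, vd (h - g) t⟩ : ℂ)) hab (bd_hasDerivAt h g) hcont
    (bd_deriv_ne hU) (bd_injOn hU hb) (by rw [bd_im, bd_im]; exact hv)
    (by intro t ht; rw [bd_im, bd_im]; exact hin t ht) ha hb' hx
  exact ⟨t, ht, h1, h2⟩

/-- An arc below a level which returns to the left: a critical point with `ud < 0`. -/
theorem plat_down {h g : Polynomial ℂ} {r : ℝ} (hU : Uni h g r) {a b : ℝ} (hab : a < b)
    (hb : b < a + 2 * Real.pi) (hv : vv (h - g) a = vv (h - g) b)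
    (hin : ∀ t ∈ Ioo a b, vv (h - g) t < vv (h - g) a) (ha : vd (h - g) a < 0)
    (hb' : 0 < vd (h - g) b) (hx : (bd h g b).re < (bd h g a).re) :
    ∃ t ∈ Ioo a b, vd (h - g) t = 0 ∧ ud h g t < 0 := by
  have hcont : Continuous (fun t : ℝ => -(⟨ud h g t, vd (h - g) t⟩ : ℂ)) := by
    have h1 : (fun t : ℝ => -(⟨ud h g t, vd (h - g) t⟩ : ℂ)) =
        fun t : ℝ => -(((ud h g t : ℝ) : ℂ) + ((vd (h - g) t : ℝ) : ℂ) * I) := by
      funext t
      rw [Complex.mk_eq_add_mul_I]
    rw [h1]
    have h2 := ud_continuous h g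
    have h3 := vd_continuous (h - g)
    fun_prop
  obtain ⟨t, ht, h1, h2⟩ := plat_curve (γ := fun t => -bd h g t)
    (γ' := fun t => -(⟨ud h g t, vd (h - g) t⟩ : ℂ)) hab (fun t => (bd_hasDerivAt h g t).neg) hcont
    (fun t => neg_ne_zero.2 (bd_deriv_ne hU t))
    (fun s hs t ht hst => bd_injOn hU hb hs ht (neg_injective hst))
    (by rw [Complex.neg_im, Complex.neg_im, bd_im, bd_im, hv])
    (by intro t ht; rw [Complex.neg_im, Complex.neg_im, bd_im, bd_im]; linarith [hin t ht])
    (by rw [Complex.neg_im]; simpa using ha) (by rw [Complex.neg_im]; simpa using hb')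
    (by rw [Complex.neg_re, Complex.neg_re]; linarith)
  refine ⟨t, ht, ?_, ?_⟩
  · rw [Complex.neg_im] at h1
    simpa using h1
  · rw [Complex.neg_re] at h2
    simpa using h2

end Pool.CSH
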