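import Pool.Agent.CSH.Defs
import Pool.Agent.CSH.Plateau

set_option autoImplicit false

/-!
# The crossings of the boundary curve with a non-critical level (MP_a0ec2a_an)

`Planar h g` collects the planarity facts F1 -- F4 about the boundary curve (proved elsewhere);
the theorems of this file and of `Level.lean` are proved from them.
-/

namespace Pool.CSH

open Complex Set Metric ComplexConjugate Filter Topology

/-- The planarity facts about the boundary curve. -/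
structure Planar (h g : Polynomial ℂ) : Prop where
  adj_sign : ∀ a b : ℝ, (bd h g a).im = (bd h g b).im → (bd h g a).re < (bd h g b).re →
    (∀ t : ℝ, (bd h g t).im = (bd h g a).im →
      (bd h g t).re ≤ (bd h g a).re ∨ (bd h g b).re ≤ (bd h g t).re) →
    vd (h - g) a ≠ 0 → vd (h - g) b ≠ 0 → (0 < vd (h - g) a ↔ vd (h - g) b < 0)
  left_sign : ∀ b : ℝ, (∀ t : ℝ, (bd h g t).im = (bd h g b).im → (bd h g b).re ≤ (bd h g t).re) →
    vd (h - g) b ≠ 0 → vd (h - g) b < 0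
  right_sign : ∀ a : ℝ, (∀ t : ℝ, (bd h g t).im = (bd h g a).im → (bd h g t).re ≤ (bd h g a).re) →
    vd (h - g) a ≠ 0 → 0 < vd (h - g) a
  nc_gap : ∀ θ₀ : ℝ, (∀ θ, vv (h - g) θ ≤ vv (h - g) θ₀) → ∀ a b a' b' : ℝ,
    a ∈ Ioo θ₀ (θ₀ + 2 * Real.pi) → b ∈ Ioo θ₀ (θ₀ + 2 * Real.pi) →
    a' ∈ Ioo θ₀ (θ₀ + 2 * Real.pi) → b' ∈ Ioo θ₀ (θ₀ + 2 * Real.pi) →
    Gap h g a b → Gap h g a' b' → a' ≠ a →
    (min a b < a' ∧ a' < max a b) → min a b < b' ∧ b' < max a b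
  nc_gap' : ∀ θ₀ : ℝ, (∀ θ, vv (h - g) θ ≤ vv (h - g) θ₀) → ∀ a b a' b' : ℝ,
    a ∈ Ioo θ₀ (θ₀ + 2 * Real.pi) → b ∈ Ioo θ₀ (θ₀ + 2 * Real.pi) →
    a' ∈ Ioo θ₀ (θ₀ + 2 * Real.pi) → b' ∈ Ioo θ₀ (θ₀ + 2 * Real.pi) →
    Gap h g a b → Gap h g a' b' → a' ≠ a →
    (min a b < b' ∧ b' < max a b) → min a b < a' ∧ a' < max a b
  nc_free : ∀ θ₀ : ℝ, (∀ θ, vv (h - g) θ ≤ vv (h - g) θ₀) → ∀ a b x : ℝ,
    a ∈ Ioo θ₀ (θ₀ + 2 * Real.pi) → b ∈ Ioo θ₀ (θ₀ + 2 * Real.pi) →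
    x ∈ Ioo θ₀ (θ₀ + 2 * Real.pi) → Gap h g a b → (RFree h g x ∨ LFree h g x) →
    ¬ (min a b < x ∧ x < max a b)
  nc_order : ∀ θ₀ : ℝ, (∀ θ, vv (h - g) θ ≤ vv (h - g) θ₀) → ∀ x y : ℝ,
    x ∈ Ioo θ₀ (θ₀ + 2 * Real.pi) → y ∈ Ioo θ₀ (θ₀ + 2 * Real.pi) →
    LFree h g x → RFree h g y → x < y

theorem exp_add_int_mul (θ : ℝ) (n : ℤ) :
    Complex.exp (((θ + n * (2 * Real.pi) : ℝ) : ℂ) * I) = Complex.exp (θ * I) := by
  rw [Complex.exp_eq_exp_iff_exists_int]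
  refine ⟨n, ?_⟩
  push_cast
  ring

theorem bd_add_int (h g : Polynomial ℂ) (θ : ℝ) (n : ℤ) :
    bd h g (θ + n * (2 * Real.pi)) = bd h g θ := by
  unfold bd
  rw [exp_add_int_mul]

theorem vv_add_int (L : Polynomial ℂ) (θ : ℝ) (n : ℤ) :
    vv L (θ + n * (2 * Real.pi)) = vv L θ := by
  unfold vv
  rw [exp_add_int_mul]

theorem vd_add_int (L : Polynomial ℂ) (θ : ℝ) (n : ℤ) :
    vd L (θ + n * (2 * Real.pi)) = vd L θ := by
  unfold vd
  rw [exp_add_int_mul]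

/-- Every angle has a representative in `[θ₀, θ₀ + 2π)`. -/
theorem exists_rep (θ₀ θ : ℝ) : ∃ n : ℤ, θ + n * (2 * Real.pi) ∈ Ico θ₀ (θ₀ + 2 * Real.pi) := by
  have hp : 0 < 2 * Real.pi := by positivity
  obtain ⟨n, hn, _⟩ := existsUnique_add_zsmul_mem_Ico hp θ θ₀
  refine ⟨n, ?_⟩
  simpa [zsmul_eq_mul] using hn

theorem vv_hasDerivAt (h g : Polynomial ℂ) (θ : ℝ) :
    HasDerivAt (vv (h - g)) (vd (h - g) θ) θ := by
  have h1 := (Complex.imCLM.hasFDerivAt (x := bd h g θ)).comp_hasDerivAt θ (bd_hasDerivAt h g θ)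
  have h2 : (Complex.imCLM ∘ bd h g) = vv (h - g) := by
    funext t
    exact bd_im h g t
  have h3 : (fun t => Complex.imCLM (bd h g t)) = vv (h - g) := by
    funext t
    exact bd_im h g t
  simpa [h2, h3] using h1

theorem vv_continuous (h g : Polynomial ℂ) : Continuous (vv (h - g)) :=
  continuous_iff_continuousAt.2 fun θ => (vv_hasDerivAt h g θ).continuousAt

theorem vd_argmax {h g : Polynomial ℂ} {θ₀ : ℝ}
    (hθ₀ : ∀ θ, vv (h - g) θ ≤ vv (h - g) θ₀) : vd (h - g) θ₀ = 0 := by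
  have h1 : IsLocalMax (vv (h - g)) θ₀ := Filter.Eventually.of_forall hθ₀
  exact h1.hasDerivAt_eq_zero (vv_hasDerivAt h g θ₀)

/-- A non-critical level has finitely many points on a compact interval. -/
theorem level_finite (h g : Polynomial ℂ) (θ₀ c : ℝ)
    (hnc : ∀ θ, vv (h - g) θ = c → vd (h - g) θ ≠ 0) :
    {θ | θ ∈ Icc θ₀ (θ₀ + 2 * Real.pi) ∧ vv (h - g) θ = c}.Finite := by
  set S := {θ | θ ∈ Icc θ₀ (θ₀ + 2 * Real.pi) ∧ vv (h - g) θ = c} with hS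
  by_contra hinf
  have hinf' : S.Infinite := hinf
  obtain ⟨x, hx, hacc⟩ := hinf'.exists_accPt_of_subset_isCompact isCompact_Icc
    (fun θ hθ => hθ.1)
  have hcl : IsClosed S := by
    have h1 : S = Icc θ₀ (θ₀ + 2 * Real.pi) ∩ (vv (h - g)) ⁻¹' {c} := by
      ext θ; simp [hS]
    rw [h1]
    exact isClosed_Icc.inter ((isClosed_singleton).preimage (vv_continuous h g))
  have hxS : x ∈ S := by
    have h1 := hacc.clusterPt
    exact hcl.closure_eq ▸ (mem_closure_iff_clusterPt.2 (by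
      rw [accPt_iff_clusterPt] at hacc
      exact hacc.mono inf_le_right))
  have h1 := (vv_hasDerivAt h g x).eventually_ne (hnc x hxS.2) (c := c)
  rw [accPt_iff_frequently] at hacc
  have h2 : ∀ᶠ y in 𝓝 x, y ≠ x → vv (h - g) y ≠ c := by
    rw [eventually_nhdsWithin_iff] at h1
    exact h1
  obtain ⟨y, hy1, hy2⟩ := (hacc.and_eventually h2).exists
  exact hy2 hy1.1 hy1.2.2

/-- Level points represented in the open interval. -/
theorem rep_mem_Ioo {h g : Polynomial ℂ} {θ₀ c : ℝ}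
    (hθ₀ : ∀ θ, vv (h - g) θ ≤ vv (h - g) θ₀)
    (hnc : ∀ θ, vv (h - g) θ = c → vd (h - g) θ ≠ 0) {θ : ℝ}
    (hθ : θ ∈ Icc θ₀ (θ₀ + 2 * Real.pi)) (hv : vv (h - g) θ = c) :
    θ ∈ Ioo θ₀ (θ₀ + 2 * Real.pi) := by
  have h0 : vv (h - g) θ₀ ≠ c := fun h1 => hnc θ₀ h1 (vd_argmax hθ₀)
  refine ⟨lt_of_le_of_ne hθ.1 ?_, lt_of_le_of_ne hθ.2 ?_⟩
  · intro h1
    exact h0 (by rw [h1]; exact hv)
  · intro h1
    apply h0
    have h2 := vv_add_int (h - g) θ₀ 1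
    rw [Int.cast_one, one_mul, ← h1] at h2
    rw [← h2]; exact hv

/-- ALT, upward points. -/
theorem alt_up_of {h g : Polynomial ℂ} (P : Planar h g) (θ₀ : ℝ)
    (hθ₀ : ∀ θ, vv (h - g) θ ≤ vv (h - g) θ₀) (a : ℝ) (ha : 0 < vd (h - g) a)
    (hnc : ∀ θ, vv (h - g) θ = vv (h - g) a → vd (h - g) θ ≠ 0) :
    (∃ b ∈ Ioo θ₀ (θ₀ + 2 * Real.pi), Gap h g a b) ∨ RFree h g a := by
  classical
  by_cases hR : ∀ t : ℝ, (bd h g t).im = (bd h g a).im → (bd h g t).re ≤ (bd h g a).re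
  · exact Or.inr ⟨ha, hR⟩
  left
  push Not at hR
  obtain ⟨t1, ht1, ht1'⟩ := hR
  have hfin := level_finite h g θ₀ (vv (h - g) a) hnc
  set S := {θ | θ ∈ Icc θ₀ (θ₀ + 2 * Real.pi) ∧ vv (h - g) θ = vv (h - g) a} with hS
  set S' := {θ | θ ∈ S ∧ (bd h g a).re < (bd h g θ).re} with hS'
  have hfin' : S'.Finite := hfin.subset (fun θ hθ => hθ.1)
  have hrep : ∀ t : ℝ, (bd h g t).im = (bd h g a).im →
      ∃ t' ∈ S, bd h g t' = bd h g t := by
    intro t ht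
    obtain ⟨n, hn⟩ := exists_rep θ₀ t
    refine ⟨t + n * (2 * Real.pi), ⟨⟨hn.1, hn.2.le⟩, ?_⟩, bd_add_int h g t n⟩
    rw [vv_add_int, ← bd_im, ← bd_im]; exact ht
  have hne : S'.Nonempty := by
    obtain ⟨t', h1, h2⟩ := hrep t1 ht1
    exact ⟨t', h1, by rw [h2]; exact ht1'⟩
  obtain ⟨b, hb, hbmin⟩ := Set.exists_min_image S' (fun θ => (bd h g θ).re) hfin' hne
  have hbv : vv (h - g) b = vv (h - g) a := hb.1.2
  have hbim : (bd h g a).im = (bd h g b).im := by rw [bd_im, bd_im, hbv]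
  have hmin : ∀ t : ℝ, (bd h g t).im = (bd h g a).im →
      (bd h g t).re ≤ (bd h g a).re ∨ (bd h g b).re ≤ (bd h g t).re := by
    intro t ht
    by_cases h1 : (bd h g t).re ≤ (bd h g a).re
    · exact Or.inl h1
    · right
      push Not at h1
      obtain ⟨t', h2, h3⟩ := hrep t ht
      have := hbmin t' ⟨h2, by rw [h3]; exact h1⟩
      simpa [h3] using this
  refine ⟨b, rep_mem_Ioo hθ₀ hnc hb.1.1 hbv, hbim, hb.2, ha, ?_, hmin⟩
  exact (P.adj_sign a b hbim hb.2 hmin ha.ne' (hnc b hbv)).1 ha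

/-- ALT, downward points. -/
theorem alt_down_of {h g : Polynomial ℂ} (P : Planar h g) (θ₀ : ℝ)
    (hθ₀ : ∀ θ, vv (h - g) θ ≤ vv (h - g) θ₀) (b : ℝ) (hb : vd (h - g) b < 0)
    (hnc : ∀ θ, vv (h - g) θ = vv (h - g) b → vd (h - g) θ ≠ 0) :
    (∃ a ∈ Ioo θ₀ (θ₀ + 2 * Real.pi), Gap h g a b) ∨ LFree h g b := by
  classical
  by_cases hR : ∀ t : ℝ, (bd h g t).im = (bd h g b).im → (bd h g b).re ≤ (bd h g t).re
  · exact Or.inr ⟨hb, hR⟩
  left
  push Not at hR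
  obtain ⟨t1, ht1, ht1'⟩ := hR
  have hfin := level_finite h g θ₀ (vv (h - g) b) hnc
  set S := {θ | θ ∈ Icc θ₀ (θ₀ + 2 * Real.pi) ∧ vv (h - g) θ = vv (h - g) b} with hS
  set S' := {θ | θ ∈ S ∧ (bd h g θ).re < (bd h g b).re} with hS'
  have hfin' : S'.Finite := hfin.subset (fun θ hθ => hθ.1)
  have hrep : ∀ t : ℝ, (bd h g t).im = (bd h g b).im →
      ∃ t' ∈ S, bd h g t' = bd h g t := by
    intro t ht
    obtain ⟨n, hn⟩ := exists_rep θ₀ t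
    refine ⟨t + n * (2 * Real.pi), ⟨⟨hn.1, hn.2.le⟩, ?_⟩, bd_add_int h g t n⟩
    rw [vv_add_int, ← bd_im, ← bd_im]; exact ht
  have hne : S'.Nonempty := by
    obtain ⟨t', h1, h2⟩ := hrep t1 ht1
    exact ⟨t', h1, by rw [h2]; exact ht1'⟩
  obtain ⟨a, ha, hamax⟩ := Set.exists_max_image S' (fun θ => (bd h g θ).re) hfin' hne
  have hav : vv (h - g) a = vv (h - g) b := ha.1.2
  have haim : (bd h g a).im = (bd h g b).im := by rw [bd_im, bd_im, hav]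
  have hmax : ∀ t : ℝ, (bd h g t).im = (bd h g a).im →
      (bd h g t).re ≤ (bd h g a).re ∨ (bd h g b).re ≤ (bd h g t).re := by
    intro t ht
    by_cases h1 : (bd h g b).re ≤ (bd h g t).re
    · exact Or.inr h1
    · left
      push Not at h1
      obtain ⟨t', h2, h3⟩ := hrep t (ht.trans haim)
      have := hamax t' ⟨h2, by rw [h3]; exact h1⟩
      simpa [h3] using this
  have hav0 : vd (h - g) a ≠ 0 := hnc a hav
  exact ⟨a, rep_mem_Ioo hθ₀ hnc ha.1.1 hav, haim, ha.2,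
    (P.adj_sign a b haim ha.2 hmax hav0 hb.ne).2 hb, hb, hmax⟩

/-- ALT, existence of a left free point at every non-critical attained level. -/
theorem exists_lfree_of {h g : Polynomial ℂ} (P : Planar h g) (θ₀ : ℝ)
    (hθ₀ : ∀ θ, vv (h - g) θ ≤ vv (h - g) θ₀) (a : ℝ)
    (hnc : ∀ θ, vv (h - g) θ = vv (h - g) a → vd (h - g) θ ≠ 0) :
    (∃ b ∈ Ioo θ₀ (θ₀ + 2 * Real.pi), vv (h - g) b = vv (h - g) a ∧ LFree h g b) ∧
    (∃ b ∈ Ioo θ₀ (θ₀ + 2 * Real.pi), vv (h - g) b = vv (h - g) a ∧ RFree h g b) := by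
  classical
  have hfin := level_finite h g θ₀ (vv (h - g) a) hnc
  set S := {θ | θ ∈ Icc θ₀ (θ₀ + 2 * Real.pi) ∧ vv (h - g) θ = vv (h - g) a} with hS
  have hrep : ∀ t : ℝ, vv (h - g) t = vv (h - g) a → ∃ t' ∈ S, bd h g t' = bd h g t := by
    intro t ht
    obtain ⟨n, hn⟩ := exists_rep θ₀ t
    refine ⟨t + n * (2 * Real.pi), ⟨⟨hn.1, hn.2.le⟩, ?_⟩, bd_add_int h g t n⟩
    rw [vv_add_int]; exact ht
  have hne : S.Nonempty := by
    obtain ⟨t', h1, _⟩ := hrep a rfl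
    exact ⟨t', h1⟩
  constructor
  · obtain ⟨b, hb, hbmin⟩ := Set.exists_min_image S (fun θ => (bd h g θ).re) hfin hne
    have hbv : vv (h - g) b = vv (h - g) a := hb.2
    have hmin : ∀ t : ℝ, (bd h g t).im = (bd h g b).im → (bd h g b).re ≤ (bd h g t).re := by
      intro t ht
      obtain ⟨t', h2, h3⟩ := hrep t (by rw [← bd_im, ht, bd_im, hbv])
      have := hbmin t' h2
      simpa [h3] using this
    exact ⟨b, rep_mem_Ioo hθ₀ hnc hb.1 hbv, hbv, P.left_sign b hmin (hnc b hbv), hmin⟩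
  · obtain ⟨b, hb, hbmax⟩ := Set.exists_max_image S (fun θ => (bd h g θ).re) hfin hne
    have hbv : vv (h - g) b = vv (h - g) a := hb.2
    have hmax : ∀ t : ℝ, (bd h g t).im = (bd h g b).im → (bd h g t).re ≤ (bd h g b).re := by
      intro t ht
      obtain ⟨t', h2, h3⟩ := hrep t (by rw [← bd_im, ht, bd_im, hbv])
      have := hbmax t' h2
      simpa [h3] using this
    exact ⟨b, rep_mem_Ioo hθ₀ hnc hb.1 hbv, hbv, P.right_sign b hmax (hnc b hbv), hmax⟩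

end Pool.CSH
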