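import Mathlib

/-!
Linear part of the closing-up argument (harmonic univalent maps, `|a₂| ≤ 3`).

`CSH.lin`: a killed finite Markov chain has a positive Green function.  The chain
is given by a kernel `k z i` (`z` a zero, `i` an arc) with `k z i > 0` off the arc of `z`
and total mass `0`.
-/

namespace CSH

open Finset Matrix

section MMatrix

variable {T : Type*} [Fintype T] [DecidableEq T]

/-- A matrix with non-positive off-diagonal entries and positive row sums:
if `Q c ≥ 0` then `c ≥ 0`; if in addition the off-diagonal entries are negative and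
`Q c ≠ 0`, then `c > 0`. -/
theorem pos_of_mulVec (Q : Matrix T T ℝ) (hoff : ∀ v w, v ≠ w → Q v w < 0)
    (hrow : ∀ v, 0 < ∑ w, Q v w) (c : T → ℝ) (hc : ∀ v, 0 ≤ (Q *ᵥ c) v)
    (hne : ∃ v, 0 < (Q *ᵥ c) v) : ∀ v, 0 < c v := by
  classical
  obtain ⟨v₀, hv₀⟩ := hne
  have : Nonempty T := ⟨v₀⟩
  obtain ⟨v, hv⟩ := Finite.exists_min c
  have hexp : (Q *ᵥ c) v = ∑ w, Q v w * (c w - c v) + (∑ w, Q v w) * c v := by
    rw [Matrix.mulVec, dotProduct, Finset.sum_mul, ← Finset.sum_add_distrib]
    refine Finset.sum_congr rfl fun w _ => ?_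
    ring
  have hterm : ∀ w, Q v w * (c w - c v) ≤ 0 := by
    intro w
    by_cases hvw : v = w
    · subst hvw; simp
    · exact mul_nonpos_of_nonpos_of_nonneg (hoff v w hvw).le (sub_nonneg.2 (hv w))
  have hsum : ∑ w, Q v w * (c w - c v) ≤ 0 := Finset.sum_nonpos fun w _ => hterm w
  have hcv0 : 0 ≤ c v := by
    by_contra hneg
    push Not at hneg
    have h1 := hc v
    rw [hexp] at h1
    have h2 : (∑ w, Q v w) * c v < 0 := mul_neg_of_pos_of_neg (hrow v) hneg
    linarith
  have hcv : 0 < c v := by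
    rcases hcv0.lt_or_eq with h | h
    · exact h
    · exfalso
      -- all entries vanish
      have h1 := hc v
      rw [hexp, ← h] at h1
      simp only [sub_zero, mul_zero, add_zero] at h1
      have h0 : ∀ w, Q v w * c w = 0 := by
        have hs : ∑ w, Q v w * c w = 0 := by
          have h3 : ∑ w, Q v w * c w ≤ 0 := by
            have := hsum
            rw [← h] at this
            simpa using this
          linarith
        have hterm' : ∀ w ∈ (univ : Finset T), Q v w * c w ≤ 0 := by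
          intro w _
          have := hterm w
          rw [← h] at this
          simpa using this
        intro w
        exact (Finset.sum_eq_zero_iff_of_nonpos hterm').1 hs w (mem_univ w)
      have hall : ∀ w, c w = 0 := by
        intro w
        by_cases hvw : v = w
        · rw [← hvw]; exact h.symm
        · rcases mul_eq_zero.1 (h0 w) with h4 | h4
          · exact absurd h4 (hoff v w hvw).ne
          · exact h4
      have : c = 0 := funext hall
      rw [this] at hv₀
      simp at hv₀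
  intro w
  exact lt_of_lt_of_le hcv (hv w)

/-- Row diagonal dominance gives invertibility. -/
theorem det_ne_zero_of_mmatrix (Q : Matrix T T ℝ) (hoff : ∀ v w, v ≠ w → Q v w < 0)
    (hrow : ∀ v, 0 < ∑ w, Q v w) : Q.det ≠ 0 := by
  classical
  apply det_ne_zero_of_sum_row_lt_diag
  intro v
  have h1 : ∑ w, Q v w = ∑ w ∈ univ.erase v, Q v w + Q v v := by
    rw [Finset.sum_erase_add _ _ (mem_univ v)]
  have h2 : ∑ w ∈ univ.erase v, ‖Q v w‖ = - ∑ w ∈ univ.erase v, Q v w := by
    rw [← Finset.sum_neg_distrib]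
    refine Finset.sum_congr rfl fun w hw => ?_
    rw [Real.norm_eq_abs, abs_of_neg (hoff v w (Finset.ne_of_mem_erase hw).symm)]
  have h3 := hrow v
  have h4 : ∑ w ∈ univ.erase v, Q v w ≤ 0 :=
    Finset.sum_nonpos fun w hw => (hoff v w (Finset.ne_of_mem_erase hw).symm).le
  rw [h2, Real.norm_eq_abs]
  have h5 : 0 < Q v v := by linarith
  rw [abs_of_pos h5]
  linarith

/-- Left solution of `y Q = ν` is positive. -/
theorem exists_pos_vecMul (Q : Matrix T T ℝ) (hoff : ∀ v w, v ≠ w → Q v w < 0)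
    (hrow : ∀ v, 0 < ∑ w, Q v w) (ν : T → ℝ) (hν : ∀ v, 0 ≤ ν v) (hν' : ∃ v, 0 < ν v) :
    ∃ y : T → ℝ, (∀ v, 0 < y v) ∧ y ᵥ* Q = ν := by
  classical
  have hdet := det_ne_zero_of_mmatrix Q hoff hrow
  have hunit : IsUnit Q.det := isUnit_iff_ne_zero.2 hdet
  refine ⟨ν ᵥ* Q⁻¹, ?_, ?_⟩
  · intro v
    set c : T → ℝ := Q⁻¹ *ᵥ (Pi.single v 1) with hc
    have hQc : Q *ᵥ c = Pi.single v 1 := by
      rw [hc, Matrix.mulVec_mulVec, Matrix.mul_nonsing_inv _ hunit, Matrix.one_mulVec]
    have hcpos : ∀ w, 0 < c w := by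
      apply pos_of_mulVec Q hoff hrow
      · intro w
        rw [hQc]
        by_cases h : w = v
        · subst h; simp
        · simp [h]
      · exact ⟨v, by rw [hQc]; simp⟩
    have h1 : (ν ᵥ* Q⁻¹) v = ν ⬝ᵥ c := by
      rw [hc, Matrix.dotProduct_mulVec]
      simp [dotProduct, Pi.single_apply]
    rw [h1, dotProduct]
    obtain ⟨w, hw⟩ := hν'
    exact Finset.sum_pos' (fun u _ => mul_nonneg (hν u) (hcpos u).le)
      ⟨w, mem_univ w, mul_pos hw (hcpos w)⟩
  · rw [Matrix.vecMul_vecMul, Matrix.nonsing_inv_mul _ hunit, Matrix.vecMul_one]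

end MMatrix

/-- **The linear part.**  `Z`: zeros, `I`: arcs, `V`: classes of arcs. -/
theorem lin {Z I V : Type*} [Fintype Z] [Fintype I] [Fintype V] [DecidableEq I] [DecidableEq V]
    (a : Z → I) (cl : I → V) (k : Z → I → ℝ)
    (hk : ∀ z i, i ≠ a z → 0 < k z i) (hk0 : ∀ z, ∑ i, k z i = 0)
    (s : Z → ℝ) (hs : ∀ z, 0 < s z)
    (ab : V → Prop) [DecidablePred ab]
    (hI : ∃ i, ab (cl i))
    (hZ : ∀ z, ¬ ab (cl (a z)))
    (hV : ∀ v, ¬ ab v → ∃ z, cl (a z) = v)
    (ν : V → ℝ) (hν : ∀ v, 0 ≤ ν v) (hν' : ∃ v, ¬ ab v ∧ 0 < ν v) :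
    ∃ y : V → ℝ, (∀ v, ¬ ab v → 0 < y v) ∧
      ∀ w, ¬ ab w →
        ∑ i ∈ univ.filter (fun i => cl i = w), ∑ z, y (cl (a z)) * s z * k z i = - ν w := by
  classical
  let T := {v : V // ¬ ab v}
  let Q : Matrix T T ℝ := fun v w =>
    - ∑ z ∈ univ.filter (fun z => cl (a z) = v.1), ∑ i ∈ univ.filter (fun i => cl i = w.1),
        s z * k z i
  have hoff : ∀ v w : T, v ≠ w → Q v w < 0 := by
    intro v w hvw
    have hvw' : v.1 ≠ w.1 := fun h => hvw (Subtype.ext h)
    obtain ⟨z₀, hz₀⟩ := hV v.1 v.2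
    obtain ⟨z₁, hz₁⟩ := hV w.1 w.2
    show - _ < (0 : ℝ)
    rw [neg_lt_zero]
    have hne : ∀ z i, cl (a z) = v.1 → cl i = w.1 → i ≠ a z := by
      intro z i h1 h2 h3
      subst h3
      exact hvw' (h1.symm.trans h2)
    apply Finset.sum_pos
    · intro z hz
      rw [mem_filter] at hz
      apply Finset.sum_pos
      · intro i hi
        rw [mem_filter] at hi
        exact mul_pos (hs z) (hk z i (hne z i hz.2 hi.2))
      · exact ⟨a z₁, by simp [hz₁]⟩
    · exact ⟨z₀, by simp [hz₀]⟩
  -- regrouping of sums over arcs by classes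
  have hgroup : ∀ z, ∑ w : T, ∑ i ∈ univ.filter (fun i => cl i = w.1), s z * k z i
      = ∑ i ∈ univ.filter (fun i => ¬ ab (cl i)), s z * k z i := by
    intro z
    have h1 : ∑ i ∈ univ.filter (fun i => ¬ ab (cl i)), s z * k z i
        = ∑ w ∈ univ.filter (fun w : V => ¬ ab w),
            ∑ i ∈ (univ.filter (fun i => ¬ ab (cl i))).filter (fun i => cl i = w),
              s z * k z i := by
      rw [Finset.sum_fiberwise_of_maps_to]
      intro i hi
      rw [mem_filter] at hi ⊢
      exact ⟨mem_univ _, hi.2⟩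
    rw [h1, Finset.sum_subtype (p := fun w : V => ¬ ab w) (univ.filter (fun w : V => ¬ ab w))
      (by intro x; simp)]
    refine Finset.sum_congr rfl fun w _ => ?_
    refine Finset.sum_congr ?_ fun _ _ => rfl
    ext i
    simp only [mem_filter, mem_univ, true_and]
    constructor
    · intro h
      exact ⟨by rw [h]; exact w.2, h⟩
    · intro h
      exact h.2
  have hrow : ∀ v : T, 0 < ∑ w, Q v w := by
    intro v
    have h1 : ∑ w, Q v w = ∑ z ∈ univ.filter (fun z => cl (a z) = v.1),
        ∑ i ∈ univ.filter (fun i => ab (cl i)), s z * k z i := by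
      have h2 : ∑ w, Q v w = - ∑ z ∈ univ.filter (fun z => cl (a z) = v.1),
          ∑ w : T, ∑ i ∈ univ.filter (fun i => cl i = w.1), s z * k z i := by
        rw [Finset.sum_comm, ← Finset.sum_neg_distrib]
      rw [h2, ← Finset.sum_neg_distrib]
      refine Finset.sum_congr rfl fun z _ => ?_
      rw [hgroup z]
      have h3 : ∑ i ∈ univ.filter (fun i => ab (cl i)), s z * k z i
          + ∑ i ∈ univ.filter (fun i => ¬ ab (cl i)), s z * k z i = 0 := by
        rw [Finset.sum_filter_add_sum_filter_not, ← Finset.mul_sum, hk0 z, mul_zero]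
      linarith
    rw [h1]
    obtain ⟨z₀, hz₀⟩ := hV v.1 v.2
    obtain ⟨i₀, hi₀⟩ := hI
    apply Finset.sum_pos
    · intro z hz
      apply Finset.sum_pos
      · intro i hi
        rw [mem_filter] at hi
        refine mul_pos (hs z) (hk z i ?_)
        intro h
        rw [h] at hi
        exact hZ z hi.2
      · exact ⟨i₀, by simp [hi₀]⟩
    · exact ⟨z₀, by simp [hz₀]⟩
  obtain ⟨v₁, hv₁, hν₁⟩ := hν'
  obtain ⟨y, hy, hyQ⟩ := exists_pos_vecMul Q hoff hrow (fun v : T => ν v.1)
    (fun v => hν v.1) ⟨⟨v₁, hv₁⟩, hν₁⟩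
  refine ⟨fun v => if h : ab v then 0 else y ⟨v, h⟩, ?_, ?_⟩
  · intro v hv
    simp only [hv, dite_false]
    exact hy ⟨v, hv⟩
  · intro w hw
    have h1 : (y ᵥ* Q) ⟨w, hw⟩ = ν w := by rw [hyQ]
    have h2 : (y ᵥ* Q) ⟨w, hw⟩ = - ∑ v : T, ∑ z ∈ univ.filter (fun z => cl (a z) = v.1),
        ∑ i ∈ univ.filter (fun i => cl i = w), y v * (s z * k z i) := by
      rw [Matrix.vecMul, dotProduct, ← Finset.sum_neg_distrib]
      refine Finset.sum_congr rfl fun v _ => ?_
      show y v * (- _) = _
      rw [mul_neg, Finset.mul_sum]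
      congr 1
      refine Finset.sum_congr rfl fun z _ => ?_
      rw [Finset.mul_sum]
    rw [← h1, h2, neg_neg, Finset.sum_comm]
    -- regroup zeros by class
    have h3 : ∀ g : Z → V → ℝ, ∑ v : T, ∑ z ∈ univ.filter (fun z => cl (a z) = v.1), g z v.1
        = ∑ z, g z (cl (a z)) := by
      intro g
      have h4 : ∑ z, g z (cl (a z)) = ∑ v ∈ univ.filter (fun v : V => ¬ ab v),
          ∑ z ∈ univ.filter (fun z => cl (a z) = v), g z (cl (a z)) := by
        rw [Finset.sum_fiberwise_of_maps_to]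
        intro z _
        simpa using hZ z
      rw [h4, Finset.sum_subtype (p := fun w : V => ¬ ab w) (univ.filter (fun w : V => ¬ ab w))
        (by intro x; simp)]
      refine Finset.sum_congr rfl fun v _ => ?_
      refine Finset.sum_congr rfl fun z hz => ?_
      rw [mem_filter] at hz
      rw [hz.2]
    have h5 := h3 (fun z v => ∑ i ∈ univ.filter (fun i => cl i = w),
      (if h : ab v then 0 else y ⟨v, h⟩) * (s z * k z i))
    have h6 : ∑ v : T, ∑ z ∈ univ.filter (fun z => cl (a z) = v.1),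
        ∑ i ∈ univ.filter (fun i => cl i = w), y v * (s z * k z i)
        = ∑ v : T, ∑ z ∈ univ.filter (fun z => cl (a z) = v.1),
          ∑ i ∈ univ.filter (fun i => cl i = w),
            (if h : ab v.1 then 0 else y ⟨v.1, h⟩) * (s z * k z i) := by
      refine Finset.sum_congr rfl fun v _ => ?_
      refine Finset.sum_congr rfl fun z _ => ?_
      refine Finset.sum_congr rfl fun i _ => ?_
      rw [dif_neg v.2]
    rw [h6, h5]
    refine Finset.sum_congr rfl fun z _ => ?_
    refine Finset.sum_congr rfl fun i _ => ?_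
    ring

end CSH
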