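import Mathlib

/-!
Signs of a real function at its simple zeros: alternation between two poles.
-/

namespace CSH

open Set Filter Topology

theorem sign_const {g : ℝ → ℝ} {a b : ℝ} (hab : a ≤ b) (hg : ContinuousOn g (Icc a b))
    (h0 : ∀ x ∈ Icc a b, g x ≠ 0) : Real.sign (g a) = Real.sign (g b) := by
  have ha := h0 a (left_mem_Icc.2 hab)
  have hb := h0 b (right_mem_Icc.2 hab)
  rcases ha.lt_or_gt with h1 | h1 <;> rcases hb.lt_or_gt with h2 | h2
  · rw [Real.sign_of_neg h1, Real.sign_of_neg h2]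
  · exfalso
    obtain ⟨x, hx, hx0⟩ := intermediate_value_Icc hab hg ⟨h1.le, h2.le⟩
    exact h0 x hx hx0
  · exfalso
    obtain ⟨x, hx, hx0⟩ := intermediate_value_Icc' hab hg ⟨h2.le, h1.le⟩
    exact h0 x hx hx0
  · rw [Real.sign_of_pos h1, Real.sign_of_pos h2]

theorem sign_right {g : ℝ → ℝ} {d z : ℝ} (hg : HasDerivAt g d z) (hz : g z = 0) (hd : d ≠ 0) :
    ∀ᶠ x in 𝓝[>] z, Real.sign (g x) = Real.sign d := by
  have h1 := hasDerivAt_iff_tendsto_slope.1 hg
  have h2 : Tendsto (slope g z) (𝓝[>] z) (𝓝 d) :=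
    h1.mono_left (nhdsWithin_mono _ (fun x hx => ne_of_gt hx))
  rcases hd.lt_or_gt with h3 | h3
  · have h4 := h2.eventually (gt_mem_nhds h3)
    filter_upwards [h4, self_mem_nhdsWithin] with x hx hxz
    have hxz' : 0 < x - z := sub_pos.2 hxz
    rw [slope_def_field, hz, sub_zero] at hx
    have h5 : g x < 0 := by
      by_contra h6
      push Not at h6
      exact absurd (div_nonneg h6 hxz'.le) (not_le.2 hx)
    rw [Real.sign_of_neg h5, Real.sign_of_neg h3]
  · have h4 := h2.eventually (lt_mem_nhds h3)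
    filter_upwards [h4, self_mem_nhdsWithin] with x hx hxz
    have hxz' : 0 < x - z := sub_pos.2 hxz
    rw [slope_def_field, hz, sub_zero] at hx
    have h5 : 0 < g x := by
      by_contra h6
      push Not at h6
      exact absurd (div_nonpos_of_nonpos_of_nonneg h6 hxz'.le) (not_le.2 hx)
    rw [Real.sign_of_pos h5, Real.sign_of_pos h3]

theorem sign_left {g : ℝ → ℝ} {d z : ℝ} (hg : HasDerivAt g d z) (hz : g z = 0) (hd : d ≠ 0) :
    ∀ᶠ x in 𝓝[<] z, Real.sign (g x) = - Real.sign d := by
  have h1 := hasDerivAt_iff_tendsto_slope.1 hg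
  have h2 : Tendsto (slope g z) (𝓝[<] z) (𝓝 d) :=
    h1.mono_left (nhdsWithin_mono _ (fun x hx => ne_of_lt hx))
  rcases hd.lt_or_gt with h3 | h3
  · have h4 := h2.eventually (gt_mem_nhds h3)
    filter_upwards [h4, self_mem_nhdsWithin] with x hx hxz
    have hxz' : x - z < 0 := sub_neg.2 hxz
    rw [slope_def_field, hz, sub_zero] at hx
    have h5 : 0 < g x := by
      by_contra h6
      push Not at h6
      exact absurd (div_nonneg_of_nonpos h6 hxz'.le) (not_le.2 hx)
    rw [Real.sign_of_pos h5, Real.sign_of_neg h3]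
    norm_num
  · have h4 := h2.eventually (lt_mem_nhds h3)
    filter_upwards [h4, self_mem_nhdsWithin] with x hx hxz
    have hxz' : x - z < 0 := sub_neg.2 hxz
    rw [slope_def_field, hz, sub_zero] at hx
    have h5 : g x < 0 := by
      by_contra h6
      push Not at h6
      exact absurd (div_nonpos_of_nonneg_of_nonpos h6 hxz'.le) (not_le.2 hx)
    rw [Real.sign_of_neg h5, Real.sign_of_pos h3]

theorem sum_sign_zeros (g g' : ℝ → ℝ) (b : ℝ) :
    ∀ (S : Finset ℝ) (a : ℝ), a ≤ b → ContinuousOn g (Icc a b) →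
      (∀ x ∈ Icc a b, g x = 0 ↔ x ∈ S) → (∀ x ∈ S, a < x ∧ x < b) →
      (∀ x ∈ S, HasDerivAt g (g' x) x ∧ g' x ≠ 0) →
      ∑ x ∈ S, Real.sign (g' x) = (Real.sign (g b) - Real.sign (g a)) / 2 := by
  intro S
  induction S using Finset.induction_on_min with
  | empty =>
    intro a hab hg hS _ _
    have := sign_const hab hg (fun x hx h => by simpa using (hS x hx).1 h)
    rw [this]; simp
  | insert z S hz ih =>
    intro a hab hg hS hSab hd
    have hzS : z ∉ S := fun h => lt_irrefl _ (hz z h)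
    rw [Finset.sum_insert hzS]
    have hzab := hSab z (Finset.mem_insert_self _ _)
    obtain ⟨hdz, hdz0⟩ := hd z (Finset.mem_insert_self _ _)
    have hgz : g z = 0 := (hS z ⟨hzab.1.le, hzab.2.le⟩).2 (Finset.mem_insert_self _ _)
    -- choose m to the right of z
    have hev : ∀ᶠ x in 𝓝[>] z, Real.sign (g x) = Real.sign (g' z) ∧ x < b ∧ ∀ y ∈ S, x < y := by
      refine (sign_right hdz hgz hdz0).and ?_
      have h1 : ∀ᶠ x in 𝓝 z, x < b ∧ ∀ y ∈ S, x < y := by
        refine (gt_mem_nhds hzab.2).and ?_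
        rw [Filter.eventually_all_finset]
        intro y hy
        exact gt_mem_nhds (hz y hy)
      exact h1.filter_mono nhdsWithin_le_nhds
    obtain ⟨m, ⟨hm1, hm2, hm3⟩, hmz⟩ := (hev.and self_mem_nhdsWithin).exists
    have hmz' : z < m := hmz
    -- choose l to the left of z
    have hev' : ∀ᶠ x in 𝓝[<] z, Real.sign (g x) = - Real.sign (g' z) ∧ a < x := by
      refine (sign_left hdz hgz hdz0).and ?_
      exact (lt_mem_nhds hzab.1).filter_mono nhdsWithin_le_nhds
    obtain ⟨l, ⟨hl1, hl2⟩, hlz⟩ := (hev'.and self_mem_nhdsWithin).exists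
    have hlz' : l < z := hlz
    have h1 : Real.sign (g a) = Real.sign (g l) := by
      apply sign_const hl2.le
      · exact hg.mono (Icc_subset_Icc le_rfl (hlz'.trans hzab.2).le)
      · intro x hx h0
        have hx' : x ∈ Icc a b := ⟨hx.1, hx.2.trans (hlz'.trans hzab.2).le⟩
        have h2 := (hS x hx').1 h0
        rcases Finset.mem_insert.1 h2 with h3 | h3
        · rw [h3] at hx; exact absurd hlz' (not_lt.2 hx.2)
        · exact absurd (hz x h3) (not_lt.2 (hx.2.trans hlz'.le))
    have h2 : ∑ x ∈ S, Real.sign (g' x) = (Real.sign (g b) - Real.sign (g m)) / 2 := by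
      apply ih m hm2.le
      · exact hg.mono (Icc_subset_Icc (hzab.1.trans hmz').le le_rfl)
      · intro x hx
        have hx' : x ∈ Icc a b := ⟨(hzab.1.trans hmz').le.trans hx.1, hx.2⟩
        rw [hS x hx', Finset.mem_insert]
        constructor
        · rintro (h3 | h3)
          · rw [h3] at hx; exact absurd hmz' (not_lt.2 hx.1)
          · exact h3
        · exact Or.inr
      · intro x hx
        exact ⟨hm3 x hx, (hSab x (Finset.mem_insert_of_mem hx)).2⟩
      · intro x hx
        exact hd x (Finset.mem_insert_of_mem hx)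
    rw [h2, h1, hl1, hm1]
    ring

end CSH
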