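import Mathlib
import Pool.Agent.CSH.Lin

/-!
Bracket words and the linear system in the half-plane model (harmonic univalent maps,
`|a₂| ≤ 3`).

Data: poles `p 0 < p 1 < ... < p (n)`, residues `c`, a non-crossing involution `σ`
(fixed points = unmatched poles).  Arc `j` lies between `p j` and `p (j+1)`; the last arc
passes through infinity.  The class of an arc is the innermost opener or unmatched pole.
-/

namespace CSH

open Finset

variable {n : ℕ}

/-- Consecutive fixed points of `σ`. -/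
def Nxt (σ : Fin (n + 1) → Fin (n + 1)) (u u' : Fin (n + 1)) : Prop :=
  u < u' ∧ σ u = u ∧ σ u' = u' ∧ ∀ j, u < j → j < u' → σ j ≠ j

/-- Combinatorial hypotheses on the pairing. -/
structure Brk (σ : Fin (n + 1) → Fin (n + 1)) : Prop where
  inv : ∀ j, σ (σ j) = j
  nc : ∀ i j, i < j → j < σ i → i < σ j ∧ σ j < σ i ∧ σ j ≠ j

/-- Candidates for the class of arc `j`. -/
def cand (σ : Fin (n + 1) → Fin (n + 1)) (j : Fin (n + 1)) : Finset (Fin (n + 1)) :=
  univ.filter fun i => i ≤ j ∧ (σ i = i ∨ j < σ i)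

open Classical in
/-- The class of arc `j`: the innermost opener or unmatched pole to its left
(default: the last index). -/
noncomputable def cls (σ : Fin (n + 1) → Fin (n + 1)) (j : Fin (n + 1)) : Fin (n + 1) :=
  if h : (cand σ j).Nonempty then (cand σ j).max' h else Fin.last n

theorem cls_mem {σ : Fin (n + 1) → Fin (n + 1)} {j i : Fin (n + 1)} (hi : i ∈ cand σ j) :
    cls σ j ∈ cand σ j ∧ i ≤ cls σ j := by
  classical
  have h : (cand σ j).Nonempty := ⟨i, hi⟩
  have h1 : cls σ j = (cand σ j).max' h := by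
    unfold cls
    rw [dif_pos h]
  rw [h1]
  exact ⟨Finset.max'_mem _ _, Finset.le_max' _ _ hi⟩

theorem mem_cand {σ : Fin (n + 1) → Fin (n + 1)} {j i : Fin (n + 1)} :
    i ∈ cand σ j ↔ i ≤ j ∧ (σ i = i ∨ j < σ i) := by
  simp [cand]

theorem cls_spec {σ : Fin (n + 1) → Fin (n + 1)} {j : Fin (n + 1)}
    (h : cls σ j ≠ Fin.last n) : cls σ j ∈ cand σ j := by
  classical
  by_cases h1 : (cand σ j).Nonempty
  · obtain ⟨i, hi⟩ := h1
    exact (cls_mem hi).1
  · exact absurd (by unfold cls; rw [dif_neg h1]) h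

/-- Arcs inside an opener have opener classes inside it. -/
theorem cls_opener {σ : Fin (n + 1) → Fin (n + 1)} (B : Brk σ) {i j : Fin (n + 1)}
    (hi : i < σ i) : (i ≤ j ∧ j < σ i) ↔
      (i ≤ cls σ j ∧ cls σ j < σ i ∧ cls σ j < σ (cls σ j)) := by
  constructor
  · rintro ⟨h1, h2⟩
    have hm : i ∈ cand σ j := mem_cand.2 ⟨h1, Or.inr h2⟩
    obtain ⟨h3, h4⟩ := cls_mem hm
    rw [mem_cand] at h3
    refine ⟨h4, lt_of_le_of_lt h3.1 h2, ?_⟩
    rcases h4.eq_or_lt with h5 | h5
    · rw [← h5]; exact hi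
    · rcases h3.2 with h6 | h6
      · exact absurd h6 (B.nc i _ h5 (lt_of_le_of_lt h3.1 h2)).2.2
      · exact lt_of_le_of_lt h3.1 h6
  · rintro ⟨h1, h2, h3⟩
    have hne : cls σ j ≠ Fin.last n := by
      intro h
      rw [h] at h3
      exact absurd (Fin.le_last _) (not_le.2 h3)
    have h4 := cls_spec hne
    rw [mem_cand] at h4
    refine ⟨h1.trans h4.1, ?_⟩
    have h5 : j < σ (cls σ j) := by
      rcases h4.2 with h6 | h6
      · rw [h6] at h3; exact absurd h3 (lt_irrefl _)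
      · exact h6
    rcases h1.eq_or_lt with h6 | h6
    · rw [← h6] at h5; exact h5
    · exact h5.trans (B.nc i _ h6 h2).2.1

/-- Arcs between consecutive unmatched poles. -/
theorem cls_nxt {σ : Fin (n + 1) → Fin (n + 1)} (B : Brk σ) {u u' j : Fin (n + 1)}
    (hu : Nxt σ u u') : (u ≤ j ∧ j < u') ↔
      (u ≤ cls σ j ∧ cls σ j < u' ∧ (cls σ j = u ∨ cls σ j < σ (cls σ j))) := by
  obtain ⟨huu, h1, h2, h3⟩ := hu
  constructor
  · rintro ⟨h4, h5⟩
    have hm : u ∈ cand σ j := mem_cand.2 ⟨h4, Or.inl h1⟩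
    obtain ⟨h6, h7⟩ := cls_mem hm
    rw [mem_cand] at h6
    refine ⟨h7, lt_of_le_of_lt h6.1 h5, ?_⟩
    rcases h7.eq_or_lt with h8 | h8
    · exact Or.inl h8.symm
    · right
      rcases h6.2 with h9 | h9
      · exact absurd h9 (h3 _ h8 (lt_of_le_of_lt h6.1 h5))
      · exact lt_of_le_of_lt h6.1 h9
  · rintro ⟨h4, h5, h6⟩
    have hne : cls σ j ≠ Fin.last n := by
      intro h
      rw [h] at h5
      exact absurd (Fin.le_last _) (not_le.2 h5)
    have h7 := cls_spec hne
    rw [mem_cand] at h7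
    refine ⟨h4.trans h7.1, ?_⟩
    rcases h6 with h6 | h6
    · by_contra h8
      push Not at h8
      have h9 : u' ∈ cand σ j := mem_cand.2 ⟨h8, Or.inl h2⟩
      have := (cls_mem h9).2
      rw [h6] at this
      exact absurd huu (not_lt.2 this)
    · have h8 : j < σ (cls σ j) := by
        rcases h7.2 with h9 | h9
        · rw [h9] at h6; exact absurd h6 (lt_irrefl _)
        · exact h9
      by_contra h9
      push Not at h9
      -- `u'` inside the pair of `cls σ j`
      have h10 := (B.nc (cls σ j) u' h5 (lt_of_le_of_lt h9 h8)).2.2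
      exact h10 h2

/-- Sum over `[i, σ i)` regrouped by opener classes. -/
theorem sum_opener {σ : Fin (n + 1) → Fin (n + 1)} (B : Brk σ) {i : Fin (n + 1)}
    (hi : i < σ i) (g : Fin (n + 1) → ℝ) :
    ∑ j ∈ Ico i (σ i), g j =
      ∑ d ∈ univ.filter (fun d => i ≤ d ∧ d < σ i ∧ d < σ d),
        ∑ j ∈ univ.filter (fun j => cls σ j = d), g j := by
  classical
  have h1 : ∀ j ∈ Ico i (σ i), cls σ j ∈
      univ.filter (fun d => i ≤ d ∧ d < σ i ∧ d < σ d) := by
    intro j hj
    rw [mem_Ico] at hj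
    simpa using (cls_opener B hi).1 hj
  rw [← Finset.sum_fiberwise_of_maps_to h1]
  refine Finset.sum_congr rfl fun d hd => ?_
  refine Finset.sum_congr ?_ fun _ _ => rfl
  ext j
  simp only [mem_filter, mem_Ico, mem_univ, true_and]
  constructor
  · rintro ⟨_, h⟩; exact h
  · intro h
    refine ⟨(cls_opener B hi).2 ?_, h⟩
    rw [h]
    simpa using hd

/-- Sum over `[u, u')` regrouped by classes. -/
theorem sum_nxt {σ : Fin (n + 1) → Fin (n + 1)} (B : Brk σ) {u u' : Fin (n + 1)}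
    (hu : Nxt σ u u') (g : Fin (n + 1) → ℝ) :
    ∑ j ∈ Ico u u', g j =
      ∑ d ∈ univ.filter (fun d => u ≤ d ∧ d < u' ∧ (d = u ∨ d < σ d)),
        ∑ j ∈ univ.filter (fun j => cls σ j = d), g j := by
  classical
  have h1 : ∀ j ∈ Ico u u', cls σ j ∈
      univ.filter (fun d => u ≤ d ∧ d < u' ∧ (d = u ∨ d < σ d)) := by
    intro j hj
    rw [mem_Ico] at hj
    simpa using (cls_nxt B hu).1 hj
  rw [← Finset.sum_fiberwise_of_maps_to h1]
  refine Finset.sum_congr rfl fun d hd => ?_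
  refine Finset.sum_congr ?_ fun _ _ => rfl
  ext j
  simp only [mem_filter, mem_Ico, mem_univ, true_and]
  constructor
  · rintro ⟨_, h⟩; exact h
  · intro h
    refine ⟨(cls_nxt B hu).2 ?_, h⟩
    rw [h]
    simpa using hd

/-- A `σ`-odd function sums to zero over the inside of a pair. -/
theorem sum_inside {σ : Fin (n + 1) → Fin (n + 1)} (B : Brk σ) {i : Fin (n + 1)}
    (g : Fin (n + 1) → ℝ) (hg : ∀ j, σ j ≠ j → g (σ j) = - g j) :
    ∑ j ∈ Ioo i (σ i), g j = 0 := by
  classical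
  have h1 : ∑ j ∈ Ioo i (σ i), g j = ∑ j ∈ Ioo i (σ i), g (σ j) := by
    refine Finset.sum_bij' (fun j _ => σ j) (fun j _ => σ j) ?_ ?_ ?_ ?_ ?_
    · intro j hj
      rw [mem_Ioo] at hj ⊢
      have := B.nc i j hj.1 hj.2
      exact ⟨this.1, this.2.1⟩
    · intro j hj
      rw [mem_Ioo] at hj ⊢
      have := B.nc i j hj.1 hj.2
      exact ⟨this.1, this.2.1⟩
    · intro j _; exact B.inv j
    · intro j _; exact B.inv j
    · intro j _; rw [B.inv]
  have h2 : ∑ j ∈ Ioo i (σ i), g (σ j) = - ∑ j ∈ Ioo i (σ i), g j := by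
    rw [← Finset.sum_neg_distrib]
    refine Finset.sum_congr rfl fun j hj => hg j ?_
    rw [mem_Ioo] at hj
    exact (B.nc i j hj.1 hj.2).2.2
  linarith

end CSH
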