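import Mathlib
import Pool.Agent.CSH.Lin
import Pool.Agent.CSH.Word
import Pool.Agent.CSH.Sgn

/-!
The linear system of the closing-up argument in the half-plane model.
-/

namespace CSH

open Finset Filter Topology

variable {n : ℕ}

/-- `L'` on the real line. -/
noncomputable def gL (p c : Fin (n + 1) → ℝ) (x : ℝ) : ℝ := ∑ j, c j / (x - p j)

/-- `L''` on the real line. -/
noncomputable def gLd (p c : Fin (n + 1) → ℝ) (x : ℝ) : ℝ := - ∑ j, c j / (x - p j) ^ 2

/-- `R` on the real line. -/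
noncomputable def RR (Z : Finset ℝ) (ρ : ℝ → ℝ) (x : ℝ) : ℝ := ∑ z ∈ Z, ρ z / (z - x)

theorem hasDerivAt_gL (p c : Fin (n + 1) → ℝ) {x : ℝ} (hx : ∀ j, x ≠ p j) :
    HasDerivAt (gL p c) (gLd p c x) x := by
  have h1 : HasDerivAt (fun y => ∑ j, c j / (y - p j)) (∑ j, - (c j / (x - p j) ^ 2)) x := by
    apply HasDerivAt.fun_sum
    intro j _
    have h2 : x - p j ≠ 0 := sub_ne_zero.2 (hx j)
    have h3 : HasDerivAt (fun y : ℝ => c j * (y - p j)⁻¹) (c j * (-1 / (x - p j) ^ 2)) x :=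
      (((hasDerivAt_id' x).sub_const (p j)).fun_inv h2).const_mul (c j)
    have h4 : (fun y : ℝ => c j / (y - p j)) = fun y : ℝ => c j * (y - p j)⁻¹ := by
      ext y; rw [div_eq_mul_inv]
    have h5 : - (c j / (x - p j) ^ 2) = c j * (-1 / (x - p j) ^ 2) := by ring
    rw [h4, h5]
    exact h3
  rw [Finset.sum_neg_distrib] at h1
  exact h1

theorem continuousOn_gL (p c : Fin (n + 1) → ℝ) {s : Set ℝ} (hs : ∀ x ∈ s, ∀ j, x ≠ p j) :
    ContinuousOn (gL p c) s := fun x hx =>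
  (hasDerivAt_gL p c (hs x hx)).continuousAt.continuousWithinAt

/-- Sign of `L'` next to a pole. -/
theorem gL_near (p c : Fin (n + 1) → ℝ) (hp : StrictMono p) (a : Fin (n + 1)) (ha : c a ≠ 0) :
    ∀ᶠ x in 𝓝[≠] (p a), 0 < gL p c x * (x - p a) * c a := by
  have h1 : ContinuousAt (fun x => (c a + (x - p a) * ∑ j ∈ univ.erase a, c j / (x - p j)) * c a)
      (p a) := by
    apply ContinuousAt.mul _ continuousAt_const
    apply ContinuousAt.add continuousAt_const
    apply ContinuousAt.mul (by fun_prop)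
    apply tendsto_finsetSum
    intro j hj
    have h2 : p a - p j ≠ 0 := sub_ne_zero.2 (fun h => (Finset.ne_of_mem_erase hj) (hp.injective h).symm)
    exact ContinuousAt.div (f := fun _ => c j) continuousAt_const (by fun_prop) h2
  have h2 : 0 < (c a + (p a - p a) * ∑ j ∈ univ.erase a, c j / (p a - p j)) * c a := by
    rw [sub_self, zero_mul, add_zero]
    exact mul_self_pos.2 ha
  have h3 := (h1.eventually (lt_mem_nhds h2)).filter_mono (nhdsWithin_le_nhds (s := {p a}ᶜ))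
  filter_upwards [h3, self_mem_nhdsWithin] with x hx hxa
  have hxa' : x - p a ≠ 0 := sub_ne_zero.2 hxa
  have h4 : gL p c x * (x - p a) = c a + (x - p a) * ∑ j ∈ univ.erase a, c j / (x - p j) := by
    unfold gL
    rw [← Finset.add_sum_erase _ _ (mem_univ a), add_mul, div_mul_cancel₀ _ hxa', mul_comm (x - p a)]
  rw [h4]
  exact hx

theorem sign_of_mul_pos {x y : ℝ} (h : 0 < x * y) : Real.sign x = Real.sign y := by
  rcases pos_and_pos_or_neg_and_neg_of_mul_pos h with ⟨h1, h2⟩ | ⟨h1, h2⟩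
  · rw [Real.sign_of_pos h1, Real.sign_of_pos h2]
  · rw [Real.sign_of_neg h1, Real.sign_of_neg h2]

theorem gL_right (p c : Fin (n + 1) → ℝ) (hp : StrictMono p) (a : Fin (n + 1)) (ha : c a ≠ 0) :
    ∀ᶠ x in 𝓝[>] (p a), Real.sign (gL p c x) = Real.sign (c a) := by
  have h1 := (gL_near p c hp a ha).filter_mono
    (nhdsWithin_mono (p a) (s := Set.Ioi (p a)) (fun x hx => ne_of_gt hx))
  filter_upwards [h1, self_mem_nhdsWithin] with x hx hxa
  have hxa' : 0 < x - p a := sub_pos.2 hxa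
  apply sign_of_mul_pos
  have h2 : gL p c x * (x - p a) * c a = (gL p c x * c a) * (x - p a) := by ring
  rw [h2] at hx
  exact pos_of_mul_pos_left hx hxa'.le

theorem gL_left (p c : Fin (n + 1) → ℝ) (hp : StrictMono p) (a : Fin (n + 1)) (ha : c a ≠ 0) :
    ∀ᶠ x in 𝓝[<] (p a), Real.sign (gL p c x) = - Real.sign (c a) := by
  have h1 := (gL_near p c hp a ha).filter_mono
    (nhdsWithin_mono (p a) (s := Set.Iio (p a)) (fun x hx => ne_of_lt hx))
  filter_upwards [h1, self_mem_nhdsWithin] with x hx hxa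
  have hxa' : 0 < p a - x := sub_pos.2 hxa
  rw [← Real.sign_neg]
  apply sign_of_mul_pos
  have h2 : gL p c x * (x - p a) * c a = (gL p c x * - c a) * (p a - x) := by ring
  rw [h2] at hx
  exact pos_of_mul_pos_left hx hxa'.le

/-- The successor pole. -/
theorem val_succ {a : Fin (n + 1)} (ha : a < Fin.last n) : ((a + 1 : Fin (n + 1)) : ℕ) = a + 1 :=
  Fin.val_add_one_of_lt ha

theorem lt_succ {a : Fin (n + 1)} (ha : a < Fin.last n) : a < a + 1 := by
  rw [Fin.lt_def, val_succ ha]; omega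

theorem le_or_ge_succ {a : Fin (n + 1)} (ha : a < Fin.last n) (j : Fin (n + 1)) :
    j ≤ a ∨ a + 1 ≤ j := by
  rw [Fin.le_def, Fin.le_def, val_succ ha]; omega

/-- Signs of `L''` at the zeros in arc `a`. -/
theorem sum_sign_arc (p c : Fin (n + 1) → ℝ) (hp : StrictMono p) (hc : ∀ j, c j ≠ 0)
    (Z : Finset ℝ) (hZ : ∀ x, (∀ j, x ≠ p j) → (x ∈ Z ↔ gL p c x = 0))
    (hsim : ∀ z ∈ Z, gLd p c z ≠ 0)
    {a : Fin (n + 1)} (ha : a < Fin.last n) :
    ∑ z ∈ Z.filter (fun z => p a < z ∧ z < p (a + 1)), Real.sign (gLd p c z)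
      = - (Real.sign (c a) + Real.sign (c (a + 1))) / 2 := by
  classical
  set S := Z.filter (fun z => p a < z ∧ z < p (a + 1)) with hS
  have hlt : p a < p (a + 1) := hp (lt_succ ha)
  have hnp : ∀ x, p a < x → x < p (a + 1) → ∀ j, x ≠ p j := by
    intro x h1 h2 j h3
    rcases le_or_ge_succ ha j with h4 | h4
    · exact absurd (hp.monotone h4) (not_le.2 (h3 ▸ h1))
    · exact absurd (hp.monotone h4) (not_le.2 (h3 ▸ h2))
  have hSS : ∀ z ∈ S, p a < z ∧ z < p (a + 1) := fun z hz => (mem_filter.1 hz).2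
  -- left end
  have hev1 : ∀ᶠ x in 𝓝[>] (p a), Real.sign (gL p c x) = Real.sign (c a) ∧ x < p (a + 1) ∧
      ∀ y ∈ S, x < y := by
    refine (gL_right p c hp a (hc a)).and ?_
    have h1 : ∀ᶠ x in 𝓝 (p a), x < p (a + 1) ∧ ∀ y ∈ S, x < y := by
      refine (gt_mem_nhds hlt).and ?_
      rw [Filter.eventually_all_finset]
      intro y hy
      exact gt_mem_nhds (hSS y hy).1
    exact h1.filter_mono nhdsWithin_le_nhds
  obtain ⟨l, ⟨hl1, hl2, hl3⟩, hl4⟩ := (hev1.and self_mem_nhdsWithin).exists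
  have hl4' : p a < l := hl4
  have hev2 : ∀ᶠ x in 𝓝[<] (p (a + 1)), Real.sign (gL p c x) = - Real.sign (c (a + 1)) ∧ l < x ∧
      ∀ y ∈ S, y < x := by
    refine (gL_left p c hp (a + 1) (hc (a + 1))).and ?_
    have h1 : ∀ᶠ x in 𝓝 (p (a + 1)), l < x ∧ ∀ y ∈ S, y < x := by
      refine (lt_mem_nhds hl2).and ?_
      rw [Filter.eventually_all_finset]
      intro y hy
      exact lt_mem_nhds (hSS y hy).2
    exact h1.filter_mono nhdsWithin_le_nhds
  obtain ⟨m, ⟨hm1, hm2, hm3⟩, hm4⟩ := (hev2.and self_mem_nhdsWithin).exists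
  have hm4' : m < p (a + 1) := hm4
  have hnp' : ∀ x ∈ Set.Icc l m, ∀ j, x ≠ p j := fun x hx =>
    hnp x (lt_of_lt_of_le hl4' hx.1) (lt_of_le_of_lt hx.2 hm4')
  have key := sum_sign_zeros (gL p c) (gLd p c) m S l hm2.le (continuousOn_gL p c hnp')
    (by
      intro x hx
      rw [← hZ x (hnp' x hx), hS, mem_filter]
      constructor
      · intro h
        exact ⟨h, lt_of_lt_of_le hl4' hx.1, lt_of_le_of_lt hx.2 hm4'⟩
      · exact fun h => h.1)
    (fun x hx => ⟨hl3 x hx, hm3 x hx⟩)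
    (fun x hx => ⟨hasDerivAt_gL p c (hnp x (hSS x hx).1 (hSS x hx).2),
      hsim x (mem_filter.1 hx).1⟩)
  rw [key, hl1, hm1]
  ring

/-- Telescoping in `Fin (n+1)`. -/
theorem sum_Ico_tele (f : Fin (n + 1) → ℝ) {i : Fin (n + 1)} :
    ∀ m : Fin (n + 1), i ≤ m → ∑ j ∈ Ico i m, (f (j + 1) - f j) = f m - f i := by
  intro m
  obtain ⟨m, hm⟩ := m
  induction m with
  | zero =>
    intro him
    have : i = ⟨0, hm⟩ := le_antisymm him (Fin.zero_le _)
    rw [this]; simp
  | succ m ih =>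
    intro him
    rcases him.eq_or_lt with h | h
    · rw [h]; simp
    · have hm' : m < n + 1 := by omega
      have h1 : i ≤ ⟨m, hm'⟩ := by
        rw [Fin.lt_def] at h
        rw [Fin.le_def]
        simp only at h ⊢
        omega
      have h2 := ih hm' h1
      have h3 : Ico i (⟨m + 1, hm⟩ : Fin (n + 1)) = insert ⟨m, hm'⟩ (Ico i ⟨m, hm'⟩) := by
        ext j
        simp only [mem_Ico, mem_insert, Fin.le_def, Fin.lt_def, Fin.ext_iff]
        rw [Fin.le_def] at h1
        simp only at h1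
        omega
      have h4 : (⟨m, hm'⟩ : Fin (n + 1)) ∉ Ico i ⟨m, hm'⟩ := by simp
      have h5 : (⟨m, hm'⟩ : Fin (n + 1)) + 1 = ⟨m + 1, hm⟩ := by
        apply Fin.ext
        rw [Fin.val_add_one_of_lt]
        rw [Fin.lt_def]; simp only [Fin.val_last]; omega
      rw [h3, Finset.sum_insert h4, h2, h5]
      ring

theorem sum_Ico_shift (f : Fin (n + 1) → ℝ) {i m : Fin (n + 1)} (him : i < m) :
    ∑ j ∈ Ico i m, (f j + f (j + 1)) = f i + f m + 2 * ∑ j ∈ Ioo i m, f j := by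
  have h1 := sum_Ico_tele f m him.le
  have h2 : ∑ j ∈ Ico i m, (f j + f (j + 1)) = 2 * ∑ j ∈ Ico i m, f j +
      ∑ j ∈ Ico i m, (f (j + 1) - f j) := by
    rw [Finset.mul_sum, ← Finset.sum_add_distrib]
    exact Finset.sum_congr rfl fun j _ => by ring
  have h3 : ∑ j ∈ Ico i m, f j = f i + ∑ j ∈ Ioo i m, f j := by
    rw [← Finset.Ioo_insert_left him, Finset.sum_insert (by simp)]
  rw [h2, h1, h3]
  ring

/-- Every opener class has sign sum zero. -/
theorem class_sign_zero {σ : Fin (n + 1) → Fin (n + 1)} (B : Brk σ) (s : Fin (n + 1) → ℝ)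
    (hs : ∀ j, σ j ≠ j → s (σ j) = - s j) :
    ∀ (m : ℕ) (i : Fin (n + 1)), i < σ i → (σ i : ℕ) - i = m →
      ∑ j ∈ univ.filter (fun j => cls σ j = i), (s j + s (j + 1)) = 0 := by
  classical
  intro m
  induction m using Nat.strong_induction_on with
  | _ m ih =>
    intro i hi him
    have h1 := sum_opener B hi (fun j => s j + s (j + 1))
    have h2 : ∑ j ∈ Ico i (σ i), (s j + s (j + 1)) = 0 := by
      rw [sum_Ico_shift s hi, sum_inside B s hs, hs i (ne_of_gt hi)]
      ring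
    rw [h2] at h1
    have h3 : i ∈ univ.filter (fun d => i ≤ d ∧ d < σ i ∧ d < σ d) := by simp [hi]
    rw [← Finset.add_sum_erase _ _ h3] at h1
    have h4 : ∑ d ∈ (univ.filter (fun d => i ≤ d ∧ d < σ i ∧ d < σ d)).erase i,
        ∑ j ∈ univ.filter (fun j => cls σ j = d), (s j + s (j + 1)) = 0 := by
      apply Finset.sum_eq_zero
      intro d hd
      rw [mem_erase, mem_filter] at hd
      obtain ⟨hdi, _, h5, h6, h7⟩ := hd
      have h8 : i < d := lt_of_le_of_ne h5 (Ne.symm hdi)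
      have h9 := B.nc i d h8 h6
      refine ih ((σ d : ℕ) - d) ?_ d h7 rfl
      rw [← him]
      have e1 : (i : ℕ) < d := h8
      have e2 : (d : ℕ) < σ d := h7
      have e3 : (σ d : ℕ) < σ i := h9.2.1
      omega
    rw [h4, add_zero] at h1
    exact h1.symm

end CSH
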