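import Mathlib
import Pool.Agent.CSH.Defs
import Pool.Agent.CSH.HPLin
import Pool.Agent.CSH.Plateau
import Pool.Agent.CSH.Alt

set_option autoImplicit false

/-!
CLS: zeros of `L'` on arcs between neighbouring poles, and levels between neighbouring nodes.
-/

namespace Pool.CSH

open Set Filter Topology

/-- Intermediate values on an open interval. -/
theorem ivt_open {f : ℝ → ℝ} {a b : ℝ} (hf : ContinuousOn f (Ioo a b)) {u v : ℝ}
    (hu : u ∈ Ioo a b) (hv : v ∈ Ioo a b) (h1 : f u ≤ 0) (h2 : 0 ≤ f v) :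
    ∃ x ∈ Ioo a b, f x = 0 := by
  have hsub : uIcc u v ⊆ Ioo a b := by
    intro x hx
    rcases le_total u v with h | h
    · rw [uIcc_of_le h] at hx
      exact ⟨hu.1.trans_le hx.1, hx.2.trans_lt hv.2⟩
    · rw [uIcc_of_ge h] at hx
      exact ⟨hv.1.trans_le hx.1, hx.2.trans_lt hu.2⟩
  have h3 := intermediate_value_uIcc (hf.mono hsub)
  have h4 : (0 : ℝ) ∈ uIcc (f u) (f v) := by
    rw [uIcc_of_le (h1.trans h2)]
    exact ⟨h1, h2⟩
  obtain ⟨x, hx, hx0⟩ := h3 h4
  exact ⟨x, hsub hx, hx0⟩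

section poles

variable {n : ℕ} {p c : Fin (n + 1) → ℝ}

theorem ne_pole (hp : StrictMono p) {k l : Fin (n + 1)} (hl : (l : ℕ) = k + 1) {x : ℝ}
    (hx : x ∈ Ioo (p k) (p l)) (j : Fin (n + 1)) : x ≠ p j := by
  intro h
  rw [h] at hx
  have h1 := hp.lt_iff_lt.1 hx.1
  have h2 := hp.lt_iff_lt.1 hx.2
  rw [Fin.lt_def] at h1 h2
  omega

theorem Lr_contOn (hp : StrictMono p) {k l : Fin (n + 1)} (hl : (l : ℕ) = k + 1) :
    ContinuousOn (Lr p c) (Ioo (p k) (p l)) :=
  CSH.continuousOn_gL p c (fun _ hx j => ne_pole hp hl hx j)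

/-- A point right of the pole `k` where `L'` has the sign of `c k`. -/
theorem exists_right (hp : StrictMono p) {k l : Fin (n + 1)} (hl : (l : ℕ) = k + 1)
    (hk : c k ≠ 0) : ∃ x ∈ Ioo (p k) (p l), Real.sign (Lr p c x) = Real.sign (c k) := by
  have hkl : p k < p l := hp (by rw [Fin.lt_def]; omega)
  have h1 := CSH.gL_right p c hp k hk
  have h2 : Ioo (p k) (p l) ∈ 𝓝[>] (p k) := Ioo_mem_nhdsGT hkl
  obtain ⟨x, hx1, hx2⟩ := (h1.and h2).exists
  exact ⟨x, hx2, hx1⟩

theorem exists_left (hp : StrictMono p) {k l : Fin (n + 1)} (hl : (l : ℕ) = k + 1)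
    (hk : c l ≠ 0) : ∃ x ∈ Ioo (p k) (p l), Real.sign (Lr p c x) = - Real.sign (c l) := by
  have hkl : p k < p l := hp (by rw [Fin.lt_def]; omega)
  have h1 := CSH.gL_left p c hp l hk
  have h2 : Ioo (p k) (p l) ∈ 𝓝[<] (p l) := Ioo_mem_nhdsLT hkl
  obtain ⟨x, hx1, hx2⟩ := (h1.and h2).exists
  exact ⟨x, hx2, hx1⟩

theorem sign_neg_iff {x : ℝ} (h : Real.sign x = -1) : x < 0 := by
  rcases lt_trichotomy x 0 with h1 | h1 | h1
  · exact h1
  · rw [h1, Real.sign_zero] at h; norm_num at h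
  · rw [Real.sign_of_pos h1] at h; norm_num at h

theorem sign_pos_iff {x : ℝ} (h : Real.sign x = 1) : 0 < x := by
  rcases lt_trichotomy x 0 with h1 | h1 | h1
  · rw [Real.sign_of_neg h1] at h; norm_num at h
  · rw [h1, Real.sign_zero] at h; norm_num at h
  · exact h1

/-- Equal signs: a zero between neighbouring poles. -/
theorem zero_same (hp : StrictMono p) {k l : Fin (n + 1)} (hl : (l : ℕ) = k + 1)
    (h : 0 < c k * c l) : ∃ x ∈ Ioo (p k) (p l), Lr p c x = 0 := by
  have hck : c k ≠ 0 := by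
    intro h0; rw [h0, zero_mul] at h; exact lt_irrefl _ h
  have hcl : c l ≠ 0 := by
    intro h0; rw [h0, mul_zero] at h; exact lt_irrefl _ h
  obtain ⟨x, hx, hxs⟩ := exists_right (c := c) hp hl hck
  obtain ⟨y, hy, hys⟩ := exists_left (c := c) hp hl hcl
  have hcont := Lr_contOn (c := c) hp hl
  rcases pos_and_pos_or_neg_and_neg_of_mul_pos h with ⟨h1, h2⟩ | ⟨h1, h2⟩
  · rw [Real.sign_of_pos h1] at hxs
    rw [Real.sign_of_pos h2] at hys
    exact ivt_open hcont hy hx (sign_neg_iff hys).le (sign_pos_iff hxs).le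
  · rw [Real.sign_of_neg h1] at hxs
    rw [Real.sign_of_neg h2, neg_neg] at hys
    exact ivt_open hcont hx hy (sign_neg_iff hxs).le (sign_pos_iff hys).le

/-- Up then down with a point where `L' > 0`. -/
theorem zero_mid (hp : StrictMono p) {k l : Fin (n + 1)} (hl : (l : ℕ) = k + 1)
    (hk : c k < 0) {x₀ : ℝ} (hx₀ : x₀ ∈ Ioo (p k) (p l)) (h0 : 0 < Lr p c x₀) :
    ∃ x ∈ Ioo (p k) (p l), Lr p c x = 0 := by
  obtain ⟨x, hx, hxs⟩ := exists_right (c := c) hp hl hk.ne
  rw [Real.sign_of_neg hk] at hxs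
  exact ivt_open (Lr_contOn (c := c) hp hl) hx hx₀ (sign_neg_iff hxs).le h0.le

/-- Down then up with a point where `L' < 0`. -/
theorem zero_mid' (hp : StrictMono p) {k l : Fin (n + 1)} (hl : (l : ℕ) = k + 1)
    (hk : 0 < c k) {x₀ : ℝ} (hx₀ : x₀ ∈ Ioo (p k) (p l)) (h0 : Lr p c x₀ < 0) :
    ∃ x ∈ Ioo (p k) (p l), Lr p c x = 0 := by
  obtain ⟨x, hx, hxs⟩ := exists_right (c := c) hp hl hk.ne'
  rw [Real.sign_of_pos hk] at hxs
  exact ivt_open (Lr_contOn (c := c) hp hl) hx₀ hx h0.le (sign_pos_iff hxs).le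

end poles

section levels

/-- If `v` leaves `a` upwards and never returns to that level, it stays above. -/
theorem above_right {v : ℝ → ℝ} (hv : Continuous v) {a b d : ℝ} (hab : a < b)
    (hd : HasDerivAt v d a) (hd0 : 0 < d) (hne : ∀ θ ∈ Ioo a b, v θ ≠ v a) :
    ∀ θ ∈ Ioo a b, v a < v θ := by
  have h1 : ∀ᶠ x in 𝓝[>] a, v a < v x := by
    have h2 := (hasDerivAt_iff_tendsto_slope.1 hd).eventually (lt_mem_nhds hd0)
    have h3 := h2.filter_mono (nhdsWithin_mono a (s := Ioi a) (fun x hx => ne_of_gt hx))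
    filter_upwards [h3, self_mem_nhdsWithin] with x hx hxa
    have hxa' : 0 < x - a := sub_pos.2 hxa
    rw [slope_def_field] at hx
    have := mul_pos hx hxa'
    rw [div_mul_cancel₀ _ hxa'.ne'] at this
    linarith
  obtain ⟨x, hx1, hx2⟩ := (h1.and (Ioo_mem_nhdsGT hab)).exists
  intro θ hθ
  by_contra hcon
  push Not at hcon
  have h4 : v θ - v a < 0 := sub_neg.2 (lt_of_le_of_ne hcon (hne θ hθ))
  obtain ⟨y, hy, hy0⟩ := ivt_open (f := fun t => v t - v a) (a := a) (b := b)
    (by fun_prop) hθ hx2 h4.le (sub_pos.2 hx1).le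
  exact hne y hy (sub_eq_zero.1 hy0)

theorem above_left {v : ℝ → ℝ} (hv : Continuous v) {a b d : ℝ} (hab : a < b)
    (hd : HasDerivAt v d b) (hd0 : d < 0) (hne : ∀ θ ∈ Ioo a b, v θ ≠ v b) :
    ∀ θ ∈ Ioo a b, v b < v θ := by
  have hd' : HasDerivAt (fun t => v (-t)) (-d) (-b) := by
    have h1 : HasDerivAt (fun t : ℝ => -t) (-1) (-b) := (hasDerivAt_id (-b)).neg
    have h2 : HasDerivAt v d (-(-b)) := by rwa [neg_neg]
    have h3 := h2.comp (-b) h1
    simpa [Function.comp_def] using h3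
  have h := above_right (v := fun t => v (-t)) (by fun_prop) (neg_lt_neg hab) hd' (by linarith)
    (fun θ hθ => by
      have h4 := hne (-θ) ⟨by linarith [hθ.2], by linarith [hθ.1]⟩
      simpa using h4)
  intro θ hθ
  have h5 := h (-θ) ⟨by linarith [hθ.2], by linarith [hθ.1]⟩
  simpa using h5

/-- Between neighbouring nodes, up then down: equal levels and `v` above in between. -/
theorem level_up {v : ℝ → ℝ} (hv : Continuous v) {a b d e : ℝ} (hab : a < b)
    (hd : HasDerivAt v d a) (hd0 : 0 < d) (he : HasDerivAt v e b) (he0 : e < 0)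
    (hne : ∀ θ ∈ Ioo a b, v θ ≠ v a) (hne' : ∀ θ ∈ Ioo a b, v θ ≠ v b) :
    v a = v b ∧ ∀ θ ∈ Ioo a b, v a < v θ := by
  have h1 := above_right hv hab hd hd0 hne
  have h2 := above_left hv hab he he0 hne'
  refine ⟨le_antisymm ?_ ?_, h1⟩
  · have h3 : ∀ᶠ x in 𝓝[<] b, v a ≤ v x := by
      filter_upwards [Ioo_mem_nhdsLT hab] with x hx
      exact (h1 x hx).le
    exact ge_of_tendsto (hv.continuousAt.tendsto.mono_left nhdsWithin_le_nhds) h3
  · have h3 : ∀ᶠ x in 𝓝[>] a, v b ≤ v x := by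
      filter_upwards [Ioo_mem_nhdsGT hab] with x hx
      exact (h2 x hx).le
    exact ge_of_tendsto (hv.continuousAt.tendsto.mono_left nhdsWithin_le_nhds) h3

/-- Down then up. -/
theorem level_down {v : ℝ → ℝ} (hv : Continuous v) {a b d e : ℝ} (hab : a < b)
    (hd : HasDerivAt v d a) (hd0 : d < 0) (he : HasDerivAt v e b) (he0 : 0 < e)
    (hne : ∀ θ ∈ Ioo a b, v θ ≠ v a) (hne' : ∀ θ ∈ Ioo a b, v θ ≠ v b) :
    v a = v b ∧ ∀ θ ∈ Ioo a b, v θ < v a := by
  have h := level_up (v := fun t => -v t) (by fun_prop) hab hd.neg (by linarith) he.neg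
    (by linarith) (fun θ hθ h0 => hne θ hθ (neg_injective h0))
    (fun θ hθ h0 => hne' θ hθ (neg_injective h0))
  refine ⟨neg_injective h.1, fun θ hθ => ?_⟩
  have := h.2 θ hθ
  simpa using this

end levels

/-- At a critical point `z L'` is imaginary with imaginary part of the sign of `-ud`. -/
theorem im_of_crit {h g : Polynomial ℂ} {r : ℝ} (hU : Uni h g r) {θ : ℝ}
    (h0 : vd (h - g) θ = 0) :
    0 < -ud h g θ *
      (Complex.exp (θ * Complex.I) * (h - g).derivative.eval (Complex.exp (θ * Complex.I))).im := by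
  set z : ℂ := Complex.exp (θ * Complex.I) with hz
  have hz1 : ‖z‖ = 1 := by rw [hz, Complex.norm_exp_ofReal_mul_I]
  have hzr : z ∈ Metric.ball (0 : ℂ) r := by
    rw [mem_ball_zero_iff, hz1]
    exact hU.one_lt
  have hsp := hU.sp z hzr
  set A : ℂ := z * (h + g).derivative.eval z with hA
  set B : ℂ := z * (h - g).derivative.eval z with hB
  have hud : ud h g θ = -A.im := rfl
  have hBre : B.re = 0 := h0
  have hAB : 0 < A.re * B.re + A.im * B.im := by
    have e1 : A.re * B.re + A.im * B.im = (A * (starRingEnd ℂ) B).re := by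
      simp [Complex.mul_re]
    have e2 : A * (starRingEnd ℂ) B = (z * (starRingEnd ℂ) z) *
        ((h.derivative.eval z + g.derivative.eval z) *
          (starRingEnd ℂ) (h.derivative.eval z - g.derivative.eval z)) := by
      rw [hA, hB]
      simp only [Polynomial.derivative_add, Polynomial.eval_add,
        Polynomial.eval_sub, map_mul, map_sub]
      ring
    have e3 : z * (starRingEnd ℂ) z = 1 := by
      rw [Complex.mul_conj, Complex.normSq_eq_norm_sq, hz1]; norm_num
    rw [e1, e2, e3, one_mul]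
    have e4 : ((h.derivative.eval z + g.derivative.eval z) *
        (starRingEnd ℂ) (h.derivative.eval z - g.derivative.eval z)).re =
        ‖h.derivative.eval z‖ ^ 2 - ‖g.derivative.eval z‖ ^ 2 := by
      rw [← Complex.normSq_eq_norm_sq, ← Complex.normSq_eq_norm_sq, Complex.normSq_apply,
        Complex.normSq_apply]
      simp only [map_sub, Complex.mul_re, Complex.add_re, Complex.sub_re, Complex.conj_re,
        Complex.add_im, Complex.sub_im, Complex.conj_im]
      ring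
    rw [e4]
    nlinarith [norm_nonneg (g.derivative.eval z), norm_nonneg (h.derivative.eval z)]
  rw [hud]
  change 0 < - -A.im * B.im
  rw [hBre] at hAB
  linarith

end Pool.CSH
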