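import Mathlib
import Pool.Agent.CSH.Defs
import Pool.Agent.CSH.Zeros
import Pool.Agent.CSH.Walk
import Pool.Agent.CSH.Coord
import Pool.Agent.CSH.Quad
import Pool.Agent.CSH.LevelEx

set_option autoImplicit false

/-!
FROMF: assembly of the half-plane data from a univalent harmonic polynomial.
-/

namespace Pool.CSH

open Complex Set Metric ComplexConjugate Finset

/-- Residues `C j` at the nodes `exp (t j I)`. -/
structure ROut (L : Polynomial ℂ) (m : ℕ) {n : ℕ} (t C : Fin (n + 1) → ℝ) : Prop where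
  sgn : ∀ j, 0 < C j * vd L (t j)
  dep : ∀ i j, vv L (t i) = vv L (t j) → |C i| = |C j|
  sum : ∑ j, C j = 0
  nz : ∀ z ∈ ball (0 : ℂ) 1, Dc C t z ≠ 0
  simple : ∀ θ : ℝ, (∀ j, Complex.exp (θ * I) ≠ Complex.exp (t j * I)) →
    Dc C t (Complex.exp (θ * I)) = 0 →
    ∑ j, (C j : ℂ) / (Complex.exp (t j * I) - Complex.exp (θ * I)) ^ 2 ≠ 0
  crit : ∀ θ, vd L θ = 0 → Dc C t (Complex.exp (θ * I)) = L.derivative.eval (Complex.exp (θ * I))
  coe : ∀ k ≤ m, ∑ j, (C j : ℂ) / Complex.exp (t j * I) ^ (k + 1) = L.derivative.coeff k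

/-- The matching at the nodes. -/
structure LevelOut (h g : Polynomial ℂ) (θ₀ : ℝ) (lev : Finset ℝ) {n : ℕ} (t : Fin (n + 1) → ℝ)
    (σ : Fin (n + 1) → Fin (n + 1)) : Prop where
  mono : StrictMono t
  mem : ∀ j, t j ∈ Ioo θ₀ (θ₀ + 2 * Real.pi)
  lev : ∀ θ ∈ Ioo θ₀ (θ₀ + 2 * Real.pi), vv (h - g) θ ∈ lev ↔ ∃ j, t j = θ
  invol : ∀ j, σ (σ j) = j
  nonc : ∀ i j, i < j → j < σ i → i < σ j ∧ σ j < σ i
  unm : ∀ i j, i < j → j < σ i → σ j ≠ j
  same : ∀ j, σ j ≠ j → vv (h - g) (t (σ j)) = vv (h - g) (t j) ∧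
    (0 < vd (h - g) (t j) ↔ vd (h - g) (t (σ j)) < 0)
  ord : ∀ j, 0 < vd (h - g) (t j) → σ j ≠ j → (bd h g (t j)).re < (bd h g (t (σ j))).re
  outer : ∀ i j, i < j → σ i = i → σ j = j → vd (h - g) (t j) < 0 → vd (h - g) (t i) < 0
  two : ∃ i j, i < j ∧ σ i = i ∧ σ j = j ∧ vd (h - g) (t i) < 0 ∧ vd (h - g) (t j) < 0

/-- `exp (θ I)` is injective on an open period. -/
theorem angle_inj {θ₀ a b : ℝ} (ha : a ∈ Ioo θ₀ (θ₀ + 2 * Real.pi))
    (hb : b ∈ Ioo θ₀ (θ₀ + 2 * Real.pi)) (h : Complex.exp (a * I) = Complex.exp (b * I)) :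
    a = b := by
  rw [Complex.exp_eq_exp_iff_exists_int] at h
  obtain ⟨k, hk⟩ := h
  have h1 : (a : ℂ) = b + k * (2 * Real.pi) := by
    have h2 : (I : ℂ) ≠ 0 := I_ne_zero
    apply mul_right_cancel₀ h2
    rw [hk]; ring
  have h2 : a = b + k * (2 * Real.pi) := by exact_mod_cast h1
  have hpi := Real.pi_pos
  have h3 : k = 0 := by
    by_contra hk0
    rcases lt_or_gt_of_ne hk0 with h4 | h4
    · have : (k : ℝ) ≤ -1 := by exact_mod_cast Int.le_sub_one_of_lt h4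
      nlinarith [ha.1, hb.2]
    · have : (1 : ℝ) ≤ k := by exact_mod_cast h4
      nlinarith [ha.2, hb.1]
  rw [h3] at h2
  simpa using h2

section assemble

variable {h g : Polynomial ℂ} {r : ℝ} {θ₀ : ℝ} {m n : ℕ} {lev : Finset ℝ}
  {t C : Fin (n + 1) → ℝ} {σ : Fin (n + 1) → Fin (n + 1)}

theorem ROut.vd_ne {L : Polynomial ℂ} (Q : ROut L m t C) (j : Fin (n + 1)) :
    vd L (t j) ≠ 0 := by
  intro h0
  have h1 := Q.sgn j
  rw [h0, mul_zero] at h1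
  exact lt_irrefl _ h1

theorem ROut.C_ne {L : Polynomial ℂ} (Q : ROut L m t C) (j : Fin (n + 1)) : C j ≠ 0 := by
  intro h0
  have h1 := Q.sgn j
  rw [h0, zero_mul] at h1
  exact lt_irrefl _ h1

theorem ROut.neg_iff {L : Polynomial ℂ} (Q : ROut L m t C) (j : Fin (n + 1)) :
    - C j < 0 ↔ 0 < vd L (t j) := by
  have h1 := Q.sgn j
  constructor
  · intro h2
    exact pos_of_mul_pos_right h1 (by linarith)
  · intro h2
    have := pos_of_mul_pos_left h1 h2.le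
    linarith

theorem ROut.pos_iff {L : Polynomial ℂ} (Q : ROut L m t C) (j : Fin (n + 1)) :
    0 < - C j ↔ vd L (t j) < 0 := by
  have h3 := Q.vd_ne j
  have h4 := Q.neg_iff j
  have h5 := Q.C_ne j
  constructor
  · intro h2
    by_contra hcon
    have h6 : 0 < vd L (t j) := lt_of_le_of_ne (not_lt.1 hcon) h3.symm
    have := h4.2 h6
    linarith
  · intro h2
    by_contra hcon
    have h6 : - C j < 0 := by
      rcases lt_trichotomy (- C j) 0 with h7 | h7 | h7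
      · exact h7
      · exact absurd (neg_eq_zero.1 h7) h5
      · exact absurd h7 hcon
    have := h4.1 h6
    linarith

/-- Sign of `L'` at a critical point, in the half-plane coordinate. -/
theorem Lr_crit (hU : Uni h g r) (Q : ROut (h - g) m t C) (E : LevelOut h g θ₀ lev t σ)
    {θ : ℝ} (hθ : θ ∈ Ioo θ₀ (θ₀ + 2 * Real.pi)) (h0 : vd (h - g) θ = 0) :
    0 < ud h g θ * Lr (fun j => pp θ₀ (t j)) (fun j => - C j) (pp θ₀ θ) := by
  have hne : ∀ j, θ ≠ t j := by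
    rintro j rfl
    exact Q.vd_ne j h0
  rw [Lr_eq_re E.mem C Q.sum hθ hne, Q.crit θ h0]
  have h3 := im_of_crit hU h0
  set B : ℂ := Complex.exp (θ * I) * (h - g).derivative.eval (Complex.exp (θ * I)) with hB
  have hx2 : 0 < pp θ₀ θ ^ 2 + 1 := by positivity
  have h7 : ud h g θ * (-(2 * B.im) / (pp θ₀ θ ^ 2 + 1)) =
      2 * (-ud h g θ * B.im) / (pp θ₀ θ ^ 2 + 1) := by ring
  rw [h7]
  exact div_pos (mul_pos two_pos h3) hx2

/-- A zero of `L'` on an arc of equal sign or of concave type. -/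
theorem zero_arc (hU : Uni h g r) (Q : ROut (h - g) m t C) (E : LevelOut h g θ₀ lev t σ)
    {k l : Fin (n + 1)} (hl : (l : ℕ) = k + 1)
    (hor : ((0 < vd (h - g) (t k)) ↔ (0 < vd (h - g) (t l))) ∨
      ((0 < vd (h - g) (t k)) ∧ ¬ (0 < vd (h - g) (t l)) ∧ (bd h g (t k)).re < (bd h g (t l)).re) ∨
      (¬ (0 < vd (h - g) (t k)) ∧ (0 < vd (h - g) (t l)) ∧
        (bd h g (t l)).re < (bd h g (t k)).re)) :
    ∃ x ∈ Ioo (pp θ₀ (t k)) (pp θ₀ (t l)),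
      Lr (fun j => pp θ₀ (t j)) (fun j => - C j) x = 0 := by
  have hpp := pp_strictMonoOn θ₀
  have hp : StrictMono (fun j => pp θ₀ (t j)) := fun i j hij =>
    hpp (E.mem i) (E.mem j) (E.mono hij)
  have hneg : ∀ j, ¬ 0 < vd (h - g) (t j) → vd (h - g) (t j) < 0 := fun j hj =>
    lt_of_le_of_ne (not_lt.1 hj) (Q.vd_ne j)
  have hkl : t k < t l := E.mono (by rw [Fin.lt_def]; omega)
  have hin : ∀ θ ∈ Ioo (t k) (t l), vv (h - g) θ ∉ lev := by
    intro θ hθ hcon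
    have hθ' : θ ∈ Ioo θ₀ (θ₀ + 2 * Real.pi) :=
      ⟨(E.mem k).1.trans hθ.1, hθ.2.trans (E.mem l).2⟩
    obtain ⟨j, hj⟩ := (E.lev θ hθ').1 hcon
    rw [← hj] at hθ
    have h1 := E.mono.lt_iff_lt.1 hθ.1
    have h2 := E.mono.lt_iff_lt.1 hθ.2
    rw [Fin.lt_def] at h1 h2
    omega
  have hlev : ∀ j, vv (h - g) (t j) ∈ lev := fun j => (E.lev _ (E.mem j)).2 ⟨j, rfl⟩
  have hk' : ∀ θ ∈ Ioo (t k) (t l), vv (h - g) θ ≠ vv (h - g) (t k) := fun θ hθ h0 =>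
    hin θ hθ (h0 ▸ hlev k)
  have hl' : ∀ θ ∈ Ioo (t k) (t l), vv (h - g) θ ≠ vv (h - g) (t l) := fun θ hθ h0 =>
    hin θ hθ (h0 ▸ hlev l)
  have hper : t l < t k + 2 * Real.pi := by
    have h1 := (E.mem k).1
    have h2 := (E.mem l).2
    linarith
  have hsub : ∀ θ ∈ Ioo (t k) (t l), θ ∈ Ioo θ₀ (θ₀ + 2 * Real.pi) := fun θ hθ =>
    ⟨(E.mem k).1.trans hθ.1, hθ.2.trans (E.mem l).2⟩
  rcases hor with h1 | ⟨h1, h2, h3⟩ | ⟨h1, h2, h3⟩
  · apply zero_same hp hl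
    by_cases h2 : 0 < vd (h - g) (t k)
    · have h3 := h1.1 h2
      exact mul_pos_of_neg_of_neg ((Q.neg_iff k).2 h2) ((Q.neg_iff l).2 h3)
    · have h3 : ¬ 0 < vd (h - g) (t l) := fun h4 => h2 (h1.2 h4)
      exact mul_pos ((Q.pos_iff k).2 (hneg k h2)) ((Q.pos_iff l).2 (hneg l h3))
  · have h4 := level_up (vv_continuous h g) hkl (vv_hasDerivAt h g _) h1 (vv_hasDerivAt h g _)
      (hneg l h2) hk' hl'
    obtain ⟨θ, hθ, hθ0, hθ1⟩ := plat_up hU hkl hper h4.1 h4.2 h1 (hneg l h2) h3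
    have h5 := Lr_crit hU Q E (hsub θ hθ) hθ0
    refine zero_mid (x₀ := pp θ₀ θ) hp hl ((Q.neg_iff k).2 h1) ?_ ?_
    · exact ⟨hpp (E.mem k) (hsub θ hθ) hθ.1, hpp (hsub θ hθ) (E.mem l) hθ.2⟩
    · exact pos_of_mul_pos_right h5 hθ1.le
  · have h4 := level_down (vv_continuous h g) hkl (vv_hasDerivAt h g _) (hneg k h1)
      (vv_hasDerivAt h g _) h2 hk' hl'
    obtain ⟨θ, hθ, hθ0, hθ1⟩ := plat_down hU hkl hper h4.1 h4.2 (hneg k h1) h2 h3
    have h5 := Lr_crit hU Q E (hsub θ hθ) hθ0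
    refine zero_mid' (x₀ := pp θ₀ θ) hp hl ((Q.pos_iff k).2 (hneg k h1)) ?_ ?_
    · exact ⟨hpp (E.mem k) (hsub θ hθ) hθ.1, hpp (hsub θ hθ) (E.mem l) hθ.2⟩
    · by_contra hcon
      have := mul_nonpos_of_nonpos_of_nonneg hθ1.le (not_lt.1 hcon)
      linarith

/-- The half-plane data. -/
theorem hdata_of (hU : Uni h g r) (Q : ROut (h - g) m t C) (E : LevelOut h g θ₀ lev t σ) :
    HData (fun j => pp θ₀ (t j)) (fun j => - C j) σ := by
  have hpp := pp_strictMonoOn θ₀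
  have hp : StrictMono (fun j => pp θ₀ (t j)) := fun i j hij =>
    hpp (E.mem i) (E.mem j) (E.mono hij)
  have hneg : ∀ j, ¬ 0 < vd (h - g) (t j) → vd (h - g) (t j) < 0 := fun j hj =>
    lt_of_le_of_ne (not_lt.1 hj) (Q.vd_ne j)
  have hsimp : ∀ x : ℝ, (∀ j, x ≠ pp θ₀ (t j)) →
      Lr (fun j => pp θ₀ (t j)) (fun j => - C j) x = 0 →
      Lr' (fun j => pp θ₀ (t j)) (fun j => - C j) x ≠ 0 := by
    intro x hx h0
    obtain ⟨θ, hθ, rfl⟩ := pp_surj θ₀ x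
    have hne : ∀ j, θ ≠ t j := by
      rintro j rfl
      exact hx j rfl
    have h1 := (Lr_eq_zero_iff E.mem C Q.sum hθ hne).1 h0
    refine Lr'_ne_zero E.mem C Q.sum hθ hne h1 (Q.simple θ ?_ h1)
    intro j hj
    exact hne j (angle_inj hθ (E.mem j) hj)
  have hzero : ∀ i b : Fin (n + 1), ∀ k l : Fin (n + 1), i ≤ k → (l : ℕ) = k + 1 → l ≤ b →
      (∀ j, i < j → j < b → j < σ j → ¬ (j ≤ k ∧ l ≤ σ j)) →
      ∀ x ∈ Ioo (pp θ₀ (t k)) (pp θ₀ (t l)),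
      pp θ₀ (t i) < x ∧ x < pp θ₀ (t b) ∧ (∀ j, x ≠ pp θ₀ (t j)) ∧
      ∀ j, i < j → j < b → j < σ j → ¬ (pp θ₀ (t j) ≤ x ∧ x ≤ pp θ₀ (t (σ j))) := by
    intro i b k l hik hl hlb hdir x hx
    refine ⟨lt_of_le_of_lt (hp.monotone hik) hx.1, lt_of_lt_of_le hx.2 (hp.monotone hlb),
      fun j => ne_pole hp hl hx j, ?_⟩
    rintro j hj1 hj2 hj3 ⟨h1, h2⟩
    apply hdir j hj1 hj2 hj3
    have h3 : pp θ₀ (t j) < pp θ₀ (t l) := lt_of_le_of_lt h1 hx.2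
    have h4 : pp θ₀ (t k) < pp θ₀ (t (σ j)) := lt_of_lt_of_le hx.1 h2
    have h5 : j < l := hp.lt_iff_lt.1 h3
    have h6 : k < σ j := hp.lt_iff_lt.1 h4
    constructor
    · rw [Fin.le_def]; rw [Fin.lt_def] at h5; omega
    · rw [Fin.le_def]; rw [Fin.lt_def] at h6; omega
  have hopp : ∀ j, σ j ≠ j → (0 < vd (h - g) (t (σ j)) ↔ ¬ 0 < vd (h - g) (t j)) := by
    intro j hj
    rw [(E.same j hj).2]
    constructor
    · intro h1 h2; exact lt_asymm h1 h2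
    · intro h1
      rcases lt_trichotomy (vd (h - g) (t (σ j))) 0 with h2 | h2 | h2
      · exact absurd h2 h1
      · exact absurd h2 (Q.vd_ne _)
      · exact h2
  refine
    { mono := hp
      cne := fun j => neg_ne_zero.2 (Q.C_ne j)
      csum := by rw [Finset.sum_neg_distrib, Q.sum, neg_zero]
      nz := Lp_ne_zero E.mem C Q.sum Q.nz
      simple := hsimp
      invol := E.invol
      nonc := E.nonc
      unm := E.unm
      csig := ?_
      outer := ?_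
      two := ?_
      zin := ?_
      zout := ?_ }
  · intro j hj
    have h1 := Q.dep _ _ (E.same j hj).1
    have h2 := hopp j hj
    by_cases h3 : 0 < vd (h - g) (t j)
    · have h4 : vd (h - g) (t (σ j)) < 0 := hneg _ (fun h5 => (h2.1 h5) h3)
      have h5 := (Q.neg_iff j).2 h3
      have h6 := (Q.pos_iff (σ j)).2 h4
      rw [abs_of_neg (by linarith : C (σ j) < 0), abs_of_pos (by linarith : 0 < C j)] at h1
      linarith
    · have h4 : 0 < vd (h - g) (t (σ j)) := h2.2 h3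
      have h5 := (Q.pos_iff j).2 (hneg j h3)
      have h6 := (Q.neg_iff (σ j)).2 h4
      rw [abs_of_pos (by linarith : 0 < C (σ j)), abs_of_neg (by linarith : C j < 0)] at h1
      linarith
  · intro i j hi hj hij hcj
    exact (Q.pos_iff i).2 (E.outer i j hij hi hj ((Q.pos_iff j).1 hcj))
  · obtain ⟨i, j, hij, hi, hj, hi0, hj0⟩ := E.two
    exact ⟨i, j, hij, hi, hj, (Q.pos_iff i).2 hi0, (Q.pos_iff j).2 hj0⟩
  · intro i hi
    obtain ⟨k, l, hik, hl, hlb, hdir, hor⟩ := walk_in σ (fun j => 0 < vd (h - g) (t j))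
      (fun j => (bd h g (t j)).re) E.invol E.nonc E.unm hopp (fun j h1 h2 => E.ord j h2 h1) i hi
    obtain ⟨x, hx, hx0⟩ := zero_arc hU Q E hl hor
    have h1 := hzero i (σ i) k l hik hl hlb hdir x hx
    exact ⟨x, h1.1, h1.2.1, h1.2.2.1, hx0, h1.2.2.2⟩
  · intro i j hij hi hj hb hcc
    have hs : (0 < vd (h - g) (t i)) ↔ (0 < vd (h - g) (t j)) := by
      rw [← Q.neg_iff i, ← Q.neg_iff j]
      rcases pos_and_pos_or_neg_and_neg_of_mul_pos hcc with ⟨h1, h2⟩ | ⟨h1, h2⟩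
      · exact ⟨fun h3 => absurd h3 (not_lt.2 h1.le), fun h3 => absurd h3 (not_lt.2 h2.le)⟩
      · exact ⟨fun _ => h2, fun _ => h1⟩
    obtain ⟨k, l, hik, hl, hlb, hdir, hor⟩ := walk_out σ (fun j => 0 < vd (h - g) (t j))
      E.invol E.nonc E.unm hopp i j hij hi hj hb hs
    obtain ⟨x, hx, hx0⟩ := zero_arc hU Q E hl (Or.inl hor)
    have h1 := hzero i j k l hik hl hlb hdir x hx
    exact ⟨x, h1.1, h1.2.1, h1.2.2.1, hx0, h1.2.2.2⟩

end assemble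

/-- `L' ≠ 0` on the closed disc. -/
theorem Uni.deriv_ne {h g : Polynomial ℂ} {r : ℝ} (hU : Uni h g r) :
    ∀ z ∈ closedBall (0 : ℂ) 1, (h - g).derivative.eval z ≠ 0 := by
  intro z hz h0
  have hz1 : ‖z‖ ≤ 1 := by simpa using hz
  have hzr : z ∈ ball (0 : ℂ) r := by
    rw [mem_ball_zero_iff]
    exact lt_of_le_of_lt hz1 hU.one_lt
  have h1 := hU.sp z hzr
  rw [Polynomial.derivative_sub, Polynomial.eval_sub, sub_eq_zero] at h0
  rw [h0] at h1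
  exact lt_irrefl _ h1

/-- `v` attains its maximum. -/
theorem exists_argmax (h g : Polynomial ℂ) : ∃ θ₀, ∀ θ, vv (h - g) θ ≤ vv (h - g) θ₀ := by
  have hpi : (0 : ℝ) ≤ 2 * Real.pi := by positivity
  obtain ⟨θ₀, -, h1⟩ := (isCompact_Icc (a := (0 : ℝ)) (b := 2 * Real.pi)).exists_isMaxOn
    ⟨0, left_mem_Icc.2 hpi⟩ (vv_continuous h g).continuousOn
  refine ⟨θ₀, fun θ => ?_⟩
  obtain ⟨k, hk⟩ := exists_rep 0 θ
  have h2 := h1 (a := θ + k * (2 * Real.pi)) ⟨hk.1, by linarith [hk.2]⟩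
  have h3 := vv_add_int (h - g) θ k
  simp only [Set.mem_setOf_eq] at h2
  rw [h3] at h2
  exact h2

/-- All data for a univalent harmonic polynomial. -/
theorem data_exists {h g : Polynomial ℂ} {r : ℝ} (hU : Uni h g r) (m : ℕ) :
    ∃ (θ₀ : ℝ) (lev : Finset ℝ) (n : ℕ) (t C : Fin (n + 1) → ℝ) (σ : Fin (n + 1) → Fin (n + 1)),
      ROut (h - g) m t C ∧ LevelOut h g θ₀ lev t σ := by
  obtain ⟨θ₀, hθ₀⟩ := exists_argmax h g
  obtain ⟨lev, τ, -, hreg, ⟨a, ha, b, hb, hal, hbl, hab⟩, -, hpos, hlev, hQ⟩ :=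
    quad_lev (h - g) hU.deriv_ne θ₀ hθ₀ ∅ (by simp) m
  obtain ⟨n, t, σ, hm, hmem, hnode, h1, h2, h3, h4, h5, h6, h7⟩ :=
    level_exists hU θ₀ hθ₀ lev hreg ⟨a, b, hab, hal, hbl⟩
  have hen : ∀ θ, (∃ j, t j = θ) ↔ (θ ∈ Ioo θ₀ (θ₀ + 2 * Real.pi) ∧ vv (h - g) θ ∈ lev) := by
    intro θ
    constructor
    · rintro ⟨j, rfl⟩
      exact ⟨hmem j, (hnode _ (hmem j)).2 ⟨j, rfl⟩⟩
    · rintro ⟨h8, h9⟩
      exact (hnode θ h8).1 h9
  obtain ⟨q, hcoe, -⟩ := hQ (n + 1) t hm hen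
  have hvd : ∀ j, vd (h - g) (t j) ≠ 0 := fun j => hreg _ ((hen _).1 ⟨j, rfl⟩).2
  have hτ : ∀ j, 0 < τ (t j) := fun j => hpos _ ((hen _).1 ⟨j, rfl⟩).2
  refine ⟨θ₀, lev, n, t, fun j => 2 * τ (t j) * vd (h - g) (t j), σ, ?_, ?_⟩
  · refine ⟨?_, ?_, ?_, ?_, ?_, ?_, ?_⟩
    · intro j
      have h8 : 2 * τ (t j) * vd (h - g) (t j) * vd (h - g) (t j) =
          2 * τ (t j) * (vd (h - g) (t j)) ^ 2 := by ring
      rw [h8]
      have := hτ j
      have := hvd j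
      positivity
    · intro i j hij
      have h8 := hlev (t i) (t j) ((hen _).1 ⟨i, rfl⟩).2 hij
      rw [abs_mul, abs_mul, abs_mul, abs_mul, abs_of_pos (hτ i), abs_of_pos (hτ j), mul_assoc,
        mul_assoc, h8]
    · have h8 := q.sum0
      have h9 : ∑ j, 2 * τ (t j) * vd (h - g) (t j) = 2 * ∑ j, τ (t j) * vd (h - g) (t j) := by
        rw [Finset.mul_sum]
        exact Finset.sum_congr rfl fun j _ => by ring
      rw [h9, h8, mul_zero]
    · intro z hz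
      exact q.nz z hz
    · intro θ h8 h9
      have h10 := q.simple (Complex.exp (θ * I)) (by
        rw [mem_sphere_zero_iff_norm, Complex.norm_exp_ofReal_mul_I]) h8 h9
      exact h10
    · intro θ h8
      exact q.crit θ h8
    · intro k hk
      rw [← hcoe k hk]
      exact Finset.sum_congr rfl fun j _ => by rw [div_eq_mul_inv]
  · exact ⟨hm, hmem, hnode, h1, h2, h3, h4, h5, h6, h7⟩

end Pool.CSH
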