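import Mathlib
import Pool.Agent.CSH.HPLin

/-!
Existence of the Pick function `R = ∑ ρ_z / (z - w)` closing up the gaps
(half-plane model, harmonic univalent maps, `|a₂| ≤ 3`).
-/

namespace CSH

open Finset Filter Topology

variable {n : ℕ}

/-- `z` lies in the (finite) arc `a`. -/
def InArc (p : Fin (n + 1) → ℝ) (z : ℝ) (a : Fin (n + 1)) : Prop :=
  p a < z ∧ a < Fin.last n ∧ z < p (a + 1)

/-- Classes which carry a zero: openers, and unmatched poles followed by an unmatched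
pole of the same sign. -/
def Good (c : Fin (n + 1) → ℝ) (σ : Fin (n + 1) → Fin (n + 1)) (i : Fin (n + 1)) : Prop :=
  i < σ i ∨ ∃ u', Nxt σ i u' ∧ 0 < c i * c u'

theorem InArc.unique {p : Fin (n + 1) → ℝ} (hp : StrictMono p) {z : ℝ} {a b : Fin (n + 1)}
    (ha : InArc p z a) (hb : InArc p z b) : a = b := by
  rcases lt_trichotomy a b with h | h | h
  · rcases le_or_ge_succ ha.2.1 b with h1 | h1
    · exact absurd h (not_lt.2 h1)
    · exact absurd (ha.2.2.trans_le (hp.monotone h1)) (not_lt.2 hb.1.le)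
  · exact h
  · rcases le_or_ge_succ hb.2.1 a with h1 | h1
    · exact absurd h (not_lt.2 h1)
    · exact absurd (hb.2.2.trans_le (hp.monotone h1)) (not_lt.2 ha.1.le)

theorem exists_arc {p : Fin (n + 1) → ℝ} (hp : StrictMono p) {z : ℝ} (hz : ∀ j, z ≠ p j)
    {i m : Fin (n + 1)} (hi : p i < z) (hm : z < p m) :
    ∃ a, i ≤ a ∧ a < m ∧ InArc p z a := by
  classical
  have hne : (univ.filter (fun j => p j < z)).Nonempty := ⟨i, by simp [hi]⟩
  set a := (univ.filter (fun j => p j < z)).max' hne with ha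
  have h1 : p a < z := by
    have := Finset.max'_mem _ hne
    rw [← ha] at this
    simpa using this
  have h2 : i ≤ a := Finset.le_max' _ _ (by simp [hi])
  have h3 : a < m := hp.lt_iff_lt.1 (h1.trans hm)
  have h4 : a < Fin.last n := h3.trans_le (Fin.le_last _)
  refine ⟨a, h2, h3, h1, h4, ?_⟩
  by_contra h5
  push Not at h5
  have h6 : p (a + 1) < z := lt_of_le_of_ne h5 (Ne.symm (hz _))
  have h7 : a + 1 ≤ a := Finset.le_max' _ _ (by simp [h6])
  exact absurd (lt_succ h4) (not_lt.2 h7)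

/-- The kernel. -/
noncomputable def kk (p : Fin (n + 1) → ℝ) (z : ℝ) (j : Fin (n + 1)) : ℝ :=
  1 / (p j - z) - 1 / (p (j + 1) - z)

theorem sum_kk (p : Fin (n + 1) → ℝ) (z : ℝ) : ∑ j, kk p z j = 0 := by
  unfold kk
  rw [Finset.sum_sub_distrib, sub_eq_zero]
  exact (Equiv.sum_comp (Equiv.addRight (1 : Fin (n + 1))) (fun j => 1 / (p j - z))).symm

theorem kk_pos {p : Fin (n + 1) → ℝ} (hp : StrictMono p) {z : ℝ} {a j : Fin (n + 1)}
    (ha : InArc p z a) (hj : j ≠ a) : 0 < kk p z j := by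
  unfold kk
  rw [sub_pos]
  obtain ⟨h1, h2, h3⟩ := ha
  rcases lt_or_gt_of_ne hj with h | h
  · -- j < a
    have h4 : j < Fin.last n := h.trans h2
    have h5 : p (j + 1) ≤ p a := by
      rcases le_or_ge_succ h4 a with h6 | h6
      · exact absurd h (not_lt.2 h6)
      · exact hp.monotone h6
    have h6 : p j < p (j + 1) := hp (lt_succ h4)
    have h7 : p (j + 1) - z < 0 := by linarith
    have h8 : p j - z < 0 := by linarith
    exact one_div_lt_one_div_of_neg_of_lt h7 (by linarith)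
  · -- a < j
    rcases (Fin.le_last j).eq_or_lt with h4 | h4
    · -- last
      have h5 : p (a + 1) ≤ p j := by
        rcases le_or_ge_succ h2 j with h6 | h6
        · exact absurd h (not_lt.2 h6)
        · exact hp.monotone h6
      have h6 : (j + 1 : Fin (n + 1)) = 0 := by rw [h4]; simp
      rw [h6]
      have h7 : p 0 ≤ p a := hp.monotone (Fin.zero_le _)
      have h8 : 0 < p j - z := by linarith
      have h9 : p 0 - z < 0 := by linarith
      exact (one_div_neg.2 h9).trans (one_div_pos.2 h8)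
    · have h5 : p (a + 1) ≤ p j := by
        rcases le_or_ge_succ h2 j with h6 | h6
        · exact absurd h (not_lt.2 h6)
        · exact hp.monotone h6
      have h6 : p j < p (j + 1) := hp (lt_succ h4)
      apply one_div_lt_one_div_of_lt
      · linarith
      · linarith

theorem not_good_last (c : Fin (n + 1) → ℝ) (σ : Fin (n + 1) → Fin (n + 1)) :
    ¬ Good c σ (cls σ (Fin.last n)) := by
  intro h
  by_cases h1 : cls σ (Fin.last n) = Fin.last n
  · rw [h1] at h
    rcases h with h | ⟨u', hu, _⟩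
    · exact absurd h (not_lt.2 (Fin.le_last _))
    · exact absurd hu.1 (not_lt.2 (Fin.le_last _))
  · have h2 := cls_spec h1
    rw [mem_cand] at h2
    have h3 : σ (cls σ (Fin.last n)) = cls σ (Fin.last n) := by
      rcases h2.2 with h3 | h3
      · exact h3
      · exact absurd h3 (not_lt.2 (Fin.le_last _))
    rcases h with h | ⟨u', hu, _⟩
    · rw [h3] at h; exact lt_irrefl _ h
    · have h4 : u' ∈ cand σ (Fin.last n) := mem_cand.2 ⟨Fin.le_last _, Or.inl hu.2.2.1⟩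
      exact absurd hu.1 (not_lt.2 (cls_mem h4).2)

/-- A zero directly inside an opener lies in an arc of that class. -/
theorem arc_of_opener {p : Fin (n + 1) → ℝ} (hp : StrictMono p)
    {σ : Fin (n + 1) → Fin (n + 1)} (B : Brk σ) {z : ℝ} (hz : ∀ j, z ≠ p j)
    {i : Fin (n + 1)} (h1 : p i < z) (h2 : z < p (σ i))
    (h3 : ∀ j, i < j → j < σ j → σ j < σ i → ¬ (p j < z ∧ z < p (σ j))) :
    ∃ a, InArc p z a ∧ cls σ a = i := by
  obtain ⟨a, ha1, ha2, ha3⟩ := exists_arc hp hz h1 h2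
  refine ⟨a, ha3, ?_⟩
  have hm : i ∈ cand σ a := mem_cand.2 ⟨ha1, Or.inr ha2⟩
  obtain ⟨h4, h5⟩ := cls_mem hm
  rw [mem_cand] at h4
  by_contra hne
  have h6 : i < cls σ a := lt_of_le_of_ne h5 (Ne.symm hne)
  have h7 := B.nc i _ h6 (lt_of_le_of_lt h4.1 ha2)
  have h8 : a < σ (cls σ a) := by
    rcases h4.2 with h9 | h9
    · exact absurd h9 h7.2.2
    · exact h9
  refine h3 (cls σ a) h6 (lt_of_le_of_lt h4.1 h8) h7.2.1
    ⟨lt_of_le_of_lt (hp.monotone h4.1) ha3.1, ?_⟩
  rcases le_or_ge_succ ha3.2.1 (σ (cls σ a)) with h9 | h9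
  · exact absurd h8 (not_lt.2 h9)
  · exact ha3.2.2.trans_le (hp.monotone h9)

theorem arc_of_nxt {p : Fin (n + 1) → ℝ} (hp : StrictMono p)
    {σ : Fin (n + 1) → Fin (n + 1)} {z : ℝ} (hz : ∀ j, z ≠ p j)
    {u u' : Fin (n + 1)} (hu : Nxt σ u u') (h1 : p u < z) (h2 : z < p u')
    (h3 : ∀ j, u < j → j < u' → j < σ j → ¬ (p j < z ∧ z < p (σ j))) :
    ∃ a, InArc p z a ∧ cls σ a = u := by
  obtain ⟨a, ha1, ha2, ha3⟩ := exists_arc hp hz h1 h2
  refine ⟨a, ha3, ?_⟩
  have hm : u ∈ cand σ a := mem_cand.2 ⟨ha1, Or.inl hu.2.1⟩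
  obtain ⟨h4, h5⟩ := cls_mem hm
  rw [mem_cand] at h4
  by_contra hne
  have h6 : u < cls σ a := lt_of_le_of_ne h5 (Ne.symm hne)
  have h7 : cls σ a < u' := lt_of_le_of_lt h4.1 ha2
  have h8 : a < σ (cls σ a) := by
    rcases h4.2 with h9 | h9
    · exact absurd h9 (hu.2.2.2 _ h6 h7)
    · exact h9
  refine h3 (cls σ a) h6 h7 (lt_of_le_of_lt h4.1 h8)
    ⟨lt_of_le_of_lt (hp.monotone h4.1) ha3.1, ?_⟩
  rcases le_or_ge_succ ha3.2.1 (σ (cls σ a)) with h9 | h9
  · exact absurd h8 (not_lt.2 h9)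
  · exact ha3.2.2.trans_le (hp.monotone h9)

/-- **Closing up the gaps.** -/
theorem exists_rho (p c : Fin (n + 1) → ℝ) (hp : StrictMono p) (hc : ∀ j, c j ≠ 0)
    (σ : Fin (n + 1) → Fin (n + 1)) (B : Brk σ) (hcσ : ∀ j, σ j ≠ j → c (σ j) = - c j)
    (Z : Finset ℝ) (hZp : ∀ z ∈ Z, ∀ j, z ≠ p j)
    (hZ : ∀ x, (∀ j, x ≠ p j) → (x ∈ Z ↔ gL p c x = 0))
    (hsim : ∀ z ∈ Z, gLd p c z ≠ 0)
    (hop : ∀ i, i < σ i → ∃ z ∈ Z, p i < z ∧ z < p (σ i) ∧
      ∀ j, i < j → j < σ j → σ j < σ i → ¬ (p j < z ∧ z < p (σ j)))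
    (hun : ∀ u u', Nxt σ u u' → 0 < c u * c u' → ∃ z ∈ Z, p u < z ∧ z < p u' ∧
      ∀ j, u < j → j < u' → j < σ j → ¬ (p j < z ∧ z < p (σ j)))
    (h2 : ∃ u u', Nxt σ u u' ∧ 0 < c u * c u') :
    ∃ ρ : ℝ → ℝ, (∀ z, 0 ≤ ρ z) ∧ (∃ z ∈ Z, 0 < ρ z) ∧
      (∀ z ∈ Z, ∀ a, InArc p z a → Good c σ (cls σ a) → 0 < ρ z) ∧
      (∀ j, RR Z ρ (p (σ j)) = RR Z ρ (p j)) ∧
      (∀ u u', Nxt σ u u' → 0 < c u * c u' → RR Z ρ (p u') < RR Z ρ (p u)) ∧
      (∀ i, i < σ i →
        ∑ z ∈ Z.filter (fun z => p i < z ∧ z < p (σ i)), ρ z ^ 2 * gLd p c z = 0) := by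
  classical
  -- the zeros in good classes
  let F : Finset (ℝ × Fin (n + 1)) :=
    (Z ×ˢ univ).filter (fun q => InArc p q.1 q.2 ∧ Good c σ (cls σ q.2))
  have hFmem : ∀ q, q ∈ F ↔ q.1 ∈ Z ∧ InArc p q.1 q.2 ∧ Good c σ (cls σ q.2) := by
    intro q
    simp [F]
  obtain ⟨y, hypos, hy⟩ := lin (Z := {q // q ∈ F}) (I := Fin (n + 1)) (V := Fin (n + 1))
    (fun q => q.1.2) (cls σ) (fun q j => kk p q.1.1 j)
    (by
      intro q j hj
      exact kk_pos hp ((hFmem q.1).1 q.2).2.1 hj)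
    (by intro q; exact sum_kk p _)
    (fun q => 1 / Real.sqrt |gLd p c q.1.1|)
    (by
      intro q
      have := hsim q.1.1 ((hFmem q.1).1 q.2).1
      positivity)
    (fun v => ¬ Good c σ v)
    ⟨Fin.last n, not_good_last c σ⟩
    (by
      intro q
      rw [not_not]
      exact ((hFmem q.1).1 q.2).2.2)
    (by
      intro v hv
      rw [not_not] at hv
      have hv' := hv
      rcases hv with hv | ⟨u', hu, hcu⟩
      · obtain ⟨z, hz, h3, h4, h5⟩ := hop v hv
        obtain ⟨a, ha1, ha2⟩ := arc_of_opener hp B (hZp z hz) h3 h4 h5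
        exact ⟨⟨(z, a), (hFmem _).2 ⟨hz, ha1, by rw [ha2]; exact hv'⟩⟩, ha2⟩
      · obtain ⟨z, hz, h3, h4, h5⟩ := hun v u' hu hcu
        obtain ⟨a, ha1, ha2⟩ := arc_of_nxt hp (hZp z hz) hu h3 h4 h5
        exact ⟨⟨(z, a), (hFmem _).2 ⟨hz, ha1, by rw [ha2]; exact hv'⟩⟩, ha2⟩)
    (fun v => if v < σ v then 0 else 1)
    (by intro v; split_ifs <;> norm_num)
    (by
      obtain ⟨u, u', hu, hcu⟩ := h2
      refine ⟨u, by rw [not_not]; exact Or.inr ⟨u', hu, hcu⟩, ?_⟩
      rw [if_neg (by rw [hu.2.1]; exact lt_irrefl _)]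
      norm_num)
  simp only [not_not] at hypos hy
  -- the weights
  let ρ : ℝ → ℝ := fun z => ∑ a ∈ univ.filter (fun a => InArc p z a ∧ Good c σ (cls σ a)),
    y (cls σ a) * (1 / Real.sqrt |gLd p c z|)
  have hρ0 : ∀ z, 0 ≤ ρ z := by
    intro z
    apply Finset.sum_nonneg
    intro a ha
    rw [mem_filter] at ha
    exact mul_nonneg (hypos _ ha.2.2).le (by positivity)
  have hρval : ∀ z a, InArc p z a → Good c σ (cls σ a) →
      ρ z = y (cls σ a) * (1 / Real.sqrt |gLd p c z|) := by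
    intro z a ha hg
    have : univ.filter (fun a => InArc p z a ∧ Good c σ (cls σ a)) = {a} := by
      ext b
      simp only [mem_filter, mem_univ, true_and, mem_singleton]
      constructor
      · intro h; exact h.1.unique hp ha
      · intro h; rw [h]; exact ⟨ha, hg⟩
    show ∑ a ∈ univ.filter (fun a => InArc p z a ∧ Good c σ (cls σ a)),
      y (cls σ a) * (1 / Real.sqrt |gLd p c z|) = _
    rw [this, Finset.sum_singleton]
  have hρpos : ∀ z ∈ Z, ∀ a, InArc p z a → Good c σ (cls σ a) → 0 < ρ z := by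
    intro z hz a ha hg
    rw [hρval z a ha hg]
    have := hsim z hz
    exact mul_pos (hypos _ hg) (by positivity)
  -- sums over `Z` against `ρ`
  have hsum : ∀ κ : ℝ → ℝ, ∑ z ∈ Z, ρ z * κ z =
      ∑ q : {q // q ∈ F}, y (cls σ q.1.2) * (1 / Real.sqrt |gLd p c q.1.1|) * κ q.1.1 := by
    intro κ
    rw [Finset.sum_coe_sort F
      (fun q => y (cls σ q.2) * (1 / Real.sqrt |gLd p c q.1|) * κ q.1)]
    show _ = ∑ q ∈ (Z ×ˢ univ).filter (fun q => InArc p q.1 q.2 ∧ Good c σ (cls σ q.2)), _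
    rw [Finset.sum_filter, Finset.sum_product]
    refine Finset.sum_congr rfl fun z _ => ?_
    show (∑ a ∈ univ.filter (fun a => InArc p z a ∧ Good c σ (cls σ a)),
      y (cls σ a) * (1 / Real.sqrt |gLd p c z|)) * κ z = _
    rw [Finset.sum_filter, Finset.sum_mul]
    refine Finset.sum_congr rfl fun a _ => ?_
    split_ifs
    · ring
    · ring
  -- increments
  have hinc : ∀ j, RR Z ρ (p (j + 1)) - RR Z ρ (p j) = ∑ z ∈ Z, ρ z * kk p z j := by
    intro j
    unfold RR kk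
    rw [← Finset.sum_sub_distrib]
    refine Finset.sum_congr rfl fun z hz => ?_
    have e1 : z - p (j + 1) ≠ 0 := sub_ne_zero.2 (hZp z hz _)
    have e2 : z - p j ≠ 0 := sub_ne_zero.2 (hZp z hz _)
    have e3 : p (j + 1) - z ≠ 0 := sub_ne_zero.2 (hZp z hz _).symm
    have e4 : p j - z ≠ 0 := sub_ne_zero.2 (hZp z hz _).symm
    have e5 : ρ z / (z - p (j + 1)) = - (ρ z * (1 / (p (j + 1) - z))) := by
      rw [← neg_sub (p (j + 1)) z, div_neg]; ring
    have e6 : ρ z / (z - p j) = - (ρ z * (1 / (p j - z))) := by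
      rw [← neg_sub (p j) z, div_neg]; ring
    rw [e5, e6]; ring
  have hclass : ∀ w, Good c σ w →
      ∑ j ∈ univ.filter (fun j => cls σ j = w), (RR Z ρ (p (j + 1)) - RR Z ρ (p j))
        = - (if w < σ w then 0 else 1) := by
    intro w hw
    rw [← hy w hw]
    refine Finset.sum_congr rfl fun j _ => ?_
    rw [hinc j, hsum]
  have hopR : ∀ i, i < σ i → RR Z ρ (p (σ i)) = RR Z ρ (p i) := by
    intro i hi
    have e1 := sum_Ico_tele (fun j => RR Z ρ (p j)) (σ i) hi.le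
    have e2 := sum_opener B hi (fun j => RR Z ρ (p (j + 1)) - RR Z ρ (p j))
    rw [e1] at e2
    have e3 : ∑ d ∈ univ.filter (fun d => i ≤ d ∧ d < σ i ∧ d < σ d),
        ∑ j ∈ univ.filter (fun j => cls σ j = d), (RR Z ρ (p (j + 1)) - RR Z ρ (p j)) = 0 := by
      apply Finset.sum_eq_zero
      intro d hd
      rw [mem_filter] at hd
      rw [hclass d (Or.inl hd.2.2.2), if_pos hd.2.2.2, neg_zero]
    rw [e3] at e2
    linarith
  refine ⟨ρ, hρ0, ?_, hρpos, ?_, ?_, ?_⟩
  · obtain ⟨u, u', hu, hcu⟩ := h2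
    obtain ⟨z, hz, h3, h4, h5⟩ := hun u u' hu hcu
    obtain ⟨a, ha1, ha2⟩ := arc_of_nxt hp (hZp z hz) hu h3 h4 h5
    exact ⟨z, hz, hρpos z hz a ha1 (by rw [ha2]; exact Or.inr ⟨u', hu, hcu⟩)⟩
  · intro j
    rcases lt_trichotomy j (σ j) with h | h | h
    · exact hopR j h
    · rw [← h]
    · have h3 : σ j < σ (σ j) := by rw [B.inv]; exact h
      have := hopR (σ j) h3
      rw [B.inv] at this
      exact this.symm
  · intro u u' hu hcu
    have e1 := sum_Ico_tele (fun j => RR Z ρ (p j)) u' hu.1.le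
    have e2 := sum_nxt B hu (fun j => RR Z ρ (p (j + 1)) - RR Z ρ (p j))
    rw [e1] at e2
    have hmem : u ∈ univ.filter (fun d => u ≤ d ∧ d < u' ∧ (d = u ∨ d < σ d)) := by
      simp [hu.1]
    rw [← Finset.add_sum_erase _ _ hmem] at e2
    have e3 : ∑ d ∈ (univ.filter (fun d => u ≤ d ∧ d < u' ∧ (d = u ∨ d < σ d))).erase u,
        ∑ j ∈ univ.filter (fun j => cls σ j = d), (RR Z ρ (p (j + 1)) - RR Z ρ (p j)) = 0 := by
      apply Finset.sum_eq_zero
      intro d hd
      rw [mem_erase, mem_filter] at hd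
      have h6 : d < σ d := by
        rcases hd.2.2.2.2 with h7 | h7
        · exact absurd h7 hd.1
        · exact h7
      rw [hclass d (Or.inl h6), if_pos h6, neg_zero]
    rw [e3, hclass u (Or.inr ⟨u', hu, hcu⟩),
      if_neg (by rw [hu.2.1]; exact lt_irrefl _), add_zero] at e2
    linarith
  · intro i hi
    -- regroup by arcs
    have e1 : ∑ z ∈ Z.filter (fun z => p i < z ∧ z < p (σ i)), ρ z ^ 2 * gLd p c z
        = ∑ j ∈ Ico i (σ i), ∑ z ∈ Z.filter (fun z => p j < z ∧ z < p (j + 1)),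
            ρ z ^ 2 * gLd p c z := by
      have h3 : Z.filter (fun z => p i < z ∧ z < p (σ i)) =
          (Ico i (σ i)).biUnion (fun j => Z.filter (fun z => p j < z ∧ z < p (j + 1))) := by
        ext z
        simp only [mem_filter, mem_biUnion, mem_Ico]
        constructor
        · rintro ⟨hz, h4, h5⟩
          obtain ⟨a, ha1, ha2, ha3⟩ := exists_arc hp (hZp z hz) h4 h5
          exact ⟨a, ⟨ha1, ha2⟩, hz, ha3.1, ha3.2.2⟩
        · rintro ⟨a, ⟨ha1, ha2⟩, hz, h4, h5⟩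
          refine ⟨hz, lt_of_le_of_lt (hp.monotone ha1) h4, ?_⟩
          have ha3 : a < Fin.last n := ha2.trans_le (Fin.le_last _)
          rcases le_or_ge_succ ha3 (σ i) with h6 | h6
          · exact absurd ha2 (not_lt.2 h6)
          · exact h5.trans_le (hp.monotone h6)
      rw [h3, Finset.sum_biUnion]
      intro a ha b hb hab
      rw [Function.onFun, Finset.disjoint_left]
      intro z hza hzb
      rw [mem_filter] at hza hzb
      rw [mem_coe, mem_Ico] at ha hb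
      have ha3 : a < Fin.last n := ha.2.trans_le (Fin.le_last _)
      have hb3 : b < Fin.last n := hb.2.trans_le (Fin.le_last _)
      exact hab (InArc.unique hp ⟨hza.2.1, ha3, hza.2.2⟩ ⟨hzb.2.1, hb3, hzb.2.2⟩)
    rw [e1]
    have e2 : ∀ j ∈ Ico i (σ i), ∑ z ∈ Z.filter (fun z => p j < z ∧ z < p (j + 1)),
        ρ z ^ 2 * gLd p c z = y (cls σ j) ^ 2 *
          (- (Real.sign (c j) + Real.sign (c (j + 1))) / 2) := by
      intro j hj
      rw [mem_Ico] at hj
      have hj3 : j < Fin.last n := hj.2.trans_le (Fin.le_last _)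
      have hg : Good c σ (cls σ j) := Or.inl ((cls_opener B hi).1 hj).2.2
      rw [← sum_sign_arc p c hp hc Z hZ hsim hj3, Finset.mul_sum]
      refine Finset.sum_congr rfl fun z hz => ?_
      rw [mem_filter] at hz
      rw [hρval z j ⟨hz.2.1, hj3, hz.2.2⟩ hg]
      have h0 := hsim z hz.1
      have h4 : 0 < |gLd p c z| := abs_pos.2 h0
      rw [mul_pow, mul_assoc, one_div, inv_pow, Real.sq_sqrt h4.le]
      congr 1
      rcases h0.lt_or_gt with h5 | h5
      · rw [Real.sign_of_neg h5, abs_of_neg h5]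
        field_simp
      · rw [Real.sign_of_pos h5, abs_of_pos h5]
        field_simp
    rw [Finset.sum_congr rfl e2, sum_opener B hi]
    apply Finset.sum_eq_zero
    intro d hd
    rw [mem_filter] at hd
    have e3 : ∑ j ∈ univ.filter (fun j => cls σ j = d), y (cls σ j) ^ 2 *
        (- (Real.sign (c j) + Real.sign (c (j + 1))) / 2)
        = (- (y d ^ 2) / 2) * ∑ j ∈ univ.filter (fun j => cls σ j = d),
          (Real.sign (c j) + Real.sign (c (j + 1))) := by
      rw [Finset.mul_sum]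
      refine Finset.sum_congr rfl fun j hj => ?_
      rw [mem_filter] at hj
      rw [hj.2]
      ring
    rw [e3, class_sign_zero B (fun j => Real.sign (c j))
      (fun j hj => by rw [hcσ j hj, Real.sign_neg]) _ d hd.2.2.2 rfl, mul_zero]

end CSH
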