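import Mathlib
import Pool.Agent.CSH.Defs
import Pool.Agent.CSH.Rho

set_option autoImplicit false

/-!
LIN: the linear system has a positive solution.
-/

namespace Pool.CSH

open Finset

/-- The real zeros off the poles form a finite set. -/
theorem finite_zeros {N : ℕ} (p c : Fin N → ℝ) (hp : StrictMono p) (hc : ∀ j, c j ≠ 0)
    (hN : 0 < N) : {x : ℝ | (∀ j, x ≠ p j) ∧ Lr p c x = 0}.Finite := by
  classical
  let Q : Polynomial ℝ := ∑ j, Polynomial.C (c j) * ∏ i ∈ univ.erase j, (Polynomial.X - Polynomial.C (p i))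
  have hev : ∀ x, Q.eval x = ∑ j, c j * ∏ i ∈ univ.erase j, (x - p i) := by
    intro x
    simp [Q, Polynomial.eval_finsetSum, Polynomial.eval_prod]
  have hQ : Q ≠ 0 := by
    intro h0
    let j₀ : Fin N := ⟨0, hN⟩
    have h1 := hev (p j₀)
    rw [h0, Polynomial.eval_zero, ← Finset.add_sum_erase _ _ (mem_univ j₀)] at h1
    have h2 : ∑ j ∈ univ.erase j₀, c j * ∏ i ∈ univ.erase j, (p j₀ - p i) = 0 := by
      apply Finset.sum_eq_zero
      intro j hj
      rw [Finset.prod_eq_zero (i := j₀), mul_zero]
      · rw [mem_erase]; exact ⟨(ne_of_mem_erase hj).symm, mem_univ _⟩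
      · ring
    rw [h2, add_zero] at h1
    have h3 : ∏ i ∈ univ.erase j₀, (p j₀ - p i) ≠ 0 := by
      rw [Finset.prod_ne_zero_iff]
      intro i hi
      exact sub_ne_zero.2 (fun h => (ne_of_mem_erase hi) (hp.injective h).symm)
    exact mul_ne_zero (hc j₀) h3 h1.symm
  refine Q.roots.toFinset.finite_toSet.subset ?_
  rintro x ⟨hx, h0⟩
  rw [mem_coe, Multiset.mem_toFinset, Polynomial.mem_roots hQ, Polynomial.IsRoot.def, hev]
  have h1 : (∏ i, (x - p i)) * Lr p c x = ∑ j, c j * ∏ i ∈ univ.erase j, (x - p i) := by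
    unfold Lr
    rw [Finset.mul_sum]
    refine Finset.sum_congr rfl fun j _ => ?_
    have h2 : x - p j ≠ 0 := sub_ne_zero.2 (hx j)
    rw [← Finset.mul_prod_erase _ _ (mem_univ j)]
    field_simp
  rw [← h1, h0, mul_zero]

theorem lin_exists {N : ℕ} {p c : Fin N → ℝ} {σ : Fin N → Fin N} (h : HData p c σ) :
    ∃ (Z : Finset ℝ) (ρ : ℝ → ℝ), LinSol p c σ Z ρ := by
  classical
  obtain ⟨i₀, j₀, hij₀, hi₀, hj₀, hci₀, hcj₀⟩ := h.two
  have hN : 0 < N := lt_of_le_of_lt (Nat.zero_le _) i₀.2
  obtain ⟨n, rfl⟩ : ∃ n, N = n + 1 := ⟨N - 1, by omega⟩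
  have hfin := finite_zeros p c h.mono h.cne hN
  have B : _root_.CSH.Brk σ := ⟨h.invol, fun i j h1 h2 =>
    ⟨(h.nonc i j h1 h2).1, (h.nonc i j h1 h2).2, h.unm i j h1 h2⟩⟩
  have hmem : ∀ x, x ∈ hfin.toFinset ↔ ((∀ j, x ≠ p j) ∧ Lr p c x = 0) := by
    intro x; rw [Set.Finite.mem_toFinset]; rfl
  -- consecutive unmatched poles of equal sign exist
  have hnext : ∃ u u', _root_.CSH.Nxt σ u u' ∧ 0 < c u * c u' := by
    have hne : (univ.filter (fun k => i₀ < k ∧ σ k = k)).Nonempty := ⟨j₀, by simp [hij₀, hj₀]⟩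
    set u' := (univ.filter (fun k => i₀ < k ∧ σ k = k)).min' hne with hu'
    have hm := Finset.min'_mem _ hne
    rw [← hu', mem_filter] at hm
    have hle : u' ≤ j₀ := Finset.min'_le _ _ (by simp [hij₀, hj₀])
    have hcu : 0 < c u' := by
      rcases hle.eq_or_lt with h1 | h1
      · rw [h1]; exact hcj₀
      · exact h.outer u' j₀ hm.2.2 hj₀ h1 hcj₀
    refine ⟨i₀, u', ⟨hm.2.1, hi₀, hm.2.2, ?_⟩, mul_pos hci₀ hcu⟩
    intro j h1 h2 h3
    have : u' ≤ j := Finset.min'_le _ _ (by simp [h1, h3])
    exact absurd h2 (not_lt.2 this)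
  obtain ⟨ρ, hρ0, ⟨z₀, hz₀, hρz₀⟩, _, hseam, hconv, hgcl⟩ :=
    _root_.CSH.exists_rho p c h.mono h.cne σ B h.csig hfin.toFinset
      (fun z hz => ((hmem z).1 hz).1)
      (fun x hx => by
        rw [hmem]
        exact ⟨fun h1 => h1.2, fun h1 => ⟨hx, h1⟩⟩)
      (fun z hz => h.simple z ((hmem z).1 hz).1 ((hmem z).1 hz).2)
      (by
        intro i hi
        obtain ⟨x, h1, h2, h3, h4, h5⟩ := h.zin i hi
        refine ⟨x, (hmem x).2 ⟨h3, h4⟩, h1, h2, ?_⟩
        intro j h6 h7 h8 h9
        exact h5 j h6 (h7.trans h8) h7 ⟨h9.1.le, h9.2.le⟩)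
      (by
        intro u u' hu hcu
        obtain ⟨x, h1, h2, h3, h4, h5⟩ := h.zout u u' hu.1 hu.2.1 hu.2.2.1 hu.2.2.2 hcu
        refine ⟨x, (hmem x).2 ⟨h3, h4⟩, h1, h2, ?_⟩
        intro j h6 h7 h8 h9
        exact h5 j h6 h7 h8 ⟨h9.1.le, h9.2.le⟩)
      hnext
  have hRR : ∀ x, Rr (hfin.toFinset.filter (fun z => 0 < ρ z)) ρ x
      = _root_.CSH.RR hfin.toFinset ρ x := by
    intro x
    unfold Rr _root_.CSH.RR
    rw [Finset.sum_filter]
    refine Finset.sum_congr rfl fun z _ => ?_
    split_ifs with h1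
    · rfl
    · have : ρ z = 0 := le_antisymm (not_lt.1 h1) (hρ0 z)
      rw [this, zero_div]
  refine ⟨hfin.toFinset.filter (fun z => 0 < ρ z), ρ, ⟨⟨z₀, by simp only [mem_filter]; exact ⟨hz₀, hρz₀⟩⟩, ?_, ?_, ?_, ?_⟩⟩
  · intro z hz
    rw [mem_filter] at hz
    exact ⟨((hmem z).1 hz.1).1, ((hmem z).1 hz.1).2, hz.2⟩
  · intro i
    rw [hRR, hRR]
    exact hseam i
  · -- decreasing along both chains
    intro i
    have key : ∀ (m : ℕ) (j : Fin (n + 1)), (j : ℕ) = m → i < j → σ i = i → σ j = j →
        0 < c i * c j → _root_.CSH.RR hfin.toFinset ρ (p j) <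
          _root_.CSH.RR hfin.toFinset ρ (p i) := by
      intro m
      induction m using Nat.strong_induction_on with
      | _ m ih =>
        intro j hjm hij hi hj hcc
        by_cases hx : ∃ k, i < k ∧ k < j ∧ σ k = k
        · obtain ⟨k, h1, h2, h3⟩ := hx
          have hk : 0 < c i * c k ∧ 0 < c k * c j := by
            rcases (h.cne j).lt_or_gt with hcj | hcj
            · have hci : c i < 0 := by
                by_contra hcon
                push Not at hcon
                have := mul_nonpos_of_nonneg_of_nonpos hcon hcj.le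
                linarith
              have hck : c k < 0 := by
                rcases (h.cne k).lt_or_gt with h4 | h4
                · exact h4
                · have := h.outer i k hi h3 h1 h4
                  linarith
              exact ⟨mul_pos_of_neg_of_neg hci hck, mul_pos_of_neg_of_neg hck hcj⟩
            · have hck : 0 < c k := h.outer k j h3 hj h2 hcj
              have hci : 0 < c i := h.outer i k hi h3 h1 hck
              exact ⟨mul_pos hci hck, mul_pos hck hcj⟩
          have e1 := ih k (by rw [← hjm]; exact h2) k rfl h1 hi h3 hk.1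
          -- from k to j: same argument by a nested induction
          by_contra hcon
          push Not at hcon
          -- choose the last unmatched index before j
          have hne : (univ.filter (fun k => i < k ∧ k < j ∧ σ k = k)).Nonempty :=
            ⟨k, by simp [h1, h2, h3]⟩
          set k' := (univ.filter (fun k => i < k ∧ k < j ∧ σ k = k)).max' hne with hk'
          have hm := Finset.max'_mem _ hne
          rw [← hk', mem_filter] at hm
          obtain ⟨_, g1, g2, g3⟩ := hm
          have hk2 : 0 < c i * c k' ∧ 0 < c k' * c j := by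
            rcases (h.cne j).lt_or_gt with hcj | hcj
            · have hci : c i < 0 := by
                by_contra hcon
                push Not at hcon
                have := mul_nonpos_of_nonneg_of_nonpos hcon hcj.le
                linarith
              have hck : c k' < 0 := by
                rcases (h.cne k').lt_or_gt with h4 | h4
                · exact h4
                · have := h.outer i k' hi g3 g1 h4
                  linarith
              exact ⟨mul_pos_of_neg_of_neg hci hck, mul_pos_of_neg_of_neg hck hcj⟩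
            · have hck : 0 < c k' := h.outer k' j g3 hj g2 hcj
              have hci : 0 < c i := h.outer i k' hi g3 g1 hck
              exact ⟨mul_pos hci hck, mul_pos hck hcj⟩
          have e2 := ih k' (by rw [← hjm]; exact g2) k' rfl g1 hi g3 hk2.1
          have e3 := hconv k' j ⟨g2, g3, hj, fun l h4 h5 h6 => by
            have : l ≤ k' := Finset.le_max' _ _ (by simp [g1.trans h4, h5, h6])
            exact absurd h4 (not_lt.2 this)⟩ hk2.2
          linarith
        · push Not at hx
          exact hconv i j ⟨hij, hi, hj, fun k h1 h2 => hx k h1 h2⟩ hcc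
    intro j hij hi hj hcc
    rw [hRR, hRR]
    exact key j j rfl hij hi hj hcc
  · intro i hi
    have h1 := hgcl i hi
    rw [Finset.filter_filter]
    refine Eq.trans ?_ h1
    have h2 : hfin.toFinset.filter (fun z => 0 < ρ z ∧ (p i < z ∧ z < p (σ i))) =
        (hfin.toFinset.filter (fun z => p i < z ∧ z < p (σ i))).filter (fun z => 0 < ρ z) := by
      rw [Finset.filter_filter]
      congr 1
      ext z
      tauto
    rw [h2, Finset.sum_filter]
    refine Finset.sum_congr rfl fun z _ => ?_
    split_ifs with h3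
    · rfl
    · have : ρ z = 0 := le_antisymm (not_lt.1 h3) (hρ0 z)
      rw [this]; ring

end Pool.CSH
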