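import Pool.Agent.CSH.Trans
import Pool.Agent.AllN24.Defs

set_option autoImplicit false

/-!
# ROT: rotations of achronal lifts, derivative of the half plane model seen from the disc
-/

namespace Pool.CSH

open Complex Set Metric ComplexConjugate

theorem rot_mem {u : ℂ} (hu : ‖u‖ = 1) {z : ℂ} (hz : z ∈ ball (0 : ℂ) 1) :
    u * z ∈ ball (0 : ℂ) 1 := by
  rw [mem_ball_zero_iff] at hz ⊢
  rw [norm_mul, hu, one_mul]
  exact hz

theorem rot_deriv {u : ℂ} (hu : ‖u‖ = 1) {L : ℂ → ℂ} (hL : DifferentiableOn ℂ L (ball 0 1))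
    {z : ℂ} (hz : z ∈ ball (0 : ℂ) 1) :
    HasDerivAt (fun z => L (u * z)) (deriv L (u * z) * u) z := by
  have h1 := (hL.differentiableAt (isOpen_ball.mem_nhds (rot_mem hu hz))).hasDerivAt
  have h2 : HasDerivAt (fun z : ℂ => u * z) u z := by
    simpa using (hasDerivAt_id z).const_mul u
  exact h1.comp z h2

/-- rotation of an achronal lift -/
theorem achLift_rot {L F G R : ℂ → ℂ} (h : AllN24.AchLift L F G R) {u : ℂ} (hu : ‖u‖ = 1) :
    AllN24.AchLift (fun z => L (u * z)) (fun z => F (u * z)) (fun z => G (u * z))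
      (fun z => R (u * z)) := by
  have hu0 : u ≠ 0 := by
    intro h0
    rw [h0, norm_zero] at hu
    exact zero_ne_one hu
  refine ⟨?_, ?_, ?_, ?_, ?_, ?_, ?_, ?_, ?_⟩
  · exact fun z hz => (rot_deriv hu h.dL hz).differentiableAt.differentiableWithinAt
  · exact fun z hz => (rot_deriv hu h.dF hz).differentiableAt.differentiableWithinAt
  · exact fun z hz => (rot_deriv hu h.dG hz).differentiableAt.differentiableWithinAt
  · exact fun z hz => (rot_deriv hu h.dR hz).differentiableAt.differentiableWithinAt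
  · intro z hz
    rw [(rot_deriv hu h.dF hz).deriv, (rot_deriv hu h.dL hz).deriv, h.hF _ (rot_mem hu hz), mul_assoc]
  · intro z hz
    rw [(rot_deriv hu h.dG hz).deriv, (rot_deriv hu h.dL hz).deriv, h.hG _ (rot_mem hu hz), mul_assoc]
  · exact fun z hz => h.hR _ (rot_mem hu hz)
  · intro z hz
    rw [(rot_deriv hu h.dL hz).deriv]
    exact mul_ne_zero (h.hL _ (rot_mem hu hz)) hu0
  · intro x hx y hy hxy
    have := h.hK (u * x) (rot_mem hu hx) (u * y) (rot_mem hu hy)
      (fun h1 => hxy (mul_left_cancel₀ hu0 h1))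
    exact this

theorem norm_exp_neg (θ : ℝ) : ‖Complex.exp (-(θ * I))‖ = 1 := by
  have : -((θ : ℂ) * I) = ((-θ : ℝ) : ℂ) * I := by push_cast; ring
  rw [this, Complex.norm_exp_ofReal_mul_I]

/-- the boundary point in the half plane coordinate -/
theorem pp_eq_cay {θ₀ t : ℝ} (ht : t ∈ Ioo θ₀ (θ₀ + 2 * Real.pi)) :
    (pp θ₀ t : ℂ) = cay (Complex.exp (-(θ₀ * I)) * Complex.exp (t * I)) ∧
      (1 : ℂ) - Complex.exp (-(θ₀ * I)) * Complex.exp (t * I) ≠ 0 := by
  set s : ℝ := (t - θ₀) / 2 with hs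
  have hs1 : 0 < s := by have := ht.1; rw [hs]; linarith
  have hs2 : s < Real.pi := by have := ht.2; rw [hs]; linarith
  have hsin : Real.sin s ≠ 0 := (Real.sin_pos_of_pos_of_lt_pi hs1 hs2).ne'
  have hsinc : Complex.sin (s : ℂ) ≠ 0 := by exact_mod_cast hsin
  have e1 : Complex.exp (-(θ₀ * I)) * Complex.exp (t * I) = Complex.exp (s * I) ^ 2 := by
    rw [← Complex.exp_add, ← Complex.exp_nat_mul]
    congr 1
    rw [hs]
    push_cast
    ring
  have hE : Complex.exp ((s : ℂ) * I) = Complex.cos s + Complex.sin s * I := Complex.exp_mul_I _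
  have hcs : Complex.cos (s : ℂ) ^ 2 + Complex.sin s ^ 2 = 1 := Complex.cos_sq_add_sin_sq _
  have e2 : (1 : ℂ) - Complex.exp (s * I) ^ 2 = -2 * I * Complex.sin s * Complex.exp (s * I) := by
    rw [hE]
    linear_combination (-1 : ℂ) * hcs + (Complex.sin (s : ℂ)) ^ 2 * I_sq
  have e3 : (1 : ℂ) + Complex.exp (s * I) ^ 2 = 2 * Complex.cos s * Complex.exp (s * I) := by
    rw [hE]
    linear_combination (-1 : ℂ) * hcs + (Complex.sin (s : ℂ)) ^ 2 * I_sq
  have hne : (1 : ℂ) - Complex.exp (s * I) ^ 2 ≠ 0 := by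
    rw [e2]
    exact mul_ne_zero (mul_ne_zero (mul_ne_zero (by norm_num) I_ne_zero) hsinc)
      (Complex.exp_ne_zero _)
  refine ⟨?_, by rw [e1]; exact hne⟩
  rw [e1]
  unfold cay pp
  rw [eq_div_iff hne, e2, e3, ← hs]
  push_cast
  field_simp

/-- the derivative of the half plane model seen from the disc -/
theorem rot_hasDerivAt {N : ℕ} (θ₀ : ℝ) (t C : Fin N → ℝ)
    (ht : ∀ j, t j ∈ Ioo θ₀ (θ₀ + 2 * Real.pi)) (hC : ∑ j, C j = 0) {z : ℂ}
    (hz : z ∈ ball (0 : ℂ) 1) :
    HasDerivAt (fun z => Lf (fun j => pp θ₀ (t j)) (fun j => - C j)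
        (cay (Complex.exp (-(θ₀ * I)) * z)))
      (∑ j, (C j : ℂ) / (Complex.exp (t j * I) - z)) z := by
  set u : ℂ := Complex.exp (-(θ₀ * I)) with hu
  have hun : ‖u‖ = 1 := norm_exp_neg θ₀
  have hu0 : u ≠ 0 := Complex.exp_ne_zero _
  have hζ : ‖u * z‖ < 1 := by simpa using rot_mem hun hz
  have hw : 0 < (cay (u * z)).im := cay_im hζ
  have h1 := Lf_hasDerivAt (fun j => pp θ₀ (t j)) (fun j => - C j) hw
  have h2 : HasDerivAt (fun z : ℂ => u * z) u z := by
    simpa using (hasDerivAt_id z).const_mul u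
  have h3 := h1.comp z ((cay_hasDerivAt hζ).comp z h2)
  refine h3.congr_deriv ?_
  have hz1 : (1 : ℂ) - u * z ≠ 0 := one_sub_ne hζ
  have hterm : ∀ j, ((-C j : ℝ) : ℂ) / (cay (u * z) - (pp θ₀ (t j) : ℂ))
      * (2 * I / (1 - u * z) ^ 2 * u)
      = (C j : ℂ) / (Complex.exp (t j * I) - z) - (C j : ℂ) * (u / (1 - u * z)) := by
    intro j
    obtain ⟨e1, e2⟩ := pp_eq_cay (ht j)
    rw [← hu] at e1 e2
    set a : ℂ := Complex.exp (t j * I) with ha
    have han : ‖a‖ = 1 := Complex.norm_exp_ofReal_mul_I _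
    have haz : a - z ≠ 0 := by
      intro h
      have : a = z := by linear_combination h
      rw [mem_ball_zero_iff, ← this, han] at hz
      exact lt_irrefl _ hz
    have e3 : cay (u * z) - cay (u * a) = -(2 * I * u * (a - z)) / ((1 - u * z) * (1 - u * a)) := by
      unfold cay
      field_simp
      ring
    rw [e1, e3]
    push_cast
    have hI := I_ne_zero
    field_simp
    ring
  unfold Lp
  rw [Finset.sum_mul, Finset.sum_congr rfl fun j _ => hterm j, Finset.sum_sub_distrib,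
    ← Finset.sum_mul]
  have : ∑ j, (C j : ℂ) = 0 := by exact_mod_cast hC
  rw [this, zero_mul, sub_zero]

/-- iterated derivatives of a sum of simple fractions -/
theorem iteratedDeriv_sum_div {N : ℕ} (a : Fin N → ℂ) (ha : ∀ j, ‖a j‖ = 1) (C : Fin N → ℂ) (k : ℕ) :
    ∀ z ∈ ball (0 : ℂ) 1, iteratedDeriv k (fun z => ∑ j, C j / (a j - z)) z
      = (k.factorial : ℂ) * ∑ j, C j / (a j - z) ^ (k + 1) := by
  have hne : ∀ z ∈ ball (0 : ℂ) 1, ∀ j, a j - z ≠ 0 := by
    intro z hz j h
    have : a j = z := by linear_combination h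
    rw [mem_ball_zero_iff, ← this, ha j] at hz
    exact lt_irrefl _ hz
  induction k with
  | zero => intro z hz; simp
  | succ k ih =>
    intro z hz
    rw [iteratedDeriv_succ]
    have heq : iteratedDeriv k (fun z => ∑ j, C j / (a j - z)) =ᶠ[nhds z]
        fun z => (k.factorial : ℂ) * ∑ j, C j / (a j - z) ^ (k + 1) := by
      filter_upwards [isOpen_ball.mem_nhds hz] with y hy
      exact ih y hy
    rw [heq.deriv_eq]
    have hd : ∀ j ∈ (Finset.univ : Finset (Fin N)), HasDerivAt (fun z : ℂ => C j / (a j - z) ^ (k + 1))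
        ((k + 1 : ℂ) * (C j / (a j - z) ^ (k + 2))) z := by
      intro j _
      have hj := hne z hz j
      have hb : HasDerivAt (fun z : ℂ => a j - z) (-1) z := by
        simpa using (hasDerivAt_id z).const_sub (a j)
      have h3 : HasDerivAt (fun z : ℂ => C j / (a j - z) ^ (k + 1)) _ z :=
        (hasDerivAt_const z (C j)).fun_div (hb.fun_pow (k + 1)) (pow_ne_zero _ hj)
      refine h3.congr_deriv ?_
      simp only [Nat.add_sub_cancel]
      push_cast
      field_simp
      ring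
    have h4 := (HasDerivAt.fun_sum hd).const_mul (k.factorial : ℂ)
    rw [h4.deriv, ← Finset.mul_sum, Nat.factorial_succ]
    push_cast
    ring

/-- Taylor coefficients of the half plane model seen from the disc -/
theorem rot_iteratedDeriv {N : ℕ} (θ₀ : ℝ) (t C : Fin N → ℝ)
    (ht : ∀ j, t j ∈ Ioo θ₀ (θ₀ + 2 * Real.pi)) (hC : ∑ j, C j = 0) (k : ℕ) :
    iteratedDeriv (k + 1) (fun z => Lf (fun j => pp θ₀ (t j)) (fun j => - C j)
        (cay (Complex.exp (-(θ₀ * I)) * z))) 0
      = (k.factorial : ℂ) * ∑ j, (C j : ℂ) / Complex.exp (t j * I) ^ (k + 1) := by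
  rw [iteratedDeriv_succ']
  have heq : deriv (fun z => Lf (fun j => pp θ₀ (t j)) (fun j => - C j)
        (cay (Complex.exp (-(θ₀ * I)) * z))) =ᶠ[nhds 0]
        fun z => ∑ j, (C j : ℂ) / (Complex.exp (t j * I) - z) := by
    filter_upwards [isOpen_ball.mem_nhds (mem_ball_self (x := (0 : ℂ)) one_pos)] with y hy
    exact (rot_hasDerivAt θ₀ t C ht hC hy).deriv
  rw [heq.iteratedDeriv_eq]
  have := iteratedDeriv_sum_div (fun j => Complex.exp (t j * I))
    (fun j => Complex.norm_exp_ofReal_mul_I _) (fun j => (C j : ℂ)) k 0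
    (mem_ball_self one_pos)
  simpa using this

end Pool.CSH
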