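import Pool.Agent.CSH.Fin

/-!
# Reduction to polynomials and final assembly for the `n`-th coefficients
-/

set_option autoImplicit false

open Complex Metric Set Filter Topology
open scoped ComplexConjugate Nat

namespace Pool.Agent.CSH

open Pool.Agent.HU85

/-- Polynomial approximation of a holomorphic function in `C¹` on smaller discs, with the same
jet of order `m` at the centre. -/
theorem exists_polyN (m : ℕ) {h : ℂ → ℂ} (hd : DifferentiableOn ℂ h (ball 0 1)) {ρ : ℝ} (hρ : ρ < 1)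
    {ε : ℝ} (hε : 0 < ε) :
    ∃ p : Polynomial ℂ, p.eval 0 = 0 ∧
      (∀ k : ℕ, 1 ≤ k → k ≤ m → p.coeff k = iteratedDeriv k h 0 / (k ! : ℂ)) ∧
      ∀ z ∈ closedBall (0 : ℂ) ρ, ‖p.derivative.eval z - deriv h z‖ < ε := by
  have hd1 : DifferentiableOn ℂ (deriv h) (ball 0 1) := hd.deriv isOpen_ball
  obtain ⟨s, hs0, hs1⟩ : ∃ s : ℝ, max ρ 0 < s ∧ s < 1 := exists_between (max_lt hρ one_pos)
  have hsρ : ρ < s := lt_of_le_of_lt (le_max_left _ _) hs0
  have hspos : 0 < s := lt_of_le_of_lt (le_max_right _ _) hs0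
  lift s to NNReal using hspos.le
  have hs : HasFPowerSeriesOnBall (deriv h) (cauchyPowerSeries (deriv h) 0 s) 0 s := by
    apply DifferentiableOn.hasFPowerSeriesOnBall
    · exact hd1.mono (closedBall_subset_ball hs1)
    · exact_mod_cast hspos
  obtain ⟨t, ht0, ht1⟩ : ∃ t : ℝ, max ρ 0 < t ∧ t < s := exists_between (max_lt hsρ hspos)
  have htρ : ρ < t := lt_of_le_of_lt (le_max_left _ _) ht0
  have htpos : 0 < t := lt_of_le_of_lt (le_max_right _ _) ht0
  lift t to NNReal using htpos.le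
  have hu := hs.tendstoUniformlyOn (r' := t) (by exact_mod_cast ht1)
  rw [Metric.tendstoUniformlyOn_iff] at hu
  obtain ⟨n, hn⟩ := (hu ε hε).and (eventually_ge_atTop m) |>.exists
  obtain ⟨hn1, hn2⟩ := hn
  set P := cauchyPowerSeries (deriv h) 0 (s : ℝ) with hP
  set a : ℕ → ℂ := fun k => P.coeff k with ha
  have hder : (∑ k ∈ Finset.range n, Polynomial.monomial (k + 1) (a k / (k + 1))).derivative
      = ∑ k ∈ Finset.range n, Polynomial.monomial k (a k) := by
    rw [Polynomial.derivative_sum]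
    apply Finset.sum_congr rfl
    intro k _
    rw [Polynomial.derivative_monomial, Nat.add_sub_cancel]
    congr 1
    have : ((k : ℂ) + 1) ≠ 0 := Nat.cast_add_one_ne_zero k
    push_cast
    field_simp
  have hak : ∀ k : ℕ, a k = iteratedDeriv k (deriv h) 0 / (k ! : ℂ) := by
    intro k
    have h1 := hs.factorial_smul (1 : ℂ) k
    rw [← iteratedDeriv_eq_iteratedFDeriv] at h1
    rw [← h1]
    have h2 : (k ! : ℂ) ≠ 0 := by exact_mod_cast (Nat.factorial_pos k).ne'
    rw [nsmul_eq_mul]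
    field_simp
    rfl
  refine ⟨∑ k ∈ Finset.range n, Polynomial.monomial (k + 1) (a k / (k + 1)), ?_, ?_, ?_⟩
  · rw [Polynomial.eval_finsetSum]
    apply Finset.sum_eq_zero
    intro k _
    simp [Polynomial.eval_monomial]
  · intro k hk1 hk2
    obtain ⟨k', rfl⟩ : ∃ k', k = k' + 1 := ⟨k - 1, by omega⟩
    rw [Polynomial.finsetSum_coeff, Finset.sum_eq_single_of_mem k'
      (Finset.mem_range.mpr (by omega))]
    · rw [Polynomial.coeff_monomial, if_pos rfl, hak, iteratedDeriv_succ', Nat.factorial_succ]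
      push_cast
      rw [div_div, mul_comm (k' ! : ℂ)]
    · intro b _ hb
      rw [Polynomial.coeff_monomial, if_neg (by omega)]
  · intro z hz
    have hz' : z ∈ ball (0 : ℂ) t := by
      have : ‖z‖ ≤ ρ := by simpa using hz
      simpa using lt_of_le_of_lt this htρ
    have h1 := hn1 z hz'
    rw [dist_comm, dist_eq_norm, zero_add] at h1
    have h2 : P.partialSum n z = (∑ k ∈ Finset.range n, Polynomial.monomial (k + 1)
        (a k / (k + 1))).derivative.eval z := by
      rw [hder, Polynomial.eval_finsetSum, FormalMultilinearSeries.partialSum]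
      apply Finset.sum_congr rfl
      intro k _
      rw [FormalMultilinearSeries.apply_eq_pow_smul_coeff, Polynomial.eval_monomial, smul_eq_mul,
        mul_comm]
    rw [← h2]
    exact h1

/-- **Reduction to polynomials**, `n`-th coefficient, constant `M`. -/
theorem poly_reductionN {n : ℕ} (hn : 1 ≤ n) {M : ℝ}
    (P : ∀ (R : ℝ) (p q : Polynomial ℂ), 1 < R → p.eval 0 = 0 → q.eval 0 = 0 →
      (∀ z ∈ ball (0 : ℂ) R, ‖q.derivative.eval z‖ < ‖p.derivative.eval z‖) →
      InjOn (fun z => p.eval z + conj (q.eval z)) (ball (0 : ℂ) R) →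
      ‖p.coeff n - q.coeff n‖ ≤ M * ‖p.coeff 1 - q.coeff 1‖)
    {h g : ℂ → ℂ} (H : HarmU h g) :
    ‖iteratedDeriv n h 0 - iteratedDeriv n g 0‖ / (n ! : ℝ) ≤ M * ‖deriv h 0 - deriv g 0‖ := by
  have main : ∀ r : ℝ, 0 < r → r < 1 →
      r ^ (n - 1) * (‖iteratedDeriv n h 0 - iteratedDeriv n g 0‖ / (n ! : ℝ))
        ≤ M * ‖deriv h 0 - deriv g 0‖ := by
    intro r hr0 hr1
    obtain ⟨ρ, hρr, hρ1⟩ := exists_between hr1
    have hρ0 : 0 < ρ := hr0.trans hρr
    have hsub : closedBall (0 : ℂ) ρ ⊆ ball (0 : ℂ) 1 := closedBall_subset_ball hρ1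
    obtain ⟨c, hc, hlow⟩ := global_lower H hρ1
    obtain ⟨c1, hc1, hgap⟩ := gap H hρ0.le hρ1
    set ε : ℝ := min c c1 / 3 with hε
    have hmin : 0 < min c c1 := lt_min hc hc1
    have hε0 : 0 < ε := by rw [hε]; positivity
    have hεc : 3 * ε ≤ c := by rw [hε]; have := min_le_left c c1; linarith
    have hεc1 : 3 * ε ≤ c1 := by rw [hε]; have := min_le_right c c1; linarith
    obtain ⟨p, hp0, hp1, hp⟩ := exists_polyN n H.hd hρ1 hε0
    obtain ⟨q, hq0, hq1, hq⟩ := exists_polyN n H.gd hρ1 hε0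
    -- the sense preserving property of `p + conj q`
    have hlt : ∀ z ∈ closedBall (0 : ℂ) ρ, ‖q.derivative.eval z‖ < ‖p.derivative.eval z‖ := by
      intro z hz
      have h1 := hp z hz
      have h2 := hq z hz
      have h3 := hgap z hz
      have h4 : ‖deriv h z‖ ≤ ‖p.derivative.eval z‖ + ‖p.derivative.eval z - deriv h z‖ := by
        calc ‖deriv h z‖ = ‖p.derivative.eval z - (p.derivative.eval z - deriv h z)‖ := by
              congr 1; ring
          _ ≤ _ := norm_sub_le _ _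
      have h5 : ‖q.derivative.eval z‖ ≤ ‖deriv g z‖ + ‖q.derivative.eval z - deriv g z‖ := by
        calc ‖q.derivative.eval z‖ = ‖deriv g z + (q.derivative.eval z - deriv g z)‖ := by
              congr 1; ring
          _ ≤ _ := norm_add_le _ _
      linarith
    -- Lipschitz bounds for the differences
    have hlip : ∀ (k : ℂ → ℂ) (u : Polynomial ℂ), DifferentiableOn ℂ k (ball 0 1) →
        (∀ z ∈ closedBall (0 : ℂ) ρ, ‖u.derivative.eval z - deriv k z‖ < ε) →
        ∀ z ∈ closedBall (0 : ℂ) ρ, ∀ w ∈ closedBall (0 : ℂ) ρ,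
          ‖(u.eval z - k z) - (u.eval w - k w)‖ ≤ ε * ‖z - w‖ := by
      intro k u hk hu z hz w hw
      have hkd : ∀ y ∈ closedBall (0 : ℂ) ρ, HasDerivAt (fun y => u.eval y - k y)
          (u.derivative.eval y - deriv k y) y := by
        intro y hy
        exact (u.hasDerivAt y).sub
          ((hk.differentiableAt (isOpen_ball.mem_nhds (hsub hy))).hasDerivAt)
      have h1 := Convex.norm_image_sub_le_of_norm_deriv_le (𝕜 := ℂ)
        (f := fun y => u.eval y - k y) (C := ε) (s := closedBall (0 : ℂ) ρ) (x := w) (y := z)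
        (fun y hy => (hkd y hy).differentiableAt)
        (fun y hy => by rw [(hkd y hy).deriv]; exact (hu y hy).le)
        (convex_closedBall _ _) hw hz
      exact h1
    have hinj : InjOn (fun z => p.eval z + conj (q.eval z)) (closedBall (0 : ℂ) ρ) := by
      intro z hz w hw hzw
      by_contra hne
      have hpos : 0 < ‖z - w‖ := norm_pos_iff.mpr (sub_ne_zero.mpr hne)
      have h1 := hlow z hz w hw
      have h2 := hlip h p H.hd hp z hz w hw
      have h3 := hlip g q H.gd hq z hz w hw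
      have h4 : p.eval z + conj (q.eval z) = p.eval w + conj (q.eval w) := hzw
      have e1 : (h z + conj (g z)) - (h w + conj (g w))
          = -(((p.eval z - h z) - (p.eval w - h w))
            + conj ((q.eval z - g z) - (q.eval w - g w))) := by
        simp only [map_sub]
        linear_combination h4
      have h5 : ‖(h z + conj (g z)) - (h w + conj (g w))‖ ≤ ε * ‖z - w‖ + ε * ‖z - w‖ := by
        rw [e1, norm_neg]
        refine (norm_add_le _ _).trans ?_
        rw [Complex.norm_conj]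
        exact add_le_add h2 h3
      nlinarith
    -- dilate
    have hR : 1 < ρ / r := by rw [lt_div_iff₀ hr0]; linarith
    have hmaps : ∀ z ∈ ball (0 : ℂ) (ρ / r), (r : ℂ) * z ∈ closedBall (0 : ℂ) ρ := by
      intro z hz
      have h1 : ‖z‖ < ρ / r := by simpa using hz
      rw [lt_div_iff₀ hr0] at h1
      simp only [mem_closedBall, dist_zero_right, norm_mul, Complex.norm_real, Real.norm_eq_abs,
        abs_of_pos hr0]
      nlinarith
    have hrC : (r : ℂ) ≠ 0 := by exact_mod_cast hr0.ne'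
    have hfin := P (ρ / r) (p.comp (Polynomial.C (r : ℂ) * Polynomial.X))
      (q.comp (Polynomial.C (r : ℂ) * Polynomial.X)) hR (by simp [hp0]) (by simp [hq0])
      (by
        intro z hz
        have h1 := hlt _ (hmaps z hz)
        simp only [Polynomial.derivative_comp, Polynomial.derivative_C_mul,
          Polynomial.derivative_X, mul_one, Polynomial.eval_mul, Polynomial.eval_C,
          Polynomial.eval_comp, Polynomial.eval_X, norm_mul]
        exact mul_lt_mul_of_pos_left h1 (norm_pos_iff.mpr hrC))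
      (by
        intro z hz w hw hzw
        have h1 := hinj (hmaps z hz) (hmaps w hw) (by simpa using hzw)
        exact mul_left_cancel₀ hrC h1)
    have hcf : ∀ (u : Polynomial ℂ) (k : ℕ),
        (u.comp (Polynomial.C (r : ℂ) * Polynomial.X)).coeff k = u.coeff k * (r : ℂ) ^ k := by
      intro u k
      exact Polynomial.comp_C_mul_X_coeff
    rw [hcf, hcf, hcf, hcf, hp1 n hn le_rfl, hq1 n hn le_rfl, hp1 1 le_rfl hn, hq1 1 le_rfl hn,
      ← sub_mul, ← sub_mul, norm_mul, norm_mul, ← sub_div, norm_div, iteratedDeriv_one,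
      iteratedDeriv_one, norm_pow, Complex.norm_real, Real.norm_eq_abs, abs_of_pos hr0,
      Complex.norm_natCast] at hfin
    simp only [Nat.factorial_one, Nat.cast_one, div_one, pow_one, Complex.norm_real,
      Real.norm_eq_abs, abs_of_pos hr0] at hfin
    have e4 : r ^ n = r ^ (n - 1) * r := by
      rw [← pow_succ]; congr 1; omega
    rw [e4] at hfin
    have h6 : r * (r ^ (n - 1) * (‖iteratedDeriv n h 0 - iteratedDeriv n g 0‖ / (n ! : ℝ)))
        ≤ r * (M * ‖deriv h 0 - deriv g 0‖) := by nlinarith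
    exact le_of_mul_le_mul_left h6 hr0
  -- let `r → 1`
  have hlim : Tendsto (fun r : ℝ => r ^ (n - 1) *
      (‖iteratedDeriv n h 0 - iteratedDeriv n g 0‖ / (n ! : ℝ))) (𝓝[<] 1)
      (𝓝 (1 ^ (n - 1) * (‖iteratedDeriv n h 0 - iteratedDeriv n g 0‖ / (n ! : ℝ)))) := by
    apply Tendsto.mul_const
    exact (tendsto_nhdsWithin_of_tendsto_nhds tendsto_id).pow _
  rw [one_pow, one_mul] at hlim
  refine le_of_tendsto hlim ?_
  have h1 : Ioo (0 : ℝ) 1 ∈ 𝓝[<] (1 : ℝ) := Ioo_mem_nhdsLT one_pos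
  filter_upwards [h1] with r hr
  exact main r hr.1 hr.2

/-- The pencil bound for all unimodular `ε` from the bound for `ε = -1`. -/
theorem pencilN_of_sub {n : ℕ} {M : ℝ}
    (C : ∀ h g : ℂ → ℂ, HarmU h g →
      ‖iteratedDeriv n h 0 - iteratedDeriv n g 0‖ / (n ! : ℝ) ≤ M * ‖deriv h 0 - deriv g 0‖)
    {h g : ℂ → ℂ} (H : HarmU h g) (ε : ℂ) (hε : ‖ε‖ = 1) :
    ‖iteratedDeriv n h 0 + ε * iteratedDeriv n g 0‖ / (n ! : ℝ)
      ≤ M * ‖deriv h 0 + ε * deriv g 0‖ := by
  obtain ⟨t, ht⟩ : ∃ t : ℂ, t ^ 2 = -conj ε := IsAlgClosed.exists_pow_nat_eq _ (by norm_num)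
  have ht1 : ‖t‖ = 1 := by
    have h1 : ‖t‖ ^ 2 = 1 := by
      rw [← norm_pow, ht, norm_neg, Complex.norm_conj, hε]
    nlinarith [norm_nonneg t]
  have htt : t * conj t = 1 := by
    rw [Complex.mul_conj, Complex.normSq_eq_norm_sq, ht1]; norm_num
  have hε2 : ε = -(conj t) ^ 2 := by
    have h2 := congrArg conj ht
    simp only [map_pow, map_neg, Complex.conj_conj] at h2
    rw [h2]; ring
  have h3 := C _ _ (rotU H ht1)
  have hz0 : ‖(0 : ℂ)‖ < 1 := by simp
  have d1 : deriv (fun z => t * h z) 0 = t * deriv h 0 := ((H.h1d hz0).const_mul t).deriv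
  have d2 : deriv (fun z => conj t * g z) 0 = conj t * deriv g 0 :=
    ((H.g1d hz0).const_mul (conj t)).deriv
  have d3 : iteratedDeriv n (fun z => t * h z) 0 = t * iteratedDeriv n h 0 :=
    iteratedDeriv_const_mul_field t h
  have d4 : iteratedDeriv n (fun z => conj t * g z) 0 = conj t * iteratedDeriv n g 0 :=
    iteratedDeriv_const_mul_field (conj t) g
  rw [d1, d2, d3, d4] at h3
  have e1 : t * iteratedDeriv n h 0 - conj t * iteratedDeriv n g 0
      = t * (iteratedDeriv n h 0 + ε * iteratedDeriv n g 0) := by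
    rw [hε2]; linear_combination (conj t * iteratedDeriv n g 0) * htt
  have e2 : t * deriv h 0 - conj t * deriv g 0 = t * (deriv h 0 + ε * deriv g 0) := by
    rw [hε2]; linear_combination (conj t * deriv g 0) * htt
  rw [e1, e2, norm_mul, norm_mul, ht1, one_mul, one_mul] at h3
  exact h3

/-- The hypothesis produced by the main chain for the `n`-th coefficient of `L = p - q`. -/
def PolyBoundN (n : ℕ) (M : ℝ) : Prop :=
  ∀ (R : ℝ) (p q : Polynomial ℂ), 1 < R → p.eval 0 = 0 → q.eval 0 = 0 →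
    (∀ z ∈ ball (0 : ℂ) R, ‖q.derivative.eval z‖ < ‖p.derivative.eval z‖) →
    InjOn (fun z => p.eval z + conj (q.eval z)) (ball (0 : ℂ) R) →
    ‖p.coeff n - q.coeff n‖ ≤ M * ‖p.coeff 1 - q.coeff 1‖

/-- **Final assembly**, all coefficients. -/
theorem final_of_polyBoundN {n : ℕ} (hn : 1 ≤ n) {M : ℝ} (P : PolyBoundN n M) :
    ∀ h g : ℂ → ℂ,
      DifferentiableOn ℂ h (Metric.ball (0 : ℂ) 1) →
      DifferentiableOn ℂ g (Metric.ball (0 : ℂ) 1) →
      deriv h 0 = 1 →
      (∀ z ∈ Metric.ball (0 : ℂ) 1, ‖deriv g z‖ < ‖deriv h z‖) →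
      Set.InjOn (fun z => h z + (starRingEnd ℂ) (g z)) (Metric.ball (0 : ℂ) 1) →
        ‖iteratedDeriv n h 0‖ / (n.factorial : ℝ) ≤ M ∧
        ‖iteratedDeriv n g 0‖ / (n.factorial : ℝ) ≤ M ∧
        ∀ ε : ℂ, ‖ε‖ = 1 →
          ‖iteratedDeriv n h 0 + ε * iteratedDeriv n g 0‖ / (n.factorial : ℝ)
            ≤ M * ‖1 + ε * deriv g 0‖ := by
  intro h g hh hg h1 hlt hinj
  have H : HarmU h g := ⟨hh, hg, hlt, hinj⟩
  have C : ∀ h g : ℂ → ℂ, HarmU h g →
      ‖iteratedDeriv n h 0 - iteratedDeriv n g 0‖ / (n ! : ℝ) ≤ M * ‖deriv h 0 - deriv g 0‖ :=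
    fun h g H => poly_reductionN hn P H
  have h3 := pencilN_of_sub C H
  have hfac : (0 : ℝ) < (n ! : ℝ) := by exact_mod_cast Nat.factorial_pos n
  have hlt0 : ‖deriv g 0‖ < ‖deriv h 0‖ := H.lt 0 (by simp)
  have h4 : ∀ ε : ℂ, ‖ε‖ = 1 → ‖iteratedDeriv n h 0 + ε * iteratedDeriv n g 0‖
      ≤ (n ! * M) * ‖deriv h 0 + ε * deriv g 0‖ := by
    intro ε hε
    have := h3 ε hε
    rw [div_le_iff₀ hfac] at this
    linarith
  have h5 := pencil_bound hlt0 h4
  have h6 := pencil_bound' hlt0 h4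
  rw [h1, norm_one] at h5 h6
  refine ⟨?_, ?_, ?_⟩
  · rw [div_le_iff₀ hfac]; linarith
  · rw [div_le_iff₀ hfac]; linarith
  · intro ε hε
    have := h3 ε hε
    rw [h1] at this
    exact this

end Pool.Agent.CSH
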