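import Pool.Agent.CSH.Defs
import Pool.Agent.CSH.FinN

/-!
# FIN: the second coefficient from `hp_main` and `fromf`
-/

set_option autoImplicit false

namespace Pool.CSH

open Complex Set Metric ComplexConjugate

/-- The two inputs of the final step. -/
def HpMain : Prop :=
  ∀ {N : ℕ} {p c : Fin N → ℝ} {σ : Fin N → Fin N}, HData p c σ →
    ‖∑ j, (c j : ℂ) * qq p j ^ 2‖ ≤ 6 * ‖∑ j, (c j : ℂ) * qq p j‖

def FromF : Prop :=
  ∀ {h g : Polynomial ℂ} {r : ℝ}, Uni h g r →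
    ∃ (N : ℕ) (p c : Fin N → ℝ) (σ : Fin N → Fin N), HData p c σ ∧
      ‖∑ j, (c j : ℂ) * qq p j‖ = ‖(h - g).derivative.eval 0‖ ∧
      ‖∑ j, (c j : ℂ) * qq p j ^ 2‖ = ‖(h - g).derivative.derivative.eval 0‖

theorem polyBound_of (hp : HpMain) (fm : FromF) : Pool.Agent.CSH.PolyBound := by
  intro R p q hR _ _ hlt hinj
  obtain ⟨N, p', c, σ, hd, e1, e2⟩ := fm (h := p) (g := q) (r := R) ⟨hR, hinj, hlt⟩
  have h1 := hp hd
  rw [e1, e2] at h1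
  simpa using h1

/-- FIN, strong form: all unimodular `ε`. -/
theorem second_coeff_of (hp : HpMain) (fm : FromF) (h g : ℂ → ℂ)
    (dh : DifferentiableOn ℂ h (ball 0 1)) (dg : DifferentiableOn ℂ g (ball 0 1))
    (hh1 : deriv h 0 = 1)
    (sp : ∀ z ∈ ball (0 : ℂ) 1, ‖deriv g z‖ < ‖deriv h z‖)
    (inj : InjOn (fun z => h z + conj (g z)) (ball 0 1)) :
    ‖deriv (deriv h) 0 / 2‖ ≤ 3 ∧ ‖deriv (deriv g) 0 / 2‖ ≤ 3 ∧
      ∀ ε : ℂ, ‖ε‖ = 1 →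
        ‖(deriv (deriv h) 0 + ε * deriv (deriv g) 0) / 2‖ ≤ 3 * ‖1 + ε * deriv g 0‖ := by
  have H : Pool.Agent.HU85.HarmU h g := ⟨dh, dg, sp, inj⟩
  have P := polyBound_of hp fm
  have C : ∀ h g : ℂ → ℂ, Pool.Agent.HU85.HarmU h g →
      ‖deriv (deriv h) 0 - deriv (deriv g) 0‖ ≤ 6 * ‖deriv h 0 - deriv g 0‖ :=
    fun h g H => Pool.Agent.CSH.poly_reduction P H
  have h2 := Pool.Agent.CSH.second_of_sub C H
  have h3 := Pool.Agent.CSH.pencil_of_sub C H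
  rw [hh1, norm_one] at h2
  have e2 : ‖(2 : ℂ)‖ = 2 := by norm_num
  refine ⟨?_, ?_, ?_⟩
  · rw [norm_div, e2]; linarith [h2.1]
  · rw [norm_div, e2]; linarith [h2.2]
  · intro ε hε
    have h4 := h3 ε hε
    rw [hh1] at h4
    rw [norm_div, e2]
    linarith

end Pool.CSH
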