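import Pool.Agent.CSH.Defs

set_option autoImplicit false

/-!
# SURF: partial fractions (module of `CSH_Skel.lean`)
-/

namespace Pool.CSH

open Complex Set Metric ComplexConjugate

theorem HH_isOpen : IsOpen HH := isOpen_lt continuous_const Complex.continuous_im

theorem HH_sub_ne (a : ℝ) {w : ℂ} (hw : 0 < w.im) : w - (a : ℂ) ≠ 0 := by
  intro h
  have h2 := congrArg Complex.im h
  simp at h2
  linarith

theorem HH_sub_ne' (a : ℝ) {w : ℂ} (hw : 0 < w.im) : (a : ℂ) - w ≠ 0 := by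
  intro h
  apply HH_sub_ne a hw
  linear_combination -h

theorem log_hasDerivAt (a : ℝ) {w : ℂ} (hw : 0 < w.im) :
    HasDerivAt (fun w : ℂ => Complex.log (w - a)) (1 / (w - a)) w := by
  have h1 : HasDerivAt (fun w : ℂ => w - (a : ℂ)) 1 w := by
    simpa using (hasDerivAt_id w).sub_const (a : ℂ)
  have h2 : w - (a : ℂ) ∈ slitPlane := by
    rw [mem_slitPlane_iff]; right; simpa using hw.ne'
  exact h1.clog h2

theorem Lf_hasDerivAt {N : ℕ} (p c : Fin N → ℝ) {w : ℂ} (hw : 0 < w.im) :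
    HasDerivAt (Lf p c) (Lp p c w) w := by
  unfold Lf Lp
  apply HasDerivAt.fun_sum
  intro j _
  exact ((log_hasDerivAt (p j) hw).const_mul (c j : ℂ)).congr_deriv (by rw [mul_one_div])

theorem Ff_hasDerivAt {N : ℕ} (p c : Fin N → ℝ) (Z : Finset ℝ) (ρ : ℝ → ℝ) {w : ℂ}
    (hw : 0 < w.im) :
    HasDerivAt (Ff p c Z ρ) (∑ j, ((c j * Rr Z ρ (p j) : ℝ) : ℂ) / (w - p j)) w := by
  unfold Ff
  apply HasDerivAt.fun_sum
  intro j _
  exact ((log_hasDerivAt (p j) hw).const_mul _).congr_deriv (by rw [mul_one_div])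

theorem Gf_hasDerivAt {N : ℕ} (p c : Fin N → ℝ) (Z : Finset ℝ) (ρ : ℝ → ℝ) {w : ℂ}
    (hw : 0 < w.im) :
    HasDerivAt (Gf p c Z ρ) (∑ j, ((c j * Rr Z ρ (p j) ^ 2 : ℝ) : ℂ) / (w - p j) +
      ∑ z ∈ Z, ((ρ z ^ 2 * Lr' p c z : ℝ) : ℂ) / (w - z)) w := by
  unfold Gf
  apply HasDerivAt.add
  · apply HasDerivAt.fun_sum
    intro j _
    exact ((log_hasDerivAt (p j) hw).const_mul _).congr_deriv (by rw [mul_one_div])
  · apply HasDerivAt.fun_sum
    intro z _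
    exact ((log_hasDerivAt z hw).const_mul _).congr_deriv (by rw [mul_one_div])

theorem Rc_differentiableAt (Z : Finset ℝ) (ρ : ℝ → ℝ) {w : ℂ} (hw : 0 < w.im) :
    DifferentiableAt ℂ (Rc Z ρ) w := by
  unfold Rc
  apply DifferentiableAt.fun_sum
  intro z _
  exact (differentiableAt_const _).div ((differentiableAt_const _).sub differentiableAt_id)
    (HH_sub_ne' z hw)

theorem surf_Rc_im_pos {Z : Finset ℝ} {ρ : ℝ → ℝ} (hne : Z.Nonempty) (hρ : ∀ z ∈ Z, 0 < ρ z) {w : ℂ}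
    (hw : 0 < w.im) : 0 < (Rc Z ρ w).im := by
  unfold Rc
  rw [Complex.im_sum]
  apply Finset.sum_pos _ hne
  intro z hz
  have h1 : 0 < normSq ((z : ℂ) - w) := normSq_pos.2 (HH_sub_ne' z hw)
  rw [Complex.div_im]
  simp only [ofReal_im, zero_mul, zero_div, ofReal_re, sub_im, zero_sub]
  have : 0 < ρ z * w.im / normSq ((z : ℂ) - w) := div_pos (mul_pos (hρ z hz) hw) h1
  have h2 : ρ z * -w.im / normSq ((z : ℂ) - w) = -(ρ z * w.im / normSq ((z : ℂ) - w)) := by ring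
  rw [h2]
  linarith

/-- multiplication of `Rc` with a simple fraction sum -/
theorem Rc_mul_sum {N : ℕ} (p a : Fin N → ℝ) (Z : Finset ℝ) (ρ : ℝ → ℝ)
    (hZ : ∀ z ∈ Z, ∀ j, z ≠ p j) {w : ℂ} (hw : 0 < w.im) :
    Rc Z ρ w * (∑ j, (a j : ℂ) / (w - p j)) =
      ∑ j, ((a j * Rr Z ρ (p j) : ℝ) : ℂ) / (w - p j) +
      ∑ z ∈ Z, (ρ z : ℂ) / ((z : ℂ) - w) * ((∑ j, a j / (z - p j) : ℝ) : ℂ) := by
  unfold Rc Rr
  have h1 : ∀ j, ((a j * ∑ z ∈ Z, ρ z / (z - p j) : ℝ) : ℂ) / (w - p j) =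
      ∑ z ∈ Z, (a j : ℂ) * ((ρ z : ℂ) / ((z : ℂ) - p j)) / (w - p j) := by
    intro j
    push_cast
    rw [Finset.mul_sum, Finset.sum_div]
  rw [Finset.sum_congr rfl (fun j _ => h1 j), Finset.sum_comm, Finset.sum_mul,
    ← Finset.sum_add_distrib]
  refine Finset.sum_congr rfl fun z hz => ?_
  push_cast
  rw [Finset.mul_sum, Finset.mul_sum, ← Finset.sum_add_distrib]
  refine Finset.sum_congr rfl fun j _ => ?_
  have h2 : (w : ℂ) - p j ≠ 0 := HH_sub_ne _ hw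
  have h3 : (z : ℂ) - w ≠ 0 := HH_sub_ne' _ hw
  have h4 : (z : ℂ) - p j ≠ 0 := by
    rw [← ofReal_sub]
    exact_mod_cast sub_ne_zero.2 (hZ z hz j)
  field_simp
  ring

theorem surf_sum_cR {N : ℕ} {p c : Fin N → ℝ} {Z : Finset ℝ} {ρ : ℝ → ℝ}
    (hZ : ∀ z ∈ Z, ∀ j, z ≠ p j) (hL : ∀ z ∈ Z, Lr p c z = 0) {z : ℝ} (hz : z ∈ Z) :
    ∑ j, c j * Rr Z ρ (p j) / (z - p j) = -(ρ z * Lr' p c z) := by
  unfold Rr
  have h1 : ∀ j, c j * (∑ z' ∈ Z, ρ z' / (z' - p j)) / (z - p j) =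
      ∑ z' ∈ Z, ρ z' * (c j / ((z' - p j) * (z - p j))) := by
    intro j
    rw [Finset.mul_sum, Finset.sum_div]
    refine Finset.sum_congr rfl fun z' hz' => ?_
    have h2 := sub_ne_zero.2 (hZ z' hz' j)
    have h3 := sub_ne_zero.2 (hZ z hz j)
    field_simp
  rw [Finset.sum_congr rfl (fun j _ => h1 j), Finset.sum_comm]
  have h4 : ∀ z' ∈ Z, z' ≠ z → ∑ j, ρ z' * (c j / ((z' - p j) * (z - p j))) = 0 := by
    intro z' hz' hne
    rw [← Finset.mul_sum]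
    have h5 : ∑ j, c j / ((z' - p j) * (z - p j)) = (Lr p c z - Lr p c z') / (z' - z) := by
      unfold Lr
      rw [← Finset.sum_sub_distrib, Finset.sum_div]
      refine Finset.sum_congr rfl fun j _ => ?_
      have h2 := sub_ne_zero.2 (hZ z' hz' j)
      have h3 := sub_ne_zero.2 (hZ z hz j)
      have h6 := sub_ne_zero.2 hne
      field_simp
      ring
    rw [h5, hL z hz, hL z' hz']
    simp
  rw [Finset.sum_eq_single_of_mem z hz (fun z' hz' hne => h4 z' hz' hne), ← Finset.mul_sum]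
  unfold Lr'
  rw [mul_neg, neg_neg]
  congr 1
  refine Finset.sum_congr rfl fun j _ => ?_
  rw [pow_two]

/-- SURF. -/
theorem surf_H {N : ℕ} {p c : Fin N → ℝ} {σ : Fin N → Fin N} (h : HData p c σ)
    {Z : Finset ℝ} {ρ : ℝ → ℝ} (hl : LinSol p c σ Z ρ) :
    Surf HH (Lf p c) (Ff p c Z ρ) (Gf p c Z ρ) (Rc Z ρ) := by
  have hZ : ∀ z ∈ Z, ∀ j, z ≠ p j := fun z hz => (hl.zz z hz).1
  have hL0 : ∀ z ∈ Z, Lr p c z = 0 := fun z hz => (hl.zz z hz).2.1
  have hρ : ∀ z ∈ Z, 0 < ρ z := fun z hz => (hl.zz z hz).2.2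
  have key1 : ∀ w : ℂ, 0 < w.im →
      (∑ j, ((c j * Rr Z ρ (p j) : ℝ) : ℂ) / (w - p j)) = Rc Z ρ w * Lp p c w := by
    intro w hw
    unfold Lp
    rw [Rc_mul_sum p c Z ρ hZ hw]
    have : ∑ z ∈ Z, (ρ z : ℂ) / ((z : ℂ) - w) * ((∑ j, c j / (z - p j) : ℝ) : ℂ) = 0 := by
      apply Finset.sum_eq_zero
      intro z hz
      have := hL0 z hz
      unfold Lr at this
      rw [this]
      simp
    rw [this, add_zero]
  have key2 : ∀ w : ℂ, 0 < w.im →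
      (∑ j, ((c j * Rr Z ρ (p j) ^ 2 : ℝ) : ℂ) / (w - p j) +
      ∑ z ∈ Z, ((ρ z ^ 2 * Lr' p c z : ℝ) : ℂ) / (w - z)) = Rc Z ρ w ^ 2 * Lp p c w := by
    intro w hw
    rw [pow_two, mul_assoc, ← key1 w hw,
      Rc_mul_sum p (fun j => c j * Rr Z ρ (p j)) Z ρ hZ hw]
    congr 1
    · refine Finset.sum_congr rfl fun j _ => ?_
      rw [pow_two, mul_assoc]
    · refine Finset.sum_congr rfl fun z hz => ?_
      rw [surf_sum_cR hZ hL0 hz]
      have h3 : (z : ℂ) - w ≠ 0 := HH_sub_ne' _ hw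
      have h4 : (w : ℂ) - z ≠ 0 := HH_sub_ne _ hw
      push_cast
      field_simp
      ring
  refine ⟨?_, ?_, ?_, ?_, ?_, ?_, ?_, ?_⟩
  · exact fun w hw => (Lf_hasDerivAt p c hw).differentiableAt.differentiableWithinAt
  · exact fun w hw => (Ff_hasDerivAt p c Z ρ hw).differentiableAt.differentiableWithinAt
  · exact fun w hw => (Gf_hasDerivAt p c Z ρ hw).differentiableAt.differentiableWithinAt
  · exact fun w hw => (Rc_differentiableAt Z ρ hw).differentiableWithinAt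
  · intro w hw
    rw [(Ff_hasDerivAt p c Z ρ hw).deriv, (Lf_hasDerivAt p c hw).deriv, key1 w hw]
  · intro w hw
    rw [(Gf_hasDerivAt p c Z ρ hw).deriv, (Lf_hasDerivAt p c hw).deriv, key2 w hw]
  · exact fun w hw => surf_Rc_im_pos hl.ne hρ hw
  · intro w hw
    rw [(Lf_hasDerivAt p c hw).deriv]
    exact h.nz w hw

end Pool.CSH
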