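import Pool.Agent.CSH.Surf

set_option autoImplicit false

/-!
# TRANS: half plane to disc (module of `CSH_Skel.lean`)
-/

namespace Pool.CSH

open Complex Set Metric ComplexConjugate

/-- the Cayley map from the unit disc to the upper half-plane -/
noncomputable def cay (z : ℂ) : ℂ := I * (1 + z) / (1 - z)

theorem one_sub_ne {z : ℂ} (hz : ‖z‖ < 1) : (1 : ℂ) - z ≠ 0 := by
  intro h
  have : z = 1 := by linear_combination -h
  rw [this] at hz
  simp at hz

theorem cay_zero : cay 0 = I := by simp [cay]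

theorem cay_im {z : ℂ} (hz : ‖z‖ < 1) : 0 < (cay z).im := by
  have h1 := one_sub_ne hz
  have h2 : 0 < normSq (1 - z) := normSq_pos.2 h1
  have h3 : (cay z).im = (1 - normSq z) / normSq (1 - z) := by
    unfold cay
    rw [mul_div_assoc, Complex.mul_im, Complex.div_re, Complex.div_im]
    simp only [I_re, I_im, zero_mul, one_mul, zero_add, add_re, one_re, sub_re, add_im, one_im,
      sub_im, zero_sub]
    rw [normSq_apply z]
    field_simp
    ring
  rw [h3]
  apply div_pos _ h2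
  have : normSq z < 1 := by
    rw [Complex.normSq_eq_norm_sq]
    nlinarith [norm_nonneg z]
  linarith

theorem cay_inj {x y : ℂ} (hx : ‖x‖ < 1) (hy : ‖y‖ < 1) (h : cay x = cay y) : x = y := by
  unfold cay at h
  rw [div_eq_div_iff (one_sub_ne hx) (one_sub_ne hy)] at h
  have h2 : (2 : ℂ) * I * (x - y) = 0 := by linear_combination h
  have h3 : (2 : ℂ) * I ≠ 0 := by simp
  have := (mul_eq_zero.1 h2).resolve_left h3
  linear_combination this

theorem cay_hasDerivAt {z : ℂ} (hz : ‖z‖ < 1) :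
    HasDerivAt cay (2 * I / (1 - z) ^ 2) z := by
  have h1 := one_sub_ne hz
  have ha : HasDerivAt (fun z : ℂ => I * (1 + z)) I z := by
    simpa using ((hasDerivAt_id z).const_add 1).const_mul I
  have hb : HasDerivAt (fun z : ℂ => (1 : ℂ) - z) (-1) z := by
    simpa using (hasDerivAt_id z).const_sub 1
  have h2 : HasDerivAt cay _ z := ha.div hb h1
  refine h2.congr_deriv ?_
  congr 1
  ring

theorem cay_deriv_ne {z : ℂ} (hz : ‖z‖ < 1) : 2 * I / (1 - z) ^ 2 ≠ 0 :=
  div_ne_zero (by simp) (pow_ne_zero 2 (one_sub_ne hz))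

/-- composition of a function on the half-plane with the Cayley map -/
theorem cay_comp_hasDerivAt {L : ℂ → ℂ} (hL : DifferentiableOn ℂ L HH) {z : ℂ} (hz : ‖z‖ < 1) :
    HasDerivAt (fun z => L (cay z)) (deriv L (cay z) * (2 * I / (1 - z) ^ 2)) z :=
  ((hL.differentiableAt (HH_isOpen.mem_nhds (cay_im hz))).hasDerivAt).comp z (cay_hasDerivAt hz)

theorem cay_comp_deriv {L : ℂ → ℂ} (hL : DifferentiableOn ℂ L HH) {z : ℂ} (hz : ‖z‖ < 1) :
    deriv (fun z => L (cay z)) z = deriv L (cay z) * (2 * I / (1 - z) ^ 2) :=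
  (cay_comp_hasDerivAt hL hz).deriv

theorem cay_comp_deriv_two {L : ℂ → ℂ} (hL : DifferentiableOn ℂ L HH) :
    deriv (deriv (fun z => L (cay z))) 0 = -4 * deriv (deriv L) I + 4 * I * deriv L I := by
  have h0 : ‖(0 : ℂ)‖ < 1 := by simp
  have hI : I ∈ HH := by simp [HH]
  have heq : deriv (fun z => L (cay z)) =ᶠ[nhds 0]
      fun z => deriv L (cay z) * (2 * I / (1 - z) ^ 2) := by
    filter_upwards [isOpen_ball.mem_nhds (mem_ball_self (x := (0 : ℂ)) one_pos)] with z hz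
    exact cay_comp_deriv hL (by simpa using hz)
  rw [heq.deriv_eq]
  have h1 := cay_comp_hasDerivAt (hL.deriv HH_isOpen) h0
  have hb : HasDerivAt (fun z : ℂ => (1 : ℂ) - z) (-1) 0 := by
    simpa using (hasDerivAt_id (0 : ℂ)).const_sub 1
  have h2 : HasDerivAt (fun z : ℂ => 2 * I / (1 - z) ^ 2) (4 * I) 0 := by
    have h3 := (hb.pow 2)
    have h4 : HasDerivAt (fun z : ℂ => 2 * I / (1 - z) ^ 2) _ 0 :=
      (hasDerivAt_const (0 : ℂ) (2 * I)).div h3 (by simp)
    refine h4.congr_deriv ?_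
    norm_num
    ring
  have h5 : HasDerivAt (fun z => deriv L (cay z) * (2 * I / (1 - z) ^ 2)) _ 0 := h1.mul h2
  rw [h5.deriv, cay_zero]
  norm_num
  linear_combination (4 * deriv (deriv L) I) * I_sq

/-- a surface over the half-plane is a surface over the disc -/
theorem surf_disc {L F G R : ℂ → ℂ} (hS : Surf HH L F G R) :
    Surf (ball 0 1) (fun z => L (cay z)) (fun z => F (cay z)) (fun z => G (cay z))
      (fun z => R (cay z)) := by
  have hb : ∀ z ∈ ball (0 : ℂ) 1, ‖z‖ < 1 := fun z hz => by simpa using hz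
  refine ⟨?_, ?_, ?_, ?_, ?_, ?_, ?_, ?_⟩
  · exact fun z hz => (cay_comp_hasDerivAt hS.dL (hb z hz)).differentiableAt.differentiableWithinAt
  · exact fun z hz => (cay_comp_hasDerivAt hS.dF (hb z hz)).differentiableAt.differentiableWithinAt
  · exact fun z hz => (cay_comp_hasDerivAt hS.dG (hb z hz)).differentiableAt.differentiableWithinAt
  · exact fun z hz => (cay_comp_hasDerivAt hS.dR (hb z hz)).differentiableAt.differentiableWithinAt
  · intro z hz
    rw [cay_comp_deriv hS.dF (hb z hz), cay_comp_deriv hS.dL (hb z hz), hS.hF _ (cay_im (hb z hz)),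
      mul_assoc]
  · intro z hz
    rw [cay_comp_deriv hS.dG (hb z hz), cay_comp_deriv hS.dL (hb z hz), hS.hG _ (cay_im (hb z hz)),
      mul_assoc]
  · exact fun z hz => hS.hR _ (cay_im (hb z hz))
  · intro z hz
    rw [cay_comp_deriv hS.dL (hb z hz)]
    exact mul_ne_zero (hS.hL _ (cay_im (hb z hz))) (cay_deriv_ne (hb z hz))

theorem achr_disc {L F G : ℂ → ℂ} (hA : Achr HH L F G) :
    Achr (ball 0 1) (fun z => L (cay z)) (fun z => F (cay z)) (fun z => G (cay z)) := by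
  have hb : ∀ z ∈ ball (0 : ℂ) 1, ‖z‖ < 1 := fun z hz => by simpa using hz
  intro x hx y hy hxy
  exact hA _ (cay_im (hb x hx)) _ (cay_im (hb y hy))
    (fun h => hxy (cay_inj (hb x hx) (hb y hy) h))

theorem Lp_hasDerivAt {N : ℕ} (p c : Fin N → ℝ) {w : ℂ} (hw : 0 < w.im) :
    HasDerivAt (Lp p c) (∑ j, -(c j : ℂ) / (w - p j) ^ 2) w := by
  unfold Lp
  apply HasDerivAt.fun_sum
  intro j _
  have h1 : HasDerivAt (fun w : ℂ => w - (p j : ℂ)) 1 w := by
    simpa using (hasDerivAt_id w).sub_const (p j : ℂ)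
  have h3 : HasDerivAt (fun w : ℂ => (c j : ℂ) / (w - p j)) _ w :=
    (hasDerivAt_const w (c j : ℂ)).div h1 (HH_sub_ne _ hw)
  refine h3.congr_deriv ?_
  congr 1
  ring

theorem Lf_deriv {N : ℕ} (p c : Fin N → ℝ) {w : ℂ} (hw : 0 < w.im) :
    deriv (Lf p c) w = Lp p c w := (Lf_hasDerivAt p c hw).deriv

theorem Lf_deriv_two {N : ℕ} (p c : Fin N → ℝ) {w : ℂ} (hw : 0 < w.im) :
    deriv (deriv (Lf p c)) w = ∑ j, -(c j : ℂ) / (w - p j) ^ 2 := by
  have heq : deriv (Lf p c) =ᶠ[nhds w] Lp p c := by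
    filter_upwards [HH_isOpen.mem_nhds (show w ∈ HH from hw)] with z hz
    exact Lf_deriv p c hz
  rw [heq.deriv_eq, (Lp_hasDerivAt p c hw).deriv]

theorem p_sub_I_ne (a : ℝ) : (a : ℂ) - I ≠ 0 := HH_sub_ne' a (w := I) (by simp)

theorem sum_qq_one {N : ℕ} (p c : Fin N → ℝ) (hc : ∑ j, c j = 0) :
    Lp p c I * (2 * I) = -∑ j, (c j : ℂ) * qq p j := by
  have hc' : (∑ j, (c j : ℂ)) = 0 := by exact_mod_cast hc
  have h1 : ∑ j, (c j : ℂ) * qq p j =
      ∑ j, (c j : ℂ) + ∑ j, (c j : ℂ) * (2 * I / ((p j : ℂ) - I)) := by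
    rw [← Finset.sum_add_distrib]
    refine Finset.sum_congr rfl fun j _ => ?_
    have h2 := p_sub_I_ne (p j)
    unfold qq
    field_simp
    ring
  rw [h1, hc', zero_add]
  unfold Lp
  rw [Finset.sum_mul, ← Finset.sum_neg_distrib]
  refine Finset.sum_congr rfl fun j _ => ?_
  have h2 := p_sub_I_ne (p j)
  have h3 : I - (p j : ℂ) ≠ 0 := HH_sub_ne (p j) (w := I) (by simp)
  field_simp
  ring

theorem sum_qq_two {N : ℕ} (p c : Fin N → ℝ) (hc : ∑ j, c j = 0) :
    -4 * (∑ j, -(c j : ℂ) / (I - p j) ^ 2) + 4 * I * Lp p c I =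
      -∑ j, (c j : ℂ) * qq p j ^ 2 := by
  have hc' : (∑ j, (c j : ℂ)) = 0 := by exact_mod_cast hc
  have h1 : ∑ j, (c j : ℂ) * qq p j ^ 2 =
      ∑ j, (c j : ℂ) + ∑ j, (c j : ℂ) * (4 * I / ((p j : ℂ) - I) - 4 / ((p j : ℂ) - I) ^ 2) := by
    rw [← Finset.sum_add_distrib]
    refine Finset.sum_congr rfl fun j _ => ?_
    have h2 := p_sub_I_ne (p j)
    unfold qq
    field_simp
    linear_combination (4 * (c j : ℂ)) * I_sq
  rw [h1, hc', zero_add]
  unfold Lp
  rw [Finset.mul_sum, Finset.mul_sum, ← Finset.sum_add_distrib, ← Finset.sum_neg_distrib]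
  refine Finset.sum_congr rfl fun j _ => ?_
  have h2 := p_sub_I_ne (p j)
  have h3 : I - (p j : ℂ) = -((p j : ℂ) - I) := by ring
  rw [h3]
  field_simp
  ring

theorem qq_eq_deriv {N : ℕ} (p c : Fin N → ℝ) (hc : ∑ j, c j = 0) :
    deriv (fun z => Lf p c (cay z)) 0 = -∑ j, (c j : ℂ) * qq p j := by
  have hd : DifferentiableOn ℂ (Lf p c) HH :=
    fun w hw => (Lf_hasDerivAt p c hw).differentiableAt.differentiableWithinAt
  rw [cay_comp_deriv hd (by simp), cay_zero, Lf_deriv p c (by simp)]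
  rw [show (2 * I / (1 - (0 : ℂ)) ^ 2) = 2 * I by simp, sum_qq_one p c hc]

theorem qq_eq_deriv_two {N : ℕ} (p c : Fin N → ℝ) (hc : ∑ j, c j = 0) :
    deriv (deriv (fun z => Lf p c (cay z))) 0 = -∑ j, (c j : ℂ) * qq p j ^ 2 := by
  have hd : DifferentiableOn ℂ (Lf p c) HH :=
    fun w hw => (Lf_hasDerivAt p c hw).differentiableAt.differentiableWithinAt
  rw [cay_comp_deriv_two hd, Lf_deriv p c (by simp), Lf_deriv_two p c (by simp),
    sum_qq_two p c hc]

/-- TRANS with the other modules as hypotheses. -/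
theorem hp_of
    (a2 : ∀ L F G R : ℂ → ℂ, Surf (ball 0 1) L F G R → Achr (ball 0 1) L F G →
      ‖deriv (deriv L) 0‖ ≤ 6 * ‖deriv L 0‖)
    {N : ℕ} {p c : Fin N → ℝ} (hc : ∑ j, c j = 0) {F G R : ℂ → ℂ}
    (hS : Surf HH (Lf p c) F G R) (hA : Achr HH (Lf p c) F G) :
    ‖∑ j, (c j : ℂ) * qq p j ^ 2‖ ≤ 6 * ‖∑ j, (c j : ℂ) * qq p j‖ := by
  have key := a2 _ _ _ _ (surf_disc hS) (achr_disc hA)
  rw [qq_eq_deriv p c hc, qq_eq_deriv_two p c hc, norm_neg, norm_neg] at key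
  exact key

end Pool.CSH
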