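import Mathlib
import Pool.Agent.CSH.FromF
import Pool.Agent.CSH.A2
import Pool.Agent.CSH.AchrH
import Pool.Agent.CSH.LinExists
import Pool.Agent.CSH.Surf
import Pool.Agent.CSH.Trans
import Pool.Agent.CSH.Rot
import Pool.Agent.CSH.Second

set_option autoImplicit false

/-!
Final assembly: the half-plane theorem, the second coefficient theorem and the lift theorem.
-/

namespace Pool.CSH

open Complex Set Metric ComplexConjugate

/-- Half-plane theorem. -/
theorem hp_main {N : ℕ} {p c : Fin N → ℝ} {σ : Fin N → Fin N} (h : HData p c σ) :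
    ‖∑ j, (c j : ℂ) * qq p j ^ 2‖ ≤ 6 * ‖∑ j, (c j : ℂ) * qq p j‖ := by
  obtain ⟨Z, ρ, hl⟩ := lin_exists h
  exact hp_of (fun _ _ _ _ hS hA => a2_bound hS hA) h.csum (surf_H h hl) (achr_H h hl)

/-- From univalent harmonic polynomials to the half plane. -/
theorem fromf {h g : Polynomial ℂ} {r : ℝ} (hU : Uni h g r) :
    ∃ (N : ℕ) (p c : Fin N → ℝ) (σ : Fin N → Fin N), HData p c σ ∧
      ‖∑ j, (c j : ℂ) * qq p j‖ = ‖(h - g).derivative.eval 0‖ ∧
      ‖∑ j, (c j : ℂ) * qq p j ^ 2‖ = ‖(h - g).derivative.derivative.eval 0‖ := by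
  obtain ⟨θ₀, lev, n, t, C, σ, Q, E⟩ := data_exists hU 1
  have e0 : (h - g).derivative.eval 0 = (h - g).derivative.coeff 0 := by
    rw [Polynomial.coeff_zero_eq_eval_zero]
  have e1 : (h - g).derivative.derivative.eval 0 = (h - g).derivative.coeff 1 := by
    rw [← Polynomial.coeff_zero_eq_eval_zero, Polynomial.coeff_derivative]
    simp
  refine ⟨n + 1, _, _, σ, hdata_of hU Q E, ?_, ?_⟩
  · have h1 := norm_sum_qq E.mem C 1
    simp only [pow_one] at h1
    rw [h1, e0, ← Q.coe 0 (Nat.zero_le _)]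
    congr 1
    refine Finset.sum_congr rfl fun j _ => ?_
    rw [div_eq_mul_inv, ← Complex.exp_nat_mul, ← Complex.exp_neg]
    congr 2
    push_cast
    ring
  · rw [norm_sum_qq E.mem C 2, e1, ← Q.coe 1 le_rfl]
    congr 1
    refine Finset.sum_congr rfl fun j _ => ?_
    rw [div_eq_mul_inv, ← Complex.exp_nat_mul, ← Complex.exp_neg]
    congr 2
    push_cast
    ring

/-- **Second coefficient theorem** for harmonic univalent maps. -/
theorem second_coeff (h g : ℂ → ℂ) (dh : DifferentiableOn ℂ h (ball 0 1))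
    (dg : DifferentiableOn ℂ g (ball 0 1)) (hh1 : deriv h 0 = 1)
    (sp : ∀ z ∈ ball (0 : ℂ) 1, ‖deriv g z‖ < ‖deriv h z‖)
    (inj : InjOn (fun z => h z + conj (g z)) (ball 0 1)) :
    ‖deriv (deriv h) 0 / 2‖ ≤ 3 ∧ ‖deriv (deriv g) 0 / 2‖ ≤ 3 ∧
      ∀ ε : ℂ, ‖ε‖ = 1 →
        ‖(deriv (deriv h) 0 + ε * deriv (deriv g) 0) / 2‖ ≤ 3 * ‖1 + ε * deriv g 0‖ :=
  second_coeff_of (fun {_} {_} {_} {_} h => hp_main h) (fun {_} {_} {_} h => fromf h)
    h g dh dg hh1 sp inj

/-- **Lift theorem**: for every univalent harmonic polynomial near the closed disc and every `m`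
there is an achronal lift whose first coordinate has the same Taylor coefficients up to `m + 1`. -/
theorem lift_exists {h g : Polynomial ℂ} {r : ℝ} (hU : Uni h g r) (m : ℕ) :
    ∃ L F G R : ℂ → ℂ, AllN24.AchLift L F G R ∧
      ∀ k ≤ m, iteratedDeriv (k + 1) L 0 = (k + 1).factorial * (h - g).coeff (k + 1) := by
  obtain ⟨θ₀, lev, n, t, C, σ, Q, E⟩ := data_exists hU m
  have hd := hdata_of hU Q E
  obtain ⟨Z, ρ, hl⟩ := lin_exists hd
  have hS := surf_disc (surf_H hd hl)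
  have hA := achr_disc (achr_H hd hl)
  have hA' : AllN24.AchLift
      (fun z => Lf (fun j => pp θ₀ (t j)) (fun j => - C j) (cay z))
      (fun z => Ff (fun j => pp θ₀ (t j)) (fun j => - C j) Z ρ (cay z))
      (fun z => Gf (fun j => pp θ₀ (t j)) (fun j => - C j) Z ρ (cay z))
      (fun z => Rc Z ρ (cay z)) :=
    ⟨hS.dL, hS.dF, hS.dG, hS.dR, hS.hF, hS.hG, hS.hR, hS.hL, hA⟩
  refine ⟨_, _, _, _, achLift_rot hA' (norm_exp_neg θ₀), ?_⟩
  intro k hk
  rw [rot_iteratedDeriv θ₀ t C E.mem Q.sum k, Q.coe k hk, Polynomial.coeff_derivative,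
    Nat.factorial_succ]
  push_cast
  ring

end Pool.CSH
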