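import Mathlib

/-!
Univalent harmonic polynomials on the closed disc: one continuous, symmetric angle function
`Ψ` for the chords of the image of the unit circle.
-/

open Complex Metric Set Filter Topology

namespace Pool.CSH.PA

noncomputable section

/-- `h + conj g` is injective and sense-preserving on the closed unit disc. -/
structure UP (h g : Polynomial ℂ) : Prop where
  inj : Set.InjOn (fun z : ℂ => h.eval z + (starRingEnd ℂ) (g.eval z)) (closedBall (0 : ℂ) 1)
  jac : ∀ z ∈ closedBall (0 : ℂ) 1, ‖g.derivative.eval z‖ < ‖h.derivative.eval z‖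

/-- The image of the unit circle. -/
def gam (h g : Polynomial ℂ) (t : ℝ) : ℂ :=
  h.eval (exp (t * I)) + (starRingEnd ℂ) (g.eval (exp (t * I)))

/-- A continuous symmetric angle function for the chords of a closed curve. -/
structure AngData (γ : ℝ → ℂ) (Ψ : ℝ → ℝ → ℝ) : Prop where
  per : ∀ t, γ (t + 2 * Real.pi) = γ t
  cont : ∀ b, Continuous (fun a => Ψ a b)
  symm : ∀ a b, Ψ a b = Ψ b a
  shift : ∀ a b, Ψ (a + 2 * Real.pi) b = Ψ a b + Real.pi
  sub : ∀ a b, b < a → a < b + 2 * Real.pi →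
    ∃ r : ℝ, 0 < r ∧ γ a - γ b = r * exp (Ψ a b * I)
  der : ∀ a, ∃ r : ℝ, 0 < r ∧ HasDerivAt γ (r * exp (Ψ a a * I)) a

/-- Divided difference of a polynomial. -/
def dd (p : Polynomial ℂ) (u v : ℂ) : ℂ :=
  ∑ k ∈ Finset.range (p.natDegree + 1),
    p.coeff k * ∑ i ∈ Finset.range k, u ^ i * v ^ (k - 1 - i)

lemma dd_mul (p : Polynomial ℂ) (u v : ℂ) : p.eval u - p.eval v = (u - v) * dd p u v := by
  rw [Polynomial.eval_eq_sum_range, Polynomial.eval_eq_sum_range, dd, Finset.mul_sum,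
    ← Finset.sum_sub_distrib]
  refine Finset.sum_congr rfl fun k _ => ?_
  have := geom_sum₂_mul u v k
  calc p.coeff k * u ^ k - p.coeff k * v ^ k = p.coeff k * (u ^ k - v ^ k) := by ring
    _ = p.coeff k * ((∑ i ∈ Finset.range k, u ^ i * v ^ (k - 1 - i)) * (u - v)) := by rw [this]
    _ = _ := by ring

lemma dd_comm (p : Polynomial ℂ) (u v : ℂ) : dd p u v = dd p v u := by
  unfold dd
  refine Finset.sum_congr rfl fun k _ => ?_
  congr 1
  rw [← Finset.sum_range_reflect]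
  refine Finset.sum_congr rfl fun i hi => ?_
  have hi' : i < k := Finset.mem_range.1 hi
  have : k - 1 - (k - 1 - i) = i := by omega
  rw [this]; ring

lemma dd_self (p : Polynomial ℂ) (u : ℂ) : dd p u u = p.derivative.eval u := by
  rw [Polynomial.derivative_eval, Polynomial.sum_over_range _ (by simp), dd]
  refine Finset.sum_congr rfl fun k _ => ?_
  have : ∑ i ∈ Finset.range k, u ^ i * u ^ (k - 1 - i) = k * u ^ (k - 1) := by
    rw [Finset.sum_congr rfl (fun i hi => ?_), Finset.sum_const, Finset.card_range,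
      nsmul_eq_mul]
    rw [← pow_add]
    congr 1
    have := Finset.mem_range.1 hi
    omega
  rw [this]; ring

lemma dd_cont (p : Polynomial ℂ) : Continuous (fun w : ℂ × ℂ => dd p w.1 w.2) := by
  unfold dd
  fun_prop

/-- The quotient function. -/
def Q (h g : Polynomial ℂ) (s : ℝ) (u v : ℂ) : ℂ :=
  dd h (s * u) (s * v) - (starRingEnd ℂ) (u * v) * (starRingEnd ℂ) (dd g (s * u) (s * v))

lemma Q_cont (h g : Polynomial ℂ) :
    Continuous (fun w : ℝ × ℂ × ℂ => Q h g w.1 w.2.1 w.2.2) := by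
  unfold Q
  have h1 : Continuous (fun w : ℝ × ℂ × ℂ => dd h (w.1 * w.2.1) (w.1 * w.2.2)) :=
    (dd_cont h).comp (f := fun w : ℝ × ℂ × ℂ => (((w.1 : ℂ) * w.2.1, (w.1 : ℂ) * w.2.2) : ℂ × ℂ))
      (by fun_prop)
  have h2 : Continuous (fun w : ℝ × ℂ × ℂ => dd g (w.1 * w.2.1) (w.1 * w.2.2)) :=
    (dd_cont g).comp (f := fun w : ℝ × ℂ × ℂ => (((w.1 : ℂ) * w.2.1, (w.1 : ℂ) * w.2.2) : ℂ × ℂ))
      (by fun_prop)
  have h3 := Complex.continuous_conj.comp h2
  have h4 : Continuous (fun w : ℝ × ℂ × ℂ => (starRingEnd ℂ) (w.2.1 * w.2.2)) :=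
    Complex.continuous_conj.comp (by fun_prop)
  exact h1.sub (h4.mul h3)

lemma Q_symm (h g : Polynomial ℂ) (s : ℝ) (u v : ℂ) : Q h g s u v = Q h g s v u := by
  unfold Q
  rw [dd_comm h, dd_comm g, mul_comm u v]

lemma Q_mul (h g : Polynomial ℂ) (s : ℝ) {u v : ℂ} (hu : ‖u‖ = 1) (hv : ‖v‖ = 1) :
    (h.eval (s * u) + (starRingEnd ℂ) (g.eval (s * u))) -
      (h.eval (s * v) + (starRingEnd ℂ) (g.eval (s * v))) = s * (u - v) * Q h g s u v := by
  have h1 := dd_mul h (s * u) (s * v)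
  have h2 := dd_mul g (s * u) (s * v)
  have h3 : (starRingEnd ℂ) (g.eval (s * u)) - (starRingEnd ℂ) (g.eval (s * v)) =
      (starRingEnd ℂ) ((s * u - s * v) * dd g (s * u) (s * v)) := by
    rw [← h2, map_sub]
  have hu' : u * (starRingEnd ℂ) u = 1 := by
    rw [Complex.mul_conj, Complex.normSq_eq_norm_sq, hu]; norm_num
  have hv' : v * (starRingEnd ℂ) v = 1 := by
    rw [Complex.mul_conj, Complex.normSq_eq_norm_sq, hv]; norm_num
  have h4 : (starRingEnd ℂ) ((s * u - s * v) * dd g (s * u) (s * v)) =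
      -(s * (u - v)) * ((starRingEnd ℂ) (u * v) *
        (starRingEnd ℂ) (dd g (s * u) (s * v))) := by
    rw [map_mul, map_sub, map_mul, map_mul, map_mul, Complex.conj_ofReal]
    have e1 : (starRingEnd ℂ) u - (starRingEnd ℂ) v =
        -((u - v) * ((starRingEnd ℂ) u * (starRingEnd ℂ) v)) := by
      have : (u - v) * ((starRingEnd ℂ) u * (starRingEnd ℂ) v) =
          (u * (starRingEnd ℂ) u) * (starRingEnd ℂ) v -
            (v * (starRingEnd ℂ) v) * (starRingEnd ℂ) u := by ring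
      rw [this, hu', hv']; ring
    calc ((s : ℂ) * (starRingEnd ℂ) u - s * (starRingEnd ℂ) v) *
          (starRingEnd ℂ) (dd g (s * u) (s * v))
        = s * ((starRingEnd ℂ) u - (starRingEnd ℂ) v) *
          (starRingEnd ℂ) (dd g (s * u) (s * v)) := by ring
      _ = _ := by rw [e1]; ring
  calc _ = (h.eval (s * u) - h.eval (s * v)) +
        ((starRingEnd ℂ) (g.eval (s * u)) - (starRingEnd ℂ) (g.eval (s * v))) := by ring
    _ = (s * u - s * v) * dd h (s * u) (s * v) +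
        (-(s * (u - v)) * ((starRingEnd ℂ) (u * v) *
        (starRingEnd ℂ) (dd g (s * u) (s * v)))) := by rw [h1, h3, h4]
    _ = _ := by unfold Q; ring

lemma Q_diag (h g : Polynomial ℂ) (s : ℝ) (u : ℂ) :
    Q h g s u u = h.derivative.eval (s * u) -
      (starRingEnd ℂ) (u * u) * (starRingEnd ℂ) (g.derivative.eval (s * u)) := by
  unfold Q
  rw [dd_self, dd_self]

lemma mem_cb {s : ℝ} (hs : s ∈ Set.Icc (0 : ℝ) 1) {u : ℂ} (hu : ‖u‖ = 1) :
    (s : ℂ) * u ∈ closedBall (0 : ℂ) 1 := by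
  rw [mem_closedBall, dist_zero_right, norm_mul, hu, mul_one, Complex.norm_real,
    Real.norm_eq_abs, abs_of_nonneg hs.1]
  exact hs.2

lemma Q_ne {h g : Polynomial ℂ} (H : UP h g) {s : ℝ} (hs : s ∈ Set.Icc (0 : ℝ) 1) {u v : ℂ}
    (hu : ‖u‖ = 1) (hv : ‖v‖ = 1) : Q h g s u v ≠ 0 := by
  have key : ∀ w : ℂ, ‖w‖ = 1 → ∀ z ∈ closedBall (0 : ℂ) 1, h.derivative.eval z -
      (starRingEnd ℂ) w * (starRingEnd ℂ) (g.derivative.eval z) ≠ 0 := by
    intro w hw z hz h0
    have h1 := H.jac z hz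
    have h2 : h.derivative.eval z = (starRingEnd ℂ) w *
      (starRingEnd ℂ) (g.derivative.eval z) := sub_eq_zero.1 h0
    rw [h2, norm_mul, RCLike.norm_conj, RCLike.norm_conj, hw, one_mul] at h1
    exact lt_irrefl _ h1
  by_cases huv : u = v
  · subst huv
    rw [Q_diag]
    exact key _ (by rw [norm_mul, hu]; norm_num) _ (mem_cb hs hu)
  · rcases eq_or_lt_of_le hs.1 with h0 | h0
    · have h1 : Q h g s u v = h.derivative.eval 0 -
          (starRingEnd ℂ) (u * v) * (starRingEnd ℂ) (g.derivative.eval 0) := by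
        rw [← h0]
        unfold Q
        simp only [ofReal_zero, zero_mul]
        rw [dd_self, dd_self]
      rw [h1]
      exact key _ (by rw [norm_mul, hu, hv]; norm_num) _ (by simp)
    · intro hQ
      have h1 := Q_mul h g s hu hv
      rw [hQ, mul_zero, sub_eq_zero] at h1
      have h2 := H.inj (mem_cb hs hu) (mem_cb hs hv) h1
      have h3 : (s : ℂ) ≠ 0 := by exact_mod_cast h0.ne'
      exact huv (mul_left_cancel₀ h3 h2)

/-- Compactness: fine steps in the first variable. -/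
lemma steps_gen {X : Type*} [PseudoMetricSpace X] {K : Set X} (hK : IsCompact K)
    (hKn : K.Nonempty) {F : ℝ × X → ℂ} (hF : Continuous F)
    (hne : ∀ s ∈ Set.Icc (0 : ℝ) 1, ∀ x ∈ K, F (s, x) ≠ 0) :
    ∃ n : ℕ, 0 < n ∧ ∀ k : ℕ, k < n → ∀ x ∈ K,
      F ((k + 1 : ℝ) / n, x) / F ((k : ℝ) / n, x) ∈ slitPlane := by
  have hKc : IsCompact (Set.Icc (0 : ℝ) 1 ×ˢ K) := isCompact_Icc.prod hK
  have hKne : (Set.Icc (0 : ℝ) 1 ×ˢ K).Nonempty := by
    obtain ⟨x, hx⟩ := hKn
    exact ⟨(0, x), ⟨by simp, hx⟩⟩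
  obtain ⟨w0, hw0, hmin⟩ := hKc.exists_isMinOn hKne hF.norm.continuousOn
  have hmpos : 0 < ‖F w0‖ := norm_pos_iff.2 (hne w0.1 hw0.1 w0.2 hw0.2)
  have huc := hKc.uniformContinuousOn_of_continuous hF.continuousOn
  rw [Metric.uniformContinuousOn_iff] at huc
  obtain ⟨δ, hδ, huc⟩ := huc _ hmpos
  obtain ⟨n, hn⟩ := exists_nat_gt (1 / δ)
  have hn0 : 0 < n := by
    rcases Nat.eq_zero_or_pos n with h0 | h0
    · exfalso
      rw [h0] at hn
      have : 0 < 1 / δ := by positivity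
      norm_num at hn
      linarith
    · exact h0
  have hnR : (0 : ℝ) < n := by exact_mod_cast hn0
  refine ⟨n, hn0, fun k hk x hx => ?_⟩
  have hkR : (k : ℝ) + 1 ≤ n := by exact_mod_cast hk
  have hk0 : (0 : ℝ) ≤ k := Nat.cast_nonneg k
  have m1 : ((k : ℝ) / n) ∈ Set.Icc (0 : ℝ) 1 :=
    ⟨by positivity, by rw [div_le_one hnR]; linarith⟩
  have m2 : ((k + 1 : ℝ) / n) ∈ Set.Icc (0 : ℝ) 1 :=
    ⟨by positivity, by rw [div_le_one hnR]; linarith⟩
  have K1 : (((k : ℝ) / n, x) : ℝ × X) ∈ Set.Icc (0 : ℝ) 1 ×ˢ K := ⟨m1, hx⟩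
  have K2 : (((k + 1 : ℝ) / n, x) : ℝ × X) ∈ Set.Icc (0 : ℝ) 1 ×ˢ K := ⟨m2, hx⟩
  have hd : dist (((k + 1 : ℝ) / n, x) : ℝ × X) ((k : ℝ) / n, x) < δ := by
    rw [Prod.dist_eq]
    simp only [dist_self]
    have : dist ((k + 1 : ℝ) / n) ((k : ℝ) / n) = 1 / n := by
      rw [Real.dist_eq, ← sub_div, add_sub_cancel_left, abs_of_pos (by positivity)]
    rw [this, max_eq_left (by positivity)]
    rw [div_lt_iff₀ hδ] at hn
    rw [div_lt_iff₀ hnR]
    linarith
  have h1 := huc _ K2 _ K1 hd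
  rw [dist_eq_norm] at h1
  have h2 : ‖F w0‖ ≤ ‖F ((k : ℝ) / n, x)‖ := hmin K1
  have h3 := hne _ m1 _ hx
  have h4 : ‖F ((k + 1 : ℝ) / n, x) / F ((k : ℝ) / n, x) - 1‖ < 1 := by
    rw [div_sub_one h3, norm_div, div_lt_one (norm_pos_iff.2 h3)]
    exact lt_of_lt_of_le h1 h2
  have h5 := mem_slitPlane_of_norm_lt_one h4
  simpa using h5

lemma steps {h g : Polynomial ℂ} (H : UP h g) : ∃ n : ℕ, 0 < n ∧ ∀ k : ℕ, k < n →
    ∀ u v : ℂ, ‖u‖ = 1 → ‖v‖ = 1 →
      Q h g ((k + 1 : ℝ) / n) u v / Q h g ((k : ℝ) / n) u v ∈ slitPlane := by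
  have hne : ∀ s ∈ Set.Icc (0 : ℝ) 1, ∀ x ∈ sphere (0 : ℂ) 1 ×ˢ sphere (0 : ℂ) 1,
      Q h g s x.1 x.2 ≠ 0 := by
    intro s hs x hx
    have h1 : ‖x.1‖ = 1 := by simpa using hx.1
    have h2 : ‖x.2‖ = 1 := by simpa using hx.2
    exact Q_ne H hs h1 h2
  obtain ⟨n, hn0, hn⟩ := steps_gen ((isCompact_sphere (0 : ℂ) 1).prod (isCompact_sphere (0 : ℂ) 1))
    ⟨(1, 1), by simp, by simp⟩ (Q_cont h g) hne
  refine ⟨n, hn0, fun k hk u v hu hv => ?_⟩
  exact hn k hk (u, v) ⟨by simpa using hu, by simpa using hv⟩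

lemma norm_expI (a : ℝ) : ‖exp (a * I)‖ = 1 := Complex.norm_exp_ofReal_mul_I a

/-- The lifted logarithm. -/
def Lam (h g : Polynomial ℂ) (n : ℕ) (a b : ℝ) : ℂ :=
  log (h.derivative.eval 0) +
    log (Q h g 0 (exp (a * I)) (exp (b * I)) / h.derivative.eval 0) +
    ∑ k ∈ Finset.range n, log (Q h g ((k + 1 : ℝ) / n) (exp (a * I)) (exp (b * I)) /
      Q h g ((k : ℝ) / n) (exp (a * I)) (exp (b * I)))

lemma zero_slit {h g : Polynomial ℂ} (H : UP h g) {u v : ℂ} (hu : ‖u‖ = 1) (hv : ‖v‖ = 1) :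
    Q h g 0 u v / h.derivative.eval 0 ∈ slitPlane := by
  have h1 := H.jac 0 (by simp)
  have h0 : h.derivative.eval 0 ≠ 0 := by
    intro h0
    rw [h0, norm_zero] at h1
    exact absurd h1 (not_lt.2 (norm_nonneg _))
  have h2 : Q h g 0 u v = h.derivative.eval 0 -
          (starRingEnd ℂ) (u * v) * (starRingEnd ℂ) (g.derivative.eval 0) := by
    unfold Q
    simp only [ofReal_zero, zero_mul]
    rw [dd_self, dd_self]
  have h3 : ‖Q h g 0 u v / h.derivative.eval 0 - 1‖ < 1 := by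
    rw [div_sub_one h0, norm_div, div_lt_one (norm_pos_iff.2 h0), h2, sub_sub_cancel_left,
      norm_neg, norm_mul, RCLike.norm_conj, RCLike.norm_conj, norm_mul, hu, hv, one_mul, one_mul]
    exact h1
  have h5 := mem_slitPlane_of_norm_lt_one h3
  simpa using h5

lemma exp_Lam {h g : Polynomial ℂ} (H : UP h g) {n : ℕ} (hn : 0 < n) (a b : ℝ) :
    exp (Lam h g n a b) = Q h g 1 (exp (a * I)) (exp (b * I)) := by
  have h1 := H.jac 0 (by simp)
  have h0 : h.derivative.eval 0 ≠ 0 := by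
    intro h0
    rw [h0, norm_zero] at h1
    exact absurd h1 (not_lt.2 (norm_nonneg _))
  have hnR : (0 : ℝ) < n := by exact_mod_cast hn
  have hQ : ∀ k : ℕ, k ≤ n → Q h g ((k : ℝ) / n) (exp (a * I)) (exp (b * I)) ≠ 0 := by
    intro k hk
    have hkR : (k : ℝ) ≤ n := by exact_mod_cast hk
    exact Q_ne H ⟨by positivity, by rw [div_le_one hnR]; exact hkR⟩ (norm_expI a) (norm_expI b)
  have key : ∀ m : ℕ, m ≤ n → exp (log (h.derivative.eval 0) +
    log (Q h g 0 (exp (a * I)) (exp (b * I)) / h.derivative.eval 0) +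
    ∑ k ∈ Finset.range m, log (Q h g ((k + 1 : ℝ) / n) (exp (a * I)) (exp (b * I)) /
      Q h g ((k : ℝ) / n) (exp (a * I)) (exp (b * I)))) =
        Q h g ((m : ℝ) / n) (exp (a * I)) (exp (b * I)) := by
    intro m
    induction m with
    | zero =>
      intro _
      have hQ0 := hQ 0 (Nat.zero_le _)
      simp only [Nat.cast_zero, zero_div] at hQ0
      simp only [Finset.range_zero, Finset.sum_empty, add_zero, Nat.cast_zero, zero_div]
      rw [exp_add, exp_log h0, exp_log (div_ne_zero hQ0 h0)]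
      field_simp
    | succ m ih =>
      intro hm
      have hQm := hQ m (by omega)
      have hQm1 := hQ (m + 1) hm
      have hxy : ∀ x y : ℂ, x ≠ 0 → x * (y / x) = y := by
        intro x y hx
        field_simp
      rw [Finset.sum_range_succ, ← add_assoc, exp_add, ih (by omega), exp_log]
      · push_cast
        exact hxy _ _ hQm
      · refine div_ne_zero ?_ hQm
        push_cast at hQm1
        exact hQm1
  have := key n le_rfl
  rw [div_self hnR.ne'] at this
  exact this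

lemma Lam_cont {h g : Polynomial ℂ} (H : UP h g) {n : ℕ} (hn : ∀ k : ℕ, k < n →
    ∀ u v : ℂ, ‖u‖ = 1 → ‖v‖ = 1 →
      Q h g ((k + 1 : ℝ) / n) u v / Q h g ((k : ℝ) / n) u v ∈ slitPlane) (hn0 : 0 < n) :
    Continuous (fun w : ℝ × ℝ => Lam h g n w.1 w.2) := by
  have hnR : (0 : ℝ) < n := by exact_mod_cast hn0
  have hc : ∀ s : ℝ, Continuous (fun w : ℝ × ℝ => Q h g s (exp (w.1 * I)) (exp (w.2 * I))) := by
    intro s
    exact (Q_cont h g).comp
      (f := fun w : ℝ × ℝ => ((s, exp (w.1 * I), exp (w.2 * I)) : ℝ × ℂ × ℂ)) (by fun_prop)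
  unfold Lam
  refine (continuous_const.add ?_).add ?_
  · refine Continuous.clog ((hc 0).div_const _) fun w => ?_
    exact zero_slit H (norm_expI _) (norm_expI _)
  · refine continuous_finset_sum _ fun k hk => ?_
    have hk' := Finset.mem_range.1 hk
    refine Continuous.clog ((hc _).div (hc _) fun w => ?_) fun w => ?_
    · have hkR : (k : ℝ) ≤ n := by exact_mod_cast hk'.le
      exact Q_ne H ⟨by positivity, by rw [div_le_one hnR]; exact hkR⟩ (norm_expI _) (norm_expI _)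
    · exact hn k hk' _ _ (norm_expI _) (norm_expI _)

lemma Lam_symm (h g : Polynomial ℂ) (n : ℕ) (a b : ℝ) : Lam h g n a b = Lam h g n b a := by
  unfold Lam
  rw [Q_symm h g 0]
  congr 1
  refine Finset.sum_congr rfl fun k _ => ?_
  rw [Q_symm h g _ (exp (a * I)), Q_symm h g ((k : ℝ) / n) (exp (a * I))]

lemma exp_per (a : ℝ) : exp (((a + 2 * Real.pi : ℝ) : ℂ) * I) = exp (a * I) := by
  push_cast
  rw [add_mul, exp_add, exp_two_pi_mul_I, mul_one]

lemma Lam_per (h g : Polynomial ℂ) (n : ℕ) (a b : ℝ) :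
    Lam h g n (a + 2 * Real.pi) b = Lam h g n a b := by
  unfold Lam
  rw [exp_per]

lemma exp_sub_exp (a b : ℝ) : exp (a * I) - exp (b * I) =
    2 * Real.sin ((a - b) / 2) * exp ((((a + b) / 2 + Real.pi / 2 : ℝ) : ℂ) * I) := by
  have e1 : exp (a * I) = exp (((a + b) / 2 : ℝ) * I) * exp (((a - b) / 2 : ℝ) * I) := by
    rw [← exp_add]; congr 1; push_cast; ring
  have e2 : exp (b * I) = exp (((a + b) / 2 : ℝ) * I) * exp (-(((a - b) / 2 : ℝ) * I)) := by
    rw [← exp_add]; congr 1; push_cast; ring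
  have e3 : exp ((((a + b) / 2 + Real.pi / 2 : ℝ) : ℂ) * I) =
      exp (((a + b) / 2 : ℝ) * I) * I := by
    have : ((((a + b) / 2 + Real.pi / 2 : ℝ) : ℂ) * I) =
        ((a + b) / 2 : ℝ) * I + (Real.pi / 2 : ℝ) * I := by push_cast; ring
    rw [this, exp_add]
    congr 1
    have := exp_pi_div_two_mul_I
    push_cast
    convert this using 2
  have e4 : ((Real.sin ((a - b) / 2) : ℝ) : ℂ) * 2 =
      (exp (-(((a - b) / 2 : ℝ) * I)) - exp (((a - b) / 2 : ℝ) * I)) * I := by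
    rw [Complex.ofReal_sin]
    unfold Complex.sin
    ring_nf
  rw [e1, e2, e3]
  have : 2 * ((Real.sin ((a - b) / 2) : ℝ) : ℂ) * (exp (((a + b) / 2 : ℝ) * I) * I) =
      exp (((a + b) / 2 : ℝ) * I) * (((Real.sin ((a - b) / 2) : ℝ) : ℂ) * 2) * I := by ring
  rw [this, e4]
  have hI : I * I = -1 := I_mul_I
  linear_combination (-(exp (((a + b) / 2 : ℝ) * I)) *
    (exp (-(((a - b) / 2 : ℝ) * I)) - exp (((a - b) / 2 : ℝ) * I))) * hI

/-- The angle function exists. -/
theorem exists_ang {h g : Polynomial ℂ} (H : UP h g) : ∃ Ψ : ℝ → ℝ → ℝ,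
    AngData (gam h g) Ψ ∧ Continuous (fun w : ℝ × ℝ => Ψ w.1 w.2) := by
  obtain ⟨n, hn0, hn⟩ := steps H
  have hcont := Lam_cont H hn hn0
  have hΨc : Continuous (fun w : ℝ × ℝ => (Lam h g n w.1 w.2).im + (w.1 + w.2) / 2 +
      Real.pi / 2) := by
    exact ((Complex.continuous_im.comp hcont).add (by fun_prop)).add continuous_const
  have hfac : ∀ a b : ℝ, ∀ z : ℝ, Q h g 1 (exp (a * I)) (exp (b * I)) *
      exp (((z : ℝ) : ℂ) * I) = ((‖Q h g 1 (exp (a * I)) (exp (b * I))‖ : ℝ) : ℂ) *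
        exp ((((Lam h g n a b).im + z : ℝ) : ℂ) * I) := by
    intro a b z
    have h1 := exp_Lam H hn0 a b
    have h2 : ‖Q h g 1 (exp (a * I)) (exp (b * I))‖ = Real.exp (Lam h g n a b).re := by
      rw [← h1, Complex.norm_exp]
    rw [h2, ← h1, Complex.ofReal_exp, ← exp_add, ← exp_add]
    congr 1
    conv_lhs => rw [← Complex.re_add_im (Lam h g n a b)]
    push_cast
    ring
  refine ⟨fun a b => (Lam h g n a b).im + (a + b) / 2 + Real.pi / 2, ⟨?_, ?_, ?_, ?_, ?_, ?_⟩,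
    hΨc⟩
  · intro t
    unfold gam
    rw [exp_per]
  · intro b
    exact hΨc.comp (f := fun a : ℝ => ((a, b) : ℝ × ℝ)) (by fun_prop)
  · intro a b
    rw [Lam_symm, add_comm a b]
  · intro a b
    rw [Lam_per]
    ring
  · intro a b hab hab2
    have hs : 0 < Real.sin ((a - b) / 2) :=
      Real.sin_pos_of_pos_of_lt_pi (by linarith) (by linarith)
    refine ⟨2 * Real.sin ((a - b) / 2) * ‖Q h g 1 (exp (a * I)) (exp (b * I))‖, ?_, ?_⟩
    · have : 0 < ‖Q h g 1 (exp (a * I)) (exp (b * I))‖ :=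
        norm_pos_iff.2 (Q_ne H ⟨zero_le_one, le_rfl⟩ (norm_expI _) (norm_expI _))
      positivity
    · have h1 := Q_mul h g 1 (norm_expI a) (norm_expI b)
      rw [ofReal_one, one_mul, one_mul, one_mul] at h1
      unfold gam
      rw [h1, exp_sub_exp]
      have h2 := hfac a b ((a + b) / 2 + Real.pi / 2)
      push_cast at h2 ⊢
      calc _ = 2 * Complex.sin ((a - b) / 2) * (Q h g 1 (exp (a * I)) (exp (b * I)) *
            exp (((a + b) / 2 + Real.pi / 2) * I)) := by ring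
        _ = _ := by rw [h2, ← add_assoc]; ring
  · intro a
    refine ⟨‖Q h g 1 (exp (a * I)) (exp (a * I))‖,
      norm_pos_iff.2 (Q_ne H ⟨zero_le_one, le_rfl⟩ (norm_expI _) (norm_expI _)), ?_⟩
    have he : HasDerivAt (fun t : ℝ => exp (t * I)) (exp (a * I) * I) a := by
      have h1 : HasDerivAt (fun t : ℝ => ((t : ℂ) * I)) (1 * I) a :=
        (Complex.ofRealCLM.hasDerivAt (x := a)).mul_const I
      have := h1.cexp
      simpa using this
    have hh : HasDerivAt (fun t : ℝ => h.eval (exp (t * I)))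
        (h.derivative.eval (exp (a * I)) * (exp (a * I) * I)) a :=
      HasDerivAt.comp (h₂ := fun z => h.eval z) (h := fun t : ℝ => exp (t * I)) a
        (h.hasDerivAt (exp (a * I))) he
    have hg : HasDerivAt (fun t : ℝ => g.eval (exp (t * I)))
        (g.derivative.eval (exp (a * I)) * (exp (a * I) * I)) a :=
      HasDerivAt.comp (h₂ := fun z => g.eval z) (h := fun t : ℝ => exp (t * I)) a
        (g.hasDerivAt (exp (a * I))) he
    have hg' : HasDerivAt (fun t : ℝ => (starRingEnd ℂ) (g.eval (exp (t * I))))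
        ((starRingEnd ℂ) (g.derivative.eval (exp (a * I)) * (exp (a * I) * I))) a := by
      exact hg.star
    have hsum := hh.add hg'
    have hval : h.derivative.eval (exp (a * I)) * (exp (a * I) * I) +
        (starRingEnd ℂ) (g.derivative.eval (exp (a * I)) * (exp (a * I) * I)) =
        ((‖Q h g 1 (exp (a * I)) (exp (a * I))‖ : ℝ) : ℂ) *
          exp ((((Lam h g n a a).im + (a + a) / 2 + Real.pi / 2 : ℝ) : ℂ) * I) := by
      have h2 := hfac a a ((a + a) / 2 + Real.pi / 2)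
      rw [← add_assoc] at h2
      rw [← h2, Q_diag, ofReal_one, one_mul]
      have e1 : exp ((((a + a) / 2 + Real.pi / 2 : ℝ) : ℂ) * I) = exp (a * I) * I := by
        have : ((((a + a) / 2 + Real.pi / 2 : ℝ) : ℂ) * I) =
            (a : ℂ) * I + (Real.pi / 2 : ℝ) * I := by push_cast; ring
        rw [this, exp_add]
        congr 1
        have := exp_pi_div_two_mul_I
        push_cast
        convert this using 2
      rw [e1]
      have hu' : exp (a * I) * (starRingEnd ℂ) (exp (a * I)) = 1 := by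
        rw [Complex.mul_conj, Complex.normSq_eq_norm_sq, norm_expI]; norm_num
      rw [map_mul, map_mul, map_mul, Complex.conj_I]
      linear_combination ((starRingEnd ℂ) (exp (a * I)) *
        (starRingEnd ℂ) (g.derivative.eval (exp (a * I))) * I) * (hu')
    rw [hval] at hsum
    exact hsum

end

end Pool.CSH.PA
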