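import Mathlib

/-!
# Schwarz-Pick for holomorphic maps of the disc with `‖g‖ ≤ 1`
-/

set_option autoImplicit false

open Complex Metric Set
open scoped ComplexConjugate

namespace Pool.CSH.SP

theorem hasDerivAt_of {g : ℂ → ℂ} (hg : DifferentiableOn ℂ g (ball 0 1)) {z : ℂ}
    (hz : z ∈ ball (0:ℂ) 1) : HasDerivAt g (deriv g z) z :=
  (hg.differentiableAt (isOpen_ball.mem_nhds hz)).hasDerivAt

theorem norm_conj_mul_lt {z w : ℂ} (hz : ‖z‖ < 1) (hw : ‖w‖ ≤ 1) : ‖conj z * w‖ < 1 := by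
  rw [norm_mul, RCLike.norm_conj]
  nlinarith [norm_nonneg z, norm_nonneg w]

theorem one_sub_ne {z w : ℂ} (hz : ‖z‖ < 1) (hw : ‖w‖ ≤ 1) : 1 - conj z * w ≠ 0 := by
  intro h
  have h1 := norm_conj_mul_lt hz hw
  have : conj z * w = 1 := by linear_combination -h
  rw [this] at h1
  simp at h1

theorem one_add_ne {z w : ℂ} (hz : ‖z‖ < 1) (hw : ‖w‖ ≤ 1) : 1 + conj z * w ≠ 0 := by
  have := one_sub_ne (z := z) (w := -w) hz (by simpa using hw)
  simpa using this

theorem pick_identity (z w : ℂ) :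
    ‖1 - conj z * w‖ ^ 2 - ‖w - z‖ ^ 2 = (1 - ‖z‖ ^ 2) * (1 - ‖w‖ ^ 2) := by
  rw [Complex.sq_norm, Complex.sq_norm, Complex.sq_norm, Complex.sq_norm, normSq_apply,
    normSq_apply, normSq_apply, normSq_apply]
  simp
  ring

/-- Möbius transformations preserve the closed disc. -/
theorem moeb_le {z w : ℂ} (hz : ‖z‖ < 1) (hw : ‖w‖ ≤ 1) : ‖(w - z) / (1 - conj z * w)‖ ≤ 1 := by
  have h1 := one_sub_ne hz hw
  have h2 : 0 < ‖1 - conj z * w‖ := norm_pos_iff.mpr h1
  rw [norm_div, div_le_one h2]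
  have h3 := pick_identity z w
  have h4 : 0 ≤ (1 - ‖z‖ ^ 2) * (1 - ‖w‖ ^ 2) := by
    apply mul_nonneg <;> nlinarith [norm_nonneg z, norm_nonneg w]
  nlinarith [norm_nonneg (w - z)]

/-- Schwarz-Pick inequality for the derivative. -/
theorem schwarz_pick {g : ℂ → ℂ} (hg : DifferentiableOn ℂ g (ball 0 1))
    (hg1 : ∀ z ∈ ball (0:ℂ) 1, ‖g z‖ ≤ 1) {z : ℂ} (hz : ‖z‖ < 1) :
    (1 - ‖z‖ ^ 2) * ‖deriv g z‖ ≤ 1 - ‖g z‖ ^ 2 := by
  have hzb : z ∈ ball (0:ℂ) 1 := by simpa using hz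
  have hz2 : 0 < 1 - ‖z‖ ^ 2 := by nlinarith [norm_nonneg z]
  rcases lt_or_eq_of_le (hg1 z hzb) with hlt | heq
  · -- interior case
    set c := g z with hc
    set T : ℂ → ℂ := fun x => (x + z) / (1 + conj z * x) with hT
    set H : ℂ → ℂ := fun x => (g (T x) - c) / (1 - conj c * g (T x)) with hH
    have hTb : ∀ x ∈ ball (0:ℂ) 1, T x ∈ ball (0:ℂ) 1 := by
      intro x hx
      rw [mem_ball_zero_iff] at hx ⊢
      have h1 := one_add_ne hz hx.le
      have h2 : 0 < ‖1 + conj z * x‖ := norm_pos_iff.mpr h1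
      simp only [hT]
      rw [norm_div, div_lt_one h2]
      have h3 := pick_identity z (-x)
      have h4 : 0 < (1 - ‖z‖ ^ 2) * (1 - ‖-x‖ ^ 2) := by
        apply mul_pos hz2
        rw [norm_neg]; nlinarith [norm_nonneg x]
      have h5 : ‖1 - conj z * -x‖ = ‖1 + conj z * x‖ := by congr 1; ring
      have h6 : ‖-x - z‖ = ‖x + z‖ := by rw [← norm_neg]; congr 1; ring
      rw [h5, h6] at h3
      nlinarith [norm_nonneg (x + z)]
    have hTd : ∀ x ∈ ball (0:ℂ) 1, HasDerivAt T ((1 * (1 + conj z * x) - (x + z) * conj z) /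
        (1 + conj z * x) ^ 2) x := by
      intro x hx
      rw [mem_ball_zero_iff] at hx
      have h1 : HasDerivAt (fun x : ℂ => x + z) 1 x := (hasDerivAt_id x).add_const z
      have h2 : HasDerivAt (fun x : ℂ => 1 + conj z * x) (conj z) x := by
        simpa using ((hasDerivAt_id x).const_mul (conj z)).const_add 1
      exact h1.div h2 (one_add_ne hz hx.le)
    have hgT : ∀ x ∈ ball (0:ℂ) 1, ‖g (T x)‖ ≤ 1 := fun x hx => hg1 _ (hTb x hx)
    have hgTd : ∀ x ∈ ball (0:ℂ) 1, HasDerivAt (fun x => g (T x)) (deriv g (T x) *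
        ((1 * (1 + conj z * x) - (x + z) * conj z) / (1 + conj z * x) ^ 2)) x := by
      intro x hx
      exact (hasDerivAt_of hg (hTb x hx)).comp x (hTd x hx)
    have hHd : ∀ x ∈ ball (0:ℂ) 1, DifferentiableAt ℂ H x := by
      intro x hx
      have h1 := (hgTd x hx).differentiableAt
      exact (h1.sub_const c).div ((h1.const_mul (conj c)).const_sub 1) (one_sub_ne hlt (hgT x hx))
    have h0b : (0:ℂ) ∈ ball (0:ℂ) 1 := by simp
    have hT0 : T 0 = z := by simp [hT]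
    have hH0 : H 0 = 0 := by simp [hH, hT0, ← hc]
    have hmaps : MapsTo H (ball 0 1) (closedBall (H 0) 1) := by
      intro x hx
      rw [hH0, mem_closedBall_zero_iff]
      exact moeb_le hlt (hgT x hx)
    have hder := norm_deriv_le_one_of_mapsTo_ball
      (fun x hx => (hHd x hx).differentiableWithinAt) hmaps one_pos
    have hHder : HasDerivAt H (deriv g z * (1 - ‖z‖ ^ 2) / (1 - ‖c‖ ^ 2)) 0 := by
      have h1 := hgTd 0 h0b
      have h2 := (h1.sub_const c).div ((h1.const_mul (conj c)).const_sub 1)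
        (one_sub_ne hlt (hgT 0 h0b))
      refine h2.congr_deriv ?_
      simp only [hT0, ← hc]
      have h3 : (1:ℂ) - conj c * c ≠ 0 := one_sub_ne hlt hlt.le
      have h4 : ((‖z‖:ℂ)) ^ 2 = conj z * z := by
        rw [mul_comm, Complex.mul_conj, Complex.normSq_eq_norm_sq]
        push_cast; ring
      have h5 : ((‖c‖:ℂ)) ^ 2 = conj c * c := by
        rw [mul_comm, Complex.mul_conj, Complex.normSq_eq_norm_sq]
        push_cast; ring
      rw [h4, h5]
      generalize hdc : (1:ℂ) - conj c * c = dc at *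
      field_simp
      simp
      ring
    rw [hHder.deriv] at hder
    have hc2 : 0 < 1 - ‖c‖ ^ 2 := by nlinarith [norm_nonneg c]
    have e1 : ‖deriv g z * (1 - (‖z‖:ℂ) ^ 2) / (1 - (‖c‖:ℂ) ^ 2)‖ =
        ‖deriv g z‖ * (1 - ‖z‖ ^ 2) / (1 - ‖c‖ ^ 2) := by
      have h6 : (1 - (‖z‖:ℂ) ^ 2) = ((1 - ‖z‖ ^ 2 : ℝ) : ℂ) := by push_cast; ring
      have h7 : (1 - (‖c‖:ℂ) ^ 2) = ((1 - ‖c‖ ^ 2 : ℝ) : ℂ) := by push_cast; ring
      rw [h6, h7, norm_div, norm_mul, Complex.norm_real, Complex.norm_real, Real.norm_eq_abs,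
        Real.norm_eq_abs, abs_of_pos hz2, abs_of_pos hc2]
    rw [e1, div_le_one hc2] at hder
    linarith
  · -- boundary case: `g` is constant
    have hmax : IsMaxOn (norm ∘ g) (ball 0 1) z := by
      intro x hx
      simp only [Function.comp_apply, mem_ofPred_eq]
      rw [heq]; exact hg1 x hx
    have hconst := Complex.eqOn_of_isPreconnected_of_isMaxOn_norm
      (convex_ball (0:ℂ) 1).isPreconnected isOpen_ball hg hzb hmax
    have hd0 : deriv g z = 0 := by
      have : g =ᶠ[nhds z] fun _ => g z := by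
        filter_upwards [isOpen_ball.mem_nhds hzb] with x hx
        exact hconst hx
      rw [this.deriv_eq]; simp
    rw [hd0, heq]; simp

/-- two-point form: lower bound for the modulus -/
theorem lower {g : ℂ → ℂ} (hg : DifferentiableOn ℂ g (ball 0 1))
    (hg1 : ∀ z ∈ ball (0:ℂ) 1, ‖g z‖ ≤ 1) {z : ℂ} (hz : ‖z‖ < 1) :
    (‖g 0‖ - ‖g z‖) ^ 2 * (1 - ‖z‖ ^ 2) ≤ ‖z‖ ^ 2 * (1 - ‖g 0‖ ^ 2) * (1 - ‖g z‖ ^ 2) := by
  have h0b : (0:ℂ) ∈ ball (0:ℂ) 1 := by simp
  have hzb : z ∈ ball (0:ℂ) 1 := by simpa using hz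
  rcases lt_or_eq_of_le (hg1 0 h0b) with hlt | heq
  · set c := g 0 with hc
    set H : ℂ → ℂ := fun x => (g x - c) / (1 - conj c * g x) with hH
    have hHd : DifferentiableOn ℂ H (ball 0 1) := by
      intro x hx
      have h1 := (hasDerivAt_of hg hx).differentiableAt
      exact ((h1.sub_const c).div ((h1.const_mul (conj c)).const_sub 1)
        (one_sub_ne hlt (hg1 x hx))).differentiableWithinAt
    have hH0 : H 0 = 0 := by simp [hH, ← hc]
    have hmaps : MapsTo H (ball 0 1) (closedBall (H 0) 1) := by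
      intro x hx
      rw [hH0, mem_closedBall_zero_iff]
      exact moeb_le hlt (hg1 x hx)
    have h1 := dist_le_div_mul_dist_of_mapsTo_ball hHd hmaps hzb
    rw [hH0, dist_zero_right, dist_zero_right, div_one, one_mul] at h1
    have h2 : 0 < ‖1 - conj c * g z‖ := norm_pos_iff.mpr (one_sub_ne hlt (hg1 z hzb))
    rw [hH] at h1
    simp only at h1
    rw [norm_div, div_le_iff₀ h2] at h1
    have h3 := pick_identity c (g z)
    have h4 : ‖g z - c‖ ^ 2 ≤ ‖z‖ ^ 2 * ‖1 - conj c * g z‖ ^ 2 := by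
      rw [← mul_pow]
      exact pow_le_pow_left₀ (norm_nonneg _) h1 2
    have h5 : (‖c‖ - ‖g z‖) ^ 2 ≤ ‖g z - c‖ ^ 2 := by
      have := abs_norm_sub_norm_le (g z) c
      rw [← sq_abs, abs_sub_comm]
      exact pow_le_pow_left₀ (abs_nonneg _) this 2
    have h6 : 0 ≤ 1 - ‖z‖ ^ 2 := by nlinarith [norm_nonneg z]
    have h7 := mul_le_mul_of_nonneg_right h5 h6
    nlinarith
  · have hmax : IsMaxOn (norm ∘ g) (ball 0 1) 0 := by
      intro x hx
      simp only [Function.comp_apply, mem_ofPred_eq]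
      rw [heq]; exact hg1 x hx
    have hconst := Complex.eqOn_of_isPreconnected_of_isMaxOn_norm
      (convex_ball (0:ℂ) 1).isPreconnected isOpen_ball hg h0b hmax
    have h1 : g z = g 0 := hconst hzb
    rw [h1, heq]; simp

end Pool.CSH.SP
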