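import Mathlib
import Pool.Agent.CSH.SPick

/-!
# The third coefficient: the analytic core

`P` is holomorphic on the disc; on the circle `‖z‖ = 1/5` the values `z P(z)` lie in the disc with
real diameter `[-m, 1/2]`.  Then `‖P'(0) + 2 P(0)^2‖ ≤ 50 m / (1 + 2 m)`.
-/

set_option autoImplicit false

open Complex Metric Set
open scoped ComplexConjugate

namespace Pool.CSH

theorem sp_zero {f : ℂ → ℂ} (hf : DifferentiableOn ℂ f (ball 0 1))
    (h1 : ∀ z ∈ ball (0:ℂ) 1, ‖f z‖ ≤ 1) : ‖deriv f 0‖ ≤ 1 - ‖f 0‖ ^ 2 := by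
  have h := SP.schwarz_pick hf h1 (z := 0) (by simp)
  simpa using h

/-- elementary identity behind the Moebius map of the disc `‖w - c‖ ≤ T` -/
theorem moeb_id (c T : ℝ) (w : ℂ) :
    ‖((T ^ 2 - c ^ 2 : ℝ) : ℂ) + (c : ℂ) * w‖ ^ 2 - T ^ 2 * ‖w‖ ^ 2 =
      (T ^ 2 - c ^ 2) * (T ^ 2 - ‖w - c‖ ^ 2) := by
  rw [Complex.sq_norm, Complex.sq_norm, Complex.sq_norm, normSq_apply, normSq_apply, normSq_apply]
  simp only [Complex.add_re, Complex.mul_re, Complex.sub_re, Complex.add_im, Complex.mul_im,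
    Complex.sub_im, Complex.ofReal_re, Complex.ofReal_im]
  ring

theorem coef_core {P : ℂ → ℂ} (hP : DifferentiableOn ℂ P (ball 0 1)) {m : ℝ} (hm : 0 < m)
    (h : ∀ z : ℂ, ‖z‖ = 1 / 5 → ‖z * P z - ((1 / 2 - m) / 2 : ℝ)‖ ≤ (1 / 2 + m) / 2) :
    ‖deriv P 0 + 2 * P 0 ^ 2‖ ≤ 50 * m / (1 + 2 * m) := by
  set c : ℝ := (1 / 2 - m) / 2 with hc
  set T : ℝ := (1 / 2 + m) / 2 with hT
  set S : ℝ := T ^ 2 - c ^ 2 with hS
  have hSm : S = m / 2 := by rw [hS, hT, hc]; ring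
  have hSpos : 0 < S := by rw [hSm]; positivity
  have hTpos : 0 < T := by rw [hT]; positivity
  have hcl : closure (ball (0:ℂ) (1 / 5)) = closedBall 0 (1 / 5) :=
    closure_ball _ (by norm_num)
  have hfr : frontier (ball (0:ℂ) (1 / 5)) = sphere 0 (1 / 5) :=
    frontier_ball _ (by norm_num)
  have hsub : closedBall (0:ℂ) (1 / 5) ⊆ ball 0 1 := closedBall_subset_ball (by norm_num)
  have hPd : ∀ z ∈ closedBall (0:ℂ) (1 / 5), DifferentiableAt ℂ P z := fun z hz =>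
    hP.differentiableAt (isOpen_ball.mem_nhds (hsub hz))
  -- the values on the closed disc
  have hW : ∀ z ∈ closedBall (0:ℂ) (1 / 5), ‖z * P z - (c : ℂ)‖ ≤ T := by
    intro z hz
    have hd : DiffContOnCl ℂ (fun z => z * P z - (c : ℂ)) (ball 0 (1 / 5)) := by
      apply DifferentiableOn.diffContOnCl
      rw [hcl]
      intro x hx
      exact ((differentiableAt_id.mul (hPd x hx)).sub_const _).differentiableWithinAt
    refine Complex.norm_le_of_forall_mem_frontier_norm_le isBounded_ball hd ?_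
      (by rw [hcl]; exact hz)
    intro x hx
    rw [hfr, mem_sphere_zero_iff_norm] at hx
    exact h x hx
  have hne : ∀ z ∈ closedBall (0:ℂ) (1 / 5), (S : ℂ) + (c : ℂ) * (z * P z) ≠ 0 := by
    intro z hz h0
    have h1 := moeb_id c T (z * P z)
    rw [← hS, h0] at h1
    have h2 := hW z hz
    have h3 : 0 ≤ T ^ 2 - ‖z * P z - c‖ ^ 2 := by nlinarith [norm_nonneg (z * P z - c)]
    have h4 : 0 ≤ S * (T ^ 2 - ‖z * P z - c‖ ^ 2) := mul_nonneg hSpos.le h3
    have h5 : T ^ 2 * ‖z * P z‖ ^ 2 ≤ 0 := by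
      rw [norm_zero] at h1; nlinarith
    have h6 : ‖z * P z‖ = 0 := by
      by_contra hne
      have : 0 < T ^ 2 * ‖z * P z‖ ^ 2 := by positivity
      linarith
    have h7 : z * P z = 0 := norm_eq_zero.1 h6
    rw [h7, mul_zero, add_zero] at h0
    have : S = 0 := by exact_mod_cast h0
    linarith
  set χ : ℂ → ℂ := fun z => (T : ℂ) * P z / ((S : ℂ) + (c : ℂ) * (z * P z)) with hχ
  have hχd : ∀ z ∈ closedBall (0:ℂ) (1 / 5), DifferentiableAt ℂ χ z := by
    intro z hz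
    exact ((hPd z hz).const_mul _).div
      (((differentiableAt_id.mul (hPd z hz)).const_mul _).const_add _) (hne z hz)
  have hχb : ∀ z ∈ closedBall (0:ℂ) (1 / 5), ‖χ z‖ ≤ 5 := by
    intro z hz
    have hd : DiffContOnCl ℂ χ (ball 0 (1 / 5)) := by
      apply DifferentiableOn.diffContOnCl
      rw [hcl]
      intro x hx
      exact (hχd x hx).differentiableWithinAt
    refine Complex.norm_le_of_forall_mem_frontier_norm_le isBounded_ball hd ?_
      (by rw [hcl]; exact hz)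
    intro x hx
    rw [hfr] at hx
    have hxc : x ∈ closedBall (0:ℂ) (1 / 5) := sphere_subset_closedBall hx
    rw [mem_sphere_zero_iff_norm] at hx
    have h1 := moeb_id c T (x * P x)
    rw [← hS] at h1
    have h2 := hW x hxc
    have h3 : 0 ≤ T ^ 2 - ‖x * P x - c‖ ^ 2 := by nlinarith [norm_nonneg (x * P x - c)]
    have h4 : 0 ≤ S * (T ^ 2 - ‖x * P x - c‖ ^ 2) := mul_nonneg hSpos.le h3
    have h5 : (T * ‖x * P x‖) ^ 2 ≤ ‖(S : ℂ) + (c : ℂ) * (x * P x)‖ ^ 2 := by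
      rw [mul_pow]; linarith
    have h6 : T * ‖x * P x‖ ≤ ‖(S : ℂ) + (c : ℂ) * (x * P x)‖ :=
      le_of_sq_le_sq h5 (norm_nonneg _)
    have h7 : 0 < ‖(S : ℂ) + (c : ℂ) * (x * P x)‖ := norm_pos_iff.2 (hne x hxc)
    rw [hχ]
    simp only
    rw [norm_div, norm_mul, Complex.norm_real, Real.norm_eq_abs, abs_of_pos hTpos,
      div_le_iff₀ h7]
    rw [norm_mul, hx] at h6
    linarith
  -- Schwarz-Pick at the centre for `χ (ζ / 5) / 5`
  set f : ℂ → ℂ := fun ζ => χ (ζ / 5) / 5 with hf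
  have hmem : ∀ ζ ∈ ball (0:ℂ) 1, ζ / 5 ∈ closedBall (0:ℂ) (1 / 5) := by
    intro ζ hζ
    rw [mem_ball_zero_iff] at hζ
    rw [mem_closedBall_zero_iff, norm_div]
    simp only [RCLike.norm_ofNat]
    linarith
  have hfd : DifferentiableOn ℂ f (ball 0 1) := by
    intro ζ hζ
    have h1 := hχd _ (hmem ζ hζ)
    have h2 : DifferentiableAt ℂ (fun ζ : ℂ => ζ / 5) ζ := differentiableAt_id.div_const 5
    exact ((h1.comp ζ h2).div_const 5).differentiableWithinAt
  have hf1 : ∀ ζ ∈ ball (0:ℂ) 1, ‖f ζ‖ ≤ 1 := by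
    intro ζ hζ
    have h1 := hχb _ (hmem ζ hζ)
    simp only [hf]
    rw [norm_div]
    simp only [RCLike.norm_ofNat]
    linarith
  have key := sp_zero hfd hf1
  have h0c : (0:ℂ) ∈ closedBall (0:ℂ) (1 / 5) := by simp
  have hS0 : (S : ℂ) ≠ 0 := by exact_mod_cast hSpos.ne'
  have hPder : HasDerivAt P (deriv P 0) 0 := (hPd 0 h0c).hasDerivAt
  have hχder : HasDerivAt χ ((T : ℂ) * (S * deriv P 0 - c * P 0 ^ 2) / (S : ℂ) ^ 2) 0 := by
    have h1 : HasDerivAt (fun z => (T : ℂ) * P z) ((T : ℂ) * deriv P 0) 0 := hPder.const_mul _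
    have h2 : HasDerivAt (fun z => z * P z) (1 * P 0 + 0 * deriv P 0) 0 :=
      (hasDerivAt_id (0:ℂ)).mul hPder
    have h3 : HasDerivAt (fun z => (S : ℂ) + (c : ℂ) * (z * P z))
        ((c : ℂ) * (1 * P 0 + 0 * deriv P 0)) 0 := (h2.const_mul (c : ℂ)).const_add _
    have h4 := h1.div h3 (hne 0 h0c)
    refine h4.congr_deriv ?_
    simp only [zero_mul, mul_zero, add_zero]
    field_simp
  have hfder : HasDerivAt f ((T : ℂ) * (S * deriv P 0 - c * P 0 ^ 2) / (S : ℂ) ^ 2 / 25) 0 := by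
    have h1 : HasDerivAt (fun ζ : ℂ => ζ / 5) (1 / 5) 0 := (hasDerivAt_id (0:ℂ)).div_const 5
    have h2 : HasDerivAt χ ((T : ℂ) * (S * deriv P 0 - c * P 0 ^ 2) / (S : ℂ) ^ 2)
        ((fun ζ : ℂ => ζ / 5) 0) := by simpa using hχder
    have h3 := (h2.comp (0:ℂ) h1).div_const 5
    refine h3.congr_deriv ?_
    ring
  rw [hfder.deriv] at key
  have hf0 : f 0 = (T : ℂ) * P 0 / S / 5 := by
    simp [hf, hχ]
  rw [hf0] at key
  -- real form
  have e1 : (T : ℂ) * (S * deriv P 0 - c * P 0 ^ 2) / (S : ℂ) ^ 2 / 25 =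
      ((T / S : ℝ) : ℂ) * (deriv P 0 - (c / S : ℝ) * P 0 ^ 2) / 25 := by
    push_cast
    field_simp
  have hTS : 0 < T / S := div_pos hTpos hSpos
  rw [e1, norm_div, norm_mul, Complex.norm_real, Real.norm_eq_abs, abs_of_pos hTS, norm_div,
    norm_div, norm_mul, Complex.norm_real, Complex.norm_real, Real.norm_eq_abs, Real.norm_eq_abs,
    abs_of_pos hTpos, abs_of_pos hSpos] at key
  simp only [RCLike.norm_ofNat] at key
  set A := ‖P 0‖ with hA
  set X := ‖deriv P 0 - (c / S : ℝ) * P 0 ^ 2‖ with hX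
  have htri : ‖deriv P 0 + 2 * P 0 ^ 2‖ ≤ X + (T / S) * A ^ 2 := by
    have e2 : deriv P 0 + 2 * P 0 ^ 2 =
        (deriv P 0 - (c / S : ℝ) * P 0 ^ 2) + ((T / S : ℝ) : ℂ) * P 0 ^ 2 := by
      have e3 : (T / S : ℝ) = c / S + 2 := by
        rw [eq_comm, div_add' _ _ _ hSpos.ne', hSm, hT, hc]
        congr 1
        ring
      rw [e3]
      push_cast
      ring
    rw [e2]
    refine (norm_add_le _ _).trans ?_
    rw [norm_mul, norm_pow, Complex.norm_real, Real.norm_eq_abs, abs_of_pos hTS]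
  have h25 : X ≤ 25 * (S / T) - (T / S) * A ^ 2 := by
    have h8 : (T / S) * X ≤ 25 - (T / S) ^ 2 * A ^ 2 := by
      have h9 : (T * A / S / 5) ^ 2 = (T / S) ^ 2 * A ^ 2 / 25 := by ring
      rw [h9] at key
      linarith
    have h10 : X = (S / T) * ((T / S) * X) := by
      field_simp
    rw [h10]
    have h11 := mul_le_mul_of_nonneg_left h8 (div_pos hSpos hTpos).le
    refine h11.trans (le_of_eq ?_)
    field_simp
  have hfin : 25 * (S / T) = 50 * m / (1 + 2 * m) := by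
    rw [hSm, hT]
    field_simp
    ring
  linarith

/-- the polynomial inequality in `x = ‖ω(z)‖`, `b = ‖ω(0)‖` -/
theorem poly_ineq {x b : ℝ} (hx0 : 0 ≤ x) (hx1 : x ≤ 1) (hb0 : 0 ≤ b) (hb1 : b ≤ 1)
    (h : 5 * b - 1 ≤ (5 - b) * x) :
    (5 - x) * (-(23 / 5) + 32 / 5 * b - 4 / 5 * b ^ 2) ≤ x * (5 * x - 1) := by
  have hb5 : 0 < 5 - b := by linarith
  -- `x = x0 + d` with `x0 = (5 b - 1) / (5 - b)`
  set x0 : ℝ := (5 * b - 1) / (5 - b) with hx0'
  have hx0e : (5 - b) * x0 = 5 * b - 1 := by rw [hx0']; field_simp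
  have hd : x0 ≤ x := by
    rw [hx0', div_le_iff₀ hb5]; linarith
  have hx01 : x0 ≤ 1 := hd.trans hx1
  set G : ℝ := -(23 / 5) + 32 / 5 * b - 4 / 5 * b ^ 2 with hG
  by_cases hcase : b ≤ 4 / 5
  · -- `G ≤ 1/125`-region: crude
    have hG1 : G ≤ 32 / 5 * (4 / 5) - 4 / 5 * (4 / 5) ^ 2 - 23 / 5 := by
      rw [hG]; nlinarith
    by_cases hb2 : b ≤ 7 / 10
    · have hG2 : G ≤ -(1 / 10) := by rw [hG]; nlinarith
      nlinarith
    · push Not at hb2
      have hx2 : 1 / 2 ≤ x := by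
        have : (5 - b) * x ≤ (5 - 7 / 10) * x := by nlinarith
        nlinarith
      nlinarith
  · push Not at hcase
    have hx00 : 7 / 10 ≤ x0 := by
      rw [hx0', le_div_iff₀ hb5]; linarith
    have hG0 : 0 ≤ G := by rw [hG]; nlinarith
    -- monotone in `x`
    have hmono : x0 * (5 * x0 - 1) - (5 - x0) * G ≤ x * (5 * x - 1) - (5 - x) * G := by
      nlinarith
    have hval : 0 ≤ (5 - b) ^ 2 * (x0 * (5 * x0 - 1) - (5 - x0) * G) := by
      have e : (5 - b) ^ 2 * (x0 * (5 * x0 - 1) - (5 - x0) * G) =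
          ((5 - b) * x0) * (5 * ((5 - b) * x0) - (5 - b)) -
            (5 * (5 - b) - (5 - b) * x0) * (5 - b) * G := by ring
      rw [e, hx0e, hG]
      have e2 : (5 * b - 1) * (5 * (5 * b - 1) - (5 - b)) -
          (5 * (5 - b) - (5 * b - 1)) * (5 - b) *
            (-(23 / 5) + 32 / 5 * b - 4 / 5 * b ^ 2) =
          (1 - b) * (608 - 3248 / 5 * b + 584 / 5 * b ^ 2 - 8 * b ^ 3) := by ring
      rw [e2]
      have : 0 ≤ 608 - 3248 / 5 * b + 584 / 5 * b ^ 2 - 8 * b ^ 3 := by nlinarith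
      exact mul_nonneg (by linarith) this
    have hpos : 0 < (5 - b) ^ 2 := by positivity
    have := nonneg_of_mul_nonneg_right hval hpos
    linarith

end Pool.CSH
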