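import Mathlib
import Pool.Agent.CSH.Third

set_option autoImplicit false

open Complex Metric Set
open scoped ComplexConjugate

namespace Pool.CSH

theorem third_core {P ω : ℂ → ℂ} (hP : DifferentiableOn ℂ P (ball 0 1))
    (hω : DifferentiableOn ℂ ω (ball 0 1)) (hω1 : ∀ z ∈ ball (0:ℂ) 1, ‖ω z‖ ≤ 1)
    (h : ∀ z : ℂ, ‖z‖ = 1 / 5 → ‖(24 / 25 : ℝ) * (z * P z) - (1 / 25 : ℝ) -
      ((24 / 25 : ℝ) : ℂ) * (((‖ω z‖ ^ 2 : ℝ) : ℂ) + z * deriv ω z * conj (ω z)) /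
        ((25 - ‖ω z‖ ^ 2 : ℝ) : ℂ)‖ ≤ 2 / 5) :
    ‖deriv P 0 + 2 * P 0 ^ 2‖ ≤ 17 - 8 * ‖ω 0‖ + ‖ω 0‖ ^ 2 := by
  set b : ℝ := ‖ω 0‖ with hb
  have hb0 : 0 ≤ b := norm_nonneg _
  have hb1 : b ≤ 1 := hω1 0 (by simp)
  set m : ℝ := (17 - 8 * b + b ^ 2) / 30 with hm
  have hm3 : 1 / 3 ≤ m := by rw [hm]; nlinarith
  have hmpos : 0 < m := by linarith
  have hmain : ‖deriv P 0 + 2 * P 0 ^ 2‖ ≤ 50 * m / (1 + 2 * m) := by
    apply coef_core hP hmpos
    intro z hz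
    have hzb : z ∈ ball (0:ℂ) 1 := by rw [mem_ball_zero_iff, hz]; norm_num
    have hz1 : ‖z‖ < 1 := by rw [hz]; norm_num
    set x : ℝ := ‖ω z‖ with hx
    have hx0 : 0 ≤ x := norm_nonneg _
    have hx1 : x ≤ 1 := hω1 z hzb
    -- the lower bound for `x`
    have hlow : 5 * b - 1 ≤ (5 - b) * x := by
      have h1 := SP.lower hω hω1 hz1
      rw [← hb, ← hx, hz] at h1
      by_contra hcon
      push Not at hcon
      have h2 : 0 < (5 * b - 1) - (5 - b) * x := by linarith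
      have h3 : (5 + b) * x < 5 * b + 1 := by nlinarith
      nlinarith [mul_pos h2 (sub_pos.2 h3)]
    -- Schwarz-Pick for the derivative
    have hder := SP.schwarz_pick hω hω1 hz1
    rw [← hx, hz] at hder
    have hder' : ‖z * deriv ω z * conj (ω z)‖ ≤ 5 / 24 * (x * (1 - x ^ 2)) := by
      rw [norm_mul, norm_mul, RCLike.norm_conj, ← hx, hz]
      have h2 : ‖deriv ω z‖ ≤ 25 / 24 * (1 - x ^ 2) := by linarith
      nlinarith [mul_le_mul_of_nonneg_right h2 hx0]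
    have h25 : 0 < 25 - x ^ 2 := by nlinarith
    -- split
    set D : ℂ := z * deriv ω z * conj (ω z) with hD
    have hsplit : ((24 / 25 : ℝ) : ℂ) * (z * P z - ((1 / 2 - m) / 2 : ℝ)) =
        ((24 / 25 : ℝ) * (z * P z) - (1 / 25 : ℝ) -
          ((24 / 25 : ℝ) : ℂ) * (((x ^ 2 : ℝ) : ℂ) + D) / ((25 - x ^ 2 : ℝ) : ℂ)) +
        (((1 / 25 + 24 / 25 * x ^ 2 / (25 - x ^ 2) - 24 / 25 * ((1 / 2 - m) / 2) : ℝ) : ℂ) +
          ((24 / 25 / (25 - x ^ 2) : ℝ) : ℂ) * D) := by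
      have h3 : ((25 : ℂ) - (x : ℂ) ^ 2) ≠ 0 := by
        have : ((25 - x ^ 2 : ℝ) : ℂ) ≠ 0 := by exact_mod_cast h25.ne'
        simpa using this
      push_cast
      field_simp
      ring
    have hn : ‖((24 / 25 : ℝ) : ℂ) * (z * P z - ((1 / 2 - m) / 2 : ℝ))‖ ≤
        2 / 5 + (|1 / 25 + 24 / 25 * x ^ 2 / (25 - x ^ 2) - 24 / 25 * ((1 / 2 - m) / 2)| +
          24 / 25 / (25 - x ^ 2) * (5 / 24 * (x * (1 - x ^ 2)))) := by
      rw [hsplit]
      refine (norm_add_le _ _).trans (add_le_add (h z hz) ?_)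
      refine (norm_add_le _ _).trans (add_le_add ?_ ?_)
      · rw [Complex.norm_real, Real.norm_eq_abs]
      · have h4 : 0 < 24 / 25 / (25 - x ^ 2) := by positivity
        rw [norm_mul, Complex.norm_real, Real.norm_eq_abs, abs_of_pos h4]
        exact mul_le_mul_of_nonneg_left hder' h4.le
    rw [norm_mul, Complex.norm_real, Real.norm_eq_abs, abs_of_pos (by norm_num : (0:ℝ) < 24 / 25)]
      at hn
    have hpoly := poly_ineq hx0 hx1 hb0 hb1 hlow
    -- reduce the two real inequalities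
    have hup : 24 / 25 * x ^ 2 / (25 - x ^ 2) + 24 / 25 / (25 - x ^ 2) * (5 / 24 * (x * (1 - x ^ 2)))
        = x * (5 * x + 1) / (25 * (5 + x)) := by
      have e5 : (5 + x) ≠ 0 := by positivity
      have e6 : (25 - x ^ 2) = (5 - x) * (5 + x) := by ring
      have e7 : (5 - x) ≠ 0 := by linarith [hx1] |> fun (h : 0 < 5 - x) => h.ne'
      rw [e6]
      field_simp
      ring
    have hlo : 24 / 25 * x ^ 2 / (25 - x ^ 2) - 24 / 25 / (25 - x ^ 2) * (5 / 24 * (x * (1 - x ^ 2)))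
        = x * (5 * x - 1) / (25 * (5 - x)) := by
      have e5 : (5 + x) ≠ 0 := by positivity
      have e6 : (25 - x ^ 2) = (5 - x) * (5 + x) := by ring
      have e7 : (5 - x) ≠ 0 := by linarith [hx1] |> fun (h : 0 < 5 - x) => h.ne'
      rw [e6]
      field_simp
      ring
    have hup1 : x * (5 * x + 1) / (25 * (5 + x)) ≤ 1 / 25 := by
      rw [div_le_iff₀ (by positivity)]
      nlinarith
    have h5x : 0 < 25 * (5 - x) := by linarith
    have hlo1 : 9 / 25 - 24 / 25 * m ≤ x * (5 * x - 1) / (25 * (5 - x)) := by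
      rw [le_div_iff₀ h5x]
      have e8 : (9 / 25 - 24 / 25 * m) * (25 * (5 - x)) =
          (5 - x) * (-(23 / 5) + 32 / 5 * b - 4 / 5 * b ^ 2) := by rw [hm]; ring
      rw [e8]; exact hpoly
    have habs : |1 / 25 + 24 / 25 * x ^ 2 / (25 - x ^ 2) - 24 / 25 * ((1 / 2 - m) / 2)| +
          24 / 25 / (25 - x ^ 2) * (5 / 24 * (x * (1 - x ^ 2))) ≤ 24 / 25 * ((1 / 2 + m) / 2) - 2 / 5 := by
      rcases abs_cases (1 / 25 + 24 / 25 * x ^ 2 / (25 - x ^ 2) - 24 / 25 * ((1 / 2 - m) / 2)) with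
        ⟨h6, _⟩ | ⟨h6, _⟩
      · rw [h6]; linarith
      · rw [h6]; linarith
    linarith
  refine hmain.trans ?_
  have h1 : 50 * m / (1 + 2 * m) ≤ 30 * m := by
    rw [div_le_iff₀ (by positivity)]
    nlinarith
  have h2 : 30 * m = 17 - 8 * b + b ^ 2 := by rw [hm]; ring
  linarith

end Pool.CSH
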