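import Mathlib
import Pool.Agent.CSH.Psi
import Pool.Agent.CSH.Third2

/-!
# The third coefficient from `‖Psi‖ ≤ 2`
-/

set_option autoImplicit false

open Complex Metric Set
open scoped ComplexConjugate

namespace Pool.CSH

theorem third_of_psi {L R : ℂ → ℂ} (dL : DifferentiableOn ℂ L (ball 0 1))
    (dR : DifferentiableOn ℂ R (ball 0 1)) (hR : ∀ z ∈ ball (0:ℂ) 1, 0 < (R z).im)
    (hL : ∀ z ∈ ball (0:ℂ) 1, deriv L z ≠ 0)
    (hΨ : ∀ x ∈ ball (0:ℂ) 1, ‖Psi L R x‖ ≤ 2) :
    ‖deriv (deriv (deriv L)) 0‖ ≤ 38 * ‖deriv L 0‖ := by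
  have h0b : (0:ℂ) ∈ ball (0:ℂ) 1 := by simp
  have hop : IsOpen (ball (0:ℂ) 1) := isOpen_ball
  have dL1 : DifferentiableOn ℂ (deriv L) (ball 0 1) := dL.deriv hop
  have dL2 : DifferentiableOn ℂ (deriv (deriv L)) (ball 0 1) := dL1.deriv hop
  set a : ℂ := R 0 with ha
  have haim : 0 < a.im := hR 0 h0b
  have haa : a - conj a ≠ 0 := by
    intro h
    have := congrArg Complex.im h
    simp at this
    linarith
  have hden : ∀ z ∈ ball (0:ℂ) 1, R z - conj a ≠ 0 := by
    intro z hz h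
    have := congrArg Complex.im h
    simp at this
    linarith [hR z hz]
  have hden' : ∀ z ∈ ball (0:ℂ) 1, conj (R z) - a ≠ 0 := by
    intro z hz h
    have := congrArg Complex.im h
    simp at this
    linarith [hR z hz]
  have hRR : ∀ z ∈ ball (0:ℂ) 1, R z - conj (R z) ≠ 0 := by
    intro z hz h
    have := congrArg Complex.im h
    simp at this
    linarith [hR z hz]
  set B : ℂ → ℂ := fun z => (R z - a) / (R z - conj a) with hB
  have hBd : DifferentiableOn ℂ B (ball 0 1) := (dR.sub_const a).div (dR.sub_const _) hden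
  have hB0 : B 0 = 0 := by simp [hB, ← ha]
  have hBn : ∀ z ∈ ball (0:ℂ) 1, ‖B z‖ < 1 := by
    intro z hz
    have h1 : 0 < ‖R z - conj a‖ := norm_pos_iff.2 (hden z hz)
    simp only [hB]
    rw [norm_div, div_lt_one h1]
    apply lt_of_pow_lt_pow_left₀ 2 h1.le
    rw [Complex.sq_norm, Complex.sq_norm, normSq_apply, normSq_apply]
    simp only [sub_re, sub_im, conj_re, conj_im]
    nlinarith [mul_pos (hR z hz) haim]
  have h1B : ∀ z ∈ ball (0:ℂ) 1, 1 - B z ≠ 0 := by
    intro z hz h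
    have h2 := hBn z hz
    have h3 : B z = 1 := by linear_combination -h
    rw [h3] at h2
    simp at h2
  have hBB : ∀ z ∈ ball (0:ℂ) 1, 1 - B z * conj (B z) ≠ 0 := by
    intro z hz h
    have h2 := hBn z hz
    have h3 : B z * conj (B z) = 1 := by linear_combination -h
    have h4 : ‖B z‖ * ‖B z‖ = 1 := by
      have := congrArg norm h3
      rwa [norm_mul, RCLike.norm_conj, norm_one] at this
    nlinarith [norm_nonneg (B z)]
  set ω : ℂ → ℂ := dslope B 0 with hω
  have hωd : DifferentiableOn ℂ ω (ball 0 1) :=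
    (differentiableOn_dslope (isOpen_ball.mem_nhds h0b)).mpr hBd
  have hω1 : ∀ z ∈ ball (0:ℂ) 1, ‖ω z‖ ≤ 1 := by
    intro z hz
    have hmaps : MapsTo B (ball 0 1) (closedBall (B 0) 1) := by
      intro x hx
      rw [hB0, mem_closedBall_zero_iff]
      exact (hBn x hx).le
    have := norm_dslope_le_div_of_mapsTo_ball hBd hmaps hz
    simpa using this
  have hBω : ∀ z, B z = z * ω z := by
    intro z
    have h2 := sub_smul_dslope B 0 z
    rw [hB0, sub_zero, sub_zero, smul_eq_mul] at h2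
    exact h2.symm
  have hωder : ∀ z ∈ ball (0:ℂ) 1, HasDerivAt ω (deriv ω z) z := fun z hz =>
    (hωd.differentiableAt (hop.mem_nhds hz)).hasDerivAt
  have hBder : ∀ z ∈ ball (0:ℂ) 1, deriv B z = ω z + z * deriv ω z := by
    intro z hz
    have h2 : B = fun z => z * ω z := funext hBω
    have h3 := (hasDerivAt_id z).mul (hωder z hz)
    rw [h2]
    have h4 : HasDerivAt (fun z => z * ω z) (ω z + z * deriv ω z) z := by
      refine h3.congr_deriv ?_
      simp
    exact h4.deriv
  have hB1 : deriv B 0 = ω 0 := by rw [hBder 0 h0b]; simp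
  have hB2 : deriv (deriv B) 0 = 2 * deriv ω 0 := by
    have h2 : deriv B =ᶠ[nhds 0] fun z => ω z + z * deriv ω z := by
      filter_upwards [hop.mem_nhds h0b] with z hz using hBder z hz
    rw [h2.deriv_eq]
    have hω2 : HasDerivAt (deriv ω) (deriv (deriv ω) 0) 0 :=
      ((hωd.deriv hop).differentiableAt (hop.mem_nhds h0b)).hasDerivAt
    have h3 := (hωder 0 h0b).add ((hasDerivAt_id (0:ℂ)).mul hω2)
    have h4 : HasDerivAt (fun z => ω z + z * deriv ω z) (2 * deriv ω 0) 0 := by
      refine h3.congr_deriv ?_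
      simp
      ring
    exact h4.deriv
  -- explicit derivative of `B`
  have hBexp : ∀ z ∈ ball (0:ℂ) 1,
      deriv B z = deriv R z * (a - conj a) / (R z - conj a) ^ 2 := by
    intro z hz
    have h2 : HasDerivAt R (deriv R z) z := (dR.differentiableAt (hop.mem_nhds hz)).hasDerivAt
    have h3 := (h2.sub_const a).div (h2.sub_const (conj a)) (hden z hz)
    have h4 : HasDerivAt B (deriv R z * (a - conj a) / (R z - conj a) ^ 2) z := by
      refine h3.congr_deriv ?_
      congr 1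
      ring
    exact h4.deriv
  -- the function `P`
  set P : ℂ → ℂ := fun z => deriv (deriv L) z / (2 * deriv L z) + deriv B z / (1 - B z) with hP
  have hPd : DifferentiableOn ℂ P (ball 0 1) := by
    apply DifferentiableOn.add
    · exact dL2.div (dL1.const_mul 2) (fun z hz => mul_ne_zero two_ne_zero (hL z hz))
    · exact (hBd.deriv hop).div (hBd.const_sub 1) h1B
  -- the identity for `Psi`
  have hpsi : ∀ z ∈ ball (0:ℂ) 1, Psi L R z = ((1 - ‖z‖ ^ 2 : ℝ) : ℂ) *
      (P z - deriv B z * conj (B z) / (1 - B z * conj (B z))) - conj z := by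
    intro z hz
    have e1 : deriv R z / (2 * I * ((R z).im : ℂ)) =
        deriv B z / (1 - B z) - deriv B z * conj (B z) / (1 - B z * conj (B z)) := by
      have e2 : 2 * I * ((R z).im : ℂ) = R z - conj (R z) := by
        rw [Complex.sub_conj]; push_cast; ring
      have e3 : 1 - B z = (a - conj a) / (R z - conj a) := by
        simp only [hB]
        rw [eq_div_iff (hden z hz), sub_mul, div_mul_cancel₀ _ (hden z hz)]
        ring
      have e4 : conj (B z) = (conj (R z) - conj a) / (conj (R z) - a) := by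
        simp [hB]
      have e5 : 1 - B z * conj (B z) =
          -((R z - conj (R z)) * (a - conj a)) / ((R z - conj a) * (conj (R z) - a)) := by
        rw [e4]
        simp only [hB]
        have := hden z hz
        have := hden' z hz
        field_simp
        ring
      rw [e2, e3, e5, e4, hBexp z hz]
      have h5 := hden z hz
      have h6 := hden' z hz
      have h7 := hRR z hz
      have h8 := haa
      generalize conj (R z) = Rb at *
      generalize conj a = ab at *
      generalize R z = Rz at *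
      generalize deriv R z = Rd at *
      field_simp
      ring
    unfold Psi
    rw [e1]
    simp only [hP]
    ring
  -- the circle condition
  have hcirc : ∀ z : ℂ, ‖z‖ = 1 / 5 → ‖(24 / 25 : ℝ) * (z * P z) - (1 / 25 : ℝ) -
      ((24 / 25 : ℝ) : ℂ) * (((‖ω z‖ ^ 2 : ℝ) : ℂ) + z * deriv ω z * conj (ω z)) /
        ((25 - ‖ω z‖ ^ 2 : ℝ) : ℂ)‖ ≤ 2 / 5 := by
    intro z hz
    have hzb : z ∈ ball (0:ℂ) 1 := by rw [mem_ball_zero_iff, hz]; norm_num
    have hzz : z * conj z = (1 / 25 : ℝ) := by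
      rw [Complex.mul_conj, Complex.normSq_eq_norm_sq, hz]; norm_num
    have hww : ((‖ω z‖ ^ 2 : ℝ) : ℂ) = ω z * conj (ω z) := by
      rw [Complex.mul_conj, Complex.normSq_eq_norm_sq]
    have h25 : ((25 - ‖ω z‖ ^ 2 : ℝ) : ℂ) ≠ 0 := by
      have := hω1 z hzb
      have h2 : 0 < 25 - ‖ω z‖ ^ 2 := by nlinarith [norm_nonneg (ω z)]
      exact_mod_cast h2.ne'
    have h25' : ((25 - ‖ω z‖ ^ 2 : ℝ) : ℂ) = 25 - ω z * conj (ω z) := by
      rw [← hww]; push_cast; ring
    have e1 : 1 - B z * conj (B z) = (25 - ω z * conj (ω z)) / 25 := by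
      rw [hBω z, map_mul]
      have : z * ω z * (conj z * conj (ω z)) = (z * conj z) * (ω z * conj (ω z)) := by ring
      rw [this, hzz]; push_cast; ring
    have e2 : z * (deriv B z * conj (B z)) =
        (1 / 25) * (ω z * conj (ω z) + z * deriv ω z * conj (ω z)) := by
      rw [hBder z hzb, hBω z, map_mul]
      have : z * ((ω z + z * deriv ω z) * (conj z * conj (ω z))) =
        (z * conj z) * (ω z * conj (ω z) + z * deriv ω z * conj (ω z)) := by ring
      rw [this, hzz]; push_cast; ring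
    have e3 : (24 / 25 : ℝ) * (z * P z) - (1 / 25 : ℝ) -
        ((24 / 25 : ℝ) : ℂ) * (((‖ω z‖ ^ 2 : ℝ) : ℂ) + z * deriv ω z * conj (ω z)) /
        ((25 - ‖ω z‖ ^ 2 : ℝ) : ℂ) = z * Psi L R z := by
      rw [hpsi z hzb, hz, h25', hww, e1]
      rw [h25'] at h25
      have e4 : z * ((((1 - (1 / 5) ^ 2 : ℝ) : ℂ)) * (P z - deriv B z * conj (B z) /
          ((25 - ω z * conj (ω z)) / 25)) - conj z) =
          (24 / 25) * (z * P z) - (24 / 25) * ((z * (deriv B z * conj (B z))) * 25 /
            (25 - ω z * conj (ω z))) - z * conj z := by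
        push_cast
        field_simp
        ring
      rw [e4, e2, hzz]
      push_cast
      field_simp
      ring
    rw [e3, norm_mul, hz]
    have := hΨ z hzb
    linarith
  have hcore := third_core hPd hωd hω1 hcirc
  -- `‖P 0‖ ≤ 2`
  have hP0 : ‖P 0‖ ≤ 2 := by
    have h2 := hΨ 0 h0b
    rw [hpsi 0 h0b, hB0] at h2
    simpa using h2
  have hω' : ‖deriv ω 0‖ ≤ 1 - ‖ω 0‖ ^ 2 := sp_zero hωd hω1
  -- the third derivative
  have hL2 : ∀ z ∈ ball (0:ℂ) 1, deriv (deriv L) z =
      2 * deriv L z * (P z - deriv B z / (1 - B z)) := by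
    intro z hz
    have h2 := hL z hz
    simp only [hP]
    field_simp
    ring
  have hQ : HasDerivAt (fun z => deriv B z / (1 - B z)) (2 * deriv ω 0 + ω 0 ^ 2) 0 := by
    have h2 : HasDerivAt (deriv B) (deriv (deriv B) 0) 0 :=
      ((hBd.deriv hop).differentiableAt (hop.mem_nhds h0b)).hasDerivAt
    have h3 : HasDerivAt B (deriv B 0) 0 := (hBd.differentiableAt (hop.mem_nhds h0b)).hasDerivAt
    have h4 := h2.div (h3.const_sub 1) (h1B 0 h0b)
    refine h4.congr_deriv ?_
    rw [hB0, hB1, hB2]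
    ring
  have hPder : HasDerivAt P (deriv P 0) 0 := (hPd.differentiableAt (hop.mem_nhds h0b)).hasDerivAt
  have hL1der : HasDerivAt (deriv L) (deriv (deriv L) 0) 0 :=
    (dL1.differentiableAt (hop.mem_nhds h0b)).hasDerivAt
  have hL3 : deriv (deriv (deriv L)) 0 = 2 * deriv L 0 *
      ((deriv P 0 + 2 * P 0 ^ 2) - 4 * (P 0 * ω 0) + ω 0 ^ 2 - 2 * deriv ω 0) := by
    have h2 : deriv (deriv L) =ᶠ[nhds 0]
        fun z => 2 * deriv L z * (P z - deriv B z / (1 - B z)) := by
      filter_upwards [hop.mem_nhds h0b] with z hz using hL2 z hz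
    rw [h2.deriv_eq]
    have h3 := (hL1der.const_mul 2).mul (hPder.sub hQ)
    have h4 := h3.deriv
    have h5 : deriv (deriv L) 0 = 2 * deriv L 0 * (P 0 - ω 0) := by
      rw [hL2 0 h0b, hB0, hB1]; ring
    have e0 : (fun z => 2 * deriv L z * (P z - deriv B z / (1 - B z))) =
        (fun y => 2 * deriv L y) * (P - fun z => deriv B z / (1 - B z)) := by
      funext z; simp
    rw [e0, h4]
    simp only [Pi.sub_apply]
    rw [h5, hB0, hB1]
    ring
  rw [hL3, norm_mul, norm_mul]
  simp only [RCLike.norm_ofNat]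
  have hb0 : 0 ≤ ‖ω 0‖ := norm_nonneg _
  have htri : ‖(deriv P 0 + 2 * P 0 ^ 2) - 4 * (P 0 * ω 0) + ω 0 ^ 2 - 2 * deriv ω 0‖ ≤
      ‖deriv P 0 + 2 * P 0 ^ 2‖ + 4 * (‖P 0‖ * ‖ω 0‖) + ‖ω 0‖ ^ 2 + 2 * ‖deriv ω 0‖ := by
    refine (norm_sub_le _ _).trans (add_le_add ((norm_add_le _ _).trans (add_le_add
      ((norm_sub_le _ _).trans (add_le_add le_rfl ?_)) ?_)) ?_)
    · rw [norm_mul, norm_mul]; simp
    · rw [norm_pow]
    · rw [norm_mul]; simp
  have h19 : ‖(deriv P 0 + 2 * P 0 ^ 2) - 4 * (P 0 * ω 0) + ω 0 ^ 2 - 2 * deriv ω 0‖ ≤ 19 := by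
    have h6 : ‖P 0‖ * ‖ω 0‖ ≤ 2 * ‖ω 0‖ := mul_le_mul_of_nonneg_right hP0 hb0
    linarith
  nlinarith [norm_nonneg (deriv L 0)]

end Pool.CSH
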