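import Mathlib
import Pool.Agent.CSH.A2
import Pool.Agent.CSH.Third3

set_option autoImplicit false

open Complex Metric Set
open scoped ComplexConjugate

namespace Pool.CSH

/-- Sharp third coefficient for achronal surfaces. -/
theorem c3_bound {L F G R : ℂ → ℂ} (hS : Surf (ball 0 1) L F G R)
    (hK : Achr (ball 0 1) L F G) :
    ‖iteratedDeriv 3 L 0‖ / (Nat.factorial 3 : ℝ) ≤ 19 / 3 * ‖deriv L 0‖ := by
  have h := third_of_psi hS.dL hS.dR hS.hR hS.hL (psi_le_two hS hK)
  have e : iteratedDeriv 3 L = deriv (deriv (deriv L)) := by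
    rw [iteratedDeriv_succ, iteratedDeriv_succ, iteratedDeriv_one]
  rw [e]
  have e2 : (Nat.factorial 3 : ℝ) = 6 := by norm_num [Nat.factorial]
  rw [e2]
  rw [div_le_iff₀ (by norm_num)]
  linarith

end Pool.CSH
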