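import Pool.Agent.CSH.Poly

/-!
# Final assembly for the sharp bound of the second coefficients on `S_H`

If every univalent sense-preserving harmonic map `h + conj g` of the unit disc satisfies
`‖h''(0) - g''(0)‖ ≤ 6 ‖h'(0) - g'(0)‖`, then every such map satisfies
`‖h''(0) + ε g''(0)‖ ≤ 6 ‖h'(0) + ε g'(0)‖` for all unimodular `ε`, and
`‖h''(0)‖ ≤ 6 ‖h'(0)‖`, `‖g''(0)‖ ≤ 6 ‖h'(0)‖`.
-/

set_option autoImplicit false

open Complex Metric Set
open scoped ComplexConjugate

namespace Pool.Agent.CSH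

open Pool.Agent.HU85

/-- Maximum principle: a bound on the pencils `a + ε b`, `‖ε‖ = 1`, gives bounds for `a`, `b`. -/
theorem pencil_bound {a b c d : ℂ} {M : ℝ} (hdc : ‖d‖ < ‖c‖)
    (H : ∀ ε : ℂ, ‖ε‖ = 1 → ‖a + ε * b‖ ≤ M * ‖c + ε * d‖) :
    ‖a‖ ≤ M * ‖c‖ := by
  have hne : ∀ ε : ℂ, ‖ε‖ ≤ 1 → c + ε * d ≠ 0 := by
    intro ε hε h0
    have h1 : ‖c‖ = ‖ε * d‖ := by
      have : c = -(ε * d) := by linear_combination h0
      rw [this, norm_neg]
    rw [norm_mul] at h1
    nlinarith [norm_nonneg d, norm_nonneg ε]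
  have hd : DifferentiableOn ℂ (fun ε : ℂ => (a + ε * b) / (c + ε * d)) (closure (ball (0 : ℂ) 1)) := by
    rw [closure_ball (0 : ℂ) one_ne_zero]
    intro ε hε
    have hε' : ‖ε‖ ≤ 1 := by simpa using hε
    apply DifferentiableAt.differentiableWithinAt
    exact ((differentiableAt_const a).add (differentiableAt_id.mul_const b)).div
      ((differentiableAt_const c).add (differentiableAt_id.mul_const d)) (hne ε hε')
  have hmax := Complex.norm_le_of_forall_mem_frontier_norm_le (U := ball (0 : ℂ) 1) isBounded_ball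
    hd.diffContOnCl (C := M) (by
      intro ε hε
      rw [frontier_ball (0 : ℂ) one_ne_zero] at hε
      have hε' : ‖ε‖ = 1 := by simpa using hε
      have h1 := H ε hε'
      have h2 := hne ε hε'.le
      rw [norm_div, div_le_iff₀ (norm_pos_iff.mpr h2)]
      exact h1) (z := 0) (subset_closure (mem_ball_self one_pos))
  have hc : 0 < ‖c‖ := lt_of_le_of_lt (norm_nonneg _) hdc
  have h3 : ‖a / c‖ ≤ M := by simpa using hmax
  rw [norm_div, div_le_iff₀ hc] at h3
  exact h3

theorem pencil_bound' {a b c d : ℂ} {M : ℝ} (hdc : ‖d‖ < ‖c‖)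
    (H : ∀ ε : ℂ, ‖ε‖ = 1 → ‖a + ε * b‖ ≤ M * ‖c + ε * d‖) :
    ‖b‖ ≤ M * ‖c‖ := by
  have h1 := pencil_bound (a := b) (b := a) (c := conj c) (d := conj d) (M := M)
    (by simpa using hdc) (by
      intro ε hε
      have hεε : ε * conj ε = 1 := by
        rw [Complex.mul_conj, Complex.normSq_eq_norm_sq, hε]; norm_num
      have h2 := H (conj ε) (by simpa using hε)
      have e1 : b + ε * a = ε * (a + conj ε * b) := by
        linear_combination (-b) * hεε
      have e2 : ‖conj c + ε * conj d‖ = ‖c + conj ε * d‖ := by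
        rw [← Complex.norm_conj (c + conj ε * d)]
        simp
      rw [e1, norm_mul, hε, one_mul, e2]
      exact h2)
  simpa using h1

/-- Rotating the target: `t f = t h + conj (conj t * g)`. -/
theorem rotU {h g : ℂ → ℂ} (H : HarmU h g) {t : ℂ} (ht : ‖t‖ = 1) :
    HarmU (fun z => t * h z) (fun z => conj t * g z) where
  hd := H.hd.const_mul t
  gd := H.gd.const_mul (conj t)
  lt := by
    intro z hz
    have hz' : ‖z‖ < 1 := by simpa using hz
    rw [((H.h1d hz').const_mul t).deriv, ((H.g1d hz').const_mul (conj t)).deriv, norm_mul,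
      norm_mul, Complex.norm_conj, ht, one_mul, one_mul]
    exact H.lt z hz
  inj := by
    intro z hz w hw hzw
    have ht0 : t ≠ 0 := norm_pos_iff.mp (by rw [ht]; exact one_pos)
    apply H.inj hz hw
    have h1 : t * (h z + conj (g z)) = t * (h w + conj (g w)) := by
      have h2 : t * h z + conj (conj t * g z) = t * h w + conj (conj t * g w) := hzw
      simp only [map_mul, Complex.conj_conj] at h2
      linear_combination h2
    exact mul_left_cancel₀ ht0 h1

/-- The pencil bound for all unimodular `ε` from the bound for `ε = -1`. -/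
theorem pencil_of_sub
    (C : ∀ h g : ℂ → ℂ, HarmU h g →
      ‖deriv (deriv h) 0 - deriv (deriv g) 0‖ ≤ 6 * ‖deriv h 0 - deriv g 0‖)
    {h g : ℂ → ℂ} (H : HarmU h g) (ε : ℂ) (hε : ‖ε‖ = 1) :
    ‖deriv (deriv h) 0 + ε * deriv (deriv g) 0‖ ≤ 6 * ‖deriv h 0 + ε * deriv g 0‖ := by
  obtain ⟨t, ht⟩ : ∃ t : ℂ, t ^ 2 = -conj ε := IsAlgClosed.exists_pow_nat_eq _ (by norm_num)
  have ht1 : ‖t‖ = 1 := by
    have h1 : ‖t‖ ^ 2 = 1 := by
      rw [← norm_pow, ht, norm_neg, Complex.norm_conj, hε]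
    nlinarith [norm_nonneg t]
  have htt : t * conj t = 1 := by
    rw [Complex.mul_conj, Complex.normSq_eq_norm_sq, ht1]; norm_num
  have hε2 : ε = -(conj t) ^ 2 := by
    have h2 := congrArg conj ht
    simp only [map_pow, map_neg, Complex.conj_conj] at h2
    rw [h2]; ring
  have h3 := C _ _ (rotU H ht1)
  have hz0 : ‖(0 : ℂ)‖ < 1 := by simp
  have hev : ∀ᶠ z in nhds (0 : ℂ), z ∈ ball (0 : ℂ) 1 := isOpen_ball.mem_nhds (by simp)
  have d1 : deriv (fun z => t * h z) 0 = t * deriv h 0 := ((H.h1d hz0).const_mul t).deriv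
  have d2 : deriv (fun z => conj t * g z) 0 = conj t * deriv g 0 :=
    ((H.g1d hz0).const_mul (conj t)).deriv
  have d3 : deriv (deriv (fun z => t * h z)) 0 = t * deriv (deriv h) 0 := by
    have e1 : deriv (fun z => t * h z) =ᶠ[nhds 0] fun z => t * deriv h z := by
      filter_upwards [hev] with z hz
      exact ((H.h1d (by simpa using hz)).const_mul t).deriv
    rw [e1.deriv_eq]
    exact ((H.h2d hz0).const_mul t).deriv
  have d4 : deriv (deriv (fun z => conj t * g z)) 0 = conj t * deriv (deriv g) 0 := by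
    have e1 : deriv (fun z => conj t * g z) =ᶠ[nhds 0] fun z => conj t * deriv g z := by
      filter_upwards [hev] with z hz
      exact ((H.g1d (by simpa using hz)).const_mul (conj t)).deriv
    rw [e1.deriv_eq]
    exact ((H.g2d hz0).const_mul (conj t)).deriv
  rw [d1, d2, d3, d4] at h3
  have e1 : t * deriv (deriv h) 0 - conj t * deriv (deriv g) 0
      = t * (deriv (deriv h) 0 + ε * deriv (deriv g) 0) := by
    rw [hε2]; linear_combination (conj t * deriv (deriv g) 0) * htt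
  have e2 : t * deriv h 0 - conj t * deriv g 0 = t * (deriv h 0 + ε * deriv g 0) := by
    rw [hε2]; linear_combination (conj t * deriv g 0) * htt
  rw [e1, e2, norm_mul, norm_mul, ht1, one_mul, one_mul] at h3
  exact h3

/-- **Assembly.** -/
theorem second_of_sub
    (C : ∀ h g : ℂ → ℂ, HarmU h g →
      ‖deriv (deriv h) 0 - deriv (deriv g) 0‖ ≤ 6 * ‖deriv h 0 - deriv g 0‖)
    {h g : ℂ → ℂ} (H : HarmU h g) :
    ‖deriv (deriv h) 0‖ ≤ 6 * ‖deriv h 0‖ ∧ ‖deriv (deriv g) 0‖ ≤ 6 * ‖deriv h 0‖ :=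
  ⟨pencil_bound (H.lt 0 (by simp)) (pencil_of_sub C H),
    pencil_bound' (H.lt 0 (by simp)) (pencil_of_sub C H)⟩

/-- The hypothesis produced by the main chain: the bound `‖L''(0)‖ ≤ 6 ‖L'(0)‖`, `L = p - q`, for
harmonic polynomials `p + conj q` univalent and sense-preserving near the closed unit disc. -/
def PolyBound : Prop :=
  ∀ (R : ℝ) (p q : Polynomial ℂ), 1 < R → p.eval 0 = 0 → q.eval 0 = 0 →
    (∀ z ∈ ball (0 : ℂ) R, ‖q.derivative.eval z‖ < ‖p.derivative.eval z‖) →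
    InjOn (fun z => p.eval z + conj (q.eval z)) (ball (0 : ℂ) R) →
    ‖p.derivative.derivative.eval 0 - q.derivative.derivative.eval 0‖
      ≤ 6 * ‖p.derivative.eval 0 - q.derivative.eval 0‖

/-- **Final assembly.** -/
theorem final_of_polyBound (P : PolyBound) :
    ∀ h g : ℂ → ℂ,
      DifferentiableOn ℂ h (Metric.ball (0 : ℂ) 1) →
      DifferentiableOn ℂ g (Metric.ball (0 : ℂ) 1) →
      h 0 = 0 → g 0 = 0 → deriv h 0 = 1 →
      (∀ z ∈ Metric.ball (0 : ℂ) 1, ‖deriv g z‖ < ‖deriv h z‖) →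
      Set.InjOn (fun z => h z + (starRingEnd ℂ) (g z)) (Metric.ball (0 : ℂ) 1) →
        ‖iteratedDeriv 2 h 0‖ / 2 ≤ 3 ∧ ‖iteratedDeriv 2 g 0‖ / 2 ≤ 3 ∧
        ∀ ε : ℂ, ‖ε‖ = 1 →
          ‖iteratedDeriv 2 h 0 + ε * iteratedDeriv 2 g 0‖ / 2 ≤ 3 * ‖1 + ε * deriv g 0‖ := by
  intro h g hh hg _ _ h1 hlt hinj
  have H : HarmU h g := ⟨hh, hg, hlt, hinj⟩
  have C : ∀ h g : ℂ → ℂ, HarmU h g →
      ‖deriv (deriv h) 0 - deriv (deriv g) 0‖ ≤ 6 * ‖deriv h 0 - deriv g 0‖ :=
    fun h g H => poly_reduction P H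
  have h2 := second_of_sub C H
  have h3 := pencil_of_sub C H
  have e : ∀ f : ℂ → ℂ, iteratedDeriv 2 f 0 = deriv (deriv f) 0 := by
    intro f
    rw [iteratedDeriv_succ, iteratedDeriv_one]
  rw [e, e]
  rw [h1, norm_one] at h2
  refine ⟨by linarith [h2.1], by linarith [h2.2], ?_⟩
  intro ε hε
  have h4 := h3 ε hε
  rw [h1] at h4
  linarith

end Pool.Agent.CSH
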