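import Pool.Agent.AllN24.Final
import Pool.Agent.CSH.C3

/-!
# Sharp third coefficient: assembly from the lift theorem
-/

set_option autoImplicit false

open Complex Metric Set
open scoped ComplexConjugate Nat

namespace Pool.CSH

theorem polyBound3 (H : AllN24.LiftAll) : Pool.Agent.CSH.PolyBoundN 3 (19 / 3) := by
  intro R p q hR _ _ hlt hinj
  obtain ⟨L, F, G, R', hA, hc⟩ := H p q R ⟨hR, hinj, hlt⟩ 3
  have h1 := c3_bound hA.surf hA.achr
  have h3 := hc 3 (by norm_num) le_rfl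
  have h2 : deriv L 0 = (p - q).coeff 1 := by
    have := hc 1 le_rfl (by norm_num)
    rw [iteratedDeriv_one] at this
    simpa using this
  have h4 : ‖iteratedDeriv 3 L 0‖ / (3 ! : ℝ) = ‖(p - q).coeff 3‖ := by
    rw [← h3, norm_div, Complex.norm_natCast]
  rw [h4, h2, Polynomial.coeff_sub, Polynomial.coeff_sub] at h1
  exact h1

/-- **Sharp third coefficient** in `S_H`, from the lift theorem. -/
theorem third_coeff (H : AllN24.LiftAll) (h g : ℂ → ℂ)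
    (dh : DifferentiableOn ℂ h (ball (0 : ℂ) 1)) (dg : DifferentiableOn ℂ g (ball (0 : ℂ) 1))
    (h1 : deriv h 0 = 1) (hlt : ∀ z ∈ ball (0 : ℂ) 1, ‖deriv g z‖ < ‖deriv h z‖)
    (hinj : InjOn (fun z => h z + conj (g z)) (ball (0 : ℂ) 1)) :
    ‖iteratedDeriv 3 h 0‖ / (3 ! : ℝ) ≤ 19 / 3 ∧
    ‖iteratedDeriv 3 g 0‖ / (3 ! : ℝ) ≤ 19 / 3 ∧
    ∀ ε : ℂ, ‖ε‖ = 1 → ‖iteratedDeriv 3 h 0 + ε * iteratedDeriv 3 g 0‖ / (3 ! : ℝ)
      ≤ 19 / 3 * ‖1 + ε * deriv g 0‖ :=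
  Pool.Agent.CSH.final_of_polyBoundN (by norm_num) (polyBound3 H) h g dh dg h1 hlt hinj

end Pool.CSH
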