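import Mathlib

/-!
# Injectivity of step-polygon harmonic maps by Stokes (MP_a0ec2a_an)

`H(w) = ∑ a_j arg (w - x_j)`, `N(w) = ∑ b_j arg (w - x_j)` on the upper half plane, `∑ a_j = 0`.
If the Jacobian has a sign and the boundary polygon, after cancelling paired (reversed) edges, has
`H`-disjoint edges in one direction, the map (H, N) is injective.
-/

open Complex MeasureTheory Set Filter Topology
open scoped Interval

namespace CSH.Stokes

variable {ι : Type*} [Fintype ι]

/-- `∑ a_j log (w - x_j)` -/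
noncomputable def Lg (x a : ι → ℝ) (w : ℂ) : ℂ := ∑ j, (a j : ℂ) * Complex.log (w - x j)

/-- `∑ a_j / (w - x_j)` -/
noncomputable def Lg1 (x a : ι → ℝ) (w : ℂ) : ℂ := ∑ j, (a j : ℂ) / (w - x j)

/-- `- ∑ a_j / (w - x_j)^2` -/
noncomputable def Lg2 (x a : ι → ℝ) (w : ℂ) : ℂ := ∑ j, -(a j : ℂ) / (w - x j) ^ 2

/-- `∑ a_j arg (w - x_j)` -/
noncomputable def Hf (x a : ι → ℝ) (w : ℂ) : ℝ := ∑ j, a j * Complex.arg (w - x j)

lemma Lg_im (x a : ι → ℝ) (w : ℂ) : (Lg x a w).im = Hf x a w := by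
  simp [Lg, Hf, Complex.im_sum, Complex.log_im]

lemma sub_ne_zero_of_im {w : ℂ} (hw : 0 < w.im) (t : ℝ) : w - t ≠ 0 := by
  intro h
  have := congrArg Complex.im h
  simp at this
  linarith

lemma hasDerivAt_Lg (x a : ι → ℝ) {w : ℂ} (hw : 0 < w.im) :
    HasDerivAt (Lg x a) (Lg1 x a w) w := by
  unfold Lg Lg1
  have : ∀ j ∈ (Finset.univ : Finset ι), HasDerivAt (fun w : ℂ => (a j : ℂ) * Complex.log (w - x j))
      ((a j : ℂ) / (w - x j)) w := by
    intro j _
    have hs : w - (x j : ℂ) ∈ Complex.slitPlane := by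
      rw [Complex.mem_slitPlane_iff]
      right
      simp
      linarith
    have h1 : HasDerivAt (fun w : ℂ => Complex.log (w - x j)) (1 / (w - x j)) w := by
      have := ((hasDerivAt_id w).sub_const (x j : ℂ)).clog hs
      simpa using this
    have h2 := h1.const_mul (a j : ℂ)
    rw [mul_one_div] at h2
    exact h2
  exact HasDerivAt.fun_sum this

lemma hasDerivAt_Lg1 (x a : ι → ℝ) {w : ℂ} (hw : 0 < w.im) :
    HasDerivAt (Lg1 x a) (Lg2 x a w) w := by
  unfold Lg1 Lg2
  have : ∀ j ∈ (Finset.univ : Finset ι), HasDerivAt (fun w : ℂ => (a j : ℂ) / (w - x j))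
      (-(a j : ℂ) / (w - x j) ^ 2) w := by
    intro j _
    have h0 := sub_ne_zero_of_im hw (x j)
    have h1 : HasDerivAt (fun w : ℂ => w - (x j : ℂ)) 1 w := by
      simpa using (hasDerivAt_id w).sub_const (x j : ℂ)
    have h2 := (hasDerivAt_const w (a j : ℂ)).fun_div h1 h0
    have h3 : (0 * (w - (x j : ℂ)) - (a j : ℂ) * 1) / (w - x j) ^ 2
        = -(a j : ℂ) / (w - x j) ^ 2 := by ring
    rw [h3] at h2
    exact h2
  exact HasDerivAt.fun_sum this

/-- real derivative of `Hf`: `ζ ↦ Im (Lg1 w * ζ)` -/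
noncomputable def dH (x a : ι → ℝ) (w : ℂ) : ℂ →L[ℝ] ℝ :=
  Complex.imCLM.comp ((ContinuousLinearMap.toSpanSingleton ℂ (Lg1 x a w)).restrictScalars ℝ)

lemma dH_apply (x a : ι → ℝ) (w z : ℂ) : dH x a w z = (Lg1 x a w * z).im := by
  simp [dH, mul_comm]

lemma hasFDerivAt_Hf (x a : ι → ℝ) {w : ℂ} (hw : 0 < w.im) :
    HasFDerivAt (Hf x a) (dH x a w) w := by
  have h1 := (hasDerivAt_Lg x a hw).hasFDerivAt.restrictScalars ℝ
  have h2 := Complex.imCLM.hasFDerivAt.comp w h1
  have h3 : (⇑Complex.imCLM ∘ Lg x a) = Hf x a := by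
    funext z
    simp [Lg_im]
  rw [h3] at h2
  exact h2

lemma dH_one (x a : ι → ℝ) (w : ℂ) : dH x a w 1 = (Lg1 x a w).im := by
  simp [dH_apply]

lemma dH_I (x a : ι → ℝ) (w : ℂ) : dH x a w Complex.I = (Lg1 x a w).re := by
  simp [dH_apply]


section Form

variable (x a b : ι → ℝ) (b1 b1' b2 B2 : ℝ → ℝ)

/-- the form `b1(H) B2(N) dH` as a complex function: `Θ F'` -/
noncomputable def fm (w : ℂ) : ℂ := ((b1 (Hf x a w) * B2 (Hf x b w) : ℝ) : ℂ) * Lg1 x a w

/-- derivative of `Θ` -/
noncomputable def dTh (w : ℂ) : ℂ →L[ℝ] ℝ :=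
  (b1' (Hf x a w) * B2 (Hf x b w)) • dH x a w + (b1 (Hf x a w) * b2 (Hf x b w)) • dH x b w

/-- derivative of `fm` -/
noncomputable def dfm (w : ℂ) : ℂ →L[ℝ] ℂ :=
  ((b1 (Hf x a w) * B2 (Hf x b w) : ℝ) : ℂ) •
      ((ContinuousLinearMap.toSpanSingleton ℂ (Lg2 x a w)).restrictScalars ℝ)
    + (ContinuousLinearMap.smulRight (Complex.ofRealCLM.comp (dTh x a b b1 b1' b2 B2 w))
        (Lg1 x a w))

variable {b1 b1' b2 B2}

lemma hasFDerivAt_Th (h1 : ∀ t, HasDerivAt b1 (b1' t) t) (h2 : ∀ t, HasDerivAt B2 (b2 t) t)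
    {w : ℂ} (hw : 0 < w.im) :
    HasFDerivAt (fun w => b1 (Hf x a w) * B2 (Hf x b w)) (dTh x a b b1 b1' b2 B2 w) w := by
  have e1 := (h1 (Hf x a w)).comp_hasFDerivAt w (hasFDerivAt_Hf x a hw)
  have e2 := (h2 (Hf x b w)).comp_hasFDerivAt w (hasFDerivAt_Hf x b hw)
  have e3 := e1.mul e2
  refine e3.congr_fderiv ?_
  ext <;> (simp [dTh]; ring)

lemma hasFDerivAt_fm (h1 : ∀ t, HasDerivAt b1 (b1' t) t) (h2 : ∀ t, HasDerivAt B2 (b2 t) t)
    {w : ℂ} (hw : 0 < w.im) :
    HasFDerivAt (fm x a b b1 B2) (dfm x a b b1 b1' b2 B2 w) w := by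
  have e1 := hasFDerivAt_Th x a b h1 h2 hw
  have e2 := Complex.ofRealCLM.hasFDerivAt.comp w e1
  have e3 := (hasDerivAt_Lg1 x a hw).hasFDerivAt.restrictScalars ℝ
  have e4 := e2.mul e3
  have e5 : (fm x a b b1 B2) =
      (⇑Complex.ofRealCLM ∘ fun w => b1 (Hf x a w) * B2 (Hf x b w)) * Lg1 x a := by
    funext z
    simp [fm]
  rw [e5]
  refine e4.congr_fderiv ?_
  ext <;> (simp [dfm]; ring)

/-- the Green integrand -/
lemma green_im (w : ℂ) :
    (Complex.I • dfm x a b b1 b1' b2 B2 w 1 - dfm x a b b1 b1' b2 B2 w Complex.I).im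
      = b1 (Hf x a w) * b2 (Hf x b w) * ((starRingEnd ℂ) (Lg1 x a w) * Lg1 x b w).im := by
  simp [dfm, dTh, dH_one, dH_I]
  ring


lemma continuousOn_Hf (x a : ι → ℝ) : ContinuousOn (Hf x a) {w : ℂ | 0 < w.im} :=
  fun _ hw => (hasFDerivAt_Hf x a hw).continuousAt.continuousWithinAt

lemma continuousOn_Lg1 (x a : ι → ℝ) : ContinuousOn (Lg1 x a) {w : ℂ | 0 < w.im} :=
  fun _ hw => (hasDerivAt_Lg1 x a hw).continuousAt.continuousWithinAt

lemma continuousOn_Lg2 (x a : ι → ℝ) : ContinuousOn (Lg2 x a) {w : ℂ | 0 < w.im} := by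
  unfold Lg2
  refine continuousOn_finsetSum _ fun j _ => ?_
  refine ContinuousOn.div continuousOn_const (by fun_prop) ?_
  intro w hw
  exact pow_ne_zero 2 (sub_ne_zero_of_im hw (x j))

lemma continuousOn_green (h1 : Continuous b1) (h1' : Continuous b1') (h2 : Continuous b2)
    (h3 : Continuous B2) :
    ContinuousOn (fun w => Complex.I • dfm x a b b1 b1' b2 B2 w 1
      - dfm x a b b1 b1' b2 B2 w Complex.I) {w : ℂ | 0 < w.im} := by
  have cH := continuousOn_Hf x a
  have cN := continuousOn_Hf x b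
  have c1 := continuousOn_Lg1 x a
  have c1b := continuousOn_Lg1 x b
  have c2 := continuousOn_Lg2 x a
  have e1 : ContinuousOn (fun w => b1 (Hf x a w)) {w : ℂ | 0 < w.im} := h1.comp_continuousOn cH
  have e1' : ContinuousOn (fun w => b1' (Hf x a w)) {w : ℂ | 0 < w.im} := h1'.comp_continuousOn cH
  have e2 : ContinuousOn (fun w => b2 (Hf x b w)) {w : ℂ | 0 < w.im} := h2.comp_continuousOn cN
  have e3 : ContinuousOn (fun w => B2 (Hf x b w)) {w : ℂ | 0 < w.im} := h3.comp_continuousOn cN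
  have r1 : ContinuousOn (fun w => (Lg1 x a w).re) {w : ℂ | 0 < w.im} :=
    Complex.continuous_re.comp_continuousOn c1
  have i1 : ContinuousOn (fun w => (Lg1 x a w).im) {w : ℂ | 0 < w.im} :=
    Complex.continuous_im.comp_continuousOn c1
  have r2 : ContinuousOn (fun w => (Lg1 x b w).re) {w : ℂ | 0 < w.im} :=
    Complex.continuous_re.comp_continuousOn c1b
  have i2 : ContinuousOn (fun w => (Lg1 x b w).im) {w : ℂ | 0 < w.im} :=
    Complex.continuous_im.comp_continuousOn c1b
  have key : (fun w => Complex.I • dfm x a b b1 b1' b2 B2 w 1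
      - dfm x a b b1 b1' b2 B2 w Complex.I) = fun w =>
      Complex.I * ((((b1' (Hf x a w) * B2 (Hf x b w)) * (Lg1 x a w).im
        + (b1 (Hf x a w) * b2 (Hf x b w)) * (Lg1 x b w).im : ℝ) : ℂ) * Lg1 x a w)
      - (((b1' (Hf x a w) * B2 (Hf x b w)) * (Lg1 x a w).re
        + (b1 (Hf x a w) * b2 (Hf x b w)) * (Lg1 x b w).re : ℝ) : ℂ) * Lg1 x a w := by
    funext w
    simp only [dfm, dTh, add_apply, smul_apply,
      ContinuousLinearMap.smulRight_apply, ContinuousLinearMap.comp_apply, dH_one, dH_I,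
      ContinuousLinearMap.coe_restrictScalars', ContinuousLinearMap.toSpanSingleton_apply,
      smul_eq_mul, Complex.ofRealCLM_apply]
    ring
  rw [key]
  refine ContinuousOn.sub (ContinuousOn.mul continuousOn_const (ContinuousOn.mul ?_ c1))
    (ContinuousOn.mul ?_ c1)
  · exact Complex.continuous_ofReal.comp_continuousOn
      (((e1'.mul e3).mul i1).add ((e1.mul e2).mul i2))
  · exact Complex.continuous_ofReal.comp_continuousOn
      (((e1'.mul e3).mul r1).add ((e1.mul e2).mul r2))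

lemma continuousOn_fm (h1 : Continuous b1) (h3 : Continuous B2) :
    ContinuousOn (fm x a b b1 B2) {w : ℂ | 0 < w.im} := by
  unfold fm
  refine ContinuousOn.mul (Complex.continuous_ofReal.comp_continuousOn ?_) (continuousOn_Lg1 x a)
  exact (h1.comp_continuousOn (continuousOn_Hf x a)).mul
    (h3.comp_continuousOn (continuousOn_Hf x b))

/-- the area integrand -/
noncomputable def gr (x a b : ι → ℝ) (b1 b2 : ℝ → ℝ) (w : ℂ) : ℝ :=
  b1 (Hf x a w) * b2 (Hf x b w) * ((starRingEnd ℂ) (Lg1 x a w) * Lg1 x b w).im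

lemma continuousOn_gr (h1 : Continuous b1) (h2 : Continuous b2) :
    ContinuousOn (gr x a b b1 b2) {w : ℂ | 0 < w.im} := by
  unfold gr
  refine ContinuousOn.mul ?_ ?_
  · exact (h1.comp_continuousOn (continuousOn_Hf x a)).mul
      (h2.comp_continuousOn (continuousOn_Hf x b))
  · refine Complex.continuous_im.comp_continuousOn (ContinuousOn.mul ?_ (continuousOn_Lg1 x b))
    exact Complex.continuous_conj.comp_continuousOn (continuousOn_Lg1 x a)

lemma box_identity (h1 : ∀ t, HasDerivAt b1 (b1' t) t) (h1' : Continuous b1')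
    (h2 : ∀ t, HasDerivAt B2 (b2 t) t) (h2' : Continuous b2) {e T : ℝ} (he : 0 < e) (hT : e ≤ T) :
    ∫ p in Ioc (-T) T ×ˢ Ioc e T, gr x a b b1 b2 (p.1 + p.2 * Complex.I)
      = ((∫ u in (-T)..T, fm x a b b1 B2 (u + e * Complex.I))
        - (∫ u in (-T)..T, fm x a b b1 B2 (u + T * Complex.I))
        + Complex.I • (∫ v in e..T, fm x a b b1 B2 (T + v * Complex.I))
        - Complex.I • (∫ v in e..T, fm x a b b1 B2 (-T + v * Complex.I))).im := by
  have c1 : Continuous b1 := continuous_iff_continuousAt.2 fun t => (h1 t).continuousAt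
  have c3 : Continuous B2 := continuous_iff_continuousAt.2 fun t => (h2 t).continuousAt
  have hTpos : 0 < T := lt_of_lt_of_le he hT
  have hTT : -T ≤ T := by linarith
  set z : ℂ := ⟨-T, e⟩ with hz
  set w : ℂ := ⟨T, T⟩ with hw
  have hsub : ([[z.re, w.re]] ×ℂ [[z.im, w.im]]) ⊆ {w : ℂ | 0 < w.im} := by
    intro t ht
    rw [Complex.mem_reProdIm] at ht
    have : z.im ≤ w.im := hT
    rw [uIcc_of_le this] at ht
    exact lt_of_lt_of_le he ht.2.1
  have key := Complex.integral_boundary_rect_of_hasFDerivAt_real_off_countable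
    (fm x a b b1 B2) (dfm x a b b1 b1' b2 B2) z w ∅ countable_empty
    ((continuousOn_fm x a b c1 c3).mono hsub)
    (by
      intro t ht
      refine hasFDerivAt_fm x a b h1 h2 ?_
      have ht := ht.1
      rw [Complex.mem_reProdIm] at ht
      have : z.im ≤ w.im := hT
      rw [min_eq_left this] at ht
      exact lt_trans he ht.2.1)
    (by
      refine ContinuousOn.integrableOn_compact ?_
        ((continuousOn_green x a b c1 h1' h2' c3).mono hsub)
      exact IsCompact.reProdIm isCompact_uIcc isCompact_uIcc)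
  have hcont : ContinuousOn (fun p : ℝ × ℝ => Complex.I • dfm x a b b1 b1' b2 B2
      (p.1 + p.2 * Complex.I) 1 - dfm x a b b1 b1' b2 B2 (p.1 + p.2 * Complex.I) Complex.I)
      (Icc (-T) T ×ˢ Icc e T) := by
    refine ContinuousOn.comp (g := fun w => Complex.I • dfm x a b b1 b1' b2 B2 w 1
      - dfm x a b b1 b1' b2 B2 w Complex.I) (t := {w : ℂ | 0 < w.im})
      (continuousOn_green x a b c1 h1' h2' c3) ?_ ?_
    · fun_prop
    · intro p hp
      have := hp.2.1
      simp
      linarith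
  have hint : IntegrableOn (fun p : ℝ × ℝ => Complex.I • dfm x a b b1 b1' b2 B2
      (p.1 + p.2 * Complex.I) 1 - dfm x a b b1 b1' b2 B2 (p.1 + p.2 * Complex.I) Complex.I)
      (Ioc (-T) T ×ˢ Ioc e T) := by
    refine (ContinuousOn.integrableOn_compact (isCompact_Icc.prod isCompact_Icc) hcont).mono_set ?_
    exact prod_mono Ioc_subset_Icc_self Ioc_subset_Icc_self
  have e1 : ∫ p in Ioc (-T) T ×ˢ Ioc e T, (Complex.I • dfm x a b b1 b1' b2 B2
      ((p.1 : ℂ) + p.2 * Complex.I) 1 - dfm x a b b1 b1' b2 B2 ((p.1 : ℂ) + p.2 * Complex.I)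
        Complex.I)
      = ∫ u in (-T)..T, ∫ v in e..T, (Complex.I • dfm x a b b1 b1' b2 B2
      (u + v * Complex.I) 1 - dfm x a b b1 b1' b2 B2 (u + v * Complex.I) Complex.I) := by
    rw [Measure.volume_eq_prod] at hint ⊢
    rw [setIntegral_prod _ hint, intervalIntegral.integral_of_le hTT]
    simp only [intervalIntegral.integral_of_le hT]
  have e2 : ∫ p in Ioc (-T) T ×ˢ Ioc e T, gr x a b b1 b2 (p.1 + p.2 * Complex.I)
      = (∫ p in Ioc (-T) T ×ˢ Ioc e T, (Complex.I • dfm x a b b1 b1' b2 B2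
      ((p.1 : ℂ) + p.2 * Complex.I) 1 - dfm x a b b1 b1' b2 B2 ((p.1 : ℂ) + p.2 * Complex.I)
        Complex.I)).im := by
    have := Complex.imCLM.integral_comp_comm hint
    simp only [Complex.imCLM_apply] at this
    rw [← this]
    refine integral_congr_ae (Eventually.of_forall fun p => ?_)
    simp only [gr]
    rw [green_im]
  rw [e2, e1, ← key]
  simp [hz, hw]

end Form


section Limit

variable (x a b : ι → ℝ)

/-- value of `Hf` on the real line just to the right of `x_j` -/
noncomputable def hr (j : ι) : ℝ := Real.pi * ∑ k, if x j < x k then a k else 0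

lemma tendsto_Hf {x : ι → ℝ} (hx : Function.Injective x) (a : ι → ℝ) (j : ι) (t : ℝ) :
    Tendsto (fun e : ℝ => Hf x a (((x j + e * t : ℝ) : ℂ) + (e : ℂ) * Complex.I)) (𝓝[>] 0)
      (𝓝 (hr x a j + a j * Complex.arg (t + Complex.I))) := by
  classical
  have hlim : hr x a j + a j * Complex.arg (t + Complex.I)
      = ∑ k, a k * (if k = j then Complex.arg (t + Complex.I) else
          if x j < x k then Real.pi else 0) := by
    have e1 : ∀ k ∈ (Finset.univ : Finset ι), a k * (if k = j then Complex.arg (t + Complex.I) else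
          if x j < x k then Real.pi else 0)
        = (if k = j then a j * Complex.arg (t + Complex.I) else 0)
          + Real.pi * (if x j < x k then a k else 0) := by
      intro k _
      by_cases hk : k = j
      · subst hk; simp
      · simp only [hk, if_false]
        split_ifs <;> ring
    rw [Finset.sum_congr rfl e1, Finset.sum_add_distrib, ← Finset.mul_sum]
    simp only [Finset.sum_ite_eq', Finset.mem_univ, if_true, hr]
    ring
  rw [hlim]
  unfold Hf
  refine tendsto_finsetSum _ fun k _ => Tendsto.const_mul _ ?_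
  have hcont : Tendsto (fun e : ℝ => (((x j + e * t : ℝ) : ℂ) + (e : ℂ) * Complex.I) - x k)
      (𝓝[>] 0) (𝓝 ((x j - x k : ℝ) : ℂ)) := by
    have : Continuous (fun e : ℝ => (((x j + e * t : ℝ) : ℂ) + (e : ℂ) * Complex.I) - x k) := by
      fun_prop
    have h0 := this.tendsto 0
    have h1 : (((x j + 0 * t : ℝ) : ℂ) + ((0 : ℝ) : ℂ) * Complex.I) - x k
        = ((x j - x k : ℝ) : ℂ) := by
      push_cast; ring
    rw [h1] at h0
    exact h0.mono_left nhdsWithin_le_nhds
  by_cases hk : k = j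
  · subst hk
    simp only [if_true]
    refine Tendsto.congr' ?_ tendsto_const_nhds
    filter_upwards [self_mem_nhdsWithin] with e he
    have : ((x k + e * t : ℝ) : ℂ) + (e : ℂ) * Complex.I - x k = (e : ℂ) * (t + Complex.I) := by
      push_cast; ring
    rw [this, Complex.arg_real_mul _ he]
  · simp only [hk, if_false]
    have hne : x k ≠ x j := fun h => hk (hx h)
    by_cases hlt : x j < x k
    · simp only [hlt, if_true]
      have h1 := Complex.tendsto_arg_nhdsWithin_im_nonneg_of_re_neg_of_im_zero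
        (z := ((x j - x k : ℝ) : ℂ)) (by simp only [Complex.ofReal_re]; linarith) (by simp)
      refine h1.comp ?_
      rw [tendsto_nhdsWithin_iff]
      refine ⟨hcont, ?_⟩
      filter_upwards [self_mem_nhdsWithin] with e he
      simp only [Complex.sub_im, Complex.add_im, Complex.ofReal_im, Complex.mul_im,
        Complex.ofReal_re, Complex.I_im, Complex.I_re]
      have : (0 : ℝ) < e := he
      linarith
    · simp only [hlt, if_false]
      have hpos : 0 < x j - x k := by
        have := lt_of_le_of_ne (not_lt.1 hlt) hne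
        linarith
      have h1 := (Complex.continuousAt_arg (x := ((x j - x k : ℝ) : ℂ))
        (by rw [Complex.mem_slitPlane_iff]; left; simpa using hpos)).tendsto
      rw [Complex.arg_ofReal_of_nonneg hpos.le] at h1
      exact h1.comp hcont

/-- the limit of `Θ` on the edge at `x_j`, parametrised by the real line -/
noncomputable def Th (b1 B2 : ℝ → ℝ) (j : ι) (t : ℝ) : ℝ :=
  b1 (hr x a j + a j * Complex.arg (t + Complex.I))
    * B2 (hr x b j + b j * Complex.arg (t + Complex.I))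

lemma Lg1_im (u e : ℝ) : (Lg1 x a ((u : ℂ) + (e : ℂ) * Complex.I)).im
    = - ∑ j, a j * (e / ((u - x j) ^ 2 + e ^ 2)) := by
  unfold Lg1
  rw [Complex.im_sum, ← Finset.sum_neg_distrib]
  refine Finset.sum_congr rfl fun j _ => ?_
  have h1 : (u : ℂ) + (e : ℂ) * Complex.I - x j = ((u - x j : ℝ) : ℂ) + (e : ℂ) * Complex.I := by
    push_cast; ring
  rw [h1, Complex.div_im]
  simp only [Complex.normSq_apply, Complex.add_re, Complex.add_im, Complex.ofReal_re,
    Complex.ofReal_im, Complex.mul_re, Complex.mul_im, Complex.I_re, Complex.I_im]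
  ring

end Limit


section Limit2

variable (x a b : ι → ℝ) {b1 b1' b2 B2 : ℝ → ℝ}

lemma im_pt (u e : ℝ) : ((u : ℂ) + (e : ℂ) * Complex.I).im = e := by simp

lemma continuous_Hf_line (x a : ι → ℝ) {e : ℝ} (he : 0 < e) (c d : ℝ) :
    Continuous (fun t : ℝ => Hf x a (((c + d * t : ℝ) : ℂ) + (e : ℂ) * Complex.I)) := by
  rw [continuous_iff_continuousAt]
  intro t
  have h1 : ContinuousAt (Hf x a) (((c + d * t : ℝ) : ℂ) + (e : ℂ) * Complex.I) :=
    (hasFDerivAt_Hf x a (by rw [im_pt]; exact he)).continuousAt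
  have h2 : ContinuousAt (fun t : ℝ => ((c + d * t : ℝ) : ℂ) + (e : ℂ) * Complex.I) t := by
    fun_prop
  exact ContinuousAt.comp (f := fun t : ℝ => ((c + d * t : ℝ) : ℂ) + (e : ℂ) * Complex.I) h1 h2

lemma tendsto_bottom_term {x : ι → ℝ} (hx : Function.Injective x) (a b : ι → ℝ)
    (h1 : Continuous b1) (h3 : Continuous B2)
    {M : ℝ} (hM : ∀ s t, |b1 s * B2 t| ≤ M) (j : ι) :
    Tendsto (fun n : ℕ => ∫ u in (-((n : ℝ) + 1))..((n : ℝ) + 1),
      (b1 (Hf x a ((u : ℂ) + ((1 / ((n : ℝ) + 1) : ℝ) : ℂ) * Complex.I))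
        * B2 (Hf x b ((u : ℂ) + ((1 / ((n : ℝ) + 1) : ℝ) : ℂ) * Complex.I)))
      * ((1 / ((n : ℝ) + 1)) / ((u - x j) ^ 2 + (1 / ((n : ℝ) + 1)) ^ 2))) atTop
      (𝓝 (∫ t, Th x a b b1 B2 j t * (1 + t ^ 2)⁻¹)) := by
  set e : ℕ → ℝ := fun n => 1 / ((n : ℝ) + 1) with hedef
  set T : ℕ → ℝ := fun n => (n : ℝ) + 1 with hTdef
  have hTpos : ∀ n, 0 < T n := fun n => by simp only [hTdef]; positivity
  have hepos : ∀ n, 0 < e n := fun n => by simp only [hedef]; positivity
  have heT : ∀ n, e n * T n = 1 := fun n => by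
    simp only [hedef, hTdef]
    field_simp
  have he0 : Tendsto e atTop (𝓝[>] 0) := by
    rw [tendsto_nhdsWithin_iff]
    exact ⟨tendsto_one_div_add_atTop_nhds_zero_nat, Eventually.of_forall fun n => hepos n⟩
  have hTtop : Tendsto T atTop atTop :=
    tendsto_atTop_add_const_right _ _ tendsto_natCast_atTop_atTop
  -- rewrite
  have hrew : ∀ n, ∫ u in (-(T n))..(T n),
      (b1 (Hf x a ((u : ℂ) + (e n : ℂ) * Complex.I)) * B2 (Hf x b ((u : ℂ) + (e n : ℂ) * Complex.I)))
      * (e n / ((u - x j) ^ 2 + (e n) ^ 2))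
      = ∫ t, (Ioc ((-(T n) - x j) * T n) ((T n - x j) * T n)).indicator (fun t =>
        (b1 (Hf x a (((x j + e n * t : ℝ) : ℂ) + (e n : ℂ) * Complex.I))
          * B2 (Hf x b (((x j + e n * t : ℝ) : ℂ) + (e n : ℂ) * Complex.I))) * (1 + t ^ 2)⁻¹) t := by
    intro n
    have hle : (-(T n) - x j) * T n ≤ (T n - x j) * T n := by
      have := hTpos n
      nlinarith
    rw [integral_indicator measurableSet_Ioc, ← intervalIntegral.integral_of_le hle]
    have hsub := intervalIntegral.smul_integral_comp_add_mul (a := (-(T n) - x j) * T n)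
      (b := (T n - x j) * T n) (fun u : ℝ =>
      (b1 (Hf x a ((u : ℂ) + (e n : ℂ) * Complex.I)) * B2 (Hf x b ((u : ℂ) + (e n : ℂ) * Complex.I)))
      * (e n / ((u - x j) ^ 2 + (e n) ^ 2))) (e n) (x j)
    have ea : x j + e n * ((-(T n) - x j) * T n) = -(T n) := by
      have := heT n
      linear_combination (-(T n) - x j) * this
    have eb : x j + e n * ((T n - x j) * T n) = T n := by
      have := heT n
      linear_combination (T n - x j) * this
    rw [ea, eb] at hsub
    rw [← hsub, ← intervalIntegral.integral_smul]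
    refine intervalIntegral.integral_congr fun t _ => ?_
    have hne : e n ≠ 0 := (hepos n).ne'
    have h1t : (1 : ℝ) + t ^ 2 ≠ 0 := by positivity
    have hden : (x j + e n * t - x j) ^ 2 + e n ^ 2 = e n ^ 2 * (1 + t ^ 2) := by ring
    simp only [smul_eq_mul]
    rw [hden]
    field_simp
  have hgoal : Tendsto (fun n : ℕ => ∫ u in (-(T n))..(T n),
      (b1 (Hf x a ((u : ℂ) + (e n : ℂ) * Complex.I)) * B2 (Hf x b ((u : ℂ) + (e n : ℂ) * Complex.I)))
      * (e n / ((u - x j) ^ 2 + (e n) ^ 2))) atTop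
      (𝓝 (∫ t, Th x a b b1 B2 j t * (1 + t ^ 2)⁻¹)) := by
    simp_rw [hrew]
    refine tendsto_integral_filter_of_dominated_convergence (fun t => M * (1 + t ^ 2)⁻¹) ?_ ?_ ?_ ?_
    · refine Eventually.of_forall fun n => ?_
      refine AEStronglyMeasurable.indicator ?_ measurableSet_Ioc
      refine Continuous.aestronglyMeasurable ?_
      refine Continuous.mul ?_ ?_
      · exact (h1.comp (continuous_Hf_line x a (hepos n) _ _)).mul
          (h3.comp (continuous_Hf_line x b (hepos n) _ _))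
      · refine Continuous.inv₀ (by fun_prop) fun t => by positivity
    · refine Eventually.of_forall fun n => Eventually.of_forall fun t => ?_
      refine (norm_indicator_le_norm_self _ _).trans ?_
      rw [norm_mul, Real.norm_eq_abs, Real.norm_eq_abs, abs_of_pos (by positivity : (0:ℝ) < (1 + t ^ 2)⁻¹)]
      exact mul_le_mul_of_nonneg_right (hM _ _) (by positivity)
    · exact integrable_inv_one_add_sq.const_mul M
    · refine Eventually.of_forall fun t => ?_
      have hT1 : ∀ᶠ n in atTop, |t| + |x j| + 1 ≤ T n := hTtop.eventually_ge_atTop _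
      have hlim : Tendsto (fun n => (b1 (Hf x a (((x j + e n * t : ℝ) : ℂ) + (e n : ℂ) * Complex.I))
          * B2 (Hf x b (((x j + e n * t : ℝ) : ℂ) + (e n : ℂ) * Complex.I))) * (1 + t ^ 2)⁻¹) atTop
          (𝓝 (Th x a b b1 B2 j t * (1 + t ^ 2)⁻¹)) := by
        refine Tendsto.mul_const _ ?_
        unfold Th
        refine Tendsto.mul ?_ ?_
        · exact (h1.tendsto _).comp ((tendsto_Hf hx a j t).comp he0)
        · exact (h3.tendsto _).comp ((tendsto_Hf hx b j t).comp he0)
      refine hlim.congr' ?_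
      filter_upwards [hT1] with n hn
      rw [indicator_of_mem]
      have hT1 : 1 ≤ T n := by
        have := abs_nonneg t; have := abs_nonneg (x j); linarith
      have a1 := neg_abs_le t
      have a2 := le_abs_self t
      have a3 := neg_abs_le (x j)
      have a4 := le_abs_self (x j)
      constructor
      · have : (-(T n) - x j) * T n ≤ -(T n) - x j := by
          have h5 : -(T n) - x j ≤ 0 := by linarith [abs_nonneg t]
          nlinarith
        have h6 : -(T n) - x j < t := by linarith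
        linarith
      · have : T n - x j ≤ (T n - x j) * T n := by
          have h5 : 0 ≤ T n - x j := by linarith [abs_nonneg t]
          nlinarith
        linarith
  exact hgoal

end Limit2


section Limit3

variable (x a b : ι → ℝ) {b1 b1' b2 B2 : ℝ → ℝ}

/-- decay of `Lg1` when the residues sum to zero -/
lemma Lg1_decay (ha : ∑ j, a j = 0) :
    ∃ C R : ℝ, 0 ≤ C ∧ 0 < R ∧ ∀ w : ℂ, R ≤ ‖w‖ → ‖Lg1 x a w‖ ≤ C / ‖w‖ ^ 2 := by
  refine ⟨∑ j, 2 * |a j| * |x j|, 2 * (∑ j, |x j|) + 1,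
    Finset.sum_nonneg fun j _ => by positivity, by positivity, ?_⟩
  intro w hw
  have hS : 0 ≤ ∑ j, |x j| := Finset.sum_nonneg fun j _ => abs_nonneg _
  have hwpos : 0 < ‖w‖ := by linarith
  have hw0 : w ≠ 0 := norm_pos_iff.1 hwpos
  have hx1 : ∀ j, |x j| ≤ ∑ k, |x k| := fun j =>
    Finset.single_le_sum (f := fun k => |x k|) (fun k _ => abs_nonneg _) (Finset.mem_univ j)
  have hnorm : ∀ j, ‖w‖ / 2 ≤ ‖w - x j‖ := by
    intro j
    have h1 : ‖w‖ - ‖(x j : ℂ)‖ ≤ ‖w - x j‖ := norm_sub_norm_le _ _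
    rw [Complex.norm_real, Real.norm_eq_abs] at h1
    have := hx1 j
    linarith
  have hne : ∀ j, w - x j ≠ 0 := fun j => norm_pos_iff.1 (lt_of_lt_of_le (by positivity) (hnorm j))
  have key : Lg1 x a w = ∑ j, (a j : ℂ) * x j / (w * (w - x j)) := by
    have h0 : ∑ j, (a j : ℂ) / w = 0 := by
      rw [← Finset.sum_div]
      have : ∑ j, (a j : ℂ) = 0 := by exact_mod_cast ha
      rw [this, zero_div]
    rw [← sub_zero (Lg1 x a w), ← h0]
    unfold Lg1
    rw [← Finset.sum_sub_distrib]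
    refine Finset.sum_congr rfl fun j _ => ?_
    have := hne j
    field_simp
    ring
  rw [key, Finset.sum_div]
  refine (norm_sum_le _ _).trans (Finset.sum_le_sum fun j _ => ?_)
  rw [norm_div, norm_mul, norm_mul, Complex.norm_real, Complex.norm_real, Real.norm_eq_abs,
    Real.norm_eq_abs]
  rw [div_le_div_iff₀ (mul_pos hwpos (norm_pos_iff.2 (hne j))) (by positivity)]
  have h1 := hnorm j
  have h2 : 0 ≤ |a j| * |x j| := by positivity
  have h3 : |a j| * |x j| * ‖w‖ ^ 2 ≤ |a j| * |x j| * (2 * (‖w‖ * ‖w - x j‖)) := by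
    refine mul_le_mul_of_nonneg_left ?_ h2
    nlinarith
  calc |a j| * |x j| * ‖w‖ ^ 2 ≤ |a j| * |x j| * (2 * (‖w‖ * ‖w - x j‖)) := h3
    _ = 2 * |a j| * |x j| * (‖w‖ * ‖w - x j‖) := by ring

lemma norm_fm_le {M : ℝ} (hM : ∀ s t, |b1 s * B2 t| ≤ M) (w : ℂ) :
    ‖fm x a b b1 B2 w‖ ≤ M * ‖Lg1 x a w‖ := by
  unfold fm
  rw [norm_mul, Complex.norm_real, Real.norm_eq_abs]
  exact mul_le_mul_of_nonneg_right (hM _ _) (norm_nonneg _)

/-- the area integral converges to the boundary sum -/
lemma tendsto_area {x : ι → ℝ} (hx : Function.Injective x) (a b : ι → ℝ) (ha : ∑ j, a j = 0)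
    (h1 : ∀ t, HasDerivAt b1 (b1' t) t) (h1' : Continuous b1')
    (h2 : ∀ t, HasDerivAt B2 (b2 t) t) (h2' : Continuous b2)
    {M : ℝ} (hM : ∀ s t, |b1 s * B2 t| ≤ M) :
    Tendsto (fun n : ℕ => ∫ p in Ioc (-((n : ℝ) + 1)) ((n : ℝ) + 1) ×ˢ
        Ioc (1 / ((n : ℝ) + 1)) ((n : ℝ) + 1), gr x a b b1 b2 (p.1 + p.2 * Complex.I)) atTop
      (𝓝 (- ∑ j, a j * ∫ t, Th x a b b1 B2 j t * (1 + t ^ 2)⁻¹)) := by
  have c1 : Continuous b1 := continuous_iff_continuousAt.2 fun t => (h1 t).continuousAt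
  have c3 : Continuous B2 := continuous_iff_continuousAt.2 fun t => (h2 t).continuousAt
  have hM0 : 0 ≤ M := (abs_nonneg _).trans (hM 0 0)
  obtain ⟨C, R, hC, hR, hdec⟩ := Lg1_decay x a ha
  set e : ℕ → ℝ := fun n => 1 / ((n : ℝ) + 1) with hedef
  set T : ℕ → ℝ := fun n => (n : ℝ) + 1 with hTdef
  have hTpos : ∀ n, 0 < T n := fun n => by simp only [hTdef]; positivity
  have hepos : ∀ n, 0 < e n := fun n => by simp only [hedef]; positivity
  have heT : ∀ n, e n ≤ T n := fun n => by
    simp only [hedef, hTdef]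
    rw [div_le_iff₀ (by positivity)]
    nlinarith [(Nat.cast_nonneg n : (0 : ℝ) ≤ n)]
  have hTtop : Tendsto T atTop atTop :=
    tendsto_atTop_add_const_right _ _ tendsto_natCast_atTop_atTop
  have hid : ∀ n, ∫ p in Ioc (-(T n)) (T n) ×ˢ Ioc (e n) (T n), gr x a b b1 b2 (p.1 + p.2 * Complex.I)
      = (∫ u in (-(T n))..(T n), fm x a b b1 B2 (u + e n * Complex.I)).im
        + (- (∫ u in (-(T n))..(T n), fm x a b b1 B2 (u + T n * Complex.I))
        + Complex.I • (∫ v in (e n)..(T n), fm x a b b1 B2 (T n + v * Complex.I))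
        - Complex.I • (∫ v in (e n)..(T n), fm x a b b1 B2 (-T n + v * Complex.I))).im := by
    intro n
    rw [box_identity x a b h1 h1' h2 h2' (hepos n) (heT n), ← Complex.add_im]
    congr 1
    ring
  -- the error terms
  have herr : Tendsto (fun n => (- (∫ u in (-(T n))..(T n), fm x a b b1 B2 (u + T n * Complex.I))
        + Complex.I • (∫ v in (e n)..(T n), fm x a b b1 B2 (T n + v * Complex.I))
        - Complex.I • (∫ v in (e n)..(T n), fm x a b b1 B2 (-T n + v * Complex.I))).im) atTop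
        (𝓝 0) := by
    have hb : Tendsto (fun n => 4 * M * C * (T n)⁻¹) atTop (𝓝 0) := by
      have := (tendsto_inv_atTop_zero.comp hTtop).const_mul (4 * M * C)
      simpa using this
    refine squeeze_zero_norm' ?_ hb
    filter_upwards [hTtop.eventually_ge_atTop R] with n hn
    have hT := hTpos n
    have hbd : ∀ w : ℂ, T n ≤ ‖w‖ → ‖fm x a b b1 B2 w‖ ≤ M * (C / (T n) ^ 2) := by
      intro w hw
      refine (norm_fm_le x a b hM w).trans (mul_le_mul_of_nonneg_left ?_ hM0)
      refine (hdec w (hn.trans hw)).trans ?_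
      exact div_le_div_of_nonneg_left hC (by positivity) (pow_le_pow_left₀ hT.le hw 2)
    have n1 : ‖∫ u in (-(T n))..(T n), fm x a b b1 B2 (u + T n * Complex.I)‖
        ≤ M * (C / (T n) ^ 2) * |T n - -(T n)| := by
      refine intervalIntegral.norm_integral_le_of_norm_le_const fun u _ => hbd _ ?_
      have := Complex.abs_im_le_norm ((u : ℂ) + T n * Complex.I)
      rw [im_pt, abs_of_pos hT] at this
      exact this
    have n2 : ‖∫ v in (e n)..(T n), fm x a b b1 B2 (T n + v * Complex.I)‖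
        ≤ M * (C / (T n) ^ 2) * |T n - e n| := by
      refine intervalIntegral.norm_integral_le_of_norm_le_const fun v _ => hbd _ ?_
      have := Complex.abs_re_le_norm ((T n : ℂ) + v * Complex.I)
      simp only [Complex.add_re, Complex.ofReal_re, Complex.mul_re, Complex.I_re, Complex.ofReal_im,
        Complex.I_im] at this
      rw [show T n + (v * 0 - 0 * 1) = T n by ring, abs_of_pos hT] at this
      exact this
    have n3 : ‖∫ v in (e n)..(T n), fm x a b b1 B2 (-T n + v * Complex.I)‖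
        ≤ M * (C / (T n) ^ 2) * |T n - e n| := by
      refine intervalIntegral.norm_integral_le_of_norm_le_const fun v _ => hbd _ ?_
      have := Complex.abs_re_le_norm (-(T n : ℂ) + v * Complex.I)
      simp only [Complex.add_re, Complex.neg_re, Complex.ofReal_re, Complex.mul_re, Complex.I_re,
        Complex.ofReal_im, Complex.I_im] at this
      rw [show -T n + (v * 0 - 0 * 1) = -T n by ring, abs_neg, abs_of_pos hT] at this
      exact this
    have q1 : |T n - -(T n)| = 2 * T n := by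
      rw [abs_of_nonneg (by linarith)]; ring
    have q2 : |T n - e n| ≤ T n := by
      rw [abs_of_nonneg (by linarith [heT n])]
      linarith [hepos n]
    have hK : 0 ≤ M * (C / (T n) ^ 2) := by positivity
    rw [q1] at n1
    have n2' := n2.trans (mul_le_mul_of_nonneg_left q2 hK)
    have n3' := n3.trans (mul_le_mul_of_nonneg_left q2 hK)
    rw [Real.norm_eq_abs]
    refine (Complex.abs_im_le_norm _).trans ?_
    refine (norm_sub_le _ _).trans ?_
    refine (add_le_add_left (norm_add_le _ _) _).trans ?_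
    rw [norm_neg, norm_smul, norm_smul, Complex.norm_I, one_mul, one_mul]
    have hfin : M * (C / (T n) ^ 2) * (2 * T n) + M * (C / (T n) ^ 2) * T n
        + M * (C / (T n) ^ 2) * T n = 4 * M * C * (T n)⁻¹ := by
      field_simp
      ring
    linarith
  -- the bottom term
  have hbot : Tendsto (fun n => (∫ u in (-(T n))..(T n), fm x a b b1 B2 (u + e n * Complex.I)).im)
      atTop (𝓝 (- ∑ j, a j * ∫ t, Th x a b b1 B2 j t * (1 + t ^ 2)⁻¹)) := by
    have hsum := tendsto_finsetSum (Finset.univ : Finset ι) (fun j _ =>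
      (tendsto_bottom_term hx a b c1 c3 hM j).const_mul (a j))
    refine hsum.neg.congr fun n => ?_
    have hcl : ∀ (y : ι → ℝ), Continuous (fun u : ℝ => Hf x y ((u : ℂ) + (e n : ℂ) * Complex.I)) := by
      intro y
      have := continuous_Hf_line x y (hepos n) 0 1
      simpa using this
    have hcont : Continuous (fun u : ℝ => b1 (Hf x a ((u : ℂ) + (e n : ℂ) * Complex.I))
        * B2 (Hf x b ((u : ℂ) + (e n : ℂ) * Complex.I))) :=
      (c1.comp (hcl a)).mul (c3.comp (hcl b))
    have hcj : ∀ j, Continuous (fun u : ℝ => (b1 (Hf x a ((u : ℂ) + (e n : ℂ) * Complex.I))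
        * B2 (Hf x b ((u : ℂ) + (e n : ℂ) * Complex.I)))
        * (e n / ((u - x j) ^ 2 + e n ^ 2))) := by
      intro j
      refine hcont.mul (Continuous.div (by fun_prop) (by fun_prop) fun u => ?_)
      have := hepos n
      positivity
    have hfmc : Continuous (fun u : ℝ => fm x a b b1 B2 (u + e n * Complex.I)) := by
      have h5 := continuousOn_fm x a b c1 c3
      refine h5.comp_continuous (by fun_prop) fun u => ?_
      simp [hepos n]
    have him : (∫ u in (-(T n))..(T n), fm x a b b1 B2 (u + e n * Complex.I)).im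
        = ∫ u in (-(T n))..(T n), (fm x a b b1 B2 (u + e n * Complex.I)).im := by
      have := Complex.imCLM.intervalIntegral_comp_comm
        (hfmc.intervalIntegrable (μ := volume) (-(T n)) (T n))
      simp only [Complex.imCLM_apply] at this
      exact this.symm
    rw [him]
    have hpt : ∀ u : ℝ, (fm x a b b1 B2 (u + e n * Complex.I)).im
        = ∑ j, -(a j * ((b1 (Hf x a ((u : ℂ) + (e n : ℂ) * Complex.I))
        * B2 (Hf x b ((u : ℂ) + (e n : ℂ) * Complex.I)))
        * (e n / ((u - x j) ^ 2 + e n ^ 2)))) := by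
      intro u
      unfold fm
      rw [Complex.im_ofReal_mul, Lg1_im, mul_neg, Finset.mul_sum, ← Finset.sum_neg_distrib]
      refine Finset.sum_congr rfl fun j _ => ?_
      ring
    simp_rw [hpt]
    have hintj : ∀ j ∈ (Finset.univ : Finset ι), IntervalIntegrable (fun u : ℝ =>
        -(a j * ((b1 (Hf x a ((u : ℂ) + (e n : ℂ) * Complex.I))
        * B2 (Hf x b ((u : ℂ) + (e n : ℂ) * Complex.I)))
        * (e n / ((u - x j) ^ 2 + e n ^ 2))))) volume (-(T n)) (T n) := fun j _ =>
      (((hcj j).const_mul (a j)).neg).intervalIntegrable _ _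
    rw [intervalIntegral.integral_finsetSum hintj, ← Finset.sum_neg_distrib]
    refine Finset.sum_congr rfl fun j _ => ?_
    rw [intervalIntegral.integral_neg, intervalIntegral.integral_const_mul]
  have hfinal := hbot.add herr
  rw [add_zero] at hfinal
  exact hfinal.congr fun n => (hid n).symm

end Limit3


section Bound

lemma arg_add_I (t : ℝ) : Complex.arg ((t : ℂ) + Complex.I) = Real.pi / 2 - Real.arctan t := by
  have hs : 0 < √(1 + t ^ 2) := Real.sqrt_pos.2 (by positivity)
  have h1 := Real.arctan_lt_pi_div_two t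
  have h2 := Real.neg_pi_div_two_lt_arctan t
  have key : (t : ℂ) + Complex.I = ((√(1 + t ^ 2) : ℝ) : ℂ) *
      (Real.cos (Real.pi / 2 - Real.arctan t) + Real.sin (Real.pi / 2 - Real.arctan t) * Complex.I) := by
    rw [Real.cos_pi_div_two_sub, Real.sin_pi_div_two_sub, Real.sin_arctan, Real.cos_arctan]
    have hne : ((√(1 + t ^ 2) : ℝ) : ℂ) ≠ 0 := by exact_mod_cast hs.ne'
    push_cast
    field_simp
  rw [key]
  have := Complex.arg_mul_cos_add_sin_mul_I hs (θ := Real.pi / 2 - Real.arctan t)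
    ⟨by linarith [Real.pi_pos], by linarith⟩
  rw [← Complex.ofReal_cos, ← Complex.ofReal_sin] at this
  exact this

lemma arg_add_I_neg (t : ℝ) : Complex.arg (((-t : ℝ) : ℂ) + Complex.I)
    = Real.pi - Complex.arg ((t : ℂ) + Complex.I) := by
  rw [arg_add_I, arg_add_I, Real.arctan_neg]
  ring

lemma hasDerivAt_arg_add_I (t : ℝ) :
    HasDerivAt (fun t : ℝ => Complex.arg ((t : ℂ) + Complex.I)) (-(1 + t ^ 2)⁻¹) t := by
  have h : (fun t : ℝ => Complex.arg ((t : ℂ) + Complex.I))
      = fun t => Real.pi / 2 - Real.arctan t := by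
    funext t; exact arg_add_I t
  rw [h]
  have := (Real.hasDerivAt_arctan t).const_sub (Real.pi / 2)
  simpa using this

lemma tendsto_arg_atTop :
    Tendsto (fun t : ℝ => Complex.arg ((t : ℂ) + Complex.I)) atTop (𝓝 0) := by
  have h : (fun t : ℝ => Complex.arg ((t : ℂ) + Complex.I))
      = fun t => Real.pi / 2 - Real.arctan t := by
    funext t; exact arg_add_I t
  rw [h]
  have := (Real.tendsto_arctan_atTop.mono_right nhdsWithin_le_nhds).const_sub (Real.pi / 2)
  simpa using this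

lemma tendsto_arg_atBot :
    Tendsto (fun t : ℝ => Complex.arg ((t : ℂ) + Complex.I)) atBot (𝓝 Real.pi) := by
  have h : (fun t : ℝ => Complex.arg ((t : ℂ) + Complex.I))
      = fun t => Real.pi / 2 - Real.arctan t := by
    funext t; exact arg_add_I t
  rw [h]
  have := (Real.tendsto_arctan_atBot.mono_right nhdsWithin_le_nhds).const_sub (Real.pi / 2)
  have e : Real.pi / 2 - -(Real.pi / 2) = Real.pi := by ring
  rwa [e] at this

variable (x a b : ι → ℝ) {b1 b2 B2 : ℝ → ℝ}

lemma continuous_arg_add_I : Continuous (fun t : ℝ => Complex.arg ((t : ℂ) + Complex.I)) :=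
  continuous_iff_continuousAt.2 fun t => (hasDerivAt_arg_add_I t).continuousAt

lemma continuous_Th (h1 : Continuous b1) (h3 : Continuous B2) (j : ι) :
    Continuous (Th x a b b1 B2 j) := by
  unfold Th
  have := continuous_arg_add_I
  fun_prop

lemma integrable_Th (h1 : Continuous b1) (h3 : Continuous B2)
    {M : ℝ} (hM : ∀ s t, |b1 s * B2 t| ≤ M) (j : ι) :
    Integrable (fun t => Th x a b b1 B2 j t * (1 + t ^ 2)⁻¹) := by
  refine Integrable.mono' (integrable_inv_one_add_sq.const_mul M) ?_ ?_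
  · refine Continuous.aestronglyMeasurable ((continuous_Th x a b h1 h3 j).mul ?_)
    exact Continuous.inv₀ (by fun_prop) fun t => by positivity
  · refine Eventually.of_forall fun t => ?_
    rw [norm_mul, Real.norm_eq_abs, Real.norm_eq_abs,
      abs_of_pos (by positivity : (0:ℝ) < (1 + t ^ 2)⁻¹)]
    exact mul_le_mul_of_nonneg_right (hM _ _) (by positivity)

/-- edges paired with opposite orientation have the same `J` -/
lemma J_pair {j k : ι} (h1 : a k = - a j) (h2 : b k = - b j)
    (h3 : hr x a k + Real.pi * a k = hr x a j) (h4 : hr x b k + Real.pi * b k = hr x b j) :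
    ∫ t, Th x a b b1 B2 k t * (1 + t ^ 2)⁻¹ = ∫ t, Th x a b b1 B2 j t * (1 + t ^ 2)⁻¹ := by
  rw [← integral_neg_eq_self]
  refine integral_congr_ae (Eventually.of_forall fun t => ?_)
  simp only [Th]
  have e1 : hr x a k + a k * Complex.arg (((-t : ℝ) : ℂ) + Complex.I)
      = hr x a j + a j * Complex.arg ((t : ℂ) + Complex.I) := by
    rw [arg_add_I_neg, ← h3, h1]; ring
  have e2 : hr x b k + b k * Complex.arg (((-t : ℝ) : ℂ) + Complex.I)
      = hr x b j + b j * Complex.arg ((t : ℂ) + Complex.I) := by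
    rw [arg_add_I_neg, ← h4, h2]; ring
  rw [e1, e2]
  simp

/-- one unpaired edge -/
lemma J_unpaired (h1 : Continuous b1) (h10 : ∀ t, 0 ≤ b1 t) (h3 : Continuous B2)
    {I2 : ℝ} (h21 : ∀ t, B2 t ≤ I2)
    {M : ℝ} (hM : ∀ s t, |b1 s * B2 t| ≤ M) (hM1 : ∀ s, |b1 s| ≤ M) {j : ι} (hj : a j < 0) :
    -(a j * ∫ t, Th x a b b1 B2 j t * (1 + t ^ 2)⁻¹)
      ≤ (∫ s in Ioo (hr x a j + Real.pi * a j) (hr x a j), b1 s) * I2 := by
  set β : ℝ → ℝ := fun s => ∫ u in (0 : ℝ)..s, b1 u with hβ
  have hβd : ∀ s, HasDerivAt β (b1 s) s := fun s =>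
    intervalIntegral.integral_hasDerivAt_right (h1.intervalIntegrable _ _)
      (h1.stronglyMeasurableAtFilter _ _) h1.continuousAt
  have hβc : Continuous β := continuous_iff_continuousAt.2 fun s => (hβd s).continuousAt
  have hder : ∀ t : ℝ, HasDerivAt (fun t : ℝ => β (hr x a j + a j * Complex.arg ((t : ℂ) + Complex.I)))
      (b1 (hr x a j + a j * Complex.arg ((t : ℂ) + Complex.I)) * (a j * (-(1 + t ^ 2)⁻¹))) t := by
    intro t
    have e1 : HasDerivAt (fun t : ℝ => hr x a j + a j * Complex.arg ((t : ℂ) + Complex.I))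
        (a j * (-(1 + t ^ 2)⁻¹)) t := by
      have := ((hasDerivAt_arg_add_I t).const_mul (a j)).const_add (hr x a j)
      simpa using this
    exact (hβd _).comp t e1
  have hint : Integrable (fun t : ℝ => b1 (hr x a j + a j * Complex.arg ((t : ℂ) + Complex.I))
      * (1 + t ^ 2)⁻¹) := by
    refine Integrable.mono' (integrable_inv_one_add_sq.const_mul M) ?_ ?_
    · refine Continuous.aestronglyMeasurable (Continuous.mul ?_ ?_)
      · have := continuous_arg_add_I
        fun_prop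
      · exact Continuous.inv₀ (by fun_prop) fun t => by positivity
    · refine Eventually.of_forall fun t => ?_
      rw [norm_mul, Real.norm_eq_abs, Real.norm_eq_abs,
        abs_of_pos (by positivity : (0:ℝ) < (1 + t ^ 2)⁻¹)]
      exact mul_le_mul_of_nonneg_right (hM1 _) (by positivity)
  have hFTC := integral_of_hasDerivAt_of_tendsto hder
    (by
      have := hint.const_mul (-(a j))
      refine this.congr (Eventually.of_forall fun t => ?_)
      simp only
      ring)
    (m := β (hr x a j + a j * Real.pi)) (n := β (hr x a j + a j * 0))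
    ((hβc.tendsto _).comp ((tendsto_arg_atBot.const_mul (a j)).const_add (hr x a j)))
    ((hβc.tendsto _).comp ((tendsto_arg_atTop.const_mul (a j)).const_add (hr x a j)))
  have hle : hr x a j + Real.pi * a j ≤ hr x a j := by
    have := mul_pos Real.pi_pos (neg_pos.2 hj)
    linarith
  have hval : ∫ s in Ioo (hr x a j + Real.pi * a j) (hr x a j), b1 s
      = -(a j) * ∫ t : ℝ, b1 (hr x a j + a j * Complex.arg ((t : ℂ) + Complex.I)) * (1 + t ^ 2)⁻¹ := by
    rw [← integral_Ioc_eq_integral_Ioo, ← intervalIntegral.integral_of_le hle,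
      ← intervalIntegral.integral_interval_sub_left (h1.intervalIntegrable 0 _)
        (h1.intervalIntegrable 0 _)]
    change β (hr x a j) - β (hr x a j + Real.pi * a j) = _
    rw [← integral_const_mul]
    rw [show hr x a j + a j * 0 = hr x a j by ring,
      show hr x a j + a j * Real.pi = hr x a j + Real.pi * a j by ring] at hFTC
    rw [← hFTC]
    refine integral_congr_ae (Eventually.of_forall fun t => ?_)
    simp only
    ring
  rw [hval, ← neg_mul, mul_assoc]
  refine mul_le_mul_of_nonneg_left ?_ (by linarith)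
  rw [← integral_mul_const]
  refine integral_mono (integrable_Th x a b h1 h3 hM j) (hint.mul_const I2) fun t => ?_
  simp only [Th]
  have p1 := h10 (hr x a j + a j * Complex.arg ((t : ℂ) + Complex.I))
  have p2 := h21 (hr x b j + b j * Complex.arg ((t : ℂ) + Complex.I))
  have p3 : (0 : ℝ) < (1 + t ^ 2)⁻¹ := by positivity
  calc b1 (hr x a j + a j * Complex.arg ((t : ℂ) + Complex.I))
        * B2 (hr x b j + b j * Complex.arg ((t : ℂ) + Complex.I)) * (1 + t ^ 2)⁻¹
      ≤ b1 (hr x a j + a j * Complex.arg ((t : ℂ) + Complex.I)) * I2 * (1 + t ^ 2)⁻¹ := by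
        refine mul_le_mul_of_nonneg_right (mul_le_mul_of_nonneg_left p2 p1) p3.le
    _ = b1 (hr x a j + a j * Complex.arg ((t : ℂ) + Complex.I)) * (1 + t ^ 2)⁻¹ * I2 := by ring

/-- boundary sum bound -/
lemma boundary_le (P : ι → Prop) [DecidablePred P] (σ : ι → ι)
    (hσP : ∀ j, P j → P (σ j)) (hσσ : ∀ j, P j → σ (σ j) = j)
    (hσa : ∀ j, P j → a (σ j) = - a j) (hσb : ∀ j, P j → b (σ j) = - b j)
    (hσha : ∀ j, P j → hr x a (σ j) + Real.pi * a (σ j) = hr x a j)
    (hσhb : ∀ j, P j → hr x b (σ j) + Real.pi * b (σ j) = hr x b j)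
    (hdisj : ∀ j k, ¬ P j → ¬ P k → a j < 0 → a k < 0 → j ≠ k →
      Disjoint (Ioo (hr x a j + Real.pi * a j) (hr x a j))
        (Ioo (hr x a k + Real.pi * a k) (hr x a k)))
    (h1 : Continuous b1) (h1i : Integrable b1) (h10 : ∀ t, 0 ≤ b1 t) (h3 : Continuous B2)
    {I2 : ℝ} (h20 : ∀ t, 0 ≤ B2 t) (h21 : ∀ t, B2 t ≤ I2)
    {M : ℝ} (hM : ∀ s t, |b1 s * B2 t| ≤ M) (hM1 : ∀ s, |b1 s| ≤ M) :
    - ∑ j, a j * ∫ t, Th x a b b1 B2 j t * (1 + t ^ 2)⁻¹ ≤ (∫ s, b1 s) * I2 := by
  classical
  set J : ι → ℝ := fun j => ∫ t, Th x a b b1 B2 j t * (1 + t ^ 2)⁻¹ with hJ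
  have hI2 : 0 ≤ I2 := (h20 0).trans (h21 0)
  have hJ0 : ∀ j, 0 ≤ J j := fun j => integral_nonneg fun t => by
    simp only [Th]
    exact mul_nonneg (mul_nonneg (h10 _) (h20 _)) (by positivity)
  have hsplit : ∑ j, a j * J j = ∑ j ∈ Finset.univ.filter P, a j * J j
      + ∑ j ∈ Finset.univ.filter (fun j => ¬ P j), a j * J j :=
    (Finset.sum_filter_add_sum_filter_not _ _ _).symm
  have hpair : ∑ j ∈ Finset.univ.filter P, a j * J j = 0 := by
    refine Finset.sum_involution (fun j _ => σ j) ?_ ?_ ?_ ?_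
    · intro j hj
      have hP := (Finset.mem_filter.1 hj).2
      have : J (σ j) = J j := J_pair x a b (hσa j hP) (hσb j hP) (hσha j hP) (hσhb j hP)
      rw [this, hσa j hP]; ring
    · intro j hj hne heq
      have hP := (Finset.mem_filter.1 hj).2
      have h5 := hσa j hP
      rw [heq] at h5
      have : a j = 0 := by linarith
      exact hne (by rw [this, zero_mul])
    · intro j hj
      exact Finset.mem_filter.2 ⟨Finset.mem_univ _, hσP j (Finset.mem_filter.1 hj).2⟩
    · intro j hj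
      exact hσσ j (Finset.mem_filter.1 hj).2
  rw [hsplit, hpair, zero_add, ← Finset.sum_neg_distrib]
  set N := Finset.univ.filter (fun j => ¬ P j ∧ a j < 0) with hN
  have hstep : ∑ j ∈ Finset.univ.filter (fun j => ¬ P j), -(a j * J j)
      ≤ ∑ j ∈ N, (∫ s in Ioo (hr x a j + Real.pi * a j) (hr x a j), b1 s) * I2 := by
    have hNsub : N ⊆ Finset.univ.filter (fun j => ¬ P j) := by
      intro j hj
      rw [hN, Finset.mem_filter] at hj
      exact Finset.mem_filter.2 ⟨Finset.mem_univ _, hj.2.1⟩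
    calc ∑ j ∈ Finset.univ.filter (fun j => ¬ P j), -(a j * J j)
        ≤ ∑ j ∈ N, -(a j * J j) := by
          rw [← Finset.sum_sdiff hNsub]
          have : ∑ j ∈ Finset.univ.filter (fun j => ¬ P j) \ N, -(a j * J j) ≤ 0 := by
            refine Finset.sum_nonpos fun j hj => ?_
            rw [Finset.mem_sdiff, Finset.mem_filter, hN, Finset.mem_filter] at hj
            have hge : 0 ≤ a j := by
              by_contra hlt
              exact hj.2 ⟨Finset.mem_univ _, hj.1.2, not_le.1 hlt⟩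
            have := mul_nonneg hge (hJ0 j)
            linarith
          linarith
      _ ≤ _ := by
          refine Finset.sum_le_sum fun j hj => ?_
          rw [hN, Finset.mem_filter] at hj
          exact J_unpaired x a b h1 h10 h3 h21 hM hM1 hj.2.2
  refine hstep.trans ?_
  rw [← Finset.sum_mul]
  refine mul_le_mul_of_nonneg_right ?_ hI2
  rw [← integral_biUnion_finset N (fun j _ => measurableSet_Ioo) ?_ (fun j _ => h1i.integrableOn)]
  · exact setIntegral_le_integral h1i (Eventually.of_forall h10)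
  · intro j hj k hk hjk
    have hj' := (Finset.mem_filter.1 (Finset.mem_coe.1 hj)).2
    have hk' := (Finset.mem_filter.1 (Finset.mem_coe.1 hk)).2
    exact hdisj j k hj'.1 hk'.1 hj'.2 hk'.2 hjk

end Bound


section Inj

variable (x a b : ι → ℝ)

lemma hasStrictDerivAt_Lg {w : ℂ} (hw : 0 < w.im) :
    HasStrictDerivAt (Lg x a) (Lg1 x a w) w := by
  unfold Lg Lg1
  refine HasStrictDerivAt.fun_sum fun j _ => ?_
  have hs : w - (x j : ℂ) ∈ Complex.slitPlane := by
    rw [Complex.mem_slitPlane_iff]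
    right
    simp
    linarith
  have h0 : HasStrictDerivAt (fun w : ℂ => w - (x j : ℂ)) 1 w :=
    (hasStrictDerivAt_id w).sub_const (x j : ℂ)
  have h1 : HasStrictDerivAt (fun w : ℂ => Complex.log (w - x j)) (1 / (w - x j)) w :=
    HasStrictDerivAt.clog h0 hs
  have h2 := h1.const_mul (a j : ℂ)
  rw [mul_one_div] at h2
  exact h2

lemma hasStrictFDerivAt_Hf {w : ℂ} (hw : 0 < w.im) :
    HasStrictFDerivAt (Hf x a) (dH x a w) w := by
  have h1 := (hasStrictDerivAt_Lg x a hw).hasStrictFDerivAt.restrictScalars ℝ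
  have h2 := Complex.imCLM.hasStrictFDerivAt.comp w h1
  have h3 : (fun z => Complex.imCLM (Lg x a z)) = Hf x a := by
    funext z
    simp [Lg_im]
  rw [h3] at h2
  exact h2

/-- real coordinates -/
noncomputable def pc (s : ℝ × ℝ) : ℂ := (s.1 : ℂ) + (s.2 : ℂ) * Complex.I

/-- `pc` as a linear map -/
noncomputable def pcL : ℝ × ℝ →L[ℝ] ℂ :=
  (Complex.ofRealCLM.comp (ContinuousLinearMap.fst ℝ ℝ ℝ))
    + (ContinuousLinearMap.smulRight (Complex.ofRealCLM.comp (ContinuousLinearMap.snd ℝ ℝ ℝ))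
      Complex.I)

lemma pcL_apply (s : ℝ × ℝ) : pcL s = pc s := by
  simp [pcL, pc]

lemma pc_im (s : ℝ × ℝ) : (pc s).im = s.2 := by simp [pc]
lemma pc_re (s : ℝ × ℝ) : (pc s).re = s.1 := by simp [pc]

/-- the planar map in real coordinates -/
noncomputable def Ph (s : ℝ × ℝ) : ℝ × ℝ := (Hf x a (pc s), Hf x b (pc s))

/-- its derivative -/
noncomputable def dPh (s : ℝ × ℝ) : ℝ × ℝ →L[ℝ] ℝ × ℝ :=
  ((dH x a (pc s)).comp pcL).prod ((dH x b (pc s)).comp pcL)

lemma hasStrictFDerivAt_Ph {s : ℝ × ℝ} (hs : 0 < s.2) :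
    HasStrictFDerivAt (Ph x a b) (dPh x a b s) s := by
  have hw : 0 < (pc s).im := by rw [pc_im]; exact hs
  have h0 : HasStrictFDerivAt pc pcL s := by
    have h := pcL.hasStrictFDerivAt (x := s)
    have e : (⇑pcL : ℝ × ℝ → ℂ) = pc := funext pcL_apply
    rw [e] at h
    exact h
  exact ((hasStrictFDerivAt_Hf x a hw).comp s h0).prodMk ((hasStrictFDerivAt_Hf x b hw).comp s h0)

lemma det_dPh (s : ℝ × ℝ) :
    (dPh x a b s).det = -((starRingEnd ℂ) (Lg1 x a (pc s)) * Lg1 x b (pc s)).im := by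
  have h : dPh x a b s = LinearMap.toContinuousLinearMap
      (Matrix.toLin (Module.Basis.finTwoProd ℝ) (Module.Basis.finTwoProd ℝ)
        !![(Lg1 x a (pc s)).im, (Lg1 x a (pc s)).re; (Lg1 x b (pc s)).im, (Lg1 x b (pc s)).re]) := by
    rw [Matrix.toLin_finTwoProd_toContinuousLinearMap]
    ext <;> simp [dPh, pcL, dH_apply]
  rw [h]
  simp only [LinearMap.det_toContinuousLinearMap, LinearMap.det_toLin, Matrix.det_fin_two_of]
  simp only [Complex.mul_im, Complex.conj_re, Complex.conj_im]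
  ring

lemma continuousOn_Ph : ContinuousOn (Ph x a b) {s | 0 < s.2} := fun _ hs =>
  (hasStrictFDerivAt_Ph x a b hs).hasFDerivAt.continuousAt.continuousWithinAt

/-- local lower bound: near a point, the area integral over a neighbourhood equals `∫∫ b` -/
lemma local_area (hJ : ∀ w : ℂ, 0 < w.im → 0 < ((starRingEnd ℂ) (Lg1 x a w) * Lg1 x b w).im)
    {s : ℝ × ℝ} (hs : 0 < s.2) {r : ℝ} (hr : 0 < r) :
    ∃ δ > 0, ∀ d, 0 < d → d ≤ δ → ∃ W : Set (ℝ × ℝ), MeasurableSet W ∧ W ⊆ Metric.ball s r ∧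
      W ⊆ {s | 0 < s.2} ∧ ∀ b1 b2 : ℝ → ℝ,
        (∀ t, d ≤ |t - (Ph x a b s).1| → b1 t = 0) → (∀ t, d ≤ |t - (Ph x a b s).2| → b2 t = 0) →
        ∫ p in W, gr x a b b1 b2 (pc p) = (∫ t, b1 t) * ∫ t, b2 t := by
  have hdet : (dPh x a b s).det ≠ 0 := by
    rw [det_dPh]
    have := hJ (pc s) (by rw [pc_im]; exact hs)
    exact neg_ne_zero.2 this.ne'
  have hst : HasStrictFDerivAt (Ph x a b)
      (((dPh x a b s).toContinuousLinearEquivOfDetNeZero hdet : (ℝ × ℝ) ≃L[ℝ] (ℝ × ℝ)) :
        (ℝ × ℝ) →L[ℝ] (ℝ × ℝ)) s := by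
    rw [ContinuousLinearMap.coe_toContinuousLinearEquivOfDetNeZero]
    exact hasStrictFDerivAt_Ph x a b hs
  set e := hst.toOpenPartialHomeomorph (Ph x a b) with he
  have hecoe : (e : ℝ × ℝ → ℝ × ℝ) = Ph x a b := hst.toOpenPartialHomeomorph_coe
  have hsrc : s ∈ e.source := hst.mem_toOpenPartialHomeomorph_source
  have hUpo : IsOpen {s : ℝ × ℝ | 0 < s.2} := isOpen_lt continuous_const continuous_snd
  set U := e.source ∩ (Metric.ball s r ∩ {s | 0 < s.2}) with hU
  have hsU : s ∈ U := ⟨hsrc, Metric.mem_ball_self hr, hs⟩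
  have hUo : IsOpen (e '' U) := e.isOpen_image_source_inter (Metric.isOpen_ball.inter hUpo)
  have hUopen : IsOpen U := e.open_source.inter (Metric.isOpen_ball.inter hUpo)
  rw [hecoe] at hUo
  obtain ⟨δ, hδ, hball⟩ := Metric.isOpen_iff.1 hUo (Ph x a b s) (mem_image_of_mem _ hsU)
  refine ⟨δ, hδ, fun d hd hdδ => ?_⟩
  have hinj : InjOn (Ph x a b) U := by
    have := e.injOn
    rw [hecoe] at this
    exact this.mono inter_subset_left
  set W := U ∩ (Ph x a b) ⁻¹' (Metric.ball (Ph x a b s) d) with hW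
  have hWo : IsOpen W := by
    have hc : ContinuousOn (Ph x a b) U := (continuousOn_Ph x a b).mono fun t ht => ht.2.2
    exact hc.isOpen_inter_preimage hUopen Metric.isOpen_ball
  have himg : (Ph x a b) '' W = Metric.ball (Ph x a b s) d := by
    apply Subset.antisymm
    · rintro _ ⟨t, ht, rfl⟩
      exact ht.2
    · intro y hy
      obtain ⟨t, ht, rfl⟩ := hball (Metric.ball_subset_ball hdδ hy)
      exact ⟨t, ⟨ht, hy⟩, rfl⟩
  refine ⟨W, hWo.measurableSet, fun t ht => ht.1.2.1, fun t ht => ht.1.2.2, ?_⟩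
  intro b1 b2 hb1 hb2
  have hcv := integral_image_eq_integral_abs_det_fderiv_smul (μ := (volume : Measure (ℝ × ℝ)))
    hWo.measurableSet
    (f := Ph x a b) (f' := fun t => dPh x a b t)
    (fun t ht => (hasStrictFDerivAt_Ph x a b ht.1.2.2).hasFDerivAt.hasFDerivWithinAt)
    (hinj.mono inter_subset_left) (fun y : ℝ × ℝ => b1 y.1 * b2 y.2)
  rw [himg] at hcv
  have e1 : ∫ p in W, gr x a b b1 b2 (pc p)
      = ∫ p in W, |(dPh x a b p).det| • (b1 (Ph x a b p).1 * b2 (Ph x a b p).2) := by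
    refine setIntegral_congr_fun hWo.measurableSet fun p hp => ?_
    have hp2 : 0 < p.2 := hp.1.2.2
    have := hJ (pc p) (by rw [pc_im]; exact hp2)
    simp only [gr, det_dPh, abs_neg, abs_of_pos this, Ph, smul_eq_mul]
    ring
  rw [e1, ← hcv]
  have e2 : ∫ y in Metric.ball (Ph x a b s) d, b1 y.1 * b2 y.2 = ∫ y : ℝ × ℝ, b1 y.1 * b2 y.2 := by
    refine setIntegral_eq_integral_of_forall_compl_eq_zero fun y hy => ?_
    rw [Metric.mem_ball, Prod.dist_eq, not_lt, le_max_iff] at hy
    rcases hy with hy | hy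
    · rw [hb1 _ (by rw [Real.dist_eq] at hy; exact hy), zero_mul]
    · rw [hb2 _ (by rw [Real.dist_eq] at hy; exact hy), mul_zero]
  rw [e2, Measure.volume_eq_prod, integral_prod_mul]

end Inj


section Main

/-- **Injectivity by Stokes.** `x_j` distinct real nodes, `H = ∑ a_j arg (w - x_j)`,
`N = ∑ b_j arg (w - x_j)`, `∑ a_j = 0`, Jacobian of one sign on the upper half plane; the boundary
edges with index in `P` are paired by `σ` with reversed edges, the other edges with `a_j < 0` have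
pairwise disjoint `H`-intervals. Then (H, N) is injective on the upper half plane. -/
theorem inj_of_paired (x a b : ι → ℝ) (hx : Function.Injective x) (ha : ∑ j, a j = 0)
    (hJ : ∀ w : ℂ, 0 < w.im → 0 < ((starRingEnd ℂ) (Lg1 x a w) * Lg1 x b w).im)
    (P : ι → Prop) (σ : ι → ι)
    (hσP : ∀ j, P j → P (σ j)) (hσσ : ∀ j, P j → σ (σ j) = j)
    (hσa : ∀ j, P j → a (σ j) = - a j) (hσb : ∀ j, P j → b (σ j) = - b j)
    (hσha : ∀ j, P j → hr x a (σ j) + Real.pi * a (σ j) = hr x a j)
    (hσhb : ∀ j, P j → hr x b (σ j) + Real.pi * b (σ j) = hr x b j)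
    (hdisj : ∀ j k, ¬ P j → ¬ P k → a j < 0 → a k < 0 → j ≠ k →
      Disjoint (Ioo (hr x a j + Real.pi * a j) (hr x a j))
        (Ioo (hr x a k + Real.pi * a k) (hr x a k)))
    {p q : ℂ} (hp : 0 < p.im) (hq : 0 < q.im)
    (h1 : Hf x a p = Hf x a q) (h2 : Hf x b p = Hf x b q) : p = q := by
  classical
  by_contra hpq
  set s : ℝ × ℝ := (p.re, p.im) with hs
  set s' : ℝ × ℝ := (q.re, q.im) with hs'
  have hps : pc s = p := by
    apply Complex.ext <;> simp [pc, hs]
  have hqs : pc s' = q := by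
    apply Complex.ext <;> simp [pc, hs']
  have hss : s ≠ s' := by
    intro h
    apply hpq
    rw [← hps, ← hqs, h]
  have hs2 : 0 < s.2 := hp
  have hs2' : 0 < s'.2 := hq
  have hc : Ph x a b s = Ph x a b s' := by
    simp only [Ph, hps, hqs, h1, h2]
  -- radius
  have hdist : 0 < dist s s' := dist_pos.2 hss
  set r := min (dist s s' / 2) (min (s.2 / 2) (s'.2 / 2)) with hr0
  have hrpos : 0 < r := by
    simp only [hr0, lt_min_iff]
    refine ⟨by positivity, by positivity, by positivity⟩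
  obtain ⟨δ1, hδ1, H1⟩ := local_area x a b hJ hs2 hrpos
  obtain ⟨δ2, hδ2, H2⟩ := local_area x a b hJ hs2' hrpos
  set d := min δ1 δ2 with hd
  have hdpos : 0 < d := lt_min hδ1 hδ2
  obtain ⟨W1, hW1m, hW1b, hW1u, hW1⟩ := H1 d hdpos (min_le_left _ _)
  obtain ⟨W2, hW2m, hW2b, hW2u, hW2⟩ := H2 d hdpos (min_le_right _ _)
  -- bumps
  let B1 : ContDiffBump (Ph x a b s).1 := ⟨d / 4, d / 2, by positivity, by linarith⟩
  let B2 : ContDiffBump (Ph x a b s).2 := ⟨d / 4, d / 2, by positivity, by linarith⟩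
  have hz1 : ∀ t, d ≤ |t - (Ph x a b s).1| → B1 t = 0 := by
    intro t ht
    refine B1.zero_of_le_dist ?_
    rw [Real.dist_eq]
    exact le_trans (by change d / 2 ≤ d; linarith) ht
  have hz2 : ∀ t, d ≤ |t - (Ph x a b s).2| → B2 t = 0 := by
    intro t ht
    refine B2.zero_of_le_dist ?_
    rw [Real.dist_eq]
    exact le_trans (by change d / 2 ≤ d; linarith) ht
  set β2 : ℝ → ℝ := fun t => ∫ u in ((Ph x a b s).2 - d)..t, B2 u with hβ2
  have hB1c : Continuous (B1 : ℝ → ℝ) := B1.continuous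
  have hB2c : Continuous (B2 : ℝ → ℝ) := B2.continuous
  have hB1i : Integrable (B1 : ℝ → ℝ) := B1.integrable
  have hB2i : Integrable (B2 : ℝ → ℝ) := B2.integrable
  have hI1 : 0 < ∫ t, B1 t := B1.integral_pos
  have hI2 : 0 < ∫ t, B2 t := B2.integral_pos
  have hβd : ∀ t, HasDerivAt β2 (B2 t) t := fun t =>
    intervalIntegral.integral_hasDerivAt_right (hB2c.intervalIntegrable _ _)
      (hB2c.stronglyMeasurableAtFilter _ _) hB2c.continuousAt
  have hβ0 : ∀ t, 0 ≤ β2 t := by
    intro t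
    rcases le_total ((Ph x a b s).2 - d) t with h | h
    · exact intervalIntegral.integral_nonneg h fun u _ => B2.nonneg
    · have : β2 t = 0 := by
        simp only [hβ2]
        rw [intervalIntegral.integral_symm, neg_eq_zero]
        refine (intervalIntegral.integral_congr (g := fun _ => (0 : ℝ)) fun u hu => ?_).trans (by simp)
        rw [uIcc_of_le h] at hu
        refine hz2 u ?_
        rw [abs_of_nonpos (by linarith [hu.2])]
        linarith [hu.2]
      rw [this]
  have hβ1 : ∀ t, β2 t ≤ ∫ u, B2 u := by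
    intro t
    rcases le_total ((Ph x a b s).2 - d) t with h | h
    · simp only [hβ2]
      rw [intervalIntegral.integral_of_le h]
      exact setIntegral_le_integral hB2i (Eventually.of_forall fun u => B2.nonneg)
    · have : β2 t ≤ 0 := by
        simp only [hβ2]
        rw [intervalIntegral.integral_symm, neg_nonpos]
        exact intervalIntegral.integral_nonneg h fun u _ => B2.nonneg
      linarith
  have hB1d : ∀ t, HasDerivAt (B1 : ℝ → ℝ) (deriv (B1 : ℝ → ℝ) t) t := fun t =>
    ((B1.contDiff (n := 1)).differentiable (by norm_num)).differentiableAt.hasDerivAt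
  have hB1d' : Continuous (deriv (B1 : ℝ → ℝ)) := (B1.contDiff (n := 1)).continuous_deriv (by norm_num)
  set M : ℝ := max 1 (∫ u, B2 u) with hM0
  have hM1 : ∀ t, |B1 t| ≤ M := fun t => by
    rw [abs_of_nonneg B1.nonneg]
    exact B1.le_one.trans (le_max_left _ _)
  have hM : ∀ t u, |B1 t * β2 u| ≤ M := fun t u => by
    rw [abs_of_nonneg (mul_nonneg B1.nonneg (hβ0 u))]
    have e1 : B1 t ≤ 1 := B1.le_one
    have e2 := hβ1 u
    have e3 := hβ0 u
    calc B1 t * β2 u ≤ 1 * β2 u := mul_le_mul_of_nonneg_right e1 e3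
      _ ≤ M := by rw [one_mul]; exact e2.trans (le_max_right _ _)
  have hlim := tendsto_area hx a b ha hB1d hB1d' hβd hB2c hM
  have hbd := boundary_le x a b P σ hσP hσσ hσa hσb hσha hσhb hdisj hB1c hB1i
    (fun t => B1.nonneg) (continuous_iff_continuousAt.2 fun t => (hβd t).continuousAt)
    hβ0 hβ1 hM hM1
  have hlow : ∀ᶠ n : ℕ in atTop, 2 * ((∫ t, B1 t) * ∫ t, B2 t) ≤
      ∫ p in Ioc (-((n : ℝ) + 1)) ((n : ℝ) + 1) ×ˢ
        Ioc (1 / ((n : ℝ) + 1)) ((n : ℝ) + 1), gr x a b B1 B2 (p.1 + p.2 * Complex.I) := by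
    have hTtop : Tendsto (fun n : ℕ => (n : ℝ) + 1) atTop atTop :=
      tendsto_atTop_add_const_right _ _ tendsto_natCast_atTop_atTop
    filter_upwards [hTtop.eventually_ge_atTop (‖s‖ + ‖s'‖ + r + 1),
      hTtop.eventually_ge_atTop (4 / s.2 + 4 / s'.2)] with n hn1 hn2
    set T := (n : ℝ) + 1 with hT
    have hTpos : 0 < T := by positivity
    have hgr0 : ∀ p : ℝ × ℝ, 0 < p.2 → 0 ≤ gr x a b B1 B2 (p.1 + p.2 * Complex.I) := by
      intro p hp
      unfold gr
      refine mul_nonneg (mul_nonneg B1.nonneg B2.nonneg) ?_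
      exact (hJ _ (by rw [im_pt]; exact hp)).le
    have hsubR : ∀ (z : ℝ × ℝ), 0 < z.2 → ‖z‖ + r + 1 ≤ T → r ≤ z.2 / 2 → 4 / z.2 ≤ T →
        Metric.ball z r ⊆ Ioc (-T) T ×ˢ Ioc (1 / T) T := by
      intro z hz hzT hrz hzT2 y hy
      rw [Metric.mem_ball, Prod.dist_eq, max_lt_iff, Real.dist_eq, Real.dist_eq, abs_lt, abs_lt] at hy
      have n1 : |z.1| ≤ ‖z‖ := norm_fst_le z
      have n2 : |z.2| ≤ ‖z‖ := norm_snd_le z
      have b1 := abs_le.1 n1
      have b2 := abs_le.1 n2
      have hlow : 1 / T < y.2 := by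
        have : 1 / T ≤ z.2 / 4 := by
          rw [div_le_iff₀ hTpos]
          rw [div_le_iff₀ hz] at hzT2
          linarith
        linarith [hy.2.1]
      refine ⟨⟨by linarith [hy.1.1, b1.1], by linarith [hy.1.2, b1.2]⟩,
        ⟨hlow, by linarith [hy.2.2, b2.2]⟩⟩
    have hr1 : r ≤ s.2 / 2 := (min_le_right _ _).trans (min_le_left _ _)
    have hr2 : r ≤ s'.2 / 2 := (min_le_right _ _).trans (min_le_right _ _)
    have hq1 : 0 ≤ 4 / s.2 := by positivity
    have hq2 : 0 ≤ 4 / s'.2 := by positivity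
    have hsub1 : W1 ⊆ Ioc (-T) T ×ˢ Ioc (1 / T) T :=
      hW1b.trans (hsubR s hs2 (by linarith [norm_nonneg s']) hr1 (by linarith))
    have hsub2 : W2 ⊆ Ioc (-T) T ×ˢ Ioc (1 / T) T :=
      hW2b.trans (hsubR s' hs2' (by linarith [norm_nonneg s]) hr2 (by linarith))
    have hdisjW : Disjoint W1 W2 := by
      rw [Set.disjoint_left]
      intro y hy1 hy2
      have e1 : dist y s < r := hW1b hy1
      have e2 : dist y s' < r := hW2b hy2
      have e3 : dist s s' ≤ dist y s + dist y s' := by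
        rw [dist_comm y s]; exact dist_triangle _ _ _
      have e4 : r ≤ dist s s' / 2 := min_le_left _ _
      linarith
    have hcont : ContinuousOn (fun p : ℝ × ℝ => gr x a b B1 B2 (p.1 + p.2 * Complex.I))
        (Icc (-T) T ×ˢ Icc (1 / T) T) := by
      refine ContinuousOn.comp (g := gr x a b B1 B2) (t := {w : ℂ | 0 < w.im})
        (continuousOn_gr x a b hB1c hB2c) (by fun_prop) ?_
      intro p hp
      have h3 := hp.2.1
      have : 0 < 1 / T := by positivity
      change 0 < ((p.1 : ℂ) + (p.2 : ℂ) * Complex.I).im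
      rw [im_pt]
      linarith
    have hint : IntegrableOn (fun p : ℝ × ℝ => gr x a b B1 B2 (p.1 + p.2 * Complex.I))
        (Ioc (-T) T ×ˢ Ioc (1 / T) T) :=
      (ContinuousOn.integrableOn_compact (isCompact_Icc.prod isCompact_Icc) hcont).mono_set
        (prod_mono Ioc_subset_Icc_self Ioc_subset_Icc_self)
    have hu : ∫ p in W1 ∪ W2, gr x a b B1 B2 (p.1 + p.2 * Complex.I)
        = 2 * ((∫ t, B1 t) * ∫ t, B2 t) := by
      rw [setIntegral_union hdisjW hW2m (hint.mono_set hsub1) (hint.mono_set hsub2)]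
      have e1 := hW1 B1 B2 hz1 hz2
      have e2 := hW2 B1 B2 (by rw [← hc]; exact hz1) (by rw [← hc]; exact hz2)
      simp only [pc] at e1 e2
      rw [e1, e2]
      ring
    rw [← hu]
    refine setIntegral_mono_set hint ?_ (Eventually.of_forall (union_subset hsub1 hsub2))
    refine (ae_restrict_iff' (measurableSet_Ioc.prod measurableSet_Ioc)).2
      (Eventually.of_forall fun p hp => ?_)
    refine hgr0 p ?_
    have h3 := hp.2.1
    have : 0 < 1 / T := by positivity
    linarith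
  have hfin := ge_of_tendsto hlim hlow
  have hpos := mul_pos hI1 hI2
  linarith

end Main

end CSH.Stokes
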