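import Pool.Agent.CSH.Final
import Pool.Agent.AllN24.Final

set_option autoImplicit false

/-!
The lift theorem in the form used by the coefficient theorem for all `n`.
-/

namespace Pool.CSH

/-- **Lift theorem**, all Taylor coefficients up to `m`. -/
theorem lift_all : AllN24.LiftAll := by
  intro h g r hU m
  obtain ⟨L, F, G, R, hA, hc⟩ := lift_exists hU m
  refine ⟨L, F, G, R, hA, ?_⟩
  intro k hk hkm
  obtain ⟨j, rfl⟩ : ∃ j, k = j + 1 := ⟨k - 1, by omega⟩
  rw [hc j (by omega)]
  have h1 : ((j + 1).factorial : ℂ) ≠ 0 := by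
    exact_mod_cast Nat.factorial_ne_zero (j + 1)
  rw [mul_div_cancel_left₀ _ h1]

end Pool.CSH
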