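import Pool.Agent.CSH.Ang

/-!
Planarity from one angle function: alternation of the crossings of a level, gap pairs do not
cross, outer points lie in no bay, cyclic order of the outer points.
-/

open Complex Set

namespace Pool.CSH.PA

noncomputable section

variable {γ : ℝ → ℂ} {Ψ : ℝ → ℝ → ℝ}

lemma pos_r {r x : ℝ} (h : 0 < r * x) (hr : 0 < r) : 0 < x := by
  by_contra hcon
  rw [not_lt] at hcon
  nlinarith

lemma neg_r {r x : ℝ} (h : r * x < 0) (hr : 0 < r) : x < 0 := by
  by_contra hcon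
  rw [not_lt] at hcon
  nlinarith

lemma cell {x : ℝ} {m n : ℤ} (h1 : 2 * Real.pi * m < x) (h2 : x < 2 * Real.pi * m + 2 * Real.pi)
    (h3 : 2 * Real.pi * n < x) (h4 : x < 2 * Real.pi * n + 2 * Real.pi) : m = n := by
  have hpi := Real.pi_pos
  rcases lt_trichotomy m n with h | h | h
  · exfalso
    have : (m : ℝ) + 1 ≤ n := by exact_mod_cast h
    nlinarith
  · exact h
  · exfalso
    have : (n : ℝ) + 1 ≤ m := by exact_mod_cast h
    nlinarith

lemma band {B : ℝ → ℝ} (hB : Continuous B) {a b c : ℝ} (hab : a < b)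
    (h : ∀ t ∈ Ioo a b, ∀ n : ℤ, B t ≠ c + 2 * Real.pi * n) :
    ∃ n : ℤ, (∀ t ∈ Ioo a b, c + 2 * Real.pi * n < B t ∧ B t < c + 2 * Real.pi * n + 2 * Real.pi) ∧
      (∀ t ∈ Icc a b, c + 2 * Real.pi * n ≤ B t ∧ B t ≤ c + 2 * Real.pi * n + 2 * Real.pi) := by
  have hpi := Real.pi_pos
  have h2pi : 0 < 2 * Real.pi := by positivity
  set t0 := (a + b) / 2 with ht0
  have ht0m : t0 ∈ Ioo a b := ⟨by rw [ht0]; linarith, by rw [ht0]; linarith⟩
  set n : ℤ := ⌊(B t0 - c) / (2 * Real.pi)⌋ with hn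
  have f1 : c + 2 * Real.pi * n ≤ B t0 := by
    have := Int.floor_le ((B t0 - c) / (2 * Real.pi))
    rw [← hn, le_div_iff₀ h2pi] at this
    linarith
  have f2 : B t0 < c + 2 * Real.pi * n + 2 * Real.pi := by
    have := Int.lt_floor_add_one ((B t0 - c) / (2 * Real.pi))
    rw [← hn, div_lt_iff₀ h2pi] at this
    linarith
  have sub : ∀ t ∈ Ioo a b, uIcc t0 t ⊆ Ioo a b := by
    intro t ht s hs
    rcases le_total t0 t with h' | h'
    · rw [uIcc_of_le h'] at hs
      exact ⟨lt_of_lt_of_le ht0m.1 hs.1, lt_of_le_of_lt hs.2 ht.2⟩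
    · rw [uIcc_of_ge h'] at hs
      exact ⟨lt_of_lt_of_le ht.1 hs.1, lt_of_le_of_lt hs.2 ht0m.2⟩
  have main : ∀ t ∈ Ioo a b, c + 2 * Real.pi * n < B t ∧
      B t < c + 2 * Real.pi * n + 2 * Real.pi := by
    intro t ht
    have himg := intermediate_value_uIcc (a := t0) (b := t) (hB.continuousOn (s := uIcc t0 t))
    constructor
    · by_contra hcon
      rw [not_lt] at hcon
      have hm : c + 2 * Real.pi * n ∈ uIcc (B t0) (B t) := by
        rw [uIcc_of_ge (hcon.trans f1)]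
        exact ⟨hcon, f1⟩
      obtain ⟨s, hs, hs2⟩ := himg hm
      exact h s (sub t ht hs) n hs2
    · by_contra hcon
      rw [not_lt] at hcon
      have hm : c + 2 * Real.pi * n + 2 * Real.pi ∈ uIcc (B t0) (B t) := by
        rw [uIcc_of_le (f2.le.trans hcon)]
        exact ⟨f2.le, hcon⟩
      obtain ⟨s, hs, hs2⟩ := himg hm
      refine h s (sub t ht hs) (n + 1) ?_
      rw [hs2]; push_cast; ring
  refine ⟨n, main, fun t ht => ?_⟩
  have hcl : t ∈ closure (Ioo a b) := by rw [closure_Ioo hab.ne]; exact ht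
  constructor
  · have hc : IsClosed {s | c + 2 * Real.pi * n ≤ B s} := isClosed_le continuous_const hB
    exact hc.closure_subset_iff.2 (fun s hs => (main s hs).1.le) hcl
  · have hc : IsClosed {s | B s ≤ c + 2 * Real.pi * n + 2 * Real.pi} :=
      isClosed_le hB continuous_const
    exact hc.closure_subset_iff.2 (fun s hs => (main s hs).2.le) hcl

lemma AngData.shift' (H : AngData γ Ψ) (a b : ℝ) :
    Ψ a (b + 2 * Real.pi) = Ψ a b + Real.pi := by
  rw [H.symm, H.shift, H.symm b a]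

lemma AngData.chord (H : AngData γ Ψ) {a b : ℝ} (h1 : b < a) (h2 : a < b + 2 * Real.pi) :
    ∃ r : ℝ, 0 < r ∧ (γ a).re - (γ b).re = r * Real.cos (Ψ a b) ∧
      (γ a).im - (γ b).im = r * Real.sin (Ψ a b) := by
  obtain ⟨r, hr, h⟩ := H.sub a b h1 h2
  refine ⟨r, hr, ?_, ?_⟩
  · have := congrArg Complex.re h
    rw [Complex.sub_re, Complex.re_ofReal_mul, Complex.exp_ofReal_mul_I_re] at this
    exact this
  · have := congrArg Complex.im h
    rw [Complex.sub_im, Complex.im_ofReal_mul, Complex.exp_ofReal_mul_I_im] at this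
    exact this

lemma AngData.der_im (H : AngData γ Ψ) (a : ℝ) : ∃ r : ℝ, 0 < r ∧
    (deriv γ a).im = r * Real.sin (Ψ a a) := by
  obtain ⟨r, hr, h⟩ := H.der a
  refine ⟨r, hr, ?_⟩
  rw [h.deriv, Complex.im_ofReal_mul, Complex.exp_ofReal_mul_I_im]

/-- Two points of the curve at the same height, `p` to the left of `q`, nothing between. -/
structure Pair (γ : ℝ → ℂ) (p q : ℝ) : Prop where
  lt : p < q
  lt' : q < p + 2 * Real.pi
  lvl : (γ q).im = (γ p).im
  re : (γ p).re < (γ q).re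
  clear : ∀ t, (γ t).im = (γ p).im → ¬ ((γ p).re < (γ t).re ∧ (γ t).re < (γ q).re)

lemma Pair.inner (H : AngData γ Ψ) {p q : ℝ} (P : Pair γ p q) : ∃ m : ℤ,
    (∀ t ∈ Ioo p q, 2 * Real.pi * m < Ψ t q - Ψ t p ∧
      Ψ t q - Ψ t p < 2 * Real.pi * m + 2 * Real.pi) ∧
    (∀ t ∈ Icc p q, 2 * Real.pi * m ≤ Ψ t q - Ψ t p ∧
      Ψ t q - Ψ t p ≤ 2 * Real.pi * m + 2 * Real.pi) := by
  have hB : Continuous (fun t => Ψ t q - Ψ t p) := (H.cont q).sub (H.cont p)
  have hav : ∀ t ∈ Ioo p q, ∀ n : ℤ, Ψ t q - Ψ t p ≠ 0 + 2 * Real.pi * n := by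
    intro t ht n hn
    rw [zero_add] at hn
    have hp := ht.1
    have hq := ht.2
    have hl := P.lt'
    obtain ⟨r1, hr1, e1, e2⟩ := H.chord (a := q) (b := t) hq (by linarith)
    obtain ⟨r2, hr2, e3, e4⟩ := H.chord (a := t) (b := p) hp (by linarith)
    have e5 : Ψ q t = Ψ t p + n * (2 * Real.pi) := by
      rw [H.symm q t]; linarith
    rw [e5, Real.cos_add_int_mul_two_pi] at e1
    rw [e5, Real.sin_add_int_mul_two_pi] at e2
    have hlv := P.lvl
    have hs : Real.sin (Ψ t p) = 0 := by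
      have : (r1 + r2) * Real.sin (Ψ t p) = 0 := by linarith
      rcases mul_eq_zero.1 this with h | h
      · linarith
      · exact h
    have hc : 0 < Real.cos (Ψ t p) := by
      have h3 : 0 < (r1 + r2) * Real.cos (Ψ t p) := by
        have := P.re; linarith
      exact pos_r h3 (by linarith)
    refine P.clear t ?_ ⟨?_, ?_⟩
    · rw [hs] at e4; linarith
    · have := mul_pos hr2 hc; linarith
    · have := mul_pos hr1 hc; linarith
  obtain ⟨m, h1, h2⟩ := band hB (c := 0) P.lt hav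
  exact ⟨m, by simpa using h1, by simpa using h2⟩

lemma Pair.outer (H : AngData γ Ψ) {p q : ℝ} (P : Pair γ p q) : ∃ n : ℤ,
    (∀ t ∈ Ioo q (p + 2 * Real.pi), -Real.pi + 2 * Real.pi * n < Ψ t q - Ψ t p ∧
      Ψ t q - Ψ t p < -Real.pi + 2 * Real.pi * n + 2 * Real.pi) ∧
    (∀ t ∈ Icc q (p + 2 * Real.pi), -Real.pi + 2 * Real.pi * n ≤ Ψ t q - Ψ t p ∧
      Ψ t q - Ψ t p ≤ -Real.pi + 2 * Real.pi * n + 2 * Real.pi) := by
  have hB : Continuous (fun t => Ψ t q - Ψ t p) := (H.cont q).sub (H.cont p)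
  have hav : ∀ t ∈ Ioo q (p + 2 * Real.pi), ∀ n : ℤ,
      Ψ t q - Ψ t p ≠ -Real.pi + 2 * Real.pi * n := by
    intro t ht n hn
    have hp := ht.1
    have hq := ht.2
    have hl := P.lt
    obtain ⟨r1, hr1, e1, e2⟩ := H.chord (a := t) (b := q) hp (by linarith)
    obtain ⟨r2, hr2, e3, e4⟩ := H.chord (a := p + 2 * Real.pi) (b := t) hq (by linarith)
    rw [H.per, H.shift, Real.cos_add_pi] at e3
    rw [H.per, H.shift, Real.sin_add_pi] at e4
    have e5 : Ψ t q = Ψ p t - Real.pi + n * (2 * Real.pi) := by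
      rw [H.symm p t]; linarith
    rw [e5, Real.cos_add_int_mul_two_pi, Real.cos_sub_pi] at e1
    rw [e5, Real.sin_add_int_mul_two_pi, Real.sin_sub_pi] at e2
    have hlv := P.lvl
    have hs : Real.sin (Ψ p t) = 0 := by
      have : (r1 + r2) * Real.sin (Ψ p t) = 0 := by linarith
      rcases mul_eq_zero.1 this with h | h
      · linarith
      · exact h
    have hc : 0 < Real.cos (Ψ p t) := by
      have h3 : 0 < (r1 + r2) * Real.cos (Ψ p t) := by
        have := P.re; linarith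
      exact pos_r h3 (by linarith)
    refine P.clear t ?_ ⟨?_, ?_⟩
    · rw [hs] at e4; linarith
    · have := mul_pos hr2 hc; linarith
    · have := mul_pos hr1 hc; linarith
  obtain ⟨m, h1, h2⟩ := band hB (c := -Real.pi) P.lt' hav
  exact ⟨m, h1, h2⟩

lemma sin_nonneg_of_cell {x : ℝ} {m : ℤ} (h1 : 2 * Real.pi * m ≤ x)
    (h2 : x ≤ 2 * Real.pi * m + Real.pi) : 0 ≤ Real.sin x := by
  have : Real.sin x = Real.sin (x - m * (2 * Real.pi)) := (Real.sin_sub_int_mul_two_pi x m).symm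
  rw [this]
  exact Real.sin_nonneg_of_nonneg_of_le_pi (by linarith) (by linarith)

lemma sin_nonpos_of_cell {x : ℝ} {m : ℤ} (h1 : 2 * Real.pi * m + Real.pi ≤ x)
    (h2 : x ≤ 2 * Real.pi * m + 2 * Real.pi) : Real.sin x ≤ 0 := by
  have : Real.sin x = Real.sin (x - (m + 1 : ℤ) * (2 * Real.pi)) :=
    (Real.sin_sub_int_mul_two_pi x (m + 1)).symm
  rw [this]
  push_cast
  exact Real.sin_nonpos_of_nonpos_of_neg_pi_le (by linarith) (by linarith)

lemma Pair.dirs (H : AngData γ Ψ) {p q : ℝ} (P : Pair γ p q) :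
    Real.sin (Ψ p q - Ψ p p) = - Real.sin (Ψ p p) ∧
    Real.sin (Ψ q q - Ψ q p) = Real.sin (Ψ q q) := by
  obtain ⟨r, hr, e1, e2⟩ := H.chord P.lt P.lt'
  have hlv := P.lvl
  have hre := P.re
  have hs : Real.sin (Ψ q p) = 0 := by
    have : r * Real.sin (Ψ q p) = 0 := by linarith
    rcases mul_eq_zero.1 this with h | h
    · linarith
    · exact h
  have hc : 0 < Real.cos (Ψ q p) := by
    have h3 : 0 < r * Real.cos (Ψ q p) := by linarith
    exact pos_r h3 hr
  have hc1 : Real.cos (Ψ q p) = 1 := by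
    have := Real.sin_sq_add_cos_sq (Ψ q p)
    rw [hs] at this
    nlinarith
  constructor
  · rw [Real.sin_sub, H.symm p q, hs, hc1]; ring
  · rw [Real.sin_sub, hs, hc1]; ring

/-- The two possible types of a level pair. -/
lemma Pair.types (H : AngData γ Ψ) {p q : ℝ} (P : Pair γ p q) : ∃ m n : ℤ,
    (∀ t ∈ Ioo p q, 2 * Real.pi * m < Ψ t q - Ψ t p ∧
      Ψ t q - Ψ t p < 2 * Real.pi * m + 2 * Real.pi) ∧
    (∀ t ∈ Ioo q (p + 2 * Real.pi), -Real.pi + 2 * Real.pi * n < Ψ t q - Ψ t p ∧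
      Ψ t q - Ψ t p < -Real.pi + 2 * Real.pi * n + 2 * Real.pi) ∧
    ((n = m ∧ Real.sin (Ψ p p) ≤ 0 ∧ 0 ≤ Real.sin (Ψ q q)) ∨
      (n = m + 1 ∧ 0 ≤ Real.sin (Ψ p p) ∧ Real.sin (Ψ q q) ≤ 0)) := by
  have hpi := Real.pi_pos
  obtain ⟨m, h1, h2⟩ := P.inner H
  obtain ⟨n, h3, h4⟩ := P.outer H
  obtain ⟨d1, d2⟩ := P.dirs H
  refine ⟨m, n, h1, h3, ?_⟩
  have a1 := h2 q ⟨P.lt.le, le_rfl⟩
  have a2 := h4 q ⟨le_rfl, P.lt'.le⟩
  have a3 := h2 p ⟨le_rfl, P.lt.le⟩
  have a4 := h4 (p + 2 * Real.pi) ⟨P.lt'.le, le_rfl⟩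
  have a5 : Ψ (p + 2 * Real.pi) q - Ψ (p + 2 * Real.pi) p = Ψ p q - Ψ p p := by
    rw [H.shift, H.shift]; ring
  rw [a5] at a4
  have hn1 : n ≤ m + 1 := by
    by_contra hcon
    rw [not_le] at hcon
    have : (m : ℝ) + 1 + 1 ≤ n := by exact_mod_cast hcon
    nlinarith [a1.2, a2.1]
  have hn2 : m ≤ n := by
    by_contra hcon
    rw [not_le] at hcon
    have : (n : ℝ) + 1 ≤ m := by exact_mod_cast hcon
    nlinarith [a1.1, a2.2]
  rcases hn2.eq_or_lt with hmn | hmn
  · left
    refine ⟨hmn.symm, ?_, ?_⟩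
    · rw [← hmn] at a4
      have := sin_nonneg_of_cell (x := Ψ p q - Ψ p p) (m := m) a3.1 (by linarith [a4.2])
      linarith
    · rw [← hmn] at a2
      have := sin_nonneg_of_cell (x := Ψ q q - Ψ q p) (m := m) a1.1 (by linarith [a2.2])
      linarith
  · right
    have hmn' : n = m + 1 := by omega
    have hc : (n : ℝ) = m + 1 := by exact_mod_cast hmn'
    refine ⟨hmn', ?_, ?_⟩
    · have := sin_nonpos_of_cell (x := Ψ p q - Ψ p p) (m := m) (by
        have := a4.1; rw [hc] at this; linarith) a3.2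
      linarith
    · have := sin_nonpos_of_cell (x := Ψ q q - Ψ q p) (m := m) (by
        have := a2.1; rw [hc] at this; linarith) a1.2
      linarith

/-- The index of a gap (left end going up). -/
lemma Pair.gap (H : AngData γ Ψ) {p q : ℝ} (P : Pair γ p q) (hup : 0 < (deriv γ p).im) :
    ∃ m : ℤ, (∀ t ∈ Ioo p q, 2 * Real.pi * m < Ψ t q - Ψ t p ∧
      Ψ t q - Ψ t p < 2 * Real.pi * m + 2 * Real.pi) ∧
    (∀ t ∈ Ioo q (p + 2 * Real.pi), 2 * Real.pi * m + Real.pi < Ψ t q - Ψ t p ∧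
      Ψ t q - Ψ t p < 2 * Real.pi * m + 3 * Real.pi) := by
  obtain ⟨m, n, h1, h2, h3⟩ := P.types H
  obtain ⟨r, hr, e⟩ := H.der_im p
  have hs : 0 < Real.sin (Ψ p p) := by
    rw [e] at hup
    exact pos_r hup hr
  refine ⟨m, h1, ?_⟩
  rcases h3 with ⟨_, h, _⟩ | ⟨h, _, _⟩
  · linarith
  · intro t ht
    obtain ⟨b1, b2⟩ := h2 t ht
    have hc : (n : ℝ) = m + 1 := by exact_mod_cast h
    rw [hc] at b1 b2
    constructor <;> linarith

lemma cos_cell {x : ℝ} (h : 0 < Real.cos x) : ∃ a : ℤ, |x - 2 * Real.pi * a| < Real.pi / 2 := by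
  have hpi := Real.pi_pos
  have h2pi : 0 < 2 * Real.pi := by positivity
  set a : ℤ := ⌊(x + Real.pi) / (2 * Real.pi)⌋ with ha
  have f1 : 2 * Real.pi * a ≤ x + Real.pi := by
    have := Int.floor_le ((x + Real.pi) / (2 * Real.pi))
    rw [← ha, le_div_iff₀ h2pi] at this
    linarith
  have f2 : x + Real.pi < 2 * Real.pi * a + 2 * Real.pi := by
    have := Int.lt_floor_add_one ((x + Real.pi) / (2 * Real.pi))
    rw [← ha, div_lt_iff₀ h2pi] at this
    linarith
  have h1 : Real.cos x = Real.cos (x - a * (2 * Real.pi)) :=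
    (Real.cos_sub_int_mul_two_pi x a).symm
  refine ⟨a, ?_⟩
  by_contra hcon
  rw [not_lt] at hcon
  have h3 : Real.cos |x - 2 * Real.pi * a| ≤ 0 := by
    refine Real.cos_nonpos_of_pi_div_two_le_of_le hcon ?_
    have : |x - 2 * Real.pi * a| ≤ Real.pi := abs_le.2 ⟨by linarith, by linarith⟩
    linarith
  rw [Real.cos_abs] at h3
  rw [h1] at h
  have : x - a * (2 * Real.pi) = x - 2 * Real.pi * a := by ring
  rw [this] at h
  linarith

/-- Two gaps are never interlaced (ordered form). -/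
lemma noncross_core (H : AngData γ Ψ) {p q p' q' : ℝ} (P : Pair γ p q) (P' : Pair γ p' q')
    (up : 0 < (deriv γ p).im) (up' : 0 < (deriv γ p').im)
    (h1 : p < p') (h2 : p' < q) (h3 : q < q') (h4 : q' < p + 2 * Real.pi) : False := by
  have hpi := Real.pi_pos
  obtain ⟨m, g1, g2⟩ := P.gap H up
  obtain ⟨m', g1', g2'⟩ := P'.gap H up'
  have l1 := P.lt'
  have l2 := P'.lt'
  obtain ⟨r1, hr1, c1, s1⟩ := H.chord (a := p') (b := p) h1 (by linarith)
  obtain ⟨r2, hr2, c2, s2⟩ := H.chord (a := q) (b := p') h2 (by linarith)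
  obtain ⟨r3, hr3, c3, s3⟩ := H.chord (a := q') (b := q) h3 (by linarith)
  obtain ⟨r4, hr4, c4, s4⟩ := H.chord (a := q') (b := p) (by linarith) h4
  have lv := P.lvl
  have lv' := P'.lvl
  -- a common direction
  obtain ⟨θ, t1, t2, t3, t4⟩ : ∃ θ : ℝ, 0 < Real.cos (Ψ p' p - θ) ∧
      0 < Real.cos (Ψ q p' - θ - Real.pi) ∧ 0 < Real.cos (Ψ q' q - θ) ∧
      0 < Real.cos (Ψ q' p - θ) := by
    rcases lt_trichotomy (γ p').im (γ p).im with hlt | heq | hgt
    · refine ⟨-(Real.pi / 2), ?_, ?_, ?_, ?_⟩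
      · rw [sub_neg_eq_add, Real.cos_add_pi_div_two]
        have : r1 * Real.sin (Ψ p' p) < 0 := by linarith
        have := neg_r this hr1
        linarith
      · rw [Real.cos_sub_pi, sub_neg_eq_add, Real.cos_add_pi_div_two]
        have : 0 < r2 * Real.sin (Ψ q p') := by linarith
        have := pos_r this hr2
        linarith
      · rw [sub_neg_eq_add, Real.cos_add_pi_div_two]
        have : r3 * Real.sin (Ψ q' q) < 0 := by linarith
        have := neg_r this hr3
        linarith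
      · rw [sub_neg_eq_add, Real.cos_add_pi_div_two]
        have : r4 * Real.sin (Ψ q' p) < 0 := by linarith
        have := neg_r this hr4
        linarith
    · -- same level
      have n1 : (γ p').re ≠ (γ p).re := by
        intro he
        have hc0 : Real.cos (Ψ p' p) = 0 := by
          have : r1 * Real.cos (Ψ p' p) = 0 := by linarith
          rcases mul_eq_zero.1 this with h | h
          · linarith
          · exact h
        have hs0 : Real.sin (Ψ p' p) = 0 := by
          have : r1 * Real.sin (Ψ p' p) = 0 := by linarith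
          rcases mul_eq_zero.1 this with h | h
          · linarith
          · exact h
        have := Real.sin_sq_add_cos_sq (Ψ p' p)
        rw [hc0, hs0] at this
        norm_num at this
      have n2 : (γ p').re ≠ (γ q).re := by
        intro he
        have hc0 : Real.cos (Ψ q p') = 0 := by
          have : r2 * Real.cos (Ψ q p') = 0 := by linarith
          rcases mul_eq_zero.1 this with h | h
          · linarith
          · exact h
        have hs0 : Real.sin (Ψ q p') = 0 := by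
          have : r2 * Real.sin (Ψ q p') = 0 := by linarith
          rcases mul_eq_zero.1 this with h | h
          · linarith
          · exact h
        have := Real.sin_sq_add_cos_sq (Ψ q p')
        rw [hc0, hs0] at this
        norm_num at this
      have hcl := P.clear p' heq
      have hcl2 := P.clear q' (by rw [lv', heq])
      have hcl3 := P'.clear p heq.symm
      have hcl4 := P'.clear q (by rw [lv, heq])
      have re1 := P.re
      have re2 := P'.re
      rcases lt_or_gt_of_ne n1 with hh | hh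
      · -- `p'` left of `p`; then `q'` is left of `q`, hence left
        have hq' : (γ q').re ≤ (γ p).re := by
          by_contra hcon
          rw [not_le] at hcon
          exact hcl3 ⟨hh, hcon⟩
        refine ⟨Real.pi, ?_, ?_, ?_, ?_⟩
        · rw [Real.cos_sub_pi]
          have : r1 * Real.cos (Ψ p' p) < 0 := by linarith
          have := neg_r this hr1
          linarith
        · have : Ψ q p' - Real.pi - Real.pi = Ψ q p' - 2 * Real.pi := by ring
          rw [this, Real.cos_sub_two_pi]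
          have : 0 < r2 * Real.cos (Ψ q p') := by linarith
          exact pos_r this hr2
        · rw [Real.cos_sub_pi]
          have : r3 * Real.cos (Ψ q' q) < 0 := by linarith
          have := neg_r this hr3
          linarith
        · rw [Real.cos_sub_pi]
          have hne : (γ q').re ≠ (γ p).re := by
            intro he
            have hc0 : Real.cos (Ψ q' p) = 0 := by
              have : r4 * Real.cos (Ψ q' p) = 0 := by linarith
              rcases mul_eq_zero.1 this with h | h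
              · linarith
              · exact h
            have hs0 : Real.sin (Ψ q' p) = 0 := by
              have : r4 * Real.sin (Ψ q' p) = 0 := by linarith
              rcases mul_eq_zero.1 this with h | h
              · linarith
              · exact h
            have := Real.sin_sq_add_cos_sq (Ψ q' p)
            rw [hc0, hs0] at this
            norm_num at this
          have hlt : (γ q').re < (γ p).re := lt_of_le_of_ne hq' hne
          have : r4 * Real.cos (Ψ q' p) < 0 := by linarith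
          have := neg_r this hr4
          linarith
      · have hq : (γ q).re < (γ p').re := by
          rcases lt_or_gt_of_ne n2 with h | h
          · exact absurd ⟨hh, h⟩ hcl
          · exact h
        refine ⟨0, ?_, ?_, ?_, ?_⟩
        · rw [sub_zero]
          have : 0 < r1 * Real.cos (Ψ p' p) := by linarith
          exact pos_r this hr1
        · rw [sub_zero, Real.cos_sub_pi]
          have : r2 * Real.cos (Ψ q p') < 0 := by linarith
          have := neg_r this hr2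
          linarith
        · rw [sub_zero]
          have : 0 < r3 * Real.cos (Ψ q' q) := by linarith
          exact pos_r this hr3
        · rw [sub_zero]
          have : 0 < r4 * Real.cos (Ψ q' p) := by linarith
          exact pos_r this hr4
    · refine ⟨Real.pi / 2, ?_, ?_, ?_, ?_⟩
      · rw [Real.cos_sub_pi_div_two]
        have : 0 < r1 * Real.sin (Ψ p' p) := by linarith
        exact pos_r this hr1
      · rw [Real.cos_sub_pi, Real.cos_sub_pi_div_two]
        have : r2 * Real.sin (Ψ q p') < 0 := by linarith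
        have := neg_r this hr2
        linarith
      · rw [Real.cos_sub_pi_div_two]
        have : 0 < r3 * Real.sin (Ψ q' q) := by linarith
        exact pos_r this hr3
      · rw [Real.cos_sub_pi_div_two]
        have : 0 < r4 * Real.sin (Ψ q' p) := by linarith
        exact pos_r this hr4
  obtain ⟨a, ha⟩ := cos_cell t1
  obtain ⟨b, hb⟩ := cos_cell t2
  obtain ⟨e, he⟩ := cos_cell t3
  obtain ⟨f, hf⟩ := cos_cell t4
  rw [abs_lt] at ha hb he hf
  -- the four positions
  have k1 := g1 p' ⟨h1, h2⟩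
  have k2 := g2 q' ⟨h3, h4⟩
  have k3 := g1' q ⟨h2, h3⟩
  have k4 := g2' (p + 2 * Real.pi) ⟨h4, by linarith⟩
  rw [H.shift, H.shift] at k4
  rw [H.symm p' q] at k1
  rw [H.symm q q'] at k3
  rw [H.symm p q', H.symm p p'] at k4
  have z1 : m = b - a := by
    refine cell (x := Ψ q p' - Ψ p' p) k1.1 k1.2 ?_ ?_
    · push_cast; linarith [ha.1, ha.2, hb.1, hb.2]
    · push_cast; linarith [ha.1, ha.2, hb.1, hb.2]
  have z2 : m + 1 = e - f := by
    refine cell (x := Ψ q' q - Ψ q' p + Real.pi) ?_ ?_ ?_ ?_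
    · push_cast; linarith [k2.1, k2.2]
    · push_cast; linarith [k2.1, k2.2]
    · push_cast; linarith [he.1, he.2, hf.1, hf.2]
    · push_cast; linarith [he.1, he.2, hf.1, hf.2]
  have z3 : m' = e - b - 1 := by
    refine cell (x := Ψ q' q - Ψ q p') k3.1 k3.2 ?_ ?_
    · push_cast; linarith [he.1, he.2, hb.1, hb.2]
    · push_cast; linarith [he.1, he.2, hb.1, hb.2]
  have z4 : m' + 1 = f - a := by
    refine cell (x := Ψ q' p - Ψ p' p + Real.pi) ?_ ?_ ?_ ?_
    · push_cast; linarith [k4.1, k4.2]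
    · push_cast; linarith [k4.1, k4.2]
    · push_cast; linarith [ha.1, ha.2, hf.1, hf.2]
    · push_cast; linarith [ha.1, ha.2, hf.1, hf.2]
  omega

/-! ### Gaps, outer points, top point -/

/-- `a` (going up) and `b` are consecutive on their level, `a` left of `b`. -/
structure Gap (γ : ℝ → ℂ) (a b : ℝ) : Prop where
  lvl : (γ b).im = (γ a).im
  re : (γ a).re < (γ b).re
  clear : ∀ t, (γ t).im = (γ a).im → ¬ ((γ a).re < (γ t).re ∧ (γ t).re < (γ b).re)
  up : 0 < (deriv γ a).im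

/-- Rightmost point of its level. -/
def RightPt (γ : ℝ → ℂ) (r : ℝ) : Prop := ∀ t, (γ t).im = (γ r).im → (γ t).re ≤ (γ r).re

/-- Leftmost point of its level. -/
def LeftPt (γ : ℝ → ℂ) (l : ℝ) : Prop := ∀ t, (γ t).im = (γ l).im → (γ l).re ≤ (γ t).re

/-- A highest point. -/
def TopPt (γ : ℝ → ℂ) (τ : ℝ) : Prop := ∀ t, (γ t).im ≤ (γ τ).im

lemma AngData.deriv_per (H : AngData γ Ψ) (a : ℝ) :
    deriv γ (a + 2 * Real.pi) = deriv γ a := by
  have h : γ = fun t => γ (t + 2 * Real.pi) := by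
    funext t; exact (H.per t).symm
  obtain ⟨r, hr, hd⟩ := H.der (a + 2 * Real.pi)
  have h2 : HasDerivAt (fun t => γ (t + 2 * Real.pi))
      (r * exp (Ψ (a + 2 * Real.pi) (a + 2 * Real.pi) * I)) a := hd.comp_add_const a _
  rw [hd.deriv]
  conv_rhs => rw [h]
  exact h2.deriv.symm

lemma Gap.pair_lt {a b : ℝ} (G : Gap γ a b) (h : a < b) (h' : b < a + 2 * Real.pi) :
    Pair γ a b := ⟨h, h', G.lvl, G.re, G.clear⟩

lemma Gap.pair_gt (H : AngData γ Ψ) {a b : ℝ} (G : Gap γ a b) (h : b < a)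
    (h' : a < b + 2 * Real.pi) : Pair γ a (b + 2 * Real.pi) :=
  ⟨h', by linarith, by rw [H.per]; exact G.lvl, by rw [H.per]; exact G.re,
    by rw [H.per]; exact G.clear⟩

lemma Pair.shift (H : AngData γ Ψ) {p q : ℝ} (P : Pair γ p q) :
    Pair γ (p + 2 * Real.pi) (q + 2 * Real.pi) :=
  ⟨by linarith [P.lt], by linarith [P.lt'], by rw [H.per, H.per]; exact P.lvl,
    by rw [H.per, H.per]; exact P.re, by rw [H.per, H.per]; exact P.clear⟩

/-- (F2) Two gaps in a window of length `2π` are never interlaced. -/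
theorem gap_noncross (H : AngData γ Ψ) {τ a b a' b' : ℝ} (G : Gap γ a b) (G' : Gap γ a' b')
    (ha : a ∈ Ioo τ (τ + 2 * Real.pi)) (hb : b ∈ Ioo τ (τ + 2 * Real.pi))
    (ha' : a' ∈ Ioo τ (τ + 2 * Real.pi)) (hb' : b' ∈ Ioo τ (τ + 2 * Real.pi)) :
    ¬ (min a b < min a' b' ∧ min a' b' < max a b ∧ max a b < max a' b') := by
  rintro ⟨h1, h2, h3⟩
  have hab : a ≠ b := by rintro rfl; exact lt_irrefl _ G.re
  have hab' : a' ≠ b' := by rintro rfl; exact lt_irrefl _ G'.re
  have A1 := ha.1; have A2 := ha.2; have B1 := hb.1; have B2 := hb.2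
  have A1' := ha'.1; have A2' := ha'.2; have B1' := hb'.1; have B2' := hb'.2
  rcases lt_or_gt_of_ne hab with h | h
  · rw [min_eq_left h.le] at h1
    rw [max_eq_right h.le] at h2 h3
    have P := G.pair_lt h (by linarith)
    rcases lt_or_gt_of_ne hab' with h' | h'
    · rw [min_eq_left h'.le] at h1 h2
      rw [max_eq_right h'.le] at h3
      exact noncross_core H P (G'.pair_lt h' (by linarith)) G.up G'.up h1 h2 h3 (by linarith)
    · rw [min_eq_right h'.le] at h1 h2
      rw [max_eq_left h'.le] at h3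
      exact noncross_core H (G'.pair_gt H h' (by linarith)) (P.shift H) G'.up
        (by rw [H.deriv_per]; exact G.up) (by linarith) (by linarith) (by linarith) (by linarith)
  · rw [min_eq_right h.le] at h1
    rw [max_eq_left h.le] at h2 h3
    have P := G.pair_gt H h (by linarith)
    rcases lt_or_gt_of_ne hab' with h' | h'
    · rw [min_eq_left h'.le] at h1 h2
      rw [max_eq_right h'.le] at h3
      exact noncross_core H (G'.pair_lt h' (by linarith)) P G'.up G.up
        (by linarith) (by linarith) (by linarith) (by linarith)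
    · rw [min_eq_right h'.le] at h1 h2
      rw [max_eq_left h'.le] at h3
      exact noncross_core H P (G'.pair_gt H h' (by linarith)) G.up G'.up
        (by linarith) (by linarith) (by linarith) (by linarith)

/-- (F1) Consecutive points of a level have opposite directions. -/
theorem adj_types (H : AngData γ Ψ) {a b : ℝ} (hab : |a - b| < 2 * Real.pi)
    (hl : (γ b).im = (γ a).im) (hr : (γ a).re < (γ b).re)
    (hc : ∀ t, (γ t).im = (γ a).im → ¬ ((γ a).re < (γ t).re ∧ (γ t).re < (γ b).re)) :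
    ((deriv γ a).im ≤ 0 ∧ 0 ≤ (deriv γ b).im) ∨ (0 ≤ (deriv γ a).im ∧ (deriv γ b).im ≤ 0) := by
  have hne : a ≠ b := by rintro rfl; exact lt_irrefl _ hr
  rw [abs_lt] at hab
  obtain ⟨r1, hr1, e1⟩ := H.der_im a
  obtain ⟨r2, hr2, e2⟩ := H.der_im b
  have key : (Real.sin (Ψ a a) ≤ 0 ∧ 0 ≤ Real.sin (Ψ b b)) ∨
      (0 ≤ Real.sin (Ψ a a) ∧ Real.sin (Ψ b b) ≤ 0) := by
    rcases lt_or_gt_of_ne hne with h | h
    · have P : Pair γ a b := ⟨h, by linarith [hab.1], hl, hr, hc⟩
      obtain ⟨m, n, _, _, h3⟩ := P.types H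
      rcases h3 with ⟨_, h4, h5⟩ | ⟨_, h4, h5⟩
      · exact Or.inl ⟨h4, h5⟩
      · exact Or.inr ⟨h4, h5⟩
    · have P : Pair γ a (b + 2 * Real.pi) :=
        ⟨by linarith [hab.2], by linarith, by rw [H.per]; exact hl, by rw [H.per]; exact hr,
          by rw [H.per]; exact hc⟩
      obtain ⟨m, n, _, _, h3⟩ := P.types H
      have e3 : Real.sin (Ψ (b + 2 * Real.pi) (b + 2 * Real.pi)) = Real.sin (Ψ b b) := by
        rw [H.shift, H.shift', add_assoc]
        have : Real.pi + Real.pi = 2 * Real.pi := by ring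
        rw [this, Real.sin_add_two_pi]
      rw [e3] at h3
      rcases h3 with ⟨_, h4, h5⟩ | ⟨_, h4, h5⟩
      · exact Or.inl ⟨h4, h5⟩
      · exact Or.inr ⟨h4, h5⟩
  rcases key with ⟨h4, h5⟩ | ⟨h4, h5⟩
  · left
    rw [e1, e2]
    exact ⟨mul_nonpos_of_nonneg_of_nonpos hr1.le h4, mul_nonneg hr2.le h5⟩
  · right
    rw [e1, e2]
    exact ⟨mul_nonneg hr1.le h4, mul_nonpos_of_nonneg_of_nonpos hr2.le h5⟩

lemma RightPt.shift (H : AngData γ Ψ) {r : ℝ} (h : RightPt γ r) : RightPt γ (r + 2 * Real.pi) := by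
  intro t ht
  rw [H.per] at ht ⊢
  exact h t ht

lemma LeftPt.shift (H : AngData γ Ψ) {r : ℝ} (h : LeftPt γ r) : LeftPt γ (r + 2 * Real.pi) := by
  intro t ht
  rw [H.per] at ht ⊢
  exact h t ht

lemma TopPt.shift (H : AngData γ Ψ) {r : ℝ} (h : TopPt γ r) : TopPt γ (r + 2 * Real.pi) := by
  intro t
  rw [H.per]
  exact h t

/-- Band of a rightmost point. -/
lemma RightPt.band (H : AngData γ Ψ) {r : ℝ} (h : RightPt γ r) : ∃ n : ℤ,
    (∀ t ∈ Ioo r (r + 2 * Real.pi), 2 * Real.pi * n < Ψ t r ∧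
      Ψ t r < 2 * Real.pi * n + 2 * Real.pi) ∧
    (2 * Real.pi * n ≤ Ψ r r ∧ Ψ r r ≤ 2 * Real.pi * n + Real.pi) := by
  have hpi := Real.pi_pos
  have hav : ∀ t ∈ Ioo r (r + 2 * Real.pi), ∀ n : ℤ, Ψ t r ≠ 0 + 2 * Real.pi * n := by
    intro t ht n hn
    obtain ⟨ρ, hρ, c1, s1⟩ := H.chord ht.1 ht.2
    have e : Ψ t r = 0 + n * (2 * Real.pi) := by linarith
    rw [e, Real.cos_add_int_mul_two_pi, Real.cos_zero] at c1
    rw [e, Real.sin_add_int_mul_two_pi, Real.sin_zero] at s1
    have := h t (by linarith)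
    linarith
  obtain ⟨n, h1, h2⟩ := Pool.CSH.PA.band (H.cont r) (a := r) (b := r + 2 * Real.pi) (c := 0)
    (by linarith) hav
  refine ⟨n, by simpa using h1, ?_⟩
  have a1 := h2 r ⟨le_rfl, by linarith⟩
  have a2 := h2 (r + 2 * Real.pi) ⟨by linarith, le_rfl⟩
  rw [H.shift] at a2
  exact ⟨by linarith [a1.1], by linarith [a2.2]⟩

/-- Band of a leftmost point. -/
lemma LeftPt.band (H : AngData γ Ψ) {l : ℝ} (h : LeftPt γ l) : ∃ n : ℤ,
    (∀ t ∈ Ioo l (l + 2 * Real.pi), 2 * Real.pi * n - Real.pi < Ψ t l ∧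
      Ψ t l < 2 * Real.pi * n + Real.pi) ∧
    (2 * Real.pi * n - Real.pi ≤ Ψ l l ∧ Ψ l l ≤ 2 * Real.pi * n) := by
  have hpi := Real.pi_pos
  have hav : ∀ t ∈ Ioo l (l + 2 * Real.pi), ∀ n : ℤ, Ψ t l ≠ -Real.pi + 2 * Real.pi * n := by
    intro t ht n hn
    obtain ⟨ρ, hρ, c1, s1⟩ := H.chord ht.1 ht.2
    have e : Ψ t l = -Real.pi + n * (2 * Real.pi) := by linarith
    rw [e, Real.cos_add_int_mul_two_pi, Real.cos_neg, Real.cos_pi] at c1
    rw [e, Real.sin_add_int_mul_two_pi, Real.sin_neg, Real.sin_pi] at s1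
    have := h t (by linarith)
    linarith
  obtain ⟨n, h1, h2⟩ := Pool.CSH.PA.band (H.cont l) (a := l) (b := l + 2 * Real.pi) (c := -Real.pi)
    (by linarith) hav
  refine ⟨n, fun t ht => ?_, ?_⟩
  · have := h1 t ht
    exact ⟨by linarith [this.1], by linarith [this.2]⟩
  · have a1 := h2 l ⟨le_rfl, by linarith⟩
    have a2 := h2 (l + 2 * Real.pi) ⟨by linarith, le_rfl⟩
    rw [H.shift] at a2
    exact ⟨by linarith [a1.1], by linarith [a2.2]⟩

/-- Band of a top point. -/
lemma TopPt.band (H : AngData γ Ψ) {τ : ℝ} (h : TopPt γ τ) : ∃ n : ℤ,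
    (∀ t ∈ Ioo τ (τ + 2 * Real.pi), 2 * Real.pi * n - Real.pi ≤ Ψ t τ ∧
      Ψ t τ ≤ 2 * Real.pi * n) := by
  have hpi := Real.pi_pos
  have hsin : ∀ t ∈ Ioo τ (τ + 2 * Real.pi), Real.sin (Ψ t τ) ≤ 0 := by
    intro t ht
    obtain ⟨ρ, hρ, c1, s1⟩ := H.chord ht.1 ht.2
    have := h t
    by_contra hcon
    rw [not_le] at hcon
    have := mul_pos hρ hcon
    linarith
  have hav : ∀ t ∈ Ioo τ (τ + 2 * Real.pi), ∀ n : ℤ, Ψ t τ ≠ Real.pi / 2 + 2 * Real.pi * n := by
    intro t ht n hn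
    have e : Ψ t τ = Real.pi / 2 + n * (2 * Real.pi) := by linarith
    have := hsin t ht
    rw [e, Real.sin_add_int_mul_two_pi, Real.sin_pi_div_two] at this
    linarith
  obtain ⟨n, h1, h2⟩ := Pool.CSH.PA.band (H.cont τ) (a := τ) (b := τ + 2 * Real.pi)
    (c := Real.pi / 2) (by linarith) hav
  refine ⟨n + 1, fun t ht => ?_⟩
  have b1 := h1 t ht
  have b2 := hsin t ht
  push_cast
  constructor
  · by_contra hcon
    rw [not_le] at hcon
    have : 0 < Real.sin (Ψ t τ) := by
      have e : Real.sin (Ψ t τ) = Real.sin (Ψ t τ - n * (2 * Real.pi)) :=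
        (Real.sin_sub_int_mul_two_pi _ n).symm
      rw [e]
      exact Real.sin_pos_of_pos_of_lt_pi (by linarith [b1.1]) (by linarith)
    linarith
  · by_contra hcon
    rw [not_le] at hcon
    have : 0 < Real.sin (Ψ t τ) := by
      have e : Real.sin (Ψ t τ) = Real.sin (Ψ t τ - (n + 1 : ℤ) * (2 * Real.pi)) :=
        (Real.sin_sub_int_mul_two_pi _ (n + 1)).symm
      rw [e]
      push_cast
      exact Real.sin_pos_of_pos_of_lt_pi (by linarith) (by linarith [b1.2])
    linarith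

lemma sin_pos_cell {x : ℝ} {n : ℤ} (h1 : 2 * Real.pi * n < x)
    (h2 : x < 2 * Real.pi * n + 2 * Real.pi) (hs : 0 < Real.sin x) :
    x < 2 * Real.pi * n + Real.pi := by
  by_contra hcon
  rw [not_lt] at hcon
  have := sin_nonpos_of_cell hcon h2.le
  linarith

lemma sin_neg_cell {x : ℝ} {n : ℤ} (h1 : 2 * Real.pi * n < x)
    (h2 : x < 2 * Real.pi * n + 2 * Real.pi) (hs : Real.sin x < 0) :
    2 * Real.pi * n + Real.pi < x := by
  by_contra hcon
  rw [not_lt] at hcon
  have := sin_nonneg_of_cell h1.le hcon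
  linarith

lemma sin_pos_cell' {x : ℝ} {n : ℤ} (h1 : 2 * Real.pi * n - Real.pi < x)
    (h2 : x < 2 * Real.pi * n + Real.pi) (hs : 0 < Real.sin x) :
    2 * Real.pi * n < x := by
  by_contra hcon
  rw [not_lt] at hcon
  have e : Real.sin x = Real.sin (x - n * (2 * Real.pi)) := (Real.sin_sub_int_mul_two_pi x n).symm
  have : Real.sin x ≤ 0 := by
    rw [e]
    exact Real.sin_nonpos_of_nonpos_of_neg_pi_le (by linarith) (by linarith)
  linarith

lemma sin_neg_cell' {x : ℝ} {n : ℤ} (h1 : 2 * Real.pi * n - Real.pi < x)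
    (h2 : x < 2 * Real.pi * n + Real.pi) (hs : Real.sin x < 0) :
    x < 2 * Real.pi * n := by
  by_contra hcon
  rw [not_lt] at hcon
  have := sin_nonneg_of_cell hcon h2.le
  linarith

/-- Points of level `c` are seen from `o` in a half plane, with continuous argument. -/
def OutAt (γ : ℝ → ℂ) (Ψ : ℝ → ℝ → ℝ) (o c : ℝ) : Prop :=
  ∀ s ∈ Ioo o (o + 2 * Real.pi), ∀ t ∈ Ioo o (o + 2 * Real.pi), (γ s).im = c → (γ t).im = c →
    |Ψ s o - Ψ t o| < Real.pi

lemma AngData.sin_sign (H : AngData γ Ψ) {a b : ℝ} (h1 : b < a) (h2 : a < b + 2 * Real.pi) :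
    ((γ b).im < (γ a).im → 0 < Real.sin (Ψ a b)) ∧
    ((γ a).im < (γ b).im → Real.sin (Ψ a b) < 0) ∧
    ((γ a).im = (γ b).im → Real.sin (Ψ a b) = 0) := by
  obtain ⟨r, hr, c1, s1⟩ := H.chord h1 h2
  refine ⟨fun h => ?_, fun h => ?_, fun h => ?_⟩
  · have : 0 < r * Real.sin (Ψ a b) := by linarith
    exact pos_r this hr
  · have : r * Real.sin (Ψ a b) < 0 := by linarith
    exact neg_r this hr
  · have : r * Real.sin (Ψ a b) = 0 := by linarith
    rcases mul_eq_zero.1 this with h | h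
    · linarith
    · exact h

lemma RightPt.outAt (H : AngData γ Ψ) {r : ℝ} (h : RightPt γ r) (c : ℝ) : OutAt γ Ψ r c := by
  have hpi := Real.pi_pos
  obtain ⟨n, hb, _⟩ := h.band H
  intro s hs t ht es et
  have S := hb s hs
  have T := hb t ht
  have s3 := H.sin_sign hs.1 hs.2
  have t3 := H.sin_sign ht.1 ht.2
  rw [es] at s3
  rw [et] at t3
  rw [abs_lt]
  rcases lt_trichotomy c (γ r).im with hc | hc | hc
  · have a1 := sin_neg_cell S.1 S.2 (s3.2.1 hc)
    have a2 := sin_neg_cell T.1 T.2 (t3.2.1 hc)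
    constructor <;> linarith [S.2, T.2]
  · -- both are `2πn + π`
    have one : ∀ x : ℝ, 2 * Real.pi * n < x → x < 2 * Real.pi * n + 2 * Real.pi →
        Real.sin x = 0 → x = 2 * Real.pi * n + Real.pi := by
      intro x h1 h2 h3
      rcases lt_trichotomy x (2 * Real.pi * n + Real.pi) with h4 | h4 | h4
      · exfalso
        have e : Real.sin x = Real.sin (x - n * (2 * Real.pi)) :=
          (Real.sin_sub_int_mul_two_pi x n).symm
        have := Real.sin_pos_of_pos_of_lt_pi (x := x - n * (2 * Real.pi)) (by linarith)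
          (by linarith)
        linarith
      · exact h4
      · exfalso
        have e : Real.sin x = Real.sin (x - (n + 1 : ℤ) * (2 * Real.pi)) :=
          (Real.sin_sub_int_mul_two_pi x (n + 1)).symm
        have := Real.sin_neg_of_neg_of_neg_pi_lt (x := x - (n + 1 : ℤ) * (2 * Real.pi))
          (by push_cast; linarith) (by push_cast; linarith)
        linarith
    have a1 := one _ S.1 S.2 (s3.2.2 hc)
    have a2 := one _ T.1 T.2 (t3.2.2 hc)
    rw [a1, a2]
    constructor <;> linarith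
  · have a1 := sin_pos_cell S.1 S.2 (s3.1 hc)
    have a2 := sin_pos_cell T.1 T.2 (t3.1 hc)
    constructor <;> linarith [S.1, T.1]

lemma LeftPt.outAt (H : AngData γ Ψ) {r : ℝ} (h : LeftPt γ r) (c : ℝ) : OutAt γ Ψ r c := by
  have hpi := Real.pi_pos
  obtain ⟨n, hb, _⟩ := h.band H
  intro s hs t ht es et
  have S := hb s hs
  have T := hb t ht
  have s3 := H.sin_sign hs.1 hs.2
  have t3 := H.sin_sign ht.1 ht.2
  rw [es] at s3
  rw [et] at t3
  rw [abs_lt]
  rcases lt_trichotomy c (γ r).im with hc | hc | hc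
  · have a1 := sin_neg_cell' S.1 S.2 (s3.2.1 hc)
    have a2 := sin_neg_cell' T.1 T.2 (t3.2.1 hc)
    constructor <;> linarith [S.1, T.1]
  · have one : ∀ x : ℝ, 2 * Real.pi * n - Real.pi < x → x < 2 * Real.pi * n + Real.pi →
        Real.sin x = 0 → x = 2 * Real.pi * n := by
      intro x h1 h2 h3
      have e : Real.sin x = Real.sin (x - n * (2 * Real.pi)) :=
        (Real.sin_sub_int_mul_two_pi x n).symm
      rcases lt_trichotomy x (2 * Real.pi * n) with h4 | h4 | h4
      · exfalso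
        have := Real.sin_neg_of_neg_of_neg_pi_lt (x := x - n * (2 * Real.pi))
          (by linarith) (by linarith)
        linarith
      · exact h4
      · exfalso
        have := Real.sin_pos_of_pos_of_lt_pi (x := x - n * (2 * Real.pi)) (by linarith)
          (by linarith)
        linarith
    have a1 := one _ S.1 S.2 (s3.2.2 hc)
    have a2 := one _ T.1 T.2 (t3.2.2 hc)
    rw [a1, a2]
    constructor <;> linarith
  · have a1 := sin_pos_cell' S.1 S.2 (s3.1 hc)
    have a2 := sin_pos_cell' T.1 T.2 (t3.1 hc)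
    constructor <;> linarith [S.2, T.2]

lemma TopPt.strict (H : AngData γ Ψ) {τ : ℝ} {n : ℤ}
    (hb : ∀ t ∈ Ioo τ (τ + 2 * Real.pi), 2 * Real.pi * n - Real.pi ≤ Ψ t τ ∧
      Ψ t τ ≤ 2 * Real.pi * n) {t : ℝ} (ht : t ∈ Ioo τ (τ + 2 * Real.pi))
    (hlt : (γ t).im < (γ τ).im) :
    2 * Real.pi * n - Real.pi < Ψ t τ ∧ Ψ t τ < 2 * Real.pi * n := by
  have S := hb t ht
  have s3 := (H.sin_sign ht.1 ht.2).2.1 hlt
  have e : Real.sin (Ψ t τ) = Real.sin (Ψ t τ - n * (2 * Real.pi)) :=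
    (Real.sin_sub_int_mul_two_pi _ n).symm
  constructor
  · refine lt_of_le_of_ne S.1 fun h => ?_
    have h0 : Ψ t τ - n * (2 * Real.pi) = -Real.pi := by linarith
    rw [h0, Real.sin_neg, Real.sin_pi] at e
    linarith
  · refine lt_of_le_of_ne S.2 fun h => ?_
    have h0 : Ψ t τ - n * (2 * Real.pi) = 0 := by linarith
    rw [h0, Real.sin_zero] at e
    linarith

lemma TopPt.outAt (H : AngData γ Ψ) {τ : ℝ} (h : TopPt γ τ) {c : ℝ} (hc : c < (γ τ).im) :
    OutAt γ Ψ τ c := by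
  obtain ⟨n, hb⟩ := h.band H
  intro s hs t ht es et
  have a1 := TopPt.strict H hb hs (by rw [es]; exact hc)
  have a2 := TopPt.strict H hb ht (by rw [et]; exact hc)
  rw [abs_lt]
  constructor <;> linarith [a1.1, a1.2, a2.1, a2.2]

lemma out_inner (H : AngData γ Ψ) {p q o : ℝ} (P : Pair γ p q) {m : ℤ}
    (g1 : ∀ t ∈ Ioo p q, 2 * Real.pi * m < Ψ t q - Ψ t p ∧
      Ψ t q - Ψ t p < 2 * Real.pi * m + 2 * Real.pi) (ho : OutAt γ Ψ o (γ p).im)
    (h : o ∈ Ioo p q) : m = 0 := by
  have hl := P.lt'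
  have h1 := ho q ⟨h.2, by linarith [h.1]⟩ (p + 2 * Real.pi) ⟨by linarith [h.2], by linarith [h.1]⟩
    P.lvl (by rw [H.per])
  rw [H.shift, abs_lt, H.symm q o, H.symm p o] at h1
  have h2 := g1 o h
  exact cell h2.1 h2.2 (by push_cast; linarith [h1.1]) (by push_cast; linarith [h1.2])

lemma out_outer (H : AngData γ Ψ) {p q o : ℝ} (P : Pair γ p q) {m : ℤ}
    (g2 : ∀ t ∈ Ioo q (p + 2 * Real.pi), 2 * Real.pi * m + Real.pi < Ψ t q - Ψ t p ∧
      Ψ t q - Ψ t p < 2 * Real.pi * m + 3 * Real.pi) (ho : OutAt γ Ψ o (γ p).im)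
    (h : o ∈ Ioo q (p + 2 * Real.pi)) : m = -1 := by
  have hl := P.lt
  have h1 := ho (q + 2 * Real.pi) ⟨by linarith [h.2], by linarith [h.1]⟩
    (p + 2 * Real.pi) ⟨by linarith [h.2], by linarith [h.1]⟩ (by rw [H.per]; exact P.lvl)
    (by rw [H.per])
  rw [H.shift, H.shift, abs_lt, H.symm q o, H.symm p o] at h1
  have h2 := g2 o h
  refine cell (x := Ψ o q - Ψ o p - Real.pi) (by linarith [h2.1]) (by linarith [h2.2])
    (by push_cast; linarith [h1.1]) (by push_cast; linarith [h1.2])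

/-- (F3) No outer point lies inside a gap pair, seen from a top point. -/
theorem out_not_inside (H : AngData γ Ψ) {τ a b o : ℝ} (hτ : TopPt γ τ) (G : Gap γ a b)
    (ha : a ∈ Ioo τ (τ + 2 * Real.pi)) (hb : b ∈ Ioo τ (τ + 2 * Real.pi))
    (hlow : (γ a).im < (γ τ).im) (ho : RightPt γ o ∨ LeftPt γ o) :
    ¬ (min a b < o ∧ o < max a b) := by
  rintro ⟨h1, h2⟩
  have hab : a ≠ b := by rintro rfl; exact lt_irrefl _ G.re
  have A1 := ha.1; have A2 := ha.2; have B1 := hb.1; have B2 := hb.2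
  have hτ' := (hτ.shift H).outAt H (c := (γ a).im) (by rw [H.per]; exact hlow)
  rcases lt_or_gt_of_ne hab with h | h
  · rw [min_eq_left h.le] at h1
    rw [max_eq_right h.le] at h2
    have P := G.pair_lt h (by linarith)
    obtain ⟨m, g1, g2⟩ := P.gap H G.up
    have ho' : OutAt γ Ψ o (γ a).im := by
      rcases ho with h' | h'
      · exact h'.outAt H _
      · exact h'.outAt H _
    have e1 := out_inner H P g1 ho' ⟨h1, h2⟩
    have e2 := out_outer H P g2 hτ' ⟨by linarith, by linarith⟩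
    omega
  · rw [min_eq_right h.le] at h1
    rw [max_eq_left h.le] at h2
    have P := G.pair_gt H h (by linarith)
    obtain ⟨m, g1, g2⟩ := P.gap H G.up
    have ho' : OutAt γ Ψ (o + 2 * Real.pi) (γ a).im := by
      rcases ho with h' | h'
      · exact (h'.shift H).outAt H _
      · exact (h'.shift H).outAt H _
    have e1 := out_outer H P g2 ho' ⟨by linarith, by linarith⟩
    have e2 := out_inner H P g1 hτ' ⟨by linarith, by linarith⟩
    omega

/-! ### Order of the outer points in the window of a top point -/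

/-- The band index of an outer point in the window equals that of the top point. -/
lemma right_index (H : AngData γ Ψ) {τ r : ℝ} {k n : ℤ}
    (hb : ∀ t ∈ Ioo τ (τ + 2 * Real.pi), 2 * Real.pi * k - Real.pi ≤ Ψ t τ ∧
      Ψ t τ ≤ 2 * Real.pi * k) (hr : r ∈ Ioo τ (τ + 2 * Real.pi)) (hlow : (γ r).im < (γ τ).im)
    (hn : ∀ t ∈ Ioo r (r + 2 * Real.pi), 2 * Real.pi * n < Ψ t r ∧
      Ψ t r < 2 * Real.pi * n + 2 * Real.pi) : n = k := by
  have hpi := Real.pi_pos
  have h1 := TopPt.strict H hb hr hlow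
  have h2 := hn (τ + 2 * Real.pi) ⟨hr.2, by linarith [hr.1]⟩
  rw [H.shift, H.symm τ r] at h2
  exact cell h2.1 h2.2 (by linarith) (by linarith)

lemma left_index (H : AngData γ Ψ) {τ r : ℝ} {k n : ℤ}
    (hb : ∀ t ∈ Ioo τ (τ + 2 * Real.pi), 2 * Real.pi * k - Real.pi ≤ Ψ t τ ∧
      Ψ t τ ≤ 2 * Real.pi * k) (hr : r ∈ Ioo τ (τ + 2 * Real.pi)) (hlow : (γ r).im < (γ τ).im)
    (hn : ∀ t ∈ Ioo r (r + 2 * Real.pi), 2 * Real.pi * n - Real.pi < Ψ t r ∧
      Ψ t r < 2 * Real.pi * n + Real.pi) : n = k := by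
  have hpi := Real.pi_pos
  have h1 := TopPt.strict H hb hr hlow
  have h2 := hn (τ + 2 * Real.pi) ⟨hr.2, by linarith [hr.1]⟩
  rw [H.shift, H.symm τ r] at h2
  refine cell (x := Ψ r τ + Real.pi + Real.pi) ?_ ?_ ?_ ?_ <;> linarith [h2.1, h2.2]

/-- (F4a) Rightmost points: higher level comes later. -/
theorem right_order (H : AngData γ Ψ) {τ r r' : ℝ} (hτ : TopPt γ τ)
    (hr : r ∈ Ioo τ (τ + 2 * Real.pi)) (hr' : r' ∈ Ioo τ (τ + 2 * Real.pi))
    (R : RightPt γ r) (R' : RightPt γ r') (hlt : (γ r).im < (γ r').im)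
    (hlow : (γ r').im < (γ τ).im) : r < r' := by
  have hpi := Real.pi_pos
  obtain ⟨k, hk⟩ := hτ.band H
  obtain ⟨n, hn, _⟩ := R.band H
  obtain ⟨n', hn', _⟩ := R'.band H
  have e1 := right_index H hk hr (hlt.trans hlow) hn
  have e2 := right_index H hk hr' hlow hn'
  by_contra hcon
  rw [not_lt] at hcon
  have hlt' : r' < r := lt_of_le_of_ne hcon (by rintro rfl; exact lt_irrefl _ hlt)
  have h1 := hn' r ⟨hlt', by linarith [hr.2, hr'.1]⟩
  have s1 := (H.sin_sign hlt' (by linarith [hr.2, hr'.1])).2.1 hlt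
  have h2 := hn (r' + 2 * Real.pi) ⟨by linarith [hr.2, hr'.1], by linarith⟩
  rw [H.shift, H.symm r' r] at h2
  have h3 := sin_neg_cell h1.1 h1.2 s1
  rw [e2] at h3
  rw [e1] at h2
  linarith [h2.2]

/-- (F4b) Leftmost points: lower level comes later. -/
theorem left_order (H : AngData γ Ψ) {τ r r' : ℝ} (hτ : TopPt γ τ)
    (hr : r ∈ Ioo τ (τ + 2 * Real.pi)) (hr' : r' ∈ Ioo τ (τ + 2 * Real.pi))
    (R : LeftPt γ r) (R' : LeftPt γ r') (hlt : (γ r).im < (γ r').im)
    (hlow : (γ r').im < (γ τ).im) : r' < r := by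
  have hpi := Real.pi_pos
  obtain ⟨k, hk⟩ := hτ.band H
  obtain ⟨n, hn, _⟩ := R.band H
  obtain ⟨n', hn', _⟩ := R'.band H
  have e1 := left_index H hk hr (hlt.trans hlow) hn
  have e2 := left_index H hk hr' hlow hn'
  by_contra hcon
  rw [not_lt] at hcon
  have hlt' : r < r' := lt_of_le_of_ne hcon (by rintro rfl; exact lt_irrefl _ hlt)
  have h1 := hn r' ⟨hlt', by linarith [hr'.2, hr.1]⟩
  have s1 := (H.sin_sign hlt' (by linarith [hr'.2, hr.1])).1 hlt
  have h2 := hn' (r + 2 * Real.pi) ⟨by linarith [hr'.2, hr.1], by linarith⟩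
  rw [H.shift, H.symm r r'] at h2
  have h3 := sin_pos_cell' h1.1 h1.2 s1
  rw [e1] at h3
  rw [e2] at h2
  linarith [h2.2]

/-- (F4c) Leftmost points come before rightmost points. -/
theorem left_right_order (H : AngData γ Ψ) {τ l r : ℝ} (hτ : TopPt γ τ)
    (hl : l ∈ Ioo τ (τ + 2 * Real.pi)) (hr : r ∈ Ioo τ (τ + 2 * Real.pi))
    (L : LeftPt γ l) (R : RightPt γ r) (hlow : (γ l).im < (γ τ).im)
    (hlow' : (γ r).im < (γ τ).im) : l ≤ r := by
  have hpi := Real.pi_pos
  obtain ⟨k, hk⟩ := hτ.band H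
  obtain ⟨n, hn, _⟩ := L.band H
  obtain ⟨n', hn', _⟩ := R.band H
  have e1 := left_index H hk hl hlow hn
  have e2 := right_index H hk hr hlow' hn'
  by_contra hcon
  rw [not_le] at hcon
  have h1 := hn' l ⟨hcon, by linarith [hl.2, hr.1]⟩
  have h2 := hn (r + 2 * Real.pi) ⟨by linarith [hl.2, hr.1], by linarith⟩
  rw [H.shift, H.symm r l] at h2
  rw [e1] at h2
  rw [e2] at h1
  linarith [h1.1, h2.2]

/-- Direction at a rightmost point. -/
theorem right_up (H : AngData γ Ψ) {r : ℝ} (R : RightPt γ r) : 0 ≤ (deriv γ r).im := by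
  obtain ⟨n, _, h1, h2⟩ := R.band H
  obtain ⟨ρ, hρ, e⟩ := H.der_im r
  rw [e]
  exact mul_nonneg hρ.le (sin_nonneg_of_cell h1 h2)

/-- Direction at a leftmost point. -/
theorem left_down (H : AngData γ Ψ) {r : ℝ} (R : LeftPt γ r) : (deriv γ r).im ≤ 0 := by
  obtain ⟨n, _, h1, h2⟩ := R.band H
  obtain ⟨ρ, hρ, e⟩ := H.der_im r
  rw [e]
  have e : Real.sin (Ψ r r) = Real.sin (Ψ r r - n * (2 * Real.pi)) :=
    (Real.sin_sub_int_mul_two_pi _ n).symm
  have : Real.sin (Ψ r r) ≤ 0 := by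
    rw [e]
    exact Real.sin_nonpos_of_nonpos_of_neg_pi_le (by linarith) (by linarith)
  exact mul_nonpos_of_nonneg_of_nonpos hρ.le this

end

end Pool.CSH.PA
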