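import Pool.Agent.CSH.Defs
import Pool.Agent.CSH.Plateau
import Pool.Agent.CSH.Planar

set_option autoImplicit false

/-!
# Planarity statements (F1 - F4) for univalent harmonic polynomials

The seven statements of the skeleton: directions of neighbours, of the leftmost and of the
rightmost point of a level, gaps do not interlace, free points are not inside gaps, left free
points come before right free points.
-/

namespace Pool.CSH

open Complex Set Metric ComplexConjugate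

theorem Uni.up {h g : Polynomial ℂ} {r : ℝ} (hU : Uni h g r) : PA.UP h g := by
  have hsub : closedBall (0 : ℂ) 1 ⊆ ball 0 r := closedBall_subset_ball hU.one_lt
  exact ⟨fun x hx y hy hxy => hU.inj (hsub hx) (hsub hy) hxy, fun z hz => hU.sp z (hsub hz)⟩

theorem Uni.ang {h g : Polynomial ℂ} {r : ℝ} (hU : Uni h g r) :
    ∃ Ψ : ℝ → ℝ → ℝ, PA.AngData (bd h g) Ψ := by
  obtain ⟨Ψ, hΨ, _⟩ := PA.exists_ang hU.up
  exact ⟨Ψ, hΨ⟩

theorem deriv_bd_im (h g : Polynomial ℂ) (θ : ℝ) : (deriv (bd h g) θ).im = vd (h - g) θ := by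
  rw [(bd_hasDerivAt h g θ).deriv]

/-- Inside a window of length `2π` the curve is injective. -/
theorem bd_inj_window {h g : Polynomial ℂ} {r : ℝ} (hU : Uni h g r) {θ₀ a b : ℝ}
    (ha : a ∈ Ioo θ₀ (θ₀ + 2 * Real.pi)) (hb : b ∈ Ioo θ₀ (θ₀ + 2 * Real.pi))
    (hab : bd h g a = bd h g b) : a = b := by
  obtain ⟨Ψ, H⟩ := hU.ang
  by_contra hne
  rcases lt_or_gt_of_ne hne with hlt | hgt
  · obtain ⟨ρ, hρ, e⟩ := H.sub b a hlt (by linarith [ha.1, hb.2])
    rw [hab, sub_self] at e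
    have := mul_eq_zero.1 e.symm
    rcases this with h1 | h1
    · exact hρ.ne' (by exact_mod_cast h1)
    · exact exp_ne_zero _ h1
  · obtain ⟨ρ, hρ, e⟩ := H.sub a b hgt (by linarith [ha.2, hb.1])
    rw [hab, sub_self] at e
    have := mul_eq_zero.1 e.symm
    rcases this with h1 | h1
    · exact hρ.ne' (by exact_mod_cast h1)
    · exact exp_ne_zero _ h1

theorem bd_periodic (h g : Polynomial ℂ) : Function.Periodic (bd h g) (2 * Real.pi) := by
  intro t
  have : exp (((t + 2 * Real.pi : ℝ) : ℂ) * I) = exp (t * I) := PA.exp_per t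
  unfold bd
  rw [this]

theorem vd_periodic (L : Polynomial ℂ) : Function.Periodic (vd L) (2 * Real.pi) := by
  intro t
  have : exp (((t + 2 * Real.pi : ℝ) : ℂ) * I) = exp (t * I) := PA.exp_per t
  unfold vd
  rw [this]

/-- F1a. -/
theorem adj_sign {h g : Polynomial ℂ} {r : ℝ} (hU : Uni h g r) {a b : ℝ}
    (hv : (bd h g a).im = (bd h g b).im) (hu : (bd h g a).re < (bd h g b).re)
    (hab : ∀ t : ℝ, (bd h g t).im = (bd h g a).im →
      (bd h g t).re ≤ (bd h g a).re ∨ (bd h g b).re ≤ (bd h g t).re)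
    (ha : vd (h - g) a ≠ 0) (hb : vd (h - g) b ≠ 0) :
    0 < vd (h - g) a ↔ vd (h - g) b < 0 := by
  obtain ⟨Ψ, H⟩ := hU.ang
  have h2pi : 0 < 2 * Real.pi := by positivity
  set b' := toIcoMod h2pi a b with hb'
  have hmem := toIcoMod_mem_Ico h2pi a b
  have hbb : b' = b - toIcoDiv h2pi a b • (2 * Real.pi) := rfl
  have e1 : bd h g b' = bd h g b := by
    rw [hbb]
    exact (bd_periodic h g).sub_zsmul_eq _
  have e2 : vd (h - g) b' = vd (h - g) b := by
    rw [hbb]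
    exact (vd_periodic _).sub_zsmul_eq _
  have key := PA.adj_types H (a := a) (b := b')
    (by
      rw [abs_lt]
      constructor
      · have := hmem.2; rw [← hb'] at this; linarith
      · have := hmem.1; rw [← hb'] at this; linarith)
    (by rw [e1, hv]) (by rw [e1]; exact hu)
    (by
      intro t ht hcon
      rw [e1] at hcon
      rcases hab t ht with h1 | h1
      · linarith [hcon.1]
      · linarith [hcon.2])
  rw [deriv_bd_im, deriv_bd_im, e2] at key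
  rcases key with ⟨h1, h2⟩ | ⟨h1, h2⟩
  · constructor
    · intro h3; exact absurd h3 (not_lt.2 h1)
    · intro h3; exact absurd h3 (not_lt.2 h2)
  · exact ⟨fun _ => lt_of_le_of_ne h2 hb, fun _ => lt_of_le_of_ne h1 (Ne.symm ha)⟩

/-- F1b. -/
theorem left_sign {h g : Polynomial ℂ} {r : ℝ} (hU : Uni h g r) {b : ℝ}
    (hb : ∀ t : ℝ, (bd h g t).im = (bd h g b).im → (bd h g b).re ≤ (bd h g t).re)
    (hb0 : vd (h - g) b ≠ 0) : vd (h - g) b < 0 := by
  obtain ⟨Ψ, H⟩ := hU.ang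
  have := PA.left_down H (r := b) hb
  rw [deriv_bd_im] at this
  exact lt_of_le_of_ne this hb0

/-- F1c. -/
theorem right_sign {h g : Polynomial ℂ} {r : ℝ} (hU : Uni h g r) {a : ℝ}
    (ha : ∀ t : ℝ, (bd h g t).im = (bd h g a).im → (bd h g t).re ≤ (bd h g a).re)
    (ha0 : vd (h - g) a ≠ 0) : 0 < vd (h - g) a := by
  obtain ⟨Ψ, H⟩ := hU.ang
  have := PA.right_up H (r := a) ha
  rw [deriv_bd_im] at this
  exact lt_of_le_of_ne this (Ne.symm ha0)

theorem Gap.pa {h g : Polynomial ℂ} {a b : ℝ} (G : Gap h g a b) : PA.Gap (bd h g) a b := by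
  obtain ⟨h1, h2, h3, h4, h5⟩ := G
  refine ⟨h1.symm, h2, ?_, ?_⟩
  · intro t ht hcon
    rcases h5 t ht with h6 | h6
    · linarith [hcon.1]
    · linarith [hcon.2]
  · rw [deriv_bd_im]; exact h3

/-- Two gaps in a window are not interlaced. -/
theorem gap_gap {h g : Polynomial ℂ} {r : ℝ} (hU : Uni h g r) {θ₀ a b a' b' : ℝ}
    (ha : a ∈ Ioo θ₀ (θ₀ + 2 * Real.pi)) (hb : b ∈ Ioo θ₀ (θ₀ + 2 * Real.pi))
    (ha' : a' ∈ Ioo θ₀ (θ₀ + 2 * Real.pi)) (hb' : b' ∈ Ioo θ₀ (θ₀ + 2 * Real.pi))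
    (h1 : Gap h g a b) (h2 : Gap h g a' b') :
    ¬ (min a b < min a' b' ∧ min a' b' < max a b ∧ max a b < max a' b') := by
  obtain ⟨Ψ, H⟩ := hU.ang
  exact PA.gap_noncross H h1.pa h2.pa ha hb ha' hb'

/-- Two gaps with a common right end have the same left end. -/
theorem gap_left_eq {h g : Polynomial ℂ} {r : ℝ} (hU : Uni h g r) {θ₀ a a' b : ℝ}
    (ha : a ∈ Ioo θ₀ (θ₀ + 2 * Real.pi)) (ha' : a' ∈ Ioo θ₀ (θ₀ + 2 * Real.pi))
    (h1 : Gap h g a b) (h2 : Gap h g a' b) : a = a' := by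
  obtain ⟨e1, e2, _, _, e5⟩ := h1
  obtain ⟨f1, f2, _, _, f5⟩ := h2
  have g1 := e5 a' (by rw [f1, e1])
  have g2 := f5 a (by rw [e1, f1])
  apply bd_inj_window hU ha ha'
  apply Complex.ext
  · rcases g1 with g1 | g1
    · rcases g2 with g2 | g2
      · exact le_antisymm g2 g1
      · linarith
    · linarith
  · rw [e1, f1]

/-- Two gaps with a common left end have the same right end. -/
theorem gap_right_eq {h g : Polynomial ℂ} {r : ℝ} (hU : Uni h g r) {θ₀ a b b' : ℝ}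
    (hb : b ∈ Ioo θ₀ (θ₀ + 2 * Real.pi)) (hb' : b' ∈ Ioo θ₀ (θ₀ + 2 * Real.pi))
    (h1 : Gap h g a b) (h2 : Gap h g a b') : b = b' := by
  obtain ⟨e1, e2, _, _, e5⟩ := h1
  obtain ⟨f1, f2, _, _, f5⟩ := h2
  have g1 := e5 b' (by rw [f1])
  have g2 := f5 b (by rw [e1])
  apply bd_inj_window hU hb hb'
  apply Complex.ext
  · rcases g1 with g1 | g1
    · linarith
    · rcases g2 with g2 | g2
      · linarith
      · exact le_antisymm g1 g2
  · rw [← e1, ← f1]

/-- NC1: gaps do not interlace. -/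
theorem nc_gap {h g : Polynomial ℂ} {r : ℝ} (hU : Uni h g r) (θ₀ : ℝ)
    (_hθ₀ : ∀ θ, vv (h - g) θ ≤ vv (h - g) θ₀) {a b a' b' : ℝ}
    (ha : a ∈ Ioo θ₀ (θ₀ + 2 * Real.pi)) (hb : b ∈ Ioo θ₀ (θ₀ + 2 * Real.pi))
    (ha' : a' ∈ Ioo θ₀ (θ₀ + 2 * Real.pi)) (hb' : b' ∈ Ioo θ₀ (θ₀ + 2 * Real.pi))
    (h1 : Gap h g a b) (h2 : Gap h g a' b') (hne : a' ≠ a)
    (hin : min a b < a' ∧ a' < max a b) : min a b < b' ∧ b' < max a b := by
  have hba : b' ≠ a := by
    rintro rfl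
    have e1 := h1.2.2.1
    have e2 := h2.2.2.2.1
    linarith
  have hbb : b' ≠ b := by
    rintro rfl
    exact hne (gap_left_eq hU ha' ha h2 h1)
  have hm : b' ≠ min a b := by
    rcases min_choice a b with h3 | h3 <;> rw [h3] <;> assumption
  have hM : b' ≠ max a b := by
    rcases max_choice a b with h3 | h3 <;> rw [h3] <;> assumption
  constructor
  · by_contra hcon
    rw [not_lt] at hcon
    have hlt : b' < min a b := lt_of_le_of_ne hcon hm
    have hba' : b' < a' := hlt.trans hin.1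
    refine gap_gap hU ha' hb' ha hb h2 h1 ⟨?_, ?_, ?_⟩
    · rw [min_eq_right hba'.le]; exact hlt
    · rw [max_eq_left hba'.le]; exact hin.1
    · rw [max_eq_left hba'.le]; exact hin.2
  · by_contra hcon
    rw [not_lt] at hcon
    have hlt : max a b < b' := lt_of_le_of_ne hcon (Ne.symm hM)
    have hba' : a' < b' := hin.2.trans hlt
    refine gap_gap hU ha hb ha' hb' h1 h2 ⟨?_, ?_, ?_⟩
    · rw [min_eq_left hba'.le]; exact hin.1
    · rw [min_eq_left hba'.le]; exact hin.2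
    · rw [max_eq_right hba'.le]; exact hlt

/-- NC1, second half. -/
theorem nc_gap' {h g : Polynomial ℂ} {r : ℝ} (hU : Uni h g r) (θ₀ : ℝ)
    (_hθ₀ : ∀ θ, vv (h - g) θ ≤ vv (h - g) θ₀) {a b a' b' : ℝ}
    (ha : a ∈ Ioo θ₀ (θ₀ + 2 * Real.pi)) (hb : b ∈ Ioo θ₀ (θ₀ + 2 * Real.pi))
    (ha' : a' ∈ Ioo θ₀ (θ₀ + 2 * Real.pi)) (hb' : b' ∈ Ioo θ₀ (θ₀ + 2 * Real.pi))
    (h1 : Gap h g a b) (h2 : Gap h g a' b') (hne : a' ≠ a)
    (hin : min a b < b' ∧ b' < max a b) : min a b < a' ∧ a' < max a b := by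
  have hba : a' ≠ b := by
    rintro rfl
    have e1 := h1.2.2.2.1
    have e2 := h2.2.2.1
    linarith
  have hm : a' ≠ min a b := by
    rcases min_choice a b with h3 | h3 <;> rw [h3] <;> assumption
  have hM : a' ≠ max a b := by
    rcases max_choice a b with h3 | h3 <;> rw [h3] <;> assumption
  constructor
  · by_contra hcon
    rw [not_lt] at hcon
    have hlt : a' < min a b := lt_of_le_of_ne hcon hm
    have hba' : a' < b' := hlt.trans hin.1
    refine gap_gap hU ha' hb' ha hb h2 h1 ⟨?_, ?_, ?_⟩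
    · rw [min_eq_left hba'.le]; exact hlt
    · rw [max_eq_right hba'.le]; exact hin.1
    · rw [max_eq_right hba'.le]; exact hin.2
  · by_contra hcon
    rw [not_lt] at hcon
    have hlt : max a b < a' := lt_of_le_of_ne hcon (Ne.symm hM)
    have hba' : b' < a' := hin.2.trans hlt
    refine gap_gap hU ha hb ha' hb' h1 h2 ⟨?_, ?_, ?_⟩
    · rw [min_eq_right hba'.le]; exact hin.1
    · rw [min_eq_right hba'.le]; exact hin.2
    · rw [max_eq_left hba'.le]; exact hlt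

theorem topPt {h g : Polynomial ℂ} {θ₀ : ℝ} (hθ₀ : ∀ θ, vv (h - g) θ ≤ vv (h - g) θ₀) :
    PA.TopPt (bd h g) θ₀ := by
  intro t
  rw [bd_im, bd_im]
  exact hθ₀ t

/-- A non-critical point lies strictly below the top. -/
theorem below_top {h g : Polynomial ℂ} {θ₀ : ℝ}
    (hθ₀ : ∀ θ, vv (h - g) θ ≤ vv (h - g) θ₀) {a : ℝ} (ha : vd (h - g) a ≠ 0) :
    (bd h g a).im < (bd h g θ₀).im := by
  rw [bd_im, bd_im]
  refine lt_of_le_of_ne (hθ₀ a) fun heq => ha ?_
  have hd : HasDerivAt (vv (h - g)) (vd (h - g) a) a := by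
    have h1 := bd_hasDerivAt h g a
    have h2 : HasDerivAt (fun t => (bd h g t).im) (vd (h - g) a) a := by
      have h3 := (Complex.imCLM.hasFDerivAt.comp_hasDerivAt a h1)
      simpa [Function.comp_def] using h3
    have h4 : (fun t => (bd h g t).im) = vv (h - g) := by
      funext t; exact bd_im h g t
    rw [h4] at h2
    exact h2
  have hmax : IsLocalMax (vv (h - g)) a := by
    refine Filter.Eventually.of_forall fun t => ?_
    rw [heq]
    exact hθ₀ t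
  exact hmax.hasDerivAt_eq_zero hd

/-- NC2: free points are not inside gaps. -/
theorem nc_free {h g : Polynomial ℂ} {r : ℝ} (hU : Uni h g r) (θ₀ : ℝ)
    (hθ₀ : ∀ θ, vv (h - g) θ ≤ vv (h - g) θ₀) {a b x : ℝ}
    (ha : a ∈ Ioo θ₀ (θ₀ + 2 * Real.pi)) (hb : b ∈ Ioo θ₀ (θ₀ + 2 * Real.pi))
    (_hx : x ∈ Ioo θ₀ (θ₀ + 2 * Real.pi)) (h1 : Gap h g a b) (h2 : RFree h g x ∨ LFree h g x) :
    ¬ (min a b < x ∧ x < max a b) := by
  obtain ⟨Ψ, H⟩ := hU.ang
  refine PA.out_not_inside H (topPt hθ₀) h1.pa ha hb (below_top hθ₀ h1.2.2.1.ne') ?_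
  rcases h2 with h3 | h3
  · exact Or.inl h3.2
  · exact Or.inr h3.2

/-- NC3: left free points come before right free points. -/
theorem nc_order {h g : Polynomial ℂ} {r : ℝ} (hU : Uni h g r) (θ₀ : ℝ)
    (hθ₀ : ∀ θ, vv (h - g) θ ≤ vv (h - g) θ₀) {x y : ℝ}
    (hx : x ∈ Ioo θ₀ (θ₀ + 2 * Real.pi)) (hy : y ∈ Ioo θ₀ (θ₀ + 2 * Real.pi))
    (h1 : LFree h g x) (h2 : RFree h g y) : x < y := by
  obtain ⟨Ψ, H⟩ := hU.ang
  have h3 := PA.left_right_order H (topPt hθ₀) hx hy h1.2 h2.2 (below_top hθ₀ h1.1.ne)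
    (below_top hθ₀ h2.1.ne')
  refine lt_of_le_of_ne h3 ?_
  rintro rfl
  exact lt_asymm h1.1 h2.1

/-- Right free points: the higher level comes later. -/
theorem rfree_order {h g : Polynomial ℂ} {r : ℝ} (hU : Uni h g r) (θ₀ : ℝ)
    (hθ₀ : ∀ θ, vv (h - g) θ ≤ vv (h - g) θ₀) {x y : ℝ}
    (hx : x ∈ Ioo θ₀ (θ₀ + 2 * Real.pi)) (hy : y ∈ Ioo θ₀ (θ₀ + 2 * Real.pi))
    (h1 : RFree h g x) (h2 : RFree h g y) (hlt : (bd h g x).im < (bd h g y).im) : x < y := by
  obtain ⟨Ψ, H⟩ := hU.ang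
  exact PA.right_order H (topPt hθ₀) hx hy h1.2 h2.2 hlt (below_top hθ₀ h2.1.ne')

/-- Left free points: the lower level comes later. -/
theorem lfree_order {h g : Polynomial ℂ} {r : ℝ} (hU : Uni h g r) (θ₀ : ℝ)
    (hθ₀ : ∀ θ, vv (h - g) θ ≤ vv (h - g) θ₀) {x y : ℝ}
    (hx : x ∈ Ioo θ₀ (θ₀ + 2 * Real.pi)) (hy : y ∈ Ioo θ₀ (θ₀ + 2 * Real.pi))
    (h1 : LFree h g x) (h2 : LFree h g y) (hlt : (bd h g x).im < (bd h g y).im) : y < x := by
  obtain ⟨Ψ, H⟩ := hU.ang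
  exact PA.left_order H (topPt hθ₀) hx hy h1.2 h2.2 hlt (below_top hθ₀ h2.1.ne)

end Pool.CSH
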