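import Pool.Agent.HU85.Renorm

/-!
# Reduction to harmonic polynomials univalent near the closed disc
-/

set_option autoImplicit false

open Complex Metric Set Filter Topology
open scoped ComplexConjugate

namespace Pool.Agent.CSH

open Pool.Agent.HU85

section LowerBound

variable {h g : ℂ → ℂ}

/-- Local lower bound for the difference quotient of `h + conj g`. -/
theorem local_lower (H : HarmU h g) {z : ℂ} (hz : z ∈ ball (0 : ℂ) 1) :
    ∃ c : ℝ, 0 < c ∧ ∀ᶠ x : ℂ × ℂ in 𝓝 (z, z),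
      c * ‖x.1 - x.2‖ ≤ ‖(h x.1 + conj (g x.1)) - (h x.2 + conj (g x.2))‖ := by
  have hz' : ‖z‖ < 1 := by simpa using hz
  set c : ℝ := (‖deriv h z‖ - ‖deriv g z‖) / 3 with hc
  have hc0 : 0 < c := by have := H.lt z hz; rw [hc]; linarith
  refine ⟨c, hc0, ?_⟩
  have hs : HasStrictDerivAt h (deriv h z) z :=
    (H.hd.analyticOnNhd isOpen_ball z hz).hasStrictDerivAt
  have gs : HasStrictDerivAt g (deriv g z) z :=
    (H.gd.analyticOnNhd isOpen_ball z hz).hasStrictDerivAt
  have h1 := (hs.hasStrictFDerivAt.isLittleO).def hc0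
  have g1 := (gs.hasStrictFDerivAt.isLittleO).def hc0
  filter_upwards [h1, g1] with x hx gx
  simp only [ContinuousLinearMap.toSpanSingleton_apply, smul_eq_mul] at hx gx
  have e1 : (h x.1 + conj (g x.1)) - (h x.2 + conj (g x.2))
      = (h x.1 - h x.2) + conj (g x.1 - g x.2) := by
    rw [map_sub]; ring
  have n1 : ‖(x.1 - x.2) * deriv h z‖ ≤ ‖h x.1 - h x.2‖ + c * ‖x.1 - x.2‖ := by
    calc ‖(x.1 - x.2) * deriv h z‖
        = ‖(h x.1 - h x.2) - (h x.1 - h x.2 - (x.1 - x.2) * deriv h z)‖ := by congr 1; ring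
      _ ≤ ‖h x.1 - h x.2‖ + ‖h x.1 - h x.2 - (x.1 - x.2) * deriv h z‖ := norm_sub_le _ _
      _ ≤ _ := by linarith
  have n2 : ‖g x.1 - g x.2‖ ≤ ‖(x.1 - x.2) * deriv g z‖ + c * ‖x.1 - x.2‖ := by
    calc ‖g x.1 - g x.2‖
        = ‖(x.1 - x.2) * deriv g z + (g x.1 - g x.2 - (x.1 - x.2) * deriv g z)‖ := by
          congr 1; ring
      _ ≤ ‖(x.1 - x.2) * deriv g z‖ + ‖g x.1 - g x.2 - (x.1 - x.2) * deriv g z‖ :=
          norm_add_le _ _
      _ ≤ _ := by linarith
  have n3 : ‖h x.1 - h x.2‖ - ‖g x.1 - g x.2‖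
      ≤ ‖(h x.1 + conj (g x.1)) - (h x.2 + conj (g x.2))‖ := by
    rw [e1]
    have := norm_sub_norm_le (h x.1 - h x.2) (-(conj (g x.1 - g x.2)))
    rw [norm_neg, Complex.norm_conj, sub_neg_eq_add] at this
    exact this
  rw [norm_mul] at n1 n2
  have n4 : ‖deriv h z‖ - ‖deriv g z‖ = 3 * c := by rw [hc]; ring
  nlinarith [norm_nonneg (x.1 - x.2)]

/-- Off-diagonal lower bound. -/
theorem local_lower' (H : HarmU h g) {z w : ℂ} (hz : z ∈ ball (0 : ℂ) 1) (hw : w ∈ ball (0 : ℂ) 1)
    (hzw : z ≠ w) :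
    ∃ c : ℝ, 0 < c ∧ ∀ᶠ x : ℂ × ℂ in 𝓝 (z, w),
      c * ‖x.1 - x.2‖ ≤ ‖(h x.1 + conj (g x.1)) - (h x.2 + conj (g x.2))‖ := by
  have hne : (h z + conj (g z)) - (h w + conj (g w)) ≠ 0 := by
    intro h0
    exact hzw (H.inj hz hw (sub_eq_zero.mp h0))
  have hpos : 0 < ‖(h z + conj (g z)) - (h w + conj (g w))‖ := norm_pos_iff.mpr hne
  have hzw' : 0 < ‖z - w‖ := norm_pos_iff.mpr (sub_ne_zero.mpr hzw)
  set c : ℝ := ‖(h z + conj (g z)) - (h w + conj (g w))‖ / (2 * ‖z - w‖) with hc
  have hc0 : 0 < c := by rw [hc]; positivity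
  refine ⟨c, hc0, ?_⟩
  have ch : ∀ y ∈ ball (0 : ℂ) 1, ContinuousAt (fun z => h z + conj (g z)) y := by
    intro y hy
    exact (H.hd.continuousOn.continuousAt (isOpen_ball.mem_nhds hy)).add
      (Complex.continuous_conj.continuousAt.comp
        (H.gd.continuousOn.continuousAt (isOpen_ball.mem_nhds hy)))
  have c1 : ContinuousAt (fun x : ℂ × ℂ => ‖(h x.1 + conj (g x.1)) - (h x.2 + conj (g x.2))‖
      - c * ‖x.1 - x.2‖) (z, w) := by
    have a1 : ContinuousAt (fun x : ℂ × ℂ => h x.1 + conj (g x.1)) (z, w) :=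
      ContinuousAt.comp (f := Prod.fst) (g := fun z => h z + conj (g z)) (x := (z, w))
        (ch z hz) continuousAt_fst
    have a2 : ContinuousAt (fun x : ℂ × ℂ => h x.2 + conj (g x.2)) (z, w) :=
      ContinuousAt.comp (f := Prod.snd) (g := fun z => h z + conj (g z)) (x := (z, w))
        (ch w hw) continuousAt_snd
    exact (a1.sub a2).norm.sub (continuousAt_const.mul (continuousAt_fst.sub continuousAt_snd).norm)
  have c2 : 0 < ‖(h z + conj (g z)) - (h w + conj (g w))‖ - c * ‖z - w‖ := by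
    have : c * ‖z - w‖ = ‖(h z + conj (g z)) - (h w + conj (g w))‖ / 2 := by
      rw [hc]; field_simp
    rw [this]; linarith
  filter_upwards [c1.eventually (eventually_gt_nhds c2)] with x hx
  linarith

/-- Global lower bound on a smaller closed disc. -/
theorem global_lower (H : HarmU h g) {ρ : ℝ} (hρ : ρ < 1) :
    ∃ c : ℝ, 0 < c ∧ ∀ z ∈ closedBall (0 : ℂ) ρ, ∀ w ∈ closedBall (0 : ℂ) ρ,
      c * ‖z - w‖ ≤ ‖(h z + conj (g z)) - (h w + conj (g w))‖ := by
  have hsub : closedBall (0 : ℂ) ρ ⊆ ball (0 : ℂ) 1 := closedBall_subset_ball hρ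
  have hK : IsCompact (closedBall (0 : ℂ) ρ ×ˢ closedBall (0 : ℂ) ρ) :=
    (isCompact_closedBall _ _).prod (isCompact_closedBall _ _)
  have key : ∃ c : ℝ, 0 < c ∧ ∀ x ∈ closedBall (0 : ℂ) ρ ×ˢ closedBall (0 : ℂ) ρ,
      c * ‖x.1 - x.2‖ ≤ ‖(h x.1 + conj (g x.1)) - (h x.2 + conj (g x.2))‖ := by
    refine hK.induction_on (p := fun S => ∃ c : ℝ, 0 < c ∧ ∀ x ∈ S,
      c * ‖x.1 - x.2‖ ≤ ‖(h x.1 + conj (g x.1)) - (h x.2 + conj (g x.2))‖) ?_ ?_ ?_ ?_
    · exact ⟨1, one_pos, fun x hx => absurd hx (notMem_empty _)⟩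
    · rintro s t hst ⟨c, hc, h1⟩
      exact ⟨c, hc, fun x hx => h1 x (hst hx)⟩
    · rintro s t ⟨c, hc, h1⟩ ⟨d, hd, h2⟩
      refine ⟨min c d, lt_min hc hd, ?_⟩
      rintro x (hx | hx)
      · exact le_trans (mul_le_mul_of_nonneg_right (min_le_left _ _) (norm_nonneg _)) (h1 x hx)
      · exact le_trans (mul_le_mul_of_nonneg_right (min_le_right _ _) (norm_nonneg _)) (h2 x hx)
    · rintro ⟨z, w⟩ ⟨hz, hw⟩
      by_cases hzw : z = w
      · subst hzw
        obtain ⟨c, hc, h1⟩ := local_lower H (hsub hz)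
        exact ⟨_, mem_nhdsWithin_of_mem_nhds h1, c, hc, fun x hx => hx⟩
      · obtain ⟨c, hc, h1⟩ := local_lower' H (hsub hz) (hsub hw) hzw
        exact ⟨_, mem_nhdsWithin_of_mem_nhds h1, c, hc, fun x hx => hx⟩
  obtain ⟨c, hc, h1⟩ := key
  exact ⟨c, hc, fun z hz w hw => h1 (z, w) ⟨hz, hw⟩⟩

/-- The derivative gap on a smaller closed disc. -/
theorem gap (H : HarmU h g) {ρ : ℝ} (hρ0 : 0 ≤ ρ) (hρ : ρ < 1) :
    ∃ c : ℝ, 0 < c ∧ ∀ z ∈ closedBall (0 : ℂ) ρ, ‖deriv g z‖ + c ≤ ‖deriv h z‖ := by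
  have hsub : closedBall (0 : ℂ) ρ ⊆ ball (0 : ℂ) 1 := closedBall_subset_ball hρ
  have hne : (closedBall (0 : ℂ) ρ).Nonempty := ⟨0, by simpa using hρ0⟩
  have hcont : ContinuousOn (fun z => ‖deriv h z‖ - ‖deriv g z‖) (closedBall (0 : ℂ) ρ) := by
    apply ContinuousOn.sub
    · exact ((H.hd.deriv isOpen_ball).continuousOn.mono hsub).norm
    · exact ((H.gd.deriv isOpen_ball).continuousOn.mono hsub).norm
  obtain ⟨z0, hz0, hmin⟩ := (isCompact_closedBall (0 : ℂ) ρ).exists_isMinOn hne hcont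
  refine ⟨‖deriv h z0‖ - ‖deriv g z0‖, by have := H.lt z0 (hsub hz0); linarith, ?_⟩
  intro z hz
  have h1 : ‖deriv h z0‖ - ‖deriv g z0‖ ≤ ‖deriv h z‖ - ‖deriv g z‖ := hmin hz
  linarith

end LowerBound

/-- Polynomial approximation of a holomorphic function in `C¹` on smaller discs, with the same
second order jet at the centre. -/
theorem exists_poly {h : ℂ → ℂ} (hd : DifferentiableOn ℂ h (ball 0 1)) {ρ : ℝ} (hρ : ρ < 1)
    {ε : ℝ} (hε : 0 < ε) :
    ∃ p : Polynomial ℂ, p.eval 0 = 0 ∧ p.derivative.eval 0 = deriv h 0 ∧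
      p.derivative.derivative.eval 0 = deriv (deriv h) 0 ∧
      ∀ z ∈ closedBall (0 : ℂ) ρ, ‖p.derivative.eval z - deriv h z‖ < ε := by
  have hd1 : DifferentiableOn ℂ (deriv h) (ball 0 1) := hd.deriv isOpen_ball
  obtain ⟨s, hs0, hs1⟩ : ∃ s : ℝ, max ρ 0 < s ∧ s < 1 := exists_between (max_lt hρ one_pos)
  have hsρ : ρ < s := lt_of_le_of_lt (le_max_left _ _) hs0
  have hspos : 0 < s := lt_of_le_of_lt (le_max_right _ _) hs0
  lift s to NNReal using hspos.le
  have hs : HasFPowerSeriesOnBall (deriv h) (cauchyPowerSeries (deriv h) 0 s) 0 s := by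
    apply DifferentiableOn.hasFPowerSeriesOnBall
    · exact hd1.mono (closedBall_subset_ball hs1)
    · exact_mod_cast hspos
  obtain ⟨t, ht0, ht1⟩ : ∃ t : ℝ, max ρ 0 < t ∧ t < s := exists_between (max_lt hsρ hspos)
  have htρ : ρ < t := lt_of_le_of_lt (le_max_left _ _) ht0
  have htpos : 0 < t := lt_of_le_of_lt (le_max_right _ _) ht0
  lift t to NNReal using htpos.le
  have hu := hs.tendstoUniformlyOn (r' := t) (by exact_mod_cast ht1)
  rw [Metric.tendstoUniformlyOn_iff] at hu
  obtain ⟨n, hn⟩ := (hu ε hε).and (eventually_ge_atTop 2) |>.exists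
  obtain ⟨hn1, hn2⟩ := hn
  set P := cauchyPowerSeries (deriv h) 0 (s : ℝ) with hP
  set a : ℕ → ℂ := fun k => P.coeff k with ha
  have hder : (∑ k ∈ Finset.range n, Polynomial.monomial (k + 1) (a k / (k + 1))).derivative
      = ∑ k ∈ Finset.range n, Polynomial.monomial k (a k) := by
    rw [Polynomial.derivative_sum]
    apply Finset.sum_congr rfl
    intro k _
    rw [Polynomial.derivative_monomial, Nat.add_sub_cancel]
    congr 1
    have : ((k : ℂ) + 1) ≠ 0 := Nat.cast_add_one_ne_zero k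
    push_cast
    field_simp
  have ha0 : a 0 = deriv h 0 := by
    rw [ha]; exact hs.coeff_zero _
  have ha1 : a 1 = deriv (deriv h) 0 := by
    rw [ha]; exact hs.hasFPowerSeriesAt.deriv.symm
  refine ⟨∑ k ∈ Finset.range n, Polynomial.monomial (k + 1) (a k / (k + 1)), ?_, ?_, ?_, ?_⟩
  · rw [Polynomial.eval_finsetSum]
    apply Finset.sum_eq_zero
    intro k _
    simp [Polynomial.eval_monomial]
  · rw [hder, Polynomial.eval_finsetSum, Finset.sum_eq_single_of_mem 0
      (Finset.mem_range.mpr (by omega))]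
    · simp [ha0]
    · intro k _ hk
      simp [Polynomial.eval_monomial, hk]
  · rw [hder, Polynomial.derivative_sum, Polynomial.eval_finsetSum,
      Finset.sum_eq_single_of_mem 1 (Finset.mem_range.mpr (by omega))]
    · simp [ha1]
    · intro k _ hk
      rcases Nat.eq_zero_or_pos k with h0 | h0
      · subst h0; simp
      · rw [Polynomial.derivative_monomial, Polynomial.eval_monomial,
          zero_pow (by omega), mul_zero]
  · intro z hz
    have hz' : z ∈ ball (0 : ℂ) t := by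
      have : ‖z‖ ≤ ρ := by simpa using hz
      simpa using lt_of_le_of_lt this htρ
    have h1 := hn1 z hz'
    rw [dist_comm, dist_eq_norm, zero_add] at h1
    have h2 : P.partialSum n z = (∑ k ∈ Finset.range n, Polynomial.monomial (k + 1)
        (a k / (k + 1))).derivative.eval z := by
      rw [hder, Polynomial.eval_finsetSum, FormalMultilinearSeries.partialSum]
      apply Finset.sum_congr rfl
      intro k _
      rw [FormalMultilinearSeries.apply_eq_pow_smul_coeff, Polynomial.eval_monomial, smul_eq_mul,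
        mul_comm]
    rw [← h2]
    exact h1

/-- **Reduction to polynomials.**  If the inequality `‖L''(0)‖ ≤ 6 ‖L'(0)‖`, `L = p - q`, holds for
all harmonic polynomials `p + conj q` which are univalent and sense-preserving on a disc of radius
`R > 1`, then it holds for all univalent sense-preserving harmonic maps of the unit disc. -/
theorem poly_reduction
    (P : ∀ (R : ℝ) (p q : Polynomial ℂ), 1 < R → p.eval 0 = 0 → q.eval 0 = 0 →
      (∀ z ∈ ball (0 : ℂ) R, ‖q.derivative.eval z‖ < ‖p.derivative.eval z‖) →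
      InjOn (fun z => p.eval z + conj (q.eval z)) (ball (0 : ℂ) R) →
      ‖p.derivative.derivative.eval 0 - q.derivative.derivative.eval 0‖
        ≤ 6 * ‖p.derivative.eval 0 - q.derivative.eval 0‖)
    {h g : ℂ → ℂ} (H : HarmU h g) :
    ‖deriv (deriv h) 0 - deriv (deriv g) 0‖ ≤ 6 * ‖deriv h 0 - deriv g 0‖ := by
  have main : ∀ r : ℝ, 0 < r → r < 1 →
      r * ‖deriv (deriv h) 0 - deriv (deriv g) 0‖ ≤ 6 * ‖deriv h 0 - deriv g 0‖ := by
    intro r hr0 hr1
    obtain ⟨ρ, hρr, hρ1⟩ := exists_between hr1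
    have hρ0 : 0 < ρ := hr0.trans hρr
    have hsub : closedBall (0 : ℂ) ρ ⊆ ball (0 : ℂ) 1 := closedBall_subset_ball hρ1
    obtain ⟨c, hc, hlow⟩ := global_lower H hρ1
    obtain ⟨c1, hc1, hgap⟩ := gap H hρ0.le hρ1
    set ε : ℝ := min c c1 / 3 with hε
    have hmin : 0 < min c c1 := lt_min hc hc1
    have hε0 : 0 < ε := by rw [hε]; positivity
    have hεc : 3 * ε ≤ c := by rw [hε]; have := min_le_left c c1; linarith
    have hεc1 : 3 * ε ≤ c1 := by rw [hε]; have := min_le_right c c1; linarith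
    obtain ⟨p, hp0, hp1, hp2, hp⟩ := exists_poly H.hd hρ1 hε0
    obtain ⟨q, hq0, hq1, hq2, hq⟩ := exists_poly H.gd hρ1 hε0
    -- the sense preserving property of `p + conj q`
    have hlt : ∀ z ∈ closedBall (0 : ℂ) ρ, ‖q.derivative.eval z‖ < ‖p.derivative.eval z‖ := by
      intro z hz
      have h1 := hp z hz
      have h2 := hq z hz
      have h3 := hgap z hz
      have h4 : ‖deriv h z‖ ≤ ‖p.derivative.eval z‖ + ‖p.derivative.eval z - deriv h z‖ := by
        calc ‖deriv h z‖ = ‖p.derivative.eval z - (p.derivative.eval z - deriv h z)‖ := by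
              congr 1; ring
          _ ≤ _ := norm_sub_le _ _
      have h5 : ‖q.derivative.eval z‖ ≤ ‖deriv g z‖ + ‖q.derivative.eval z - deriv g z‖ := by
        calc ‖q.derivative.eval z‖ = ‖deriv g z + (q.derivative.eval z - deriv g z)‖ := by
              congr 1; ring
          _ ≤ _ := norm_add_le _ _
      linarith
    -- Lipschitz bounds for the differences
    have hlip : ∀ (k : ℂ → ℂ) (u : Polynomial ℂ), DifferentiableOn ℂ k (ball 0 1) →
        (∀ z ∈ closedBall (0 : ℂ) ρ, ‖u.derivative.eval z - deriv k z‖ < ε) →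
        ∀ z ∈ closedBall (0 : ℂ) ρ, ∀ w ∈ closedBall (0 : ℂ) ρ,
          ‖(u.eval z - k z) - (u.eval w - k w)‖ ≤ ε * ‖z - w‖ := by
      intro k u hk hu z hz w hw
      have hkd : ∀ y ∈ closedBall (0 : ℂ) ρ, HasDerivAt (fun y => u.eval y - k y)
          (u.derivative.eval y - deriv k y) y := by
        intro y hy
        exact (u.hasDerivAt y).sub
          ((hk.differentiableAt (isOpen_ball.mem_nhds (hsub hy))).hasDerivAt)
      have h1 := Convex.norm_image_sub_le_of_norm_deriv_le (𝕜 := ℂ)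
        (f := fun y => u.eval y - k y) (C := ε) (s := closedBall (0 : ℂ) ρ) (x := w) (y := z)
        (fun y hy => (hkd y hy).differentiableAt)
        (fun y hy => by rw [(hkd y hy).deriv]; exact (hu y hy).le)
        (convex_closedBall _ _) hw hz
      exact h1
    have hinj : InjOn (fun z => p.eval z + conj (q.eval z)) (closedBall (0 : ℂ) ρ) := by
      intro z hz w hw hzw
      by_contra hne
      have hpos : 0 < ‖z - w‖ := norm_pos_iff.mpr (sub_ne_zero.mpr hne)
      have h1 := hlow z hz w hw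
      have h2 := hlip h p H.hd hp z hz w hw
      have h3 := hlip g q H.gd hq z hz w hw
      have h4 : p.eval z + conj (q.eval z) = p.eval w + conj (q.eval w) := hzw
      have e1 : (h z + conj (g z)) - (h w + conj (g w))
          = -(((p.eval z - h z) - (p.eval w - h w))
            + conj ((q.eval z - g z) - (q.eval w - g w))) := by
        simp only [map_sub]
        linear_combination h4
      have h5 : ‖(h z + conj (g z)) - (h w + conj (g w))‖ ≤ ε * ‖z - w‖ + ε * ‖z - w‖ := by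
        rw [e1, norm_neg]
        refine (norm_add_le _ _).trans ?_
        rw [Complex.norm_conj]
        exact add_le_add h2 h3
      nlinarith
    -- dilate
    have hR : 1 < ρ / r := by rw [lt_div_iff₀ hr0]; linarith
    have hmaps : ∀ z ∈ ball (0 : ℂ) (ρ / r), (r : ℂ) * z ∈ closedBall (0 : ℂ) ρ := by
      intro z hz
      have h1 : ‖z‖ < ρ / r := by simpa using hz
      rw [lt_div_iff₀ hr0] at h1
      simp only [mem_closedBall, dist_zero_right, norm_mul, Complex.norm_real, Real.norm_eq_abs,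
        abs_of_pos hr0]
      nlinarith
    have hrC : (r : ℂ) ≠ 0 := by exact_mod_cast hr0.ne'
    have hfin := P (ρ / r) (p.comp (Polynomial.C (r : ℂ) * Polynomial.X))
      (q.comp (Polynomial.C (r : ℂ) * Polynomial.X)) hR (by simp [hp0]) (by simp [hq0])
      (by
        intro z hz
        have h1 := hlt _ (hmaps z hz)
        simp only [Polynomial.derivative_comp, Polynomial.derivative_C_mul,
          Polynomial.derivative_X, mul_one, Polynomial.eval_mul, Polynomial.eval_C,
          Polynomial.eval_comp, Polynomial.eval_X, norm_mul]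
        exact mul_lt_mul_of_pos_left h1 (norm_pos_iff.mpr hrC))
      (by
        intro z hz w hw hzw
        have h1 := hinj (hmaps z hz) (hmaps w hw) (by simpa using hzw)
        exact mul_left_cancel₀ hrC h1)
    simp only [Polynomial.derivative_comp, Polynomial.derivative_C_mul,
      Polynomial.derivative_X, mul_one, Polynomial.eval_mul, Polynomial.eval_C,
      Polynomial.eval_comp, Polynomial.eval_X, mul_zero, hp1, hp2, hq1, hq2] at hfin
    have e2 : (r : ℂ) * (r * deriv (deriv h) 0) - r * (r * deriv (deriv g) 0)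
        = (r : ℂ) * r * (deriv (deriv h) 0 - deriv (deriv g) 0) := by ring
    have e3 : (r : ℂ) * deriv h 0 - r * deriv g 0 = (r : ℂ) * (deriv h 0 - deriv g 0) := by ring
    rw [e2, e3, norm_mul, norm_mul, norm_mul, Complex.norm_real, Real.norm_eq_abs,
      abs_of_pos hr0] at hfin
    have h6 : r * (r * ‖deriv (deriv h) 0 - deriv (deriv g) 0‖)
        ≤ r * (6 * ‖deriv h 0 - deriv g 0‖) := by nlinarith
    exact le_of_mul_le_mul_left h6 hr0
  -- let `r → 1`
  have hlim : Tendsto (fun r : ℝ => r * ‖deriv (deriv h) 0 - deriv (deriv g) 0‖) (𝓝[<] 1)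
      (𝓝 (1 * ‖deriv (deriv h) 0 - deriv (deriv g) 0‖)) := by
    apply Tendsto.mul_const
    exact tendsto_nhdsWithin_of_tendsto_nhds tendsto_id
  rw [one_mul] at hlim
  refine le_of_tendsto hlim ?_
  have h1 : Ioo (0 : ℝ) 1 ∈ 𝓝[<] (1 : ℝ) := Ioo_mem_nhdsLT one_pos
  filter_upwards [h1] with r hr
  exact main r hr.1 hr.2

end Pool.Agent.CSH
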