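import Pool.Agent.CSH.Quad1

/-!
# Exact quadrature, polynomial lemmas
-/

open Finset Polynomial ComplexConjugate

namespace Pool.CSH.Quad

variable {S : Finset ℂ} {τ : ℂ → ℝ} {D : ℕ}

/-- The reversed conjugate polynomial as a polynomial. -/
noncomputable def RP (P : ℂ[X]) : ℂ[X] :=
  ∑ k ∈ range (P.natDegree + 1), C (conj (P.coeff k)) * X ^ (P.natDegree - k)

lemma RP_eval (P : ℂ[X]) (z : ℂ) : (RP P).eval z = R P z := by
  unfold RP R
  rw [Polynomial.eval_finsetSum]
  refine Finset.sum_congr rfl fun k _ => ?_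
  simp

lemma RP_coeff_zero (P : ℂ[X]) : (RP P).coeff 0 = conj P.leadingCoeff := by
  unfold RP
  rw [Polynomial.finsetSum_coeff, Finset.sum_eq_single P.natDegree]
  · rw [Polynomial.coeff_C_mul, Nat.sub_self, pow_zero, Polynomial.coeff_one_zero, mul_one]
    rfl
  · intro k hk hne
    have hk' := Finset.mem_range.1 hk
    rw [Polynomial.coeff_C_mul, Polynomial.coeff_X_pow, if_neg (by omega), mul_zero]
  · intro h
    exact absurd (Finset.mem_range.2 (Nat.lt_succ_self _)) h

lemma RP_natDegree_le (P : ℂ[X]) : (RP P).natDegree ≤ P.natDegree := by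
  unfold RP
  apply Polynomial.natDegree_sum_le_of_forall_le
  intro k _
  exact (Polynomial.natDegree_C_mul_X_pow_le _ _).trans (Nat.sub_le _ _)

/-- The critical points of `Im L`, `L' = P`, on the circle form a finite set. -/
theorem finite_re_eq_zero {P : ℂ[X]} (hP : P ≠ 0) :
    {a : ℂ | ‖a‖ = 1 ∧ (a * P.eval a).re = 0}.Finite := by
  set Q : ℂ[X] := X ^ (P.natDegree + 2) * P + RP P with hQ
  have hQ0 : Q ≠ 0 := by
    intro h
    have h1 : Q.coeff 0 = conj P.leadingCoeff := by
      rw [hQ, Polynomial.coeff_add, RP_coeff_zero, Polynomial.mul_coeff_zero,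
        Polynomial.coeff_X_pow, if_neg (by omega), zero_mul, zero_add]
    rw [h, Polynomial.coeff_zero] at h1
    have h2 : P.leadingCoeff = 0 := by
      have := congrArg conj h1
      rw [Complex.conj_conj, map_zero] at this
      exact this.symm
    exact hP (Polynomial.leadingCoeff_eq_zero.1 h2)
  refine (Q.roots.toFinset.finite_toSet).subset ?_
  rintro a ⟨ha, hre⟩
  rw [Finset.mem_coe, Multiset.mem_toFinset, Polynomial.mem_roots hQ0, Polynomial.IsRoot.def]
  have ha0 := ne_zero_of_norm ha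
  rw [hQ, Polynomial.eval_add, Polynomial.eval_mul, Polynomial.eval_pow, Polynomial.eval_X,
    RP_eval, R_eq ha]
  have h3 : a * P.eval a + conj (a * P.eval a) = 0 := by
    rw [Complex.add_conj, hre]
    simp
  rw [map_mul, ← inv_eq_conj ha] at h3
  have h4 : a ^ (P.natDegree + 2) * P.eval a + a ^ P.natDegree * conj (P.eval a) =
      a ^ (P.natDegree + 1) * (a * P.eval a + a⁻¹ * conj (P.eval a)) := by
    have h5 : a ^ (P.natDegree + 1) * a⁻¹ = a ^ P.natDegree := by
      rw [pow_succ, mul_assoc, mul_inv_cancel₀ ha0, mul_one]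
    linear_combination (-conj (P.eval a)) * h5
  rw [h4, h3, mul_zero]

/-- The level sets of `Im L` on the circle are finite, with at most `2 deg L` points. -/
theorem level_finite {L : ℂ[X]} (hL : 1 ≤ L.natDegree) (t : ℝ) :
    {a : ℂ | ‖a‖ = 1 ∧ (L.eval a).im = t}.Finite ∧
      {a : ℂ | ‖a‖ = 1 ∧ (L.eval a).im = t}.ncard ≤ 2 * L.natDegree := by
  classical
  set Q : ℂ[X] := X ^ L.natDegree * L - RP L - C (2 * t * Complex.I) * X ^ L.natDegree with hQ
  have hL0 : L ≠ 0 := by
    rintro rfl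
    simp at hL
  have hQ0 : Q ≠ 0 := by
    intro h
    have h1 : Q.coeff 0 = - conj L.leadingCoeff := by
      rw [hQ, Polynomial.coeff_sub, Polynomial.coeff_sub, RP_coeff_zero,
        Polynomial.mul_coeff_zero, Polynomial.coeff_C_mul,
        Polynomial.coeff_X_pow, if_neg (by omega), zero_mul, mul_zero]
      ring
    rw [h, Polynomial.coeff_zero] at h1
    have h2 : L.leadingCoeff = 0 := by
      have := congrArg conj (neg_eq_zero.1 h1.symm)
      rw [Complex.conj_conj, map_zero] at this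
      exact this
    exact hL0 (Polynomial.leadingCoeff_eq_zero.1 h2)
  have hdeg : Q.natDegree ≤ 2 * L.natDegree := by
    have h1 : (X ^ L.natDegree * L : ℂ[X]).natDegree ≤ 2 * L.natDegree := by
      refine Polynomial.natDegree_mul_le.trans ?_
      rw [Polynomial.natDegree_X_pow]
      omega
    have h2 : (RP L).natDegree ≤ 2 * L.natDegree := (RP_natDegree_le L).trans (by omega)
    have h3 : (C (2 * t * Complex.I) * X ^ L.natDegree : ℂ[X]).natDegree ≤ 2 * L.natDegree :=
      (Polynomial.natDegree_C_mul_X_pow_le _ _).trans (by omega)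
    exact Polynomial.natDegree_sub_le_of_le (Polynomial.natDegree_sub_le_of_le h1 h2) h3 |>.trans
      (by simp)
  have hsub : {a : ℂ | ‖a‖ = 1 ∧ (L.eval a).im = t} ⊆ (Q.roots.toFinset : Set ℂ) := by
    rintro a ⟨ha, him⟩
    rw [Finset.mem_coe, Multiset.mem_toFinset, Polynomial.mem_roots hQ0, Polynomial.IsRoot.def]
    rw [hQ, Polynomial.eval_sub, Polynomial.eval_sub, Polynomial.eval_mul, Polynomial.eval_mul,
      Polynomial.eval_pow, Polynomial.eval_X, Polynomial.eval_C, RP_eval, R_eq ha]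
    have h3 := Complex.sub_conj (L.eval a)
    rw [him] at h3
    push_cast at h3
    linear_combination (a ^ L.natDegree) * h3
  refine ⟨(Finset.finite_toSet _).subset hsub, ?_⟩
  calc {a : ℂ | ‖a‖ = 1 ∧ (L.eval a).im = t}.ncard
      ≤ (Q.roots.toFinset : Set ℂ).ncard := Set.ncard_le_ncard hsub (Finset.finite_toSet _)
    _ = Q.roots.toFinset.card := Set.ncard_coe_finset _
    _ ≤ Multiset.card Q.roots := Multiset.toFinset_card_le _
    _ ≤ Q.natDegree := Polynomial.card_roots' Q
    _ ≤ 2 * L.natDegree := hdeg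

/-- An exact quadrature of order `D` has at least `D + 1` nodes. -/
theorem Exact.card_ge (h : Exact S τ D) : D + 1 ≤ S.card := by
  by_contra hcon
  push Not at hcon
  set Q : ℂ[X] := ∏ a ∈ S, (X - C a) with hQ
  have hdeg : Q.natDegree = S.card := by
    rw [hQ, Polynomial.natDegree_prod_of_monic _ _ fun a _ => Polynomial.monic_X_sub_C a]
    simp
  have h1 : ∑ a ∈ S, (τ a : ℂ) * Q.eval a = 0 := by
    apply Finset.sum_eq_zero
    intro a ha
    have : Q.eval a = 0 := by
      rw [hQ, Polynomial.eval_prod]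
      apply Finset.prod_eq_zero ha
      simp
    rw [this, mul_zero]
  have h2 : ∑ a ∈ S, (τ a : ℂ) * Q.eval a = Q.coeff 0 := by
    simp_rw [Polynomial.eval_eq_sum_range, Finset.mul_sum]
    rw [Finset.sum_comm, Finset.sum_eq_single 0]
    · simp only [pow_zero, mul_one]
      rw [← Finset.sum_mul, h.sumC, one_mul]
    · intro k hk hk0
      have hk' := Finset.mem_range.1 hk
      have h3 : ∀ a ∈ S, (τ a : ℂ) * (Q.coeff k * a ^ k) = Q.coeff k * ((τ a : ℂ) * a ^ k) :=
        fun a _ => by ring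
      rw [Finset.sum_congr rfl h3, ← Finset.mul_sum,
        h.moment k (Nat.one_le_iff_ne_zero.2 hk0) (by omega), mul_zero]
    · intro h0
      exact absurd (Finset.mem_range.2 (Nat.succ_pos _)) h0
  have h3 : Q.coeff 0 ≠ 0 := by
    rw [Polynomial.coeff_zero_eq_eval_zero, hQ, Polynomial.eval_prod, Finset.prod_ne_zero_iff]
    intro a ha
    simpa using ne_zero_of_norm (h.norm a ha)
  exact h3 (h2.symm.trans h1)

/-- A function with the lower bound `m (1 - ‖z‖)` has simple zeros on the circle. -/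
theorem simple_of_lower {S : Finset ℂ} {c : ℂ → ℂ} {m : ℝ} (hm : 0 < m)
    (hlow : ∀ z : ℂ, ‖z‖ < 1 → m * (1 - ‖z‖) ≤ ‖∑ a ∈ S, c a / (a - z)‖) {z : ℂ} (hz : ‖z‖ = 1)
    (hzS : z ∉ S) (h0 : ∑ a ∈ S, c a / (a - z) = 0) : ∑ a ∈ S, c a / (a - z) ^ 2 ≠ 0 := by
  intro h1
  have hz0 := ne_zero_of_norm hz
  have hne : ∀ a ∈ S, a - z ≠ 0 := by
    intro a ha h2
    rw [sub_eq_zero] at h2
    exact hzS (h2 ▸ ha)
  have hder : HasDerivAt (fun w : ℂ => ∑ a ∈ S, c a / (a - w)) 0 z := by
    have h2 : ∀ a ∈ S, HasDerivAt (fun w : ℂ => c a / (a - w)) (c a / (a - z) ^ 2) z := by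
      intro a ha
      have h3 := (((hasDerivAt_id z).const_sub a).inv (hne a ha)).const_mul (c a)
      refine (h3.congr_deriv ?_).congr_of_eventuallyEq ?_
      · simp only [id]
        ring
      · exact Filter.Eventually.of_forall fun w => by simp [div_eq_mul_inv]
    have h4 := HasDerivAt.fun_sum h2
    rwa [h1] at h4
  rw [hasDerivAt_iff_isLittleO] at hder
  have h2 := hder.def (show (0 : ℝ) < m / 2 by positivity)
  rw [Metric.eventually_nhds_iff] at h2
  obtain ⟨ε, hε, h3⟩ := h2
  set δ : ℝ := min (ε / 2) (1 / 2) with hδ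
  have hδ0 : 0 < δ := by positivity
  have hδ1 : δ ≤ 1 / 2 := min_le_right _ _
  have hδ2 : δ < ε := lt_of_le_of_lt (min_le_left _ _) (by linarith)
  have hw : ‖(((1 - δ : ℝ) : ℂ) * z)‖ = 1 - δ := by
    rw [norm_mul, hz, mul_one, Complex.norm_real, Real.norm_of_nonneg (by linarith)]
  have hd : ((1 - δ : ℝ) : ℂ) * z - z = -((δ : ℂ) * z) := by
    push_cast
    ring
  have hnd : ‖((1 - δ : ℝ) : ℂ) * z - z‖ = δ := by
    rw [hd, norm_neg, norm_mul, hz, mul_one, Complex.norm_real, Real.norm_of_nonneg hδ0.le]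
  have h4 := h3 (y := ((1 - δ : ℝ) : ℂ) * z) (by rw [dist_eq_norm, hnd]; exact hδ2)
  rw [h0, hnd, smul_zero, sub_zero, sub_zero] at h4
  have h5 := hlow (((1 - δ : ℝ) : ℂ) * z) (by rw [hw]; linarith)
  rw [hw] at h5
  nlinarith

end Pool.CSH.Quad
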